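import Pool.Agent.FCT.St1

set_option autoImplicit false

/-!
FCT, part I: APA, the sum of SMO over the shifts of the window.
-/

namespace Pool.Agent.FCT

open Finset
open scoped ArithmeticFunction.vonMangoldt

theorem apa_wt_nonneg (σ : ℝ) (n : ℕ) : 0 ≤ wt σ n := by
  unfold wt
  have h1 : (0:ℝ) ≤ Λ n := ArithmeticFunction.vonMangoldt_nonneg
  have h2 : (0:ℝ) ≤ Real.log n ^ 8 := by positivity
  have h3 : (0:ℝ) ≤ (n : ℝ) ^ (-σ) := by positivity
  positivity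

/-- the weight from below in the window -/
theorem apa_low (L y : ℝ) (n : ℕ) (hL : 1 ≤ L) (hy1 : Real.exp L ≤ y)
    (hy2 : y ≤ Real.exp (2 * L)) (h1 : 11 / 10 * y ≤ (n : ℝ)) (h2 : (n : ℝ) ≤ 13 / 10 * y) :
    L ^ 8 * (13 / 10 * y)⁻¹ * Real.exp (-3) * Λ n ≤ wt (1 + 1 / L) n := by
  have hL0 : 0 < L := by linarith
  have hy0 : 0 < y := lt_of_lt_of_le (Real.exp_pos L) hy1
  have hn0 : (0:ℝ) < n := by linarith
  have hΛ : (0:ℝ) ≤ Λ n := ArithmeticFunction.vonMangoldt_nonneg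
  have hlog1 : L ≤ Real.log n := by
    rw [Real.le_log_iff_exp_le hn0]
    linarith
  have hlog2 : Real.log n ≤ 3 * L := by
    rw [Real.log_le_iff_le_exp hn0]
    have h3 : Real.exp (3 * L) = Real.exp L * Real.exp (2 * L) := by
      rw [← Real.exp_add]; ring_nf
    have h4 : (2:ℝ) ≤ Real.exp L := by
      have := Real.add_one_le_exp L
      linarith
    rw [h3]
    nlinarith [Real.exp_pos (2 * L)]
  have hp : (n : ℝ) ^ (-(1 + 1 / L)) = (n : ℝ)⁻¹ * Real.exp (-(Real.log n / L)) := by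
    rw [show -(1 + 1 / L) = (-1) + (-(1 / L)) by ring, Real.rpow_add hn0, Real.rpow_neg_one,
      Real.rpow_def_of_pos hn0]
    congr 2
    ring
  have he : Real.exp (-3) ≤ Real.exp (-(Real.log n / L)) := by
    apply Real.exp_le_exp.2
    have : Real.log n / L ≤ 3 := by
      rw [div_le_iff₀ hL0]
      exact hlog2
    linarith
  have hinv : (13 / 10 * y)⁻¹ ≤ (n : ℝ)⁻¹ := inv_anti₀ hn0 h2
  have h8 : L ^ 8 ≤ Real.log n ^ 8 := pow_le_pow_left₀ hL0.le hlog1 8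
  unfold wt
  rw [hp]
  have ha : L ^ 8 * (13 / 10 * y)⁻¹ ≤ Real.log n ^ 8 * (n : ℝ)⁻¹ :=
    mul_le_mul h8 hinv (by positivity) (by positivity)
  have hb : L ^ 8 * (13 / 10 * y)⁻¹ * Real.exp (-3) ≤
      Real.log n ^ 8 * (n : ℝ)⁻¹ * Real.exp (-(Real.log n / L)) :=
    mul_le_mul ha he (Real.exp_pos _).le (by positivity)
  calc L ^ 8 * (13 / 10 * y)⁻¹ * Real.exp (-3) * Λ n
      ≤ Real.log n ^ 8 * (n : ℝ)⁻¹ * Real.exp (-(Real.log n / L)) * Λ n :=
        mul_le_mul_of_nonneg_right hb hΛ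
    _ = _ := by ring

/-- the weight from above in the window -/
theorem apa_up (L y : ℝ) (n : ℕ) (hL : 1 ≤ L) (hy1 : Real.exp L ≤ y)
    (hy2 : y ≤ Real.exp (2 * L)) (h1 : y ≤ (n : ℝ)) (h2 : (n : ℝ) ≤ 3 / 2 * y) :
    wt (1 + 1 / L) n ≤ (3 * L) ^ 8 * y⁻¹ * Λ n := by
  have hL0 : 0 < L := by linarith
  have hy0 : 0 < y := lt_of_lt_of_le (Real.exp_pos L) hy1
  have hn0 : (0:ℝ) < n := by linarith
  have hΛ : (0:ℝ) ≤ Λ n := ArithmeticFunction.vonMangoldt_nonneg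
  have hlog1 : L ≤ Real.log n := by
    rw [Real.le_log_iff_exp_le hn0]
    linarith
  have hlog2 : Real.log n ≤ 3 * L := by
    rw [Real.log_le_iff_le_exp hn0]
    have h3 : Real.exp (3 * L) = Real.exp L * Real.exp (2 * L) := by
      rw [← Real.exp_add]; ring_nf
    have h4 : (2:ℝ) ≤ Real.exp L := by
      have := Real.add_one_le_exp L
      linarith
    rw [h3]
    nlinarith [Real.exp_pos (2 * L)]
  have hn1 : (1:ℝ) ≤ n := by
    have := Real.add_one_le_exp L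
    linarith
  have hp : (n : ℝ) ^ (-(1 + 1 / L)) ≤ y⁻¹ := by
    have h3 : (n : ℝ) ^ (-(1 + 1 / L)) ≤ (n : ℝ) ^ (-1 : ℝ) := by
      apply Real.rpow_le_rpow_of_exponent_le hn1
      have : 0 < 1 / L := by positivity
      linarith
    rw [Real.rpow_neg_one] at h3
    exact h3.trans (inv_anti₀ hy0 h1)
  have h8 : Real.log n ^ 8 ≤ (3 * L) ^ 8 := pow_le_pow_left₀ (by linarith) hlog2 8
  unfold wt
  calc Λ n * Real.log n ^ 8 * (n : ℝ) ^ (-(1 + 1 / L))
      = Real.log n ^ 8 * (n : ℝ) ^ (-(1 + 1 / L)) * Λ n := by ring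
    _ ≤ (3 * L) ^ 8 * y⁻¹ * Λ n := by
        apply mul_le_mul_of_nonneg_right _ hΛ
        exact mul_le_mul h8 hp (by positivity) (by positivity)

theorem t_APA : S_APA := by
  intro hMOM hKERF hKERB hGRD hSMO r a L T B y hr ha hL hT hB hy1 hy2 hchi
  have hL0 : 0 < L := by linarith
  have hT0 : 0 < T := by linarith
  have hy0 : 0 < y := lt_of_lt_of_le (Real.exp_pos L) hy1
  have hσ : (1:ℝ) < 1 + 1 / L := by
    have : 0 < 1 / L := by positivity
    linarith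
  have hW : Summable (wt (1 + 1 / L)) := hMOM.1 _ hσ
  obtain ⟨W, hWdef⟩ : ∃ W : ℕ → ℝ, W = wt (1 + 1 / L) := ⟨_, rfl⟩
  have hW0 : ∀ n, 0 ≤ W n := fun n => by rw [hWdef]; exact apa_wt_nonneg _ n
  have hφ : (0:ℝ) ≤ (r.totient : ℝ) := Nat.cast_nonneg _
  obtain ⟨φ, hφdef⟩ : ∃ φ : ℝ, φ = (r.totient : ℝ) := ⟨_, rfl⟩
  rw [← hφdef] at hφ
  have hKf0 : ∀ v, 0 ≤ Kf v := fun v => (hKERF v).1
  have hKf8 : ∀ v, Kf v ≤ 8 := fun v => by
    refine (hKERF v).2.1.trans ?_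
    rw [div_le_iff₀ (by positivity)]
    nlinarith [sq_nonneg v]
  -- the coefficient
  obtain ⟨ia, hia⟩ : ∃ ia : ℕ → ℝ, ia = fun n : ℕ => if (n : ZMod r) = a then (1:ℝ) else 0 :=
    ⟨_, rfl⟩
  obtain ⟨ic, hic⟩ : ∃ ic : ℕ → ℝ, ic = fun n : ℕ => if n.Coprime r then (1:ℝ) else 0 :=
    ⟨_, rfl⟩
  have hia0 : ∀ n, 0 ≤ ia n := fun n => by rw [hia]; dsimp only; split_ifs <;> norm_num
  have hia1 : ∀ n, ia n ≤ 1 := fun n => by rw [hia]; dsimp only; split_ifs <;> norm_num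
  have hic0 : ∀ n, 0 ≤ ic n := fun n => by rw [hic]; dsimp only; split_ifs <;> norm_num
  have hic1 : ∀ n, ic n ≤ 1 := fun n => by rw [hic]; dsimp only; split_ifs <;> norm_num
  have hS : ∀ j : ℕ, |∑' n : ℕ, W n *
      Kf (T * Real.log n - (T * Real.log (11 / 10 * y) + j)) * (φ * ia n - ic n)| ≤ φ * B := by
    intro j
    have h := hSMO hMOM hKERF hKERB r a (1 + 1 / L) T (T * Real.log (11 / 10 * y) + j) B hr ha hσ
      hT0.le hB hchi
    rw [← hφdef, ← hWdef] at h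
    rw [hia, hic]
    exact h
  have hsumj : ∀ j : ℕ, Summable (fun n : ℕ => W n *
      Kf (T * Real.log n - (T * Real.log (11 / 10 * y) + j)) * (φ * ia n - ic n)) := by
    intro j
    refine Summable.of_norm_bounded (g := fun n => W n * (8 * (φ + 1))) ?_ fun n => ?_
    · rw [hWdef]
      exact hW.mul_right _
    · rw [Real.norm_eq_abs, abs_mul, abs_mul, abs_of_nonneg (hW0 n), abs_of_nonneg (hKf0 _),
        mul_assoc]
      apply mul_le_mul_of_nonneg_left _ (hW0 n)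
      have h1 : |φ * ia n - ic n| ≤ φ + 1 := by
        rw [abs_le]
        constructor
        · nlinarith [hia0 n, hic1 n, mul_nonneg hφ (hia0 n)]
        · nlinarith [hia1 n, hic0 n, mul_nonneg hφ (sub_nonneg.2 (hia1 n))]
      exact mul_le_mul (hKf8 _) h1 (abs_nonneg _) (by norm_num)
  obtain ⟨P, hP⟩ : ∃ P : ℕ → ℝ, P = fun n : ℕ => W n * Psi T y (Real.log n) := ⟨_, rfl⟩
  have hPn : ∀ n, P n = W n * Psi T y (Real.log n) := fun n => by rw [hP]
  have hP0 : ∀ n, 0 ≤ P n := fun n => by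
    rw [hPn]
    exact mul_nonneg (hW0 n) (hGRD T y _ hT hy0).1
  have hP50 : ∀ n, P n ≤ W n * 50 := fun n => by
    rw [hPn]
    exact mul_le_mul_of_nonneg_left (hGRD T y _ hT hy0).2.1 (hW0 n)
  have hsumP : Summable P := by
    refine Summable.of_nonneg_of_le hP0 hP50 ?_
    rw [hWdef]
    exact hW.mul_right _
  have hsa : Summable (fun n => P n * ia n) := by
    refine Summable.of_nonneg_of_le (fun n => mul_nonneg (hP0 n) (hia0 n)) (fun n => ?_) hsumP
    nlinarith [hP0 n, hia1 n]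
  have hsc : Summable (fun n => P n * ic n) := by
    refine Summable.of_nonneg_of_le (fun n => mul_nonneg (hP0 n) (hic0 n)) (fun n => ?_) hsumP
    nlinarith [hP0 n, hic1 n]
  -- the sum over the shifts
  have hkey1 : ∑ j ∈ range (⌊T / 5⌋₊ + 1), ∑' n : ℕ, W n *
      Kf (T * Real.log n - (T * Real.log (11 / 10 * y) + j)) * (φ * ia n - ic n) =
      φ * (∑' n, P n * ia n) - ∑' n, P n * ic n := by
    rw [← Summable.tsum_finsetSum (fun j _ => hsumj j), ← tsum_mul_left,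
      ← Summable.tsum_sub (hsa.mul_left φ) hsc]
    refine tsum_congr fun n => ?_
    rw [hPn]
    unfold Psi
    rw [← Finset.sum_mul, ← Finset.mul_sum]
    ring
  have hkey2 : -((T / 5 + 1) * (φ * B)) ≤ φ * (∑' n, P n * ia n) - ∑' n, P n * ic n := by
    rw [← hkey1]
    have h1 : ∑ j ∈ range (⌊T / 5⌋₊ + 1), (-(φ * B)) ≤ ∑ j ∈ range (⌊T / 5⌋₊ + 1),
        ∑' n : ℕ, W n * Kf (T * Real.log n - (T * Real.log (11 / 10 * y) + j)) *
          (φ * ia n - ic n) :=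
      Finset.sum_le_sum fun j _ => (abs_le.1 (hS j)).1
    refine le_trans ?_ h1
    rw [Finset.sum_const, Finset.card_range, nsmul_eq_mul]
    push_cast
    have h2 : (⌊T / 5⌋₊ : ℝ) ≤ T / 5 := Nat.floor_le (by positivity)
    have h3 : 0 ≤ φ * B := mul_nonneg hφ hB
    nlinarith
  -- the lower bound
  have hlow : 1 / 2 * L ^ 8 * (13 / 10 * y)⁻¹ * Real.exp (-3) *
      ∑ n ∈ (Ioc ⌊11 / 10 * y⌋₊ ⌊13 / 10 * y⌋₊).filter (fun n => n.Coprime r), Λ n ≤
      ∑' n, P n * ic n := by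
    refine le_trans ?_ (Summable.sum_le_tsum
      ((Ioc ⌊11 / 10 * y⌋₊ ⌊13 / 10 * y⌋₊).filter (fun n => n.Coprime r))
      (fun n _ => mul_nonneg (hP0 n) (hic0 n)) hsc)
    rw [Finset.mul_sum]
    refine Finset.sum_le_sum fun n hn => ?_
    rw [Finset.mem_filter, Finset.mem_Ioc] at hn
    obtain ⟨⟨hn1, hn2⟩, hn3⟩ := hn
    have h1 : 11 / 10 * y ≤ (n : ℝ) := (Nat.lt_of_floor_lt hn1).le
    have h2 : (n : ℝ) ≤ 13 / 10 * y := by
      rw [Nat.le_floor_iff (by positivity)] at hn2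
      exact hn2
    have hn0 : (0:ℝ) < n := by linarith
    have h3 : 1 / 2 ≤ Psi T y (Real.log n) := by
      apply (hGRD T y (Real.log n) hT hy0).2.2.1
      · exact Real.log_le_log (by positivity) h1
      · exact Real.log_le_log hn0 h2
    have h4 : ic n = 1 := by rw [hic]; dsimp only; rw [if_pos hn3]
    have h5 := apa_low L y n hL hy1 hy2 h1 h2
    rw [← hWdef] at h5
    rw [h4, mul_one, hPn]
    have h6 : W n * (1 / 2) ≤ W n * Psi T y (Real.log n) :=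
      mul_le_mul_of_nonneg_left h3 (hW0 n)
    calc 1 / 2 * L ^ 8 * (13 / 10 * y)⁻¹ * Real.exp (-3) * Λ n
        = (L ^ 8 * (13 / 10 * y)⁻¹ * Real.exp (-3) * Λ n) * (1 / 2) := by ring
      _ ≤ W n * (1 / 2) := mul_le_mul_of_nonneg_right h5 (by norm_num)
      _ ≤ _ := h6
  -- the upper bound
  have hup : ∑' n, P n * ia n ≤ 50 * (3 * L) ^ 8 * y⁻¹ *
      ∑ n ∈ (Ioc ⌊y⌋₊ ⌊3 / 2 * y⌋₊).filter (fun n : ℕ => (n : ZMod r) = a), Λ n +
      (2000 / T) * ∑' n, W n := by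
    obtain ⟨S, hSd⟩ : ∃ S : Finset ℕ, S = (Ioc ⌊y⌋₊ ⌊3 / 2 * y⌋₊).filter
      (fun n : ℕ => (n : ZMod r) = a) := ⟨_, rfl⟩
    rw [← hSd]
    have hfin : HasSum (fun n => if n ∈ S then 50 * (3 * L) ^ 8 * y⁻¹ * Λ n else 0)
        (∑ n ∈ S, 50 * (3 * L) ^ 8 * y⁻¹ * Λ n) := by
      have h : HasSum (fun n => if n ∈ S then 50 * (3 * L) ^ 8 * y⁻¹ * Λ n else 0)
          (∑ n ∈ S, (if n ∈ S then 50 * (3 * L) ^ 8 * y⁻¹ * Λ n else 0)) :=
        hasSum_sum_of_ne_finset_zero (fun n hn => if_neg hn)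
      have h2 : ∑ n ∈ S, (if n ∈ S then 50 * (3 * L) ^ 8 * y⁻¹ * Λ n else 0) =
          ∑ n ∈ S, 50 * (3 * L) ^ 8 * y⁻¹ * Λ n :=
        Finset.sum_congr rfl fun n hn => if_pos hn
      rw [h2] at h
      exact h
    have hWs : Summable W := by rw [hWdef]; exact hW
    have htot := hfin.add (hWs.mul_left (2000 / T)).hasSum
    rw [tsum_mul_left, ← Finset.mul_sum] at htot
    refine (Summable.tsum_le_tsum (fun n => ?_) hsa htot.summable).trans (le_of_eq htot.tsum_eq)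
    have hT1 : 0 ≤ 2000 / T := by positivity
    have hΛ : (0:ℝ) ≤ Λ n := ArithmeticFunction.vonMangoldt_nonneg
    by_cases hn : n ∈ S
    · rw [if_pos hn]
      rw [hSd, Finset.mem_filter, Finset.mem_Ioc] at hn
      obtain ⟨⟨hn1, hn2⟩, hn3⟩ := hn
      have h1 : y ≤ (n : ℝ) := (Nat.lt_of_floor_lt hn1).le
      have h2 : (n : ℝ) ≤ 3 / 2 * y := by
        rw [Nat.le_floor_iff (by positivity)] at hn2
        exact hn2
      have h5 := apa_up L y n hL hy1 hy2 h1 h2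
      rw [← hWdef] at h5
      have h6 : P n * ia n ≤ P n := by nlinarith [hP0 n, hia1 n]
      have h7 := hP50 n
      have h8 : 0 ≤ 2000 / T * W n := mul_nonneg hT1 (hW0 n)
      calc P n * ia n ≤ W n * 50 := h6.trans h7
        _ ≤ (3 * L) ^ 8 * y⁻¹ * Λ n * 50 := by linarith
        _ = 50 * (3 * L) ^ 8 * y⁻¹ * Λ n := by ring
        _ ≤ _ := by linarith
    · rw [if_neg hn, zero_add]
      by_cases hna : (n : ZMod r) = a
      · have h1 : Psi T y (Real.log n) ≤ 2000 / T := by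
          apply (hGRD T y (Real.log n) hT hy0).2.2.2
          rw [hSd, Finset.mem_filter, Finset.mem_Ioc] at hn
          by_cases h2 : ⌊y⌋₊ < n
          · right
            have h3 : ¬ n ≤ ⌊3 / 2 * y⌋₊ := fun h => hn ⟨⟨h2, h⟩, hna⟩
            rw [not_le] at h3
            have h4 : 3 / 2 * y < (n : ℝ) := Nat.lt_of_floor_lt h3
            exact Real.log_le_log (by positivity) h4.le
          · left
            rw [not_lt] at h2
            rw [Nat.le_floor_iff hy0.le] at h2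
            rcases Nat.eq_zero_or_pos n with h3 | h3
            · rw [h3, Nat.cast_zero, Real.log_zero]
              apply Real.log_nonneg
              have := Real.add_one_le_exp L
              linarith
            · exact Real.log_le_log (by exact_mod_cast h3) h2
        have h6 : P n * ia n ≤ P n := by nlinarith [hP0 n, hia1 n]
        refine h6.trans ?_
        rw [hPn, mul_comm (2000 / T)]
        exact mul_le_mul_of_nonneg_left h1 (hW0 n)
      · have h4 : ia n = 0 := by rw [hia]; dsimp only; rw [if_neg hna]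
        rw [h4, mul_zero]
        exact mul_nonneg hT1 (hW0 n)
  rw [← hφdef, ← hWdef]
  have h9 := mul_le_mul_of_nonneg_left hup hφ
  have h10 : φ * (50 * (3 * L) ^ 8 * y⁻¹ *
      ∑ n ∈ (Ioc ⌊y⌋₊ ⌊3 / 2 * y⌋₊).filter (fun n : ℕ => (n : ZMod r) = a), Λ n +
      (2000 / T) * ∑' n, W n) + φ * B * (T / 5 + 1) = 50 * φ * (3 * L) ^ 8 * y⁻¹ *
        ∑ n ∈ (Ioc ⌊y⌋₊ ⌊3 / 2 * y⌋₊).filter (fun n : ℕ => (n : ZMod r) = a), Λ n
      + φ * (2000 / T) * ∑' n, W n + φ * B * (T / 5 + 1) := by ring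
  rw [← h10]
  have h11 : (T / 5 + 1) * (φ * B) = φ * B * (T / 5 + 1) := by ring
  linarith

end Pool.Agent.FCT
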