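import Pool.Agent.FCT.St1

/-!
# FCT, part I, module APB: the end of part I
-/

set_option autoImplicit false

namespace Pool.Agent.FCT

open Finset
open scoped ArithmeticFunction.vonMangoldt

/-- Powers of the logarithm are small. -/
theorem apb_ev (A : ℝ) (k : ℕ) : ∃ x₀ : ℝ, 1 ≤ x₀ ∧ ∀ x : ℝ, x₀ ≤ x → A * Real.log x ^ k ≤ x := by
  have h1 : ∀ᶠ x in Filter.atTop, ‖Real.log x ^ k‖ ≤ (|A| + 1)⁻¹ * ‖(id x : ℝ)‖ :=
    (Real.isLittleO_pow_log_id_atTop (n := k)).bound (by positivity)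
  obtain ⟨x₀, hx₀⟩ := Filter.eventually_atTop.1 h1
  refine ⟨max x₀ 1, le_max_right _ _, fun x hx => ?_⟩
  have h2 := hx₀ x ((le_max_left _ _).trans hx)
  have hx1 : 1 ≤ x := (le_max_right _ _).trans hx
  have hA : 0 < |A| + 1 := by positivity
  rw [id, Real.norm_eq_abs, Real.norm_eq_abs, abs_of_nonneg (by linarith : (0:ℝ) ≤ x)] at h2
  have h3 : (|A| + 1) * |Real.log x ^ k| ≤ x := by
    have h4 := mul_le_mul_of_nonneg_left h2 hA.le
    rwa [← mul_assoc, mul_inv_cancel₀ hA.ne', one_mul] at h4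
  calc A * Real.log x ^ k ≤ |A * Real.log x ^ k| := le_abs_self _
    _ = |A| * |Real.log x ^ k| := abs_mul _ _
    _ ≤ (|A| + 1) * |Real.log x ^ k| := by
        refine mul_le_mul_of_nonneg_right (by linarith) (abs_nonneg _)
    _ ≤ x := h3

/-- The prime powers contribute little. -/
theorem apb_pp (r : ℕ) (a : ZMod r) (y : ℝ) (hy : 1 ≤ y) :
    ∑ n ∈ (Ioc ⌊y⌋₊ ⌊3 / 2 * y⌋₊).filter (fun n : ℕ => (n : ZMod r) = a), Λ n ≤
      ∑ p ∈ (Ioc ⌊y⌋₊ ⌊3 / 2 * y⌋₊).filter (fun p : ℕ => p.Prime ∧ (p : ZMod r) = a), Real.log p +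
        2 * √(3 / 2 * y) * Real.log (3 / 2 * y) := by
  have h0 : (1 : ℝ) ≤ 3 / 2 * y := by linarith
  have h1 := Chebyshev.psi_sub_theta_le h0
  rw [Chebyshev.psi_sub_theta_eq_sum_not_prime] at h1
  have h2 : ∑ n ∈ (Ioc ⌊y⌋₊ ⌊3 / 2 * y⌋₊).filter (fun n : ℕ => (n : ZMod r) = a), Λ n =
      ∑ n ∈ ((Ioc ⌊y⌋₊ ⌊3 / 2 * y⌋₊).filter (fun n : ℕ => (n : ZMod r) = a)).filter
        (fun n => n.Prime), Λ n +
      ∑ n ∈ ((Ioc ⌊y⌋₊ ⌊3 / 2 * y⌋₊).filter (fun n : ℕ => (n : ZMod r) = a)).filter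
        (fun n => ¬ n.Prime), Λ n := (Finset.sum_filter_add_sum_filter_not _ _ _).symm
  rw [h2]
  refine add_le_add (le_of_eq ?_) (le_trans ?_ h1)
  · rw [Finset.filter_filter]
    have h3 : (Ioc ⌊y⌋₊ ⌊3 / 2 * y⌋₊).filter (fun n : ℕ => (n : ZMod r) = a ∧ n.Prime) =
        (Ioc ⌊y⌋₊ ⌊3 / 2 * y⌋₊).filter (fun n : ℕ => n.Prime ∧ (n : ZMod r) = a) := by
      ext n
      simp only [mem_filter]
      tauto
    rw [h3]
    refine Finset.sum_congr rfl fun n hn => ?_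
    exact ArithmeticFunction.vonMangoldt_apply_prime (mem_filter.1 hn).2.1
  · refine Finset.sum_le_sum_of_subset_of_nonneg ?_ fun n _ _ => ArithmeticFunction.vonMangoldt_nonneg
    intro n hn
    simp only [mem_filter, mem_Ioc] at hn ⊢
    exact ⟨⟨by omega, hn.1.1.2⟩, hn.2⟩

/-- The final inequality in one step. -/
theorem apb_alg (κ L φ W Y S T2 T3 E : ℝ) (hκ : 0 < κ) (hL : 0 < L) (hφ : 0 < φ) (hY : 0 < Y)
    (hW : Y / 10 ≤ W)
    (h : 1 / 2 * L ^ 8 * (13 / 10 * Y)⁻¹ * (26 * κ) * W ≤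
      50 * φ * (3 * L) ^ 8 * Y⁻¹ * S + T2 + T3)
    (h2 : T2 ≤ κ * L ^ 8 / 4) (h3 : T3 ≤ κ * L ^ 8 / 4)
    (hE : E * φ ≤ κ / (200 * 3 ^ 8) * Y) :
    κ / (200 * 3 ^ 8) * Y / φ ≤ S - E := by
  have hL8 : 0 < L ^ 8 := by positivity
  have h4 : κ * L ^ 8 ≤ 1 / 2 * L ^ 8 * (13 / 10 * Y)⁻¹ * (26 * κ) * W := by
    have h5 : 1 / 2 * L ^ 8 * (13 / 10 * Y)⁻¹ * (26 * κ) * W = κ * L ^ 8 * (10 * (W / Y)) := by
      field_simp
      ring
    rw [h5]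
    have h6 : 1 ≤ 10 * (W / Y) := by
      rw [← mul_div_assoc, le_div_iff₀ hY]
      linarith
    have h7 : 0 ≤ κ * L ^ 8 := by positivity
    nlinarith
  have h5 : κ * L ^ 8 / 2 ≤ 50 * φ * (3 * L) ^ 8 * Y⁻¹ * S := by linarith
  have h6 : 50 * φ * (3 * L) ^ 8 * Y⁻¹ * S = L ^ 8 * (50 * 3 ^ 8 * φ * S / Y) := by
    field_simp
  rw [h6] at h5
  have h7 : κ / 2 ≤ 50 * 3 ^ 8 * φ * S / Y := by
    have h8 : L ^ 8 * (κ / 2) ≤ L ^ 8 * (50 * 3 ^ 8 * φ * S / Y) := by linarith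
    exact le_of_mul_le_mul_left h8 hL8
  rw [le_div_iff₀ hY] at h7
  rw [div_le_iff₀ hφ]
  have h9 : κ / (200 * 3 ^ 8) * Y = (κ / 2 * Y) / (100 * 3 ^ 8) := by ring
  have h10 : κ / (200 * 3 ^ 8) * Y * 2 ≤ φ * S := by
    rw [h9]
    linarith
  linarith [sub_mul S E φ, mul_comm φ S]

theorem t_APB : S_APB := by
  intro hMOM hWLO _ hUB hCH hAP
  obtain ⟨-, C₁, hC₁, hM⟩ := hMOM
  obtain ⟨y₀, hW⟩ := hWLO
  obtain ⟨C, hC, hU⟩ := hUB
  obtain ⟨D, hD, hH⟩ := hCH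
  obtain ⟨κ, hκ⟩ : ∃ κ : ℝ, κ = Real.exp (-3) / 26 := ⟨_, rfl⟩
  have hκ0 : 0 < κ := by rw [hκ]; positivity
  obtain ⟨c, hc⟩ : ∃ c : ℝ, c = κ / (200 * 3 ^ 8) := ⟨_, rfl⟩
  have hc0 : 0 < c := by rw [hc]; positivity
  obtain ⟨k, hk⟩ : ∃ k : ℕ, k = 711 := ⟨_, rfl⟩
  rw [← hk] at hH
  obtain ⟨L₁, -, hL₁⟩ := apb_ev (16 * (7 * C) ^ 5) 5
  obtain ⟨L₂, -, hL₂⟩ := apb_ev (4 / κ * D * (7 * C) ^ k) k
  obtain ⟨L₃, -, hL₃⟩ := apb_ev 1 2
  obtain ⟨z₀, hz₀, hz⟩ := apb_ev (24 / c) 3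
  obtain ⟨L₀, hL₀⟩ : ∃ L₀ : ℝ, L₀ = L₁ ⊔ L₂ ⊔ 2 ⊔ (8000 * C₁ / κ) := ⟨_, rfl⟩
  refine ⟨c, hc0, Real.exp L₀ ⊔ L₃ ⊔ y₀ ⊔ z₀ ^ 2, fun N hN => ?_⟩
  simp only [sup_le_iff] at hN
  obtain ⟨⟨⟨hN1, hN2⟩, hN3⟩, hN4⟩ := hN
  have hNpos : 0 < N := (Real.exp_pos _).trans_le hN1
  obtain ⟨L, hL⟩ : ∃ L : ℝ, L = Real.log N := ⟨_, rfl⟩
  have hexpL : Real.exp L = N := by rw [hL, Real.exp_log hNpos]
  have hLL : L₀ ≤ L := by rw [hL]; exact (Real.le_log_iff_exp_le hNpos).2 hN1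
  rw [hL₀] at hLL
  simp only [sup_le_iff] at hLL
  obtain ⟨⟨⟨hLa, hLb⟩, hL2⟩, hLd⟩ := hLL
  have hLpos : 0 < L := by linarith
  -- the parameters
  have hR3 : (3 : ℝ) ≤ L ^ 2 := by nlinarith
  have hL5 : (32 : ℝ) ≤ L ^ 5 := by
    have h1 : (2 : ℝ) ^ 5 ≤ L ^ 5 := pow_le_pow_left₀ (by norm_num) hL2 5
    linarith
  have hUB' := hU (L ^ 2) (L ^ 5) hR3 (by linarith)
  have hMeq : C * Real.log (L ^ 2 * L ^ 5) = 7 * C * Real.log L := by
    rw [← pow_add, Real.log_pow]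
    push_cast
    ring
  rw [hMeq] at hUB'
  have hM5 : 16 * (7 * C * Real.log L) ^ 5 ≤ L := by
    have h1 := hL₁ L hLa
    rw [mul_pow]
    linarith
  have hMk : D * (7 * C * Real.log L) ^ k ≤ κ / 4 * L := by
    have h1 := hL₂ L hLb
    rw [mul_pow]
    have h2 : 4 / κ * D * (7 * C) ^ k * Real.log L ^ k =
        4 / κ * (D * ((7 * C) ^ k * Real.log L ^ k)) := by ring
    rw [h2] at h1
    have h3 : κ / 4 * (4 / κ * (D * ((7 * C) ^ k * Real.log L ^ k))) ≤ κ / 4 * L :=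
      mul_le_mul_of_nonneg_left h1 (by positivity)
    have h4 : κ / 4 * (4 / κ * (D * ((7 * C) ^ k * Real.log L ^ k))) =
        D * ((7 * C) ^ k * Real.log L ^ k) := by
      field_simp
    rw [h4] at h3
    exact h3
  have hM0 : 0 ≤ 7 * C * Real.log L := by
    have h1 := hUB'.1
    linarith
  have hσ : 1 + 1 / L ≤ 1 + 1 / (16 * (7 * C * Real.log L) ^ 5) := by
    have h1 : 0 < 7 * C * Real.log L := by
      have h1 := hUB'.1
      linarith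
    have h2 : 0 < 16 * (7 * C * Real.log L) ^ 5 := by positivity
    have h3 : 1 / L ≤ 1 / (16 * (7 * C * Real.log L) ^ 5) := one_div_le_one_div_of_le h2 hM5
    linarith
  obtain ⟨d, hd2, hd⟩ := hH (L ^ 2) (L ^ 5) (7 * C * Real.log L) (1 + 1 / L) hUB' (by linarith)
    (by have : 0 < 1 / L := by positivity
        linarith) hσ
  refine ⟨d, hd2, fun r hr1 hrR hdr a ha y hy1 hy2 => ?_⟩
  rw [← hL] at hrR
  have hchar := hd r hr1 hrR hdr
  have hy0 : 0 < y := hNpos.trans_le hy1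
  have hφpos : (0 : ℝ) < r.totient := by exact_mod_cast Nat.totient_pos.2 hr1
  have hφL : (r.totient : ℝ) ≤ L ^ 2 := by
    refine le_trans ?_ hrR
    exact_mod_cast Nat.totient_le r
  have hLN : L ^ 2 ≤ N := by
    have h1 := hL₃ N hN2
    rw [one_mul, ← hL] at h1
    exact h1
  have hy2' : y ≤ Real.exp (2 * L) := by
    rw [two_mul, Real.exp_add, hexpL, ← pow_two]
    exact hy2
  have hB0 : 0 ≤ D * (7 * C * Real.log L) ^ k := by positivity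
  have hmain := hAP r a L (L ^ 5) (D * (7 * C * Real.log L) ^ k) y hr1 ha (by linarith) (by linarith)
    hB0 (by rw [hexpL]; exact hy1) hy2' (by
      intro χ hχ t ht
      have h1 := hchar χ hχ t ht
      exact h1)
  have hWy := hW y (hN3.trans hy1) r hr1 (hrR.trans (hLN.trans hy1))
  have hMom := hM L (by linarith)
  -- the two error terms
  have hT2 : (r.totient : ℝ) * (2000 / L ^ 5) * ∑' n, wt (1 + 1 / L) n ≤ κ * L ^ 8 / 4 := by
    have h1 : (r.totient : ℝ) * (2000 / L ^ 5) * ∑' n, wt (1 + 1 / L) n ≤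
        L ^ 2 * (2000 / L ^ 5) * (C₁ * L ^ 10) := by
      have h2 : (r.totient : ℝ) * (2000 / L ^ 5) * ∑' n, wt (1 + 1 / L) n ≤
          (r.totient : ℝ) * (2000 / L ^ 5) * (C₁ * L ^ 10) :=
        mul_le_mul_of_nonneg_left hMom (by positivity)
      refine h2.trans ?_
      refine mul_le_mul_of_nonneg_right (mul_le_mul_of_nonneg_right hφL (by positivity)) ?_
      positivity
    refine h1.trans ?_
    have h2 : L ^ 2 * (2000 / L ^ 5) * (C₁ * L ^ 10) = 2000 * C₁ * L ^ 7 := by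
      field_simp
    rw [h2]
    have h3 : 8000 * C₁ ≤ L * κ := by
      rw [div_le_iff₀ hκ0] at hLd
      exact hLd
    have h4 : κ * L ^ 8 / 4 = (L * κ) / 4 * L ^ 7 := by ring
    rw [h4]
    have h5 : 2000 * C₁ ≤ L * κ / 4 := by linarith
    exact mul_le_mul_of_nonneg_right h5 (by positivity)
  have hT3 : (r.totient : ℝ) * (D * (7 * C * Real.log L) ^ k) * (L ^ 5 / 5 + 1) ≤
      κ * L ^ 8 / 4 := by
    have h1 : (r.totient : ℝ) * (D * (7 * C * Real.log L) ^ k) * (L ^ 5 / 5 + 1) ≤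
        L ^ 2 * (κ / 4 * L) * L ^ 5 := by
      have h2 : L ^ 5 / 5 + 1 ≤ L ^ 5 := by linarith
      refine mul_le_mul (mul_le_mul hφL hMk hB0 (by positivity)) h2 (by positivity)
        (by positivity)
    refine h1.trans (le_of_eq ?_)
    ring
  -- the prime powers
  have hy1' : 1 ≤ y := by
    have h1 : (1 : ℝ) ≤ z₀ ^ 2 := one_le_pow₀ hz₀
    linarith
  have hpp := apb_pp r a y hy1'
  have hE : 2 * √(3 / 2 * y) * Real.log (3 / 2 * y) * (r.totient : ℝ) ≤ c * y := by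
    obtain ⟨z, hzd⟩ : ∃ z : ℝ, z = √(3 / 2 * y) := ⟨_, rfl⟩
    have hzsq : z ^ 2 = 3 / 2 * y := by
      rw [hzd, Real.sq_sqrt (by linarith)]
    have hzz : z₀ ≤ z := by
      rw [hzd]
      apply Real.le_sqrt_of_sq_le
      linarith
    have hz1 : 1 ≤ z := hz₀.trans hzz
    have hlogz : 0 ≤ Real.log z := Real.log_nonneg hz1
    have hlogx : Real.log (3 / 2 * y) = 2 * Real.log z := by
      rw [← hzsq, Real.log_pow]
      push_cast
      ring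
    have hLz : L ≤ 2 * Real.log z := by
      rw [← hlogx, hL]
      exact Real.log_le_log hNpos (by linarith)
    have hφz : (r.totient : ℝ) ≤ 4 * Real.log z ^ 2 := by
      refine hφL.trans ?_
      have h1 : L ^ 2 ≤ (2 * Real.log z) ^ 2 := pow_le_pow_left₀ hLpos.le hLz 2
      refine h1.trans (le_of_eq ?_)
      ring
    rw [← hzd, hlogx]
    have h1 := hz z hzz
    have h2 : 24 * Real.log z ^ 3 ≤ c * z := by
      have h3 : c * (24 / c * Real.log z ^ 3) ≤ c * z := mul_le_mul_of_nonneg_left h1 hc0.le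
      have h4 : c * (24 / c * Real.log z ^ 3) = 24 * Real.log z ^ 3 := by field_simp
      rw [h4] at h3
      exact h3
    calc 2 * z * (2 * Real.log z) * (r.totient : ℝ) ≤
          2 * z * (2 * Real.log z) * (4 * Real.log z ^ 2) :=
          mul_le_mul_of_nonneg_left hφz (by positivity)
      _ = 2 / 3 * z * (24 * Real.log z ^ 3) := by ring
      _ ≤ 2 / 3 * z * (c * z) := mul_le_mul_of_nonneg_left h2 (by positivity)
      _ = c * (2 / 3 * z ^ 2) := by ring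
      _ = c * y := by rw [hzsq]; ring
  have hmain' : 1 / 2 * L ^ 8 * (13 / 10 * y)⁻¹ * (26 * κ) *
      ∑ n ∈ (Ioc ⌊11 / 10 * y⌋₊ ⌊13 / 10 * y⌋₊).filter (fun n => n.Coprime r), Λ n ≤
      50 * r.totient * (3 * L) ^ 8 * y⁻¹ *
          ∑ n ∈ (Ioc ⌊y⌋₊ ⌊3 / 2 * y⌋₊).filter (fun n : ℕ => (n : ZMod r) = a), Λ n
        + r.totient * (2000 / L ^ 5) * ∑' n, wt (1 + 1 / L) n
        + r.totient * (D * (7 * C * Real.log L) ^ k) * (L ^ 5 / 5 + 1) := by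
    have h1 : 26 * κ = Real.exp (-3) := by rw [hκ]; ring
    rw [h1]
    exact hmain
  rw [hc] at hE
  have hfin := apb_alg κ L r.totient _ y _ _ _ _ hκ0 hLpos hφpos hy0 hWy hmain' hT2 hT3 hE
  rw [hc]
  linarith

end Pool.Agent.FCT
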