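import Pool.Agent.FCT.St1

set_option autoImplicit false

/-!
FCT, DIF: the mean value inequality for `AJ χ 0`.
-/

namespace Pool.Agent.FCT

private lemma dif_absc {r : ℕ} (χ : DirichletCharacter ℂ r) :
    LSeries.abscissaOfAbsConv (fun n => χ n * ((Real.log n : ℝ) : ℂ) ^ 0) ≤ 1 := by
  refine LSeries.abscissaOfAbsConv_le_of_le_const ⟨1, fun n _ => ?_⟩
  rw [pow_zero, mul_one]
  exact χ.norm_le_one _

private lemma dif_deriv {r : ℕ} (χ : DirichletCharacter ℂ r) {s : ℂ} (hs : 1 < s.re) :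
    HasDerivAt (AJ χ 0) (-AJ χ 1 s) s := by
  have h1 : LSeries.abscissaOfAbsConv (fun n => χ n * ((Real.log n : ℝ) : ℂ) ^ 0) < s.re :=
    lt_of_le_of_lt (dif_absc χ) (by exact_mod_cast hs)
  have h2 := LSeries_hasDerivAt h1
  have h3 : LSeries (LSeries.logMul (fun n => χ n * ((Real.log n : ℝ) : ℂ) ^ 0)) s
      = AJ χ 1 s := by
    unfold AJ
    refine congrArg (fun f => LSeries f s) (funext fun n => ?_)
    show Complex.log n * (χ n * ((Real.log n : ℝ) : ℂ) ^ 0) = χ n * ((Real.log n : ℝ) : ℂ) ^ 1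
    rw [pow_zero, mul_one, pow_one, Complex.natCast_log]
    ring
  rw [h3] at h2
  exact h2

theorem t_DIF : S_DIF := by
  intro r χ s₁ s₂ B h₁ h₂ hB
  have hre : ∀ z ∈ segment ℝ s₁ s₂, 1 < z.re := by
    intro z hz
    exact (convex_halfSpace_re_gt 1).segment_subset h₁ h₂ hz
  exact (convex_segment s₁ s₂).norm_image_sub_le_of_norm_hasDerivWithin_le
    (f := AJ χ 0) (f' := fun z => -AJ χ 1 z)
    (fun z hz => (dif_deriv χ (hre z hz)).hasDerivWithinAt)
    (fun z hz => by rw [norm_neg]; exact hB z hz)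
    (right_mem_segment ℝ s₁ s₂) (left_mem_segment ℝ s₁ s₂)

end Pool.Agent.FCT
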