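import Pool.Agent.FCT.St1

/-!
# FCT_EXC: the exceptional modulus (helper15)
-/

set_option autoImplicit false

namespace Pool.Agent.FCT

open Finset

/-- Points of a segment between two reals in `(1, 2]`. -/
theorem exc_seg (a b : ℝ) (ha : 1 < a) (ha' : a ≤ 2) (hb : 1 < b) (hb' : b ≤ 2) (z : ℂ)
    (hz : z ∈ segment ℝ (a : ℂ) (b : ℂ)) : 1 < z.re ∧ z.re ≤ 2 ∧ z.im = 0 := by
  obtain ⟨u, v, hu, hv, huv, rfl⟩ := hz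
  have hre : (u • (a : ℂ) + v • (b : ℂ)).re = u * a + v * b := by simp
  have him : (u • (a : ℂ) + v • (b : ℂ)).im = 0 := by simp
  refine ⟨?_, ?_, him⟩
  · rw [hre]
    have hv1 : v = 1 - u := by linarith
    subst hv1
    by_cases h : a ≤ b
    · nlinarith
    · nlinarith
  · rw [hre]
    have hv1 : v = 1 - u := by linarith
    subst hv1
    by_cases h : a ≤ b
    · nlinarith
    · nlinarith

/-- The value at `σ₂` of a bad character is small. -/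
theorem exc_val (hDIF : S_DIF) (R T M σ₁ σ₂ : ℝ) (hUB : UB R T M) (hT : 1 ≤ T) (h1 : 1 < σ₁)
    (h2 : σ₁ ≤ 2) (h3 : 1 < σ₂) (h4 : σ₂ ≤ 2) (r : ℕ) (hr : 1 ≤ r) (hrR : (r : ℝ) ≤ R)
    (χ : DirichletCharacter ℂ r) (hχ : χ ≠ 1) :
    ‖AJ χ 0 (σ₂ : ℂ)‖ ≤ ‖AJ χ 0 (σ₁ : ℂ)‖ + M ^ 2 * |σ₁ - σ₂| := by
  have hr1 : (1 : ℝ) ≤ r := by exact_mod_cast hr
  have hrR2 : (r : ℝ) ≤ R ^ 2 := by nlinarith
  have hd := hDIF r χ (σ₁ : ℂ) (σ₂ : ℂ) (M ^ 2) (by simpa using h1) (by simpa using h3) (by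
    intro z hz
    obtain ⟨hz1, hz2, hz3⟩ := exc_seg σ₁ σ₂ h1 h2 h3 h4 z hz
    have := ((hUB.2 r hr hrR2).1 χ hχ 1 (by norm_num) z hz1 hz2 (by rw [hz3, abs_zero]; linarith))
    simpa using this)
  have hn : ‖(σ₁ : ℂ) - (σ₂ : ℂ)‖ = |σ₁ - σ₂| := by
    rw [← Complex.ofReal_sub, Complex.norm_real, Real.norm_eq_abs]
  rw [hn] at hd
  have h5 : ‖AJ χ 0 (σ₂ : ℂ)‖ - ‖AJ χ 0 (σ₁ : ℂ)‖ ≤ ‖AJ χ 0 (σ₁ : ℂ) - AJ χ 0 (σ₂ : ℂ)‖ := by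
    rw [norm_sub_rev]
    exact norm_sub_norm_le _ _
  linarith

/-- Two bad real characters have the same conductor. -/
theorem exc_cond (hZUP : S_ZUP) (hDIF : S_DIF) (hREP : S_REP) (R T M σ₁ : ℝ) (hUB : UB R T M)
    (hT : 1 ≤ T) (h1 : 1 < σ₁) (h2 : σ₁ ≤ 1 + 1 / (16 * M ^ 5)) (r₁ r₂ : ℕ) (hr₁ : 1 ≤ r₁)
    (hr₂ : 1 ≤ r₂) (hR₁ : (r₁ : ℝ) ≤ R) (hR₂ : (r₂ : ℝ) ≤ R) (χ₁ : DirichletCharacter ℂ r₁)
    (χ₂ : DirichletCharacter ℂ r₂) (hχ₁ : χ₁ ≠ 1) (hχ₂ : χ₂ ≠ 1) (hs₁ : χ₁ ^ 2 = 1)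
    (hs₂ : χ₂ ^ 2 = 1) (hb₁ : ‖AJ χ₁ 0 (σ₁ : ℂ)‖ < 1 / (16 * M ^ 3))
    (hb₂ : ‖AJ χ₂ 0 (σ₁ : ℂ)‖ < 1 / (16 * M ^ 3)) : χ₁.conductor = χ₂.conductor := by
  have hM : 2 ≤ M := hUB.1
  have hM0 : 0 < M := by linarith
  have hM5 : (32 : ℝ) ≤ M ^ 5 := by
    calc (32 : ℝ) = 2 ^ 5 := by norm_num
      _ ≤ M ^ 5 := by gcongr
  set κ : ℝ := 1 / (16 * M ^ 5) with hκ
  have hκ0 : 0 < κ := by positivity
  have hκ1 : κ ≤ 1 := by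
    rw [hκ, div_le_one (by positivity)]
    linarith
  set η : ℝ := 1 / (16 * M ^ 3) with hη
  have hη0 : 0 < η := by positivity
  have hκM : κ * M ^ 2 = η := by
    rw [hκ, hη]
    field_simp
  have h3 : σ₁ ≤ 2 := by linarith
  have h4 : (1 : ℝ) < 1 + κ := by linarith
  have h5 : 1 + κ ≤ 2 := by linarith
  have habs : |σ₁ - (1 + κ)| ≤ κ := by
    rw [abs_le]
    constructor <;> linarith
  have hA₁ : ‖AJ χ₁ 0 ((1 + κ : ℝ) : ℂ)‖ ≤ 2 * η := by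
    have := exc_val hDIF R T M σ₁ (1 + κ) hUB hT h1 h3 h4 h5 r₁ hr₁ hR₁ χ₁ hχ₁
    have h6 : M ^ 2 * |σ₁ - (1 + κ)| ≤ M ^ 2 * κ := by gcongr
    linarith [mul_comm κ (M ^ 2)]
  have hA₂ : ‖AJ χ₂ 0 ((1 + κ : ℝ) : ℂ)‖ ≤ 2 * η := by
    have := exc_val hDIF R T M σ₁ (1 + κ) hUB hT h1 h3 h4 h5 r₂ hr₂ hR₂ χ₂ hχ₂
    have h6 : M ^ 2 * |σ₁ - (1 + κ)| ≤ M ^ 2 * κ := by gcongr
    linarith [mul_comm κ (M ^ 2)]
  have hZ := hZUP 1 κ le_rfl hκ0 hκ1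
  have hP := hREP r₁ r₂ χ₁ χ₂ (1 + κ) hr₁ hr₂ hs₁ hs₂ h4
  by_contra hne
  set ψ : DirichletCharacter ℂ (r₁ * r₂) :=
    DirichletCharacter.changeLevel (Dvd.intro r₂ rfl : r₁ ∣ r₁ * r₂) χ₁ *
      DirichletCharacter.changeLevel (Dvd.intro_left r₁ rfl : r₂ ∣ r₁ * r₂) χ₂ with hψ
  have hr12 : 1 ≤ r₁ * r₂ := Nat.mul_pos hr₁ hr₂
  have : NeZero (r₁ * r₂) := ⟨by omega⟩
  have hψ1 : ψ ≠ 1 := by
    intro h
    apply hne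
    have e1 : DirichletCharacter.changeLevel (Dvd.intro r₂ rfl : r₁ ∣ r₁ * r₂) χ₁ =
        DirichletCharacter.changeLevel (Dvd.intro_left r₁ rfl : r₂ ∣ r₁ * r₂) χ₂ := by
      have e2 : DirichletCharacter.changeLevel (Dvd.intro_left r₁ rfl : r₂ ∣ r₁ * r₂) χ₂ *
          DirichletCharacter.changeLevel (Dvd.intro_left r₁ rfl : r₂ ∣ r₁ * r₂) χ₂ = 1 := by
        rw [← map_mul, ← pow_two, hs₂, map_one]
      calc DirichletCharacter.changeLevel (Dvd.intro r₂ rfl : r₁ ∣ r₁ * r₂) χ₁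
          = DirichletCharacter.changeLevel (Dvd.intro r₂ rfl : r₁ ∣ r₁ * r₂) χ₁ *
            (DirichletCharacter.changeLevel (Dvd.intro_left r₁ rfl : r₂ ∣ r₁ * r₂) χ₂ *
            DirichletCharacter.changeLevel (Dvd.intro_left r₁ rfl : r₂ ∣ r₁ * r₂) χ₂) := by
            rw [e2, mul_one]
        _ = ψ * DirichletCharacter.changeLevel (Dvd.intro_left r₁ rfl : r₂ ∣ r₁ * r₂) χ₂ := by
            rw [hψ, mul_assoc]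
        _ = _ := by rw [h, one_mul]
    have e3 := DirichletCharacter.conductor_changeLevel χ₁ (Dvd.intro r₂ rfl : r₁ ∣ r₁ * r₂)
    have e4 := DirichletCharacter.conductor_changeLevel χ₂ (Dvd.intro_left r₁ rfl : r₂ ∣ r₁ * r₂)
    rw [← e3, ← e4, e1]
  have hR : (0 : ℝ) ≤ R := le_trans (Nat.cast_nonneg _) hR₁
  have hRR : ((r₁ * r₂ : ℕ) : ℝ) ≤ R ^ 2 := by
    push_cast
    rw [pow_two]
    exact mul_le_mul hR₁ hR₂ (Nat.cast_nonneg _) hR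
  have hA₃ : ‖AJ ψ 0 ((1 + κ : ℝ) : ℂ)‖ ≤ M := by
    have := ((hUB.2 (r₁ * r₂) hr12 hRR).1 ψ hψ1 0 (by norm_num) ((1 + κ : ℝ) : ℂ)
      (by rw [Complex.ofReal_re]; exact h4) (by rw [Complex.ofReal_re]; exact h5)
      (by rw [Complex.ofReal_im, abs_zero]; linarith))
    simpa using this
  have hprod : ‖AJ (1 : DirichletCharacter ℂ 1) 0 ((1 + κ : ℝ) : ℂ)‖ *
      ‖AJ χ₁ 0 ((1 + κ : ℝ) : ℂ)‖ * ‖AJ χ₂ 0 ((1 + κ : ℝ) : ℂ)‖ *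
      ‖AJ ψ 0 ((1 + κ : ℝ) : ℂ)‖ ≤ (2 / κ) * (2 * η) * (2 * η) * M := by
    gcongr
  have hval : (2 / κ) * (2 * η) * (2 * η) * M = 1 / 2 := by
    rw [hκ, hη]
    field_simp
    norm_num
  linarith

theorem t_EXC : S_EXC := by
  intro hZUP hDIF hREP R T M σ₁ hUB hT h1 h2
  by_cases hex : ∃ r₁ : ℕ, 1 ≤ r₁ ∧ (r₁ : ℝ) ≤ R ∧ ∃ χ₁ : DirichletCharacter ℂ r₁, χ₁ ≠ 1 ∧
      χ₁ ^ 2 = 1 ∧ ‖AJ χ₁ 0 (σ₁ : ℂ)‖ < 1 / (16 * M ^ 3)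
  · obtain ⟨r₁, hr₁, hR₁, χ₁, hχ₁, hs₁, hb₁⟩ := hex
    have : NeZero r₁ := ⟨by omega⟩
    refine ⟨χ₁.conductor, ?_, ?_⟩
    · have h3 : χ₁.conductor ≠ 0 := DirichletCharacter.conductor_ne_zero χ₁
      have h4 : χ₁.conductor ≠ 1 := fun h =>
        hχ₁ (DirichletCharacter.eq_one_iff_conductor_eq_one.2 h)
      omega
    · intro r hr hR hd χ hχ hs
      by_contra hlt
      push Not at hlt
      apply hd
      rw [exc_cond hZUP hDIF hREP R T M σ₁ hUB hT h1 h2 r₁ r hr₁ hr hR₁ hR χ₁ χ hχ₁ hχ hs₁ hs hb₁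
        hlt]
      exact DirichletCharacter.conductor_dvd_level χ
  · refine ⟨2, le_rfl, ?_⟩
    intro r hr hR _ χ hχ hs
    by_contra hlt
    push Not at hlt
    exact hex ⟨r, hr, hR, χ, hχ, hs, hlt⟩

end Pool.Agent.FCT
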