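import Pool.Agent.FCT.St1

set_option autoImplicit false

/-!
FCT, GRD: bounds for the smooth window.
-/

namespace Pool.Agent.FCT

open Finset

theorem grd_base (n : ℕ) :
    ∑ m ∈ range (n + 2), 1 / (1 + (m : ℝ) ^ 2) ≤ 5 / 2 - 1 / ((n : ℝ) + 1) := by
  induction n with
  | zero =>
    simp only [Nat.zero_add]
    rw [sum_range_succ, sum_range_one]
    norm_num
  | succ n ih =>
    rw [sum_range_succ]
    have hn : (0 : ℝ) ≤ n := Nat.cast_nonneg n
    have h1 : 1 / (1 + ((n + 2 : ℕ) : ℝ) ^ 2) ≤ 1 / ((n : ℝ) + 1) - 1 / ((n : ℝ) + 2) := by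
      rw [div_sub_div _ _ (by positivity) (by positivity), div_le_div_iff₀ (by positivity)
        (by positivity)]
      push_cast
      nlinarith
    have h2 : ((n + 1 : ℕ) : ℝ) + 1 = (n : ℝ) + 2 := by push_cast; ring
    rw [h2]
    linarith

theorem grd_base' (n : ℕ) : ∑ m ∈ range n, 1 / (1 + (m : ℝ) ^ 2) ≤ 5 / 2 := by
  have h1 := grd_base n
  have h2 : (0 : ℝ) ≤ 1 / ((n : ℝ) + 1) := by positivity
  have h3 : ∑ m ∈ range n, 1 / (1 + (m : ℝ) ^ 2) ≤ ∑ m ∈ range (n + 2), 1 / (1 + (m : ℝ) ^ 2) :=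
    sum_le_sum_of_subset_of_nonneg (range_mono (by omega)) fun _ _ _ => by positivity
  linarith

theorem grd_neg (x : ℝ) (hx : x ≤ 0) (n : ℕ) :
    ∑ j ∈ range n, 1 / (1 + (x - j) ^ 2) ≤ 5 / 2 := by
  refine (sum_le_sum fun j _ => ?_).trans (grd_base' n)
  have hj : (0 : ℝ) ≤ j := Nat.cast_nonneg j
  apply one_div_le_one_div_of_le (by positivity)
  nlinarith

theorem grd_pos (x : ℝ) (n : ℕ) (hx : (n : ℝ) ≤ x + 1) :
    ∑ j ∈ range n, 1 / (1 + (x - j) ^ 2) ≤ 5 / 2 := by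
  rw [← sum_range_reflect]
  refine (sum_le_sum fun j hj => ?_).trans (grd_base' n)
  rw [mem_range] at hj
  have hj0 : (0 : ℝ) ≤ j := Nat.cast_nonneg j
  have h1 : ((n - 1 - j : ℕ) : ℝ) = (n : ℝ) - 1 - j := by
    rw [Nat.cast_sub (by omega), Nat.cast_sub (by omega)]
    push_cast
    ring
  rw [h1]
  apply one_div_le_one_div_of_le (by positivity)
  have h2 : (j : ℝ) ≤ x - ((n : ℝ) - 1 - j) := by linarith
  nlinarith

theorem grd_all (x : ℝ) (n : ℕ) : ∑ j ∈ range n, 1 / (1 + (x - j) ^ 2) ≤ 5 := by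
  rcases le_or_gt x 0 with hx | hx
  · have := grd_neg x hx n
    linarith
  · by_cases hk : ⌊x⌋₊ + 1 ≤ n
    · obtain ⟨i, hi⟩ := Nat.exists_eq_add_of_le hk
      rw [hi, sum_range_add]
      have h1 := grd_pos x (⌊x⌋₊ + 1) (by
        push_cast
        have := Nat.floor_le hx.le
        linarith)
      have h2 := grd_neg (x - (⌊x⌋₊ + 1 : ℕ)) (by
        push_cast
        have := (Nat.lt_floor_add_one x).le
        linarith) i
      have h3 : ∑ j ∈ range i, 1 / (1 + (x - ((⌊x⌋₊ + 1 + j : ℕ) : ℝ)) ^ 2) =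
          ∑ j ∈ range i, 1 / (1 + (x - ((⌊x⌋₊ + 1 : ℕ) : ℝ) - j) ^ 2) := by
        refine sum_congr rfl fun j _ => ?_
        rw [Nat.cast_add (⌊x⌋₊ + 1) j, sub_add_eq_sub_sub]
      rw [h3]
      linarith
    · have h1 := grd_pos x n (by
        have h2 : n ≤ ⌊x⌋₊ := by omega
        have h3 : (n : ℝ) ≤ ⌊x⌋₊ := by exact_mod_cast h2
        have := Nat.floor_le hx.le
        linarith)
      linarith

/-- the window in the variable `x` -/
theorem grd_psi (T y u : ℝ) : Psi T y u =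
    ∑ j ∈ range (⌊T / 5⌋₊ + 1), Kf (T * (u - Real.log (11 / 10 * y)) - j) := by
  unfold Psi
  refine sum_congr rfl fun j _ => ?_
  congr 1
  ring

theorem grd_far (h : S_KERF) (T x : ℝ) (hT : 5 ≤ T)
    (hx : ∀ j : ℕ, (j : ℝ) ≤ T / 5 → T / 15 ≤ |x - j|) :
    ∑ j ∈ range (⌊T / 5⌋₊ + 1), Kf (x - j) ≤ 2000 / T := by
  have hT0 : 0 < T := by linarith
  have h1 : ∀ j ∈ range (⌊T / 5⌋₊ + 1), Kf (x - j) ≤ 1800 / T ^ 2 := by
    intro j hj
    rw [mem_range] at hj
    have h2 : (j : ℝ) ≤ T / 5 := by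
      have h3 : j ≤ ⌊T / 5⌋₊ := by omega
      have h4 : (j : ℝ) ≤ (⌊T / 5⌋₊ : ℝ) := by exact_mod_cast h3
      exact h4.trans (Nat.floor_le (by positivity))
    have h3 := hx j h2
    refine (h (x - j)).2.1.trans ?_
    have h4 : (T / 15) ^ 2 ≤ (x - j) ^ 2 := by
      rw [← sq_abs (x - j)]
      exact pow_le_pow_left₀ (by positivity) h3 2
    rw [div_le_div_iff₀ (by positivity) (by positivity)]
    nlinarith
  refine (sum_le_sum h1).trans ?_
  rw [sum_const, card_range, nsmul_eq_mul]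
  have h5 : ((⌊T / 5⌋₊ + 1 : ℕ) : ℝ) ≤ 2 * T / 5 := by
    push_cast
    have := Nat.floor_le (show (0 : ℝ) ≤ T / 5 by positivity)
    linarith
  calc ((⌊T / 5⌋₊ + 1 : ℕ) : ℝ) * (1800 / T ^ 2) ≤ 2 * T / 5 * (1800 / T ^ 2) :=
        mul_le_mul_of_nonneg_right h5 (by positivity)
    _ = 720 / T := by
        field_simp
        norm_num
    _ ≤ 2000 / T := by
        apply div_le_div_of_nonneg_right _ hT0.le
        norm_num

theorem t_GRD (h : S_KERF) : S_GRD := by
  intro T y u hT hy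
  have hT0 : 0 < T := by linarith
  rw [grd_psi]
  set x := T * (u - Real.log (11 / 10 * y)) with hx
  have e1 : Real.log (11 / 10 * y) = Real.log (11 / 10) + Real.log y :=
    Real.log_mul (by norm_num) hy.ne'
  have e2 : Real.log (13 / 10 * y) = Real.log (13 / 10) + Real.log y :=
    Real.log_mul (by norm_num) hy.ne'
  have e3 : Real.log (3 / 2 * y) = Real.log (3 / 2) + Real.log y :=
    Real.log_mul (by norm_num) hy.ne'
  refine ⟨sum_nonneg fun j _ => (h _).1, ?_, ?_, ?_⟩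
  · have h1 : ∑ j ∈ range (⌊T / 5⌋₊ + 1), Kf (x - j) ≤
        8 * ∑ j ∈ range (⌊T / 5⌋₊ + 1), 1 / (1 + (x - j) ^ 2) := by
      rw [mul_sum]
      refine sum_le_sum fun j _ => (h _).2.1.trans (le_of_eq ?_)
      ring
    have h2 := grd_all x (⌊T / 5⌋₊ + 1)
    linarith
  · intro h1 h2
    have hx0 : 0 ≤ x := mul_nonneg hT0.le (sub_nonneg.2 h1)
    have h3 : Real.log (13 / 10) - Real.log (11 / 10) ≤ 1 / 5 := by
      rw [← Real.log_div (by norm_num) (by norm_num)]
      refine (Real.log_le_sub_one_of_pos (by norm_num)).trans ?_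
      norm_num
    have hx1 : x ≤ T / 5 := by
      have h4 : u - Real.log (11 / 10 * y) ≤ 1 / 5 := by linarith
      calc x ≤ T * (1 / 5) := mul_le_mul_of_nonneg_left h4 hT0.le
        _ = T / 5 := by ring
    have hj : ⌊x⌋₊ ∈ range (⌊T / 5⌋₊ + 1) := by
      rw [mem_range]
      exact Nat.lt_succ_of_le (Nat.floor_mono hx1)
    refine le_trans ?_ (single_le_sum (f := fun j : ℕ => Kf (x - j)) (fun j _ => (h _).1) hj)
    refine (h _).2.2 ?_
    have h5 := Nat.floor_le hx0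
    have h6 := Nat.lt_floor_add_one x
    rw [abs_le]
    constructor <;> linarith
  · intro h1
    refine grd_far h T x hT fun j hj => ?_
    have hj0 : (0 : ℝ) ≤ j := Nat.cast_nonneg j
    rcases h1 with h1 | h1
    · have h3 : 1 - (11 / 10 : ℝ)⁻¹ ≤ Real.log (11 / 10) :=
        Real.one_sub_inv_le_log_of_pos (by norm_num)
      have h4 : u - Real.log (11 / 10 * y) ≤ -(1 / 11) := by
        norm_num at h3
        linarith
      have h5 : x ≤ T * (-(1 / 11)) := mul_le_mul_of_nonneg_left h4 hT0.le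
      rw [le_abs]
      right
      linarith
    · have h3 : 1 - (15 / 11 : ℝ)⁻¹ ≤ Real.log (15 / 11) :=
        Real.one_sub_inv_le_log_of_pos (by norm_num)
      have h6 : Real.log (15 / 11) = Real.log (3 / 2) - Real.log (11 / 10) := by
        rw [← Real.log_div (by norm_num) (by norm_num)]
        norm_num
      have h4 : 4 / 15 ≤ u - Real.log (11 / 10 * y) := by
        rw [h6] at h3
        norm_num at h3
        linarith
      have h5 : T * (4 / 15) ≤ x := mul_le_mul_of_nonneg_left h4 hT0.le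
      rw [le_abs]
      left
      linarith

end Pool.Agent.FCT
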