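import Pool.Agent.FCT.St1

/-!
# FCT, module IND: the logarithmic derivative and its twists
-/

set_option autoImplicit false

open Finset

namespace Pool.Agent.FCT

namespace INDx

theorem key (M lam : ℝ) (hM : 1 ≤ M) (h0 : 0 < lam) (h1 : lam ≤ 1) (m : ℕ) :
    M ^ (m + 2) ≤ lam * (M ^ 2 / lam) ^ (m + 1) := by
  have hM0 : 0 < M := by linarith
  have hq : M ≤ M ^ 2 / lam := by
    rw [le_div_iff₀ h0]
    nlinarith
  have h2 : lam * (M ^ 2 / lam) ^ (m + 1) = M ^ 2 * (M ^ 2 / lam) ^ m := by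
    rw [pow_succ]
    field_simp
  rw [h2, pow_add, mul_comm]
  exact mul_le_mul_of_nonneg_left (pow_le_pow_left₀ hM0.le hq m) (by positivity)

theorem step (hL : S_LEI) (k : ℕ) : k ≤ 8 → ∃ D : ℝ, 1 ≤ D ∧
    ∀ (r : ℕ) (χ : DirichletCharacter ℂ r) (s : ℂ) (M lam : ℝ), 1 < s.re → 1 ≤ M → 0 < lam →
      lam ≤ 1 → (∀ j ≤ 9, ‖AJ χ j s‖ ≤ M ^ (j + 1)) → lam ≤ ‖AJ χ 0 s‖ →
      ‖FK χ k s‖ ≤ D * (M ^ 2 / lam) ^ (k + 1) := by
  induction k using Nat.strong_induction_on with
  | _ k ih =>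
    intro hk
    have hex : ∀ i, ∃ D : ℝ, 1 ≤ D ∧ (i < k → ∀ (r : ℕ) (χ : DirichletCharacter ℂ r) (s : ℂ)
        (M lam : ℝ), 1 < s.re → 1 ≤ M → 0 < lam → lam ≤ 1 →
        (∀ j ≤ 9, ‖AJ χ j s‖ ≤ M ^ (j + 1)) → lam ≤ ‖AJ χ 0 s‖ →
        ‖FK χ i s‖ ≤ D * (M ^ 2 / lam) ^ (i + 1)) := by
      intro i
      by_cases hi : i < k
      · obtain ⟨D, hD, h⟩ := ih i hi (by omega)
        exact ⟨D, hD, fun _ => h⟩
      · exact ⟨1, le_refl 1, fun h => absurd h hi⟩
    choose D hD hF using hex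
    refine ⟨1 + ∑ j ∈ range k, (k.choose (j + 1) : ℝ) * D (k - (j + 1)), ?_, ?_⟩
    · have : 0 ≤ ∑ j ∈ range k, (k.choose (j + 1) : ℝ) * D (k - (j + 1)) :=
        Finset.sum_nonneg fun j _ => mul_nonneg (Nat.cast_nonneg _)
          (le_trans zero_le_one (hD _))
      linarith
    · intro r χ s M lam hs hM h0 h1 hA hA0
      have hM0 : 0 < M := by linarith
      have hq0 : 0 ≤ M ^ 2 / lam := by positivity
      have hlei := hL r χ k s hs
      rw [Finset.sum_range_succ'] at hlei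
      have h2 : AJ χ 0 s * FK χ k s = AJ χ (k + 1) s -
          ∑ j ∈ range k, (k.choose (j + 1) : ℂ) * AJ χ (j + 1) s * FK χ (k - (j + 1)) s := by
        rw [← hlei, Nat.choose_zero_right, Nat.cast_one, one_mul, Nat.sub_zero]
        ring
      have h3 : lam * ‖FK χ k s‖ ≤ M ^ (k + 2) + ∑ j ∈ range k,
          (k.choose (j + 1) : ℝ) * M ^ (j + 2) *
            (D (k - (j + 1)) * (M ^ 2 / lam) ^ (k - (j + 1) + 1)) := by
        calc lam * ‖FK χ k s‖ ≤ ‖AJ χ 0 s‖ * ‖FK χ k s‖ :=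
              mul_le_mul_of_nonneg_right hA0 (norm_nonneg _)
          _ = ‖AJ χ (k + 1) s - ∑ j ∈ range k,
              (k.choose (j + 1) : ℂ) * AJ χ (j + 1) s * FK χ (k - (j + 1)) s‖ := by
              rw [← norm_mul, h2]
          _ ≤ ‖AJ χ (k + 1) s‖ + ‖∑ j ∈ range k,
              (k.choose (j + 1) : ℂ) * AJ χ (j + 1) s * FK χ (k - (j + 1)) s‖ := norm_sub_le _ _
          _ ≤ M ^ (k + 2) + ∑ j ∈ range k, (k.choose (j + 1) : ℝ) * M ^ (j + 2) *
              (D (k - (j + 1)) * (M ^ 2 / lam) ^ (k - (j + 1) + 1)) := by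
              refine add_le_add (hA (k + 1) (by omega)) ?_
              refine (norm_sum_le _ _).trans (Finset.sum_le_sum fun j hj => ?_)
              have hj' : j < k := Finset.mem_range.mp hj
              rw [norm_mul, norm_mul, Complex.norm_natCast]
              have h4 := hA (j + 1) (by omega)
              have h5 := hF (k - (j + 1)) (by omega) r χ s M lam hs hM h0 h1 hA hA0
              exact mul_le_mul (mul_le_mul_of_nonneg_left h4 (Nat.cast_nonneg _)) h5
                (norm_nonneg _) (by positivity)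
      have h4 : ∀ j ∈ range k, (k.choose (j + 1) : ℝ) * M ^ (j + 2) *
          (D (k - (j + 1)) * (M ^ 2 / lam) ^ (k - (j + 1) + 1)) ≤
          lam * ((k.choose (j + 1) : ℝ) * D (k - (j + 1)) * (M ^ 2 / lam) ^ (k + 1)) := by
        intro j hj
        have hj' : j < k := Finset.mem_range.mp hj
        have h5 := key M lam hM h0 h1 j
        have h6 : (M ^ 2 / lam) ^ (k + 1) =
            (M ^ 2 / lam) ^ (j + 1) * (M ^ 2 / lam) ^ (k - (j + 1) + 1) := by
          rw [← pow_add]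
          congr 1
          omega
        have h7 : 0 ≤ (k.choose (j + 1) : ℝ) * D (k - (j + 1)) *
            (M ^ 2 / lam) ^ (k - (j + 1) + 1) :=
          mul_nonneg (mul_nonneg (Nat.cast_nonneg _) (le_trans zero_le_one (hD _)))
            (pow_nonneg hq0 _)
        rw [h6]
        calc (k.choose (j + 1) : ℝ) * M ^ (j + 2) *
            (D (k - (j + 1)) * (M ^ 2 / lam) ^ (k - (j + 1) + 1))
            = M ^ (j + 2) * ((k.choose (j + 1) : ℝ) * D (k - (j + 1)) *
              (M ^ 2 / lam) ^ (k - (j + 1) + 1)) := by ring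
          _ ≤ lam * (M ^ 2 / lam) ^ (j + 1) * ((k.choose (j + 1) : ℝ) * D (k - (j + 1)) *
              (M ^ 2 / lam) ^ (k - (j + 1) + 1)) := mul_le_mul_of_nonneg_right h5 h7
          _ = _ := by ring
      have h5 := Finset.sum_le_sum h4
      have h6 := key M lam hM h0 h1 k
      have h7 : lam * ‖FK χ k s‖ ≤ lam * ((1 + ∑ j ∈ range k,
          (k.choose (j + 1) : ℝ) * D (k - (j + 1))) * (M ^ 2 / lam) ^ (k + 1)) := by
        refine h3.trans ((add_le_add h6 h5).trans (le_of_eq ?_))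
        rw [← Finset.mul_sum, ← Finset.sum_mul]
        ring
      exact le_of_mul_le_mul_left h7 h0

end INDx

theorem t_IND : S_IND := by
  intro hL
  obtain ⟨D, hD, h⟩ := INDx.step hL 8 (le_refl 8)
  exact ⟨D, hD, fun r χ s M lam hs hM h0 h1 hA hA0 => h r χ s M lam hs hM h0 h1 hA hA0⟩

end Pool.Agent.FCT
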