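import Pool.Agent.FCT.St1

set_option autoImplicit false

/-!
FCT, part I, module KERB: the Fejer kernel and the bound for a sum.
-/

namespace Pool.Agent.FCT

open Finset MeasureTheory

/-- the sum at the frequency `t` -/
noncomputable def kerb_S (w : ℕ → ℂ) (t : ℝ) : ℂ :=
  ∑' n : ℕ, w n * Complex.exp (((t * Real.log n : ℝ) : ℂ) * Complex.I)

/-- the integrand -/
noncomputable def kerb_F (w : ℕ → ℂ) (T v : ℝ) (n : ℕ) (s : ℝ) : ℂ :=
  w n * ((2 * ((1 - s) * Real.cos (s * (T * Real.log n - v))) : ℝ) : ℂ)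

theorem kerb_exp_norm (x : ℝ) : ‖Complex.exp ((x : ℂ) * Complex.I)‖ = 1 :=
  Complex.norm_exp_ofReal_mul_I x

theorem kerb_summable (w : ℕ → ℂ) (hw : Summable (fun n => ‖w n‖)) (t : ℝ) :
    Summable (fun n : ℕ => w n * Complex.exp (((t * Real.log n : ℝ) : ℂ) * Complex.I)) := by
  refine Summable.of_norm ?_
  refine hw.congr fun n => ?_
  rw [norm_mul, kerb_exp_norm, mul_one]

theorem kerb_cos (a b : ℝ) : ((2 * Real.cos (a - b) : ℝ) : ℂ) =
    Complex.exp (((-b : ℝ) : ℂ) * Complex.I) * Complex.exp ((a : ℂ) * Complex.I) +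
      Complex.exp ((b : ℂ) * Complex.I) * Complex.exp (((-a : ℝ) : ℂ) * Complex.I) := by
  rw [← Complex.exp_add, ← Complex.exp_add]
  push_cast
  rw [Complex.two_cos]
  congr 2 <;> ring

theorem kerb_hasSum (w : ℕ → ℂ) (hw : Summable (fun n => ‖w n‖)) (T v s : ℝ) :
    HasSum (fun n => kerb_F w T v n s) (((1 - s : ℝ) : ℂ) *
      (Complex.exp (((-(s * v) : ℝ) : ℂ) * Complex.I) * kerb_S w (s * T) +
        Complex.exp (((s * v : ℝ) : ℂ) * Complex.I) * kerb_S w (-(s * T)))) := by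
  have h1 := (kerb_summable w hw (s * T)).hasSum
  have h2 := (kerb_summable w hw (-(s * T))).hasSum
  have h3 := ((h1.mul_left (Complex.exp (((-(s * v) : ℝ) : ℂ) * Complex.I))).add
    (h2.mul_left (Complex.exp (((s * v : ℝ) : ℂ) * Complex.I)))).mul_left ((1 - s : ℝ) : ℂ)
  refine h3.congr_fun ?_
  intro n
  have h4 := kerb_cos (s * T * Real.log n) (s * v)
  have h5 : s * (T * Real.log n - v) = s * T * Real.log n - s * v := by ring
  have h6 : ((2 * ((1 - s) * Real.cos (s * (T * Real.log n - v))) : ℝ) : ℂ) =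
      ((1 - s : ℝ) : ℂ) * ((2 * Real.cos (s * T * Real.log n - s * v) : ℝ) : ℂ) := by
    rw [h5, ← Complex.ofReal_mul]
    congr 1
    ring
  unfold kerb_F
  rw [h6, h4]
  have h7 : (-(s * T) * Real.log n : ℝ) = -(s * T * Real.log n) := by ring
  rw [h7]
  ring

theorem t_KERB : S_KERB := by
  intro w T v B hT hw hB
  have hSB : ∀ s : ℝ, 0 ≤ s → s ≤ 1 → ‖kerb_S w (s * T)‖ ≤ B ∧ ‖kerb_S w (-(s * T))‖ ≤ B := by
    intro s hs0 hs1
    have h1 : |s * T| ≤ T := by
      rw [abs_of_nonneg (mul_nonneg hs0 hT)]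
      nlinarith
    exact ⟨hB _ h1, hB _ (by rwa [abs_neg])⟩
  have hcont : ∀ n, Continuous (kerb_F w T v n) := by
    intro n
    unfold kerb_F
    refine continuous_const.mul (Complex.continuous_ofReal.comp ?_)
    fun_prop
  have hb : ∀ n : ℕ, ∀ s : ℝ, 0 ≤ s → s ≤ 1 → ‖kerb_F w T v n s‖ ≤ 2 * ‖w n‖ := by
    intro n s hs0 hs1
    unfold kerb_F
    rw [norm_mul, Complex.norm_real, Real.norm_eq_abs, abs_mul, abs_mul,
      abs_of_nonneg (by linarith : (0 : ℝ) ≤ 1 - s), abs_of_nonneg (by norm_num : (0 : ℝ) ≤ 2)]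
    have h1 := Real.abs_cos_le_one (s * (T * Real.log n - v))
    have h2 : (1 - s) * |Real.cos (s * (T * Real.log n - v))| ≤ 1 := by
      calc (1 - s) * |Real.cos (s * (T * Real.log n - v))| ≤ 1 * 1 :=
            mul_le_mul (by linarith) h1 (abs_nonneg _) zero_le_one
        _ = 1 := one_mul 1
    have h3 := norm_nonneg (w n)
    nlinarith
  have hmem : ∀ s : ℝ, s ∈ Set.uIoc (0 : ℝ) 1 → 0 ≤ s ∧ s ≤ 1 := by
    intro s hs
    rw [Set.uIoc_of_le zero_le_one] at hs
    exact ⟨hs.1.le, hs.2⟩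
  have hsum := intervalIntegral.hasSum_integral_of_dominated_convergence (a := 0) (b := 1)
    (μ := volume) (F := kerb_F w T v) (f := fun s : ℝ => ((1 - s : ℝ) : ℂ) *
      (Complex.exp (((-(s * v) : ℝ) : ℂ) * Complex.I) * kerb_S w (s * T) +
        Complex.exp (((s * v : ℝ) : ℂ) * Complex.I) * kerb_S w (-(s * T))))
    (fun n _ => 2 * ‖w n‖) (fun n => (hcont n).aestronglyMeasurable)
    (fun n => Filter.Eventually.of_forall fun s hs => hb n s (hmem s hs).1 (hmem s hs).2)
    (Filter.Eventually.of_forall fun s _ => hw.mul_left 2)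
    intervalIntegrable_const
    (Filter.Eventually.of_forall fun s _ => kerb_hasSum w hw T v s)
  have hint : ∀ n : ℕ, (∫ s in (0 : ℝ)..1, kerb_F w T v n s) =
      w n * ((Kf (T * Real.log n - v) : ℝ) : ℂ) := by
    intro n
    unfold kerb_F Kf
    rw [intervalIntegral.integral_const_mul, intervalIntegral.integral_ofReal,
      intervalIntegral.integral_const_mul]
  simp only [hint] at hsum
  rw [hsum.tsum_eq]
  have h1 : ‖∫ s in (0 : ℝ)..1, ((1 - s : ℝ) : ℂ) *
      (Complex.exp (((-(s * v) : ℝ) : ℂ) * Complex.I) * kerb_S w (s * T) +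
        Complex.exp (((s * v : ℝ) : ℂ) * Complex.I) * kerb_S w (-(s * T)))‖ ≤
      ∫ s in (0 : ℝ)..1, (1 - s) * (2 * B) := by
    refine intervalIntegral.norm_integral_le_of_norm_le zero_le_one
      (Filter.Eventually.of_forall fun s hs => ?_) ?_
    · have hs0 := hs.1.le
      have hs1 := hs.2
      rw [norm_mul, Complex.norm_real, Real.norm_eq_abs,
        abs_of_nonneg (by linarith : (0 : ℝ) ≤ 1 - s)]
      refine mul_le_mul_of_nonneg_left ?_ (by linarith)
      refine (norm_add_le _ _).trans ?_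
      rw [norm_mul, norm_mul, kerb_exp_norm, kerb_exp_norm, one_mul, one_mul]
      have h2 := hSB s hs0 hs1
      linarith [h2.1, h2.2]
    · exact Continuous.intervalIntegrable (by fun_prop) _ _
  refine h1.trans (le_of_eq ?_)
  rw [intervalIntegral.integral_mul_const, intervalIntegral.integral_sub
    intervalIntegrable_const intervalIntegral.intervalIntegrable_id]
  simp
  ring

end Pool.Agent.FCT
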