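import Pool.Agent.FCT.St1

/-!
# FCT_KERF: the Fejer kernel (helper9)
-/

set_option autoImplicit false

namespace Pool.Agent.FCT

open MeasureTheory

private theorem kerf_int : ∫ t in (0:ℝ)..1, (1 - t) = 1 / 2 := by
  rw [intervalIntegral.integral_sub (Continuous.intervalIntegrable (by fun_prop) _ _)
    (Continuous.intervalIntegrable (by fun_prop) _ _)]
  rw [integral_id, intervalIntegral.integral_const]
  norm_num

private theorem kerf_zero : Kf 0 = 1 := by
  unfold Kf
  simp only [mul_zero, Real.cos_zero, mul_one]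
  rw [kerf_int]
  norm_num

private theorem kerf_eq {v : ℝ} (hv : v ≠ 0) : Kf v = H70PNT.K v :=
  (H70PNT.K_eq_real hv).symm

private theorem kerf_lower {v : ℝ} (hv : |v| ≤ 1) : 1 / 2 ≤ Kf v := by
  unfold Kf
  have h1 : ∫ t in (0:ℝ)..1, (1 - t) * (1 / 2) ≤ ∫ t in (0:ℝ)..1, (1 - t) * Real.cos (t * v) := by
    apply intervalIntegral.integral_mono_on (by norm_num)
    · exact Continuous.intervalIntegrable (by fun_prop) _ _
    · exact Continuous.intervalIntegrable (by fun_prop) _ _
    · intro t ht
      apply mul_le_mul_of_nonneg_left _ (by linarith [ht.2])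
      have h2 : 1 - (t * v) ^ 2 / 2 ≤ Real.cos (t * v) := Real.one_sub_sq_div_two_le_cos
      have h3 : (t * v) ^ 2 ≤ 1 := by
        rw [← sq_abs, abs_mul]
        have h4 : |t| ≤ 1 := abs_le.mpr ⟨by linarith [ht.1], ht.2⟩
        have h5 : |t| * |v| ≤ 1 := mul_le_one₀ h4 (abs_nonneg _) hv
        have h6 : 0 ≤ |t| * |v| := by positivity
        exact pow_le_one₀ h6 h5
      linarith
  rw [intervalIntegral.integral_mul_const, kerf_int] at h1
  linarith

theorem t_KERF : S_KERF := by
  intro v
  refine ⟨?_, ?_, kerf_lower⟩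
  · rcases eq_or_ne v 0 with rfl | hv
    · rw [kerf_zero]
      norm_num
    · rw [kerf_eq hv]
      exact H70PNT.K_nonneg v
  · rcases eq_or_ne v 0 with rfl | hv
    · rw [kerf_zero]
      norm_num
    · rw [kerf_eq hv, div_eq_mul_inv]
      exact H70PNT.K_le v

end Pool.Agent.FCT
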