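import Pool.Agent.FCT.St1

set_option autoImplicit false

/-!
FCT, module LBA: the 3-4-1 inequality and a lower bound for `|A_0|` near the line `Re s = 1`.
-/

namespace Pool.Agent.FCT

open Finset

theorem lba_AJ0 {r : ℕ} (χ : DirichletCharacter ℂ r) (s : ℂ) :
    AJ χ 0 s = LSeries (fun n => χ n) s := by
  unfold AJ
  simp only [pow_zero, mul_one]

theorem lba_num {a b c x M : ℝ} (ha : 0 ≤ a) (hc : 0 ≤ c) (hx : 0 < x) (hM : 0 < M)
    (h1 : a ≤ 2 / x) (h2 : c ≤ M) (h : 1 ≤ a ^ 3 * b ^ 4 * c) : x ^ 3 / (8 * M) ≤ b ^ 4 := by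
  have h3 : a ^ 3 * b ^ 4 * c ≤ (2 / x) ^ 3 * b ^ 4 * M := by
    have h4 : a ^ 3 ≤ (2 / x) ^ 3 := pow_le_pow_left₀ ha h1 3
    have h5 : 0 ≤ b ^ 4 := by positivity
    exact mul_le_mul (mul_le_mul_of_nonneg_right h4 h5) h2 hc (by positivity)
  have h6 := h.trans h3
  rw [div_le_iff₀ (by positivity)]
  have h7 : x ^ 3 * 1 ≤ x ^ 3 * ((2 / x) ^ 3 * b ^ 4 * M) :=
    mul_le_mul_of_nonneg_left h6 (by positivity)
  have h8 : x ^ 3 * ((2 / x) ^ 3 * b ^ 4 * M) = b ^ 4 * (8 * M) := by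
    field_simp
    ring
  rw [h8, mul_one] at h7
  exact h7

/-- The 3-4-1 inequality. -/
theorem lba_341 {r : ℕ} (hr : 1 ≤ r) (χ : DirichletCharacter ℂ r) {x M t : ℝ} (hx : 0 < x)
    (hM : 0 < M)
    (h1 : ‖AJ (1 : DirichletCharacter ℂ r) 0 ((1 + x : ℝ) : ℂ)‖ ≤ 2 / x)
    (h2 : ‖AJ (χ ^ 2) 0 (((1 + x : ℝ) : ℂ) + ((2 * t : ℝ) : ℂ) * Complex.I)‖ ≤ M) :
    x ^ 3 / (8 * M) ≤ ‖AJ χ 0 (((1 + x : ℝ) : ℂ) + (t : ℂ) * Complex.I)‖ ^ 4 := by
  have : NeZero r := ⟨by omega⟩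
  have h := DirichletCharacter.norm_LSeries_product_ge_one χ hx t
  have e1 : (1 : ℂ) + x = ((1 + x : ℝ) : ℂ) := by push_cast; ring
  have e2 : (1 : ℂ) + x + Complex.I * t = ((1 + x : ℝ) : ℂ) + (t : ℂ) * Complex.I := by
    push_cast; ring
  have e3 : (1 : ℂ) + x + 2 * Complex.I * t =
      ((1 + x : ℝ) : ℂ) + ((2 * t : ℝ) : ℂ) * Complex.I := by push_cast; ring
  rw [e1] at h
  rw [← e1, e2, e3, e1, norm_mul, norm_mul, norm_pow, norm_pow] at h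
  rw [lba_AJ0] at h1 h2 ⊢
  exact lba_num (norm_nonneg _) (norm_nonneg _) hx hM h1 h2 h

theorem t_LBA : S_LBA := by
  intro hZ hD r χ M t hr hM hA1 hA2 u hu hu2
  have hM0 : 0 < M := by linarith
  have hM1 : 1 ≤ M := by linarith
  set x₀ : ℝ := 1 / (128 * M ^ 9) with hx₀
  have hx0 : 0 < x₀ := by positivity
  have hx1 : x₀ ≤ 1 := by
    rw [hx₀, div_le_one (by positivity)]
    have := one_le_pow₀ hM1 (n := 9)
    linarith
  have hxM : x₀ * (128 * M ^ 9) = 1 := by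
    rw [hx₀]
    field_simp
  have hgoal : 1 / (2 ^ 7 * M ^ 7) = x₀ * M ^ 2 := by
    rw [hx₀]
    field_simp
    ring
  -- the lower bound at all points to the right of `1 + x₀`
  have hbig : ∀ x : ℝ, x₀ ≤ x → x ≤ 1 →
      2 * (x₀ * M ^ 2) ≤ ‖AJ χ 0 (((1 + x : ℝ) : ℂ) + (t : ℂ) * Complex.I)‖ := by
    intro x hx hx1'
    have hxp : 0 < x := hx0.trans_le hx
    have h1 := lba_341 hr χ hxp hM0 (hZ r x hr hxp hx1') (hA2 (1 + x) (by linarith) (by linarith))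
    have h2 : (2 * (x₀ * M ^ 2)) ^ 4 ≤ x ^ 3 / (8 * M) := by
      rw [le_div_iff₀ (by positivity)]
      have e : (2 * (x₀ * M ^ 2)) ^ 4 * (8 * M) = x₀ ^ 3 * (x₀ * (128 * M ^ 9)) := by ring
      rw [e, hxM, mul_one]
      exact pow_le_pow_left₀ hx0.le hx 3
    exact le_of_pow_le_pow_left₀ (by norm_num) (norm_nonneg _) (h2.trans h1)
  have hp : 0 < x₀ * M ^ 2 := by positivity
  rw [hgoal]
  rcases le_or_gt (1 + x₀) u with hc | hc
  · have h1 := hbig (u - 1) (by linarith) (by linarith)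
    rw [show 1 + (u - 1) = u from by ring] at h1
    linarith
  · have h1 := hbig x₀ le_rfl hx1
    have h2 := hD r χ (((1 + x₀ : ℝ) : ℂ) + (t : ℂ) * Complex.I) ((u : ℂ) + (t : ℂ) * Complex.I)
      (M ^ 2) (by simp [hx0]) (by simpa using hu) ?_
    · have h3 : ‖(((1 + x₀ : ℝ) : ℂ) + (t : ℂ) * Complex.I) - ((u : ℂ) + (t : ℂ) * Complex.I)‖ ≤
          x₀ := by
        have e : (((1 + x₀ : ℝ) : ℂ) + (t : ℂ) * Complex.I) - ((u : ℂ) + (t : ℂ) * Complex.I) =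
            ((1 + x₀ - u : ℝ) : ℂ) := by push_cast; ring
        rw [e, Complex.norm_real, Real.norm_eq_abs, abs_of_nonneg (by linarith)]
        linarith
      have h4 : M ^ 2 * ‖(((1 + x₀ : ℝ) : ℂ) + (t : ℂ) * Complex.I) -
          ((u : ℂ) + (t : ℂ) * Complex.I)‖ ≤ M ^ 2 * x₀ :=
        mul_le_mul_of_nonneg_left h3 (by positivity)
      have h5 := norm_sub_norm_le (AJ χ 0 (((1 + x₀ : ℝ) : ℂ) + (t : ℂ) * Complex.I))
        (AJ χ 0 ((u : ℂ) + (t : ℂ) * Complex.I))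
      linarith
    · rintro z ⟨a, b, ha, hb, hab, rfl⟩
      have e : a • (((1 + x₀ : ℝ) : ℂ) + (t : ℂ) * Complex.I) +
          b • ((u : ℂ) + (t : ℂ) * Complex.I) =
          ((a * (1 + x₀) + b * u : ℝ) : ℂ) + (t : ℂ) * Complex.I := by
        have hab' : (a : ℂ) + b = 1 := by exact_mod_cast hab
        simp only [Complex.real_smul]
        push_cast
        linear_combination (t : ℂ) * Complex.I * hab'
      rw [e]
      refine hA1 _ ?_ ?_
      · nlinarith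
      · nlinarith

end Pool.Agent.FCT
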