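import Pool.Agent.FCT.St1

/-!
# FCT, module LEI (helper45): Leibniz rule for the derivatives of `L' = - L · (- L'/L)`
-/

set_option autoImplicit false

namespace Pool.Agent.FCT

open Finset
open scoped ArithmeticFunction.vonMangoldt

/-- powers of the logarithm grow slowly -/
theorem lei_log (j : ℕ) {x : ℝ} (hx : 1 < x) :
    ∃ C : ℝ, ∀ n : ℕ, n ≠ 0 → Real.log n ^ j ≤ C * (n : ℝ) ^ (x - 1) := by
  have hd : 0 < (x - 1) / (j + 1) := by
    have : (0 : ℝ) < j + 1 := by positivity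
    exact div_pos (by linarith) this
  refine ⟨(((x - 1) / (j + 1))⁻¹) ^ j, fun n hn => ?_⟩
  have hn1 : (1 : ℝ) ≤ n := by exact_mod_cast Nat.one_le_iff_ne_zero.2 hn
  have h1 : Real.log n ≤ (n : ℝ) ^ ((x - 1) / (j + 1)) / ((x - 1) / (j + 1)) :=
    Real.log_le_rpow_div (by linarith) hd
  calc Real.log n ^ j ≤ ((n : ℝ) ^ ((x - 1) / (j + 1)) / ((x - 1) / (j + 1))) ^ j :=
        pow_le_pow_left₀ (Real.log_nonneg hn1) h1 j
    _ = (((x - 1) / (j + 1))⁻¹) ^ j * ((n : ℝ) ^ ((x - 1) / (j + 1))) ^ j := by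
        rw [div_eq_mul_inv, mul_pow, mul_comm]
    _ ≤ (((x - 1) / (j + 1))⁻¹) ^ j * (n : ℝ) ^ (x - 1) := by
        refine mul_le_mul_of_nonneg_left ?_ (by positivity)
        rw [← Real.rpow_natCast, ← Real.rpow_mul (by linarith)]
        refine Real.rpow_le_rpow_of_exponent_le hn1 ?_
        have h2 : (0 : ℝ) < j + 1 := by positivity
        rw [div_mul_eq_mul_div, div_le_iff₀ h2]
        nlinarith

theorem lei_sumA {r : ℕ} (χ : DirichletCharacter ℂ r) (j : ℕ) {s : ℂ} (hs : 1 < s.re) :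
    LSeriesSummable (fun n => χ n * ((Real.log n : ℝ) : ℂ) ^ j) s := by
  obtain ⟨x, hx1, hx2⟩ := exists_between hs
  obtain ⟨C, hC⟩ := lei_log j hx1
  refine LSeriesSummable_of_le_const_mul_rpow hx2 ⟨C, fun n hn => ?_⟩
  have hn1 : (1 : ℝ) ≤ n := by exact_mod_cast Nat.one_le_iff_ne_zero.2 hn
  refine le_trans ?_ (hC n hn)
  rw [norm_mul, norm_pow, Complex.norm_real, Real.norm_of_nonneg (Real.log_nonneg hn1)]
  calc ‖χ n‖ * Real.log n ^ j ≤ 1 * Real.log n ^ j :=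
        mul_le_mul_of_nonneg_right (DirichletCharacter.norm_le_one χ _)
          (pow_nonneg (Real.log_nonneg hn1) j)
    _ = Real.log n ^ j := one_mul _

theorem lei_sumF {r : ℕ} (χ : DirichletCharacter ℂ r) (k : ℕ) {s : ℂ} (hs : 1 < s.re) :
    LSeriesSummable (fun n => χ n * ((Λ n : ℝ) : ℂ) * ((Real.log n : ℝ) : ℂ) ^ k) s := by
  obtain ⟨x, hx1, hx2⟩ := exists_between hs
  obtain ⟨C, hC⟩ := lei_log (k + 1) hx1
  refine LSeriesSummable_of_le_const_mul_rpow hx2 ⟨C, fun n hn => ?_⟩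
  have hn1 : (1 : ℝ) ≤ n := by exact_mod_cast Nat.one_le_iff_ne_zero.2 hn
  have hl : 0 ≤ Real.log n := Real.log_nonneg hn1
  refine le_trans ?_ (hC n hn)
  rw [norm_mul, norm_mul, norm_pow, Complex.norm_real, Complex.norm_real,
    Real.norm_of_nonneg hl, Real.norm_of_nonneg ArithmeticFunction.vonMangoldt_nonneg]
  calc ‖χ n‖ * Λ n * Real.log n ^ k ≤ 1 * Real.log n * Real.log n ^ k :=
        mul_le_mul_of_nonneg_right
          (mul_le_mul (DirichletCharacter.norm_le_one χ _) ArithmeticFunction.vonMangoldt_le_log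
            ArithmeticFunction.vonMangoldt_nonneg zero_le_one) (pow_nonneg hl k)
    _ = Real.log n ^ (k + 1) := by rw [one_mul, pow_succ, mul_comm]

/-- one term of the double sum -/
theorem lei_term {r : ℕ} (χ : DirichletCharacter ℂ r) (k a b : ℕ) (ha : a ≠ 0) (hb : b ≠ 0) :
    ∑ j ∈ range (k + 1), (k.choose j : ℂ) * ((χ a * ((Real.log a : ℝ) : ℂ) ^ j) *
      (χ b * ((Λ b : ℝ) : ℂ) * ((Real.log b : ℝ) : ℂ) ^ (k - j))) =
    χ (a * b : ℕ) * ((Real.log (a * b : ℕ) : ℝ) : ℂ) ^ k * ((Λ b : ℝ) : ℂ) := by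
  have h1 : ((Real.log (a * b : ℕ) : ℝ) : ℂ) =
      ((Real.log a : ℝ) : ℂ) + ((Real.log b : ℝ) : ℂ) := by
    rw [Nat.cast_mul, Real.log_mul (by exact_mod_cast ha) (by exact_mod_cast hb)]
    push_cast
    ring
  rw [h1, add_pow, Finset.mul_sum, Finset.sum_mul, Nat.cast_mul, map_mul]
  refine Finset.sum_congr rfl fun j _ => ?_
  ring

theorem t_LEI : S_LEI := by
  intro r χ k s hs
  have h1 : ∀ j ∈ range (k + 1), (k.choose j : ℂ) * AJ χ j s * FK χ (k - j) s =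
      LSeries ((k.choose j : ℂ) • LSeries.convolution
        (fun n => χ n * ((Real.log n : ℝ) : ℂ) ^ j)
        (fun n => χ n * ((Λ n : ℝ) : ℂ) * ((Real.log n : ℝ) : ℂ) ^ (k - j))) s := by
    intro j _
    rw [LSeries_smul, LSeries_convolution' (lei_sumA χ j hs) (lei_sumF χ (k - j) hs), mul_assoc]
    rfl
  rw [Finset.sum_congr rfl h1, ← LSeries_sum fun j _ =>
    ((lei_sumA χ j hs).convolution (lei_sumF χ (k - j) hs)).smul _]
  unfold AJ
  refine LSeries_congr (fun {n} hn => ?_) s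
  rw [Finset.sum_apply]
  simp only [Pi.smul_apply, LSeries.convolution_def, smul_eq_mul, Finset.mul_sum]
  rw [Finset.sum_comm]
  have h2 : ∀ p ∈ n.divisorsAntidiagonal,
      ∑ j ∈ range (k + 1), (k.choose j : ℂ) * ((χ p.1 * ((Real.log p.1 : ℝ) : ℂ) ^ j) *
        (χ p.2 * ((Λ p.2 : ℝ) : ℂ) * ((Real.log p.2 : ℝ) : ℂ) ^ (k - j))) =
      χ n * ((Real.log n : ℝ) : ℂ) ^ k * ((Λ p.2 : ℝ) : ℂ) := by
    intro p hp
    obtain ⟨hp1, hp2⟩ := Nat.mem_divisorsAntidiagonal.1 hp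
    have h3 : p.1 ≠ 0 := by
      rintro h0
      rw [h0, zero_mul] at hp1
      exact hp2 hp1.symm
    have h4 : p.2 ≠ 0 := by
      rintro h0
      rw [h0, mul_zero] at hp1
      exact hp2 hp1.symm
    rw [lei_term χ k p.1 p.2 h3 h4, hp1]
  rw [Finset.sum_congr rfl h2, ← Finset.mul_sum]
  have h5 : ∑ p ∈ n.divisorsAntidiagonal, ((Λ p.2 : ℝ) : ℂ) = ((Real.log n : ℝ) : ℂ) := by
    rw [← ArithmeticFunction.vonMangoldt_sum,
      Nat.sum_divisorsAntidiagonal' (fun _ y => ((Λ y : ℝ) : ℂ)), Complex.ofReal_sum]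
  rw [h5, mul_assoc, ← pow_succ]

end Pool.Agent.FCT
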