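import Pool.Agent.FCT.St1

/-!
# FCT, module MOM: the moments of `Λ`
-/

set_option autoImplicit false

namespace Pool.Agent.FCT

open Finset
open scoped ArithmeticFunction.vonMangoldt

theorem mom_term (b : ℝ) (hb : 0 < b) (n : ℕ) (hn : 1 ≤ n) :
    ((n + 1 : ℕ) : ℝ) ^ (-(1 + b)) ≤ 1 / b * ((n : ℝ) ^ (-b) - ((n + 1 : ℕ) : ℝ) ^ (-b)) := by
  have hx : (0:ℝ) < n := by exact_mod_cast hn
  have hy : (0:ℝ) < ((n + 1 : ℕ) : ℝ) := by positivity
  have hyx : ((n + 1 : ℕ) : ℝ) = n + 1 := by push_cast; ring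
  set x : ℝ := (n : ℝ) with hxdef
  set y : ℝ := ((n + 1 : ℕ) : ℝ) with hydef
  have h1 : 1 - (y / x)⁻¹ ≤ Real.log (y / x) := Real.one_sub_inv_le_log_of_pos (div_pos hy hx)
  have h2 : 1 - (y / x)⁻¹ = 1 / y := by
    rw [inv_div]
    field_simp
    rw [hyx]
    ring
  have h3 : Real.log (y / x) * b + 1 ≤ Real.exp (Real.log (y / x) * b) := Real.add_one_le_exp _
  have h4 : Real.exp (Real.log (y / x) * b) = (y / x) ^ b :=
    (Real.rpow_def_of_pos (div_pos hy hx) b).symm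
  have h5 : 1 + b / y ≤ (y / x) ^ b := by
    rw [← h4]
    have : 1 / y * b ≤ Real.log (y / x) * b := by
      apply mul_le_mul_of_nonneg_right _ hb.le
      rw [← h2]; exact h1
    calc 1 + b / y = 1 / y * b + 1 := by ring
      _ ≤ Real.log (y / x) * b + 1 := by linarith
      _ ≤ _ := h3
  have h6 : x ^ (-b) = y ^ (-b) * (y / x) ^ b := by
    rw [Real.div_rpow hy.le hx.le, Real.rpow_neg hx.le, Real.rpow_neg hy.le]
    have := (Real.rpow_pos_of_pos hy b).ne'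
    field_simp
  have h7 : y ^ (-(1 + b)) = y ^ (-b) * (1 / y) := by
    rw [show -(1 + b) = -b + (-1) by ring, Real.rpow_add hy, Real.rpow_neg_one]
    simp
  rw [h6, h7]
  have hp : 0 < y ^ (-b) := Real.rpow_pos_of_pos hy _
  have h8 : 1 / y ≤ 1 / b * ((y / x) ^ b - 1) := by
    have : b / y ≤ (y / x) ^ b - 1 := by linarith
    calc 1 / y = 1 / b * (b / y) := by field_simp
      _ ≤ _ := mul_le_mul_of_nonneg_left this (by positivity)
  calc y ^ (-b) * (1 / y) ≤ y ^ (-b) * (1 / b * ((y / x) ^ b - 1)) :=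
        mul_le_mul_of_nonneg_left h8 hp.le
    _ = _ := by ring

theorem mom_sum (b : ℝ) (hb : 0 < b) (N : ℕ) :
    ∑ i ∈ range (N + 2), (i : ℝ) ^ (-(1 + b)) ≤ 1 + 1 / b * (1 - ((N + 1 : ℕ) : ℝ) ^ (-b)) := by
  induction N with
  | zero =>
    rw [sum_range_succ, sum_range_succ, sum_range_zero]
    have h : (-(1 + b)) ≠ 0 := by linarith
    have h0 : ((0 : ℕ) : ℝ) ^ (-(1 + b)) = 0 := by rw [Nat.cast_zero]; exact Real.zero_rpow h
    have h1 : ((0 + 1 : ℕ) : ℝ) ^ (-(1 + b)) = 1 := by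
      rw [show ((0 + 1 : ℕ) : ℝ) = 1 by norm_num]; exact Real.one_rpow _
    have h2 : ((0 + 1 : ℕ) : ℝ) ^ (-b) = 1 := by
      rw [show ((0 + 1 : ℕ) : ℝ) = 1 by norm_num]; exact Real.one_rpow _
    rw [h0, h1, h2]
    norm_num
  | succ N ih =>
    rw [sum_range_succ]
    have := mom_term b hb (N + 1) (by omega)
    have h2 : ((N + 2 : ℕ) : ℝ) ^ (-(1 + b)) ≤
        1 / b * (((N + 1 : ℕ) : ℝ) ^ (-b) - ((N + 1 + 1 : ℕ) : ℝ) ^ (-b)) := this
    calc _ ≤ (1 + 1 / b * (1 - ((N + 1 : ℕ) : ℝ) ^ (-b))) +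
        1 / b * (((N + 1 : ℕ) : ℝ) ^ (-b) - ((N + 1 + 1 : ℕ) : ℝ) ^ (-b)) := add_le_add ih h2
      _ = _ := by ring

theorem mom_tsum (b : ℝ) (hb : 0 < b) : ∑' n : ℕ, (n : ℝ) ^ (-(1 + b)) ≤ 1 + 1 / b := by
  apply Real.tsum_le_of_sum_range_le
  · intro n; positivity
  · intro N
    calc ∑ i ∈ range N, (i : ℝ) ^ (-(1 + b)) ≤ ∑ i ∈ range (N + 2), (i : ℝ) ^ (-(1 + b)) := by
          apply sum_le_sum_of_subset_of_nonneg
          · intro i hi
            simp only [mem_range] at hi ⊢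
            omega
          · intro i _ _
            positivity
      _ ≤ 1 + 1 / b * (1 - ((N + 1 : ℕ) : ℝ) ^ (-b)) := mom_sum b hb N
      _ ≤ 1 + 1 / b * 1 := by
          have : 0 ≤ ((N + 1 : ℕ) : ℝ) ^ (-b) := by positivity
          have h2 : 1 - ((N + 1 : ℕ) : ℝ) ^ (-b) ≤ 1 := by linarith
          have h3 : (0:ℝ) ≤ 1 / b := by positivity
          linarith [mul_le_mul_of_nonneg_left h2 h3]
      _ = _ := by ring

theorem mom_wt (a : ℝ) (ha : 0 < a) (n : ℕ) :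
    wt (1 + a) n ≤ (362880 * (2 / a) ^ 9) * (n : ℝ) ^ (-(1 + a / 2)) := by
  rcases Nat.eq_zero_or_pos n with rfl | hn
  · have : wt (1 + a) 0 = 0 := by simp [wt]
    rw [this]; positivity
  have hn' : (0:ℝ) < n := by exact_mod_cast hn
  have hl : 0 ≤ Real.log n := Real.log_natCast_nonneg n
  have h1 : Λ n ≤ Real.log n := ArithmeticFunction.vonMangoldt_le_log
  have h2 : (a / 2 * Real.log n) ^ 9 / (Nat.factorial 9 : ℝ) ≤ Real.exp (a / 2 * Real.log n) :=
    Real.pow_div_factorial_le_exp _ (by positivity) 9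
  have h3 : Real.exp (a / 2 * Real.log n) = (n : ℝ) ^ (a / 2) := by
    rw [Real.rpow_def_of_pos hn']; ring_nf
  have h4 : (Nat.factorial 9 : ℝ) = 362880 := by norm_num [Nat.factorial]
  rw [h3, h4] at h2
  have h5 : Real.log n ^ 9 ≤ 362880 * (2 / a) ^ 9 * (n : ℝ) ^ (a / 2) := by
    have h6 : (a / 2 * Real.log n) ^ 9 ≤ 362880 * (n : ℝ) ^ (a / 2) := by
      rw [div_le_iff₀ (by norm_num)] at h2
      linarith
    have h7 : Real.log n ^ 9 = (2 / a) ^ 9 * (a / 2 * Real.log n) ^ 9 := by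
      rw [← mul_pow]
      congr 1
      field_simp
    rw [h7]
    calc (2 / a) ^ 9 * (a / 2 * Real.log n) ^ 9 ≤ (2 / a) ^ 9 * (362880 * (n : ℝ) ^ (a / 2)) :=
          mul_le_mul_of_nonneg_left h6 (by positivity)
      _ = _ := by ring
  have h8 : Λ n * Real.log n ^ 8 ≤ Real.log n ^ 9 := by
    calc Λ n * Real.log n ^ 8 ≤ Real.log n * Real.log n ^ 8 :=
          mul_le_mul_of_nonneg_right h1 (by positivity)
      _ = _ := by ring
  have h9 : (n : ℝ) ^ (-(1 + a / 2)) = (n : ℝ) ^ (a / 2) * (n : ℝ) ^ (-(1 + a)) := by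
    rw [← Real.rpow_add hn']
    congr 1
    ring
  rw [wt, h9]
  calc Λ n * Real.log n ^ 8 * (n : ℝ) ^ (-(1 + a))
      ≤ (362880 * (2 / a) ^ 9 * (n : ℝ) ^ (a / 2)) * (n : ℝ) ^ (-(1 + a)) :=
        mul_le_mul_of_nonneg_right (h8.trans h5) (by positivity)
    _ = _ := by ring

theorem mom_wt_nonneg (σ : ℝ) (n : ℕ) : 0 ≤ wt σ n := by
  rw [wt]
  have h1 : 0 ≤ Λ n := ArithmeticFunction.vonMangoldt_nonneg
  have h2 : 0 ≤ Real.log n := Real.log_natCast_nonneg n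
  positivity

theorem mom_summable (a : ℝ) (ha : 0 < a) : Summable (wt (1 + a)) := by
  have h : Summable fun n : ℕ => (362880 * (2 / a) ^ 9) * (n : ℝ) ^ (-(1 + a / 2)) := by
    apply Summable.mul_left
    rw [Real.summable_nat_rpow]
    linarith
  exact Summable.of_nonneg_of_le (mom_wt_nonneg _) (mom_wt a ha) h

theorem t_MOM : S_MOM := by
  refine ⟨?_, 362880 * 2 ^ 9 * 3, by norm_num, ?_⟩
  · intro σ hσ
    have := mom_summable (σ - 1) (by linarith)
    rwa [show 1 + (σ - 1) = σ by ring] at this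
  · intro L hL
    have hL0 : 0 < L := by linarith
    have ha : 0 < 1 / L := by positivity
    have hs : Summable fun n : ℕ => (362880 * (2 / (1 / L)) ^ 9) * (n : ℝ) ^ (-(1 + (1 / L) / 2)) := by
      apply Summable.mul_left
      rw [Real.summable_nat_rpow]
      linarith
    have h1 : ∑' n, wt (1 + 1 / L) n ≤
        ∑' n : ℕ, (362880 * (2 / (1 / L)) ^ 9) * (n : ℝ) ^ (-(1 + (1 / L) / 2)) :=
      (mom_summable (1 / L) ha).tsum_le_tsum (mom_wt (1 / L) ha) hs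
    rw [tsum_mul_left] at h1
    have h2 : ∑' n : ℕ, (n : ℝ) ^ (-(1 + (1 / L) / 2)) ≤ 1 + 1 / ((1 / L) / 2) :=
      mom_tsum _ (by positivity)
    have h3 : 1 + 1 / ((1 / L) / 2) ≤ 3 * L := by
      have : 1 / ((1 / L) / 2) = 2 * L := by field_simp
      rw [this]; linarith
    have h4 : (2 / (1 / L)) = 2 * L := by field_simp
    rw [h4] at h1
    calc ∑' n, wt (1 + 1 / L) n ≤ (362880 * (2 * L) ^ 9) * ∑' n : ℕ, (n : ℝ) ^ (-(1 + (1 / L) / 2)) := h1
      _ ≤ (362880 * (2 * L) ^ 9) * (3 * L) :=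
          mul_le_mul_of_nonneg_left (h2.trans h3) (by positivity)
      _ = _ := by ring

end Pool.Agent.FCT
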