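import Pool.Agent.FCT.St1

set_option autoImplicit false

/-!
FCT, module REP: `ζ L(χ₁) L(χ₂) L(χ₁ χ₂) ≥ 1` to the right of `1`, for real characters.
-/

namespace Pool.Agent.FCT

namespace REP

/-- The Euler factor is at least one. -/
theorem fac (x : ℝ) (hx0 : 0 < x) (hx1 : x < 1) (α β : ℝ) (hα : α = 0 ∨ α = 1 ∨ α = -1)
    (hβ : β = 0 ∨ β = 1 ∨ β = -1) :
    1 ≤ (1 - 1 * x)⁻¹ * (1 - α * x)⁻¹ * (1 - β * x)⁻¹ * (1 - α * β * x)⁻¹ := by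
  have hp : 0 < (1 - 1 * x) * (1 - α * x) * (1 - β * x) * (1 - α * β * x) := by
    have h1 : 0 < 1 - 1 * x := by linarith
    have h2 : 0 < 1 - α * x := by rcases hα with rfl | rfl | rfl <;> linarith
    have h3 : 0 < 1 - β * x := by rcases hβ with rfl | rfl | rfl <;> linarith
    have h4 : 0 < 1 - α * β * x := by
      rcases hα with rfl | rfl | rfl <;> rcases hβ with rfl | rfl | rfl <;> linarith
    positivity
  rw [← mul_inv, ← mul_inv, ← mul_inv]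
  refine (one_le_inv₀ hp).2 ?_
  have e1 : 0 ≤ (1 - x) * (1 + x) := mul_nonneg (by linarith) (by linarith)
  have e2 : (1 - x) * (1 + x) ≤ 1 := by nlinarith
  have e3 : 0 ≤ (1 - x) := by linarith
  have e4 : (1 - x) ≤ 1 := by linarith
  have e5 : (1 - x) * (1 - x) ≤ 1 := mul_le_one₀ e4 e3 e4
  have e6 : 0 ≤ (1 - x) * (1 - x) := mul_nonneg e3 e3
  rcases hα with rfl | rfl | rfl <;> rcases hβ with rfl | rfl | rfl
  · calc _ = (1 - x) := by ring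
      _ ≤ 1 := e4
  · calc _ = (1 - x) * (1 - x) := by ring
      _ ≤ 1 := e5
  · calc _ = (1 - x) * (1 + x) := by ring
      _ ≤ 1 := e2
  · calc _ = (1 - x) * (1 - x) := by ring
      _ ≤ 1 := e5
  · calc _ = ((1 - x) * (1 - x)) * ((1 - x) * (1 - x)) := by ring
      _ ≤ 1 := mul_le_one₀ e5 e6 e5
  · calc _ = ((1 - x) * (1 + x)) * ((1 - x) * (1 + x)) := by ring
      _ ≤ 1 := mul_le_one₀ e2 e1 e2
  · calc _ = (1 - x) * (1 + x) := by ring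
      _ ≤ 1 := e2
  · calc _ = ((1 - x) * (1 + x)) * ((1 - x) * (1 + x)) := by ring
      _ ≤ 1 := mul_le_one₀ e2 e1 e2
  · calc _ = ((1 - x) * (1 + x)) * ((1 - x) * (1 + x)) := by ring
      _ ≤ 1 := mul_le_one₀ e2 e1 e2

/-- Values of a real character. -/
theorem val (r : ℕ) (χ : DirichletCharacter ℂ r) (h : χ ^ 2 = 1) (n : ZMod r) :
    ∃ α : ℝ, (α = 0 ∨ α = 1 ∨ α = -1) ∧ χ n = (α : ℂ) := by
  by_cases hu : IsUnit n
  · have h1 : (χ ^ 2) n = 1 := by rw [h, MulChar.one_apply hu]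
    rw [MulChar.pow_apply' χ (by norm_num)] at h1
    rcases sq_eq_one_iff_of_ne_zero_or h1 with h2 | h2
    · exact ⟨1, Or.inr (Or.inl rfl), by rw [h2]; norm_num⟩
    · exact ⟨-1, Or.inr (Or.inr rfl), by rw [h2]; norm_num⟩
  · exact ⟨0, Or.inl rfl, by rw [MulChar.map_nonunit χ hu]; norm_num⟩
where
  sq_eq_one_iff_of_ne_zero_or {z : ℂ} (hz : z ^ 2 = 1) : z = 1 ∨ z = -1 := sq_eq_one_iff_of_ne hz
  sq_eq_one_iff_of_ne {z : ℂ} (hz : z ^ 2 = 1) : z = 1 ∨ z = -1 := by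
    have : (z - 1) * (z + 1) = 0 := by linear_combination hz
    rcases mul_eq_zero.1 this with h | h
    · left; linear_combination h
    · right; linear_combination h

/-- The product character at a natural number. -/
theorem prod_val (r₁ r₂ : ℕ) (χ₁ : DirichletCharacter ℂ r₁) (χ₂ : DirichletCharacter ℂ r₂)
    (n : ℕ) :
    (DirichletCharacter.changeLevel (Dvd.intro r₂ rfl : r₁ ∣ r₁ * r₂) χ₁ *
      DirichletCharacter.changeLevel (Dvd.intro_left r₁ rfl : r₂ ∣ r₁ * r₂) χ₂) (n : ZMod (r₁ * r₂)) =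
      χ₁ n * χ₂ n := by
  by_cases hu : n.Coprime (r₁ * r₂)
  · have h1 := DirichletCharacter.changeLevel_eq_cast_of_dvd χ₁ (Dvd.intro r₂ rfl : r₁ ∣ r₁ * r₂)
      (ZMod.unitOfCoprime n hu)
    have h2 := DirichletCharacter.changeLevel_eq_cast_of_dvd χ₂
      (Dvd.intro_left r₁ rfl : r₂ ∣ r₁ * r₂) (ZMod.unitOfCoprime n hu)
    rw [ZMod.coe_unitOfCoprime, ZMod.cast_natCast (Dvd.intro r₂ rfl)] at h1
    rw [ZMod.coe_unitOfCoprime, ZMod.cast_natCast (Dvd.intro_left r₁ rfl)] at h2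
    rw [MulChar.mul_apply, h1, h2]
  · have hn : ¬ IsUnit (n : ZMod (r₁ * r₂)) := by
      rwa [ZMod.isUnit_iff_coprime]
    rw [MulChar.map_nonunit _ hn]
    have h3 : ¬ (n.Coprime r₁ ∧ n.Coprime r₂) := fun h => hu (Nat.Coprime.mul_right h.1 h.2)
    by_cases h4 : n.Coprime r₁
    · have h5 : ¬ IsUnit (n : ZMod r₂) := by
        rw [ZMod.isUnit_iff_coprime]
        exact fun h => h3 ⟨h4, h⟩
      rw [MulChar.map_nonunit _ h5, mul_zero]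
    · have h5 : ¬ IsUnit (n : ZMod r₁) := by
        rwa [ZMod.isUnit_iff_coprime]
      rw [MulChar.map_nonunit _ h5, zero_mul]

theorem aj {r : ℕ} (χ : DirichletCharacter ℂ r) (s : ℂ) :
    AJ χ 0 s = LSeries (fun n => χ n) s := by
  unfold AJ
  congr 1
  funext n
  rw [pow_zero, mul_one]

theorem hp {r : ℕ} (χ : DirichletCharacter ℂ r) (σ : ℝ) (hσ : 1 < σ) :
    HasProd (fun p : Nat.Primes => ‖(1 - χ (p : ℕ) * ((p : ℕ) : ℂ) ^ (-(σ : ℂ)))⁻¹‖)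
      ‖AJ χ 0 (σ : ℂ)‖ := by
  rw [aj]
  exact (DirichletCharacter.LSeries_eulerProduct_hasProd χ
    (show 1 < ((σ : ℂ)).re by rw [Complex.ofReal_re]; exact hσ)).norm

theorem nrm (x : ℝ) (hx0 : 0 < x) (hx1 : x < 1) (α : ℝ) (hα : |α| ≤ 1) :
    ‖(1 - (α : ℂ) * (x : ℂ))⁻¹‖ = (1 - α * x)⁻¹ := by
  have h1 : (1 - (α : ℂ) * (x : ℂ)) = ((1 - α * x : ℝ) : ℂ) := by push_cast; ring
  have h2 : 0 < 1 - α * x := by
    have := abs_le.1 hα
    nlinarith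
  rw [h1, norm_inv, Complex.norm_real, Real.norm_eq_abs, abs_of_pos h2]

end REP

open REP in
theorem t_REP : S_REP := by
  intro r₁ r₂ χ₁ χ₂ σ _ _ h1 h2 hσ
  have H := (((hp (1 : DirichletCharacter ℂ 1) σ hσ).mul (hp χ₁ σ hσ)).mul (hp χ₂ σ hσ)).mul
    (hp (DirichletCharacter.changeLevel (Dvd.intro r₂ rfl : r₁ ∣ r₁ * r₂) χ₁ *
      DirichletCharacter.changeLevel (Dvd.intro_left r₁ rfl : r₂ ∣ r₁ * r₂) χ₂) σ hσ)
  refine ge_of_tendsto' H fun s => Finset.one_le_prod fun p _ => ?_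
  have hp2 : (2 : ℝ) ≤ ((p : ℕ) : ℝ) := by exact_mod_cast p.2.two_le
  have hx : (((p : ℕ) : ℂ) ^ (-(σ : ℂ))) = ((((p : ℕ) : ℝ) ^ (-σ) : ℝ) : ℂ) := by
    rw [Complex.ofReal_cpow (by positivity)]
    push_cast
    rfl
  have hx0 : 0 < ((p : ℕ) : ℝ) ^ (-σ) := Real.rpow_pos_of_pos (by linarith) _
  have hx1 : ((p : ℕ) : ℝ) ^ (-σ) < 1 :=
    Real.rpow_lt_one_of_one_lt_of_neg (by linarith) (by linarith)
  obtain ⟨α, hα, hα'⟩ := val r₁ χ₁ h1 ((p : ℕ) : ZMod r₁)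
  obtain ⟨β, hβ, hβ'⟩ := val r₂ χ₂ h2 ((p : ℕ) : ZMod r₂)
  have hab : ∀ γ : ℝ, (γ = 0 ∨ γ = 1 ∨ γ = -1) → |γ| ≤ 1 := by
    rintro γ (rfl | rfl | rfl) <;> norm_num
  have hαβ : α * β = 0 ∨ α * β = 1 ∨ α * β = -1 := by
    rcases hα with rfl | rfl | rfl <;> rcases hβ with rfl | rfl | rfl <;> norm_num
  have h3 : (1 : DirichletCharacter ℂ 1) ((p : ℕ) : ZMod 1) = ((1 : ℝ) : ℂ) := by
    rw [MulChar.one_apply (isUnit_of_subsingleton _)]
    norm_num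
  have h4 : χ₁ ((p : ℕ) : ZMod r₁) * χ₂ ((p : ℕ) : ZMod r₂) = ((α * β : ℝ) : ℂ) := by
    rw [hα', hβ']
    push_cast
    ring
  rw [prod_val, h4, hα', hβ', h3, hx, nrm _ hx0 hx1 1 (by norm_num), nrm _ hx0 hx1 α (hab α hα),
    nrm _ hx0 hx1 β (hab β hβ), nrm _ hx0 hx1 (α * β) (hab _ hαβ)]
  exact fac _ hx0 hx1 α β hα hβ

end Pool.Agent.FCT
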