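import Mathlib
import Pool.Agent.Lib_helper70.PNT.PNT

set_option autoImplicit false

/-!
FCT, part I: a lower bound for the number of primes in the classes to moduli up to `(log N) ^ 2`,
apart from the multiples of one exceptional modulus. Only the half plane `Re s > 1` is used.
Statements with proofs in the comments.
-/

namespace Pool.Agent.FCT

open Finset
open scoped ArithmeticFunction.vonMangoldt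

/-- The Fejer kernel `2 ∫_0^1 (1 - t) cos (t v) dt`. -/
noncomputable def Kf (v : ℝ) : ℝ := 2 * ∫ t in (0:ℝ)..1, (1 - t) * Real.cos (t * v)

/-- `∑ χ(n) (log n)^j n^(-s)`. -/
noncomputable def AJ {r : ℕ} (χ : DirichletCharacter ℂ r) (j : ℕ) (s : ℂ) : ℂ :=
  LSeries (fun n => χ n * ((Real.log n : ℝ) : ℂ) ^ j) s

/-- `∑ χ(n) Λ(n) (log n)^k n^(-s)`. -/
noncomputable def FK {r : ℕ} (χ : DirichletCharacter ℂ r) (k : ℕ) (s : ℂ) : ℂ :=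
  LSeries (fun n => χ n * ((Λ n : ℝ) : ℂ) * ((Real.log n : ℝ) : ℂ) ^ k) s

/-- `log (r (|t| + 3))`. -/
noncomputable def ell (r : ℕ) (t : ℝ) : ℝ := Real.log (r * (|t| + 3))

/-- The weights `Λ(n) (log n)^8 n^(-σ)`. -/
noncomputable def wt (σ : ℝ) (n : ℕ) : ℝ := Λ n * Real.log n ^ 8 * (n : ℝ) ^ (-σ)

/-- A smooth window in `u = log n`, about `[log (1.1 y), log (1.3 y)]`. -/
noncomputable def Psi (T y u : ℝ) : ℝ :=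
  ∑ j ∈ range (⌊T / 5⌋₊ + 1), Kf (T * u - (T * Real.log (11 / 10 * y) + j))

/-- Upper bounds for all characters to moduli up to `R ^ 2`, in `1 < Re s ≤ 2`, `|Im s| ≤ 2 T`. -/
def UB (R T M : ℝ) : Prop :=
  2 ≤ M ∧ ∀ r : ℕ, 1 ≤ r → (r : ℝ) ≤ R ^ 2 →
    (∀ χ : DirichletCharacter ℂ r, χ ≠ 1 → ∀ j : ℕ, j ≤ 9 → ∀ s : ℂ, 1 < s.re → s.re ≤ 2 →
      |s.im| ≤ 2 * T → ‖AJ χ j s‖ ≤ M ^ (j + 1)) ∧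
    (∀ s : ℂ, 1 < s.re → s.re ≤ 2 → s.im ≠ 0 → |s.im| ≤ 2 * T →
      ‖AJ (1 : DirichletCharacter ℂ r) 0 s‖ ≤ M * (1 + 1 / |s.im|))

/-- The modulus `r` has no bad real character at the point `σ`. -/
def NoBad (M σ : ℝ) (r : ℕ) : Prop :=
  ∀ χ : DirichletCharacter ℂ r, χ ≠ 1 → χ ^ 2 = 1 → 1 / (16 * M ^ 3) ≤ ‖AJ χ 0 (σ : ℂ)‖

/-! ### The kernel -/

/-- KERF. For `v ≠ 0`, `Kf v = H70PNT.K v = 2 (1 - cos v) / v ^ 2` (`H70PNT.K_eq_real`, `K_nonneg`,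
`K_le`); `Kf 0 = 1`. For `0 < |v| ≤ 1`: `cos v ≤ 1 - v^2/2 + v^4/24` (`Real.cos_bound` or
`Real.cos_lt_one_div...`), or directly: `t |v| ≤ 1` and `cos x ≥ 1 - x^2/2 ≥ 1/2` for `|x| ≤ 1` in
the integral: `Kf v ≥ 2 ∫ (1 - t) (1/2) = 1/2`. -/
def S_KERF : Prop := ∀ v : ℝ, 0 ≤ Kf v ∧ Kf v ≤ 8 / (1 + v ^ 2) ∧ (|v| ≤ 1 → 1 / 2 ≤ Kf v)

/-- KERB. `Kf (T log n - v) = 2 ∫_0^1 (1 - τ) cos (τ (T log n - v)) dτ`; exchange sum and integral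
(`intervalIntegral.hasSum_integral_of_dominated_convergence` or `MeasureTheory.integral_tsum`), and
`cos (τ T log n - τ v) = (e^(-iτv) e^(iτT log n) + e^(iτv) e^(-iτT log n)) / 2`, so that the inner
sum is at most `B` in norm; `2 ∫ (1 - τ) = 1`. -/
def S_KERB : Prop := ∀ (w : ℕ → ℂ) (T v B : ℝ), 0 ≤ T → Summable (fun n => ‖w n‖) →
  (∀ t : ℝ, |t| ≤ T → ‖∑' n, w n * Complex.exp (((t * Real.log n : ℝ) : ℂ) * Complex.I)‖ ≤ B) →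
  ‖∑' n : ℕ, w n * ((Kf (T * Real.log n - v) : ℝ) : ℂ)‖ ≤ B

/-- GRD (uses KERF). Let `x = T (u - log (11/10 y))`, so that `Psi = ∑_{j ≤ T/5} Kf (x - j)`.
(1) nonnegative. (2) `∑_j 8 / (1 + (x - j)^2) ≤ 50`: at most two `j` have
`m ≤ |x - j| < m + 1` for each natural number `m`, so the sum is at most
`2 ∑_m 8/(1+m^2) ≤ 16 (1 + 1/2 + ∑_{m ≥ 2} 1/(m (m - 1)) ...) ≤ 50`.
(3) in the window `0 ≤ x ≤ T log (13/11) ≤ T/5`, so `j = ⌊x⌋` is one of the shifts and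
`|x - j| ≤ 1`. (4) if `u ≤ log y` then `x ≤ - T log (11/10) ≤ -T/11`, and if `u ≥ log (3/2 y)`
then `x ≥ T log (15/11) ≥ 3T/10` and `x - j ≥ T/10`; so all terms are `≤ 8 · 121 / T^2` and there
are at most `T/5 + 1 ≤ 2T/5` of them: total `≤ 388/T`. -/
def S_GRD : Prop := ∀ T y u : ℝ, 5 ≤ T → 0 < y →
  0 ≤ Psi T y u ∧ Psi T y u ≤ 50 ∧
  (Real.log (11 / 10 * y) ≤ u → u ≤ Real.log (13 / 10 * y) → 1 / 2 ≤ Psi T y u) ∧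
  ((u ≤ Real.log y ∨ Real.log (3 / 2 * y) ≤ u) → Psi T y u ≤ 2000 / T)

/-- MOM. `Λ n ≤ log n`; `(log n)^9 ≤ 9! (2L)^9 n^(1/(2L))` (from `x^9/9! ≤ exp x`,
`Real.pow_div_factorial_le_exp`, `x = log n/(2L)`), and
`∑ n^(-1-1/(2L)) ≤ 1 + 2L` (integral test, or a comparison with `ZetaAsymp` / `ζ`). Summability:
the same with `L = 1/(σ-1)`, or `LSeriesSummable` of `Λ` and `LSeriesSummable_logPowMul...`. -/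
def S_MOM : Prop := (∀ σ : ℝ, 1 < σ → Summable (wt σ)) ∧
  ∃ C : ℝ, 1 ≤ C ∧ ∀ L : ℝ, 1 ≤ L → ∑' n, wt (1 + 1 / L) n ≤ C * L ^ 10

/-- WLO. From `H70PNT.theta_tendsto`: for large `y`, `θ(13/10 y) - θ(11/10 y) ≥ y/10`; the primes
`p > 11/10 y` are coprime to `r ≤ y`, and `Λ p = log p`. -/
def S_WLO : Prop := ∃ y₀ : ℝ, ∀ y : ℝ, y₀ ≤ y → ∀ r : ℕ, 1 ≤ r → (r : ℝ) ≤ y →
  y / 10 ≤ ∑ n ∈ (Ioc ⌊11 / 10 * y⌋₊ ⌊13 / 10 * y⌋₊).filter (fun n => n.Coprime r), Λ n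

/-! ### Upper bounds -/

/-- TAI. Abel summation. `S(m) = ∑_{k<m} a k`, `f(x) = (log x)^j x^(-s)`; the sum over
`X ≤ n < m` is `S(m) f(m) - S(X) f(X) - ∑_{X ≤ n < m} S(n+1) (f(n+1) - f(n))`, `|f(X)| ≤
(log X)^j / X`, `|f(n+1) - f(n)| ≤ sup |f'| ≤ (|s| + 9) (log (n+1))^j / n^2` on `[n, n+1]`
(`1 ≤ log x` there, `|x^(-s-1)| ≤ x^(-2)`), and `(log (n+1))^j ≤ C (log X)^j (n/X)^(1/2)` because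
`log (n+1) ≤ (log X) (1 + log ((n+1)/X))`; `∑_{n ≥ X} n^(-3/2) ≤ C X^(-1/2)`. -/
def S_TAI : Prop := ∃ C : ℝ, 1 ≤ C ∧ ∀ (a : ℕ → ℂ) (K : ℝ),
  (∀ n : ℕ, ‖∑ k ∈ range n, a k‖ ≤ K) →
  ∀ (j : ℕ) (s : ℂ) (X : ℕ), j ≤ 9 → 1 < s.re → s.re ≤ 2 → 3 ≤ X →
  Summable (fun n : ℕ => a (n + X) * ((Real.log ((n + X : ℕ) : ℝ) : ℝ) : ℂ) ^ j *
    ((n + X : ℕ) : ℂ) ^ (-s)) →
  ‖∑' n : ℕ, a (n + X) * ((Real.log ((n + X : ℕ) : ℝ) : ℝ) : ℂ) ^ j * ((n + X : ℕ) : ℂ) ^ (-s)‖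
    ≤ C * K * (|s.im| + 1) * Real.log X ^ j / X

/-- UPC (uses TAI). `X = ⌈r (|t| + 3)⌉`; the terms `n < X` give at most `(log X)^j (1 + log X)`,
and the sums of `χ` over initial intervals are at most `r` (`∑` over a period is `0`: Mathlib
`MulChar.sum_eq_zero_of_ne_one`), so the tail is `≤ C (log X)^j`; `log X ≤ 2 ell`. -/
def S_UPC : Prop := ∃ C : ℝ, 1 ≤ C ∧ ∀ (r : ℕ), 1 ≤ r → ∀ χ : DirichletCharacter ℂ r, χ ≠ 1 →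
  ∀ (j : ℕ) (s : ℂ), j ≤ 9 → 1 < s.re → s.re ≤ 2 → ‖AJ χ j s‖ ≤ (C * ell r s.im) ^ (j + 1)

/-- UPP (uses TAI with `j = 0`). `X = ⌈r (|t| + 3)⌉`; the terms `n < X` give `≤ 1 + log X`;
`a n = 1_{(n,r)=1} - φ(r)/r` has initial sums `≤ 2 r`; and `|∑_{n ≥ X} n^(-s)| ≤ 1/|s-1| +
C |s| / X` (compare with the integral: `|n^(-s) - ∫_n^(n+1) x^(-s)| ≤ |s| / n^2`). -/
def S_UPP : Prop := ∃ C : ℝ, 1 ≤ C ∧ ∀ (r : ℕ), 1 ≤ r → ∀ s : ℂ, 1 < s.re → s.re ≤ 2 →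
  s.im ≠ 0 → ‖AJ (1 : DirichletCharacter ℂ r) 0 s‖ ≤ C * (ell r s.im + 1 / |s.im|)

/-- ZUP. `|∑ χ_0(n) n^(-1-x)| ≤ ∑ n^(-1-x) ≤ 1 + 1/x ≤ 2/x`. -/
def S_ZUP : Prop := ∀ (r : ℕ) (x : ℝ), 1 ≤ r → 0 < x → x ≤ 1 →
  ‖AJ (1 : DirichletCharacter ℂ r) 0 ((1 + x : ℝ) : ℂ)‖ ≤ 2 / x

/-- UNI. `M = C log (R T)` with a large constant: `ell r t ≤ log (R^2 (2T+3)) ≤ 3 log (R T)`. -/
def S_UNI : Prop := S_UPC → S_UPP → ∃ C : ℝ, 1 ≤ C ∧ ∀ R T : ℝ, 3 ≤ R → 3 ≤ T →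
  UB R T (C * Real.log (R * T))

/-! ### The logarithmic derivative -/

/-- LEI. `(χΛ) ⍟ χ = χ log` (`DirichletCharacter.convolution_twist_vonMangoldt`), and
`(log n)^k = (log a + log b)^k` for `n = a b`: so
`(χ Λ log^(k-j)) ⍟ (χ log^j)`, summed with `k.choose j`, is `χ log^(k+1)`; `LSeries_convolution'`. -/
def S_LEI : Prop := ∀ (r : ℕ) (χ : DirichletCharacter ℂ r) (k : ℕ) (s : ℂ), 1 < s.re →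
  ∑ j ∈ range (k + 1), (k.choose j : ℂ) * AJ χ j s * FK χ (k - j) s = AJ χ (k + 1) s

/-- IND (uses LEI). Induction on `k ≤ 8`: `‖FK χ k s‖ ≤ D_k (M^2/lam)^(k+1)`, since
`A_0 F_k = A_(k+1) - ∑_{j ≥ 1} C(k,j) A_j F_(k-j)`,
`M^(k+2)/lam ≤ (M^2/lam)^(k+1)` and `M^(j+1) (M^2/lam)^(k-j+1)/lam ≤ (M^2/lam)^(k+1)`, `j ≥ 1`. -/
def S_IND : Prop := S_LEI → ∃ D : ℝ, 1 ≤ D ∧ ∀ (r : ℕ) (χ : DirichletCharacter ℂ r) (s : ℂ)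
  (M lam : ℝ), 1 < s.re → 1 ≤ M → 0 < lam → lam ≤ 1 → (∀ j ≤ 9, ‖AJ χ j s‖ ≤ M ^ (j + 1)) →
  lam ≤ ‖AJ χ 0 s‖ → ‖FK χ 8 s‖ ≤ D * (M ^ 2 / lam) ^ 9

/-- DIF. `d/ds AJ χ 0 = - AJ χ 1` for `Re s > 1` (`LSeries_hasDerivAt`, `LSeries.logMul`), and the
mean value inequality on the segment (`Convex.norm_image_sub_le_of_norm_hasDerivWithin_le`). -/
def S_DIF : Prop := ∀ (r : ℕ) (χ : DirichletCharacter ℂ r) (s₁ s₂ : ℂ) (B : ℝ),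
  1 < s₁.re → 1 < s₂.re → (∀ z ∈ segment ℝ s₁ s₂, ‖AJ χ 1 z‖ ≤ B) →
  ‖AJ χ 0 s₁ - AJ χ 0 s₂‖ ≤ B * ‖s₁ - s₂‖

/-- LBA (3-4-1). With `DirichletCharacter.norm_LSeries_product_ge_one` and ZUP, for `0 < x ≤ 1`:
`1 ≤ (2/x)^3 |A_0(1+x+it)|^4 M`. Let `x₀ = 1/(128 M^9)`. If `u ≥ 1 + x₀`:
`|A_0(u+it)|^4 ≥ x₀^3/(8M) ≥ 16 x₀^4 M^8`, so `|A_0| ≥ 2 x₀ M^2`. If `u < 1 + x₀` then by DIF
`|A_0(u+it)| ≥ |A_0(1+x₀+it)| - x₀ M^2 ≥ x₀ M^2 = 1/(128 M^7)`. -/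
def S_LBA : Prop := S_ZUP → S_DIF → ∀ (r : ℕ) (χ : DirichletCharacter ℂ r) (M t : ℝ), 1 ≤ r →
  2 ≤ M →
  (∀ u : ℝ, 1 < u → u ≤ 2 → ‖AJ χ 1 ((u : ℂ) + (t : ℂ) * Complex.I)‖ ≤ M ^ 2) →
  (∀ u : ℝ, 1 < u → u ≤ 2 →
    ‖AJ (χ ^ 2) 0 ((u : ℂ) + ((2 * t : ℝ) : ℂ) * Complex.I)‖ ≤ M) →
  ∀ u : ℝ, 1 < u → u ≤ 2 →
    1 / (2 ^ 7 * M ^ 7) ≤ ‖AJ χ 0 ((u : ℂ) + (t : ℂ) * Complex.I)‖

/-- REP. Euler products (`DirichletCharacter.LSeries_eulerProduct_hasProd`); with `x = p^(-σ)`,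
`a = χ₁(p)`, `b = χ₂(p)` in `{0, 1, -1}` the factor is
`1/((1-x)(1-ax)(1-bx)(1-abx)) ≥ 1` in each of the nine cases. The product character at `p` is
`χ₁(p) χ₂(p)` (also when `p` divides `r₁ r₂`: both sides are `0`). -/
def S_REP : Prop := ∀ (r₁ r₂ : ℕ) (χ₁ : DirichletCharacter ℂ r₁) (χ₂ : DirichletCharacter ℂ r₂)
  (σ : ℝ), 1 ≤ r₁ → 1 ≤ r₂ → χ₁ ^ 2 = 1 → χ₂ ^ 2 = 1 → 1 < σ →
  1 ≤ ‖AJ (1 : DirichletCharacter ℂ 1) 0 (σ : ℂ)‖ * ‖AJ χ₁ 0 (σ : ℂ)‖ * ‖AJ χ₂ 0 (σ : ℂ)‖ *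
    ‖AJ (DirichletCharacter.changeLevel (Dvd.intro r₂ rfl : r₁ ∣ r₁ * r₂) χ₁ *
      DirichletCharacter.changeLevel (Dvd.intro_left r₁ rfl : r₂ ∣ r₁ * r₂) χ₂) 0 (σ : ℂ)‖

/-- EXC. Call a real `χ ≠ 1` to a modulus `r ≤ R` bad if `|A_0(σ₁)| < η = 1/(16 M^3)`. Let
`κ = 1/(16 M^5) = η/M^2`, `σ₂ = 1 + κ ≥ σ₁`. For two bad characters, by DIF,
`|A_0(χ_i, σ₂)| < η + κ M^2 = 2η`, `ζ(σ₂) ≤ 2/κ` (ZUP), and if the product character is not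
principal `|A_0(χ₁χ₂, σ₂)| ≤ M`: the product is `< (2/κ) 4 η^2 M = 8 η M^3 = 1/2`, against REP. So
the product is principal, the two characters have the same lift to the modulus `r₁ r₂`
(`χ₂^2 = 1`), hence the same conductor (`DirichletCharacter.conductor_changeLevel`). Take `d` =
the conductor of a bad character (`d ≠ 1` by `eq_one_iff_conductor_eq_one`, `d ∣ r`), or `d = 2`
if there is none. -/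
def S_EXC : Prop := S_ZUP → S_DIF → S_REP → ∀ R T M σ₁ : ℝ, UB R T M → 1 ≤ T → 1 < σ₁ →
  σ₁ ≤ 1 + 1 / (16 * M ^ 5) →
  ∃ d : ℕ, 2 ≤ d ∧ ∀ r : ℕ, 1 ≤ r → (r : ℝ) ≤ R → ¬ d ∣ r → NoBad M σ₁ r

/-- GOO. (i) `χ^2 ≠ 1`: LBA with `M`. (ii) `χ^2 = 1`, `|t| ≥ 1/(32 M^5)`: LBA with `M^11` in
place of `M`: `M (1 + 1/|2t|) ≤ M (1 + 16 M^5) ≤ 17 M^6 ≤ M^11`. (iii) `χ^2 = 1`,
`|t| < 1/(32 M^5)`: by DIF `|A_0(σ₁+it)| ≥ 1/(16M^3) - |t| M^2 ≥ 1/(32 M^3)`. -/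
def S_GOO : Prop := S_ZUP → S_DIF → S_LBA → ∀ (R T M σ₁ : ℝ) (r : ℕ), UB R T M → 1 ≤ T →
  1 < σ₁ → σ₁ ≤ 2 → 1 ≤ r → (r : ℝ) ≤ R → NoBad M σ₁ r →
  ∀ χ : DirichletCharacter ℂ r, χ ≠ 1 → ∀ t : ℝ, |t| ≤ T →
    1 / (2 ^ 7 * M ^ 77) ≤ ‖AJ χ 0 ((σ₁ : ℂ) + (t : ℂ) * Complex.I)‖

/-- CHB. EXC, GOO and IND with `lam = 1/(2^7 M^77)`. -/
def S_CHB : Prop := S_ZUP → S_DIF → S_REP → S_EXC → S_LBA → S_GOO → S_LEI → S_IND →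
  ∃ D : ℝ, 1 ≤ D ∧ ∀ R T M σ₁ : ℝ, UB R T M → 1 ≤ T → 1 < σ₁ → σ₁ ≤ 1 + 1 / (16 * M ^ 5) →
  ∃ d : ℕ, 2 ≤ d ∧ ∀ r : ℕ, 1 ≤ r → (r : ℝ) ≤ R → ¬ d ∣ r →
    ∀ χ : DirichletCharacter ℂ r, χ ≠ 1 → ∀ t : ℝ, |t| ≤ T →
      ‖FK χ 8 ((σ₁ : ℂ) + (t : ℂ) * Complex.I)‖ ≤ D * M ^ 711

/-! ### Primes in progressions -/

/-- SMO. `∑_χ χ(a)⁻¹ χ(n) = φ(r) 1_{n = a}` (`DirichletCharacter.sum_char_inv_mul_char_eq`), the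
principal character gives `1_{(n,r)=1}`; for the others KERB with `w n = χ(n) wt σ n`:
`∑ w n e^(i t log n) = FK χ 8 (σ - i t)`. The number of characters is `φ(r)`
(`DirichletCharacter.card_eq_totient_of_hasEnoughRootsOfUnity`). -/
def S_SMO : Prop := S_MOM → S_KERF → S_KERB → ∀ (r : ℕ) (a : ZMod r) (σ T v B : ℝ), 1 ≤ r →
  IsUnit a → 1 < σ → 0 ≤ T → 0 ≤ B →
  (∀ χ : DirichletCharacter ℂ r, χ ≠ 1 → ∀ t : ℝ, |t| ≤ T →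
    ‖FK χ 8 ((σ : ℂ) + (t : ℂ) * Complex.I)‖ ≤ B) →
  |∑' n : ℕ, wt σ n * Kf (T * Real.log n - v) *
    ((r.totient : ℝ) * (if (n : ZMod r) = a then 1 else 0) - (if n.Coprime r then 1 else 0))|
    ≤ r.totient * B

/-- APA. Sum SMO over the shifts in `Psi T y (log n)` (at most `T/5 + 1` of them), `σ = 1 + 1/L`,
and use GRD: the terms with `n ≡ a` and `y < n ≤ 3/2 y` are at most
`50 Λ(n) (3L)^8 / y`, those outside at most `wt · 2000/T`; the terms coprime to `r` are `≥ 0`, and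
for `11/10 y < n ≤ 13/10 y` at least `(1/2) Λ(n) L^8 (13/10 y)⁻¹ e^(-3)`
(`n^(-1/L) ≥ exp (-(2L + 1)/L) ≥ e^(-3)`). -/
def S_APA : Prop := S_MOM → S_KERF → S_KERB → S_GRD → S_SMO →
  ∀ (r : ℕ) (a : ZMod r) (L T B y : ℝ), 1 ≤ r → IsUnit a → 1 ≤ L → 5 ≤ T → 0 ≤ B →
  Real.exp L ≤ y → y ≤ Real.exp (2 * L) →
  (∀ χ : DirichletCharacter ℂ r, χ ≠ 1 → ∀ t : ℝ, |t| ≤ T →
    ‖FK χ 8 (((1 + 1 / L : ℝ) : ℂ) + (t : ℂ) * Complex.I)‖ ≤ B) →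
  1 / 2 * L ^ 8 * (13 / 10 * y)⁻¹ * Real.exp (-3) *
      ∑ n ∈ (Ioc ⌊11 / 10 * y⌋₊ ⌊13 / 10 * y⌋₊).filter (fun n => n.Coprime r), Λ n
    ≤ 50 * r.totient * (3 * L) ^ 8 * y⁻¹ *
        ∑ n ∈ (Ioc ⌊y⌋₊ ⌊3 / 2 * y⌋₊).filter (fun n : ℕ => (n : ZMod r) = a), Λ n
      + r.totient * (2000 / T) * ∑' n, wt (1 + 1 / L) n
      + r.totient * B * (T / 5 + 1)

/-- The conclusion of part I: primes in the classes to moduli up to `(log N)^2`, for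
`N ≤ y ≤ N^2`, apart from the multiples of one modulus `d = d(N) ≥ 2`. -/
def AP : Prop := ∃ c : ℝ, 0 < c ∧ ∃ N₀ : ℝ, ∀ N : ℝ, N₀ ≤ N → ∃ d : ℕ, 2 ≤ d ∧
  ∀ r : ℕ, 1 ≤ r → (r : ℝ) ≤ Real.log N ^ 2 → ¬ d ∣ r → ∀ a : ZMod r, IsUnit a →
  ∀ y : ℝ, N ≤ y → y ≤ N ^ 2 →
    c * y / r.totient ≤
      ∑ p ∈ (Ioc ⌊y⌋₊ ⌊3 / 2 * y⌋₊).filter (fun p : ℕ => p.Prime ∧ (p : ZMod r) = a), Real.log p

/-- APB. `L = log N`, `R = L^2`, `T = L^5`, `σ₁ = 1 + 1/L`, `M = C log (R T) = 7 C log L` (UNI),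
`B = D M^711` (CHB): for large `N` the last two terms of APA are at most a quarter of the left side
(`≥ c L^8` by WLO), as `φ(r) ≤ L^2`: they are `O(L^(2-5+10))` and `O(L^(2+5) (log L)^711)`. Then
`∑ Λ(n) ≥ c' y/φ(r)`, and the prime powers contribute at most
`ψ(3/2 y) - θ(3/2 y) ≤ 2 √(3/2 y) log (3/2 y)` (`Chebyshev.abs_psi_sub_theta_le_sqrt_mul_log`). -/
def S_APB : Prop := S_MOM → S_WLO → S_APA →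
  (∃ C : ℝ, 1 ≤ C ∧ ∀ R T : ℝ, 3 ≤ R → 3 ≤ T → UB R T (C * Real.log (R * T))) →
  (∃ D : ℝ, 1 ≤ D ∧ ∀ R T M σ₁ : ℝ, UB R T M → 1 ≤ T → 1 < σ₁ → σ₁ ≤ 1 + 1 / (16 * M ^ 5) →
    ∃ d : ℕ, 2 ≤ d ∧ ∀ r : ℕ, 1 ≤ r → (r : ℝ) ≤ R → ¬ d ∣ r →
    ∀ χ : DirichletCharacter ℂ r, χ ≠ 1 → ∀ t : ℝ, |t| ≤ T →
      ‖FK χ 8 ((σ₁ : ℂ) + (t : ℂ) * Complex.I)‖ ≤ D * M ^ 711) →
  (∀ (r : ℕ) (a : ZMod r) (L T B y : ℝ), 1 ≤ r → IsUnit a → 1 ≤ L → 5 ≤ T → 0 ≤ B →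
    Real.exp L ≤ y → y ≤ Real.exp (2 * L) →
    (∀ χ : DirichletCharacter ℂ r, χ ≠ 1 → ∀ t : ℝ, |t| ≤ T →
      ‖FK χ 8 (((1 + 1 / L : ℝ) : ℂ) + (t : ℂ) * Complex.I)‖ ≤ B) →
    1 / 2 * L ^ 8 * (13 / 10 * y)⁻¹ * Real.exp (-3) *
        ∑ n ∈ (Ioc ⌊11 / 10 * y⌋₊ ⌊13 / 10 * y⌋₊).filter (fun n => n.Coprime r), Λ n
      ≤ 50 * r.totient * (3 * L) ^ 8 * y⁻¹ *
          ∑ n ∈ (Ioc ⌊y⌋₊ ⌊3 / 2 * y⌋₊).filter (fun n : ℕ => (n : ZMod r) = a), Λ n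
        + r.totient * (2000 / T) * ∑' n, wt (1 + 1 / L) n
        + r.totient * B * (T / 5 + 1)) → AP

end Pool.Agent.FCT
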