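import Mathlib
import Pool.Agent.FCT.St1

set_option autoImplicit false

/-! FCT, module SMO: the smoothed sum over a class, by characters. -/

namespace Pool.Agent.FCT

open Finset
open scoped ArithmeticFunction.vonMangoldt

lemma smo_wt_nonneg (σ : ℝ) (n : ℕ) : 0 ≤ wt σ n := by
  unfold wt
  have h1 : 0 ≤ Λ n := ArithmeticFunction.vonMangoldt_nonneg
  have h2 : 0 ≤ Real.log n ^ 8 := Even.pow_nonneg (by decide) _
  have h3 : 0 ≤ (n : ℝ) ^ (-σ) := Real.rpow_nonneg (Nat.cast_nonneg _) _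
  exact mul_nonneg (mul_nonneg h1 h2) h3

lemma smo_term {r : ℕ} (χ : DirichletCharacter ℂ r) (σ t : ℝ) (n : ℕ) :
    LSeries.term (fun n => χ n * ((Λ n : ℝ) : ℂ) * ((Real.log n : ℝ) : ℂ) ^ 8)
      ((σ : ℂ) + (t : ℂ) * Complex.I) n =
      χ n * ((wt σ n : ℝ) : ℂ) * Complex.exp (((-t * Real.log n : ℝ) : ℂ) * Complex.I) := by
  rcases Nat.eq_zero_or_pos n with rfl | hn
  · simp [wt]
  have hn' : (n : ℂ) ≠ 0 := by exact_mod_cast hn.ne'
  have hn'' : (0 : ℝ) < n := by exact_mod_cast hn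
  rw [LSeries.term_of_ne_zero hn.ne', Complex.cpow_def_of_ne_zero hn', wt,
    Real.rpow_def_of_pos hn'', ← Complex.natCast_log]
  have e : Complex.exp (((Real.log n : ℝ) : ℂ) * ((σ : ℂ) + (t : ℂ) * Complex.I)) =
      Complex.exp (((Real.log n : ℝ) : ℂ) * (σ : ℂ)) *
        Complex.exp (((Real.log n : ℝ) : ℂ) * ((t : ℂ) * Complex.I)) := by
    rw [← Complex.exp_add]; congr 1; ring
  rw [e, div_eq_mul_inv, mul_inv, ← Complex.exp_neg, ← Complex.exp_neg]
  push_cast
  have e1 : -(Complex.log (n : ℂ) * (σ : ℂ)) = Complex.log (n : ℂ) * -(σ : ℂ) := by ring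
  have e2 : -(Complex.log (n : ℂ) * ((t : ℂ) * Complex.I)) =
      -(t : ℂ) * Complex.log (n : ℂ) * Complex.I := by ring
  rw [e1, e2]
  ring

lemma smo_FK {r : ℕ} (χ : DirichletCharacter ℂ r) (σ t : ℝ) :
    ∑' n : ℕ, (χ n * ((wt σ n : ℝ) : ℂ)) *
      Complex.exp (((t * Real.log n : ℝ) : ℂ) * Complex.I) =
    FK χ 8 ((σ : ℂ) + ((-t : ℝ) : ℂ) * Complex.I) := by
  rw [FK, LSeries]
  refine tsum_congr fun n => ?_
  rw [smo_term, neg_neg]

theorem t_SMO : S_SMO := by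
  intro hM hF hB r a σ T v B hr ha hσ hT hB0 h
  classical
  have : NeZero r := ⟨by omega⟩
  have hsum : Summable (wt σ) := hM.1 σ hσ
  -- summability of the twisted weights
  have hw : ∀ χ : DirichletCharacter ℂ r,
      Summable (fun n : ℕ => ‖χ n * ((wt σ n : ℝ) : ℂ)‖) := by
    intro χ
    refine hsum.of_nonneg_of_le (fun _ => norm_nonneg _) fun n => ?_
    rw [norm_mul, Complex.norm_real, Real.norm_of_nonneg (smo_wt_nonneg σ n)]
    exact mul_le_of_le_one_left (smo_wt_nonneg σ n) (DirichletCharacter.norm_le_one χ _)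
  have hK : ∀ x : ℝ, |Kf x| ≤ 8 := by
    intro x
    rw [abs_of_nonneg (hF x).1]
    refine (hF x).2.1.trans ?_
    rw [div_le_iff₀ (by positivity)]
    nlinarith [sq_nonneg x]
  have hwK : ∀ χ : DirichletCharacter ℂ r,
      Summable (fun n : ℕ => χ n * ((wt σ n : ℝ) : ℂ) *
        ((Kf (T * Real.log n - v) : ℝ) : ℂ)) := by
    intro χ
    refine Summable.of_norm_bounded ((hw χ).mul_right 8) fun n => ?_
    rw [norm_mul, Complex.norm_real, Real.norm_eq_abs]
    exact mul_le_mul_of_nonneg_left (hK _) (norm_nonneg _)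
  have hb : ∀ χ : DirichletCharacter ℂ r, χ ≠ 1 →
      ‖∑' n : ℕ, χ n * ((wt σ n : ℝ) : ℂ) * ((Kf (T * Real.log n - v) : ℝ) : ℂ)‖ ≤ B := by
    intro χ hχ
    refine hB (fun n => χ n * ((wt σ n : ℝ) : ℂ)) T v B hT (hw χ) fun t ht => ?_
    rw [smo_FK]
    exact h χ hχ (-t) (by rwa [abs_neg])
  -- the expansion
  have hexp : ∀ n : ℕ,
      ((((r.totient : ℝ) * (if (n : ZMod r) = a then 1 else 0) -
        (if n.Coprime r then 1 else 0) : ℝ)) : ℂ) =
      ∑ χ ∈ (Finset.univ : Finset (DirichletCharacter ℂ r)).erase 1, χ a⁻¹ * χ n := by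
    intro n
    have h1 := DirichletCharacter.sum_char_inv_mul_char_eq ℂ ha (n : ZMod r)
    rw [← Finset.add_sum_erase _ _ (Finset.mem_univ (1 : DirichletCharacter ℂ r))] at h1
    have h2 : (1 : DirichletCharacter ℂ r) a⁻¹ = 1 := by
      have hu : IsUnit a⁻¹ :=
        ⟨⟨a⁻¹, a, ZMod.inv_mul_of_unit a ha, ZMod.mul_inv_of_unit a ha⟩, rfl⟩
      exact MulChar.one_apply hu
    have h3 : (1 : DirichletCharacter ℂ r) (n : ZMod r) = if n.Coprime r then 1 else 0 := by
      split_ifs with hc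
      · exact MulChar.one_apply ((ZMod.isUnit_iff_coprime n r).2 hc)
      · exact MulChar.map_nonunit _ (fun hu => hc ((ZMod.isUnit_iff_coprime n r).1 hu))
    rw [h2, h3, one_mul] at h1
    have h4 : ∑ χ ∈ (Finset.univ : Finset (DirichletCharacter ℂ r)).erase 1, χ a⁻¹ * χ n =
        (if a = (n : ZMod r) then (r.totient : ℂ) else 0) - (if n.Coprime r then 1 else 0) := by
      rw [← h1]; ring
    rw [h4]
    have hna : (a = (n : ZMod r)) ↔ ((n : ZMod r) = a) := eq_comm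
    simp only [hna]
    split_ifs <;> simp
  have key : ((∑' n : ℕ, wt σ n * Kf (T * Real.log n - v) *
      ((r.totient : ℝ) * (if (n : ZMod r) = a then 1 else 0) -
        (if n.Coprime r then 1 else 0)) : ℝ) : ℂ) =
      ∑ χ ∈ (Finset.univ : Finset (DirichletCharacter ℂ r)).erase 1, χ a⁻¹ *
        ∑' n : ℕ, χ n * ((wt σ n : ℝ) : ℂ) * ((Kf (T * Real.log n - v) : ℝ) : ℂ) := by
    rw [Complex.ofReal_tsum]
    rw [show (∑ χ ∈ (Finset.univ : Finset (DirichletCharacter ℂ r)).erase 1, χ a⁻¹ *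
        ∑' n : ℕ, χ n * ((wt σ n : ℝ) : ℂ) * ((Kf (T * Real.log n - v) : ℝ) : ℂ)) =
        ∑ χ ∈ (Finset.univ : Finset (DirichletCharacter ℂ r)).erase 1, 
        ∑' n : ℕ, χ a⁻¹ * (χ n * ((wt σ n : ℝ) : ℂ) * ((Kf (T * Real.log n - v) : ℝ) : ℂ)) from
      Finset.sum_congr rfl fun χ _ => (tsum_mul_left).symm]
    rw [← Summable.tsum_finsetSum fun χ _ => (hwK χ).mul_left _]
    refine tsum_congr fun n => ?_
    rw [Complex.ofReal_mul, hexp n, Finset.mul_sum]
    refine Finset.sum_congr rfl fun χ _ => ?_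
    push_cast
    ring
  rw [← Real.norm_eq_abs, ← Complex.norm_real, key]
  refine (norm_sum_le _ _).trans ?_
  have hle : ∀ χ ∈ (Finset.univ : Finset (DirichletCharacter ℂ r)).erase 1,
      ‖χ a⁻¹ * ∑' n : ℕ, χ n * ((wt σ n : ℝ) : ℂ) *
        ((Kf (T * Real.log n - v) : ℝ) : ℂ)‖ ≤ B := by
    intro χ hχ
    rw [norm_mul]
    refine le_trans (mul_le_of_le_one_left (norm_nonneg _)
      (DirichletCharacter.norm_le_one χ _)) (hb χ (Finset.ne_of_mem_erase hχ))
  refine (Finset.sum_le_card_nsmul _ _ _ hle).trans ?_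
  rw [nsmul_eq_mul]
  refine mul_le_mul_of_nonneg_right ?_ hB0
  have hc : (Finset.univ : Finset (DirichletCharacter ℂ r)).card = r.totient := by
    rw [Finset.card_univ, ← Nat.card_eq_fintype_card]
    exact DirichletCharacter.card_eq_totient_of_hasEnoughRootsOfUnity ℂ r
  rw [← hc]
  exact_mod_cast Finset.card_le_card (Finset.erase_subset _ _)

end Pool.Agent.FCT
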