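import Pool.Agent.FCT.St1

set_option autoImplicit false

/-!
# FCT, module TAI: Abel summation (helper82)
-/

namespace Pool.Agent.FCT

open Finset

namespace TAIx

noncomputable section

/-- the weight (log x)^j x^(-s) -/
def F (j : ℕ) (s : ℂ) (x : ℝ) : ℂ := ((Real.log x : ℝ) : ℂ) ^ j * Complex.exp (-(s * ((Real.log x : ℝ) : ℂ)))

lemma F_eq (j : ℕ) (s : ℂ) (x : ℝ) (hx : 0 < x) :
    F j s x = ((Real.log x : ℝ) : ℂ) ^ j * (x : ℂ) ^ (-s) := by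
  unfold F
  rw [Complex.cpow_def_of_ne_zero (by exact_mod_cast hx.ne'), Complex.ofReal_log hx.le]
  congr 2
  ring

/-- the derivative of `F` -/
def F' (j : ℕ) (s : ℂ) (x : ℝ) : ℂ :=
  ((j : ℂ) * ((Real.log x : ℝ) : ℂ) ^ (j - 1) - s * ((Real.log x : ℝ) : ℂ) ^ j) *
    (((x⁻¹ : ℝ) : ℂ) * Complex.exp (-(s * ((Real.log x : ℝ) : ℂ))))

lemma F_deriv (j : ℕ) (s : ℂ) (x : ℝ) (hx : 0 < x) : HasDerivAt (F j s) (F' j s x) x := by
  have h1 : HasDerivAt (fun y : ℝ => ((Real.log y : ℝ) : ℂ)) ((x⁻¹ : ℝ) : ℂ) x :=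
    (Real.hasDerivAt_log hx.ne').ofReal_comp
  have h2 := h1.pow j
  have h3 : HasDerivAt (fun y : ℝ => Complex.exp (-(s * ((Real.log y : ℝ) : ℂ))))
      (Complex.exp (-(s * ((Real.log x : ℝ) : ℂ))) * (-(s * ((x⁻¹ : ℝ) : ℂ)))) x :=
    ((h1.const_mul s).neg).cexp
  have h4 := h2.mul h3
  have h5 : F' j s x = (j : ℂ) * ((Real.log x : ℝ) : ℂ) ^ (j - 1) * ((x⁻¹ : ℝ) : ℂ) *
      Complex.exp (-(s * ((Real.log x : ℝ) : ℂ))) + ((Real.log x : ℝ) : ℂ) ^ j *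
      (Complex.exp (-(s * ((Real.log x : ℝ) : ℂ))) * (-(s * ((x⁻¹ : ℝ) : ℂ)))) := by
    unfold F'
    ring
  rw [h5]
  exact h4

lemma log_ge_one {x : ℝ} (hx : 3 ≤ x) : 1 ≤ Real.log x := by
  rw [Real.le_log_iff_exp_le (by linarith)]
  have := Real.exp_one_lt_d9
  linarith

lemma norm_exp_le (s : ℂ) (hs : 1 < s.re) {x : ℝ} (hx : 3 ≤ x) :
    ‖Complex.exp (-(s * ((Real.log x : ℝ) : ℂ)))‖ ≤ x⁻¹ := by
  have hl := log_ge_one hx
  rw [Complex.norm_exp]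
  have h1 : (-(s * ((Real.log x : ℝ) : ℂ))).re = -(s.re * Real.log x) := by
    simp
  rw [h1]
  have h2 : x⁻¹ = Real.exp (-Real.log x) := by
    rw [Real.exp_neg, Real.exp_log (by linarith)]
  rw [h2]
  apply Real.exp_le_exp.mpr
  nlinarith

lemma norm_F (j : ℕ) (s : ℂ) (hs : 1 < s.re) {x : ℝ} (hx : 3 ≤ x) :
    ‖F j s x‖ ≤ Real.log x ^ j * x⁻¹ := by
  have hl := log_ge_one hx
  unfold F
  rw [norm_mul, norm_pow, Complex.norm_real, Real.norm_of_nonneg (by linarith)]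
  exact mul_le_mul_of_nonneg_left (norm_exp_le s hs hx) (by positivity)

lemma norm_F' (j : ℕ) (hj : j ≤ 9) (s : ℂ) (hs : 1 < s.re) {x : ℝ} (hx : 3 ≤ x) :
    ‖F' j s x‖ ≤ (9 + ‖s‖) * Real.log x ^ j * (x⁻¹ * x⁻¹) := by
  have hl := log_ge_one hx
  unfold F'
  rw [norm_mul]
  have h1 : ‖(j : ℂ) * ((Real.log x : ℝ) : ℂ) ^ (j - 1) - s * ((Real.log x : ℝ) : ℂ) ^ j‖ ≤
      (9 + ‖s‖) * Real.log x ^ j := by
    refine (norm_sub_le _ _).trans ?_
    rw [norm_mul, norm_mul, norm_pow, norm_pow, Complex.norm_real, Real.norm_of_nonneg (by linarith),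
      Complex.norm_natCast]
    have h2 : Real.log x ^ (j - 1) ≤ Real.log x ^ j := pow_le_pow_right₀ hl (Nat.sub_le _ _)
    have h3 : (j : ℝ) ≤ 9 := by exact_mod_cast hj
    have h4 : (j : ℝ) * Real.log x ^ (j - 1) ≤ 9 * Real.log x ^ j :=
      mul_le_mul h3 h2 (by positivity) (by norm_num)
    linarith
  have h2 : ‖((x⁻¹ : ℝ) : ℂ) * Complex.exp (-(s * ((Real.log x : ℝ) : ℂ)))‖ ≤ x⁻¹ * x⁻¹ := by
    rw [norm_mul, Complex.norm_real, Real.norm_of_nonneg (by positivity)]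
    exact mul_le_mul_of_nonneg_left (norm_exp_le s hs hx) (by positivity)
  exact mul_le_mul h1 h2 (norm_nonneg _) (by positivity)

/-- (log x)^j ≤ 18^9 (log X)^j (x/X)^(1/2) -/
lemma log_pow_le (j : ℕ) (hj : j ≤ 9) {X x : ℝ} (hX : 3 ≤ X) (hx : X ≤ x) :
    Real.log x ^ j ≤ 18 ^ 9 * Real.log X ^ j * (x / X) ^ (1 / 2 : ℝ) := by
  have hX0 : 0 < X := by linarith
  have hx0 : 0 < x := by linarith
  have hl := log_ge_one hX
  have hu : 1 ≤ x / X := (one_le_div hX0).mpr hx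
  have hu0 : 0 < x / X := by linarith
  set v : ℝ := (x / X) ^ (1 / 18 : ℝ) with hv
  have hv0 : 0 < v := Real.rpow_pos_of_pos hu0 _
  have hv1 : 1 ≤ v := Real.one_le_rpow hu (by norm_num)
  have h1 : Real.log (x / X) = 18 * Real.log v := by
    rw [hv, Real.log_rpow hu0]
    ring
  have h2 : Real.log (x / X) ≤ 18 * v - 18 := by
    have := Real.log_le_sub_one_of_pos hv0
    linarith
  have h3 : Real.log x ≤ Real.log X * (18 * v) := by
    have h4 : Real.log x = Real.log X + Real.log (x / X) := by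
      rw [Real.log_div hx0.ne' hX0.ne']
      ring
    rw [h4]
    nlinarith
  have h5 : v ^ 9 = (x / X) ^ (1 / 2 : ℝ) := by
    rw [hv, ← Real.rpow_natCast, ← Real.rpow_mul hu0.le]
    norm_num
  have h0 : 0 ≤ Real.log x := by
    have := log_ge_one (hX.trans hx)
    linarith
  calc Real.log x ^ j ≤ (Real.log X * (18 * v)) ^ j := pow_le_pow_left₀ h0 h3 j
    _ = Real.log X ^ j * (18 * v) ^ j := by rw [mul_pow]
    _ ≤ Real.log X ^ j * (18 * v) ^ 9 := by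
        apply mul_le_mul_of_nonneg_left _ (by positivity)
        exact pow_le_pow_right₀ (by linarith) hj
    _ = 18 ^ 9 * Real.log X ^ j * (x / X) ^ (1 / 2 : ℝ) := by
        rw [mul_pow, h5]
        ring

/-- the constant in front of the difference bound -/
def A (j : ℕ) (s : ℂ) (X : ℝ) : ℝ := (9 + ‖s‖) * 18 ^ 9 * Real.log X ^ j * X ^ (-(1 / 2) : ℝ)

lemma A_nonneg (j : ℕ) (s : ℂ) {X : ℝ} (hX : 3 ≤ X) : 0 ≤ A j s X := by
  have := log_ge_one hX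
  unfold A
  positivity

lemma norm_F'_le (j : ℕ) (hj : j ≤ 9) (s : ℂ) (hs : 1 < s.re) {X x : ℝ} (hX : 3 ≤ X) (hx : X ≤ x) :
    ‖F' j s x‖ ≤ A j s X * x ^ (-(3 / 2) : ℝ) := by
  have hX0 : 0 < X := by linarith
  have hx0 : 0 < x := by linarith
  refine (norm_F' j hj s hs (hX.trans hx)).trans ?_
  have h1 := log_pow_le j hj hX hx
  have h2 : (x / X) ^ (1 / 2 : ℝ) * (x⁻¹ * x⁻¹) = X ^ (-(1 / 2) : ℝ) * x ^ (-(3 / 2) : ℝ) := by
    rw [Real.div_rpow hx0.le hX0.le, Real.rpow_neg hX0.le]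
    have h3 : x⁻¹ * x⁻¹ = x ^ (-2 : ℝ) := by
      rw [Real.rpow_neg hx0.le]
      norm_num
      field_simp
    have h4 : x ^ (-(3 / 2) : ℝ) = x ^ (1 / 2 : ℝ) * x ^ (-2 : ℝ) := by
      rw [← Real.rpow_add hx0]
      norm_num
    rw [h3, h4]
    field_simp
  calc (9 + ‖s‖) * Real.log x ^ j * (x⁻¹ * x⁻¹)
      ≤ (9 + ‖s‖) * (18 ^ 9 * Real.log X ^ j * (x / X) ^ (1 / 2 : ℝ)) * (x⁻¹ * x⁻¹) := by
        apply mul_le_mul_of_nonneg_right _ (by positivity)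
        exact mul_le_mul_of_nonneg_left h1 (by positivity)
    _ = (9 + ‖s‖) * 18 ^ 9 * Real.log X ^ j * ((x / X) ^ (1 / 2 : ℝ) * (x⁻¹ * x⁻¹)) := by ring
    _ = A j s X * x ^ (-(3 / 2) : ℝ) := by
        rw [h2]
        unfold A
        ring

lemma diff_le (j : ℕ) (hj : j ≤ 9) (s : ℂ) (hs : 1 < s.re) {X a b : ℝ} (hX : 3 ≤ X) (ha : X ≤ a)
    (hab : a ≤ b) :
    ‖F j s b - F j s a‖ ≤ 2 * A j s X * (a ^ (-(1 / 2) : ℝ) - b ^ (-(1 / 2) : ℝ)) := by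
  have h1 : ∀ x ∈ Set.Icc a b, HasDerivAt (fun x => F j s x - F j s a) (F' j s x) x := by
    intro x hx
    exact (F_deriv j s x (by linarith [hx.1])).sub_const _
  have h2 : ∀ x ∈ Set.Icc a b, HasDerivAt
      (fun x : ℝ => 2 * A j s X * (a ^ (-(1 / 2) : ℝ) - x ^ (-(1 / 2) : ℝ)))
      (A j s X * x ^ (-(3 / 2) : ℝ)) x := by
    intro x hx
    have hx0 : 0 < x := by linarith [hx.1]
    have h3 : HasDerivAt (fun x : ℝ => x ^ (-(1 / 2) : ℝ)) (-(1 / 2) * x ^ (-(1 / 2) - 1 : ℝ)) x :=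
      Real.hasDerivAt_rpow_const (Or.inl hx0.ne')
    have h4 := ((h3.const_sub (a ^ (-(1 / 2) : ℝ))).const_mul (2 * A j s X))
    have h5 : 2 * A j s X * -(-(1 / 2) * x ^ (-(1 / 2) - 1 : ℝ)) = A j s X * x ^ (-(3 / 2) : ℝ) := by
      have h6 : (-(1 / 2) - 1 : ℝ) = -(3 / 2) := by norm_num
      rw [h6]
      ring
    rw [← h5]
    exact h4
  have := image_norm_le_of_norm_deriv_right_le_deriv_boundary' (f := fun x => F j s x - F j s a)
    (f' := F' j s) (a := a) (b := b)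
    (fun x hx => (h1 x hx).continuousAt.continuousWithinAt)
    (fun x hx => (h1 x ⟨hx.1, hx.2.le⟩).hasDerivWithinAt)
    (B := fun x : ℝ => 2 * A j s X * (a ^ (-(1 / 2) : ℝ) - x ^ (-(1 / 2) : ℝ)))
    (B' := fun x : ℝ => A j s X * x ^ (-(3 / 2) : ℝ))
    (by simp)
    (fun x hx => (h2 x hx).continuousAt.continuousWithinAt)
    (fun x hx => (h2 x ⟨hx.1, hx.2.le⟩).hasDerivWithinAt)
    (fun x hx => norm_F'_le j hj s hs hX (ha.trans hx.1))
  exact this (x := b) ⟨hab, le_rfl⟩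

lemma sum_diff_le (j : ℕ) (hj : j ≤ 9) (s : ℂ) (hs : 1 < s.re) (X : ℕ) (hX : 3 ≤ X) (N : ℕ) :
    ∑ n ∈ range N, ‖F j s ((n + 1 + X : ℕ) : ℝ) - F j s ((n + X : ℕ) : ℝ)‖ ≤
      2 * A j s X * ((X : ℝ) ^ (-(1 / 2) : ℝ) - ((N + X : ℕ) : ℝ) ^ (-(1 / 2) : ℝ)) := by
  have hX' : (3 : ℝ) ≤ X := by exact_mod_cast hX
  induction N with
  | zero => simp
  | succ N ih =>
    rw [sum_range_succ]
    have h1 := diff_le j hj s hs (X := X) (a := ((N + X : ℕ) : ℝ)) (b := ((N + 1 + X : ℕ) : ℝ)) hX'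
      (by push_cast; linarith [(Nat.cast_nonneg N : (0 : ℝ) ≤ N)]) (by push_cast; linarith)
    linarith

lemma sum_diff_le' (j : ℕ) (hj : j ≤ 9) (s : ℂ) (hs : 1 < s.re) (X : ℕ) (hX : 3 ≤ X) (N : ℕ) :
    ∑ n ∈ range N, ‖F j s ((n + 1 + X : ℕ) : ℝ) - F j s ((n + X : ℕ) : ℝ)‖ ≤
      2 * (9 + ‖s‖) * 18 ^ 9 * Real.log X ^ j / X := by
  have hX' : (3 : ℝ) ≤ X := by exact_mod_cast hX
  have hX0 : (0 : ℝ) < X := by linarith
  have h0 := A_nonneg j s hX'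
  refine (sum_diff_le j hj s hs X hX N).trans ?_
  have h1 : (0 : ℝ) ≤ ((N + X : ℕ) : ℝ) ^ (-(1 / 2) : ℝ) := by positivity
  have h2 : 2 * A j s X * ((X : ℝ) ^ (-(1 / 2) : ℝ) - ((N + X : ℕ) : ℝ) ^ (-(1 / 2) : ℝ)) ≤
      2 * A j s X * (X : ℝ) ^ (-(1 / 2) : ℝ) := by
    apply mul_le_mul_of_nonneg_left _ (by positivity)
    linarith
  refine h2.trans (le_of_eq ?_)
  have h3 : (X : ℝ) ^ (-(1 / 2) : ℝ) * (X : ℝ) ^ (-(1 / 2) : ℝ) = (X : ℝ)⁻¹ := by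
    rw [← Real.rpow_add hX0]
    norm_num
    rw [Real.rpow_neg_one]
  unfold A
  calc 2 * ((9 + ‖s‖) * 18 ^ 9 * Real.log X ^ j * (X : ℝ) ^ (-(1 / 2) : ℝ)) * (X : ℝ) ^ (-(1 / 2) : ℝ)
      = 2 * (9 + ‖s‖) * 18 ^ 9 * Real.log X ^ j * ((X : ℝ) ^ (-(1 / 2) : ℝ) * (X : ℝ) ^ (-(1 / 2) : ℝ)) := by
        ring
    _ = _ := by rw [h3, div_eq_mul_inv]

lemma abel (a : ℕ → ℂ) (f : ℕ → ℂ) (X N : ℕ) :
    ∑ n ∈ range N, a (n + X) * f (n + X) =
      (∑ k ∈ range (N + X), a k) * f (N + X) - (∑ k ∈ range X, a k) * f X -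
        ∑ n ∈ range N, (∑ k ∈ range (n + 1 + X), a k) * (f (n + 1 + X) - f (n + X)) := by
  induction N with
  | zero => simp
  | succ N ih =>
    rw [sum_range_succ, sum_range_succ, ih]
    have h1 : ∑ k ∈ range (N + 1 + X), a k = ∑ k ∈ range (N + X), a k + a (N + X) := by
      rw [show N + 1 + X = (N + X) + 1 by ring, sum_range_succ]
    rw [h1]
    ring

end

end TAIx

open TAIx in
theorem t_TAI : S_TAI := by
  refine ⟨2 + 44 * 18 ^ 9, by norm_num, ?_⟩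
  intro a K hK j s X hj hs1 hs2 hX hsum
  have hK0 : 0 ≤ K := by
    have := hK 0
    simpa using this
  have hX' : (3 : ℝ) ≤ X := by exact_mod_cast hX
  have hX0 : (0 : ℝ) < X := by linarith
  have hl := log_ge_one hX'
  set f : ℕ → ℂ := fun n => F j s (n : ℝ) with hf
  have hterm : ∀ n : ℕ, a (n + X) * ((Real.log ((n + X : ℕ) : ℝ) : ℝ) : ℂ) ^ j *
      ((n + X : ℕ) : ℂ) ^ (-s) = a (n + X) * f (n + X) := by
    intro n
    have h0 : (0 : ℝ) < ((n + X : ℕ) : ℝ) := by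
      have : 0 < n + X := by omega
      exact_mod_cast this
    have h1 := F_eq j s ((n + X : ℕ) : ℝ) h0
    rw [hf]
    simp only
    rw [h1, mul_assoc]
    norm_cast
  have hlim := hsum.hasSum.tendsto_sum_nat
  refine le_of_tendsto hlim.norm (Filter.Eventually.of_forall fun N => ?_)
  have h1 : ∑ i ∈ range N, a (i + X) * ((Real.log ((i + X : ℕ) : ℝ) : ℝ) : ℂ) ^ j *
      ((i + X : ℕ) : ℂ) ^ (-s) = ∑ i ∈ range N, a (i + X) * f (i + X) :=
    sum_congr rfl fun n _ => hterm n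
  rw [h1, abel a f X N]
  have hD : ∑ n ∈ range N, ‖f (n + 1 + X) - f (n + X)‖ ≤
      2 * (9 + ‖s‖) * 18 ^ 9 * Real.log X ^ j / X := sum_diff_le' j hj s hs1 X hX N
  have hfX : ‖f X‖ ≤ Real.log X ^ j / X := by
    have := norm_F j s hs1 hX'
    rwa [← div_eq_mul_inv] at this
  have htel : ‖f (N + X)‖ ≤ ‖f X‖ + ∑ n ∈ range N, ‖f (n + 1 + X) - f (n + X)‖ := by
    clear hD h1 hlim
    induction N with
    | zero => simp
    | succ N ih =>
      rw [sum_range_succ]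
      have h2 : ‖f (N + 1 + X)‖ ≤ ‖f (N + X)‖ + ‖f (N + 1 + X) - f (N + X)‖ := by
        have := norm_add_le (f (N + X)) (f (N + 1 + X) - f (N + X))
        rwa [add_sub_cancel] at this
      linarith
  set D : ℝ := ∑ n ∈ range N, ‖f (n + 1 + X) - f (n + X)‖ with hDd
  have hb1 : ‖(∑ k ∈ range (N + X), a k) * f (N + X)‖ ≤ K * (‖f X‖ + D) := by
    rw [norm_mul]
    exact mul_le_mul (hK _) htel (norm_nonneg _) hK0
  have hb2 : ‖(∑ k ∈ range X, a k) * f X‖ ≤ K * ‖f X‖ := by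
    rw [norm_mul]
    exact mul_le_mul_of_nonneg_right (hK _) (norm_nonneg _)
  have hb3 : ‖∑ n ∈ range N, (∑ k ∈ range (n + 1 + X), a k) * (f (n + 1 + X) - f (n + X))‖ ≤ K * D := by
    refine (norm_sum_le _ _).trans ?_
    rw [hDd, mul_sum]
    refine sum_le_sum fun n _ => ?_
    rw [norm_mul]
    exact mul_le_mul_of_nonneg_right (hK _) (norm_nonneg _)
  have hb : ‖(∑ k ∈ range (N + X), a k) * f (N + X) - (∑ k ∈ range X, a k) * f X -
        ∑ n ∈ range N, (∑ k ∈ range (n + 1 + X), a k) * (f (n + 1 + X) - f (n + X))‖ ≤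
      K * (2 * ‖f X‖ + 2 * D) := by
    refine (norm_sub_le _ _).trans ?_
    have := norm_sub_le ((∑ k ∈ range (N + X), a k) * f (N + X)) ((∑ k ∈ range X, a k) * f X)
    linarith
  refine hb.trans ?_
  have hs : ‖s‖ ≤ 2 + |s.im| := by
    refine (Complex.norm_le_abs_re_add_abs_im s).trans ?_
    rw [abs_of_pos (by linarith : 0 < s.re)]
    linarith
  have hE0 : 0 ≤ Real.log X ^ j / X := by positivity
  set E : ℝ := Real.log X ^ j / X with hE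
  have hD' : D ≤ 22 * 18 ^ 9 * (|s.im| + 1) * E := by
    have h3 : 2 * (9 + ‖s‖) * 18 ^ 9 * Real.log X ^ j / X = 2 * (9 + ‖s‖) * 18 ^ 9 * E := by
      rw [hE]
      ring
    rw [h3] at hD
    refine hD.trans ?_
    apply mul_le_mul_of_nonneg_right _ hE0
    have := abs_nonneg s.im
    nlinarith
  have h5 : 2 * ‖f X‖ + 2 * D ≤ (2 + 44 * 18 ^ 9) * (|s.im| + 1) * E := by
    have h6 : ‖f X‖ ≤ (|s.im| + 1) * E := by
      refine hfX.trans ?_
      have := abs_nonneg s.im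
      nlinarith
    linarith
  calc K * (2 * ‖f X‖ + 2 * D) ≤ K * ((2 + 44 * 18 ^ 9) * (|s.im| + 1) * E) :=
        mul_le_mul_of_nonneg_left h5 hK0
    _ = (2 + 44 * 18 ^ 9) * K * (|s.im| + 1) * Real.log X ^ j / X := by
        rw [hE]
        ring

end Pool.Agent.FCT
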