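import Pool.Agent.FCT.St1

/-!
FCT UNI (helper60): the uniform bounds `UB R T (C log (R T))`.
-/

set_option autoImplicit false

namespace Pool.Agent.FCT

open Finset

private lemma uni_log {R T : ℝ} (hR : 3 ≤ R) (hT : 3 ≤ T) : 2 ≤ Real.log (R * T) := by
  have h9 : (9 : ℝ) ≤ R * T := by nlinarith
  have h1 : Real.exp 2 ≤ 9 := by
    have h2 : Real.exp 2 = Real.exp 1 ^ 2 := by
      rw [← Real.exp_nat_mul]; norm_num
    rw [h2]
    have h3 := Real.exp_one_lt_d9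
    have h4 := Real.exp_pos 1
    nlinarith
  have h5 : Real.exp 2 ≤ R * T := h1.trans h9
  exact (Real.le_log_iff_exp_le (by linarith)).2 h5

private lemma uni_ell {R T : ℝ} (hR : 3 ≤ R) (hT : 3 ≤ T) {r : ℕ} (hr : 1 ≤ r)
    (hrR : (r : ℝ) ≤ R ^ 2) {t : ℝ} (ht : |t| ≤ 2 * T) :
    0 ≤ ell r t ∧ ell r t ≤ 3 * Real.log (R * T) := by
  have hr1 : (1 : ℝ) ≤ r := by exact_mod_cast hr
  have h0 : (0 : ℝ) ≤ |t| := abs_nonneg t
  have h1 : (1 : ℝ) ≤ r * (|t| + 3) := by nlinarith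
  refine ⟨Real.log_nonneg h1, ?_⟩
  have h2 : (r : ℝ) * (|t| + 3) ≤ (R * T) ^ 3 := by
    have h3 : (r : ℝ) * (|t| + 3) ≤ R ^ 2 * (2 * T + 3) := by
      apply mul_le_mul hrR (by linarith) (by linarith) (by positivity)
    have h4 : 2 * T + 3 ≤ R * T ^ 3 := by
      have h5 : (9 : ℝ) ≤ T ^ 2 := by nlinarith
      have h6 : 9 * T ≤ T ^ 3 := by
        have : T ^ 3 = T ^ 2 * T := by ring
        rw [this]
        exact mul_le_mul_of_nonneg_right h5 (by linarith)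
      have h7 : T ^ 3 ≤ R * T ^ 3 := by
        have : (0 : ℝ) ≤ T ^ 3 := by positivity
        nlinarith
      linarith
    calc (r : ℝ) * (|t| + 3) ≤ R ^ 2 * (2 * T + 3) := h3
      _ ≤ R ^ 2 * (R * T ^ 3) := by
          apply mul_le_mul_of_nonneg_left h4 (by positivity)
      _ = (R * T) ^ 3 := by ring
  have h8 : Real.log ((R * T) ^ 3) = 3 * Real.log (R * T) := by
    rw [Real.log_pow]; norm_num
  rw [← h8]
  exact Real.log_le_log (by linarith) h2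

theorem t_UNI : S_UNI := by
  rintro ⟨C₁, hC₁, h₁⟩ ⟨C₂, hC₂, h₂⟩
  refine ⟨3 * (C₁ + C₂), by linarith, fun R T hR hT => ?_⟩
  have hL := uni_log hR hT
  refine ⟨by nlinarith, fun r hr hrR => ⟨fun χ hχ j hj s hs1 hs2 ht => ?_,
    fun s hs1 hs2 hs0 ht => ?_⟩⟩
  · obtain ⟨e0, e1⟩ := uni_ell hR hT hr hrR ht
    refine (h₁ r hr χ hχ j s hj hs1 hs2).trans ?_
    apply pow_le_pow_left₀ (by positivity)
    nlinarith
  · obtain ⟨e0, e1⟩ := uni_ell hR hT hr hrR ht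
    refine (h₂ r hr s hs1 hs2 hs0).trans ?_
    have hp : 0 < |s.im| := abs_pos.2 hs0
    have hq : 0 < 1 / |s.im| := by positivity
    have h3 : C₂ * ell r s.im ≤ 3 * (C₁ + C₂) * Real.log (R * T) := by nlinarith
    have h4 : C₂ * (1 / |s.im|) ≤ 3 * (C₁ + C₂) * Real.log (R * T) * (1 / |s.im|) := by
      apply mul_le_mul_of_nonneg_right _ hq.le
      nlinarith
    calc C₂ * (ell r s.im + 1 / |s.im|) = C₂ * ell r s.im + C₂ * (1 / |s.im|) := by ring
      _ ≤ 3 * (C₁ + C₂) * Real.log (R * T) +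
          3 * (C₁ + C₂) * Real.log (R * T) * (1 / |s.im|) := add_le_add h3 h4
      _ = 3 * (C₁ + C₂) * Real.log (R * T) * (1 + 1 / |s.im|) := by ring

end Pool.Agent.FCT
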