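import Mathlib
import Pool.Agent.FCT.St1

set_option autoImplicit false

/-!
FCT, part I, UPC: upper bounds for `∑ χ(n) (log n)^j n^(-s)`, `χ ≠ 1`, in `1 < Re s ≤ 2`.
-/

namespace Pool.Agent.FCT

open Finset

/-- The iterated multiplication with the logarithm. -/
lemma upc_iter (f : ℕ → ℂ) (j n : ℕ) :
    (LSeries.logMul^[j] f) n = f n * ((Real.log n : ℝ) : ℂ) ^ j := by
  induction j with
  | zero => simp
  | succ j ih =>
    rw [Function.iterate_succ_apply']
    change Complex.log n * _ = _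
    rw [ih, ← Complex.natCast_log]
    ring

/-- Summability of the terms. -/
lemma upc_summable {r : ℕ} (hr : 1 ≤ r) (χ : DirichletCharacter ℂ r) (j : ℕ) (s : ℂ)
    (hs : 1 < s.re) :
    LSeriesSummable (fun n => χ n * ((Real.log n : ℝ) : ℂ) ^ j) s := by
  have : NeZero r := ⟨by omega⟩
  have h1 : (fun n : ℕ => χ n * ((Real.log n : ℝ) : ℂ) ^ j) =
      LSeries.logMul^[j] (fun n : ℕ => χ n) := by
    funext n
    rw [upc_iter]
  rw [h1]
  apply LSeriesSummable_of_abscissaOfAbsConv_lt_re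
  rw [LSeries.absicssaOfAbsConv_logPowMul]
  have h2 : LSeries.abscissaOfAbsConv (fun n : ℕ => χ n) ≤ 1 :=
    DirichletCharacter.absicssaOfAbsConv_eq_one (by omega) χ |>.le
  refine lt_of_le_of_lt h2 ?_
  exact_mod_cast hs

/-- The initial sums of a non principal character are bounded by the modulus. -/
lemma upc_init {r : ℕ} (hr : 1 ≤ r) (χ : DirichletCharacter ℂ r) (hχ : χ ≠ 1) (n : ℕ) :
    ‖∑ k ∈ range n, χ (k : ZMod r)‖ ≤ r := by
  have h0 : ∑ k ∈ range r, χ (k : ZMod r) = 0 := by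
    obtain ⟨m, rfl⟩ : ∃ m, r = m + 1 := ⟨r - 1, by omega⟩
    rw [← Fin.sum_univ_eq_sum_range (fun k => χ ((k : ℕ) : ZMod (m + 1))) (m + 1),
      ← MulChar.sum_eq_zero_of_ne_one hχ]
    refine Finset.sum_congr rfl (fun i _ => ?_)
    congr 1
    exact ZMod.natCast_zmod_val (n := m + 1) i
  induction n using Nat.strong_induction_on with
  | _ n ih =>
    rcases lt_or_ge n r with h | h
    · calc ‖∑ k ∈ range n, χ (k : ZMod r)‖ ≤ ∑ k ∈ range n, ‖χ (k : ZMod r)‖ := norm_sum_le _ _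
        _ ≤ ∑ k ∈ range n, (1 : ℝ) := Finset.sum_le_sum (fun k _ => DirichletCharacter.norm_le_one χ _)
        _ = n := by simp
        _ ≤ r := by exact_mod_cast h.le
    · obtain ⟨m, rfl⟩ : ∃ m, n = r + m := ⟨n - r, by omega⟩
      have h2 : ∑ k ∈ range (r + m), χ (k : ZMod r) = ∑ k ∈ range m, χ (k : ZMod r) := by
        rw [Finset.sum_range_add, h0, zero_add]
        refine Finset.sum_congr rfl (fun k _ => ?_)
        congr 1
        push_cast
        simp
      rw [h2]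
      exact ih m (by omega)

/-- The first terms. -/
lemma upc_head {r : ℕ} (χ : DirichletCharacter ℂ r) (j : ℕ) (s : ℂ)
    (hs : 1 < s.re) (X : ℕ) (hX : 1 ≤ X) :
    ‖∑ n ∈ range X, LSeries.term (fun n => χ n * ((Real.log n : ℝ) : ℂ) ^ j) s n‖ ≤
      Real.log X ^ j * (1 + Real.log X) := by
  have hterm : ∀ n ∈ range X, ‖LSeries.term (fun n => χ n * ((Real.log n : ℝ) : ℂ) ^ j) s n‖ ≤
      Real.log X ^ j * (n : ℝ)⁻¹ := by
    intro n hn
    rw [Finset.mem_range] at hn
    rcases Nat.eq_zero_or_pos n with h0 | h0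
    · subst h0
      simp
    · rw [LSeries.term_of_ne_zero (by omega), norm_div, norm_mul, norm_pow,
        Complex.norm_natCast_cpow_of_pos h0]
      have hn1 : (1 : ℝ) ≤ n := by exact_mod_cast h0
      have hl0 : 0 ≤ Real.log n := Real.log_nonneg hn1
      have hl1 : Real.log n ≤ Real.log X :=
        Real.log_le_log (by linarith) (by exact_mod_cast hn.le)
      have h1 : ‖χ (n : ZMod r)‖ ≤ 1 := DirichletCharacter.norm_le_one χ _
      have h2 : ‖((Real.log n : ℝ) : ℂ)‖ ^ j ≤ Real.log X ^ j := by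
        rw [Complex.norm_real, Real.norm_of_nonneg hl0]
        exact pow_le_pow_left₀ hl0 hl1 j
      have h3 : (n : ℝ) ≤ (n : ℝ) ^ s.re := by
        calc (n : ℝ) = (n : ℝ) ^ (1 : ℝ) := (Real.rpow_one _).symm
          _ ≤ (n : ℝ) ^ s.re := Real.rpow_le_rpow_of_exponent_le hn1 hs.le
      rw [div_eq_mul_inv]
      have h4 : ((n : ℝ) ^ s.re)⁻¹ ≤ (n : ℝ)⁻¹ := inv_anti₀ (by linarith) h3
      have h5 : ‖χ (n : ZMod r)‖ * ‖((Real.log n : ℝ) : ℂ)‖ ^ j ≤ Real.log X ^ j := by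
        calc ‖χ (n : ZMod r)‖ * ‖((Real.log n : ℝ) : ℂ)‖ ^ j
            ≤ 1 * ‖((Real.log n : ℝ) : ℂ)‖ ^ j :=
              mul_le_mul_of_nonneg_right h1 (by positivity)
          _ ≤ Real.log X ^ j := by rw [one_mul]; exact h2
      exact mul_le_mul h5 h4 (by positivity) (pow_nonneg (le_trans hl0 hl1) j)
  have hX1 : (1 : ℝ) ≤ X := by exact_mod_cast hX
  have hLX : 0 ≤ Real.log X := Real.log_nonneg hX1
  calc ‖∑ n ∈ range X, LSeries.term (fun n => χ n * ((Real.log n : ℝ) : ℂ) ^ j) s n‖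
      ≤ ∑ n ∈ range X, ‖LSeries.term (fun n => χ n * ((Real.log n : ℝ) : ℂ) ^ j) s n‖ :=
        norm_sum_le _ _
    _ ≤ ∑ n ∈ range X, Real.log X ^ j * (n : ℝ)⁻¹ := Finset.sum_le_sum hterm
    _ = Real.log X ^ j * ∑ n ∈ range X, (n : ℝ)⁻¹ := by rw [Finset.mul_sum]
    _ ≤ Real.log X ^ j * (1 + Real.log X) := by
        refine mul_le_mul_of_nonneg_left ?_ (pow_nonneg hLX j)
        obtain ⟨m, rfl⟩ : ∃ m, X = m + 1 := ⟨X - 1, by omega⟩
        rw [Finset.sum_range_succ']
        have h1 : ∑ k ∈ range m, (((k + 1 : ℕ) : ℝ))⁻¹ = ((harmonic m : ℚ) : ℝ) := by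
          rw [harmonic]
          push_cast
          rfl
        rw [h1]
        have h2 := harmonic_le_one_add_log m
        have h3 : Real.log m ≤ Real.log ((m + 1 : ℕ) : ℝ) := by
          rcases Nat.eq_zero_or_pos m with h0 | h0
          · subst h0
            simp
          · exact Real.log_le_log (by exact_mod_cast h0) (by push_cast; linarith)
        simp only [Nat.cast_zero, inv_zero, add_zero]
        linarith

theorem t_UPC (h : S_TAI) : S_UPC := by
  obtain ⟨C₀, hC₀, hT⟩ := h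
  refine ⟨3 + C₀, by linarith, ?_⟩
  intro r hr χ hχ j s hj hs1 hs2
  have hr1 : (1 : ℝ) ≤ r := by exact_mod_cast hr
  set Y : ℝ := r * (|s.im| + 3) with hY
  have habs : 0 ≤ |s.im| := abs_nonneg _
  have hY3 : 3 ≤ Y := by
    rw [hY]
    nlinarith
  set X : ℕ := ⌈Y⌉₊ with hX
  have hXY : Y ≤ X := Nat.le_ceil Y
  have hXlt : (X : ℝ) < Y + 1 := Nat.ceil_lt_add_one (by linarith)
  have hX3' : (3 : ℝ) ≤ X := le_trans hY3 hXY
  have hX3 : 3 ≤ X := by exact_mod_cast hX3'
  have hl : 1 ≤ Real.log Y := by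
    rw [Real.le_log_iff_exp_le (by linarith)]
    have := Real.exp_one_lt_d9
    linarith
  have hell : ell r s.im = Real.log Y := rfl
  have hlX : Real.log X ≤ 2 * Real.log Y := by
    have h1 : (X : ℝ) ≤ Y ^ 2 := by nlinarith
    calc Real.log X ≤ Real.log (Y ^ 2) := Real.log_le_log (by linarith) h1
      _ = 2 * Real.log Y := by rw [Real.log_pow]; norm_num
  have hlX0 : 0 ≤ Real.log X := Real.log_nonneg (by linarith)
  have hsum := upc_summable hr χ j s hs1
  have hsum' : Summable (LSeries.term (fun n => χ n * ((Real.log n : ℝ) : ℂ) ^ j) s) := hsum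
  have hfun : ∀ n : ℕ, LSeries.term (fun n => χ n * ((Real.log n : ℝ) : ℂ) ^ j) s (n + X) =
      χ ((n + X : ℕ) : ZMod r) * ((Real.log ((n + X : ℕ) : ℝ) : ℝ) : ℂ) ^ j *
        ((n + X : ℕ) : ℂ) ^ (-s) := by
    intro n
    rw [LSeries.term_of_ne_zero (by omega), Complex.cpow_neg, div_eq_mul_inv]
  have hs2' : Summable (fun n : ℕ => χ ((n + X : ℕ) : ZMod r) *
      ((Real.log ((n + X : ℕ) : ℝ) : ℝ) : ℂ) ^ j * ((n + X : ℕ) : ℂ) ^ (-s)) := by
    have h1 := (summable_nat_add_iff X).mpr hsum'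
    refine h1.congr (fun n => ?_)
    exact hfun n
  have htail := hT (fun n => χ (n : ZMod r)) r (upc_init hr χ hχ) j s X hj hs1 hs2 hX3 hs2'
  have hsplit : AJ χ j s = ∑ n ∈ range X, LSeries.term
      (fun n => χ n * ((Real.log n : ℝ) : ℂ) ^ j) s n +
      ∑' n : ℕ, χ ((n + X : ℕ) : ZMod r) * ((Real.log ((n + X : ℕ) : ℝ) : ℝ) : ℂ) ^ j *
        ((n + X : ℕ) : ℂ) ^ (-s) := by
    rw [AJ, LSeries, ← hsum'.sum_add_tsum_nat_add X]
    congr 1
    exact tsum_congr hfun
  have hhead := upc_head χ j s hs1 X (by omega)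
  have htail2 : C₀ * r * (|s.im| + 1) * Real.log X ^ j / X ≤ C₀ * Real.log X ^ j := by
    rw [div_le_iff₀ (by linarith)]
    have h1 : (r : ℝ) * (|s.im| + 1) ≤ X := by
      refine le_trans ?_ hXY
      rw [hY]
      exact mul_le_mul_of_nonneg_left (by linarith) (by linarith)
    have h2 : 0 ≤ C₀ * Real.log X ^ j := mul_nonneg (by linarith) (pow_nonneg hlX0 j)
    calc C₀ * r * (|s.im| + 1) * Real.log X ^ j
        = (C₀ * Real.log X ^ j) * (r * (|s.im| + 1)) := by ring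
      _ ≤ (C₀ * Real.log X ^ j) * X := mul_le_mul_of_nonneg_left h1 h2
  rw [hell]
  have hpow : Real.log X ^ j ≤ ((3 + C₀) * Real.log Y) ^ j := by
    refine pow_le_pow_left₀ hlX0 (le_trans hlX ?_) j
    nlinarith
  calc ‖AJ χ j s‖ ≤ Real.log X ^ j * (1 + Real.log X) + C₀ * Real.log X ^ j := by
        rw [hsplit]
        refine le_trans (norm_add_le _ _) ?_
        exact add_le_add hhead (le_trans htail htail2)
    _ = Real.log X ^ j * (1 + C₀ + Real.log X) := by ring
    _ ≤ ((3 + C₀) * Real.log Y) ^ j * ((3 + C₀) * Real.log Y) := by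
        refine mul_le_mul hpow ?_ (by linarith) ?_
        · nlinarith
        · exact pow_nonneg (mul_nonneg (by linarith) (by linarith)) j
    _ = ((3 + C₀) * Real.log Y) ^ (j + 1) := by rw [pow_succ]

end Pool.Agent.FCT
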