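import Pool.Agent.FCT.St1

set_option autoImplicit false

namespace Pool.Agent.FCT

open Finset

namespace UPP

/-- The mean value inequality for `y ^ (-s)` between `k` and `x`, for `k ≤ x ≤ k + 1`. -/
theorem cpow_sub (s : ℂ) (hs : 1 < s.re) (k : ℕ) (hk : 1 ≤ k) (x : ℝ) (hx1 : (k : ℝ) ≤ x)
    (hx2 : x ≤ k + 1) : ‖((x : ℝ) : ℂ) ^ (-s) - (((k : ℝ) : ℝ) : ℂ) ^ (-s)‖ ≤ ‖s‖ / (k : ℝ) ^ 2 := by
  have hk0 : (1 : ℝ) ≤ k := by exact_mod_cast hk
  have hs0 : -s ≠ 0 := by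
    intro h0
    have : s = 0 := by simpa using h0
    rw [this] at hs
    simp at hs
    linarith
  have key := Convex.norm_image_sub_le_of_norm_hasDerivWithin_le (𝕜 := ℝ) (G := ℂ)
    (f := fun y : ℝ => (y : ℂ) ^ (-s)) (f' := fun y : ℝ => -s * (y : ℂ) ^ (-s - 1))
    (s := Set.Icc (k : ℝ) (k + 1)) (x := (k : ℝ)) (y := x) (C := ‖s‖ / (k : ℝ) ^ 2)
    (fun y hy => (hasDerivAt_ofReal_cpow_const (x := y)
      (by have := hy.1; intro h0; rw [h0] at this; linarith) hs0).hasDerivWithinAt)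
    ?_ (convex_Icc _ _) ⟨le_refl _, by linarith⟩ ⟨hx1, hx2⟩
  · refine key.trans ?_
    have h1 : ‖x - (k : ℝ)‖ ≤ 1 := by
      rw [Real.norm_eq_abs, abs_of_nonneg (by linarith)]; linarith
    have h2 : 0 ≤ ‖s‖ / (k : ℝ) ^ 2 := by positivity
    nlinarith
  · intro y hy
    have hy0 : (0 : ℝ) < y := by linarith [hy.1]
    have hy1 : (1 : ℝ) ≤ y := by linarith [hy.1]
    rw [norm_mul, norm_neg, Complex.norm_cpow_eq_rpow_re_of_pos hy0, div_eq_mul_inv]
    refine mul_le_mul_of_nonneg_left ?_ (norm_nonneg _)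
    have h1 : (-s - 1).re ≤ -2 := by
      simp only [Complex.sub_re, Complex.neg_re, Complex.one_re]; linarith
    calc y ^ (-s - 1).re ≤ y ^ (-2 : ℝ) := Real.rpow_le_rpow_of_exponent_le hy1 h1
      _ ≤ (k : ℝ) ^ (-2 : ℝ) := Real.rpow_le_rpow_of_nonpos (by linarith) hy.1 (by norm_num)
      _ = ((k : ℝ) ^ 2)⁻¹ := by
        rw [Real.rpow_neg (by linarith)]
        norm_num

/-- The primitive of `x ^ (-s)`. -/
noncomputable def F (s : ℂ) (x : ℝ) : ℂ := (x : ℂ) ^ (-s + 1) / (-s + 1)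

theorem step (s : ℂ) (hs : 1 < s.re) (k : ℕ) (hk : 1 ≤ k) :
    ‖((k : ℕ) : ℂ) ^ (-s) - (F s ((k : ℝ) + 1) - F s k)‖ ≤ ‖s‖ / (k : ℝ) ^ 2 := by
  have hk0 : (1 : ℝ) ≤ k := by exact_mod_cast hk
  have hs0 : -s ≠ -1 := by
    intro h0
    have h1 : s = 1 := by simpa using h0
    rw [h1] at hs
    simp at hs
  have key := Convex.norm_image_sub_le_of_norm_hasDerivWithin_le (𝕜 := ℝ) (G := ℂ)
    (f := fun y : ℝ => F s y - (y : ℂ) * (((k : ℝ) : ℝ) : ℂ) ^ (-s))
    (f' := fun y : ℝ => (y : ℂ) ^ (-s) - (((k : ℝ) : ℝ) : ℂ) ^ (-s))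
    (s := Set.Icc (k : ℝ) (k + 1)) (x := (k : ℝ)) (y := (k : ℝ) + 1) (C := ‖s‖ / (k : ℝ) ^ 2)
    (fun y hy => ?_)
    (fun y hy => cpow_sub s hs k hk y hy.1 hy.2) (convex_Icc _ _) ⟨le_refl _, by linarith⟩
    ⟨by linarith, le_refl _⟩
  · have e1 : ‖((k : ℕ) : ℂ) ^ (-s) - (F s ((k : ℝ) + 1) - F s k)‖ =
        ‖F s ((k : ℝ) + 1) - ((((k : ℝ) + 1 : ℝ)) : ℂ) * (((k : ℝ) : ℝ) : ℂ) ^ (-s) -
          (F s k - (((k : ℝ) : ℝ) : ℂ) * (((k : ℝ) : ℝ) : ℂ) ^ (-s))‖ := by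
      rw [← norm_neg]
      congr 1
      push_cast
      ring
    rw [e1]
    refine key.trans (le_of_eq ?_)
    have : (k : ℝ) + 1 - k = 1 := by ring
    rw [this]; simp
  · have hy0 : y ≠ 0 := by
      intro h0
      have := hy.1
      rw [h0] at this
      linarith
    have h1 : HasDerivAt (fun y : ℝ => F s y) ((y : ℂ) ^ (-s)) y :=
      hasDerivAt_ofReal_cpow_const' hy0 hs0
    have h2 : HasDerivAt (fun y : ℝ => (y : ℂ) * (((k : ℝ) : ℝ) : ℂ) ^ (-s))
        (1 * (((k : ℝ) : ℝ) : ℂ) ^ (-s)) y :=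
      (Complex.ofRealCLM.hasDerivAt (x := y)).mul_const _
    have h3 := (h1.sub h2).hasDerivWithinAt (s := Set.Icc (k : ℝ) (k + 1))
    rw [one_mul] at h3
    exact h3

theorem F_norm (s : ℂ) (hs : 1 < s.re) (ht : s.im ≠ 0) (x : ℝ) (hx : 1 ≤ x) :
    ‖F s x‖ ≤ 1 / |s.im| := by
  unfold F
  rw [norm_div, Complex.norm_cpow_eq_rpow_re_of_pos (by linarith)]
  have h1 : x ^ (-s + 1).re ≤ 1 := by
    apply Real.rpow_le_one_of_one_le_of_nonpos hx
    simp only [Complex.add_re, Complex.neg_re, Complex.one_re]; linarith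
  have h2 : |s.im| ≤ ‖-s + 1‖ := by
    have := Complex.abs_im_le_norm (-s + 1)
    simpa using this
  have h3 : 0 < |s.im| := abs_pos.mpr ht
  exact div_le_div₀ zero_le_one h1 h3 h2

theorem inv_sq_sum (X : ℕ) (hX : 2 ≤ X) (m : ℕ) :
    ∑ n ∈ range m, 1 / ((n + X : ℕ) : ℝ) ^ 2 ≤ 1 / ((X : ℝ) - 1) - 1 / ((X : ℝ) + m - 1) := by
  have hX' : (2 : ℝ) ≤ X := by exact_mod_cast hX
  induction m with
  | zero => simp
  | succ m ih =>
    rw [sum_range_succ]
    have hm : (0 : ℝ) ≤ m := Nat.cast_nonneg m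
    have h1 : 1 / ((m + X : ℕ) : ℝ) ^ 2 ≤ 1 / ((X : ℝ) + m - 1) - 1 / ((X : ℝ) + (m + 1 : ℕ) - 1) := by
      push_cast
      have ha : (0 : ℝ) < (X : ℝ) + m - 1 := by linarith
      have hb : (0 : ℝ) < (X : ℝ) + (m + 1) - 1 := by linarith
      rw [div_sub_div _ _ ha.ne' hb.ne', div_le_div_iff₀ (by positivity) (by positivity)]
      nlinarith
    linarith

/-- The tail of the zeta series. -/
theorem tail (s : ℂ) (hs : 1 < s.re) (ht : s.im ≠ 0) (X : ℕ) (hX : 2 ≤ X)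
    (hsX : ‖s‖ ≤ (X : ℝ) - 1) (m : ℕ) :
    ‖∑ n ∈ range m, ((n + X : ℕ) : ℂ) ^ (-s)‖ ≤ 2 / |s.im| + 1 := by
  have hX' : (2 : ℝ) ≤ X := by exact_mod_cast hX
  have e1 : ∀ m : ℕ, ∑ n ∈ range m, ((n + X : ℕ) : ℂ) ^ (-s) =
      ∑ n ∈ range m, (((n + X : ℕ) : ℂ) ^ (-s) -
        (F s (((n + X : ℕ) : ℝ) + 1) - F s ((n + X : ℕ) : ℝ))) +
        (F s ((m + X : ℕ) : ℝ) - F s ((X : ℕ) : ℝ)) := by
    intro m
    induction m with
    | zero => simp
    | succ m ih =>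
      rw [sum_range_succ, sum_range_succ, ih]
      have : ((m + 1 + X : ℕ) : ℝ) = ((m + X : ℕ) : ℝ) + 1 := by push_cast; ring
      rw [this]
      ring
  rw [e1]
  have h1 : ‖∑ n ∈ range m, (((n + X : ℕ) : ℂ) ^ (-s) -
        (F s (((n + X : ℕ) : ℝ) + 1) - F s ((n + X : ℕ) : ℝ)))‖ ≤ 1 := by
    calc _ ≤ ∑ n ∈ range m, ‖s‖ * (1 / ((n + X : ℕ) : ℝ) ^ 2) := by
          refine norm_sum_le_of_le _ fun n _ => ?_
          have := step s hs (n + X) (by omega)
          rwa [mul_one_div]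
      _ = ‖s‖ * ∑ n ∈ range m, 1 / ((n + X : ℕ) : ℝ) ^ 2 := by rw [mul_sum]
      _ ≤ ‖s‖ * (1 / ((X : ℝ) - 1)) := by
          refine mul_le_mul_of_nonneg_left ?_ (norm_nonneg _)
          have := inv_sq_sum X hX m
          have h2 : 0 ≤ 1 / ((X : ℝ) + m - 1) := by
            apply div_nonneg zero_le_one
            have : (0 : ℝ) ≤ m := Nat.cast_nonneg m
            linarith
          linarith
      _ ≤ 1 := by
          rw [mul_one_div]
          apply div_le_one_of_le₀ hsX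
          linarith
  have h2 := F_norm s hs ht ((m + X : ℕ) : ℝ) (by
    have : (1 : ℕ) ≤ m + X := by omega
    exact_mod_cast this)
  have h3 := F_norm s hs ht ((X : ℕ) : ℝ) (by linarith)
  have h4 : 2 / |s.im| = 1 / |s.im| + 1 / |s.im| := by ring
  calc _ ≤ ‖∑ n ∈ range m, (((n + X : ℕ) : ℂ) ^ (-s) -
        (F s (((n + X : ℕ) : ℝ) + 1) - F s ((n + X : ℕ) : ℝ)))‖ +
        ‖F s ((m + X : ℕ) : ℝ) - F s ((X : ℕ) : ℝ)‖ := norm_add_le _ _
    _ ≤ _ := by
      have := norm_sub_le (F s ((m + X : ℕ) : ℝ)) (F s ((X : ℕ) : ℝ))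
      linarith

/-- The values of the principal character. -/
theorem chi_val (r : ℕ) (k : ℕ) :
    (1 : DirichletCharacter ℂ r) (k : ZMod r) = if r.Coprime k then 1 else 0 := by
  split_ifs with h
  · exact MulChar.one_apply ((ZMod.isUnit_iff_coprime k r).mpr h.symm)
  · exact MulChar.map_nonunit _ (fun h' => h ((ZMod.isUnit_iff_coprime k r).mp h').symm)

/-- The centred principal character. -/
noncomputable def a (r : ℕ) (k : ℕ) : ℂ :=
  (1 : DirichletCharacter ℂ r) (k : ZMod r) - ((r.totient : ℝ) / (r : ℝ) : ℝ)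

theorem phi_bound (r : ℕ) (hr : 1 ≤ r) : 0 ≤ (r.totient : ℝ) / (r : ℝ) ∧
    (r.totient : ℝ) / (r : ℝ) ≤ 1 := by
  have h0 : (0 : ℝ) < r := by exact_mod_cast hr
  refine ⟨by positivity, ?_⟩
  rw [div_le_one h0]
  exact_mod_cast Nat.totient_le r

theorem a_norm (r : ℕ) (hr : 1 ≤ r) (k : ℕ) : ‖a r k‖ ≤ 1 := by
  obtain ⟨h1, h2⟩ := phi_bound r hr
  unfold a
  rw [chi_val]
  split_ifs
  · have : (1 : ℂ) - (((r.totient : ℝ) / (r : ℝ) : ℝ) : ℂ) =
        ((1 - (r.totient : ℝ) / (r : ℝ) : ℝ) : ℂ) := by push_cast; ring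
    rw [this, Complex.norm_real, Real.norm_eq_abs, abs_of_nonneg (by linarith)]
    linarith
  · rw [zero_sub, norm_neg, Complex.norm_real, Real.norm_eq_abs, abs_of_nonneg h1]
    exact h2

theorem a_period (r : ℕ) (hr : 1 ≤ r) (n : ℕ) :
    ∑ k ∈ range (n + r), a r k = ∑ k ∈ range n, a r k := by
  have h0 : (r : ℝ) ≠ 0 := by
    have : (0 : ℝ) < r := by exact_mod_cast hr
    exact this.ne'
  have h1 : ∑ k ∈ Ico n (n + r), a r k = 0 := by
    unfold a
    rw [sum_sub_distrib]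
    have e1 : ∑ k ∈ Ico n (n + r), (1 : DirichletCharacter ℂ r) (k : ZMod r) =
        (r.totient : ℂ) := by
      rw [sum_congr rfl (fun k _ => chi_val r k), ← sum_filter, sum_const,
        Nat.filter_coprime_Ico_eq_totient]
      simp
    rw [e1, sum_const, Nat.card_Ico, Nat.add_sub_cancel_left, nsmul_eq_mul]
    have h0' : (r : ℂ) ≠ 0 := by exact_mod_cast h0
    push_cast
    field_simp
    ring
  rw [← sum_range_add_sum_Ico (a r) (Nat.le_add_right n r) , h1, add_zero]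

theorem a_sum (r : ℕ) (hr : 1 ≤ r) (n : ℕ) : ‖∑ k ∈ range n, a r k‖ ≤ r := by
  induction n using Nat.strong_induction_on with
  | _ n ih =>
    by_cases hn : n < r
    · calc _ ≤ ∑ k ∈ range n, (1 : ℝ) := norm_sum_le_of_le _ fun k _ => a_norm r hr k
        _ = n := by simp
        _ ≤ r := by exact_mod_cast hn.le
    · have h1 := ih (n - r) (by omega)
      have h2 := a_period r hr (n - r)
      rw [Nat.sub_add_cancel (by omega)] at h2
      rw [h2]
      exact h1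

theorem head (r : ℕ) (s : ℂ) (hs : 1 < s.re) (X : ℕ) :
    ‖∑ n ∈ range X, LSeries.term
      (fun n => (1 : DirichletCharacter ℂ r) n * ((Real.log n : ℝ) : ℂ) ^ 0) s n‖ ≤
      1 + Real.log X := by
  have h1 : ∀ n : ℕ, ‖LSeries.term
      (fun n => (1 : DirichletCharacter ℂ r) n * ((Real.log n : ℝ) : ℂ) ^ 0) s n‖ ≤
      1 / (n : ℝ) := by
    intro n
    rw [LSeries.term_def]
    split_ifs with hn
    · simp
    · have hn' : 0 < n := Nat.pos_of_ne_zero hn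
      have hn1 : (1 : ℝ) ≤ n := by exact_mod_cast hn'
      rw [pow_zero, mul_one, norm_div, Complex.norm_natCast_cpow_of_pos hn']
      refine div_le_div₀ zero_le_one (DirichletCharacter.norm_le_one _ _) (by linarith) ?_
      calc (n : ℝ) = (n : ℝ) ^ (1 : ℝ) := (Real.rpow_one _).symm
        _ ≤ (n : ℝ) ^ s.re := Real.rpow_le_rpow_of_exponent_le hn1 hs.le
  calc _ ≤ ∑ n ∈ range X, 1 / (n : ℝ) := norm_sum_le_of_le _ fun n _ => h1 n
    _ ≤ ∑ n ∈ range (X + 1), 1 / (n : ℝ) := by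
        rw [sum_range_succ]
        have : 0 ≤ 1 / (X : ℝ) := by positivity
        linarith
    _ = (harmonic X : ℝ) := by
        rw [sum_range_succ', harmonic]
        push_cast
        simp
    _ ≤ _ := harmonic_le_one_add_log X

end UPP

open UPP in
theorem t_UPP (h : S_TAI) : S_UPP := by
  obtain ⟨C, hC1, hC⟩ := h
  refine ⟨C + 5, by linarith, ?_⟩
  intro r hr s hs1 hs2 ht
  have hr1 : (1 : ℝ) ≤ r := by exact_mod_cast hr
  have ht0 : 0 < |s.im| := abs_pos.mpr ht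
  set X : ℕ := ⌈(r : ℝ) * (|s.im| + 3)⌉₊ with hXdef
  have hY : |s.im| + 3 ≤ (r : ℝ) * (|s.im| + 3) := by nlinarith
  have hX1 : (r : ℝ) * (|s.im| + 3) ≤ X := Nat.le_ceil _
  have hX2 : (X : ℝ) ≤ 2 * ((r : ℝ) * (|s.im| + 3)) := by
    have := (Nat.ceil_lt_add_one (show (0 : ℝ) ≤ (r : ℝ) * (|s.im| + 3) by positivity)).le
    linarith
  have hX3 : 3 ≤ X := by
    have : (3 : ℝ) ≤ X := by linarith
    exact_mod_cast this
  have hX0 : (0 : ℝ) < X := by linarith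
  -- the logarithm
  have hell : 1 ≤ ell r s.im := by
    unfold ell
    rw [Real.le_log_iff_exp_le (by positivity)]
    have := Real.exp_one_lt_d9
    linarith
  have hlog : Real.log X ≤ ell r s.im + 1 := by
    unfold ell
    calc Real.log X ≤ Real.log (2 * ((r : ℝ) * (|s.im| + 3))) := Real.log_le_log hX0 hX2
      _ = Real.log 2 + Real.log ((r : ℝ) * (|s.im| + 3)) :=
        Real.log_mul two_ne_zero (by positivity)
      _ ≤ _ := by
        have := Real.log_two_lt_d9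
        linarith
  -- summability
  have hsum : ∀ f : ℕ → ℂ, (∀ n, ‖f n‖ ≤ 1) →
      Summable (fun n : ℕ => f (n + X) * ((n + X : ℕ) : ℂ) ^ (-s)) := by
    intro f hf
    have h1 : LSeriesSummable f s := LSeriesSummable_of_bounded_of_one_lt_re (fun n _ => hf n) hs1
    have h2 := (summable_nat_add_iff X).mpr h1
    refine h2.congr fun n => ?_
    rw [LSeries.term_def, if_neg (by omega), Complex.cpow_neg, div_eq_mul_inv]
  have hs1' : Summable (fun n : ℕ => ((n + X : ℕ) : ℂ) ^ (-s)) := by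
    have := hsum (fun _ => 1) (fun _ => by simp)
    simpa using this
  have hsa : Summable (fun n : ℕ => a r (n + X) * ((n + X : ℕ) : ℂ) ^ (-s)) :=
    hsum (a r) (a_norm r hr)
  -- the tail of the centred series
  have hA : ‖∑' n : ℕ, a r (n + X) * ((n + X : ℕ) : ℂ) ^ (-s)‖ ≤ C := by
    have h1 := hC (a r) r (a_sum r hr) 0 s X (by norm_num) hs1 hs2 hX3 (by simpa using hsa)
    simp only [pow_zero, mul_one] at h1
    refine h1.trans ?_
    rw [div_le_iff₀ hX0]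
    nlinarith
  -- the tail of the zeta series
  have hZ : ‖∑' n : ℕ, ((n + X : ℕ) : ℂ) ^ (-s)‖ ≤ 2 / |s.im| + 1 := by
    have hb : ‖s‖ ≤ (X : ℝ) - 1 := by
      have h1 := Complex.norm_le_abs_re_add_abs_im s
      have h2 : |s.re| ≤ 2 := by rw [abs_of_pos (by linarith)]; exact hs2
      linarith
    exact le_of_tendsto hs1'.hasSum.tendsto_sum_nat.norm
      (Filter.Eventually.of_forall fun m => tail s hs1 ht X (by omega) hb m)
  -- the decomposition
  have hL : LSeriesSummable (fun n => (1 : DirichletCharacter ℂ r) n *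
      ((Real.log n : ℝ) : ℂ) ^ 0) s := by
    refine LSeriesSummable_of_bounded_of_one_lt_re (m := 1) (fun n _ => ?_) hs1
    rw [pow_zero, mul_one]
    exact DirichletCharacter.norm_le_one _ _
  have e1 : AJ (1 : DirichletCharacter ℂ r) 0 s =
      ∑ n ∈ range X, LSeries.term (fun n => (1 : DirichletCharacter ℂ r) n *
        ((Real.log n : ℝ) : ℂ) ^ 0) s n +
      (∑' n : ℕ, a r (n + X) * ((n + X : ℕ) : ℂ) ^ (-s) +
        (((r.totient : ℝ) / (r : ℝ) : ℝ) : ℂ) * ∑' n : ℕ, ((n + X : ℕ) : ℂ) ^ (-s)) := by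
    unfold AJ LSeries
    rw [← Summable.sum_add_tsum_nat_add X hL, ← tsum_mul_left,
      ← Summable.tsum_add hsa (hs1'.mul_left _)]
    congr 1
    refine tsum_congr fun n => ?_
    rw [LSeries.term_def, if_neg (by omega), pow_zero, mul_one, div_eq_mul_inv, ← Complex.cpow_neg]
    unfold a
    push_cast
    ring
  obtain ⟨hp1, hp2⟩ := phi_bound r hr
  have hP : ‖(((r.totient : ℝ) / (r : ℝ) : ℝ) : ℂ) * ∑' n : ℕ, ((n + X : ℕ) : ℂ) ^ (-s)‖ ≤
      2 / |s.im| + 1 := by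
    rw [norm_mul, Complex.norm_real, Real.norm_eq_abs, abs_of_nonneg hp1]
    calc _ ≤ 1 * (2 / |s.im| + 1) := by gcongr
      _ = _ := one_mul _
  have hH := head r s hs1 X
  have h3 : 0 < 1 / |s.im| := by positivity
  have h4 : 2 / |s.im| = 2 * (1 / |s.im|) := by ring
  rw [e1]
  calc _ ≤ (1 + Real.log X) + (C + (2 / |s.im| + 1)) := by
        refine (norm_add_le _ _).trans (add_le_add hH ((norm_add_le _ _).trans (add_le_add hA hP)))
    _ ≤ (C + 5) * (ell r s.im + 1 / |s.im|) := by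
        rw [h4]
        nlinarith

end Pool.Agent.FCT
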