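import Pool.Agent.FCT.St1

/-!
# Project FCT (MP_e1dc24_nt), module WLO: primes in the window, by the prime number theorem
-/

set_option autoImplicit false

namespace Pool.Agent.FCT

open Finset Filter
open scoped ArithmeticFunction.vonMangoldt

theorem wlo_theta_sub (a b : ℝ) (hab : a ≤ b) :
    Chebyshev.theta b - Chebyshev.theta a =
      ∑ p ∈ (Ioc ⌊a⌋₊ ⌊b⌋₊).filter (fun p => p.Prime), Real.log p := by
  have hfl : ⌊a⌋₊ ≤ ⌊b⌋₊ := Nat.floor_le_floor hab
  have hsplit : Ioc 0 ⌊b⌋₊ = Ioc 0 ⌊a⌋₊ ∪ Ioc ⌊a⌋₊ ⌊b⌋₊ :=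
    (Ioc_union_Ioc_eq_Ioc (Nat.zero_le _) hfl).symm
  have hdisj : Disjoint ((Ioc 0 ⌊a⌋₊).filter (fun p => p.Prime))
      ((Ioc ⌊a⌋₊ ⌊b⌋₊).filter (fun p => p.Prime)) := by
    rw [Finset.disjoint_left]
    intro x hx hx'
    simp only [mem_filter, mem_Ioc] at hx hx'
    omega
  unfold Chebyshev.theta
  rw [hsplit, filter_union, sum_union hdisj]
  ring

theorem t_WLO : S_WLO := by
  have h := H70PNT.theta_tendsto
  rw [Metric.tendsto_atTop] at h
  obtain ⟨x₀, hx₀⟩ := h (1 / 40) (by norm_num)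
  refine ⟨max x₀ 1, ?_⟩
  intro y hy r hr hry
  have hy0 : x₀ ≤ y := (le_max_left _ _).trans hy
  have hy1 : (1 : ℝ) ≤ y := (le_max_right _ _).trans hy
  have hA : (39 / 40) * (13 / 10 * y) ≤ Chebyshev.theta (13 / 10 * y) := by
    have h1 := hx₀ (13 / 10 * y) (by linarith)
    rw [Real.dist_eq, abs_lt] at h1
    have h2 : 1 - 1 / 40 ≤ Chebyshev.theta (13 / 10 * y) / (13 / 10 * y) := by linarith [h1.1]
    rw [le_div_iff₀ (by linarith)] at h2
    linarith
  have hB : Chebyshev.theta (11 / 10 * y) ≤ (41 / 40) * (11 / 10 * y) := by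
    have h1 := hx₀ (11 / 10 * y) (by linarith)
    rw [Real.dist_eq, abs_lt] at h1
    have h2 : Chebyshev.theta (11 / 10 * y) / (11 / 10 * y) ≤ 1 + 1 / 40 := by linarith [h1.2]
    rw [div_le_iff₀ (by linarith)] at h2
    linarith
  have hC := wlo_theta_sub (11 / 10 * y) (13 / 10 * y) (by linarith)
  have hD : ∑ p ∈ (Ioc ⌊11 / 10 * y⌋₊ ⌊13 / 10 * y⌋₊).filter (fun p => p.Prime), Real.log p ≤
      ∑ n ∈ (Ioc ⌊11 / 10 * y⌋₊ ⌊13 / 10 * y⌋₊).filter (fun n => n.Coprime r), Λ n := by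
    calc ∑ p ∈ (Ioc ⌊11 / 10 * y⌋₊ ⌊13 / 10 * y⌋₊).filter (fun p => p.Prime), Real.log p
        = ∑ p ∈ (Ioc ⌊11 / 10 * y⌋₊ ⌊13 / 10 * y⌋₊).filter (fun p => p.Prime), Λ p := by
          refine Finset.sum_congr rfl fun p hp => ?_
          rw [ArithmeticFunction.vonMangoldt_apply_prime (mem_filter.1 hp).2]
      _ ≤ _ := by
          refine Finset.sum_le_sum_of_subset_of_nonneg ?_ fun n _ _ =>
            ArithmeticFunction.vonMangoldt_nonneg
          intro p hp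
          rw [mem_filter] at hp ⊢
          refine ⟨hp.1, ?_⟩
          rw [hp.2.coprime_iff_not_dvd]
          intro hdvd
          have h1 : p ≤ r := Nat.le_of_dvd (by omega) hdvd
          have h2 : 11 / 10 * y < p := (Nat.floor_lt (by linarith)).1 (mem_Ioc.1 hp.1).1
          have h3 : (p : ℝ) ≤ r := by exact_mod_cast h1
          linarith
  linarith

end Pool.Agent.FCT
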