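import Pool.Agent.FCT.St1

set_option autoImplicit false

/-!
# FCT_ZUP: the principal character at real points
-/

namespace Pool.Agent.FCT

open Finset

/-- Telescoping. -/
lemma zup_step (x : ℝ) (hx : 0 < x) (hx1 : x ≤ 1) (n : ℕ) :
    ((n + 2 : ℕ) : ℝ) ^ (-(1 + x)) ≤
      1 / x * (((n + 1 : ℕ) : ℝ) ^ (-x) - ((n + 2 : ℕ) : ℝ) ^ (-x)) := by
  have hy : (0 : ℝ) < ((n + 2 : ℕ) : ℝ) := by positivity
  have hz : (0 : ℝ) < ((n + 1 : ℕ) : ℝ) := by positivity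
  have hyz : ((n + 2 : ℕ) : ℝ) = ((n + 1 : ℕ) : ℝ) + 1 := by push_cast; ring
  set y : ℝ := ((n + 2 : ℕ) : ℝ) with hydef
  set z : ℝ := ((n + 1 : ℕ) : ℝ) with hzdef
  have h1 : (1 + -(1 / y)) ^ x ≤ 1 + x * -(1 / y) := by
    apply rpow_one_add_le_one_add_mul_self _ hx.le hx1
    have : 1 / y ≤ 1 := by
      rw [div_le_one hy, hyz]
      linarith
    linarith
  have h2 : 1 + -(1 / y) = z / y := by
    rw [hyz]
    field_simp
    ring
  rw [h2, Real.div_rpow hz.le hy.le] at h1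
  have hzx : 0 < z ^ x := Real.rpow_pos_of_pos hz x
  have hyx : 0 < y ^ x := Real.rpow_pos_of_pos hy x
  rw [div_le_iff₀ hyx] at h1
  have e1 : y ^ (-(1 + x)) = 1 / (y * y ^ x) := by
    rw [Real.rpow_neg hy.le, Real.rpow_add hy, Real.rpow_one, one_div]
  have e2 : z ^ (-x) = 1 / z ^ x := by rw [Real.rpow_neg hz.le, one_div]
  have e3 : y ^ (-x) = 1 / y ^ x := by rw [Real.rpow_neg hy.le, one_div]
  rw [e1, e2, e3, div_sub_div _ _ hzx.ne' hyx.ne', one_div_mul_eq_div, div_div,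
    div_le_div_iff₀ (by positivity) (by positivity)]
  -- z^x * y^x * x ≤ (y^x - z^x) * (y * y^x)
  have h3 : z ^ x * y ≤ (y - x) * y ^ x := by
    have : (1 + x * -(1 / y)) * y ^ x * y = (y - x) * y ^ x := by
      field_simp
      ring
    calc z ^ x * y ≤ (1 + x * -(1 / y)) * y ^ x * y := mul_le_mul_of_nonneg_right h1 hy.le
      _ = _ := this
  have h4 : z ^ x ≤ y ^ x := Real.rpow_le_rpow hz.le (by rw [hyz]; linarith) hx.le
  have h5 : x * z ^ x ≤ (y ^ x - z ^ x) * y := by nlinarith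
  nlinarith [mul_le_mul_of_nonneg_right h5 hyx.le]

lemma zup_sum (x : ℝ) (hx : 0 < x) (hx1 : x ≤ 1) (n : ℕ) :
    ∑ i ∈ range (n + 2), (if i = 0 then (0 : ℝ) else (i : ℝ) ^ (-(1 + x))) ≤
      1 + 1 / x * (1 - ((n + 1 : ℕ) : ℝ) ^ (-x)) := by
  induction n with
  | zero =>
    simp [sum_range_succ]
  | succ n ih =>
    rw [sum_range_succ]
    have h := zup_step x hx hx1 n
    have e : (if n + 2 = 0 then (0 : ℝ) else ((n + 2 : ℕ) : ℝ) ^ (-(1 + x))) =
        ((n + 2 : ℕ) : ℝ) ^ (-(1 + x)) := by simp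
    rw [e]
    have : n + 1 + 1 = n + 2 := rfl
    rw [this]
    linarith

lemma zup_sum' (x : ℝ) (hx : 0 < x) (hx1 : x ≤ 1) (n : ℕ) :
    ∑ i ∈ range n, (if i = 0 then (0 : ℝ) else (i : ℝ) ^ (-(1 + x))) ≤ 2 / x := by
  have h1 : ∑ i ∈ range n, (if i = 0 then (0 : ℝ) else (i : ℝ) ^ (-(1 + x))) ≤
      ∑ i ∈ range (n + 2), (if i = 0 then (0 : ℝ) else (i : ℝ) ^ (-(1 + x))) := by
    apply sum_le_sum_of_subset_of_nonneg
    · intro i hi
      rw [mem_range] at hi ⊢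
      omega
    · intro i _ _
      split_ifs
      · exact le_rfl
      · positivity
  have h2 := zup_sum x hx hx1 n
  have h3 : 0 < ((n + 1 : ℕ) : ℝ) ^ (-x) := Real.rpow_pos_of_pos (by positivity) _
  have h4 : 1 ≤ 1 / x := by rw [le_div_iff₀ hx]; linarith
  have h5 : 1 / x * (1 - ((n + 1 : ℕ) : ℝ) ^ (-x)) ≤ 1 / x * 1 :=
    mul_le_mul_of_nonneg_left (by linarith) (by positivity)
  have h6 : 2 / x = 1 / x + 1 / x := by ring
  linarith

theorem t_ZUP : S_ZUP := by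
  intro r x hr hx hx1
  have hb : ∀ n : ℕ, ‖((1 : DirichletCharacter ℂ r) n * ((Real.log n : ℝ) : ℂ) ^ 0 : ℂ)‖ ≤ 1 := by
    intro n
    rw [pow_zero, mul_one]
    exact DirichletCharacter.norm_le_one _ _
  have hs : LSeriesSummable (fun n : ℕ => (1 : DirichletCharacter ℂ r) n *
      ((Real.log n : ℝ) : ℂ) ^ 0) (((1 + x : ℝ) : ℂ)) := by
    apply LSeriesSummable_of_bounded_of_one_lt_re (m := 1) (fun n _ => hb n)
    rw [Complex.ofReal_re]
    linarith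
  have h1 : ‖AJ (1 : DirichletCharacter ℂ r) 0 ((1 + x : ℝ) : ℂ)‖ ≤
      ∑' n : ℕ, ‖LSeries.term (fun n : ℕ => (1 : DirichletCharacter ℂ r) n *
        ((Real.log n : ℝ) : ℂ) ^ 0) (((1 + x : ℝ) : ℂ)) n‖ :=
    norm_tsum_le_tsum_norm hs.norm
  refine h1.trans (Real.tsum_le_of_sum_range_le (fun n => norm_nonneg _) fun n => ?_)
  refine le_trans (sum_le_sum fun i _ => ?_) (zup_sum' x hx hx1 n)
  rw [LSeries.norm_term_eq]
  split_ifs with hi
  · exact le_rfl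
  · rw [Complex.ofReal_re, Real.rpow_neg (Nat.cast_nonneg i), ← one_div]
    exact div_le_div_of_nonneg_right (hb i) (Real.rpow_nonneg (Nat.cast_nonneg i) _)

end Pool.Agent.FCT
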