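import Mathlib
import Pool.Agent.FCT.St1
import Pool.Agent.FCT.KERF
import Pool.Agent.FCT.KERB
import Pool.Agent.FCT.GRD
import Pool.Agent.FCT.MOM
import Pool.Agent.FCT.WLO
import Pool.Agent.FCT.TAI
import Pool.Agent.FCT.UPC
import Pool.Agent.FCT.UPP
import Pool.Agent.FCT.ZUP
import Pool.Agent.FCT.UNI
import Pool.Agent.FCT.LEI
import Pool.Agent.FCT.IND
import Pool.Agent.FCT.DIF
import Pool.Agent.FCT.LBA
import Pool.Agent.FCT.REP
import Pool.Agent.FCT.EXC
import Pool.Agent.FCT.GOO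
import Pool.Agent.FCT.CHB
import Pool.Agent.FCT.SMO
import Pool.Agent.FCT.APA
import Pool.Agent.FCT.APB

set_option autoImplicit false

/-!
FCT, part I: assembly.
-/

namespace Pool.Agent.FCT

theorem ap : AP :=
  t_APB t_MOM t_WLO t_APA (t_UNI (t_UPC t_TAI) (t_UPP t_TAI))
    (t_CHB t_ZUP t_DIF t_REP t_EXC t_LBA t_GOO t_LEI t_IND)
    (t_APA t_MOM t_KERF t_KERB (t_GRD t_KERF) t_SMO)

end Pool.Agent.FCT
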