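import Pool.Agent.FCT.St2
import Pool.Agent.IP.BT

set_option autoImplicit false

/-!
BTX: a Brun-Titchmarsh inequality for the progressions `a + r (b + W x)` (helper63).
-/

namespace Pool.Agent.FCT

open Finset

noncomputable section

namespace BTXx

lemma log_le_two {L y : ℝ} (hL : 100 ≤ L) (r : ℝ) (hr : r ≤ L ^ 2) (hy0 : 0 < y)
    (hy : y ≤ 3 / 2 * (r * Real.exp L)) : Real.log y ≤ 2 * L := by
  rw [Real.log_le_iff_le_exp hy0]
  have h1 : 3 / 2 * L ^ 2 ≤ Real.exp L := by
    have h2 : (L / 3) ≤ Real.exp (L / 3) := by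
      have := Real.add_one_le_exp (L / 3)
      linarith
    have h3 : (L / 3) ^ 3 ≤ Real.exp L := by
      calc (L / 3) ^ 3 ≤ Real.exp (L / 3) ^ 3 := by
            apply pow_le_pow_left₀ (by linarith) h2
        _ = Real.exp L := by
            rw [← Real.exp_nat_mul]
            congr 1
            push_cast
            ring
    nlinarith [sq_nonneg L]
  calc y ≤ 3 / 2 * (r * Real.exp L) := hy
    _ ≤ 3 / 2 * (L ^ 2 * Real.exp L) := by gcongr
    _ = (3 / 2 * L ^ 2) * Real.exp L := by ring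
    _ ≤ Real.exp L * Real.exp L := by gcongr
    _ = Real.exp (2 * L) := by
        rw [← Real.exp_add]
        congr 1
        ring

end BTXx

open BTXx in
theorem t_BTX : S_BTX := by
  classical
  refine ⟨82, by norm_num, fun a _ => ⟨100, fun L hL W b r hP => ?_⟩⟩
  obtain ⟨hW, hWL, hb1, hb2, hbr, har, hr, hrL⟩ := hP
  have hL0 : 0 < L := by linarith
  have hE0 : 0 < Real.exp L := Real.exp_pos L
  have hW0 : (0 : ℝ) < W := by exact_mod_cast hW
  have hr0 : (0 : ℝ) < r := by exact_mod_cast hr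
  have hr1 : (1 : ℝ) ≤ r := by exact_mod_cast hr
  have he : 0 < r * W := Nat.mul_pos hr hW
  have htot0 : (0 : ℝ) < ((r * W).totient : ℝ) := by exact_mod_cast Nat.totient_pos.mpr he
  set z : ℕ := ⌊Real.exp (L / 20)⌋₊ with hz
  have hz1 : 1 ≤ z := by
    rw [hz]
    apply Nat.le_floor
    push_cast
    exact Real.one_le_exp (by positivity)
  have hzle : (z : ℝ) ≤ Real.exp (L / 20) := Nat.floor_le (Real.exp_pos _).le
  have hzE : z ≤ ⌊(r : ℝ) * Real.exp L⌋₊ := by
    apply Nat.le_floor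
    calc (z : ℝ) ≤ Real.exp (L / 20) := hzle
      _ ≤ Real.exp L := Real.exp_le_exp.mpr (by linarith)
      _ = 1 * Real.exp L := (one_mul _).symm
      _ ≤ r * Real.exp L := by gcongr
  have hsum : L / 20 ≤ ∑ u ∈ Icc 1 z, (1 : ℝ) / u := by
    refine le_trans ?_ (IP.BT.log_le_sum z)
    rw [Real.le_log_iff_exp_le (by positivity)]
    exact (Nat.lt_floor_add_one _).le
  -- each prime
  have hbound : ∀ x ∈ PiL a r W b L, lwX a r W b x ≤ 2 * L := by
    intro x hx
    rw [PiL, mem_filter, mem_range] at hx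
    obtain ⟨-, hp, -, hle⟩ := hx
    refine log_le_two hL r hrL (by exact_mod_cast hp.pos) ?_
    exact (Nat.le_floor_iff (by positivity)).1 hle
  -- the count
  have hcop : IsCoprime ((r * W : ℕ) : ℤ) (a + (r : ℤ) * (b : ℤ)) := by
    rw [Nat.cast_mul]
    refine IsCoprime.mul_left ?_ hbr.symm
    have h1 : IsCoprime (a + (r : ℤ) * (b : ℤ)) (r : ℤ) := by
      have := har.add_mul_left_left (b : ℤ)
      simpa using this
    exact h1.symm
  have hcount := Pool.Agent.Lib_helper72.AS.lin_count_le he hcop 0 (M0 L W) z hz1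
  have hsub : ((PiL a r W b L).card : ℝ) ≤ (((Ico 0 (0 + M0 L W)).filter
      (fun x => Nat.Coprime (primorial z)
        (Pool.Agent.Lib_helper72.AS.fL (r * W) (a + (r : ℤ) * (b : ℤ)) x).natAbs)).card : ℝ) := by
    have h1 : PiL a r W b L ⊆ (Ico 0 (0 + M0 L W)).filter
      (fun x => Nat.Coprime (primorial z)
        (Pool.Agent.Lib_helper72.AS.fL (r * W) (a + (r : ℤ) * (b : ℤ)) x).natAbs) := by
      intro x hx
      rw [PiL, mem_filter, mem_range] at hx
      obtain ⟨hx1, hp, hlt, -⟩ := hx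
      rw [mem_filter, mem_Ico]
      refine ⟨⟨by omega, by omega⟩, ?_⟩
      have h2 : (Pool.Agent.Lib_helper72.AS.fL (r * W) (a + (r : ℤ) * (b : ℤ)) x).natAbs =
          qv a r (b + W * x) := by
        have h3 : Pool.Agent.Lib_helper72.AS.fL (r * W) (a + (r : ℤ) * (b : ℤ)) x =
            a + (r : ℤ) * ((b + W * x : ℕ) : ℤ) := by
          unfold Pool.Agent.Lib_helper72.AS.fL
          push_cast
          ring
        have h4 : 0 < qv a r (b + W * x) := hp.pos
        rw [h3]
        unfold qv at h4 ⊢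
        omega
      rw [h2]
      exact Pool.Agent.Lib_helper72.AP.coprime_primorial_of_prime hp (by omega)
    exact_mod_cast Finset.card_le_card h1
  have hM0 : (W : ℝ) * (M0 L W : ℝ) ≤ 2 * Real.exp L := by
    have h1 : (M0 L W : ℝ) ≤ 2 * Real.exp L / W := Nat.floor_le (by positivity)
    calc (W : ℝ) * (M0 L W : ℝ) ≤ W * (2 * Real.exp L / W) := by gcongr
      _ = 2 * Real.exp L := by field_simp
  have hcard : ((r * W).totient : ℝ) * ((PiL a r W b L).card : ℝ) ≤
      41 * (r * Real.exp L / L) := by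
    have h1 : ((r * W).totient : ℝ) * ((PiL a r W b L).card : ℝ) ≤
        ((r * W : ℕ) : ℝ) * (M0 L W / (∑ u ∈ Icc 1 z, (1 : ℝ) / u) + (z : ℝ) ^ 6) :=
      (mul_le_mul_of_nonneg_left hsub htot0.le).trans hcount
    refine h1.trans ?_
    have h2 : (M0 L W : ℝ) / (∑ u ∈ Icc 1 z, (1 : ℝ) / u) ≤ M0 L W / (L / 20) := by
      apply div_le_div_of_nonneg_left (Nat.cast_nonneg _) (by positivity) hsum
    have h4 : ((r * W : ℕ) : ℝ) * (M0 L W / (L / 20)) ≤ 40 * (r * Real.exp L / L) := by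
      have h5 : ((r * W : ℕ) : ℝ) * (M0 L W / (L / 20)) = 20 * (r * (W * M0 L W) / L) := by
        push_cast
        field_simp
      rw [h5]
      calc 20 * (r * (W * (M0 L W : ℝ)) / L) ≤ 20 * (r * (2 * Real.exp L) / L) := by gcongr
        _ = 40 * (r * Real.exp L / L) := by ring
    have h6 : ((r * W : ℕ) : ℝ) * (z : ℝ) ^ 6 ≤ r * Real.exp L / L := by
      rw [le_div_iff₀ hL0]
      have h7 : (z : ℝ) ^ 6 ≤ Real.exp (6 * (L / 20)) := by
        calc (z : ℝ) ^ 6 ≤ Real.exp (L / 20) ^ 6 := by gcongr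
          _ = Real.exp (6 * (L / 20)) := by
            rw [← Real.exp_nat_mul]
            norm_num
      have h8 := IP.BT.size hL
      push_cast
      calc (r : ℝ) * W * (z : ℝ) ^ 6 * L
          ≤ r * Real.exp (2 * Real.sqrt L) * Real.exp (6 * (L / 20)) * L := by gcongr
        _ = r * (L * (Real.exp (2 * Real.sqrt L) * Real.exp (6 * (L / 20)))) := by ring
        _ ≤ r * Real.exp L := by gcongr
    calc ((r * W : ℕ) : ℝ) * (M0 L W / (∑ u ∈ Icc 1 z, (1 : ℝ) / u) + (z : ℝ) ^ 6)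
        ≤ ((r * W : ℕ) : ℝ) * (M0 L W / (L / 20) + (z : ℝ) ^ 6) := by gcongr
      _ = ((r * W : ℕ) : ℝ) * (M0 L W / (L / 20)) + ((r * W : ℕ) : ℝ) * (z : ℝ) ^ 6 := by ring
      _ ≤ 40 * (r * Real.exp L / L) + r * Real.exp L / L := add_le_add h4 h6
      _ = 41 * (r * Real.exp L / L) := by ring
  -- conclusion
  have hTh : ThL a r W b L ≤ ((PiL a r W b L).card : ℝ) * (2 * L) := by
    rw [ThL]
    refine (Finset.sum_le_card_nsmul _ _ _ hbound).trans (le_of_eq ?_)
    rw [nsmul_eq_mul]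
  calc ThL a r W b L * ((r * W).totient : ℝ)
      ≤ ((PiL a r W b L).card : ℝ) * (2 * L) * ((r * W).totient : ℝ) := by gcongr
    _ = (((r * W).totient : ℝ) * ((PiL a r W b L).card : ℝ)) * (2 * L) := by ring
    _ ≤ 41 * (r * Real.exp L / L) * (2 * L) := by gcongr
    _ = 82 * (r * Real.exp L) := by
      field_simp
      ring

end

end Pool.Agent.FCT
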