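import Pool.Agent.FCT.St4

set_option autoImplicit false

/-!
FCT, part V, module CHD: CHB with a large exceptional modulus.
-/

namespace Pool.Agent.FCT

open Finset
open scoped ArithmeticFunction.vonMangoldt

theorem t_CHD (hZUP : S_ZUP) (hDIF : S_DIF) (hREP : S_REP) (hSMC : S_SMC) (hEXD : S_EXD)
    (hLBA : S_LBA) (hGOO : S_GOO) (hLEI : S_LEI) (hIND : S_IND) : ChD := by
  obtain ⟨D, hD, hI⟩ := hIND hLEI
  refine ⟨D * 2 ^ 63, by nlinarith, fun D₀ => ?_⟩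
  obtain ⟨M₁, hE⟩ := hEXD hZUP hDIF hREP hSMC D₀
  refine ⟨M₁, fun R T M σ₁ hUB hT hσ hσ' hM₁ hlogR => ?_⟩
  obtain ⟨d, hd0, hd, hno⟩ := hE R T M σ₁ hUB hT hσ hσ' hM₁ hlogR
  refine ⟨d, hd0, hd, fun r hr hrR hdr χ hχ t ht => ?_⟩
  have hM : (2 : ℝ) ≤ M := hUB.1
  have hM1 : (1 : ℝ) ≤ M := by linarith
  have hσ2 : σ₁ ≤ 2 := by
    have h1 : (1 : ℝ) ≤ M ^ 5 := one_le_pow₀ hM1
    have h2 : 1 / (16 * M ^ 5) ≤ 1 := by
      rw [div_le_one (by positivity)]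
      linarith
    linarith
  have hr1 : (1 : ℝ) ≤ r := by exact_mod_cast hr
  have hR2 : (r : ℝ) ≤ R ^ 2 := by nlinarith
  have hg := hGOO hZUP hDIF hLBA R T M σ₁ r hUB hT hσ hσ2 hr hrR (hno r hr hrR hdr) χ hχ t ht
  have hre : ((σ₁ : ℂ) + (t : ℂ) * Complex.I).re = σ₁ := by simp
  have him : ((σ₁ : ℂ) + (t : ℂ) * Complex.I).im = t := by simp
  have hMp : (0 : ℝ) < M ^ 77 := by positivity
  have hlam1 : 1 / (2 ^ 7 * M ^ 77) ≤ 1 := by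
    have h1 : (1 : ℝ) ≤ M ^ 77 := one_le_pow₀ hM1
    rw [div_le_one (by positivity)]
    linarith
  have h := hI r χ ((σ₁ : ℂ) + (t : ℂ) * Complex.I) M (1 / (2 ^ 7 * M ^ 77)) (by rw [hre]; exact hσ)
    hM1 (by positivity) hlam1 (fun j hj => (hUB.2 r hr hR2).1 χ hχ j hj _ (by rw [hre]; exact hσ)
      (by rw [hre]; exact hσ2) (by rw [him]; linarith)) hg
  refine h.trans (le_of_eq ?_)
  have e : M ^ 2 / (1 / (2 ^ 7 * M ^ 77)) = 2 ^ 7 * M ^ 79 := by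
    rw [div_div_eq_mul_div, div_one]
    ring
  rw [e, mul_pow, ← pow_mul, ← pow_mul]
  ring

end Pool.Agent.FCT
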