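import Pool.Agent.FCT.St2
import Pool.Agent.FXD.Srv

set_option autoImplicit false

/-!
FCT, part III, module CNTX: the number of classes for which one resp. two given sites survive.
-/

namespace Pool.Agent.FCT

open Finset Pool.Agent.Lib_helper9.LG

namespace CNTXh

/-- The local factor. -/
noncomputable def lf (n : ℤ) (p : ℕ) : ℝ := if (p : ℤ) ∣ n then (p : ℝ) / ((p : ℝ) - 1) else 1

lemma p_gt {p : ℕ} (hp : p.Prime) : (1 : ℝ) < p := by exact_mod_cast hp.one_lt

lemma ratio_ge {p : ℕ} (hp : p.Prime) : 1 ≤ (p : ℝ) / ((p : ℝ) - 1) := by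
  have := p_gt hp
  rw [le_div_iff₀ (by linarith)]
  linarith

lemma lf_ge {p : ℕ} (hp : p.Prime) (n : ℤ) : 1 ≤ lf n p := by
  unfold lf
  split_ifs
  · exact ratio_ge hp
  · exact le_rfl

lemma gq_eq (n : ℕ) (hn : n ≠ 0) : gq n = ∏ p ∈ n.primeFactors, (p : ℝ) / ((p : ℝ) - 1) := by
  have h1 := Nat.totient_mul_prod_primeFactors n
  have h2 : ((n.totient : ℕ) : ℝ) * ∏ p ∈ n.primeFactors, (p : ℝ) =
      (n : ℝ) * ∏ p ∈ n.primeFactors, ((p : ℝ) - 1) := by
    have h3 : ((n.totient * ∏ p ∈ n.primeFactors, p : ℕ) : ℝ) =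
        ((n * ∏ p ∈ n.primeFactors, (p - 1) : ℕ) : ℝ) := by rw [h1]
    push_cast at h3
    rw [h3]
    congr 1
    refine Finset.prod_congr rfl fun p hp => ?_
    rw [Nat.cast_sub (Nat.prime_of_mem_primeFactors hp).one_le, Nat.cast_one]
  have h4 : 0 < ∏ p ∈ n.primeFactors, ((p : ℝ) - 1) :=
    Finset.prod_pos fun p hp => by linarith [p_gt (Nat.prime_of_mem_primeFactors hp)]
  have h5 : (0 : ℝ) < n.totient := by exact_mod_cast Nat.totient_pos.2 (Nat.pos_of_ne_zero hn)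
  rw [Finset.prod_div_distrib]
  unfold gq
  rw [div_eq_div_iff h5.ne' h4.ne']
  linarith

lemma prod_lf_le {P : Finset ℕ} (hP : ∀ p ∈ P, p.Prime) {n : ℕ} (hn : n ≠ 0) {m : ℤ}
    (hm : m.natAbs = n) : ∏ p ∈ P, lf m p ≤ gq n := by
  have h1 : ∏ p ∈ P, lf m p =
      ∏ p ∈ P.filter (fun p : ℕ => (p : ℤ) ∣ m), (p : ℝ) / ((p : ℝ) - 1) := by
    rw [Finset.prod_filter]
    rfl
  rw [h1, gq_eq n hn]
  apply Finset.prod_le_prod_of_subset_of_one_le
  · intro p hp
    rw [mem_filter] at hp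
    rw [Nat.mem_primeFactors]
    refine ⟨hP p hp.1, ?_, hn⟩
    rw [← hm]
    exact Int.natCast_dvd.1 hp.2
  · intro p hp
    exact zero_le_one.trans (ratio_ge (hP p (mem_filter.1 hp).1))
  · intro p hp _
    exact ratio_ge (Nat.prime_of_mem_primeFactors hp)

lemma totient_sf {W : ℕ} (hW : Squarefree W) :
    (W.totient : ℝ) = ∏ p ∈ W.primeFactors, ((p : ℝ) - 1) := by
  have hW0 : W ≠ 0 := hW.ne_zero
  have h1 := Nat.totient_mul_prod_primeFactors W
  rw [Nat.prod_primeFactors_of_squarefree hW, mul_comm] at h1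
  have h2 := Nat.eq_of_mul_eq_mul_left (Nat.pos_of_ne_zero hW0) h1
  rw [h2]
  push_cast
  refine Finset.prod_congr rfl fun p hp => ?_
  rw [Nat.cast_sub (Nat.prime_of_mem_primeFactors hp).one_le, Nat.cast_one]

lemma cop_iff {W : ℕ} (hW : W ≠ 0) (z : ℤ) :
    IsCoprime z (W : ℤ) ↔ ∀ p ∈ W.primeFactors, ¬ (p : ℤ) ∣ z := by
  rw [Int.isCoprime_iff_gcd_eq_one]
  change Nat.Coprime z.natAbs W ↔ _
  rw [← not_iff_not, Nat.Prime.not_coprime_iff_dvd]
  push Not
  constructor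
  · rintro ⟨p, hp, h1, h2⟩
    exact ⟨p, Nat.mem_primeFactors.2 ⟨hp, h2, hW⟩, Int.natCast_dvd.2 h1⟩
  · rintro ⟨p, hp, h1⟩
    exact ⟨p, Nat.prime_of_mem_primeFactors hp, Int.natCast_dvd.1 h1,
      Nat.dvd_of_mem_primeFactors hp⟩

lemma sum_le {p : ℕ} {f : ℕ → ℝ} (hf : ∀ y, f y ≤ 1) {E : Finset ℕ} (hE : E ⊆ range p)
    (h0 : ∀ y ∈ E, f y = 0) : ∑ y ∈ range p, f y ≤ (p : ℝ) - E.card := by
  rw [← Finset.sum_sdiff hE, Finset.sum_eq_zero h0, add_zero]
  have h1 : ∑ y ∈ range p \ E, f y ≤ ((range p \ E).card : ℝ) := by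
    calc ∑ y ∈ range p \ E, f y ≤ ∑ _y ∈ range p \ E, (1 : ℝ) := Finset.sum_le_sum fun y _ => hf y
      _ = _ := by simp
  have h2 : (range p \ E).card + E.card = p := by
    rw [Finset.card_sdiff_add_card_eq_card hE, card_range]
  have h3 : (((range p \ E).card : ℕ) : ℝ) + E.card = p := by exact_mod_cast h2
  linarith

/-- The root modulo `p`. -/
lemma root {p : ℕ} (hp : p.Prime) (a c : ℤ) (hc : ¬ (p : ℤ) ∣ c) :
    ∃ y ∈ range p, (p : ℤ) ∣ a + c * (y : ℤ) := by
  have : Fact p.Prime := ⟨hp⟩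
  have hc0 : (c : ZMod p) ≠ 0 := fun h => hc ((ZMod.intCast_zmod_eq_zero_iff_dvd c p).1 h)
  refine ⟨(-(a : ZMod p) * (c : ZMod p)⁻¹).val, mem_range.2 (ZMod.val_lt _), ?_⟩
  rw [← ZMod.intCast_zmod_eq_zero_iff_dvd]
  push_cast
  rw [ZMod.natCast_zmod_val]
  field_simp
  ring

open Classical in
/-- One site. -/
noncomputable def f1 (a c : ℤ) (p y : ℕ) : ℝ := if ¬ (p : ℤ) ∣ a + c * (y : ℤ) then 1 else 0

open Classical in
/-- Two sites. -/
noncomputable def f2 (a c k : ℤ) (p y : ℕ) : ℝ :=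
  if ¬ (p : ℤ) ∣ a + c * (y : ℤ) ∧ ¬ (p : ℤ) ∣ a + k * (y : ℤ) then 1 else 0

lemma per (a c : ℤ) (p y : ℕ) :
    (p : ℤ) ∣ a + c * ((y + p : ℕ) : ℤ) ↔ (p : ℤ) ∣ a + c * (y : ℤ) := by
  have e : a + c * ((y + p : ℕ) : ℤ) = (a + c * (y : ℤ)) + p * c := by
    push_cast
    ring
  rw [e]
  exact dvd_add_left (dvd_mul_right _ _)

lemma f1_per (a c : ℤ) (p y : ℕ) : f1 a c p (y + p) = f1 a c p y := by
  unfold f1
  simp only [per]

lemma f2_per (a c k : ℤ) (p y : ℕ) : f2 a c k p (y + p) = f2 a c k p y := by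
  unfold f2
  simp only [per]

lemma f1_le (a c : ℤ) (p y : ℕ) : f1 a c p y ≤ 1 := by
  unfold f1
  split_ifs <;> norm_num

lemma f2_le (a c k : ℤ) (p y : ℕ) : f2 a c k p y ≤ 1 := by
  unfold f2
  split_ifs <;> norm_num

lemma f1_nonneg (a c : ℤ) (p y : ℕ) : 0 ≤ f1 a c p y := by
  unfold f1
  split_ifs <;> norm_num

lemma f2_nonneg (a c k : ℤ) (p y : ℕ) : 0 ≤ f2 a c k p y := by
  unfold f2
  split_ifs <;> norm_num

lemma local1 {p : ℕ} (hp : p.Prime) (a c : ℤ) :
    ∑ y ∈ range p, f1 a c p y ≤ ((p : ℝ) - 1) * lf c p := by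
  have hp1 := p_gt hp
  unfold lf
  by_cases hc : (p : ℤ) ∣ c
  · rw [if_pos hc]
    have h1 := sum_le (p := p) (f := f1 a c p) (f1_le a c p) (E := ∅) (empty_subset _) (by simp)
    rw [card_empty, Nat.cast_zero, sub_zero] at h1
    have h2 : ((p : ℝ) - 1) * ((p : ℝ) / ((p : ℝ) - 1)) = p := by
      have : (p : ℝ) - 1 ≠ 0 := by linarith
      field_simp
    rw [h2]
    exact h1
  · rw [if_neg hc, mul_one]
    obtain ⟨y, hy, hy2⟩ := root hp a c hc
    have h1 := sum_le (p := p) (f := f1 a c p) (f1_le a c p) (E := {y})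
      (singleton_subset_iff.2 hy) (by
        intro z hz
        rw [mem_singleton] at hz
        rw [hz]
        unfold f1
        rw [if_neg (not_not.2 hy2)])
    rw [card_singleton, Nat.cast_one] at h1
    exact h1

lemma local2 {p : ℕ} (hp : p.Prime) (a c k : ℤ) (ha : ¬ (p : ℤ) ∣ a) :
    (∑ y ∈ range p, f2 a c k p y) * p ≤
      ((p : ℝ) - 1) ^ 2 * (lf c p * lf k p * lf (k - c) p) := by
  have hp1 := p_gt hp
  have hp0 : (p : ℝ) - 1 ≠ 0 := by linarith
  have hpp : (0 : ℝ) < (p : ℝ) - 1 := by linarith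
  have hone : ∀ y ∈ range p, ((p : ℤ) ∣ a + c * (y : ℤ) ∨ (p : ℤ) ∣ a + k * (y : ℤ)) →
      ∑ y ∈ range p, f2 a c k p y ≤ (p : ℝ) - 1 := by
    intro y hy hy2
    have h1 := sum_le (p := p) (f := f2 a c k p) (f2_le a c k p) (E := {y})
      (singleton_subset_iff.2 hy) (by
        intro z hz
        rw [mem_singleton] at hz
        rw [hz]
        unfold f2
        rw [if_neg]
        tauto)
    rw [card_singleton, Nat.cast_one] at h1
    exact h1
  have hl := lf_ge hp (k - c)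
  by_cases hc : (p : ℤ) ∣ c
  · have e1 : lf c p = (p : ℝ) / ((p : ℝ) - 1) := if_pos hc
    by_cases hk : (p : ℤ) ∣ k
    · have e2 : lf k p = (p : ℝ) / ((p : ℝ) - 1) := if_pos hk
      have e3 : lf (k - c) p = (p : ℝ) / ((p : ℝ) - 1) := if_pos (dvd_sub hk hc)
      rw [e1, e2, e3]
      have h1 := sum_le (p := p) (f := f2 a c k p) (f2_le a c k p) (E := ∅) (empty_subset _)
        (by simp)
      rw [card_empty, Nat.cast_zero, sub_zero] at h1
      have h2 : ((p : ℝ) - 1) ^ 2 * ((p : ℝ) / ((p : ℝ) - 1) * ((p : ℝ) / ((p : ℝ) - 1)) *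
          ((p : ℝ) / ((p : ℝ) - 1))) = (p : ℝ) * p * ((p : ℝ) / ((p : ℝ) - 1)) := by
        field_simp
      rw [h2]
      have h3 := ratio_ge hp
      nlinarith [mul_le_mul_of_nonneg_right h1 (by linarith : (0 : ℝ) ≤ p)]
    · have e2 : lf k p = 1 := if_neg hk
      rw [e1, e2]
      obtain ⟨y, hy, hy2⟩ := root hp a k hk
      have h1 := hone y hy (Or.inr hy2)
      have h2 : ((p : ℝ) - 1) ^ 2 * ((p : ℝ) / ((p : ℝ) - 1) * 1 * lf (k - c) p) =
          ((p : ℝ) - 1) * p * lf (k - c) p := by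
        field_simp
      rw [h2]
      nlinarith [mul_le_mul_of_nonneg_right h1 (by linarith : (0 : ℝ) ≤ p),
        mul_pos hpp (by linarith : (0 : ℝ) < p)]
  · have e1 : lf c p = 1 := if_neg hc
    obtain ⟨y, hy, hy2⟩ := root hp a c hc
    have h1 := hone y hy (Or.inl hy2)
    by_cases hk : (p : ℤ) ∣ k
    · have e2 : lf k p = (p : ℝ) / ((p : ℝ) - 1) := if_pos hk
      rw [e1, e2]
      have h2 : ((p : ℝ) - 1) ^ 2 * (1 * ((p : ℝ) / ((p : ℝ) - 1)) * lf (k - c) p) =
          ((p : ℝ) - 1) * p * lf (k - c) p := by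
        field_simp
      rw [h2]
      nlinarith [mul_le_mul_of_nonneg_right h1 (by linarith : (0 : ℝ) ≤ p),
        mul_pos hpp (by linarith : (0 : ℝ) < p)]
    · have e2 : lf k p = 1 := if_neg hk
      rw [e1, e2]
      by_cases hkc : (p : ℤ) ∣ k - c
      · have e3 : lf (k - c) p = (p : ℝ) / ((p : ℝ) - 1) := if_pos hkc
        rw [e3]
        have h2 : ((p : ℝ) - 1) ^ 2 * (1 * 1 * ((p : ℝ) / ((p : ℝ) - 1))) =
            ((p : ℝ) - 1) * p := by
          field_simp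
        rw [h2]
        exact mul_le_mul_of_nonneg_right h1 (by linarith)
      · have e3 : lf (k - c) p = 1 := if_neg hkc
        rw [e3]
        obtain ⟨z, hz, hz2⟩ := root hp a k hk
        have hyz : y ≠ z := by
          intro h
          rw [← h] at hz2
          have h3 : (p : ℤ) ∣ (k - c) * (y : ℤ) := by
            have := dvd_sub hz2 hy2
            have e : a + k * (y : ℤ) - (a + c * (y : ℤ)) = (k - c) * (y : ℤ) := by ring
            rwa [e] at this
          rcases (Nat.prime_iff_prime_int.1 hp).dvd_or_dvd h3 with h4 | h4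
          · exact hkc h4
          · exact ha ((dvd_add_left (h4.mul_left c)).1 hy2)
        have h4 := sum_le (p := p) (f := f2 a c k p) (f2_le a c k p) (E := {y, z})
          (by
            intro w hw
            rw [mem_insert, mem_singleton] at hw
            rcases hw with rfl | rfl
            · exact hy
            · exact hz)
          (by
            intro w hw
            rw [mem_insert, mem_singleton] at hw
            unfold f2
            rw [if_neg]
            rcases hw with rfl | rfl <;> tauto)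
        rw [card_pair hyz] at h4
        push_cast at h4
        nlinarith [mul_le_mul_of_nonneg_right h4 (by linarith : (0 : ℝ) ≤ p)]

lemma card1 {W : ℕ} (hW : Squarefree W) (a c : ℤ)
    [DecidablePred fun b : ℕ => IsCoprime (a + c * (b : ℤ)) (W : ℤ)] :
    (((range W).filter (fun b : ℕ => IsCoprime (a + c * (b : ℤ)) (W : ℤ))).card : ℝ) =
      ∏ p ∈ W.primeFactors, ∑ y ∈ range p, f1 a c p y := by
  classical
  have hP : ∀ p ∈ W.primeFactors, p.Prime := fun p hp => Nat.prime_of_mem_primeFactors hp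
  rw [← Avg.full_sum (b := 0) (W := 1) (P := W.primeFactors) (F := fun p y => f1 a c p y)
    (fun p hp => ⟨hP p hp, fun h => (hP p hp).one_lt.ne' (Nat.dvd_one.1 h)⟩)
    (fun p _ y => f1_per a c p y), Nat.prod_primeFactors_of_squarefree hW, Finset.card_filter]
  push_cast
  apply Finset.sum_congr rfl
  intro b _
  simp only [zero_add, one_mul, f1]
  rw [Pool.Agent.FXD.prod_ind (fun p : ℕ => ¬ (p : ℤ) ∣ a + c * (b : ℤ))]
  simp only [cop_iff hW.ne_zero]

lemma card2 {W : ℕ} (hW : Squarefree W) (a c k : ℤ)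
    [DecidablePred fun b : ℕ => IsCoprime (a + c * (b : ℤ)) (W : ℤ) ∧
      IsCoprime (a + k * (b : ℤ)) (W : ℤ)] :
    (((range W).filter (fun b : ℕ => IsCoprime (a + c * (b : ℤ)) (W : ℤ) ∧
      IsCoprime (a + k * (b : ℤ)) (W : ℤ))).card : ℝ) =
      ∏ p ∈ W.primeFactors, ∑ y ∈ range p, f2 a c k p y := by
  classical
  have hP : ∀ p ∈ W.primeFactors, p.Prime := fun p hp => Nat.prime_of_mem_primeFactors hp
  rw [← Avg.full_sum (b := 0) (W := 1) (P := W.primeFactors) (F := fun p y => f2 a c k p y)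
    (fun p hp => ⟨hP p hp, fun h => (hP p hp).one_lt.ne' (Nat.dvd_one.1 h)⟩)
    (fun p _ y => f2_per a c k p y), Nat.prod_primeFactors_of_squarefree hW, Finset.card_filter]
  push_cast
  apply Finset.sum_congr rfl
  intro b _
  simp only [zero_add, one_mul, f2]
  rw [Pool.Agent.FXD.prod_ind (fun p : ℕ => ¬ (p : ℤ) ∣ a + c * (b : ℤ) ∧
    ¬ (p : ℤ) ∣ a + k * (b : ℤ))]
  have e : (IsCoprime (a + c * (b : ℤ)) (W : ℤ) ∧ IsCoprime (a + k * (b : ℤ)) (W : ℤ)) ↔
      ∀ p ∈ W.primeFactors, ¬ (p : ℤ) ∣ a + c * (b : ℤ) ∧ ¬ (p : ℤ) ∣ a + k * (b : ℤ) := by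
    rw [cop_iff hW.ne_zero, cop_iff hW.ne_zero]
    exact ⟨fun h p hp => ⟨h.1 p hp, h.2 p hp⟩, fun h => ⟨fun p hp => (h p hp).1,
      fun p hp => (h p hp).2⟩⟩
  by_cases h : IsCoprime (a + c * (b : ℤ)) (W : ℤ) ∧ IsCoprime (a + k * (b : ℤ)) (W : ℤ)
  · rw [if_pos h, if_pos (e.1 h)]
  · rw [if_neg h, if_neg (fun h1 => h (e.2 h1))]

end CNTXh

open CNTXh in
theorem t_CNTX : S_CNTX := by
  intro a W r hW hcop hr
  have hP : ∀ p ∈ W.primeFactors, p.Prime := fun p hp => Nat.prime_of_mem_primeFactors hp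
  have hrn : ((r : ℤ)).natAbs = r := Int.natAbs_natCast r
  constructor
  · rw [card1 hW a r]
    calc ∏ p ∈ W.primeFactors, ∑ y ∈ range p, f1 a r p y
        ≤ ∏ p ∈ W.primeFactors, (((p : ℝ) - 1) * lf r p) :=
          Finset.prod_le_prod (fun p _ => Finset.sum_nonneg fun y _ => f1_nonneg a r p y)
            (fun p hp => local1 (hP p hp) a r)
      _ = (W.totient : ℝ) * ∏ p ∈ W.primeFactors, lf r p := by
          rw [Finset.prod_mul_distrib, totient_sf hW]
      _ ≤ (W.totient : ℝ) * gq r :=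
          mul_le_mul_of_nonneg_left (prod_lf_le hP hr hrn) (Nat.cast_nonneg _)
  · intro k hk hkr
    have ha : ∀ p ∈ W.primeFactors, ¬ (p : ℤ) ∣ a := (cop_iff hW.ne_zero a).1 hcop
    have hWp : (W : ℝ) = ∏ p ∈ W.primeFactors, (p : ℝ) := by
      have := Nat.prod_primeFactors_of_squarefree hW
      nth_rewrite 1 [← this]
      push_cast
      rfl
    have hl0 : ∀ m : ℤ, 0 ≤ ∏ p ∈ W.primeFactors, lf m p := fun m =>
      Finset.prod_nonneg fun p hp => zero_le_one.trans (lf_ge (hP p hp) m)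
    rw [card2 hW a r k]
    calc (∏ p ∈ W.primeFactors, ∑ y ∈ range p, f2 a r k p y) * W
        = ∏ p ∈ W.primeFactors, ((∑ y ∈ range p, f2 a r k p y) * p) := by
          rw [Finset.prod_mul_distrib, ← hWp]
      _ ≤ ∏ p ∈ W.primeFactors, (((p : ℝ) - 1) ^ 2 * (lf r p * lf k p * lf (k - r) p)) :=
          Finset.prod_le_prod
            (fun p _ => mul_nonneg (Finset.sum_nonneg fun y _ => f2_nonneg a r k p y)
              (Nat.cast_nonneg _))
            (fun p hp => local2 (hP p hp) a r k (ha p hp))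
      _ = (W.totient : ℝ) ^ 2 * ((∏ p ∈ W.primeFactors, lf r p) * (∏ p ∈ W.primeFactors, lf k p) *
            ∏ p ∈ W.primeFactors, lf (k - r) p) := by
          rw [Finset.prod_mul_distrib, Finset.prod_mul_distrib, Finset.prod_mul_distrib,
            Finset.prod_pow, totient_sf hW]
      _ ≤ (W.totient : ℝ) ^ 2 * (gq r * gq k.natAbs * gq (k - r).natAbs) := by
          have h1 := prod_lf_le hP hr hrn
          have h2 := prod_lf_le hP (Int.natAbs_ne_zero.2 hk) rfl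
          have h3 := prod_lf_le hP (Int.natAbs_ne_zero.2 (sub_ne_zero.2 hkr)) rfl
          refine mul_le_mul_of_nonneg_left ?_ (by positivity)
          exact mul_le_mul (mul_le_mul h1 h2 (hl0 _) ((hl0 _).trans h1)) h3 (hl0 _)
            (mul_nonneg ((hl0 _).trans h1) ((hl0 _).trans h2))

end Pool.Agent.FCT
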