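import Pool.Agent.FCT.St4
import Pool.Agent.FCT.CNTX

set_option autoImplicit false

/-!
FCT, part V, module CNTV: the number of classes for which one resp. two given sites survive, with the
classes coprime to `R` only (helper65; adapted from CNTX).
-/

namespace Pool.Agent.FCT

open Finset Pool.Agent.Lib_helper9.LG

namespace CNTVh

open CNTXh

/-- The local factor of `φ(R) / R`. -/
noncomputable def rf (R p : ℕ) : ℝ := if p ∣ R then ((p : ℝ) - 1) / p else 1

lemma rf_nonneg {p : ℕ} (hp : p.Prime) (R : ℕ) : 0 ≤ rf R p := by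
  have := p_gt hp
  unfold rf
  split_ifs
  · exact div_nonneg (by linarith) (by linarith)
  · exact zero_le_one

lemma prod_rf {W R : ℕ} (hW : W ≠ 0) (hR : R ≠ 0) (h : ∀ p : ℕ, p.Prime → p ∣ R → p ∣ W) :
    ∏ p ∈ W.primeFactors, rf R p = (R.totient : ℝ) / R := by
  have h1 : ∏ p ∈ W.primeFactors, rf R p =
      ∏ p ∈ W.primeFactors.filter (fun p : ℕ => p ∣ R), ((p : ℝ) - 1) / p := by
    rw [Finset.prod_filter]
    rfl
  have h2 : W.primeFactors.filter (fun p : ℕ => p ∣ R) = R.primeFactors := by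
    ext p
    simp only [mem_filter, Nat.mem_primeFactors]
    constructor
    · rintro ⟨⟨hp, -, -⟩, h3⟩
      exact ⟨hp, h3, hR⟩
    · rintro ⟨hp, h3, -⟩
      exact ⟨⟨hp, h p hp h3, hW⟩, h3⟩
  rw [h1, h2]
  have h3 := gq_eq R hR
  unfold gq at h3
  have h4 : (R.totient : ℝ) / R = ((R : ℝ) / R.totient)⁻¹ := by rw [inv_div]
  rw [h4, h3, ← Finset.prod_inv_distrib]
  refine Finset.prod_congr rfl fun p _ => ?_
  rw [inv_div]

open Classical in
/-- One site. -/
noncomputable def g1 (a c : ℤ) (R p y : ℕ) : ℝ :=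
  if ¬ (p : ℤ) ∣ a + c * (y : ℤ) ∧ (p ∣ R → ¬ p ∣ y) then 1 else 0

open Classical in
/-- Two sites. -/
noncomputable def g2 (a c b k : ℤ) (R p y : ℕ) : ℝ :=
  if (¬ (p : ℤ) ∣ a + c * (y : ℤ) ∧ (p ∣ R → ¬ p ∣ y)) ∧ ¬ (p : ℤ) ∣ b + k * (y : ℤ) then 1 else 0

lemma per0 (p y : ℕ) : p ∣ y + p ↔ p ∣ y := by simp

lemma g1_per (a c : ℤ) (R p y : ℕ) : g1 a c R p (y + p) = g1 a c R p y := by
  unfold g1
  simp only [per, per0]

lemma g2_per (a c b k : ℤ) (R p y : ℕ) : g2 a c b k R p (y + p) = g2 a c b k R p y := by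
  unfold g2
  simp only [per, per0]

lemma g1_le (a c : ℤ) (R p y : ℕ) : g1 a c R p y ≤ 1 := by
  unfold g1
  split_ifs <;> norm_num

lemma g2_le (a c b k : ℤ) (R p y : ℕ) : g2 a c b k R p y ≤ 1 := by
  unfold g2
  split_ifs <;> norm_num

lemma g1_nonneg (a c : ℤ) (R p y : ℕ) : 0 ≤ g1 a c R p y := by
  unfold g1
  split_ifs <;> norm_num

lemma g2_nonneg (a c b k : ℤ) (R p y : ℕ) : 0 ≤ g2 a c b k R p y := by
  unfold g2
  split_ifs <;> norm_num

/-! counts of excluded classes -/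

lemma cnt0 {p : ℕ} {f : ℕ → ℝ} (hf : ∀ y, f y ≤ 1) : ∑ y ∈ range p, f y ≤ (p : ℝ) := by
  have h := sum_le (p := p) hf (E := ∅) (empty_subset _) (by simp)
  rwa [card_empty, Nat.cast_zero, sub_zero] at h

lemma cnt1 {p : ℕ} {f : ℕ → ℝ} (hf : ∀ y, f y ≤ 1) {y : ℕ} (hy : y ∈ range p) (h0 : f y = 0) :
    ∑ y ∈ range p, f y ≤ (p : ℝ) - 1 := by
  have h := sum_le (p := p) hf (E := {y}) (singleton_subset_iff.2 hy) (by
    intro z hz
    rw [mem_singleton] at hz
    rw [hz, h0])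
  rwa [card_singleton, Nat.cast_one] at h

lemma cnt2 {p : ℕ} {f : ℕ → ℝ} (hf : ∀ y, f y ≤ 1) {y z : ℕ} (hy : y ∈ range p) (hz : z ∈ range p)
    (hyz : y ≠ z) (h0 : f y = 0) (h1 : f z = 0) :
    ∑ y ∈ range p, f y ≤ (p : ℝ) - 2 := by
  have h := sum_le (p := p) hf (E := {y, z})
    (by
      intro w hw
      rw [mem_insert, mem_singleton] at hw
      rcases hw with rfl | rfl
      · exact hy
      · exact hz)
    (by
      intro w hw
      rw [mem_insert, mem_singleton] at hw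
      rcases hw with rfl | rfl
      · exact h0
      · exact h1)
  rw [card_pair hyz] at h
  exact_mod_cast h

lemma cnt3 {p : ℕ} {f : ℕ → ℝ} (hf : ∀ y, f y ≤ 1) {y z w : ℕ} (hy : y ∈ range p)
    (hz : z ∈ range p) (hw : w ∈ range p) (hyz : y ≠ z) (hyw : y ≠ w) (hzw : z ≠ w)
    (h0 : f y = 0) (h1 : f z = 0) (h2 : f w = 0) :
    ∑ y ∈ range p, f y ≤ (p : ℝ) - 3 := by
  have h := sum_le (p := p) hf (E := {y, z, w})
    (by
      intro v hv
      rw [mem_insert, mem_insert, mem_singleton] at hv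
      rcases hv with rfl | rfl | rfl
      · exact hy
      · exact hz
      · exact hw)
    (by
      intro v hv
      rw [mem_insert, mem_insert, mem_singleton] at hv
      rcases hv with rfl | rfl | rfl
      · exact h0
      · exact h1
      · exact h2)
  have e : ({y, z, w} : Finset ℕ).card = 3 := Finset.card_eq_three.2 ⟨y, z, w, hyz, hyw, hzw, rfl⟩
  rw [e] at h
  exact_mod_cast h

/-! the final inequalities -/

lemma fin0 {q S T : ℝ} (hq : 1 < q) (hS : S ≤ q) (hT : q / (q - 1) * (q / (q - 1)) ≤ T) :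
    S * q ≤ (q - 1) ^ 2 * T := by
  have h0 : q - 1 ≠ 0 := by linarith
  calc S * q ≤ q * q := mul_le_mul_of_nonneg_right hS (by linarith)
    _ = (q - 1) ^ 2 * (q / (q - 1) * (q / (q - 1))) := by field_simp
    _ ≤ _ := mul_le_mul_of_nonneg_left hT (by positivity)

lemma fin1 {q S T : ℝ} (hq : 1 < q) (hS : S ≤ q - 1) (hT : q / (q - 1) ≤ T) :
    S * q ≤ (q - 1) ^ 2 * T := by
  have h0 : q - 1 ≠ 0 := by linarith
  calc S * q ≤ (q - 1) * q := mul_le_mul_of_nonneg_right hS (by linarith)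
    _ = (q - 1) ^ 2 * (q / (q - 1)) := by field_simp
    _ ≤ _ := mul_le_mul_of_nonneg_left hT (by positivity)

lemma fin2 {q S T : ℝ} (hq : 1 < q) (hS : S ≤ q - 2) (hT : 1 ≤ T) :
    S * q ≤ (q - 1) ^ 2 * T := by
  calc S * q ≤ (q - 2) * q := mul_le_mul_of_nonneg_right hS (by linarith)
    _ ≤ (q - 1) ^ 2 * 1 := by nlinarith
    _ ≤ _ := mul_le_mul_of_nonneg_left hT (by positivity)

lemma fin3 {q S T : ℝ} (hq : 1 < q) (hS : S ≤ q - 3) (hT : (q - 1) / q ≤ T) :
    S * q ≤ (q - 1) ^ 2 * T := by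
  have h0 : q ≠ 0 := by linarith
  have h1 : (0 : ℝ) < q := by linarith
  have e : (q - 3) * q ≤ (q - 1) ^ 2 * ((q - 1) / q) := by
    rw [← mul_div_assoc, le_div_iff₀ h1]
    nlinarith
  calc S * q ≤ (q - 3) * q := mul_le_mul_of_nonneg_right hS (by linarith)
    _ ≤ (q - 1) ^ 2 * ((q - 1) / q) := e
    _ ≤ _ := mul_le_mul_of_nonneg_left hT (by positivity)

/-! the local bounds -/

lemma zmem {p : ℕ} (hp : p.Prime) : (0 : ℕ) ∈ range p := mem_range.2 hp.pos

lemma g1_root {a c : ℤ} {R p y : ℕ} (h : (p : ℤ) ∣ a + c * (y : ℤ)) : g1 a c R p y = 0 := by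
  unfold g1
  rw [if_neg]
  tauto

lemma g1_zero {a c : ℤ} {R p : ℕ} (h : p ∣ R) : g1 a c R p 0 = 0 := by
  unfold g1
  rw [if_neg]
  intro h1
  exact h1.2 h (dvd_zero p)

lemma g2_root1 {a c b k : ℤ} {R p y : ℕ} (h : (p : ℤ) ∣ a + c * (y : ℤ)) :
    g2 a c b k R p y = 0 := by
  unfold g2
  rw [if_neg]
  tauto

lemma g2_root2 {a c b k : ℤ} {R p y : ℕ} (h : (p : ℤ) ∣ b + k * (y : ℤ)) :
    g2 a c b k R p y = 0 := by
  unfold g2
  rw [if_neg]
  tauto

lemma g2_zero {a c b k : ℤ} {R p : ℕ} (h : p ∣ R) : g2 a c b k R p 0 = 0 := by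
  unfold g2
  rw [if_neg]
  intro h1
  exact h1.1.2 h (dvd_zero p)

lemma root_ne {p y : ℕ} {a c : ℤ} (ha : ¬ (p : ℤ) ∣ a) (h : (p : ℤ) ∣ a + c * (y : ℤ)) :
    0 ≠ y := by
  intro h0
  rw [← h0] at h
  simp at h
  exact ha h

lemma loc1 {p : ℕ} (hp : p.Prime) (a r : ℤ) (R : ℕ) (har : ¬ ((p : ℤ) ∣ a ∧ (p : ℤ) ∣ r))
    (haR : (p : ℤ) ∣ a → p ∣ R) :
    ∑ y ∈ range p, g1 a r R p y ≤ ((p : ℝ) - 1) * (rf R p * lf a p * lf r p) := by
  have hq := p_gt hp
  have hq0 : (0 : ℝ) < p := by linarith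
  have hu := ratio_ge hp
  have hn1 : (p : ℝ) - 1 ≠ 0 := by linarith
  have hlr := lf_ge hp r
  by_cases hR : p ∣ R
  · have e1 : rf R p = ((p : ℝ) - 1) / p := if_pos hR
    have hz : ∑ y ∈ range p, g1 a r R p y ≤ (p : ℝ) - 1 :=
      cnt1 (g1_le a r R p) (zmem hp) (g1_zero hR)
    by_cases ha : (p : ℤ) ∣ a
    · have e2 : lf a p = (p : ℝ) / ((p : ℝ) - 1) := if_pos ha
      rw [e1, e2]
      have e3 : ((p : ℝ) - 1) * (((p : ℝ) - 1) / p * ((p : ℝ) / ((p : ℝ) - 1)) * lf r p) =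
          ((p : ℝ) - 1) * lf r p := by
        field_simp
      rw [e3]
      nlinarith
    · have e2 : lf a p = 1 := if_neg ha
      rw [e1, e2, mul_one]
      by_cases hr : (p : ℤ) ∣ r
      · have e3 : lf r p = (p : ℝ) / ((p : ℝ) - 1) := if_pos hr
        rw [e3]
        have e4 : ((p : ℝ) - 1) * (((p : ℝ) - 1) / p * ((p : ℝ) / ((p : ℝ) - 1))) =
            (p : ℝ) - 1 := by
          field_simp
        rw [e4]
        exact hz
      · have e3 : lf r p = 1 := if_neg hr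
        rw [e3, mul_one]
        obtain ⟨y, hy, hy2⟩ := root hp a r hr
        have h1 := cnt2 (g1_le a r R p) (zmem hp) hy (root_ne ha hy2) (g1_zero hR) (g1_root hy2)
        refine h1.trans ?_
        rw [← mul_div_assoc, le_div_iff₀ hq0]
        nlinarith
  · have e1 : rf R p = 1 := if_neg hR
    have ha : ¬ (p : ℤ) ∣ a := fun h => hR (haR h)
    have e2 : lf a p = 1 := if_neg ha
    rw [e1, e2, one_mul, one_mul]
    by_cases hr : (p : ℤ) ∣ r
    · have e3 : lf r p = (p : ℝ) / ((p : ℝ) - 1) := if_pos hr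
      rw [e3]
      have e4 : ((p : ℝ) - 1) * ((p : ℝ) / ((p : ℝ) - 1)) = p := by field_simp
      rw [e4]
      exact cnt0 (g1_le a r R p)
    · have e3 : lf r p = 1 := if_neg hr
      rw [e3, mul_one]
      obtain ⟨y, hy, hy2⟩ := root hp a r hr
      exact cnt1 (g1_le a r R p) hy (g1_root hy2)

lemma roots_ne {p y z : ℕ} {a r b k : ℤ} (h : ¬ (p : ℤ) ∣ a * k - r * b)
    (hy : (p : ℤ) ∣ a + r * (y : ℤ)) (hz : (p : ℤ) ∣ b + k * (z : ℤ)) : y ≠ z := by
  intro hyz
  rw [← hyz] at hz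
  apply h
  have h1 := dvd_sub (hy.mul_left k) (hz.mul_left r)
  have e : k * (a + r * (y : ℤ)) - r * (b + k * (y : ℤ)) = a * k - r * b := by ring
  rwa [e] at h1

lemma loc2 {p : ℕ} (hp : p.Prime) (a r b k : ℤ) (R : ℕ) (n : ℤ)
    (har : ¬ ((p : ℤ) ∣ a ∧ (p : ℤ) ∣ r)) (hbk : ¬ ((p : ℤ) ∣ b ∧ (p : ℤ) ∣ k))
    (haR : (p : ℤ) ∣ a → p ∣ R) (hbR : (p : ℤ) ∣ b → p ∣ R)
    (hn : ¬ (p : ℤ) ∣ a → ¬ (p : ℤ) ∣ b → (p : ℤ) ∣ a * k - r * b → (p : ℤ) ∣ n) :
    (∑ y ∈ range p, g2 a r b k R p y) * p ≤ ((p : ℝ) - 1) ^ 2 *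
      (rf R p * (lf a p * lf b p) * (lf r p * lf k p * lf n p)) := by
  have hq := p_gt hp
  have hq0 : (0 : ℝ) < p := by linarith
  have hu := ratio_ge hp
  have hn1 : (p : ℝ) - 1 ≠ 0 := by linarith
  obtain ⟨u, hue⟩ : ∃ u : ℝ, u = (p : ℝ) / ((p : ℝ) - 1) := ⟨_, rfl⟩
  have hui : ((p : ℝ) - 1) / p = u⁻¹ := by rw [hue, inv_div]
  rw [← hue] at hu
  have hu0 : 0 < u := by linarith
  have hlr := lf_ge hp r
  have hlk := lf_ge hp k
  have hln := lf_ge hp n
  have hle := g2_le a r b k R p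
  have m1 : ∀ {x y : ℝ}, 1 ≤ x → 1 ≤ y → 1 ≤ x * y := fun hx hy => by nlinarith
  have one_u : ∀ {x : ℝ}, 1 ≤ x → u ≤ u * x := fun hx => by nlinarith
  by_cases hR : p ∣ R
  · have e1 : rf R p = u⁻¹ := by rw [← hui]; exact if_pos hR
    have hz1 : ∑ y ∈ range p, g2 a r b k R p y ≤ (p : ℝ) - 1 := cnt1 hle (zmem hp) (g2_zero hR)
    by_cases ha : (p : ℤ) ∣ a
    · have e2 : lf a p = u := by rw [hue]; exact if_pos ha
      by_cases hb : (p : ℤ) ∣ b
      · have e3 : lf b p = u := by rw [hue]; exact if_pos hb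
        apply fin1 hq hz1
        rw [e1, e2, e3, ← hue]
        have e4 : u⁻¹ * (u * u) * (lf r p * lf k p * lf n p) =
            u * (lf r p * lf k p * lf n p) := by
          field_simp
        rw [e4]
        exact one_u (m1 (m1 hlr hlk) hln)
      · have e3 : lf b p = 1 := if_neg hb
        by_cases hk : (p : ℤ) ∣ k
        · have e5 : lf k p = u := by rw [hue]; exact if_pos hk
          apply fin1 hq hz1
          rw [e1, e2, e3, e5, ← hue]
          have e4 : u⁻¹ * (u * 1) * (lf r p * u * lf n p) = u * (lf r p * lf n p) := by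
            field_simp
          rw [e4]
          exact one_u (m1 hlr hln)
        · obtain ⟨z, hz, hz2⟩ := root hp b k hk
          apply fin2 hq (cnt2 hle (zmem hp) hz (root_ne hb hz2) (g2_zero hR) (g2_root2 hz2))
          rw [e1, e2, e3]
          have e4 : u⁻¹ * (u * 1) * (lf r p * lf k p * lf n p) = lf r p * lf k p * lf n p := by
            field_simp
          rw [e4]
          exact m1 (m1 hlr hlk) hln
    · have e2 : lf a p = 1 := if_neg ha
      by_cases hb : (p : ℤ) ∣ b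
      · have e3 : lf b p = u := by rw [hue]; exact if_pos hb
        by_cases hr : (p : ℤ) ∣ r
        · have e5 : lf r p = u := by rw [hue]; exact if_pos hr
          apply fin1 hq hz1
          rw [e1, e2, e3, e5, ← hue]
          have e4 : u⁻¹ * (1 * u) * (u * lf k p * lf n p) = u * (lf k p * lf n p) := by
            field_simp
          rw [e4]
          exact one_u (m1 hlk hln)
        · obtain ⟨z, hz, hz2⟩ := root hp a r hr
          apply fin2 hq (cnt2 hle (zmem hp) hz (root_ne ha hz2) (g2_zero hR) (g2_root1 hz2))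
          rw [e1, e2, e3]
          have e4 : u⁻¹ * (1 * u) * (lf r p * lf k p * lf n p) = lf r p * lf k p * lf n p := by
            field_simp
          rw [e4]
          exact m1 (m1 hlr hlk) hln
      · have e3 : lf b p = 1 := if_neg hb
        rw [e1, e2, e3, mul_one, mul_one]
        by_cases hr : (p : ℤ) ∣ r
        · have e5 : lf r p = u := by rw [hue]; exact if_pos hr
          by_cases hk : (p : ℤ) ∣ k
          · have e6 : lf k p = u := by rw [hue]; exact if_pos hk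
            apply fin1 hq hz1
            rw [e5, e6, ← hue]
            have e4 : u⁻¹ * (u * u * lf n p) = u * lf n p := by field_simp
            rw [e4]
            exact one_u hln
          · obtain ⟨z, hz, hz2⟩ := root hp b k hk
            apply fin2 hq (cnt2 hle (zmem hp) hz (root_ne hb hz2) (g2_zero hR) (g2_root2 hz2))
            rw [e5]
            have e4 : u⁻¹ * (u * lf k p * lf n p) = lf k p * lf n p := by field_simp
            rw [e4]
            exact m1 hlk hln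
        · obtain ⟨y, hy, hy2⟩ := root hp a r hr
          by_cases hk : (p : ℤ) ∣ k
          · have e6 : lf k p = u := by rw [hue]; exact if_pos hk
            apply fin2 hq (cnt2 hle (zmem hp) hy (root_ne ha hy2) (g2_zero hR) (g2_root1 hy2))
            rw [e6]
            have e4 : u⁻¹ * (lf r p * u * lf n p) = lf r p * lf n p := by field_simp
            rw [e4]
            exact m1 hlr hln
          · obtain ⟨z, hz, hz2⟩ := root hp b k hk
            by_cases hd : (p : ℤ) ∣ a * k - r * b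
            · have e7 : lf n p = u := by rw [hue]; exact if_pos (hn ha hb hd)
              apply fin2 hq (cnt2 hle (zmem hp) hy (root_ne ha hy2) (g2_zero hR) (g2_root1 hy2))
              rw [e7]
              have e4 : u⁻¹ * (lf r p * lf k p * u) = lf r p * lf k p := by field_simp
              rw [e4]
              exact m1 hlr hlk
            · apply fin3 hq (cnt3 hle (zmem hp) hy hz (root_ne ha hy2) (root_ne hb hz2)
                (roots_ne hd hy2 hz2) (g2_zero hR) (g2_root1 hy2) (g2_root2 hz2))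
              rw [hui]
              have h1 := m1 (m1 hlr hlk) hln
              have h2 : 0 ≤ u⁻¹ := by positivity
              exact le_mul_of_one_le_right h2 h1
  · have ha : ¬ (p : ℤ) ∣ a := fun h => hR (haR h)
    have hb : ¬ (p : ℤ) ∣ b := fun h => hR (hbR h)
    have e1 : rf R p = 1 := if_neg hR
    have e2 : lf a p = 1 := if_neg ha
    have e3 : lf b p = 1 := if_neg hb
    rw [e1, e2, e3, mul_one, mul_one, one_mul]
    by_cases hr : (p : ℤ) ∣ r
    · have e5 : lf r p = u := by rw [hue]; exact if_pos hr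
      by_cases hk : (p : ℤ) ∣ k
      · have e6 : lf k p = u := by rw [hue]; exact if_pos hk
        apply fin0 hq (cnt0 hle)
        rw [e5, e6, ← hue]
        exact le_mul_of_one_le_right (by positivity) hln
      · obtain ⟨z, hz, hz2⟩ := root hp b k hk
        apply fin1 hq (cnt1 hle hz (g2_root2 hz2))
        rw [e5, ← hue, mul_assoc]
        exact one_u (m1 hlk hln)
    · obtain ⟨y, hy, hy2⟩ := root hp a r hr
      by_cases hk : (p : ℤ) ∣ k
      · have e6 : lf k p = u := by rw [hue]; exact if_pos hk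
        apply fin1 hq (cnt1 hle hy (g2_root1 hy2))
        rw [e6, ← hue]
        have e4 : lf r p * u * lf n p = u * (lf r p * lf n p) := by ring
        rw [e4]
        exact one_u (m1 hlr hln)
      · obtain ⟨z, hz, hz2⟩ := root hp b k hk
        by_cases hd : (p : ℤ) ∣ a * k - r * b
        · have e7 : lf n p = u := by rw [hue]; exact if_pos (hn ha hb hd)
          apply fin1 hq (cnt1 hle hy (g2_root1 hy2))
          rw [e7, ← hue]
          have e4 : lf r p * lf k p * u = u * (lf r p * lf k p) := by ring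
          rw [e4]
          exact one_u (m1 hlr hlk)
        · apply fin2 hq (cnt2 hle hy hz (roots_ne hd hy2 hz2) (g2_root1 hy2) (g2_root2 hz2))
          exact m1 (m1 hlr hlk) hln

/-! the global counts -/

lemma copR {W R : ℕ} (hW : W ≠ 0) (h : ∀ p : ℕ, p.Prime → p ∣ R → p ∣ W) (b : ℕ) :
    b.Coprime R ↔ ∀ p ∈ W.primeFactors, p ∣ R → ¬ p ∣ b := by
  rw [← not_iff_not, Nat.Prime.not_coprime_iff_dvd]
  push Not
  constructor
  · rintro ⟨p, hp, h1, h2⟩
    exact ⟨p, Nat.mem_primeFactors.2 ⟨hp, h p hp h2, hW⟩, h2, h1⟩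
  · rintro ⟨p, hp, h1, h2⟩
    exact ⟨p, Nat.prime_of_mem_primeFactors hp, h2, h1⟩

lemma card1 {W R : ℕ} (hW : Squarefree W) (hWR : ∀ p : ℕ, p.Prime → p ∣ R → p ∣ W) (a c : ℤ)
    [DecidablePred fun b : ℕ => IsCoprime (a + c * (b : ℤ)) (W : ℤ) ∧ b.Coprime R] :
    (((range W).filter (fun b : ℕ => IsCoprime (a + c * (b : ℤ)) (W : ℤ) ∧
      b.Coprime R)).card : ℝ) = ∏ p ∈ W.primeFactors, ∑ y ∈ range p, g1 a c R p y := by
  classical
  have hP : ∀ p ∈ W.primeFactors, p.Prime := fun p hp => Nat.prime_of_mem_primeFactors hp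
  rw [← Avg.full_sum (b := 0) (W := 1) (P := W.primeFactors) (F := fun p y => g1 a c R p y)
    (fun p hp => ⟨hP p hp, fun h => (hP p hp).one_lt.ne' (Nat.dvd_one.1 h)⟩)
    (fun p _ y => g1_per a c R p y), Nat.prod_primeFactors_of_squarefree hW, Finset.card_filter]
  push_cast
  apply Finset.sum_congr rfl
  intro b _
  simp only [zero_add, one_mul, g1]
  rw [Pool.Agent.FXD.prod_ind (fun p : ℕ => ¬ (p : ℤ) ∣ a + c * (b : ℤ) ∧ (p ∣ R → ¬ p ∣ b))]
  have e : (IsCoprime (a + c * (b : ℤ)) (W : ℤ) ∧ b.Coprime R) ↔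
      ∀ p ∈ W.primeFactors, ¬ (p : ℤ) ∣ a + c * (b : ℤ) ∧ (p ∣ R → ¬ p ∣ b) := by
    rw [cop_iff hW.ne_zero, copR hW.ne_zero hWR]
    exact ⟨fun h p hp => ⟨h.1 p hp, h.2 p hp⟩, fun h => ⟨fun p hp => (h p hp).1,
      fun p hp => (h p hp).2⟩⟩
  by_cases h : IsCoprime (a + c * (b : ℤ)) (W : ℤ) ∧ b.Coprime R
  · rw [if_pos h, if_pos (e.1 h)]
  · rw [if_neg h, if_neg (fun h1 => h (e.2 h1))]

lemma card2 {W R : ℕ} (hW : Squarefree W) (hWR : ∀ p : ℕ, p.Prime → p ∣ R → p ∣ W) (a c b' k : ℤ)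
    [DecidablePred fun b : ℕ => (IsCoprime (a + c * (b : ℤ)) (W : ℤ) ∧ b.Coprime R) ∧
      IsCoprime (b' + k * (b : ℤ)) (W : ℤ)] :
    (((range W).filter (fun b : ℕ => (IsCoprime (a + c * (b : ℤ)) (W : ℤ) ∧ b.Coprime R) ∧
      IsCoprime (b' + k * (b : ℤ)) (W : ℤ))).card : ℝ) =
      ∏ p ∈ W.primeFactors, ∑ y ∈ range p, g2 a c b' k R p y := by
  classical
  have hP : ∀ p ∈ W.primeFactors, p.Prime := fun p hp => Nat.prime_of_mem_primeFactors hp
  rw [← Avg.full_sum (b := 0) (W := 1) (P := W.primeFactors) (F := fun p y => g2 a c b' k R p y)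
    (fun p hp => ⟨hP p hp, fun h => (hP p hp).one_lt.ne' (Nat.dvd_one.1 h)⟩)
    (fun p _ y => g2_per a c b' k R p y), Nat.prod_primeFactors_of_squarefree hW,
    Finset.card_filter]
  push_cast
  apply Finset.sum_congr rfl
  intro b _
  simp only [zero_add, one_mul, g2]
  rw [Pool.Agent.FXD.prod_ind (fun p : ℕ => (¬ (p : ℤ) ∣ a + c * (b : ℤ) ∧ (p ∣ R → ¬ p ∣ b)) ∧
    ¬ (p : ℤ) ∣ b' + k * (b : ℤ))]
  have e : ((IsCoprime (a + c * (b : ℤ)) (W : ℤ) ∧ b.Coprime R) ∧
      IsCoprime (b' + k * (b : ℤ)) (W : ℤ)) ↔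
      ∀ p ∈ W.primeFactors, (¬ (p : ℤ) ∣ a + c * (b : ℤ) ∧ (p ∣ R → ¬ p ∣ b)) ∧
        ¬ (p : ℤ) ∣ b' + k * (b : ℤ) := by
    rw [cop_iff hW.ne_zero, cop_iff hW.ne_zero, copR hW.ne_zero hWR]
    exact ⟨fun h p hp => ⟨⟨h.1.1 p hp, h.1.2 p hp⟩, h.2 p hp⟩,
      fun h => ⟨⟨fun p hp => (h p hp).1.1, fun p hp => (h p hp).1.2⟩, fun p hp => (h p hp).2⟩⟩
  by_cases h : (IsCoprime (a + c * (b : ℤ)) (W : ℤ) ∧ b.Coprime R) ∧
      IsCoprime (b' + k * (b : ℤ)) (W : ℤ)
  · rw [if_pos h, if_pos (e.1 h)]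
  · rw [if_neg h, if_neg (fun h1 => h (e.2 h1))]

lemma not_both {p : ℕ} (hp : p.Prime) {a : ℤ} {r : ℤ} (h : IsCoprime a r) :
    ¬ ((p : ℤ) ∣ a ∧ (p : ℤ) ∣ r) := by
  rintro ⟨h1, h2⟩
  exact (Nat.prime_iff_prime_int.1 hp).not_isUnit (h.isUnit_of_dvd' h1 h2)

lemma dvd_of_natAbs {p R : ℕ} {a : ℤ} (haR : a.natAbs ∣ R) (h : (p : ℤ) ∣ a) : p ∣ R :=
  (Int.natCast_dvd.1 h).trans haR

/-- the determinant is not zero -/
lemma det_ne {a b : ℤ} {r k : ℕ} (ha : a ≠ 0) (hb : b ≠ 0) (har : IsCoprime a (r : ℤ))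
    (hbk : IsCoprime b (k : ℤ)) (hr : 1 ≤ r) (hk : 1 ≤ k) (h : ¬ (b = a ∧ k = r)) :
    a * (k : ℤ) - (r : ℤ) * b ≠ 0 := by
  intro h0
  have h1 : a * (k : ℤ) = (r : ℤ) * b := sub_eq_zero.1 h0
  have h2 : (r : ℤ) ∣ (k : ℤ) := (har.symm).dvd_of_dvd_mul_left ⟨b, h1⟩
  have h3 : (k : ℤ) ∣ (r : ℤ) := by
    refine (hbk.symm).dvd_of_dvd_mul_right ⟨a, ?_⟩
    rw [← h1]
    ring
  have h4 : k = r := Nat.dvd_antisymm (Int.natCast_dvd_natCast.1 h3) (Int.natCast_dvd_natCast.1 h2)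
  apply h
  refine ⟨?_, h4⟩
  rw [h4, mul_comm] at h1
  exact (mul_left_cancel₀ (by positivity : (r : ℤ) ≠ 0) h1).symm

end CNTVh

open CNTVh CNTXh in
theorem t_CNTV : S_CNTV := by
  intro a R W r hW ha0 haR hR hWR har hr
  have hP : ∀ p ∈ W.primeFactors, p.Prime := fun p hp => Nat.prime_of_mem_primeFactors hp
  have hrn : ((r : ℤ)).natAbs = r := Int.natAbs_natCast r
  have hr0 : r ≠ 0 := by omega
  have ha1 : a.natAbs ≠ 0 := Int.natAbs_ne_zero.2 ha0
  have hl0 : ∀ m : ℤ, 0 ≤ ∏ p ∈ W.primeFactors, lf m p := fun m =>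
    Finset.prod_nonneg fun p hp => zero_le_one.trans (lf_ge (hP p hp) m)
  have hR0 : (0 : ℝ) ≤ (R.totient : ℝ) / R := by positivity
  constructor
  · rw [CNTVh.card1 hW hWR a r]
    calc ∏ p ∈ W.primeFactors, ∑ y ∈ range p, g1 a r R p y
        ≤ ∏ p ∈ W.primeFactors, (((p : ℝ) - 1) * (rf R p * lf a p * lf r p)) :=
          Finset.prod_le_prod (fun p _ => Finset.sum_nonneg fun y _ => g1_nonneg a r R p y)
            (fun p hp => loc1 (hP p hp) a r R (not_both (hP p hp) har) (dvd_of_natAbs haR))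
      _ = (W.totient : ℝ) * ((R.totient : ℝ) / R) *
            ((∏ p ∈ W.primeFactors, lf a p) * ∏ p ∈ W.primeFactors, lf r p) := by
          rw [Finset.prod_mul_distrib, Finset.prod_mul_distrib, Finset.prod_mul_distrib,
            totient_sf hW, prod_rf hW.ne_zero hR hWR]
          ring
      _ ≤ (W.totient : ℝ) * ((R.totient : ℝ) / R) * (gq a.natAbs * gq r) := by
          refine mul_le_mul_of_nonneg_left ?_ (by positivity)
          have h1 := prod_lf_le hP ha1 (m := a) rfl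
          exact mul_le_mul h1 (prod_lf_le hP hr0 hrn) (hl0 _) ((hl0 _).trans h1)
      _ = _ := by ring
  · intro b' k hb0 hbR hbk hk hne
    have hWp : (W : ℝ) = ∏ p ∈ W.primeFactors, (p : ℝ) := by
      have := Nat.prod_primeFactors_of_squarefree hW
      nth_rewrite 1 [← this]
      push_cast
      rfl
    obtain ⟨n, hn⟩ : ∃ n : ℕ, n = (a * k - r * b').natAbs / Int.gcd a b' := ⟨_, rfl⟩
    have hdet := det_ne ha0 hb0 har hbk hr hk hne
    have hgd : Int.gcd a b' ∣ (a * k - r * b').natAbs := by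
      rw [← Int.natCast_dvd]
      exact dvd_sub ((Int.gcd_dvd_left ..).mul_right _) ((Int.gcd_dvd_right ..).mul_left _)
    have hgn : Int.gcd a b' * n = (a * k - r * b').natAbs := by
      rw [hn, Nat.mul_div_cancel' hgd]
    have hn0 : n ≠ 0 := by
      intro h
      rw [h, mul_zero] at hgn
      exact hdet (Int.natAbs_eq_zero.1 hgn.symm)
    have hnn : ∀ p ∈ W.primeFactors, ¬ (p : ℤ) ∣ a → ¬ (p : ℤ) ∣ b' →
        (p : ℤ) ∣ a * k - r * b' → (p : ℤ) ∣ (n : ℤ) := by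
      intro p hp h1 _ h3
      have h4 : p ∣ Int.gcd a b' * n := by rw [hgn]; exact Int.natCast_dvd.1 h3
      rcases (hP p hp).dvd_mul.1 h4 with h5 | h5
      · exact absurd ((Int.natCast_dvd_natCast.2 h5).trans (Int.gcd_dvd_left ..)) h1
      · exact Int.natCast_dvd_natCast.2 h5
    have hk0 : k ≠ 0 := by omega
    rw [CNTVh.card2 hW hWR a r b' k, ← hn]
    calc (∏ p ∈ W.primeFactors, ∑ y ∈ range p, g2 a r b' k R p y) * W
        = ∏ p ∈ W.primeFactors, ((∑ y ∈ range p, g2 a r b' k R p y) * p) := by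
          rw [Finset.prod_mul_distrib, ← hWp]
      _ ≤ ∏ p ∈ W.primeFactors, (((p : ℝ) - 1) ^ 2 *
            (rf R p * (lf a p * lf b' p) * (lf r p * lf k p * lf n p))) :=
          Finset.prod_le_prod
            (fun p _ => mul_nonneg (Finset.sum_nonneg fun y _ => g2_nonneg a r b' k R p y)
              (Nat.cast_nonneg _))
            (fun p hp => loc2 (hP p hp) a r b' k R n (not_both (hP p hp) har)
              (not_both (hP p hp) hbk) (dvd_of_natAbs haR) (dvd_of_natAbs hbR) (hnn p hp))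
      _ = (W.totient : ℝ) ^ 2 * ((R.totient : ℝ) / R) *
            (((∏ p ∈ W.primeFactors, lf a p) * (∏ p ∈ W.primeFactors, lf b' p)) *
            ((∏ p ∈ W.primeFactors, lf r p) * (∏ p ∈ W.primeFactors, lf k p) *
            ∏ p ∈ W.primeFactors, lf n p)) := by
          rw [Finset.prod_mul_distrib, Finset.prod_mul_distrib, Finset.prod_mul_distrib,
            Finset.prod_mul_distrib, Finset.prod_mul_distrib, Finset.prod_mul_distrib,
            Finset.prod_pow, totient_sf hW, prod_rf hW.ne_zero hR hWR]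
          ring
      _ ≤ (W.totient : ℝ) ^ 2 * ((R.totient : ℝ) / R) *
            ((gq a.natAbs * gq b'.natAbs) * (gq r * gq k * gq n)) := by
          have h1 := prod_lf_le hP hr0 hrn
          have h2 := prod_lf_le hP hk0 (m := (k : ℤ)) (Int.natAbs_natCast k)
          have h3 := prod_lf_le hP hn0 (m := (n : ℤ)) (Int.natAbs_natCast n)
          have h4 := prod_lf_le hP ha1 (m := a) rfl
          have h5 := prod_lf_le hP (Int.natAbs_ne_zero.2 hb0) (m := b') rfl
          refine mul_le_mul_of_nonneg_left ?_ (by positivity)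
          have g0 := (hl0 _).trans h1
          have g2 := (hl0 _).trans h2
          have g4 := (hl0 _).trans h4
          have g5 := (hl0 _).trans h5
          refine mul_le_mul (mul_le_mul h4 h5 (hl0 _) g4)
            (mul_le_mul (mul_le_mul h1 h2 (hl0 _) g0) h3 (hl0 _) (mul_nonneg g0 g2))
            (mul_nonneg (mul_nonneg (hl0 _) (hl0 _)) (hl0 _)) (mul_nonneg g4 g5)
      _ = _ := by ring

end Pool.Agent.FCT
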