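import Pool.Agent.FCT.St3
import Pool.Agent.FXD.Sig

/-!
# Project FCT, module CONX: composition of functions of bounded conductor with a map which permutes
the classes
-/

set_option autoImplicit false

namespace Pool.Agent.FCT

theorem t_CONX : S_CONX := by
  intro Q τ hQ hτ D g hg
  induction hg with
  | base E g hE hp hD =>
    refine Pool.Agent.CRE.Con.base E _ hE ?_ hD
    intro n
    have h1 : Pool.Agent.FXD.Bij τ (Pool.Agent.IPP.pr E) :=
      Pool.Agent.FXD.Bij.prod (fun l hl => hQ l (hE hl)) (fun l hl => hτ l (hE hl))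
    exact Pool.Agent.FXD.per_modEq hp (h1.1 n)
  | add hg hh ih1 ih2 => exact Pool.Agent.CRE.Con.add ih1 ih2

end Pool.Agent.FCT
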