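import Mathlib
import Pool.Agent.FCT.St1
import Pool.Agent.IP.EDP
import Pool.Agent.IPP.Stmts
import Pool.Agent.FXD.Sig

set_option autoImplicit false

/-!
FCT, part II: the engine with a prime at one of the sites, for a fixed class `a` and a variable
modulus `n = b + W x`. A prime `l` divides `a + k n` according to the class of `n` modulo `l`; a map
`σ` which permutes the classes modulo `l` turns this into `l ∣ σ n + j m` with `m = |a|` and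
`j = K + k`. The forced prime is `q = a + r n`. Statements with proofs in the comments.
-/

namespace Pool.Agent.FCT

open Finset Pool.Agent.Lib_helper9.LG
open Pool.Agent.FXD (Bij)

noncomputable section

/-- The number `a + r n` (`0` if it is negative). -/
def qv (a : ℤ) (r n : ℕ) : ℕ := (a + (r : ℤ) * (n : ℤ)).toNat

/-- The number of values of `x`. -/
def M0 (L : ℝ) (W : ℕ) : ℕ := ⌊2 * Real.exp L / W⌋₊

/-- The `x` such that `q = a + r (b + W x)` is a prime in `(r exp L, 3/2 r exp L]`. -/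
def PiL (a : ℤ) (r W b : ℕ) (L : ℝ) : Finset ℕ :=
  (range (M0 L W)).filter (fun x => (qv a r (b + W * x)).Prime ∧
    ⌊(r : ℝ) * Real.exp L⌋₊ < qv a r (b + W * x) ∧
    qv a r (b + W * x) ≤ ⌊3 / 2 * ((r : ℝ) * Real.exp L)⌋₊)

/-- The logarithmic weight of the prime. -/
def lwX (a : ℤ) (r W b x : ℕ) : ℝ := Real.log ((qv a r (b + W * x) : ℕ) : ℝ)

/-- The total weight of the primes. -/
def ThL (a : ℤ) (r W b : ℕ) (L : ℝ) : ℝ := ∑ x ∈ PiL a r W b L, lwX a r W b x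

/-- The function `G` of the engine, composed with `σ`. -/
def GX (P : ℕ → Finset ℕ) (bb : ℕ → ℕ) (N m W b : ℕ) (Q S : Finset ℕ) (σ : ℕ → ℕ)
    (α B B1 : ℝ) (x : ℕ) : ℝ :=
  Pool.Agent.IPP.Gc P bb N m Q S α B B1 (σ (b + W * x))

/-! ### The map `σ` -/

/-- SGX. As `sgm` (Pool/Agent/FXD/Sgm.lean), with `H = D = 1` and an equivalence:
`σ n = m a n^(eN N₀) - K m` modulo the product of the primes up to `N₀`, so that modulo `l`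
`σ n + j m = m (a n⁻¹ + (j - K))`; if `l ∣ n` both sides are false, as `0 < |j - K| ≤ K < l`. -/
def S_SGX : Prop := ∀ (a : ℤ) (K N₀ : ℕ), a ≠ 0 → ∃ σ : ℕ → ℕ, ∀ l : ℕ, l.Prime → l ≤ N₀ → K < l →
  ¬ l ∣ a.natAbs → Bij σ l ∧ ∀ n j : ℕ, j ≤ 2 * K → j ≠ K →
    (l ∣ σ n + j * a.natAbs ↔ (l : ℤ) ∣ a + ((j : ℤ) - K) * (n : ℤ))

/-! ### The engine -/

/-- MOFX: `IP.S_MOF` with `σ`. PROOF. Pool/Agent/IP/MOF.lean with `exps` (Pool/Agent/FXD/Sig.lean)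
in place of EXP, exactly as `momS` (Pool/Agent/FXD/MomS.lean) is `mom` with `exps`. -/
def S_MOFX : Prop := ∀ (P : ℕ → Finset ℕ) (b : ℕ → ℕ) (N m W b₀ M₀ J i : ℕ) (S : Finset ℕ)
  (σ : ℕ → ℕ),
  1 ≤ m → 1 ≤ W → 1 ≤ M₀ → W.Coprime m →
  (∀ i < N, ∀ j < N, i ≠ j → Disjoint (P i) (P j)) →
  (∀ l ∈ SS P N, l.Prime ∧ ¬ l ∣ m ∧ ¬ l ∣ W ∧ 16 * J + 16 ≤ l) →
  (∀ l ∈ SS P N, Bij σ l) →
  i ∉ S → (∀ k ∈ insert i S, ∀ l ∈ SS P N, k < l) →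
  (∀ j < N, ∑ l ∈ P j, (1 : ℝ) / l ≤ 1) → (∀ j < N, 700 * (J + 1) + j ≤ b j) →
  (∑ x ∈ (range M₀).filter (fun x => (b₀ + W * x).Coprime m),
      (∑ A ∈ S.powerset.filter (fun A => A.card ≤ J),
        Lm P b N m (insert i A) (σ (b₀ + W * x))) ^ 4) /
      ((M₀ : ℝ) * ((m.totient : ℝ) / m)) ≤
    VS (SS P N) 1 * (2 * Real.exp (15 * (S.card * VS (SS P N) 1))) +
      ((S.card : ℝ) + 1) ^ (4 * J) * (2 ^ m.primeFactors.card * LV P b N ^ 4 /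
        ((M₀ : ℝ) * ((m.totient : ℝ) / m)))

/-- EDPX: the engine over a weighted set `Pl` of integers for which the site `i` is not hit.
PROOF. `EDP.final` (Pool/Agent/IP/EDP.lean), copied with the changes: `b + W x` becomes
`σ (b + W x)` inside `Lm`, `xx` and the divisibilities (`herr`, `lower`, `upper`, `four`: with
`herrS` of Pool/Agent/FXD/HerrS.lean in place of `herrD`, `momS` of FXD/MomS.lean in place of `mom`,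
MOFX in place of MOF); `Pi`, `lw`, `Th` become `Pl`, `w`, `T`; `Pi_sub` and `no_SS` are
hypotheses. -/
def S_EDPX : Prop := IP.S_CRL → IP.S_CRU → S_MOFX →
  ∀ (P : ℕ → Finset ℕ) (bb : ℕ → ℕ) (N m W b i n J : ℕ) (Q S : Finset ℕ) (z α B B1 VJ : ℝ)
  (σ : ℕ → ℕ), IP.EDP.Ctx P bb N m W b i n J Q S z α B B1 VJ → (∀ l ∈ SS P N ∪ Q, Bij σ l) →
  ∀ (Pl : Finset ℕ) (w : ℕ → ℝ) (T E E' G0 Λ D : ℝ), Pl ⊆ IP.Om m W b n →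
  (∀ x ∈ Pl, 0 ≤ w x) → (∀ x ∈ Pl, w x ≤ Λ) →
  (∀ x ∈ Pl, ∀ l ∈ SS P N, ¬ l ∣ σ (b + W * x) + i * m) →
  |∑ x ∈ Pl, w x * GX P bb N m W b Q S σ α B B1 x ^ 2 -
      T * IP.mn m W b n (fun x => GX P bb N m W b Q S σ α B B1 x ^ 2)| ≤
    E * Real.sqrt (IP.mn m W b n (fun x => GX P bb N m W b Q S σ α B B1 x ^ 4)) + E' →
  0 < T → 0 < D → 0 ≤ Λ → 0 ≤ E →
  Λ * IP.EDP.MM m n * VS (SS P N) 1 * (2 * (VS (SS P N) 1 * S.card)) *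
    ((4 * J / z) ^ 2 +
      Real.exp ((2 * α * (VS (SS P N) 1 * S.card) - (B - B1)) / B1)) ≤ T / 16 →
  Λ * IP.EDP.MM m n * (((S.card : ℝ) + 1) *
    ((2 ^ m.primeFactors.card * LV P bb N ^ 2 / IP.EDP.MM m n) *
      (Real.exp (3 * B) * 3) ^ 2)) ≤ T / 16 →
  (2 ^ m.primeFactors.card * LV P bb N ^ 2 / IP.EDP.MM m n) *
    (Real.exp (3 * B) * 3) ^ 2 ≤ 1 / 8 →
  Λ * IP.EDP.MM m n * (((S.card : ℝ) + 1) *
    (2 * (4 * J * S.card / z) / VJ)) ≤ T / 16 →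
  2 * (4 * J * S.card / z) / VJ ≤ 1 / 8 →
  ((S.card : ℝ) + 1) ^ (4 * J) * (2 ^ m.primeFactors.card * LV P bb N ^ 4 / IP.EDP.MM m n) ≤
    VS (SS P N) 1 →
  E * Real.sqrt (IP.C4 G0 J (S.card * VS (SS P N) 1)) + E' ≤ T / 8 →
  Λ * IP.EDP.MM m n * VS (SS P N) 1 ≤ D * T →
  1 ≤ G0 →
  (∀ k ∈ S, ∀ x ∈ IP.Om m W b n, ∏ l ∈ Q, (1 + |xx m l k (σ (b + W * x))|) ≤ G0) →
  T / (16 * (D * IP.C4 G0 J (S.card * VS (SS P N) 1))) ≤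
    ∑ x ∈ Pl.filter (fun x => ∀ k ∈ S, ∃ l ∈ SS P N ∪ Q, l ∣ σ (b + W * x) + k * m), w x

/-! ### Equidistribution on primes -/

/-- LEVX. PROOF. (1) induction on `Lev`: in the case `base` use the functions
`f l (τ t)`, which are `l`-periodic by the first part of `Bij` (`per_modEq` of FXD/Sig.lean).
(2) `sum_bij` of FXD/Sig.lean (`Bij τ (pr Q)` by `Bij.prod`). (3) Chinese remainder theorem
(`modEq_prod`, `per_modEq`). -/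
def S_LEVX : Prop := ∀ (Q : Finset ℕ) (τ : ℕ → ℕ), (∀ l ∈ Q, l.Prime) → (∀ l ∈ Q, Bij τ l) →
  (∀ (D : ℝ) (g : ℕ → ℝ), Pool.Agent.IPP.Lev Q D g →
    Pool.Agent.IPP.Lev Q D (fun t => g (τ t))) ∧
  (∀ g : ℕ → ℝ, (∀ c, g (c + Pool.Agent.IPP.pr Q) = g c) →
    Pool.Agent.IPP.mean (Pool.Agent.IPP.pr Q) (fun t => g (τ t)) =
      Pool.Agent.IPP.mean (Pool.Agent.IPP.pr Q) g) ∧
  (∀ g : ℕ → ℝ, (∀ c, g (c + Pool.Agent.IPP.pr Q) = g c) →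
    ∀ c c' : ℕ, (∀ l ∈ Q, c ≡ c' [MOD l]) → g c = g c')

/-- HITX. PROOF. `ψ t = r' (t + A₀)` with `r' r = 1` and `A₀ = -a` modulo the product of the `l`
(all `l > r`): `ψ` permutes the classes modulo `l`, `Bij` is closed under composition, and
`ψ q = n` modulo `l` if `q = a + r n`. For `k ∈ S` let `ρ l k < l` be the class of `t` with
`l ∣ σ (ψ t) + k m` (it exists and is unique, as `σ ∘ ψ` permutes the classes and `l ∤ m`). Then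
`t % l = ρ l k` iff `l ∣ σ (ψ t) + k m`. Injective: `l ∣ (k - k') m` implies `k = k'`. Positive: if
`l ∣ σ (ψ 0) + k m` take `n = ψ 0`, `a + r n = 0` modulo `l`, so `l ∣ σ n + i m`, `l ∣ (k - i) m`,
`k = i`, but `i ∉ S`. `Gc` depends only on the pairs `(l, k)` with `l ∣ c + k m`: as in
Pool/Agent/IPP/FAC.lean. -/
def S_HITX : Prop := ∀ (P : ℕ → Finset ℕ) (bb : ℕ → ℕ) (N : ℕ) (a : ℤ) (m r i : ℕ)
  (Q' S : Finset ℕ) (α B B₁ : ℝ) (σ : ℕ → ℕ),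
  (∀ l ∈ SS P N ∪ Q', l.Prime ∧ ¬ l ∣ m ∧ r < l ∧ i < l ∧ Bij σ l ∧
    ∀ n : ℕ, ((l : ℤ) ∣ a + (r : ℤ) * (n : ℤ) ↔ l ∣ σ n + i * m)) →
  (∀ l ∈ SS P N ∪ Q', ∀ k ∈ S, k < l) → 1 ≤ r → i ∉ S →
  ∃ (ψ : ℕ → ℕ) (ρ : ℕ → {k // k ∈ S} → ℕ),
    (∀ l ∈ SS P N ∪ Q', Bij (fun t => σ (ψ t)) l) ∧
    (∀ q n : ℕ, (q : ℤ) = a + (r : ℤ) * (n : ℤ) → ∀ l ∈ SS P N ∪ Q', σ (ψ q) ≡ σ n [MOD l]) ∧
    Pool.Agent.IPP.Hits (SS P N ∪ Q') ρ ∧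
    Pool.Agent.IPP.Fac (SS P N ∪ Q') ρ
      (fun t => Pool.Agent.IPP.Gc P bb N m Q' S α B B₁ (σ (ψ t)))

/-- The conditions on the progression: `b` is large against `a`, small against `exp L`. -/
structure Prog (a : ℤ) (W b r : ℕ) (L : ℝ) : Prop where
  hW : 1 ≤ W
  hWL : (W : ℝ) ≤ Real.exp (2 * Real.sqrt L)
  hb1 : 2 * a.natAbs + 1 ≤ b
  hb2 : (b : ℝ) ≤ Real.exp (L / 4)
  hbr : IsCoprime (a + (r : ℤ) * (b : ℤ)) (W : ℤ)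
  har : IsCoprime a (r : ℤ)
  hr : 1 ≤ r
  hrL : (r : ℝ) ≤ L ^ 2

/-- INTX. PROOF (compare Pool/Agent/IPP/INT.lean). StmtLP with the modulus `W r`, the class of
`s = a + r b` (a natural number, as `b ≥ 2|a| + 1`), `X₁ = ⌊r e^L⌋`, `X₂ = ⌊3/2 r e^L⌋`: the primes
`q ∈ (X₁, X₂]`, `q = s` modulo `W r`, are the `a + r (b + W x)` with `x ∈ PiL` (`n = (q - a)/r` is
at least `e^L - |a| ≥ b` and at most `3/2 e^L + |a|`, so `x = (n - b)/W < M0 L W`). `(s, W r) = 1`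
by `hbr`, `har`. `sqrt (X₂ (X₂ - X₁)) / (W r) ≤ 2 e^L / W`, `log X₂ ≤ 2 L`,
`X₂^(5/6) (W r)^(1/4) ≤ e^(9/10 L) / 2`, and the prime powers contribute at most
`2 D · 2 sqrt X₂ log X₂` (`INTx.prime_powers`). -/
def S_INTX : Prop := Pool.Agent.IPP.StmtLEV → Pool.Agent.IPP.StmtLP →
  ∃ C : ℝ, 1 ≤ C ∧ ∀ (Q : Finset ℕ) (κ : Type) [Fintype κ] (ρ : ℕ → κ → ℕ) (F : ℕ → ℝ)
  (z D : ℝ) (a : ℤ) (W b r : ℕ) (L : ℝ), Pool.Agent.IPP.Hits Q ρ → Pool.Agent.IPP.Fac Q ρ F →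
  Pool.Agent.IPP.Lev Q D F → 1 ≤ D → (∀ l ∈ Q, z ≤ l ∧ ¬ l ∣ W ∧ ¬ l ∣ r) → 1 ≤ z →
  16 * (Fintype.card κ : ℝ) ^ 2 ≤ z → 120 * (Fintype.card κ : ℝ) ^ 3 ≤ z →
  8 * (Fintype.card κ : ℝ) * L ≤ z → C ≤ L → Prog a W b r L →
  |∑ x ∈ PiL a r W b L, lwX a r W b x *
      (F (qv a r (b + W * x)) - Pool.Agent.IPP.mean (Pool.Agent.IPP.pr Q) F)| ≤
    C * L ^ 4 * (Real.exp L / W * ((Fintype.card κ : ℝ) ^ 3 * L / z) ^ (1 / 8 : ℝ) *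
      Real.sqrt (Pool.Agent.IPP.mean (Pool.Agent.IPP.pr Q) fun n => F n ^ 2) +
        Real.exp (9 / 10 * L) * D)

/-- The parameters of one class: sieve primes in `(L^100, exp (η L)]`, large primes in
`(exp (η L), exp B1]`, the site `i` of the prime is not in `S`. -/
structure ParX (η : ℝ) (P : ℕ → Finset ℕ) (bb : ℕ → ℕ) (N : ℕ) (a : ℤ) (m W b r i n : ℕ)
    (Q S : Finset ℕ) (σ : ℕ → ℕ) (L α B B1 : ℝ) : Prop where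
  hm : m = a.natAbs
  ha0 : a ≠ 0
  hp : Prog a W b r L
  hWm : W.Coprime m
  hn : n = M0 L W
  hd : ∀ j < N, ∀ j' < N, j ≠ j' → Disjoint (P j) (P j')
  hS : ∀ l ∈ SS P N, l.Prime ∧ ¬ l ∣ m ∧ ¬ l ∣ W ∧ L ^ 100 < (l : ℝ) ∧ (l : ℝ) ≤ Real.exp (η * L)
  hQ : ∀ l ∈ Q, l.Prime ∧ ¬ l ∣ m ∧ ¬ l ∣ W ∧ Real.exp (η * L) < (l : ℝ) ∧ (l : ℝ) ≤ Real.exp B1
  hσ : ∀ l ∈ SS P N ∪ Q, Bij σ l ∧
    ∀ n : ℕ, ((l : ℤ) ∣ a + (r : ℤ) * (n : ℤ) ↔ l ∣ σ n + i * m)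
  hk : ∀ k ∈ S, (k : ℝ) ≤ L ^ 2
  hi : (i : ℝ) ≤ L ^ 2
  hiS : i ∉ S
  hLV : LV P bb N ≤ Real.exp (L / 1000)
  hα : 0 ≤ α
  hαη : α ≤ η * L
  hB1 : 0 < B1
  hB1B : B1 ≤ B
  hB : B ≤ L / 10000

/-- LPX. PROOF (compare Pool/Agent/IPP/LPG.lean, whose lemmas `big`, `sumC`, `cardS`, `k16`, `k120`,
`k8`, `root8`, `dv` can be used). `F = (Gc ∘ σ ∘ ψ)^2` with HITX, level `D0^2` by GLEV, StmtLEV and
LEVX; INTX with `z = L^100`; for `x ∈ PiL` one has `F (q) = GX x ^ 2` by HITX and LEVX (3), and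
`mean F = mean (Gc^2)` by LEVX (2) (period of `Gc`: StmtLEV). The mean values over the `x < n` with
`b + W x` coprime to `m` are `mean (Gc^2)`, `mean (Gc^4)` up to `e^(- 8/10 L)` by StmtAVG and LEVX
for `σ`. `ThL ≤ 2 L · 2 e^L`. -/
def S_LPX : Prop := Pool.Agent.IPP.StmtLEV → Pool.Agent.IPP.StmtAVG → Pool.Agent.IPP.StmtLP →
  Pool.Agent.IPP.StmtGLEV → S_LEVX → S_HITX → S_INTX →
  ∀ (a : ℤ) (η : ℝ), a ≠ 0 → 0 < η → ∃ L₀ : ℝ, ∀ L : ℝ, L₀ ≤ L →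
  ∀ (P : ℕ → Finset ℕ) (bb : ℕ → ℕ) (N m W b r i n : ℕ) (Q S : Finset ℕ) (σ : ℕ → ℕ)
    (α B B1 : ℝ), ParX η P bb N a m W b r i n Q S σ L α B B1 →
  |∑ x ∈ PiL a r W b L, lwX a r W b x * GX P bb N m W b Q S σ α B B1 x ^ 2 -
      ThL a r W b L * IP.mn m W b n (fun x => GX P bb N m W b Q S σ α B B1 x ^ 2)| ≤
    Real.exp L / (W * L) *
        Real.sqrt (IP.mn m W b n (fun x => GX P bb N m W b Q S σ α B B1 x ^ 4)) +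
      Real.exp (99 / 100 * L)

open Classical in
/-- The conclusion of EDQX: the engine for one class. -/
def EngX : Prop := ∀ (a : ℤ) (C₀ c₂ : ℝ), a ≠ 0 → 0 < C₀ → 0 < c₂ →
  ∃ η δ : ℝ, 0 < η ∧ 0 < δ ∧ ∃ L₀ : ℝ, ∀ L : ℝ, L₀ ≤ L →
  ∀ (b r i : ℕ) (S : Finset ℕ) (σ : ℕ → ℕ), Prog a (WW a.natAbs L) b r L →
  (i : ℝ) ≤ L ^ 2 → (∀ k ∈ S, (k : ℝ) ≤ L ^ 2) → i ∉ S →
  (∀ l : ℕ, l.Prime → L ^ 100 < (l : ℝ) → (l : ℝ) ≤ Real.exp (L / 100) → ¬ l ∣ a.natAbs →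
    Bij σ l ∧ ∀ n : ℕ, ((l : ℤ) ∣ a + (r : ℤ) * (n : ℤ) ↔ l ∣ σ n + i * a.natAbs)) →
  (∀ x < M0 L (WW a.natAbs L), ∀ k ∈ S, ∃ v : ℕ, 1 ≤ v ∧ Real.log v ≤ 3 * L ∧
    ∀ l : ℕ, l.Prime → L ^ 100 < (l : ℝ) → (l : ℝ) ≤ Real.exp (L / 100) → ¬ l ∣ a.natAbs →
      l ∣ σ (b + WW a.natAbs L * x) + k * a.natAbs → l ∣ v) →
  S.card * VS (IP.SPH a.natAbs L (Real.exp (η * L))) 1 ≤ C₀ / η →
  c₂ * (Real.exp L / (WW a.natAbs L).totient) ≤ ThL a r (WW a.natAbs L) b L →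
  δ * ThL a r (WW a.natAbs L) b L ≤
    ∑ x ∈ (PiL a r (WW a.natAbs L) b L).filter (fun x => ∀ k ∈ S,
      ∃ l : ℕ, l.Prime ∧ L ^ 100 < (l : ℝ) ∧ (l : ℝ) ≤ Real.exp (L / 100) ∧ ¬ l ∣ a.natAbs ∧
        l ∣ σ (b + WW a.natAbs L * x) + k * a.natAbs), lwX a r (WW a.natAbs L) b x

/-- EDQX. PROOF: Pool/Agent/IP/EDQ.lean, copied. The changes: `L` is a free real number, `m = |a|` is
fixed (`log m ≤ L`, `2 ^ m.primeFactors.card ≤ m` and `m/phi(m)` are constants), `n = M0 L W`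
(`e^L / W ≤ n ≤ 2 e^L / W`), `Th` is `ThL`, with the threshold `c₂ e^L / phi(W)` in place of
`m / (8 phi(W))` (so `D` and the constant `C'` of PAR get the factor `1/c₂`), `Λ = 2 L` (for
`x ∈ PiL` the prime is at most `3/2 L^2 e^L`); EDPX with `Pl = PiL`, `w = lwX`, `T = ThL`,
`E = e^L/(W L)`, `E' = e^(99/100 L)`; `PiL ⊆ Om`: a prime `q = a + r n > |a|` gives `(n, a) = 1`;
the primes of `SS` do not divide `q`, hence not `σ n + i m`. `Ctx` from `ParX` as in `ctx_of`. `G0`: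
at most `3/η` of the large primes divide `v` (`few_dvd`), with the hypothesis on `v`. -/
def S_EDQX : Prop := (∀ (a : ℤ) (η : ℝ), a ≠ 0 → 0 < η → ∃ L₀ : ℝ, ∀ L : ℝ, L₀ ≤ L →
  ∀ (P : ℕ → Finset ℕ) (bb : ℕ → ℕ) (N m W b r i n : ℕ) (Q S : Finset ℕ) (σ : ℕ → ℕ)
    (α B B1 : ℝ), ParX η P bb N a m W b r i n Q S σ L α B B1 →
  |∑ x ∈ PiL a r W b L, lwX a r W b x * GX P bb N m W b Q S σ α B B1 x ^ 2 -
      ThL a r W b L * IP.mn m W b n (fun x => GX P bb N m W b Q S σ α B B1 x ^ 2)| ≤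
    Real.exp L / (W * L) *
        Real.sqrt (IP.mn m W b n (fun x => GX P bb N m W b Q S σ α B B1 x ^ 4)) +
      Real.exp (99 / 100 * L)) →
  IP.S_CRL → IP.S_CRU → S_MOFX → S_EDPX → IP.S_BLH → IP.S_VSH → IP.S_KVH → IP.S_PAR → EngX

/-! ### Part III: selection and the conclusion -/

/-- The representatives `b` of the classes modulo `W` for which the site `r` survives. -/
def BX (a : ℤ) (W r : ℕ) : Finset ℕ :=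
  (Ico (W * (2 * a.natAbs + 1)) (W * (2 * a.natAbs + 2))).filter
    (fun b => IsCoprime (a + (r : ℤ) * (b : ℤ)) (W : ℤ))

/-- The sites `j = K + k`, `0 < |k| ≤ K`, `k ≠ r`, which survive the sieve by the primes of `W`. -/
def SX (a : ℤ) (W b r K : ℕ) : Finset ℕ :=
  (range (2 * K + 1)).filter (fun j => j ≠ K ∧ j ≠ K + r ∧
    IsCoprime (a + ((j : ℤ) - K) * (b : ℤ)) (W : ℤ))

/-- `n / φ(n)`. -/
def gq (n : ℕ) : ℝ := (n : ℝ) / n.totient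

/-- BTX: Brun-Titchmarsh. PROOF (compare Pool/Agent/IP/BT.lean). `x ∈ PiL` runs over an interval of
length at most `e^L / (2 W) + 1` and `(a + r b) + r W x` is prime, `(a + r b, r W) = 1`:
`lin_count_le` (Lib_helper72/AS/Sieve1.lean) with `z = ⌊exp (L / 20)⌋`; every logarithm is at most
`2 L`. -/
def S_BTX : Prop := ∃ C : ℝ, 0 < C ∧ ∀ a : ℤ, a ≠ 0 → ∃ L₀ : ℝ, ∀ L : ℝ, L₀ ≤ L →
  ∀ W b r : ℕ, Prog a W b r L →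
  ThL a r W b L * ((r * W).totient : ℝ) ≤ C * (r * Real.exp L)

/-- CNTX: the number of classes for which one resp. two given sites survive.
PROOF. Chinese remainder theorem, `W` squarefree: modulo `p ∣ W` (`p ∤ a`) the number of classes of
`b` with `p ∤ a + r b` is `p - [p ∤ r]`, and with `p ∤ (a + r b)(a + k b)` it is
`p - [p ∤ r] - [p ∤ k] + [p ∤ r k, p ∣ k - r]`, at most `p (1 - 1/p)^2` times the factors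
`(1 - 1/p)⁻¹` for `p ∣ r`, `p ∣ k`, `p ∣ k - r`. (Model: `local_le`, `card_F` in
Pool/Agent/FXD/Srv.lean.) -/
def S_CNTX : Prop := ∀ (a : ℤ) (W r : ℕ), Squarefree W → IsCoprime a (W : ℤ) → r ≠ 0 →
  ((((range W).filter (fun b : ℕ => IsCoprime (a + (r : ℤ) * (b : ℤ)) (W : ℤ))).card : ℝ) ≤
    (W.totient : ℝ) * gq r) ∧
  ∀ k : ℤ, k ≠ 0 → k ≠ r →
    (((range W).filter (fun b : ℕ => IsCoprime (a + (r : ℤ) * (b : ℤ)) (W : ℤ) ∧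
      IsCoprime (a + k * (b : ℤ)) (W : ℤ))).card : ℝ) * W ≤
    (W.totient : ℝ) ^ 2 * (gq r * gq k.natAbs * gq (k - r).natAbs)

/-- G4X. PROOF. `(n / φ(n))^4 = ∑_{d ∣ n} μ(d)^2 ∏_{p ∣ d} ((1 - 1/p)^(-4) - 1)` and
`(1 - 1/p)^(-4) - 1 ≤ 30/p`, so the sum is at most `X ∏_p (1 + 30/p^2)`. (Or any other way, e.g.
`gI` and `t_SMH` used in Pool/Agent/FXD, or `sum_cfac_le` in Lib_helper72/AP/SumLower.lean.) -/
def S_G4X : Prop := ∃ C : ℝ, 1 ≤ C ∧ ∀ X : ℕ, ∑ n ∈ Icc 1 X, gq n ^ 4 ≤ C * X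

/-- RSX: the number of surviving sites, weighted with the primes.
PROOF. By BTX `ThL ≤ C r e^L / φ(r W) ≤ C gq r e^L / φ(W)` (`φ(r W) ≥ φ(r) φ(W)`); for fixed `r`
and `k = j - K` the number of `b ∈ BX` with `j ∈ SX` is given by CNTX (`b ↦ b mod W`). Total
`C (e^L φ(W) / W) ∑_r ∑_k gq r ^ 2 gq |k| gq |k - r|`, and
`x^2 y z ≤ x^4/2 + y^4/4 + z^4/4`, `|k - r| ≤ 2 K`, G4X. (`Prog` holds for `b ∈ BX`, `r ∈ R`:
`WW ≤ exp (2 sqrt L)` by `IP.EDQ.W_le`, `b ≤ W (2|a| + 2) ≤ exp (L/4)`.) -/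
def S_RSX : Prop := S_BTX → S_CNTX → S_G4X → ∃ C : ℝ, 0 < C ∧ ∀ a : ℤ, a ≠ 0 → ∃ L₀ : ℝ,
  ∀ L : ℝ, L₀ ≤ L → ∀ (K : ℕ) (R : Finset ℕ), (K : ℝ) ≤ L ^ 2 → R ⊆ Icc 1 K →
  (∀ r ∈ R, IsCoprime a (r : ℤ)) →
  ∑ r ∈ R, ∑ b ∈ BX a (WW a.natAbs L) r, ((SX a (WW a.natAbs L) b r K).card : ℝ) *
      ThL a r (WW a.natAbs L) b L ≤
    C * (Real.exp L * (((WW a.natAbs L).totient : ℝ) / (WW a.natAbs L)) * (K : ℝ) ^ 2)

/-- PSX: the total weight of the primes.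
PROOF. AP with `N = e^L`, `y = r e^L` (`r ≤ v L ≤ L^2`, so `N ≤ y ≤ N^2`): let
`R = {r : u L < r ≤ v L, r = 1 mod |a|, d ∤ r}`. The primes `q ∈ (r e^L, 3/2 r e^L]`, `q = a mod r`,
are the `a + r n` with `n = (q - a)/r`, `W (2|a| + 1) ≤ n`, so `n = b + W x` with exactly one
`b ∈ Ico (W (2|a|+1)) (W (2|a|+2))` (`b = W (2|a|+1) + n % W`) and `x < M0 L W`; `b ∈ BX`, since a
prime `p ∣ W`, `p ∣ a + r b` would divide `q > p`. So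
`∑_{b ∈ BX} ThL ≥ c r e^L / φ(r) ≥ c e^L`. Two consecutive `r = 1 mod |a|` are not both multiples of
`d`: otherwise `d ∣ |a|` and `d ∣ r`, but `(r, a) = 1` and `d ≥ 2`; so `|R| ≥ (v - u) L/(2|a|) - 3`. -/
def S_PSX : Prop := AP → ∀ (a : ℤ) (u v : ℝ), a ≠ 0 → 0 ≤ u → u < v → ∃ c : ℝ, 0 < c ∧
  ∃ L₀ : ℝ, ∀ L : ℝ, L₀ ≤ L → ∃ R : Finset ℕ,
  (∀ r ∈ R, u * L < r ∧ (r : ℝ) ≤ v * L ∧ IsCoprime a (r : ℤ)) ∧
  c * (L * Real.exp L) ≤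
    ∑ r ∈ R, ∑ b ∈ BX a (WW a.natAbs L) r, ThL a r (WW a.natAbs L) b L

/-- The conclusion of SELX: good pairs `(r, b)` of total weight at least `c₁ L e^L`. -/
def SelX : Prop := ∀ (a : ℤ) (u v t : ℝ), a ≠ 0 → 0 ≤ u → u < v → v ≤ t →
  ∃ c₁ c₂ C1 : ℝ, 0 < c₁ ∧ 0 < c₂ ∧ 0 < C1 ∧ ∃ L₀ : ℝ, ∀ L : ℝ, L₀ ≤ L →
  ∃ GP : Finset (ℕ × ℕ),
  (∀ p ∈ GP, u * L < (p.1 : ℝ) ∧ (p.1 : ℝ) ≤ v * L ∧ IsCoprime a (p.1 : ℤ) ∧
    p.2 ∈ BX a (WW a.natAbs L) p.1 ∧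
    c₂ * (Real.exp L / (WW a.natAbs L).totient) ≤ ThL a p.1 (WW a.natAbs L) p.2 L ∧
    ((SX a (WW a.natAbs L) p.2 p.1 (⌊t * (L + 1)⌋₊ + 1)).card : ℝ) ≤
      C1 * (L * (((WW a.natAbs L).totient : ℝ) / (WW a.natAbs L)))) ∧
  c₁ * (L * Real.exp L) ≤ ∑ p ∈ GP, ThL a p.1 (WW a.natAbs L) p.2 L

/-- SELX. PROOF. PSX gives `R` and `c`; `K = ⌊t (L + 1)⌋ + 1`. The pairs with
`ThL < c₂ e^L / φ(W)` contribute at most `∑_r |BX| c₂ e^L / φ(W) ≤ c₂ e^L ∑_{r ≤ v L} gq r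
≤ (c/4) L e^L` for small `c₂` (CNTX (1), G4X with `gq ≤ gq^4`), those with more than
`C1 L φ(W)/W` sites at most `C e^L K^2 / (C1 L) ≤ (c/4) L e^L` for large `C1` (RSX, Markov). -/
def S_SELX : Prop :=
  (∀ (a : ℤ) (u v : ℝ), a ≠ 0 → 0 ≤ u → u < v → ∃ c : ℝ, 0 < c ∧
    ∃ L₀ : ℝ, ∀ L : ℝ, L₀ ≤ L → ∃ R : Finset ℕ,
    (∀ r ∈ R, u * L < r ∧ (r : ℝ) ≤ v * L ∧ IsCoprime a (r : ℤ)) ∧
    c * (L * Real.exp L) ≤
      ∑ r ∈ R, ∑ b ∈ BX a (WW a.natAbs L) r, ThL a r (WW a.natAbs L) b L) →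
  S_CNTX → S_G4X → (∃ C : ℝ, 0 < C ∧ ∀ a : ℤ, a ≠ 0 → ∃ L₀ : ℝ,
    ∀ L : ℝ, L₀ ≤ L → ∀ (K : ℕ) (R : Finset ℕ), (K : ℝ) ≤ L ^ 2 → R ⊆ Icc 1 K →
    (∀ r ∈ R, IsCoprime a (r : ℤ)) →
    ∑ r ∈ R, ∑ b ∈ BX a (WW a.natAbs L) r, ((SX a (WW a.natAbs L) b r K).card : ℝ) *
        ThL a r (WW a.natAbs L) b L ≤
      C * (Real.exp L * (((WW a.natAbs L).totient : ℝ) / (WW a.natAbs L)) * (K : ℝ) ^ 2)) → SelX

/-- The property of the modulus `n`: exactly one prime `q ≡ a` up to `t n log n` (apart from `|a|`),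
it lies in `(α n log n, β n log n]`, and there is no prime `≡ -a` up to `t n log n`. -/
def Good (a : ℤ) (α β t : ℝ) (n : ℕ) : Prop :=
  IsCoprime a (n : ℤ) ∧ ∃ q : ℕ, q.Prime ∧ (q : ℤ) ≡ a [ZMOD (n : ℤ)] ∧
    α * (n * Real.log n) < q ∧ (q : ℝ) ≤ β * (n * Real.log n) ∧
    ∀ q' : ℕ, q'.Prime → ((q' : ℤ) ≡ a [ZMOD (n : ℤ)] ∨ (q' : ℤ) ≡ -a [ZMOD (n : ℤ)]) →
      q' ≠ a.natAbs → (q' : ℝ) ≤ t * (n * Real.log n) → q' = q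

/-- FNAX: a good `x` gives a good modulus `n = b + W x`.
PROOF. `q = a + r n ∈ (r e^L, 3/2 r e^L]`, so `e^L - |a| ≤ n ≤ 3/2 e^L + |a|`,
`L - 1/10 ≤ log n ≤ L + 1/2`, and `α n log n < u L n - |a| ≤ q ≤ v L n + |a| ≤ β n log n` as
`α < u < v < β`. `(a, n) = 1`: a common prime divisor divides the prime `q > |a|`. A prime
`q' ≡ a`, `q' ≠ |a|`, `q' ≤ t n log n`, is `a + k n` with `1 ≤ k ≤ K`, a prime `q' ≡ -a`,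
`q' ≠ |a|`, is `-a + k n` with `1 ≤ k ≤ K` (`n > 2|a|`): so `±q' = a + k n` with `0 < |k| ≤ K`. If
`k ≠ r`, put `j = K + k`: if `j ∈ SX` a prime `l ≤ exp (L/100)` divides `q' > l`, otherwise a prime
`p ∣ W` divides `a + k b`, hence `a + k n = ±q'`, and `p ≤ sqrt L < q'`. (`k = r` with the sign `-`
is impossible: `-q' = a + r n = q > 0`.) -/
def S_FNAX : Prop := ∀ (a : ℤ) (α β t u v : ℝ), a ≠ 0 → 0 ≤ α → α < u → u < v → v < β → β ≤ t →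
  ∃ L₀ : ℝ, ∀ L : ℝ, L₀ ≤ L → ∀ (b r x : ℕ), u * L < (r : ℝ) → (r : ℝ) ≤ v * L →
  b ∈ BX a (WW a.natAbs L) r → x ∈ PiL a r (WW a.natAbs L) b L →
  (∀ j ∈ SX a (WW a.natAbs L) b r (⌊t * (L + 1)⌋₊ + 1), ∃ l : ℕ, l.Prime ∧
    (l : ℝ) ≤ Real.exp (L / 100) ∧
    (l : ℤ) ∣ a + ((j : ℤ) - (⌊t * (L + 1)⌋₊ + 1 : ℕ)) * ((b + WW a.natAbs L * x : ℕ) : ℤ)) →
  Real.exp L - a.natAbs ≤ ((b + WW a.natAbs L * x : ℕ) : ℝ) ∧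
  ((b + WW a.natAbs L * x : ℕ) : ℝ) ≤ 3 / 2 * Real.exp L + a.natAbs ∧
  Good a α β t (b + WW a.natAbs L * x) ∧
  ∀ k : ℕ, 1 ≤ k → k ≤ ⌊t * (L + 1)⌋₊ + 1 → k ≠ r → ¬ (qv a k (b + WW a.natAbs L * x)).Prime

/-- The theorem. -/
def FinX : Prop := ∀ (a : ℤ) (α β t : ℝ), a ≠ 0 → 0 ≤ α → α < β → β ≤ t →
  ∃ δ : ℝ, 0 < δ ∧ ∃ x₀ : ℕ, ∀ x : ℕ, x₀ ≤ x → ∃ A : Finset ℕ, A ⊆ Ioc x (2 * x) ∧
    (∀ n ∈ A, Good a α β t n) ∧ δ * x ≤ (A.card : ℝ)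

/-- FNBX. PROOF. `u = α + (β - α)/3`, `v = β - (β - α)/3`; `L = log (x + |a| + 1)`; `C₀` from KVH (with
`t := C1 |a|/φ(|a|)` and `K := ⌈C1 L⌉`), `SelX`, `EngX` for every pair `(r, b)` of `GP` with
`S = SX a W b r K`, `i = K + r`, `σ` from SGX with `N₀ = ⌊exp (L/100)⌋` (the equivalence for `j = i`
is the hypothesis on `r`; `v = |a + (j - K) n| ≥ 1`, `log v ≤ 3 L`, as `n ≥ b > |a|`, `j ≠ K`). The
good `x` have total weight at least `δ ThL`; in total `δ c₁ L e^L`, every weight is at most `2 L`: at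
least `(δ c₁/2) e^L` triples `(r, b, x)`. By FNAX `n = b + W x` is `Good`, in `(x, 2x]`, and
`(r, b, x) ↦ n` is injective: `b` is determined by `n` modulo `W`, and `r` is the only
`k ≤ K` with `a + k n` prime (last part of FNAX; the other `r'` is at most `v L ≤ K`). -/
def S_FNBX : Prop := S_SGX → IP.S_KVH → EngX → SelX →
  (∀ (a : ℤ) (α β t u v : ℝ), a ≠ 0 → 0 ≤ α → α < u → u < v → v < β → β ≤ t →
  ∃ L₀ : ℝ, ∀ L : ℝ, L₀ ≤ L → ∀ (b r x : ℕ), u * L < (r : ℝ) → (r : ℝ) ≤ v * L →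
  b ∈ BX a (WW a.natAbs L) r → x ∈ PiL a r (WW a.natAbs L) b L →
  (∀ j ∈ SX a (WW a.natAbs L) b r (⌊t * (L + 1)⌋₊ + 1), ∃ l : ℕ, l.Prime ∧
    (l : ℝ) ≤ Real.exp (L / 100) ∧
    (l : ℤ) ∣ a + ((j : ℤ) - (⌊t * (L + 1)⌋₊ + 1 : ℕ)) * ((b + WW a.natAbs L * x : ℕ) : ℤ)) →
  Real.exp L - a.natAbs ≤ ((b + WW a.natAbs L * x : ℕ) : ℝ) ∧
  ((b + WW a.natAbs L * x : ℕ) : ℝ) ≤ 3 / 2 * Real.exp L + a.natAbs ∧
  Good a α β t (b + WW a.natAbs L * x) ∧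
  ∀ k : ℕ, 1 ≤ k → k ≤ ⌊t * (L + 1)⌋₊ + 1 → k ≠ r →
    ¬ (qv a k (b + WW a.natAbs L * x)).Prime) → FinX

end

end Pool.Agent.FCT
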