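import Mathlib
import Pool.Agent.FCT.St2
import Pool.Agent.FXD.HerrS
import Pool.Agent.FXD.MomS

set_option autoImplicit false
set_option linter.unusedSectionVars false
set_option linter.unusedSimpArgs false
set_option linter.unusedVariables false

/-!
FCT, module EDPX: the engine over a weighted set of integers for which one site is not hit
(helper96; adapted from Pool/Agent/IP/EDP.lean of helper83).
-/

namespace Pool.Agent.FCT

open Finset Pool.Agent.Lib_helper9.LG IP IP.EDP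
open Pool.Agent.FXD (Bij)

noncomputable section

namespace EDPXx

section eng

variable {P : ℕ → Finset ℕ} {bb : ℕ → ℕ} {N m W b i n J : ℕ} {Q S : Finset ℕ}
  {z a B B1 VJ : ℝ} {σ : ℕ → ℕ}

/-- the numbers `x` of the engine -/
abbrev xfS (m W b : ℕ) (Q S : Finset ℕ) (σ : ℕ → ℕ) : {l // l ∈ Q} → {k // k ∈ S} → ℕ → ℝ :=
  fun i k x => xx m i k (σ (b + W * x))

lemma herr (h : Ctx P bb N m W b i n J Q S z a B B1 VJ) (hσ : ∀ l ∈ SS P N ∪ Q, Bij σ l)
    (α β : {l // l ∈ Q} → Option {k // k ∈ S}) (A A' : Finset ℕ) :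
    |(∑ ω ∈ Om m W b n, (Lm P bb N m A (σ (b + W * ω)) * vl (xfS m W b Q S σ) α ω) *
      (Lm P bb N m A' (σ (b + W * ω)) * vl (xfS m W b Q S σ) β ω)) / MM m n -
      vv P bb N m ![A, A'] * gram (qa Q) α β| ≤
    (2 ^ m.primeFactors.card * LV P bb N ^ 2 / MM m n) *
      (Real.exp (sz (la Q) (spp α)) * Real.exp (sz (la Q) (spp β))) :=
  FXD.herrS loc P bb N m W b n Q S α β A A' σ h.hm h.hW h.hn h.hWm
    (fun l hl => ⟨(h.sv.hS1 l hl).1, (h.sv.hS1 l hl).2.1, (h.sv.hS1 l hl).2.2.1⟩) h.hQ1 h.hdQ hσ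
    (fun k hk => h.hkQ k (mem_insert_of_mem hk))

open Classical in
/-- CRL for the engine -/
theorem lower (hCRL : S_CRL) (h : Ctx P bb N m W b i n J Q S z a B B1 VJ)
    (hσ : ∀ l ∈ SS P N ∪ Q, Bij σ l) :
    1 ≤ ZZ P N J Q S a B B1 ∧
    ZZ P N J Q S a B B1 * (1 - 2 * (4 * J * S.card / z) / VJ) -
      (2 ^ m.primeFactors.card * LV P bb N ^ 2 / MM m n) * (Real.exp (3 * B) * 3) ^ 2 ≤
      mn m W b n (fun x => GX P bb N m W b Q S σ a B B1 x ^ 2) := by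
  have hz0 : 0 < z := by have := h.cfg.hz; linarith
  have key := hCRL {l // l ∈ Q} {k // k ∈ S} ℕ (qa Q) (la Q) a B B1 (la_pos h.cfg) (qa_pos h.cfg)
    h.ha (fun i => h.haz.trans (la_le h.cfg i)) h.hB1 h.hB h.hnorm (xfS m W b Q S σ) (Om m W b n)
    (fun A x => Lm P bb N m (em S A) (σ (b + W * x))) (fun A A' => vv P bb N m ![em S A, em S A'])
    (Vf P N J) VJ J Vf_zero (Vf_nonneg h.sv) h.hVJ
    (by
      intro j hj
      rw [Vf_le (by omega)]
      exact h.hVJ2 j hj)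
    (card_act h.cfg)
    (by
      intro A hA
      rw [Vf_le (by omega), ← em_card A]
      apply VLOd.vlo NNd.nn P bb N m (em S A)
      · intro l hl
        obtain ⟨g1, g2, g3, g4⟩ := h.sv.hS1 l hl
        refine ⟨g1, g2, ?_⟩
        rw [em_card]
        omega
      · intro k hk l hl
        exact h.sv.hkS k (mem_insert_of_mem (em_sub A hk)) l hl)
    (by
      intro A A' hA hA'
      apply vv_two h.sv ((em_sub A).trans (subset_insert _ _))
        ((em_sub A').trans (subset_insert _ _))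
      refine (card_union_le _ _).trans ?_
      rw [em_card, em_card]
      omega)
    (MM m n) (4 * J * S.card / z) (2 ^ m.primeFactors.card * LV P bb N ^ 2 / MM m n) 3
    (MM_pos h.hm h.hn)
    (by
      have := MM_pos (m := m) (n := n) h.hm h.hn
      positivity)
    (by positivity) (exp_cfg h.cfg) (eps_cfg h.cfg)
    (fun α β _ _ A A' _ _ => herr h hσ α β (em S A) (em S A'))
  exact key


/-- the engine function with the additional site `i` -/
def GiS (P : ℕ → Finset ℕ) (bb : ℕ → ℕ) (N m W b i : ℕ) (Q S : Finset ℕ) (σ : ℕ → ℕ)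
    (a B B1 : ℝ) (x : ℕ) : ℝ :=
  GD (la Q) a B B1 (xfS m W b Q S σ)
    (fun (A : Finset {k // k ∈ S}) (x : ℕ) => Lm P bb N m (insert i (em S A)) (σ (b + W * x))) x

/-- the function of the engine as a function `GD` -/
lemma GX_eq (x : ℕ) : GX P bb N m W b Q S σ a B B1 x = GD (la Q) a B B1 (xfS m W b Q S σ)
    (fun (A : Finset {k // k ∈ S}) (x : ℕ) => Lm P bb N m (em S A) (σ (b + W * x))) x := rfl

open Classical in
/-- CRU for the engine -/
theorem upper (hCRU : S_CRU) (h : Ctx P bb N m W b i n J Q S z a B B1 VJ)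
    (hσ : ∀ l ∈ SS P N ∪ Q, Bij σ l) (hV1 : 0 < VS (SS P N) 1) :
    (∑ x ∈ (Om m W b n).filter (fun x => ∃ k : {k // k ∈ S}, (∀ j : {l // l ∈ Q},
        xfS m W b Q S σ j k x = 1 / qa Q j) ∧ ∀ A : Finset {k // k ∈ S},
          Lm P bb N m (insert i (em S (insert k A))) (σ (b + W * x)) =
            Lm P bb N m (insert i (em S A)) (σ (b + W * x))),
      GiS P bb N m W b i Q S σ a B B1 x ^ 2) / MM m n ≤
    (S.card : ℝ) *
      (2 * VS (SS P N) 1 * (((4 * J / z) ^ 2 +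
        Real.exp ((2 * a * (VS (SS P N) 1 * S.card) - (B - B1)) / B1)) *
          (VS (SS P N) 1 * ZZ P N J Q S a B B1)) +
        2 * (4 * J * S.card / z) / VJ * ZZ P N J Q S a B B1 +
        (2 ^ m.primeFactors.card * LV P bb N ^ 2 / MM m n) * (Real.exp (3 * B) * 3) ^ 2) := by
  have hz0 : 0 < z := by have := h.cfg.hz; linarith
  have hcardS : Fintype.card {k // k ∈ S} = S.card := by simp
  have key := hCRU {l // l ∈ Q} {k // k ∈ S} ℕ (qa Q) (la Q) a B B1 (la_pos h.cfg) (qa_pos h.cfg)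
    h.ha (fun i => h.haz.trans (la_le h.cfg i)) h.hB1 h.hB h.hnorm (xfS m W b Q S σ) (Om m W b n)
    (fun A x => Lm P bb N m (insert i (em S A)) (σ (b + W * x)))
    (fun A A' => vv P bb N m ![insert i (em S A), insert i (em S A')])
    (fun j => VS (SS P N) 1 * Vf P N J j) (VS (SS P N) 1) (VS (SS P N) 1 * VJ) J
    (fun j => mul_nonneg hV1.le (Vf_nonneg h.sv j)) hV1.le
    (fun j => mul_le_mul_of_nonneg_left (Vf_succ h.sv j) hV1.le)
    (mul_pos hV1 h.hVJ)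
    (by
      intro j hj
      rw [Vf_le (by omega)]
      exact mul_le_mul_of_nonneg_left (h.hVJ2 j hj) hV1.le)
    (card_act h.cfg)
    (by
      intro A hA
      have h5 := vv_up h.sv (ins_sub (i := i) A) (ins_sub (i := i) A) (by
        rw [union_self, ins_card h]
        omega)
      rw [union_self, ins_card h] at h5
      refine h5.trans ?_
      rw [Vf_le hA]
      have h6 : VS (SS P N) (A.card + 1) ≤ VS (SS P N) 1 * VS (SS P N) A.card := by
        apply VS_succ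
        intro l hl
        have := (h.sv.hS1 l hl).2.2.2
        omega
      linarith)
    (by
      intro A A' hA hA'
      apply vv_two h.sv (ins_sub A) (ins_sub A')
      have h5 : insert i (em S A) ∪ insert i (em S A') = insert i (em S A ∪ em S A') := by
        ext k
        simp only [mem_union, mem_insert]
        tauto
      rw [h5]
      refine (card_insert_le _ _).trans ?_
      have h6 := card_union_le (em S A) (em S A')
      rw [em_card, em_card] at h6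
      omega)
    (MM m n) (4 * J * S.card / z) (2 ^ m.primeFactors.card * LV P bb N ^ 2 / MM m n) 3 (4 * J / z)
    (MM_pos h.hm h.hn)
    (by
      have := MM_pos (m := m) (n := n) h.hm h.hn
      positivity)
    (by positivity) (exp_cfg h.cfg) (eps_cfg h.cfg) (by positivity) (del_cfg h.cfg)
    (fun α β _ _ A A' _ _ => herr h hσ α β (insert i (em S A)) (insert i (em S A')))
  have hZ : ∑ α : {l // l ∈ Q} → Option {k // k ∈ S},
      vw (la Q) B (fun j => VS (SS P N) 1 * Vf P N J j) (fun _ => ww (la Q) (qa Q) a B1) α =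
      VS (SS P N) 1 * ZZ P N J Q S a B B1 := by
    unfold ZZ
    rw [Finset.mul_sum]
    apply Finset.sum_congr rfl
    intro α _
    unfold vw
    ring
  rw [hZ, hcardS] at key
  have h7 : 2 * (4 * J * S.card / z) / (VS (SS P N) 1 * VJ) * (VS (SS P N) 1 *
      ZZ P N J Q S a B B1) = 2 * (4 * J * S.card / z) / VJ * ZZ P N J Q S a B B1 := by
    have := h.hVJ
    field_simp
  rw [h7] at key
  exact key

/-- the fourth moment of a function `GD` -/
theorem four (h : Ctx P bb N m W b i n J Q S z a B B1 VJ) (F : Finset ℕ → Finset ℕ) {G0 : ℝ}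
    (hG0 : 1 ≤ G0)
    (hG : ∀ k ∈ S, ∀ x ∈ Om m W b n, ∏ l ∈ Q, (1 + |xx m l k (σ (b + W * x))|) ≤ G0) :
    ∑ x ∈ Om m W b n, (GD (la Q) a B B1 (xfS m W b Q S σ)
      (fun (A : Finset {k // k ∈ S}) (x : ℕ) => Lm P bb N m (F (em S A)) (σ (b + W * x))) x) ^ 4 ≤
    (G0 ^ J) ^ 4 * ∑ x ∈ Om m W b n,
      (∑ A ∈ S.powerset.filter (fun A => A.card ≤ J), Lm P bb N m (F A) (σ (b + W * x))) ^ 4 := by
  classical
  obtain ⟨-, -, -, -, hL0, hL1, hL2⟩ := NNd.nn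
  rw [Finset.mul_sum]
  apply Finset.sum_le_sum
  intro x hx
  have h5 := gbStmt Q S (la Q) a B B1 (xfS m W b Q S σ)
    (fun A x => Lm P bb N m (F (em S A)) (σ (b + W * x))) J x G0 (la_pos h.cfg) h.ha
    (fun i => h.haz.trans (la_le h.cfg i)) (card_act h.cfg)
    (fun A => hL0 _ _ _ _ _ _) hG0
    (by
      intro k
      have h6 := hG k k.2 x hx
      rw [← Finset.prod_coe_sort] at h6
      exact h6)
  have h6 := sum_subsets S J (fun A => Lm P bb N m (F A) (σ (b + W * x)))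
  rw [← h6, ← mul_pow, ← Even.pow_abs (n := 4) (by decide)]
  exact pow_le_pow_left₀ (abs_nonneg _) h5 4


lemma Gf_eqS {x : ℕ} (hx : ∀ l ∈ SS P N, ¬ l ∣ σ (b + W * x) + i * m) :
    GX P bb N m W b Q S σ a B B1 x = GiS P bb N m W b i Q S σ a B B1 x := by
  obtain ⟨-, -, -, -, hL0, hL1, hL2⟩ := NNd.nn
  rw [GX_eq]
  unfold GiS GD
  apply Finset.sum_congr rfl
  intro α _
  beta_reduce
  rw [hL2 P bb N m i (em S (act α)) (σ (b + W * x)) hx]

/-- a weighted sum against a sum over a set of integers -/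
lemma sum_w_le {A : Finset ℕ} {R : Finset ℕ} (hAR : A ⊆ R) {w : ℕ → ℝ} {Λ : ℝ} (hΛ : 0 ≤ Λ)
    (hw : ∀ x ∈ A, w x ≤ Λ) (F : ℕ → ℝ) (hF : ∀ x, 0 ≤ F x) :
    ∑ x ∈ A, w x * F x ≤ Λ * ∑ x ∈ R, F x := by
  calc ∑ x ∈ A, w x * F x ≤ ∑ x ∈ A, Λ * F x :=
        Finset.sum_le_sum fun x hx => mul_le_mul_of_nonneg_right (hw x hx) (hF x)
    _ ≤ ∑ x ∈ R, Λ * F x :=
        Finset.sum_le_sum_of_subset_of_nonneg hAR fun x _ _ => mul_nonneg hΛ (hF x)
    _ = _ := by rw [Finset.mul_sum]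

/-- the final computation -/
theorem final (hMOF : S_MOFX) (hCRL : S_CRL) (hCRU : S_CRU)
    (h : Ctx P bb N m W b i n J Q S z a B B1 VJ) (hσ : ∀ l ∈ SS P N ∪ Q, Bij σ l)
    {Pl : Finset ℕ} {w : ℕ → ℝ} {T E E' G0 Λ D : ℝ} (hPO : Pl ⊆ Om m W b n)
    (hw0 : ∀ x ∈ Pl, 0 ≤ w x) (hwP : ∀ x ∈ Pl, w x ≤ Λ)
    (hno : ∀ x ∈ Pl, ∀ l ∈ SS P N, ¬ l ∣ σ (b + W * x) + i * m)
    (hLPG : |∑ x ∈ Pl, w x * GX P bb N m W b Q S σ a B B1 x ^ 2 -
      T * mn m W b n (fun x => GX P bb N m W b Q S σ a B B1 x ^ 2)| ≤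
      E * Real.sqrt (mn m W b n (fun x => GX P bb N m W b Q S σ a B B1 x ^ 4)) + E')
    (hT0 : 0 < T) (hD : 0 < D) (hΛ : 0 ≤ Λ) (hE : 0 ≤ E)
    (h1 : Λ * MM m n * VS (SS P N) 1 * (2 * (VS (SS P N) 1 * S.card)) *
      ((4 * J / z) ^ 2 +
        Real.exp ((2 * a * (VS (SS P N) 1 * S.card) - (B - B1)) / B1)) ≤ T / 16)
    (h2 : Λ * MM m n * (((S.card : ℝ) + 1) *
      ((2 ^ m.primeFactors.card * LV P bb N ^ 2 / MM m n) *
        (Real.exp (3 * B) * 3) ^ 2)) ≤ T / 16)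
    (h2' : (2 ^ m.primeFactors.card * LV P bb N ^ 2 / MM m n) *
      (Real.exp (3 * B) * 3) ^ 2 ≤ 1 / 8)
    (h3 : Λ * MM m n * (((S.card : ℝ) + 1) *
      (2 * (4 * J * S.card / z) / VJ)) ≤ T / 16)
    (h3' : 2 * (4 * J * S.card / z) / VJ ≤ 1 / 8)
    (h4 : ((S.card : ℝ) + 1) ^ (4 * J) * (2 ^ m.primeFactors.card * LV P bb N ^ 4 / MM m n) ≤
      VS (SS P N) 1)
    (h5 : E * Real.sqrt (C4 G0 J (S.card * VS (SS P N) 1)) + E' ≤ T / 8)
    (h6 : Λ * MM m n * VS (SS P N) 1 ≤ D * T)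
    (hG0 : 1 ≤ G0)
    (hG : ∀ k ∈ S, ∀ x ∈ Om m W b n, ∏ l ∈ Q, (1 + |xx m l k (σ (b + W * x))|) ≤ G0) :
    T / (16 * (D * C4 G0 J (S.card * VS (SS P N) 1))) ≤
      ∑ x ∈ Pl.filter (fun x => ∀ k ∈ S, ∃ l ∈ SS P N ∪ Q, l ∣ σ (b + W * x) + k * m), w x := by
  have hz0 : 0 < z := by have := h.cfg.hz; linarith
  obtain ⟨V1, hV1d⟩ : ∃ V1 : ℝ, V1 = VS (SS P N) 1 := ⟨_, rfl⟩
  obtain ⟨K, hKd⟩ : ∃ K : ℝ, K = (S.card : ℝ) := ⟨_, rfl⟩
  obtain ⟨M, hMd⟩ : ∃ M : ℝ, M = MM m n := ⟨_, rfl⟩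
  obtain ⟨C, hCd⟩ : ∃ C : ℝ, C = C4 G0 J (K * V1) := ⟨_, rfl⟩
  have hV1 := V1_pos h h4
  have hV11 := V1_le_one h.sv
  have hM0 : 0 < M := hMd ▸ MM_pos h.hm h.hn
  have hK0 : 0 ≤ K := hKd ▸ Nat.cast_nonneg _
  have hC0 : 0 < C := by
    rw [hCd]
    unfold C4
    have : 0 < Real.exp (15 * (K * V1)) := Real.exp_pos _
    positivity
  -- the second moment
  obtain ⟨hZ1, hlow⟩ := lower hCRL h hσ
  obtain ⟨Z, hZd⟩ : ∃ Z : ℝ, Z = ZZ P N J Q S a B B1 := ⟨_, rfl⟩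
  obtain ⟨e, hed⟩ : ∃ e : ℝ, e = (2 ^ m.primeFactors.card * LV P bb N ^ 2 / MM m n) *
      (Real.exp (3 * B) * 3) ^ 2 := ⟨_, rfl⟩
  obtain ⟨e3, he3d⟩ : ∃ e3 : ℝ, e3 = 2 * (4 * J * S.card / z) / VJ := ⟨_, rfl⟩
  obtain ⟨s, hsd⟩ : ∃ s : ℝ, s = (4 * J / z) ^ 2 +
        Real.exp ((2 * a * (VS (SS P N) 1 * S.card) - (B - B1)) / B1) := ⟨_, rfl⟩
  have he0 : 0 ≤ e := by
    rw [hed, ← hMd]
    positivity
  have he30 : 0 ≤ e3 := by
    rw [he3d]
    have := h.hVJ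
    positivity
  rw [← hZd] at hZ1 hlow
  rw [← hed] at hlow h2 h2'
  rw [← he3d] at hlow h3 h3'
  rw [← hsd] at h1
  rw [← hMd, ← hKd] at h2 h3
  rw [← hMd, ← hKd, ← hV1d] at h1
  obtain ⟨m2, hm2⟩ : ∃ m2 : ℝ, m2 = mn m W b n (fun x => GX P bb N m W b Q S σ a B B1 x ^ 2) :=
    ⟨_, rfl⟩
  obtain ⟨m4, hm4⟩ : ∃ m4 : ℝ, m4 = mn m W b n (fun x => GX P bb N m W b Q S σ a B B1 x ^ 4) :=
    ⟨_, rfl⟩
  rw [← hm2] at hlow hLPG
  rw [← hm4] at hLPG
  have hlow' : 3 / 4 * Z ≤ m2 := by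
    have : Z * e3 ≤ Z * (1 / 8) := mul_le_mul_of_nonneg_left h3' (by linarith)
    nlinarith
  -- the fourth moment
  have hσS : ∀ l ∈ SS P N, Bij σ l := fun l hl => hσ l (mem_union_left _ hl)
  have hmom := FXD.momS vup P bb N m W b n J S σ h.hm h.hW h.hn h.hWm h.sv.hd
    (fun l hl => ⟨(h.sv.hS1 l hl).1, (h.sv.hS1 l hl).2.1, (h.sv.hS1 l hl).2.2.1, by
      have := (h.sv.hS1 l hl).2.2.2
      omega⟩) hσS (fun k hk => h.sv.hkS k (mem_insert_of_mem hk)) h.sv.hsum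
    (by
      intro j hj
      have := h.sv.hb j hj
      omega)
  have hmof := hMOF P bb N m W b n J i S σ h.hm h.hW h.hn h.hWm h.sv.hd h.sv.hS1 hσS h.sv.hiS
    h.sv.hkS h.sv.hsum h.sv.hb
  have hm4le : m4 ≤ C := by
    rw [hm4, hCd]
    unfold mn C4
    have a1 := four h id hG0 hG
    have a2 : (∑ x ∈ Om m W b n, GX P bb N m W b Q S σ a B B1 x ^ 4) / M ≤
        ((G0 ^ J) ^ 4 * ∑ x ∈ Om m W b n,
      (∑ A ∈ S.powerset.filter (fun A => A.card ≤ J), Lm P bb N m (id A) (σ (b + W * x))) ^ 4) /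
        M :=
      div_le_div_of_nonneg_right a1 hM0.le
    have a3 : (∑ x ∈ Om m W b n,
      (∑ A ∈ S.powerset.filter (fun A => A.card ≤ J), Lm P bb N m (id A) (σ (b + W * x))) ^ 4) /
        M ≤ 2 * Real.exp (15 * (K * V1)) + 1 := by
      rw [hMd, hKd, hV1d]
      exact hmom.trans (by
        have : ((S.card : ℝ) + 1) ^ (4 * J) * (2 ^ m.primeFactors.card * LV P bb N ^ 4 /
          ((n : ℝ) * ((m.totient : ℝ) / m))) ≤ VS (SS P N) 1 := h4
        linarith)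
    rw [mul_div_assoc] at a2
    have a4 : (∑ x ∈ Om m W b n, GX P bb N m W b Q S σ a B B1 x ^ 4) / M ≤
        (G0 ^ J) ^ 4 * (2 * Real.exp (15 * (K * V1)) + 1) :=
      a2.trans (mul_le_mul_of_nonneg_left a3 (by positivity))
    rw [hMd] at a4
    exact a4
  have hGi4 : ∑ x ∈ Om m W b n, GiS P bb N m W b i Q S σ a B B1 x ^ 4 ≤ M * (V1 * C) := by
    have a1 := four h (fun A => insert i A) hG0 hG
    have a3 : (∑ x ∈ Om m W b n, (∑ A ∈ S.powerset.filter (fun A => A.card ≤ J),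
        Lm P bb N m (insert i A) (σ (b + W * x))) ^ 4) / M ≤
        V1 * (2 * Real.exp (15 * (K * V1)) + 1) := by
      rw [hMd, hKd, hV1d]
      exact hmof.trans (by
        have : ((S.card : ℝ) + 1) ^ (4 * J) * (2 ^ m.primeFactors.card * LV P bb N ^ 4 /
          ((n : ℝ) * ((m.totient : ℝ) / m))) ≤ VS (SS P N) 1 := h4
        linarith)
    rw [div_le_iff₀ hM0] at a3
    calc ∑ x ∈ Om m W b n, GiS P bb N m W b i Q S σ a B B1 x ^ 4
        ≤ (G0 ^ J) ^ 4 * ∑ x ∈ Om m W b n, (∑ A ∈ S.powerset.filter (fun A => A.card ≤ J),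
          Lm P bb N m (insert i A) (σ (b + W * x))) ^ 4 := a1
      _ ≤ (G0 ^ J) ^ 4 * (V1 * (2 * Real.exp (15 * (K * V1)) + 1) * M) :=
          mul_le_mul_of_nonneg_left a3 (by positivity)
      _ = M * (V1 * C) := by
          rw [hCd]
          unfold C4
          ring
  -- the second moment over the weighted set
  have hA : 3 / 4 * Z * T - T / 8 ≤
      ∑ x ∈ Pl, w x * GX P bb N m W b Q S σ a B B1 x ^ 2 := by
    have a1 := (abs_le.1 hLPG).1
    have a2 : E * Real.sqrt m4 ≤ E * Real.sqrt C :=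
      mul_le_mul_of_nonneg_left (Real.sqrt_le_sqrt hm4le) hE
    have a3 : E * Real.sqrt C + E' ≤ T / 8 := by
      rw [hCd, hKd, hV1d]
      exact h5
    have a4 : T * (3 / 4 * Z) ≤ T * m2 := mul_le_mul_of_nonneg_left hlow' hT0.le
    linarith
  -- the bad part
  have hbad : ∑ x ∈ Pl.filter (fun x => ¬ ∀ k ∈ S, ∃ l ∈ SS P N ∪ Q,
      l ∣ σ (b + W * x) + k * m), w x * GX P bb N m W b Q S σ a B B1 x ^ 2 ≤
      3 / 16 * (T * Z) := by
    classical
    have a1 := upper hCRU h hσ hV1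
    rw [← hsd, ← hed, ← he3d, ← hZd, ← hMd, ← hV1d, ← hKd, div_le_iff₀ hM0] at a1
    have a2 := arith1 hΛ hM0.le hK0 hZ1 hT0.le he30 he0 h1 h2 h3
    refine le_trans ?_ a2
    have a3 : ∑ x ∈ Pl.filter (fun x => ¬ ∀ k ∈ S, ∃ l ∈ SS P N ∪ Q,
        l ∣ σ (b + W * x) + k * m), w x * GX P bb N m W b Q S σ a B B1 x ^ 2 =
        ∑ x ∈ Pl.filter (fun x => ¬ ∀ k ∈ S, ∃ l ∈ SS P N ∪ Q,
        l ∣ σ (b + W * x) + k * m), w x * GiS P bb N m W b i Q S σ a B B1 x ^ 2 := by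
      apply Finset.sum_congr rfl
      intro x hx
      rw [Gf_eqS (hno x (mem_filter.1 hx).1)]
    rw [a3]
    have a4 : Pl.filter (fun x => ¬ ∀ k ∈ S, ∃ l ∈ SS P N ∪ Q,
        l ∣ σ (b + W * x) + k * m) ⊆
        (Om m W b n).filter (fun x => ∃ k : {k // k ∈ S}, (∀ j : {l // l ∈ Q},
        xfS m W b Q S σ j k x = 1 / qa Q j) ∧ ∀ A : Finset {k // k ∈ S},
          Lm P bb N m (insert i (em S (insert k A))) (σ (b + W * x)) =
            Lm P bb N m (insert i (em S A)) (σ (b + W * x))) := by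
      intro x hx
      rw [mem_filter] at hx ⊢
      obtain ⟨hx1, hx2⟩ := hx
      refine ⟨hPO hx1, ?_⟩
      push Not at hx2
      obtain ⟨k, hk, hk2⟩ := hx2
      refine ⟨⟨k, hk⟩, ?_, ?_⟩
      · intro j
        have a5 := hk2 j (mem_union_right _ j.2)
        show xx m j k (σ (b + W * x)) = 1 / (((j : ℕ) : ℝ) - 1)
        unfold xx
        rw [if_neg a5]
      · intro A
        rw [em_insert, insert_comm]
        apply NNd.nn.2.2.2.2.2.2
        intro l hl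
        exact hk2 l (mem_union_left _ hl)
    have a6 : ∑ x ∈ (Om m W b n).filter (fun x => ∃ k : {k // k ∈ S}, (∀ j : {l // l ∈ Q},
        xfS m W b Q S σ j k x = 1 / qa Q j) ∧ ∀ A : Finset {k // k ∈ S},
          Lm P bb N m (insert i (em S (insert k A))) (σ (b + W * x)) =
            Lm P bb N m (insert i (em S A)) (σ (b + W * x))),
        GiS P bb N m W b i Q S σ a B B1 x ^ 2 ≤
          K * (2 * V1 * (s * (V1 * Z)) + e3 * Z + e) * M := by
      convert a1 using 3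
    refine (sum_w_le a4 hΛ (fun x hx => hwP x (mem_filter.1 hx).1) _
      (fun x => sq_nonneg _)).trans ?_
    refine mul_le_mul_of_nonneg_left ?_ hΛ
    rw [mul_comm M]
    exact a6
  -- the good part
  obtain ⟨Gp, hGp⟩ : ∃ Gp : Finset ℕ, Gp = Pl.filter (fun x => ∀ k ∈ S, ∃ l ∈ SS P N ∪ Q,
      l ∣ σ (b + W * x) + k * m) := ⟨_, rfl⟩
  have hGpP : Gp ⊆ Pl := by
    rw [hGp]
    exact filter_subset _ _
  have hgood : 7 / 16 * T ≤ ∑ x ∈ Gp, w x * GX P bb N m W b Q S σ a B B1 x ^ 2 := by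
    have a1 := Finset.sum_filter_add_sum_filter_not Pl
      (fun x => ∀ k ∈ S, ∃ l ∈ SS P N ∪ Q, l ∣ σ (b + W * x) + k * m)
      (fun x => w x * GX P bb N m W b Q S σ a B B1 x ^ 2)
    rw [← hGp] at a1
    nlinarith
  have hfour : ∑ x ∈ Gp, w x * GX P bb N m W b Q S σ a B B1 x ^ 4 ≤
      D * T * C := by
    have a1 : ∑ x ∈ Gp, w x * GX P bb N m W b Q S σ a B B1 x ^ 4 =
        ∑ x ∈ Gp, w x * GiS P bb N m W b i Q S σ a B B1 x ^ 4 := by
      apply Finset.sum_congr rfl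
      intro x hx
      rw [Gf_eqS (hno x (hGpP hx))]
    rw [a1]
    have a2 := sum_w_le (A := Gp) (R := Om m W b n) (w := w)
      (hGpP.trans hPO) hΛ (fun x hx => hwP x (hGpP hx))
      (fun x => GiS P bb N m W b i Q S σ a B B1 x ^ 4) (fun x => Even.pow_nonneg (by decide) _)
    refine a2.trans ?_
    refine (mul_le_mul_of_nonneg_left hGi4 hΛ).trans ?_
    have a3 : Λ * M * V1 ≤ D * T := by
      rw [hMd, hV1d]
      exact h6
    calc Λ * (M * (V1 * C)) = Λ * M * V1 * C := by ring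
      _ ≤ D * T * C := mul_le_mul_of_nonneg_right a3 hC0.le
  have hcs := cs (A := Gp) w (GX P bb N m W b Q S σ a B B1)
    (fun x hx => hw0 x (hGpP hx))
  rw [← hGp]
  obtain ⟨X, hX⟩ : ∃ X : ℝ, X = ∑ x ∈ Gp, w x := ⟨_, rfl⟩
  rw [← hX] at hcs ⊢
  have hX0 : 0 ≤ X := by
    rw [hX]
    exact Finset.sum_nonneg fun x hx => hw0 x (hGpP hx)
  have b1 : (7 / 16 * T) ^ 2 ≤ X * (D * T * C) :=
    ((pow_le_pow_left₀ (by positivity) hgood 2).trans hcs).trans
      (mul_le_mul_of_nonneg_left hfour hX0)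
  rw [← hKd, ← hV1d, ← hCd, div_le_iff₀ (by positivity)]
  have b2 : T * (49 / 256 * T) ≤ T * (X * (D * C)) := by nlinarith
  have b3 : 49 / 256 * T ≤ X * (D * C) := le_of_mul_le_mul_left b2 hT0
  linarith

end eng

end EDPXx

/-- **The module.** -/
theorem t_EDPX : S_EDPX := by
  intro hCRL hCRU hMOF P bb N m W b i n J Q S z a B B1 VJ σ h hσ Pl w T E E' G0 Λ D hPO hw0 hwP
    hno hLPG hT0 hD hΛ hE h1 h2 h2' h3 h3' h4 h5 h6 hG0 hG
  exact EDPXx.final hMOF hCRL hCRU h hσ hPO hw0 hwP hno hLPG hT0 hD hΛ hE h1 h2 h2' h3 h3' h4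
    h5 h6 hG0 hG

end

end Pool.Agent.FCT
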