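import Mathlib
import Pool.Agent.FCT.St2
import Pool.Agent.CRE.Stmts
import Pool.Agent.UIP.St

set_option autoImplicit false

/-!
FCT, part IV: the UNIFORM theorem `FinU` for fixed classes. There are absolute `c, C > 0` such that
for every integer `a ≠ 0` and `ε > 0`, all `x ≥ x₀(a, ε)`, `1 ≤ t ≤ c loglog x` and all windows
`ε ≤ β ≤ t`, `0 ≤ α ≤ (1 - ε) β`, at least `exp (- exp (C t)) (β - α) (φ(|a|)/|a|) x` of the moduli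
`n ∈ (x, 2 x]` are `Good a α β t`. The files of part II / III and of the project UIP are the models.
We write `m = |a|`, `W = WW m L`, `K = ⌊t (L + 1)⌋ + 1`. Statements with proofs in the comments.
-/

namespace Pool.Agent.FCT

open Finset Pool.Agent.Lib_helper9.LG
open Pool.Agent.FXD (Bij)

noncomputable section

/-! ### Equidistribution with an error relative to the main sum -/

/-- HITY: the class of the prime `q` for every site. PROOF: the first part of the proof of HITX (it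
does not use `Gc`): `ψ t = r' (t + A₀)`, `ρ l k` = the class of `t` with `l ∣ σ (ψ t) + k m`. -/
def S_HITY : Prop := ∀ (Qt : Finset ℕ) (a : ℤ) (m r i : ℕ) (S : Finset ℕ) (σ : ℕ → ℕ),
  (∀ l ∈ Qt, l.Prime ∧ ¬ l ∣ m ∧ r < l ∧ i < l ∧ Bij σ l ∧
    ∀ n : ℕ, ((l : ℤ) ∣ a + (r : ℤ) * (n : ℤ) ↔ l ∣ σ n + i * m)) →
  (∀ l ∈ Qt, ∀ k ∈ S, k < l) → 1 ≤ r → i ∉ S →
  ∃ (ψ : ℕ → ℕ) (ρ : ℕ → {k // k ∈ S} → ℕ),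
    (∀ l ∈ Qt, Bij (fun t => σ (ψ t)) l) ∧
    (∀ q n : ℕ, (q : ℤ) = a + (r : ℤ) * (n : ℤ) → ∀ l ∈ Qt, σ (ψ q) ≡ σ n [MOD l]) ∧
    Pool.Agent.IPP.Hits Qt ρ ∧
    (∀ t : ℕ, ∀ l ∈ Qt, ∀ k : {k // k ∈ S}, t % l = ρ l k ↔ l ∣ σ (ψ t) + (k : ℕ) * m)

/-- CONX: composition of functions of bounded conductor with `τ`. PROOF. Induction on `Con`; `base`:
`τ (t + pr E) ≡ τ t` modulo all `l ∈ E`, hence modulo `pr E` (`modEq_prod`), `per_modEq`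
(Pool/Agent/FXD/Sig.lean). -/
def S_CONX : Prop := ∀ (Q : Finset ℕ) (τ : ℕ → ℕ), (∀ l ∈ Q, l.Prime) → (∀ l ∈ Q, Bij τ l) →
  ∀ (D : ℝ) (g : ℕ → ℝ), Pool.Agent.CRE.Con Q D g → Pool.Agent.CRE.Con Q D (fun t => g (τ t))

/-- LPYX. PROOF (compare Pool/Agent/CRE/LPY.lean). LPA with `κ = {k // k ∈ S}`, `ρ`, `ψ` from HITY,
`F t = Gy (σ (ψ t)) ^ 2`, `z = L^100`, `D = (exp B LV)^2`, `M = 4 Zy`, `C = 32`, the modulus `W r`, the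
class of `s = a + r b`, `X₁ = ⌊r e^L⌋`, `X₂ = ⌊3/2 r e^L⌋` (the primes of `Prs` are the `a + r (b + W x)`,
`x ∈ PiL`, as in INTX); for them `F q = Gy (σ (b + W x)) ^ 2` (LEVX (3); `Gy` has the period
`pr (SS ∪ Q')`). The means agree by LEVX (2). `Fac`: by HITY, as in CRE/FCY.lean (`Gy` depends only on
the pairs `(l, k)` with `l ∣ c + k m`). The mass of the hits: by HITY and LEVX (2) it is the mean of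
`[∀ l ∈ E, l ∣ c + k l m] Gy c ^ 2`, LOC. Size: `C₁ X₂ log^4 X₂ / (W r L^33) ≤ e^L / (W L^28)`. -/
def S_LPYX : Prop := Pool.Agent.CRE.S_LPA → Pool.Agent.CRE.S_LOC → Pool.Agent.CRE.S_CNY →
  Pool.Agent.CRE.S_COA → S_LEVX → S_HITY → S_CONX →
  ∀ a : ℤ, a ≠ 0 → ∃ L₀ : ℝ, ∀ L : ℝ, L₀ ≤ L → ∀ (P : ℕ → Finset ℕ) (bb : ℕ → ℕ)
    (N m W b r i J : ℕ) (Q' S D : Finset ℕ) (y : ({l // l ∈ Q'} → Option {k // k ∈ S}) → ℝ)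
    (σ : ℕ → ℕ) (B : ℝ), m = a.natAbs →
  Pool.Agent.CRE.Cfg P bb N m J Q' S D y → Prog a W b r L →
  (∀ l ∈ SS P N ∪ Q', ¬ l ∣ W ∧ L ^ 100 < (l : ℝ)) → (∀ l ∈ Q', (l : ℝ) ≤ Real.exp (L / 10000)) →
  (∀ l ∈ SS P N ∪ Q', Bij σ l ∧
    ∀ n : ℕ, ((l : ℤ) ∣ a + (r : ℤ) * (n : ℤ) ↔ l ∣ σ n + i * m)) →
  (∀ k ∈ S, (k : ℝ) ≤ L ^ 2) → (i : ℝ) ≤ L ^ 2 → i ∉ S → LV P bb N ≤ Real.exp (L / 1000) →
  0 ≤ B → B ≤ L / 10000 →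
  (∀ α, y α ≠ 0 → sz (fun i : {l // l ∈ Q'} => Real.log ((i : ℕ) : ℝ)) (spp α) ≤ B) →
  |∑ x ∈ PiL a r W b L, lwX a r W b x *
        Pool.Agent.CRE.Gy P bb N m Q' S D y (σ (b + W * x)) ^ 2 -
      ThL a r W b L * Pool.Agent.IPP.mean (Pool.Agent.IPP.pr (SS P N ∪ Q'))
        (fun c => Pool.Agent.CRE.Gy P bb N m Q' S D y c ^ 2)| ≤
    Pool.Agent.CRE.Zy P N Q' S D y * (Real.exp L / (W.totient * L ^ 20))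

/-- The core inequality: the error is relative to the main sum `ZZ`. -/
def LPhX (P : ℕ → Finset ℕ) (bb : ℕ → ℕ) (N : ℕ) (a : ℤ) (m W b r n J : ℕ) (Q S : Finset ℕ)
    (σ : ℕ → ℕ) (L α B B1 : ℝ) : Prop :=
  |∑ x ∈ PiL a r W b L, lwX a r W b x * GX P bb N m W b Q S σ α B B1 x ^ 2 -
      ThL a r W b L * IP.mn m W b n (fun x => GX P bb N m W b Q S σ α B B1 x ^ 2)| ≤
    (Real.exp L / (W.totient * L ^ 20) + Real.exp (99 / 100 * L)) *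
      IP.EDP.ZZ P N J Q S α B B1

/-- The conclusion of LPUX. -/
def CoreX : Prop := ∀ a : ℤ, a ≠ 0 → ∃ L₀ : ℝ, ∀ L : ℝ, L₀ ≤ L → ∀ η : ℝ, 0 < η →
  η ≤ 1 / 10 ^ 8 → 1 ≤ η ^ 8 * L →
  ∀ (P : ℕ → Finset ℕ) (bb : ℕ → ℕ) (N m W b r i n J : ℕ) (Q S : Finset ℕ) (σ : ℕ → ℕ)
    (α B B1 VJ : ℝ), ParX η P bb N a m W b r i n Q S σ L α B B1 →
  IP.EDP.Ctx P bb N m W b i n J Q S (Real.exp (η * L)) α B B1 VJ →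
  (J : ℝ) * η ≤ 1 / 10 ^ 8 → 1 / L ^ (3 * J) ≤ VJ →
  LPhX P bb N a m W b r n J Q S σ L α B B1

/-- LPUX. PROOF: Pool/Agent/CRE/LPU.lean, copied, with LPYX (its conclusion is the first hypothesis),
`GX x = Gy (D := ∅) (y := yy ..) (σ (b + W x))`, and StmtAVG for `g = Gc (σ ·) ^ 2` (LEVX: level and
mean); `m = |a|` is fixed, `n = M0 L W`. -/
def S_LPUX : Prop :=
  (∀ a : ℤ, a ≠ 0 → ∃ L₀ : ℝ, ∀ L : ℝ, L₀ ≤ L → ∀ (P : ℕ → Finset ℕ) (bb : ℕ → ℕ)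
    (N m W b r i J : ℕ) (Q' S D : Finset ℕ) (y : ({l // l ∈ Q'} → Option {k // k ∈ S}) → ℝ)
    (σ : ℕ → ℕ) (B : ℝ), m = a.natAbs →
  Pool.Agent.CRE.Cfg P bb N m J Q' S D y → Prog a W b r L →
  (∀ l ∈ SS P N ∪ Q', ¬ l ∣ W ∧ L ^ 100 < (l : ℝ)) → (∀ l ∈ Q', (l : ℝ) ≤ Real.exp (L / 10000)) →
  (∀ l ∈ SS P N ∪ Q', Bij σ l ∧
    ∀ n : ℕ, ((l : ℤ) ∣ a + (r : ℤ) * (n : ℤ) ↔ l ∣ σ n + i * m)) →
  (∀ k ∈ S, (k : ℝ) ≤ L ^ 2) → (i : ℝ) ≤ L ^ 2 → i ∉ S → LV P bb N ≤ Real.exp (L / 1000) →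
  0 ≤ B → B ≤ L / 10000 →
  (∀ α, y α ≠ 0 → sz (fun i : {l // l ∈ Q'} => Real.log ((i : ℕ) : ℝ)) (spp α) ≤ B) →
  |∑ x ∈ PiL a r W b L, lwX a r W b x *
        Pool.Agent.CRE.Gy P bb N m Q' S D y (σ (b + W * x)) ^ 2 -
      ThL a r W b L * Pool.Agent.IPP.mean (Pool.Agent.IPP.pr (SS P N ∪ Q'))
        (fun c => Pool.Agent.CRE.Gy P bb N m Q' S D y c ^ 2)| ≤
    Pool.Agent.CRE.Zy P N Q' S D y * (Real.exp L / (W.totient * L ^ 20))) →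
  S_LEVX → Pool.Agent.IPP.StmtLEV → Pool.Agent.IPP.StmtAVG → Pool.Agent.IPP.StmtGLEV → CoreX

/-- EDPUX: EDPX with an error relative to `ZZ` (no bound for `C4` is needed for it).
PROOF: as EDPX (copy Pool/Agent/FCT/EDPX.lean, or import it), the only change is the second moment
over `Pl`: `∑_Pl w GX^2 ≥ (3/4) Z T - (1/8) T Z`, `Z = ZZ ≥ 1`; see Pool/Agent/UIP/EDPU.lean. -/
def S_EDPUX : Prop := IP.S_CRL → IP.S_CRU → S_MOFX →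
  ∀ (P : ℕ → Finset ℕ) (bb : ℕ → ℕ) (N m W b i n J : ℕ) (Q S : Finset ℕ) (z α B B1 VJ : ℝ)
  (σ : ℕ → ℕ), IP.EDP.Ctx P bb N m W b i n J Q S z α B B1 VJ → (∀ l ∈ SS P N ∪ Q, Bij σ l) →
  ∀ (Pl : Finset ℕ) (w : ℕ → ℝ) (T E G0 Λ D : ℝ), Pl ⊆ IP.Om m W b n →
  (∀ x ∈ Pl, 0 ≤ w x) → (∀ x ∈ Pl, w x ≤ Λ) →
  (∀ x ∈ Pl, ∀ l ∈ SS P N, ¬ l ∣ σ (b + W * x) + i * m) →
  |∑ x ∈ Pl, w x * GX P bb N m W b Q S σ α B B1 x ^ 2 -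
      T * IP.mn m W b n (fun x => GX P bb N m W b Q S σ α B B1 x ^ 2)| ≤
    E * IP.EDP.ZZ P N J Q S α B B1 →
  0 < T → 0 < D → 0 ≤ Λ → E ≤ T / 8 →
  Λ * IP.EDP.MM m n * VS (SS P N) 1 * (2 * (VS (SS P N) 1 * S.card)) *
    ((4 * J / z) ^ 2 +
      Real.exp ((2 * α * (VS (SS P N) 1 * S.card) - (B - B1)) / B1)) ≤ T / 16 →
  Λ * IP.EDP.MM m n * (((S.card : ℝ) + 1) *
    ((2 ^ m.primeFactors.card * LV P bb N ^ 2 / IP.EDP.MM m n) *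
      (Real.exp (3 * B) * 3) ^ 2)) ≤ T / 16 →
  (2 ^ m.primeFactors.card * LV P bb N ^ 2 / IP.EDP.MM m n) *
    (Real.exp (3 * B) * 3) ^ 2 ≤ 1 / 8 →
  Λ * IP.EDP.MM m n * (((S.card : ℝ) + 1) *
    (2 * (4 * J * S.card / z) / VJ)) ≤ T / 16 →
  2 * (4 * J * S.card / z) / VJ ≤ 1 / 8 →
  ((S.card : ℝ) + 1) ^ (4 * J) * (2 ^ m.primeFactors.card * LV P bb N ^ 4 / IP.EDP.MM m n) ≤
    VS (SS P N) 1 →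
  Λ * IP.EDP.MM m n * VS (SS P N) 1 ≤ D * T →
  1 ≤ G0 →
  (∀ k ∈ S, ∀ x ∈ IP.Om m W b n, ∏ l ∈ Q, (1 + |xx m l k (σ (b + W * x))|) ≤ G0) →
  T / (16 * (D * IP.C4 G0 J (S.card * VS (SS P N) 1))) ≤
    ∑ x ∈ Pl.filter (fun x => ∀ k ∈ S, ∃ l ∈ SS P N ∪ Q, l ∣ σ (b + W * x) + k * m), w x

open Classical in
/-- The conclusion of EDQUX: the engine for one class, uniform in `C₀`; `κ` depends only on `c₂`. -/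
def EngU : Prop := ∀ c₂ : ℝ, 0 < c₂ → ∃ κ : ℝ, 1 ≤ κ ∧ ∀ a : ℤ, a ≠ 0 → ∃ L₀ : ℝ, ∀ L : ℝ,
  L₀ ≤ L → ∀ C₀ : ℝ, 1 ≤ C₀ → κ * C₀ ≤ Real.log L → ∃ η : ℝ, 0 < η ∧
  L ^ 100 ≤ Real.exp (η * L) ∧
  ∀ (b r i : ℕ) (S : Finset ℕ) (σ : ℕ → ℕ), Prog a (WW a.natAbs L) b r L →
  (i : ℝ) ≤ L ^ 2 → (∀ k ∈ S, (k : ℝ) ≤ L ^ 2) → i ∉ S →
  (∀ l : ℕ, l.Prime → L ^ 100 < (l : ℝ) → (l : ℝ) ≤ Real.exp (L / 100) → ¬ l ∣ a.natAbs →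
    Bij σ l ∧ ∀ n : ℕ, ((l : ℤ) ∣ a + (r : ℤ) * (n : ℤ) ↔ l ∣ σ n + i * a.natAbs)) →
  (∀ x < M0 L (WW a.natAbs L), ∀ k ∈ S, ∃ v : ℕ, 1 ≤ v ∧ Real.log v ≤ 3 * L ∧
    ∀ l : ℕ, l.Prime → L ^ 100 < (l : ℝ) → (l : ℝ) ≤ Real.exp (L / 100) → ¬ l ∣ a.natAbs →
      l ∣ σ (b + WW a.natAbs L * x) + k * a.natAbs → l ∣ v) →
  S.card * VS (IP.SPH a.natAbs L (Real.exp (η * L))) 1 ≤ C₀ / η →
  c₂ * (Real.exp L / (WW a.natAbs L).totient) ≤ ThL a r (WW a.natAbs L) b L →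
  Real.exp (-Real.exp (κ * C₀)) * ThL a r (WW a.natAbs L) b L ≤
    ∑ x ∈ (PiL a r (WW a.natAbs L) b L).filter (fun x => ∀ k ∈ S,
      ∃ l : ℕ, l.Prime ∧ L ^ 100 < (l : ℝ) ∧ (l : ℝ) ≤ Real.exp (L / 100) ∧ ¬ l ∣ a.natAbs ∧
        l ∣ σ (b + WW a.natAbs L * x) + k * a.natAbs), lwX a r (WW a.natAbs L) b x

/-- EDQUX. PROOF: Pool/Agent/UIP/EDQU.lean, copied, with the changes described at EDQX: `m = |a|` fixed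
(constants depending on `m` enter only `L₀`), `n = M0 L W`, threshold `c₂ e^L / φ(W)` (so
`D = 2 C3 / (η c₂)`, `C' = 64 · 24 · C3 / c₂`-like in PARH, and `κ` depends only on `c₂`: in
`Λ M V1 ≤ D T` the factor `φ(m)/m` of `M` cancels against KVHU), CoreX for the core inequality, EDPUX
for the engine, `G0` with `E = ⌈3/η⌉`. -/
def S_EDQUX : Prop := CoreX → IP.S_CRL → IP.S_CRU → S_MOFX → S_EDPUX → UIP.S_BLHU → UIP.S_VSHU →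
  UIP.S_KVHU → UIP.S_PARH → UIP.S_LARG → EngU

/-! ### Selection, uniform -/

/-- GSX: squares of `n / φ(n)` on average over `n = k - s`, `(k, m) = 1`.
PROOF. `gq h ^ 2 = ∑_{d ∣ h} h₂(d)`, `d` squarefree, `h₂(d) = ∏_{p ∣ d} ((1 - 1/p)^(-2) - 1) ≤
6^ω(d) / d`. The number of the `k ∈ (X, Y]` with `d ∣ k - s`, `(k, m) = 1` is at most
`(Y - X)/d ∏_{p ∣ m, p ∤ d} (1 - 1/p) + 2^ω(m)` (inclusion and exclusion over the divisors `e` of the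
radical of `m` with `(e, d) = 1`) `≤ (Y - X)/d 2^ω(d) φ(m)/m + 2^ω(m)`. Only `d ≤ H = |X - s| + |Y - s|`
occur, `∑ 12^ω(d)/d^2 < ∞` and `∑_{d ≤ H} 6^ω(d)/d ≤ sqrt H ∑ 6^ω(d) d^(-3/2)`. -/
def S_GSX : Prop := ∃ C : ℝ, 1 ≤ C ∧ ∀ m : ℕ, 1 ≤ m → ∃ D₀ : ℝ, 0 ≤ D₀ ∧ ∀ X Y s : ℤ, X ≤ Y →
  ∑ k ∈ (Ioc X Y).filter (fun k => IsCoprime k (m : ℤ) ∧ k ≠ s), gq (k - s).natAbs ^ 2 ≤
    C * (((m.totient : ℝ) / m) * ((Y : ℝ) - X)) +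
      D₀ * Real.sqrt (|(X : ℝ) - s| + |(Y : ℝ) - s| + 1)

/-- The surviving sites `j = K + k` with `(k, a) = 1`. -/
def SU (a : ℤ) (W b r K : ℕ) : Finset ℕ :=
  (range (2 * K + 1)).filter (fun j => j ≠ K ∧ j ≠ K + r ∧ IsCoprime ((j : ℤ) - K) a ∧
    IsCoprime (a + ((j : ℤ) - K) * (b : ℤ)) (W : ℤ))

/-- RSUX: the number of surviving sites for one `r`, weighted with the primes.
PROOF. As RSX (Pool/Agent/FCT/RSX.lean) for one `r`: at most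
`C (e^L φ(W)/W) gq r ^ 2 ∑_k gq |k| gq |k - r|` over the `k ≠ 0, r`, `|k| ≤ K`, `(k, a) = 1`, and
`x y ≤ (x^2 + y^2)/2` with GSX for `s = 0` and `s = r`, `X = -K - 1`, `Y = K`: at most
`C ((φ(m)/m) (2 K + 1)) + D₀ sqrt (4 K + 3) ≤ 4 C (φ(m)/m) K` for `K ≥ L ≥ L₀(a)`. -/
def S_RSUX : Prop := S_BTX → S_CNTX → S_GSX → ∃ C : ℝ, 0 < C ∧ ∀ a : ℤ, a ≠ 0 → ∃ L₀ : ℝ,
  ∀ L : ℝ, L₀ ≤ L → ∀ K r : ℕ, L ≤ (K : ℝ) → (K : ℝ) ≤ L ^ 2 → 1 ≤ r → r ≤ K →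
  IsCoprime a (r : ℤ) →
  ∑ b ∈ BX a (WW a.natAbs L) r, ((SU a (WW a.natAbs L) b r K).card : ℝ) *
      ThL a r (WW a.natAbs L) b L ≤
    C * (Real.exp L * (((WW a.natAbs L).totient : ℝ) / (WW a.natAbs L)) *
      (((a.natAbs.totient : ℝ) / a.natAbs) * K) * gq r ^ 2)

/-- PSUX: the total weight of the primes, uniform in the window; `c` is absolute.
PROOF. As PSX (Pool/Agent/FCT/PSX.lean) with `R = {r : u L < r ≤ v L, (r, a) = 1, d ∤ r}`: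
`∑_{b ∈ BX} ThL ≥ c r e^L / φ(r) ≥ c e^L` for every `r ∈ R`. `|R| ≥ (φ(m)/m) (v - u) L / 4` for
`L ≥ L₀(a, ε)`: the number of `r ∈ (X, Y]` coprime to `m` is `(φ(m)/m) (Y - X)` up to `2^ω(m)`; if
`(d, a) = 1` those divisible by `d` are `d s`, `s ∈ (X/d, Y/d]`, `(s, m) = 1`, at most
`(φ(m)/m) (Y - X)/2 + 2^ω(m)`; if `(d, a) > 1` there is none. (`(v - u) L ≥ ε^2 L`.) -/
def S_PSUX : Prop := AP → ∃ c : ℝ, 0 < c ∧ ∀ (a : ℤ) (ε : ℝ), a ≠ 0 → 0 < ε → ∃ L₀ : ℝ,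
  ∀ L : ℝ, L₀ ≤ L → ∀ u v : ℝ, 0 ≤ u → u ≤ (1 - ε) * v → ε ≤ v → v ≤ Real.log L →
  ∃ R : Finset ℕ,
  (∀ r ∈ R, u * L < r ∧ (r : ℝ) ≤ v * L ∧ IsCoprime a (r : ℤ)) ∧
  c * (((a.natAbs.totient : ℝ) / a.natAbs) * ((v - u) * (L * Real.exp L))) ≤
    ∑ r ∈ R, ∑ b ∈ BX a (WW a.natAbs L) r, ThL a r (WW a.natAbs L) b L

/-- The conclusion of SLUX: `c₁`, `c₂`, `C1` are absolute. -/
def SelU : Prop := ∃ c₁ c₂ C1 : ℝ, 0 < c₁ ∧ 0 < c₂ ∧ 0 < C1 ∧ ∀ (a : ℤ) (ε : ℝ), a ≠ 0 → 0 < ε →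
  ∃ L₀ : ℝ, ∀ L : ℝ, L₀ ≤ L → ∀ u v t : ℝ, 0 ≤ u → u ≤ (1 - ε) * v → ε ≤ v → v ≤ t → 1 ≤ t →
  t ≤ Real.log L → ∃ GP : Finset (ℕ × ℕ),
  (∀ p ∈ GP, u * L < (p.1 : ℝ) ∧ (p.1 : ℝ) ≤ v * L ∧ IsCoprime a (p.1 : ℤ) ∧
    p.2 ∈ BX a (WW a.natAbs L) p.1 ∧
    c₂ * (Real.exp L / (WW a.natAbs L).totient) ≤ ThL a p.1 (WW a.natAbs L) p.2 L ∧
    ((SU a (WW a.natAbs L) p.2 p.1 (⌊t * (L + 1)⌋₊ + 1)).card : ℝ) ≤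
      C1 * ((((a.natAbs.totient : ℝ) / a.natAbs) * (t * L)) *
        (((WW a.natAbs L).totient : ℝ) / (WW a.natAbs L)))) ∧
  c₁ * (((a.natAbs.totient : ℝ) / a.natAbs) * ((v - u) * (L * Real.exp L))) ≤
    ∑ p ∈ GP, ThL a p.1 (WW a.natAbs L) p.2 L

/-- SLUX. PROOF. PSUX gives `R` and `c`; `K = ⌊t (L + 1)⌋ + 1 ≤ 4 t L`, `K ≥ L`. By GSX with `s = 0`
`∑_{r ∈ R} gq r ^ 2 ≤ 2 C (φ(m)/m) (v - u) L` for `L ≥ L₀(a, ε)` (`(v - u) L ≥ ε^2 L` against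
`sqrt (v L)`). The pairs with `ThL < c₂ e^L / φ(W)` contribute at most (CNTX (1), `gq ≤ gq^2`)
`c₂ e^L ∑_{r ∈ R} gq r ≤ (c/4) (φ(m)/m) (v - u) L e^L` for small `c₂`; those with more than
`C1 (φ(m)/m) t L φ(W)/W` sites at most (RSUX, Markov)
`C e^L (φ(m)/m) K ∑ gq r ^ 2 / (C1 (φ(m)/m) t L) ≤ (c/4) (φ(m)/m) (v - u) L e^L` for large `C1`. -/
def S_SLUX : Prop :=
  (∃ c : ℝ, 0 < c ∧ ∀ (a : ℤ) (ε : ℝ), a ≠ 0 → 0 < ε → ∃ L₀ : ℝ,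
    ∀ L : ℝ, L₀ ≤ L → ∀ u v : ℝ, 0 ≤ u → u ≤ (1 - ε) * v → ε ≤ v → v ≤ Real.log L →
    ∃ R : Finset ℕ,
    (∀ r ∈ R, u * L < r ∧ (r : ℝ) ≤ v * L ∧ IsCoprime a (r : ℤ)) ∧
    c * (((a.natAbs.totient : ℝ) / a.natAbs) * ((v - u) * (L * Real.exp L))) ≤
      ∑ r ∈ R, ∑ b ∈ BX a (WW a.natAbs L) r, ThL a r (WW a.natAbs L) b L) →
  S_CNTX → S_GSX → (∃ C : ℝ, 0 < C ∧ ∀ a : ℤ, a ≠ 0 → ∃ L₀ : ℝ,
    ∀ L : ℝ, L₀ ≤ L → ∀ K r : ℕ, L ≤ (K : ℝ) → (K : ℝ) ≤ L ^ 2 → 1 ≤ r → r ≤ K →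
    IsCoprime a (r : ℤ) →
    ∑ b ∈ BX a (WW a.natAbs L) r, ((SU a (WW a.natAbs L) b r K).card : ℝ) *
        ThL a r (WW a.natAbs L) b L ≤
      C * (Real.exp L * (((WW a.natAbs L).totient : ℝ) / (WW a.natAbs L)) *
        (((a.natAbs.totient : ℝ) / a.natAbs) * K) * gq r ^ 2)) → SelU

/-- FNAU: FNAX, uniform, for the sites `SU`. PROOF. As FNAX (Pool/Agent/FCT/FNAX.lean);
`(u - α) L ≥ ε L ≥ α/2 + 1`, `(β - v) L ≥ ε L ≥ β/10 + 1` as `t ≤ log L`. If `(k, a) > 1` a prime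
`p ∣ k`, `p ∣ a` divides `a + k n = ±q'` and `p ≤ |a| < q'`. -/
def FnaU : Prop := ∀ (a : ℤ) (ε : ℝ), a ≠ 0 → 0 < ε → ∃ L₀ : ℝ, ∀ L : ℝ, L₀ ≤ L →
  ∀ α β t u v : ℝ, 0 ≤ α → α + ε ≤ u → u < v → v + ε ≤ β → β ≤ t → t ≤ Real.log L →
  ∀ (b r x : ℕ), u * L < (r : ℝ) → (r : ℝ) ≤ v * L →
  b ∈ BX a (WW a.natAbs L) r → x ∈ PiL a r (WW a.natAbs L) b L →
  (∀ j ∈ SU a (WW a.natAbs L) b r (⌊t * (L + 1)⌋₊ + 1), ∃ l : ℕ, l.Prime ∧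
    (l : ℝ) ≤ Real.exp (L / 100) ∧
    (l : ℤ) ∣ a + ((j : ℤ) - (⌊t * (L + 1)⌋₊ + 1 : ℕ)) * ((b + WW a.natAbs L * x : ℕ) : ℤ)) →
  Real.exp L - a.natAbs ≤ ((b + WW a.natAbs L * x : ℕ) : ℝ) ∧
  ((b + WW a.natAbs L * x : ℕ) : ℝ) ≤ 3 / 2 * Real.exp L + a.natAbs ∧
  Good a α β t (b + WW a.natAbs L * x) ∧
  ∀ k : ℕ, 1 ≤ k → k ≤ ⌊t * (L + 1)⌋₊ + 1 → k ≠ r → ¬ (qv a k (b + WW a.natAbs L * x)).Prime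

/-- The theorem, uniform, with absolute constants `c` and `C`. -/
def FinU : Prop := ∃ c C : ℝ, 0 < c ∧ 0 < C ∧ c * C ≤ 1 / 2 ∧ ∀ (a : ℤ) (ε : ℝ), a ≠ 0 → 0 < ε →
  ∃ x₀ : ℕ, ∀ x : ℕ, x₀ ≤ x → ∀ t α β : ℝ, 1 ≤ t → t ≤ c * Real.log (Real.log x) → 0 ≤ α →
  α ≤ (1 - ε) * β → ε ≤ β → β ≤ t → ∃ A : Finset ℕ, A ⊆ Ioc x (2 * x) ∧
    (∀ n ∈ A, Good a α β t n) ∧
    Real.exp (-Real.exp (C * t)) * (β - α) * (((a.natAbs.totient : ℝ) / a.natAbs) * x) ≤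
      (A.card : ℝ)

/-- FNUX. PROOF (compare FNBX, and Pool/Agent/UIP/FINU.lean for the constants).
`u = α + (β - α)/3`, `v = β - (β - α)/3` (so `u ≤ (1 - ε/3) v`, `v ≥ ε/3`, and the gaps are at least
`ε^2/3`), `L = log (x + |a| + 1)`. `C₀ = 2 (1 + C₂) (1 + C1) t`-like with `C₂` of KVHU (`A = 1`,
`K := ⌈C1 (φ(m)/m) t L⌉ ≤ (C1 + 1) t (φ(m)/m) L + 1`), `κ` from EngU for the `c₂` of SelU; every pair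
`(r, b)` of `GP` gives good `x` of weight `≥ exp (-exp (κ C₀)) ThL`; in total
`exp (-exp (κ C₀)) c₁ (φ(m)/m) ((β - α)/3) L e^L`, every weight is at most `2 L`. `C` is chosen with
`exp (-exp (C t)) ≤ (c₁/6) exp (-exp (κ C₀))` for all `t ≥ 1`, and `c = min (1/(2C)) ..` such that
`κ C₀ ≤ log L`, `t ≤ log L`. The map `(r, b, x) ↦ n` is injective as in FNBX. -/
def S_FNUX : Prop := S_SGX → UIP.S_KVHU → EngU → SelU → FnaU → FinU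

end

end Pool.Agent.FCT
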