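import Mathlib
import Pool.Agent.FCT.St3
import Pool.Agent.IP.EDQ
import Pool.Agent.UNI.EDU
import Pool.Agent.UIP.EDQU

set_option autoImplicit false
set_option linter.unusedSectionVars false
set_option linter.unusedSimpArgs false

/-!
Module EDQUX (project FCT, helper21): the engine for one fixed class, uniform in the parameters.
-/

namespace Pool.Agent.FCT

open Finset Filter Pool.Agent.Lib_helper9.LG
open Pool.Agent.FXD (Bij)

noncomputable section

namespace EDQUX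

lemma exp125 {L : ℝ} (hL : 10 ^ 6 ≤ L) : 16 * L ≤ Real.exp (L / 125) := by
  have hL0 : 0 < L := lt_of_lt_of_le (by norm_num) hL
  have h1 := Real.pow_div_factorial_le_exp (L / 125) (by positivity) 2
  have h2 : ((Nat.factorial 2 : ℕ) : ℝ) = 2 := by norm_num [Nat.factorial]
  rw [h2] at h1
  refine le_trans ?_ h1
  have h3 : 500000 * L ≤ L * L := by
    apply mul_le_mul_of_nonneg_right _ hL0.le
    norm_num at hL
    linarith
  have h4 : (L / 125) ^ 2 / 2 = L * L / 31250 := by ring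
  rw [h4]
  linarith

lemma exp10 {L : ℝ} (hL : 10 ^ 6 ≤ L) : L ^ 2 ≤ Real.exp (L / 10) := by
  have hL0 : 0 < L := lt_of_lt_of_le (by norm_num) hL
  have h1 := Real.pow_div_factorial_le_exp (L / 10) (by positivity) 4
  have h2 : ((Nat.factorial 4 : ℕ) : ℝ) = 24 := by norm_num [Nat.factorial]
  rw [h2] at h1
  refine le_trans ?_ h1
  have h5 : (240000 : ℝ) ≤ L ^ 2 := by
    have h6 : (1000 : ℝ) ≤ L := by norm_num at hL; linarith
    have h7 : (1000 : ℝ) * 1000 ≤ L * L := mul_le_mul h6 h6 (by norm_num) hL0.le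
    rw [pow_two]
    linarith
  have h3 : 240000 * L ^ 2 ≤ L ^ 2 * L ^ 2 := mul_le_mul_of_nonneg_right h5 (by positivity)
  have h4 : (L / 10) ^ 4 / 24 = L ^ 2 * L ^ 2 / 240000 := by ring
  rw [h4]
  linarith

/-- The error terms of the core inequality. -/
lemma num_h5 {L W F T c₂ : ℝ} (hL : 10 ^ 6 ≤ L) (hF : 0 < F) (hFW : F ≤ W)
    (hWL : W ≤ Real.exp (2 * Real.sqrt L)) (hc₂ : 0 < c₂) (hcL : 1 ≤ c₂ * L)
    (hT : c₂ * (Real.exp L / F) ≤ T) :
    Real.exp L / (F * L ^ 20) + Real.exp (99 / 100 * L) ≤ T / 8 := by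
  have hL0 : 0 < L := lt_of_lt_of_le (by norm_num) hL
  have hE : 0 < Real.exp L := Real.exp_pos L
  have h16 : 16 ≤ c₂ * L ^ 20 := by
    have h0 : (16 : ℝ) ≤ L := le_trans (by norm_num) hL
    have h1 : (16 : ℝ) ≤ L ^ 19 := h0.trans (le_self_pow₀ (by linarith) (by norm_num))
    calc (16 : ℝ) = 1 * 16 := by norm_num
      _ ≤ (c₂ * L) * L ^ 19 := mul_le_mul hcL h1 (by norm_num) (by positivity)
      _ = _ := by ring
  have h1 : Real.exp L / (F * L ^ 20) ≤ c₂ * (Real.exp L / F) / 16 := by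
    rw [div_le_iff₀ (by positivity)]
    have h2 : c₂ * (Real.exp L / F) / 16 * (F * L ^ 20) = Real.exp L * (c₂ * L ^ 20) / 16 := by
      field_simp
    rw [h2]
    have h3 : Real.exp L * 16 ≤ Real.exp L * (c₂ * L ^ 20) := mul_le_mul_of_nonneg_left h16 hE.le
    linarith
  have hsq : Real.sqrt L ≤ L / 1000 := IP.EDQ.sqrt_small hL
  have hFe : F ≤ Real.exp (L / 500) := by
    refine (hFW.trans hWL).trans (Real.exp_le_exp.2 ?_)
    linarith
  have h2 : Real.exp (99 / 100 * L) ≤ c₂ * (Real.exp L / F) / 16 := by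
    have h3 : 16 * F * Real.exp (99 / 100 * L) ≤ c₂ * Real.exp L := by
      calc 16 * F * Real.exp (99 / 100 * L) ≤
            16 * (c₂ * L) * Real.exp (L / 500) * Real.exp (99 / 100 * L) := by
            apply mul_le_mul_of_nonneg_right _ (Real.exp_nonneg _)
            apply mul_le_mul _ hFe hF.le (by positivity)
            linarith
        _ = c₂ * ((16 * L) * (Real.exp (L / 500) * Real.exp (99 / 100 * L))) := by ring
        _ ≤ c₂ * (Real.exp (L / 125) * (Real.exp (L / 500) * Real.exp (99 / 100 * L))) := by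
            apply mul_le_mul_of_nonneg_left _ hc₂.le
            exact mul_le_mul_of_nonneg_right (exp125 hL) (by positivity)
        _ = c₂ * Real.exp L := by
            rw [← Real.exp_add, ← Real.exp_add]
            congr 2
            ring
    have h4 : c₂ * (Real.exp L / F) / 16 = c₂ * Real.exp L / (16 * F) := by
      field_simp
    rw [h4, le_div_iff₀ (by positivity)]
    linarith
  linarith

/-- The final constant. -/
lemma final_const {C₀ C₁ C3 η κ₀ X : ℝ} (hC₀ : 1 ≤ C₀) (hC₁ : 1 ≤ C₁) (hC3 : 0 < C3)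
    (hη : 0 < η) (hκ₀ : 1 ≤ κ₀) (hηκ : Real.exp (-(κ₀ * C₀)) ≤ η) (hX : 0 ≤ X)
    (h8 : 8 * X ≤ Real.exp ((((2 : ℕ) : ℝ) + 1) * Real.exp ((8 * κ₀ + 4 * C₁ + 60) * C₀))) :
    16 * (24 * C3 / η * X) ≤
      Real.exp (Real.exp ((9 * κ₀ + 4 * C₁ + 48 * C3 + 63) * C₀)) := by
  have hC00 : 0 < C₀ := by linarith
  have h1 : 1 / η ≤ Real.exp (κ₀ * C₀) := by
    rw [div_le_iff₀ hη]
    calc (1 : ℝ) = Real.exp (κ₀ * C₀) * Real.exp (-(κ₀ * C₀)) := by
          rw [← Real.exp_add]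
          simp
      _ ≤ _ := mul_le_mul_of_nonneg_left hηκ (Real.exp_nonneg _)
  have h2 : 48 * C3 ≤ Real.exp (48 * C3 * C₀) := by
    have h3 := Real.add_one_le_exp (48 * C3 * C₀)
    have h4 : 48 * C3 ≤ 48 * C3 * C₀ := le_mul_of_one_le_right (by positivity) hC₀
    linarith
  have h3 : 48 * C3 / η ≤ Real.exp (Real.exp ((48 * C3 + κ₀) * C₀)) := by
    have h4 : 48 * C3 / η ≤ Real.exp ((48 * C3 + κ₀) * C₀) := by
      calc 48 * C3 / η = 48 * C3 * (1 / η) := by ring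
        _ ≤ Real.exp (48 * C3 * C₀) * Real.exp (κ₀ * C₀) :=
            mul_le_mul h2 h1 (by positivity) (Real.exp_nonneg _)
        _ = _ := by
            rw [← Real.exp_add]
            congr 1
            ring
    have h5 := Real.add_one_le_exp (Real.exp ((48 * C3 + κ₀) * C₀))
    linarith
  have h4 : 16 * (24 * C3 / η * X) = 48 * C3 / η * (8 * X) := by ring
  rw [h4]
  refine (mul_le_mul h3 h8 (by positivity) (Real.exp_nonneg _)).trans ?_
  rw [← Real.exp_add]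
  apply Real.exp_le_exp.2
  obtain ⟨Y, hY⟩ : ∃ Y : ℝ, Y = Real.exp ((9 * κ₀ + 4 * C₁ + 48 * C3 + 60) * C₀) := ⟨_, rfl⟩
  have h5 : Real.exp ((48 * C3 + κ₀) * C₀) ≤ Y := by
    rw [hY]
    apply Real.exp_le_exp.2
    apply mul_le_mul_of_nonneg_right _ hC00.le
    linarith
  have h6 : Real.exp ((8 * κ₀ + 4 * C₁ + 60) * C₀) ≤ Y := by
    rw [hY]
    apply Real.exp_le_exp.2
    apply mul_le_mul_of_nonneg_right _ hC00.le
    linarith
  have hY0 : 0 ≤ Y := by rw [hY]; exact Real.exp_nonneg _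
  have h7 : (4 : ℝ) ≤ Real.exp (3 * C₀) := by
    have := Real.add_one_le_exp (3 * C₀)
    linarith
  have h8' : Real.exp ((9 * κ₀ + 4 * C₁ + 48 * C3 + 63) * C₀) = Real.exp (3 * C₀) * Y := by
    rw [hY, ← Real.exp_add]
    congr 1
    ring
  rw [h8']
  have h9 : 4 * Y ≤ Real.exp (3 * C₀) * Y := mul_le_mul_of_nonneg_right h7 hY0
  push_cast
  linarith

/-- The range and the normalisation. -/
lemma num_n {m W n : ℕ} {L M : ℝ} (hL : 10 ^ 6 ≤ L) (hm : 1 ≤ m) (hW : 1 ≤ W)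
    (hWL : (W : ℝ) ≤ Real.exp (2 * Real.sqrt L)) (hn : n = ⌊2 * Real.exp L / W⌋₊)
    (hmL : (2 : ℝ) ^ m.primeFactors.card * m ≤ L)
    (hM : M = (n : ℝ) * ((m.totient : ℝ) / m)) :
    1 ≤ n ∧ (n : ℝ) ≤ 2 * Real.exp L / W ∧ 0 < M ∧
      2 ^ m.primeFactors.card / (M / L) ≤ 2 * Real.exp (-(31 / 40 * L)) := by
  have hL0 : 0 < L := lt_of_lt_of_le (by norm_num) hL
  have hW0 : (0 : ℝ) < W := by exact_mod_cast hW
  have hm0 : (0 : ℝ) < m := by exact_mod_cast hm
  have hsq : Real.sqrt L ≤ L / 1000 := IP.EDQ.sqrt_small hL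
  have hWe : (W : ℝ) ≤ Real.exp (L / 500) := by
    refine hWL.trans (Real.exp_le_exp.2 ?_)
    linarith
  have h1 : Real.exp (499 / 500 * L) ≤ Real.exp L / W := by
    rw [le_div_iff₀ hW0]
    calc Real.exp (499 / 500 * L) * W ≤ Real.exp (499 / 500 * L) * Real.exp (L / 500) :=
          mul_le_mul_of_nonneg_left hWe (Real.exp_nonneg _)
      _ = Real.exp L := by
          rw [← Real.exp_add]
          congr 1
          ring
  have h2 : 1 ≤ Real.exp L / W := by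
    refine le_trans ?_ h1
    exact Real.one_le_exp (by positivity)
  have h3 : (n : ℝ) ≤ 2 * Real.exp L / W := by
    rw [hn]
    exact Nat.floor_le (by positivity)
  have h4 : Real.exp L / W ≤ n := by
    have h5 : 2 * Real.exp L / W < (n : ℝ) + 1 := by
      rw [hn]
      exact Nat.lt_floor_add_one _
    have h6 : 2 * Real.exp L / W = Real.exp L / W + Real.exp L / W := by ring
    linarith
  have h5 : 1 ≤ n := by exact_mod_cast h2.trans h4
  have htot : (1 : ℝ) ≤ m.totient := by exact_mod_cast Nat.totient_pos.2 hm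
  have hn0 : (0 : ℝ) < n := by exact_mod_cast h5
  have hM0 : 0 < M := by rw [hM]; positivity
  refine ⟨h5, h3, hM0, ?_⟩
  rw [div_le_iff₀ (by positivity)]
  have h6 : Real.exp (499 / 500 * L) / m ≤ M := by
    rw [hM]
    calc Real.exp (499 / 500 * L) / m ≤ (n : ℝ) / m :=
          div_le_div_of_nonneg_right (h1.trans h4) hm0.le
      _ = (n : ℝ) * (1 / m) := by ring
      _ ≤ (n : ℝ) * ((m.totient : ℝ) / m) := by gcongr
  have h7 : L ^ 2 ≤ Real.exp (L / 10) := exp10 hL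
  have h8 : 2 ^ m.primeFactors.card * m * L ≤ 2 * Real.exp (-(31 / 40 * L)) *
      Real.exp (499 / 500 * L) := by
    calc 2 ^ m.primeFactors.card * m * L ≤ L * L := mul_le_mul_of_nonneg_right hmL hL0.le
      _ = L ^ 2 := by ring
      _ ≤ Real.exp (L / 10) := h7
      _ ≤ Real.exp (-(31 / 40 * L) + 499 / 500 * L) := by
          apply Real.exp_le_exp.2
          linarith
      _ = Real.exp (-(31 / 40 * L)) * Real.exp (499 / 500 * L) := Real.exp_add _ _
      _ ≤ _ := by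
          have : 0 < Real.exp (-(31 / 40 * L)) * Real.exp (499 / 500 * L) := by positivity
          linarith
  have h9 : 2 ^ m.primeFactors.card * L ≤ 2 * Real.exp (-(31 / 40 * L)) *
      (Real.exp (499 / 500 * L) / m) := by
    rw [← mul_div_assoc, le_div_iff₀ hm0]
    calc 2 ^ m.primeFactors.card * L * m = 2 ^ m.primeFactors.card * m * L := by ring
      _ ≤ _ := h8
  have h10 : 2 * Real.exp (-(31 / 40 * L)) * (Real.exp (499 / 500 * L) / m) ≤
      2 * Real.exp (-(31 / 40 * L)) * M := mul_le_mul_of_nonneg_left h6 (by positivity)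
  rw [← mul_div_assoc, le_div_iff₀ hL0]
  linarith

/-- From a small quantity to the condition of the engine. -/
lemma big16 {L K t M T : ℝ} (hT : 0 < T) (hKt : 0 ≤ (K + 1) * t)
    (hM : 2 * L * M ≤ 4 * L * L * T) (h : 384 * L * ((K + 1) * (L * t)) ≤ 1) :
    2 * L * M * ((K + 1) * t) ≤ T / 16 := by
  calc 2 * L * M * ((K + 1) * t) ≤ 4 * L * L * T * ((K + 1) * t) :=
        mul_le_mul_of_nonneg_right hM hKt
    _ = T / 96 * (384 * L * ((K + 1) * (L * t))) := by ring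
    _ ≤ T / 96 * 1 := mul_le_mul_of_nonneg_left h (by positivity)
    _ ≤ T / 16 := by linarith

lemma big8 {L K t : ℝ} (hL : 1 ≤ L) (hK : 0 ≤ K) (ht : 0 ≤ t)
    (h : 384 * L * ((K + 1) * (L * t)) ≤ 1) : t ≤ 1 / 8 := by
  have h1 := IP.EDQ.big8 hL hK (t := L * t) (by positivity) h
  have h2 : 1 * t ≤ L * t := mul_le_mul_of_nonneg_right hL ht
  linarith

/-- The third condition, with one more factor `L`. -/
lemma num_h3 {J : ℕ} {K L η : ℝ} (hK0 : 0 ≤ K) (hK : K ≤ L ^ 2 + 1) (hL : 1 ≤ L)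
    (e7 : 3072 * ((J + 1 : ℕ) : ℝ) * L * (L ^ 2 + 2) * (L ^ 2 + 1) * L ^ (3 * (J + 1)) *
      Real.exp (-(η * L)) ≤ 1) :
    384 * L * ((K + 1) * (L * (2 * (4 * J * K / Real.exp (η * L)) / (1 / L ^ (3 * J))))) ≤ 1 := by
  have hL0 : 0 < L := by linarith
  have h := IP.EDQ.num_h3 (J := J + 1) (η := η) hK0 hK hL0 e7
  refine le_trans ?_ h
  have h1 : L * (2 * (4 * (J : ℝ) * K / Real.exp (η * L)) / (1 / L ^ (3 * J))) ≤
      2 * (4 * ((J + 1 : ℕ) : ℝ) * K / Real.exp (η * L)) / (1 / L ^ (3 * (J + 1))) := by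
    have e1 : L * (2 * (4 * (J : ℝ) * K / Real.exp (η * L)) / (1 / L ^ (3 * J))) =
        (J : ℝ) * (8 * K / Real.exp (η * L) * (L * L ^ (3 * J))) := by
      field_simp
      ring
    have e2 : 2 * (4 * ((J + 1 : ℕ) : ℝ) * K / Real.exp (η * L)) / (1 / L ^ (3 * (J + 1))) =
        ((J + 1 : ℕ) : ℝ) * (8 * K / Real.exp (η * L) * L ^ (3 * (J + 1))) := by
      field_simp
      ring
    rw [e1, e2]
    have e3 : L * L ^ (3 * J) ≤ L ^ (3 * (J + 1)) := by
      rw [← pow_succ']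
      exact pow_le_pow_right₀ hL (by omega)
    have e4 : (J : ℝ) ≤ ((J + 1 : ℕ) : ℝ) := by push_cast; linarith
    apply mul_le_mul e4 _ (by positivity) (by positivity)
    exact mul_le_mul_of_nonneg_left e3 (by positivity)
  gcongr

variable {P : ℕ → Finset ℕ} {bb : ℕ → ℕ} {N m W b r i n J : ℕ} {a : ℤ} {Q S : Finset ℕ}
  {σ : ℕ → ℕ} {η L α B B1 VJ : ℝ}

lemma ctx_of (hP : ParX η P bb N a m W b r i n Q S σ L α B B1) (hm : 1 ≤ m) (hL : 200 ≤ L)
    (hL2 : L ^ 100 ≤ Real.exp (η * L)) (hJL : 16 * (J : ℝ) + 16 ≤ L ^ 100) (hn : 1 ≤ n)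
    (hsum : ∀ j < N, ∑ l ∈ P j, (1 : ℝ) / l ≤ 1) (hb : ∀ j < N, 700 * (J + 1) + j ≤ bb j)
    (hnorm : α * ∑ T : Finset {l // l ∈ Q}, s0 (fun i : {l // l ∈ Q} => Real.log ((i : ℕ) : ℝ))
      (fun i : {l // l ∈ Q} => ((i : ℕ) : ℝ) - 1) B1 T = 1)
    (hBJ : B < (J + 1) * (η * L)) (hVJ : 0 < VJ) (hVJ2 : ∀ j ≤ J, VJ ≤ VS (SS P N) j)
    (hKz : 2 * ((J : ℝ) + 1) * S.card / Real.exp (η * L) ≤ 1) :
    IP.EDP.Ctx P bb N m W b i n J Q S (Real.exp (η * L)) α B B1 VJ := by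
  have h100 : L ^ 2 ≤ L ^ 100 := pow_le_pow_right₀ (by linarith) (by norm_num)
  have hLL : L ≤ L ^ 100 := by
    calc L = L ^ 1 := (pow_one L).symm
      _ ≤ L ^ 100 := pow_le_pow_right₀ (by linarith) (by norm_num)
  have hk : ∀ k ∈ insert i S, (k : ℝ) ≤ L ^ 2 := by
    intro k hk
    rw [mem_insert] at hk
    rcases hk with rfl | hk
    · exact hP.hi
    · exact hP.hk k hk
  refine ⟨⟨hP.hd, ?_, ?_, hsum, hb, hP.hiS⟩, ⟨by linarith, fun l hl => (hP.hQ l hl).2.2.2.1, ?_,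
    hKz⟩, hP.hα, ?_, hP.hB1, hP.hB1.le.trans hP.hB1B, hnorm, hm, hP.hp.hW, hn, hP.hWm,
    fun l hl => ⟨(hP.hQ l hl).1, (hP.hQ l hl).2.1, (hP.hQ l hl).2.2.1⟩, ?_, ?_, hVJ, hVJ2⟩
  · intro l hl
    obtain ⟨g1, g2, g3, g4, g5⟩ := hP.hS l hl
    refine ⟨g1, g2, g3, ?_⟩
    have h1 : ((16 * J + 16 : ℕ) : ℝ) ≤ (l : ℝ) := by
      push_cast
      linarith
    exact_mod_cast h1
  · intro k hk' l hl
    have h1 := hk k hk'
    have h2 := (hP.hS l hl).2.2.2.1
    have h3 : (k : ℝ) < l := by linarith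
    exact_mod_cast h3
  · rw [Real.log_exp]
    exact hBJ
  · rw [Real.log_exp]
    exact hP.hαη
  · intro k hk' l hl
    have h1 := hk k hk'
    have h2 := (hP.hQ l hl).2.2.2.1
    have h3 : (k : ℝ) < l := by linarith
    exact_mod_cast h3
  · rw [Finset.disjoint_left]
    intro l hl hlQ
    have h1 := (hP.hS l hl).2.2.2.2
    have h2 := (hP.hQ l hlQ).2.2.2.1
    linarith

/-- The primes of `PiL`. -/
lemma mem_PiL {x : ℕ} (hr : 1 ≤ r) (hrL : (r : ℝ) ≤ L ^ 2) (hL : 10 ^ 6 ≤ L)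
    (hx : x ∈ PiL a r W b L) : x < M0 L W ∧ (qv a r (b + W * x)).Prime ∧
      Real.exp L < ((qv a r (b + W * x) : ℕ) : ℝ) ∧ lwX a r W b x ≤ 2 * L ∧
      ((qv a r (b + W * x) : ℕ) : ℤ) = a + (r : ℤ) * ((b + W * x : ℕ) : ℤ) := by
  have hL0 : 0 < L := lt_of_lt_of_le (by norm_num) hL
  rw [PiL, mem_filter, mem_range] at hx
  obtain ⟨h1, h2, h3, h4⟩ := hx
  have hr1 : (1 : ℝ) ≤ r := by exact_mod_cast hr
  have h5 : (r : ℝ) * Real.exp L < ((qv a r (b + W * x) : ℕ) : ℝ) :=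
    (Nat.floor_lt (by positivity)).1 h3
  have h6 : Real.exp L ≤ (r : ℝ) * Real.exp L := le_mul_of_one_le_left (Real.exp_nonneg _) hr1
  refine ⟨h1, h2, lt_of_le_of_lt h6 h5, ?_, ?_⟩
  · have h7 : ((qv a r (b + W * x) : ℕ) : ℝ) ≤ 3 / 2 * ((r : ℝ) * Real.exp L) :=
      (Nat.le_floor_iff (by positivity)).1 h4
    have h8 : (3 : ℝ) / 2 * r ≤ Real.exp L := by
      have h9 := exp10 hL
      have h10 : Real.exp (L / 10) * (3 / 2) ≤ Real.exp L := by
        have h11 : (3 : ℝ) / 2 ≤ Real.exp (L / 10) := by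
          have := Real.add_one_le_exp (L / 10)
          norm_num at hL
          linarith
        calc Real.exp (L / 10) * (3 / 2) ≤ Real.exp (L / 10) * Real.exp (L / 10) :=
              mul_le_mul_of_nonneg_left h11 (Real.exp_nonneg _)
          _ = Real.exp (L / 10 + L / 10) := (Real.exp_add _ _).symm
          _ ≤ Real.exp L := Real.exp_le_exp.2 (by linarith)
      linarith
    have h12 : ((qv a r (b + W * x) : ℕ) : ℝ) ≤ Real.exp (2 * L) := by
      refine h7.trans ?_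
      calc (3 : ℝ) / 2 * ((r : ℝ) * Real.exp L) = (3 / 2 * r) * Real.exp L := by ring
        _ ≤ Real.exp L * Real.exp L := mul_le_mul_of_nonneg_right h8 (Real.exp_nonneg _)
        _ = Real.exp (2 * L) := by
            rw [← Real.exp_add]
            congr 1
            ring
    have h13 : (0 : ℝ) < ((qv a r (b + W * x) : ℕ) : ℝ) := by exact_mod_cast h2.pos
    have h14 := Real.log_le_log h13 h12
    rw [Real.log_exp] at h14
    exact h14
  · have h7 : 0 < a + (r : ℤ) * ((b + W * x : ℕ) : ℤ) := by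
      have h8 := h2.pos
      unfold qv at h8
      omega
    unfold qv
    exact Int.toNat_of_nonneg h7.le

lemma PiL_sub (hm : m = a.natAbs) (ha : a ≠ 0) (hr : 1 ≤ r) (hrL : (r : ℝ) ≤ L ^ 2)
    (hL : 10 ^ 6 ≤ L) (hmL : (m : ℝ) ≤ L) : PiL a r W b L ⊆ IP.Om m W b (M0 L W) := by
  intro x hx
  obtain ⟨h1, h2, h3, h4, h5⟩ := mem_PiL hr hrL hL hx
  rw [IP.Om, mem_filter, mem_range]
  refine ⟨h1, ?_⟩
  by_contra hcon
  obtain ⟨p, hp, hp1, hp2⟩ := Nat.Prime.not_coprime_iff_dvd.1 hcon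
  have h6 : (p : ℤ) ∣ ((qv a r (b + W * x) : ℕ) : ℤ) := by
    rw [h5]
    refine dvd_add ?_ (Dvd.dvd.mul_left (Int.natCast_dvd_natCast.2 hp1) _)
    rw [hm] at hp2
    exact Int.natCast_dvd.2 hp2
  have h7 : p ∣ qv a r (b + W * x) := Int.natCast_dvd_natCast.1 h6
  have h8 : p = qv a r (b + W * x) := (Nat.prime_dvd_prime_iff_eq hp h2).1 h7
  have hm1 : 0 < m := by
    rw [hm]
    exact Int.natAbs_pos.2 ha
  have h9 : p ≤ m := Nat.le_of_dvd hm1 hp2
  have h10 : (p : ℝ) ≤ m := by exact_mod_cast h9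
  rw [h8] at h10
  have h11 := Real.add_one_le_exp L
  linarith

lemma no_hit (hr : 1 ≤ r) (hrL : (r : ℝ) ≤ L ^ 2) (hL : 10 ^ 6 ≤ L) {x l : ℕ}
    (hx : x ∈ PiL a r W b L) (hl : l.Prime) (hlL : (l : ℝ) ≤ Real.exp L)
    (hσ : ∀ n : ℕ, ((l : ℤ) ∣ a + (r : ℤ) * (n : ℤ) ↔ l ∣ σ n + i * m)) :
    ¬ l ∣ σ (b + W * x) + i * m := by
  intro hcon
  obtain ⟨h1, h2, h3, h4, h5⟩ := mem_PiL hr hrL hL hx
  have h6 := (hσ (b + W * x)).2 hcon
  rw [← h5] at h6
  have h7 : l ∣ qv a r (b + W * x) := Int.natCast_dvd_natCast.1 h6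
  have h8 : l = qv a r (b + W * x) := (Nat.prime_dvd_prime_iff_eq hl h2).1 h7
  rw [h8] at hlL
  linarith

end EDQUX

theorem t_EDQUX : S_EDQUX := by
  classical
  intro hCORE hCRL hCRU hMOF hEDP hBLH hVSH hKVH hPAR hLARG c₂ hc₂
  obtain ⟨c, hc, hSIG⟩ := Pool.Agent.UNI.sigU
  obtain ⟨C₁, hC₁, hG0⟩ := g0_bound
  obtain ⟨L₂, hBLH⟩ := hBLH
  obtain ⟨cV, hcV, hVSH⟩ := hVSH
  obtain ⟨C3', hC3', L₅, hKVH⟩ := hKVH
  obtain ⟨L₆, hLARG⟩ := hLARG
  obtain ⟨C3, hC3d⟩ : ∃ C3 : ℝ, C3 = C3' / (12 * c₂) := ⟨_, rfl⟩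
  have hC3 : 0 < C3 := by rw [hC3d]; positivity
  obtain ⟨e, he⟩ : ∃ e : ℝ, e = 1 / 10 ^ 8 := ⟨_, rfl⟩
  have he0 : 0 < e := by rw [he]; norm_num
  have he2 : e ≤ 1 / 2 := by rw [he]; norm_num
  have he1 : e ≤ 1 := by linarith
  obtain ⟨κ₀, hκ₀, hpar⟩ := hPAR c e (64 * 24 * C3) hc he0 (by positivity)
  refine ⟨9 * κ₀ + 4 * C₁ + 48 * C3 + 63, by linarith, fun a ha => ?_⟩
  obtain ⟨mc, hCORE⟩ := hCORE a ha
  obtain ⟨m, hmd⟩ : ∃ m : ℕ, m = a.natAbs := ⟨_, rfl⟩
  rw [← hmd]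
  have hm : 1 ≤ m := by
    rw [hmd]
    exact Int.natAbs_pos.2 ha
  have hm0 : (0 : ℝ) < m := by exact_mod_cast hm
  have hm1 : (1 : ℝ) ≤ m := by exact_mod_cast hm
  obtain ⟨L₀, hL₀⟩ : ∃ L₀ : ℝ, L₀ = max (max (max L₂ mc) (max L₅ L₆))
    (max (max (cV ^ 2) (1 / cV ^ 2)) (max (max (24576 * C3) (10 ^ 6))
      (max (1 / c₂) ((2 : ℝ) ^ m.primeFactors.card * m)))) := ⟨_, rfl⟩
  refine ⟨L₀, fun L hLL C₀ hC₀1 hκC => ?_⟩
  have hC₀ : 0 < C₀ := by linarith
  have k1 : max (max L₂ mc) (max L₅ L₆) ≤ L := by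
    refine le_trans ?_ hLL
    rw [hL₀]
    exact le_max_left _ _
  have k2 : max (max (cV ^ 2) (1 / cV ^ 2)) (max (max (24576 * C3) (10 ^ 6))
      (max (1 / c₂) ((2 : ℝ) ^ m.primeFactors.card * m))) ≤ L := by
    refine le_trans ?_ hLL
    rw [hL₀]
    exact le_max_right _ _
  have e11 : L₂ ≤ L := (le_max_left _ _).trans ((le_max_left _ _).trans k1)
  have e9 : mc ≤ L := (le_max_right _ _).trans ((le_max_left _ _).trans k1)
  have e14 : L₅ ≤ L := (le_max_left _ _).trans ((le_max_right _ _).trans k1)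
  have e15 : L₆ ≤ L := (le_max_right _ _).trans ((le_max_right _ _).trans k1)
  have hLc1 : cV ^ 2 ≤ L := (le_max_left _ _).trans ((le_max_left _ _).trans k2)
  have hLc2 : 1 / cV ^ 2 ≤ L := (le_max_right _ _).trans ((le_max_left _ _).trans k2)
  have k3 : max (max (24576 * C3) (10 ^ 6)) (max (1 / c₂) ((2 : ℝ) ^ m.primeFactors.card * m)) ≤ L :=
    (le_max_right _ _).trans k2
  have hLC3 : 24576 * C3 ≤ L := (le_max_left _ _).trans ((le_max_left _ _).trans k3)
  have hL6 : (10 : ℝ) ^ 6 ≤ L := (le_max_right _ _).trans ((le_max_left _ _).trans k3)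
  have hLc : 1 / c₂ ≤ L := (le_max_left _ _).trans ((le_max_right _ _).trans k3)
  have hLm : (2 : ℝ) ^ m.primeFactors.card * m ≤ L :=
    (le_max_right _ _).trans ((le_max_right _ _).trans k3)
  have hL0 : 0 < L := lt_of_lt_of_le (by norm_num) hL6
  have hL1 : 1 ≤ L := le_trans (by norm_num) hL6
  have hcL : 1 ≤ c₂ * L := by
    rw [div_le_iff₀ hc₂] at hLc
    linarith
  have hmL' : (m : ℝ) ≤ L := by
    refine le_trans ?_ hLm
    exact le_mul_of_one_le_left hm0.le (one_le_pow₀ (by norm_num))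
  obtain ⟨η, lamb, I, hηκ, hηe, hlamb, hI1, hI2, hI3, hI4⟩ := hpar C₀ hC₀1
  have hη : 0 < η := (Real.exp_pos _).trans_le hηκ
  have hη1 : η ≤ 1 := hηe.trans he1
  have h8κ : 8 * κ₀ * C₀ ≤ Real.log L := by
    have h1 : 0 ≤ (κ₀ + 4 * C₁ + 48 * C3 + 63) * C₀ := by positivity
    linarith
  have hClog : C₀ ≤ Real.log L := by
    have h1 : 0 ≤ (9 * κ₀ + 4 * C₁ + 48 * C3 + 62) * C₀ := by positivity
    linarith
  have hCL : C₀ ≤ L := by
    have h1 := Real.add_one_le_exp (Real.log L)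
    rw [Real.exp_log hL0] at h1
    linarith
  have h8 : 1 ≤ η ^ 8 * L := by
    have h1 : Real.exp (-(κ₀ * C₀)) ^ 8 ≤ η ^ 8 := pow_le_pow_left₀ (Real.exp_nonneg _) hηκ 8
    have h2 : Real.exp (-(κ₀ * C₀)) ^ 8 = Real.exp (-(8 * κ₀ * C₀)) := by
      rw [← Real.exp_nat_mul]
      congr 1
      push_cast
      ring
    rw [h2] at h1
    calc (1 : ℝ) = Real.exp 0 := Real.exp_zero.symm
      _ ≤ Real.exp (-(8 * κ₀ * C₀) + Real.log L) := Real.exp_le_exp.2 (by linarith)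
      _ = Real.exp (-(8 * κ₀ * C₀)) * L := by rw [Real.exp_add, Real.exp_log hL0]
      _ ≤ η ^ 8 * L := mul_le_mul_of_nonneg_right h1 (by linarith)
  obtain ⟨a1, a2, a3, a4⟩ := Pool.Agent.UNI.eta_facts hη hη1 hL1 h8
  have hss : Real.sqrt L * Real.sqrt L = L := Real.mul_self_sqrt (by linarith)
  have hs1 : 1 ≤ Real.sqrt L := Real.one_le_sqrt.2 hL1
  obtain ⟨J, hJ⟩ : ∃ J : ℕ, J = ⌊e / η⌋₊ := ⟨_, rfl⟩
  have hJ1 : (J : ℝ) * η ≤ e := by
    have h1 : (J : ℝ) ≤ e / η := by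
      rw [hJ]
      exact Nat.floor_le (by positivity)
    rwa [le_div_iff₀ hη] at h1
  have hJ2 : e < ((J : ℝ) + 1) * η := by
    have h1 : e / η < (J : ℝ) + 1 := by
      rw [hJ]
      exact Nat.lt_floor_add_one _
    rwa [div_lt_iff₀ hη] at h1
  have hJ0 : (0 : ℝ) ≤ J := Nat.cast_nonneg J
  have hJ3 : 1 ≤ J := by
    rw [hJ]
    apply Nat.le_floor
    rw [le_div_iff₀ hη]
    push_cast
    linarith
  obtain ⟨E, hE⟩ : ∃ E : ℕ, E = ⌈(((2 : ℕ) : ℝ) + 1) / η⌉₊ := ⟨_, rfl⟩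
  have hE2 : ((2 : ℕ) : ℝ) + 1 = 3 := by norm_num
  obtain ⟨G0, hG0d⟩ : ∃ G0 : ℝ, G0 = 2 ^ E * (C₁ * (e / lamb / η)) := ⟨_, rfl⟩
  have hlamb0 : 0 < lamb := by linarith
  have hratio : 1 ≤ e / lamb / η := by
    rw [le_div_iff₀ hη, le_div_iff₀ hlamb0, one_mul]
    have h1 : (1 : ℝ) ≤ 2 ^ I := one_le_pow₀ (by norm_num)
    have h2 : 0 ≤ η * lamb := by positivity
    have h3 : 1 * (η * lamb) ≤ 2 ^ I * (η * lamb) := mul_le_mul_of_nonneg_right h1 h2
    linarith
  have hG01 : 1 ≤ G0 := by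
    rw [hG0d]
    have h1 : (1 : ℝ) ≤ 2 ^ E := one_le_pow₀ (by norm_num)
    exact one_le_mul_of_one_le_of_one_le h1 (one_le_mul_of_one_le_of_one_le hC₁ hratio)
  have hC40 : 0 < IP.C4 G0 J (C₀ / η) := by
    have : 0 < G0 := by linarith
    unfold IP.C4
    positivity
  have hδ := Pool.Agent.UNI.delta_bound (A := 2) (κ₀ := κ₀) hC₀1 hC₁ hη hη1 he1 he0 hlamb hκ₀
    hηκ hJ1 hE hG0d (C4 := IP.C4 G0 J (C₀ / η)) rfl
  have hfinal := EDQUX.final_const hC₀1 hC₁ hC3 hη hκ₀ hηκ hC40.le hδ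
  obtain ⟨D, hD⟩ : ∃ D : ℝ, D = 24 * C3 / η := ⟨_, rfl⟩
  have hD0 : 0 < D := by rw [hD]; positivity
  rw [← hD] at hfinal
  have hDJ : 24576 * C3 * C₀ / η ^ 2 * (J : ℝ) ^ 2 ≤ L ^ 4 := by
    obtain ⟨X, hX⟩ : ∃ X : ℝ, X = 1 / η := ⟨_, rfl⟩
    rw [← hX] at a1
    have hX0 : 0 ≤ X := by rw [hX]; positivity
    have hJX : (J : ℝ) ≤ X := by
      rw [hX, le_div_iff₀ hη]
      linarith
    have hX2 : X * X ≤ L := by
      calc X * X ≤ Real.sqrt L * Real.sqrt L := mul_le_mul a1 a1 hX0 (Real.sqrt_nonneg _)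
        _ = L := hss
    have hJ2X : (J : ℝ) ^ 2 ≤ X * X := by
      rw [pow_two]
      exact mul_le_mul hJX hJX hJ0 hX0
    have e1 : 24576 * C3 * C₀ / η ^ 2 * (J : ℝ) ^ 2 =
        (24576 * C3) * C₀ * ((X * X) * (J : ℝ) ^ 2) := by
      rw [hX]
      field_simp
    rw [e1]
    calc (24576 * C3) * C₀ * ((X * X) * (J : ℝ) ^ 2) ≤ (L * L) * (L * L) := by
          apply mul_le_mul _ _ (by positivity) (by positivity)
          · exact mul_le_mul hLC3 hCL (by linarith) (by linarith)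
          · exact mul_le_mul hX2 (hJ2X.trans hX2) (by positivity) (by linarith)
      _ = L ^ 4 := by ring
  obtain ⟨e1, e2, e3, e4, e5, e6, -, e8⟩ := hLARG L e15 η
    (24576 * C3 * C₀ / η ^ 2 * (J : ℝ) ^ 2) J hη hη1 h8 (hJ1.trans he1) hDJ
  obtain ⟨-, -, -, -, -, -, e7, -⟩ := hLARG L e15 η 0 (J + 1) hη hη1 h8
    (by
      push_cast
      have : ((J : ℝ) + 1) * η = J * η + η := by ring
      linarith) (by positivity)
  refine ⟨η, hη, e3, fun b r i S σ hp hiL hSk hiS hσB hv hSV hTh => ?_⟩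
  have hL200 : 200 ≤ L := le_trans (by norm_num) e1
  have hLE : L ≤ Real.exp L := by
    have := Real.add_one_le_exp L
    linarith
  have hmL : Real.log m ≤ ((1 : ℕ) : ℝ) * L := by
    have := Real.log_le_sub_one_of_pos hm0
    push_cast
    linarith
  obtain ⟨P, N, hd, hSS, hsum, hLV⟩ := hBLH L e11 η hη (700 * (J + 1)) m hm
  have hsL : Real.sqrt L ≤ L := by
    calc Real.sqrt L = 1 * Real.sqrt L := (one_mul _).symm
      _ ≤ Real.sqrt L * Real.sqrt L := mul_le_mul_of_nonneg_right hs1 (Real.sqrt_nonneg _)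
      _ = L := hss
  have hVSL' := hVSH η hη J L hL1 (a1.trans hsL)
    (by
      have h1 : cV ≤ Real.sqrt L := Real.le_sqrt_of_sq_le hLc1
      calc cV / η = cV * (1 / η) := by ring
        _ ≤ Real.sqrt L * Real.sqrt L := mul_le_mul h1 a1 (by positivity) (Real.sqrt_nonneg _)
        _ = L := hss)
    (by linarith)
    (by
      rw [div_pow]
      refine le_trans ?_ hLc2
      apply div_le_div_of_nonneg_right _ (by positivity)
      exact pow_le_one₀ hη.le hη1)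
    m hm
  obtain ⟨W, hW⟩ : ∃ W : ℕ, W = WW m L := ⟨_, rfl⟩
  have hW1 : 1 ≤ W := by rw [hW]; exact THDd.WW_pos m L
  have hWm : W.Coprime m := by rw [hW]; exact THDd.WW_coprime m L
  have hWL : (W : ℝ) ≤ Real.exp (2 * Real.sqrt L) := by rw [hW]; exact IP.EDQ.W_le hL0.le
  have hWp : ∀ p : ℕ, p.Prime → p ∣ W → (p : ℝ) ≤ L ^ 100 := by
    intro p hp hpW
    rw [hW] at hpW
    have h1 := (THDd.dvd_WW hp hpW).1
    have h2 : (p : ℝ) ≤ Real.sqrt L := by
      have h3 : (p : ℝ) ≤ (⌊Real.sqrt L⌋₊ : ℝ) := by exact_mod_cast h1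
      exact h3.trans (Nat.floor_le (Real.sqrt_nonneg L))
    exact (h2.trans hsL).trans (le_self_pow₀ hL1 (by norm_num))
  have hKV3 := hKVH L e14 1 η le_rfl hη e3 1 (by push_cast; linarith) m hm hmL (⌊((m.totient : ℝ) / m) * L⌋₊ + 1) (by
    push_cast
    have : (⌊((m.totient : ℝ) / m) * L⌋₊ : ℝ) ≤ ((m.totient : ℝ) / m) * L :=
      Nat.floor_le (by positivity)
    linarith)
  rw [← hW] at hp hv hTh hKV3 ⊢
  have hW0 : (0 : ℝ) < W := by exact_mod_cast hW1
  have htW : (0 : ℝ) < W.totient := by exact_mod_cast Nat.totient_pos.2 hW1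
  have htWle : (W.totient : ℝ) ≤ W := by exact_mod_cast Nat.totient_le W
  have htot : (0 : ℝ) < m.totient := by exact_mod_cast Nat.totient_pos.2 hm
  have htotle : (m.totient : ℝ) ≤ m := by exact_mod_cast Nat.totient_le m
  obtain ⟨B1, hB1⟩ : ∃ B1 : ℝ, B1 = e * L / lamb := ⟨_, rfl⟩
  have hB1I : 2 ^ I * (η * L) ≤ B1 := by
    rw [hB1, le_div_iff₀ hlamb0]
    calc 2 ^ I * (η * L) * lamb = (2 ^ I * (η * lamb)) * L := by ring
      _ ≤ e * L := by gcongr
  have hσ := hSIG η hη 1 I L hL1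
    (by
      have h1 : 2 / η = 2 * (1 / η) := by ring
      have h2 : 1000 ≤ Real.sqrt L := Real.le_sqrt_of_sq_le (by norm_num at e1 ⊢; linarith)
      rw [h1]
      calc 2 * (1 / η) ≤ Real.sqrt L * Real.sqrt L :=
            mul_le_mul (by linarith) a1 (by positivity) (Real.sqrt_nonneg _)
        _ = L := hss)
    (by
      rw [div_le_iff₀ (by positivity)]
      have h2 : 1000 ≤ Real.sqrt L := Real.le_sqrt_of_sq_le (by norm_num at e1 ⊢; linarith)
      have h3 : L * η ^ 2 = η ^ 2 * L := mul_comm _ _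
      rw [h3]
      push_cast
      linarith)
    m hm hmL B1 hB1I
  have hlogz : Real.log (Real.exp (η * L)) = η * L := Real.log_exp _
  obtain ⟨Q, hQ⟩ : ∃ Q : Finset ℕ, Q = BPr m (Real.exp (η * L)) (Real.exp B1) := ⟨_, rfl⟩
  have hB10 : 0 < B1 := by rw [hB1]; positivity
  have hηB1 : η * L ≤ B1 := by
    have h1 : (1 : ℝ) ≤ 2 ^ I := one_le_pow₀ (by norm_num)
    have h2 : 0 ≤ η * L := by positivity
    exact (le_mul_of_one_le_left h2 h1).trans hB1I
  have hzR : Real.exp (η * L) ≤ Real.exp B1 := Real.exp_le_exp.2 hηB1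
  have hexpB1 : 0 ≤ Real.exp B1 := Real.exp_nonneg _
  have hz0 : 0 < Real.exp (η * L) := Real.exp_pos _
  have hL24 : L ^ 2 < L ^ 100 := pow_lt_pow_right₀ (by linarith) (by norm_num)
  have hLL100 : L ≤ L ^ 100 := le_self_pow₀ hL1 (by norm_num)
  have hz2 : 2 ≤ Real.exp (η * L) := by linarith
  have hηL : η * L ≤ L / 100 := by
    have h3 : η ≤ 1 / 100 := by
      refine hηe.trans ?_
      rw [he]
      norm_num
    calc η * L ≤ 1 / 100 * L := mul_le_mul_of_nonneg_right h3 hL0.le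
      _ = L / 100 := by ring
  have hB1L : B1 ≤ L / 100 := by
    have h3 : e ≤ 1 / 100 := by
      rw [he]
      norm_num
    rw [hB1]
    calc e * L / lamb ≤ e * L := div_le_self (by positivity) hlamb
      _ ≤ 1 / 100 * L := mul_le_mul_of_nonneg_right h3 hL0.le
      _ = L / 100 := by ring
  have hSSm : ∀ l ∈ SS P N, l.Prime ∧ L ^ 100 < (l : ℝ) ∧ ¬ l ∣ m ∧ (l : ℝ) ≤ Real.exp (η * L) := by
    intro l hl
    rw [hSS] at hl
    exact IP.EDQ.mem_SPH hz0.le hl
  have hQm : ∀ l ∈ Q, l.Prime ∧ Real.exp (η * L) < (l : ℝ) ∧ ¬ l ∣ m ∧ (l : ℝ) ≤ Real.exp B1 := by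
    intro l hl
    rw [hQ] at hl
    exact mem_BPr hexpB1 hl
  have hall : ∀ l ∈ SS P N ∪ Q, l.Prime ∧ L ^ 100 < (l : ℝ) ∧ (l : ℝ) ≤ Real.exp (L / 100) ∧
      ¬ l ∣ m := by
    intro l hl
    rw [mem_union] at hl
    rcases hl with hl | hl
    · obtain ⟨g1, g2, g3, g4⟩ := hSSm l hl
      exact ⟨g1, g2, g4.trans (Real.exp_le_exp.2 hηL), g3⟩
    · obtain ⟨g1, g2, g3, g4⟩ := hQm l hl
      exact ⟨g1, e3.trans_lt g2, g4.trans (Real.exp_le_exp.2 hB1L), g3⟩
  have hσl : ∀ l ∈ SS P N ∪ Q, Bij σ l ∧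
      ∀ n : ℕ, ((l : ℤ) ∣ a + (r : ℤ) * (n : ℤ) ↔ l ∣ σ n + i * m) := by
    intro l hl
    obtain ⟨g1, g2, g3, g4⟩ := hall l hl
    exact hσB l g1 g2 g3 g4
  have hcardS : (S.card : ℝ) ≤ L ^ 2 + 1 := by
    have h1 : S ⊆ range (⌊L ^ 2⌋₊ + 1) := by
      intro k hk
      rw [mem_range]
      have := Nat.le_floor (hSk k hk)
      omega
    have h2 := card_le_card h1
    rw [card_range] at h2
    have h3 : (S.card : ℝ) ≤ (⌊L ^ 2⌋₊ : ℝ) + 1 := by exact_mod_cast h2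
    have h4 : (⌊L ^ 2⌋₊ : ℝ) ≤ L ^ 2 := Nat.floor_le (by positivity)
    linarith
  have hS0 : (0 : ℝ) ≤ S.card := Nat.cast_nonneg _
  obtain ⟨sg, hsg⟩ : ∃ sg : ℝ, sg = ∑ T : Finset {l // l ∈ Q},
      s0 (fun i : {l // l ∈ Q} => Real.log ((i : ℕ) : ℝ))
        (fun i : {l // l ∈ Q} => ((i : ℕ) : ℝ) - 1) B1 T := ⟨_, rfl⟩
  have hσ2 : (c * I - 1) / (η * L) ≤ sg := by
    rw [hsg]
    subst hQ
    exact hσ
  have hcI : 0 < c * I - 1 := by
    have : 0 < 8 * C₀ / e := by positivity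
    linarith
  have hcI1 : 1 ≤ c * I - 1 := by
    have : 0 < 8 * C₀ / e := by positivity
    linarith
  have hσ0 : 0 < sg := lt_of_lt_of_le (by positivity) hσ2
  have ha1 : 1 / sg ≤ η * L / (c * I - 1) := by
    rw [div_le_div_iff₀ hσ0 hcI, one_mul]
    rw [div_le_iff₀ (by positivity)] at hσ2
    linarith
  have ha2 : 1 / sg ≤ η * L := by
    refine ha1.trans ?_
    exact div_le_self (by positivity) hcI1
  -- the range
  obtain ⟨n, hn⟩ : ∃ n : ℕ, n = M0 L W := ⟨_, rfl⟩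
  obtain ⟨M, hM⟩ : ∃ M : ℝ, M = IP.EDP.MM m n := ⟨_, rfl⟩
  obtain ⟨hn1, hnW, hM0, hωL⟩ := EDQUX.num_n (M := M) e1 hm hW1 hWL hn hLm hM
  have hωM : 2 ^ m.primeFactors.card / M ≤ 2 * Real.exp (-(31 / 40 * L)) := by
    refine le_trans ?_ hωL
    apply div_le_div_of_nonneg_left (by positivity) (by positivity)
    exact div_le_self hM0.le hL1
  obtain ⟨T, hT⟩ : ∃ T : ℝ, T = ThL a r W b L := ⟨_, rfl⟩
  rw [← hT] at hTh ⊢
  have hT0 : 0 < T := lt_of_lt_of_le (by positivity) hTh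
  -- the level
  obtain ⟨bb, hbb⟩ : ∃ bb : ℕ → ℕ, bb = fun j => 700 * (J + 1) + j := ⟨_, rfl⟩
  rw [← hbb] at hLV
  have hLV0 : 0 ≤ LV P bb N := by
    unfold LV
    apply Finset.prod_nonneg
    intro j _
    have : 0 ≤ ∑ l ∈ P j, (l : ℝ) := Finset.sum_nonneg fun l _ => Nat.cast_nonneg l
    positivity
  have hLV1 : LV P bb N ≤ Real.exp (L / 1000) := by
    refine hLV.trans (Real.exp_le_exp.2 (IP.EDQ.num_lv hL0 ?_ ?_))
    · rw [← he]
      exact hηe
    · rw [← he]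
      exact hJ1
  have hLV2 : LV P bb N ^ 2 ≤ Real.exp (L / 500) := by
    have h1 := pow_le_pow_left₀ hLV0 hLV1 2
    refine h1.trans (le_of_eq ?_)
    rw [← Real.exp_nat_mul]
    congr 1
    push_cast
    ring
  have hLV4 : LV P bb N ^ 4 ≤ Real.exp (L / 250) := by
    have h1 := pow_le_pow_left₀ hLV0 hLV1 4
    refine h1.trans (le_of_eq ?_)
    rw [← Real.exp_nat_mul]
    congr 1
    push_cast
    ring
  obtain ⟨V1, hV1⟩ : ∃ V1 : ℝ, V1 = VS (SS P N) 1 := ⟨_, rfl⟩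
  have hV10 : 0 ≤ V1 := by
    rw [hV1]
    apply VS_nonneg
    intro l hl
    exact (hSSm l hl).1.one_le
  have hVK : V1 * S.card ≤ C₀ / η := by
    rw [hV1, hSS, mul_comm]
    exact hSV
  have hKV : (S.card : ℝ) * V1 ≤ C₀ / η := by
    rw [mul_comm]
    exact hVK
  have hVK0 : 0 ≤ V1 * S.card := by positivity
  -- the sizes
  have hMn : M ≤ n := by
    rw [hM]
    unfold IP.EDP.MM
    apply mul_le_of_le_one_right (by positivity)
    rw [div_le_one hm0]
    exact htotle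
  have hMT : M ≤ 2 * L * T := by
    have h1 : Real.exp L / W ≤ Real.exp L / W.totient :=
      div_le_div_of_nonneg_left (Real.exp_nonneg _) htW htWle
    have h2 : Real.exp L / W.totient ≤ L * T := by
      calc Real.exp L / W.totient ≤ (c₂ * L) * (Real.exp L / W.totient) :=
            le_mul_of_one_le_left (by positivity) hcL
        _ = L * (c₂ * (Real.exp L / W.totient)) := by ring
        _ ≤ L * T := mul_le_mul_of_nonneg_left hTh hL0.le
    have h3 : 2 * Real.exp L / W = 2 * (Real.exp L / W) := by ring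
    linarith
  have hΛM : 2 * L * M ≤ 4 * L * L * T := by
    calc 2 * L * M ≤ 2 * L * (2 * L * T) := mul_le_mul_of_nonneg_left hMT (by positivity)
      _ = _ := by ring
  have hΛMV : 2 * L * M * V1 ≤ D * T := by
    have h1 : 2 * (((m.totient : ℝ) / m) * L) * ((W.totient : ℝ) / W) * V1 ≤ C3' / η := by
      have h2 : ((m.totient : ℝ) / m) * L ≤ ((⌊((m.totient : ℝ) / m) * L⌋₊ + 1 : ℕ) : ℝ) := by
        push_cast
        exact (Nat.lt_floor_add_one _).le
      rw [← hSS, ← hV1, mul_one] at hKV3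
      refine le_trans ?_ hKV3
      gcongr
    have hMle1 : M ≤ 2 * Real.exp L / W * ((m.totient : ℝ) / m) := by
      rw [hM]
      unfold IP.EDP.MM
      exact mul_le_mul_of_nonneg_right hnW (by positivity)
    calc 2 * L * M * V1 ≤ 2 * L * (2 * Real.exp L / W * ((m.totient : ℝ) / m)) * V1 := by
          gcongr
      _ = 2 * (2 * (((m.totient : ℝ) / m) * L) * ((W.totient : ℝ) / W) * V1) *
          (Real.exp L / W.totient) := by
          field_simp
      _ ≤ 2 * (C3' / η) * (Real.exp L / W.totient) := by gcongr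
      _ = D * (c₂ * (Real.exp L / W.totient)) := by
          rw [hD, hC3d]
          field_simp
          norm_num
      _ ≤ D * T := by gcongr
  have hPar : ParX η P bb N a m W b r i n Q S σ L (1 / sg) (e * L) B1 :=
    { hm := hmd
      ha0 := ha
      hp := hp
      hWm := hWm
      hn := hn
      hd := hd
      hS := by
        intro l hl
        obtain ⟨g1, g2, g3, g4⟩ := hSSm l hl
        exact ⟨g1, g3, fun h => absurd (hWp l g1 h) (not_le.2 g2), g2, g4⟩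
      hQ := by
        intro l hl
        obtain ⟨g1, g2, g3, g4⟩ := hQm l hl
        exact ⟨g1, g3, fun h => absurd (hWp l g1 h) (not_le.2 (e3.trans_lt g2)), g2, g4⟩
      hσ := hσl
      hk := hSk
      hi := hiL
      hiS := hiS
      hLV := hLV1
      hα := by positivity
      hαη := ha2
      hB1 := hB10
      hB1B := by
        rw [hB1]
        exact div_le_self (by positivity) hlamb
      hB := by
        rw [he]
        have := hL0.le
        norm_num
        linarith }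
  have hCtx := EDQUX.ctx_of (J := J) (VJ := 1 / L ^ (3 * J)) hPar hm hL200 e3 (e2.trans hLL100)
    hn1 hsum
    (by
      intro j _
      rw [hbb])
    (by
      rw [← hsg]
      field_simp)
    (by
      calc e * L < (((J : ℝ) + 1) * η) * L := by gcongr
        _ = _ := by ring)
    (by positivity)
    (by
      intro j hj
      rw [hSS]
      exact hVSL' j hj)
    (by
      have h1 : 2 * ((J : ℝ) + 1) * S.card / Real.exp (η * L) =
          2 * ((J : ℝ) + 1) * S.card * Real.exp (-(η * L)) := by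
        rw [Real.exp_neg]
        rfl
      rw [h1]
      refine le_trans ?_ e4
      gcongr)
  have hh2 : 384 * L * (((S.card : ℝ) + 1) * (L * (2 ^ m.primeFactors.card * LV P bb N ^ 2 / M *
      (Real.exp (3 * (e * L)) * 3) ^ 2))) ≤ 1 := by
    have h1 := IP.EDQ.num_h2 (p := 2 ^ m.primeFactors.card) (v := LV P bb N ^ 2) (M := M / L) hS0
      hcardS hL1 (by positivity) (by positivity) hωL (by positivity) hLV2 he e6
    refine le_trans (le_of_eq ?_) h1
    field_simp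
  have hh3 := EDQUX.num_h3 (J := J) (η := η) hS0 hcardS hL1 e7
  have hh4 := IP.EDQ.num_h4 (J := J) hS0 hcardS hL1 hM0 (p := 2 ^ m.primeFactors.card)
    (by positivity) hωM (v := LV P bb N ^ 4) (by positivity) hLV4 e8
  have hcore := hCORE L e9 η hη (by rw [← he]; exact hηe) h8 P bb N m W b r i n J Q S σ (1 / sg)
    (e * L) B1 (1 / L ^ (3 * J)) hPar hCtx (by rw [← he]; exact hJ1) le_rfl
  unfold LPhX at hcore
  rw [← hT] at hcore
  have key := hEDP hCRL hCRU hMOF P bb N m W b i n J Q S (Real.exp (η * L)) (1 / sg) (e * L) B1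
    (1 / L ^ (3 * J)) σ hCtx (fun l hl => (hσl l hl).1) (PiL a r W b L) (lwX a r W b) T
    (Real.exp L / (W.totient * L ^ 20) + Real.exp (99 / 100 * L)) G0 (2 * L) D
    (by
      rw [hn]
      exact EDQUX.PiL_sub hmd ha hp.hr hp.hrL e1 hmL')
    (fun x _ => Real.log_natCast_nonneg _)
    (fun x hx => (EDQUX.mem_PiL hp.hr hp.hrL e1 hx).2.2.2.1)
    (by
      intro x hx l hl
      have hl' : l ∈ SS P N ∪ Q := mem_union_left _ hl
      refine EDQUX.no_hit hp.hr hp.hrL e1 hx (hall l hl').1 ((hall l hl').2.2.1.trans ?_)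
        (hσl l hl').2
      exact Real.exp_le_exp.2 (by linarith))
    hcore hT0 hD0 (by positivity)
    (EDQUX.num_h5 e1 htW htWle hWL hc₂ hcL hTh)
    (by
      rw [← hM, ← hV1]
      have h1 := IP.EDQ.num_h1 (J := J) hVK0 hC₀ hC3 hη hVK hL0 ha1 he0 hlamb0 hB1 hI2 hI3 e5
      rw [← hD] at h1
      have h0 : 0 ≤ 2 * (V1 * S.card) * ((4 * (J : ℝ) / Real.exp (η * L)) ^ 2 +
          Real.exp ((2 * (1 / sg) * (V1 * S.card) - (e * L - B1)) / B1)) := by positivity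
      calc 2 * L * M * V1 * (2 * (V1 * S.card)) * ((4 * (J : ℝ) / Real.exp (η * L)) ^ 2 +
          Real.exp ((2 * (1 / sg) * (V1 * S.card) - (e * L - B1)) / B1)) =
            (2 * L * M * V1) * (2 * (V1 * S.card) * ((4 * (J : ℝ) / Real.exp (η * L)) ^ 2 +
          Real.exp ((2 * (1 / sg) * (V1 * S.card) - (e * L - B1)) / B1))) := by ring
        _ ≤ (D * T) * (2 * (V1 * S.card) * ((4 * (J : ℝ) / Real.exp (η * L)) ^ 2 +
          Real.exp ((2 * (1 / sg) * (V1 * S.card) - (e * L - B1)) / B1))) :=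
            mul_le_mul_of_nonneg_right hΛMV h0
        _ = T * (D * (2 * (V1 * S.card) * ((4 * (J : ℝ) / Real.exp (η * L)) ^ 2 +
          Real.exp ((2 * (1 / sg) * (V1 * S.card) - (e * L - B1)) / B1)))) := by ring
        _ ≤ T * (1 / 16) := mul_le_mul_of_nonneg_left h1 hT0.le
        _ = T / 16 := by ring)
    (by
      rw [← hM]
      exact EDQUX.big16 hT0 (by positivity) hΛM hh2)
    (by
      rw [← hM]
      exact EDQUX.big8 hL1 hS0 (by positivity) hh2)
    (by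
      rw [← hM]
      exact EDQUX.big16 hT0 (by positivity) hΛM hh3)
    (EDQUX.big8 hL1 hS0 (by positivity) hh3)
    (by
      rw [← hM]
      refine hh4.trans ?_
      rw [hSS]
      exact hVSL' 1 hJ3)
    (by
      rw [← hM, ← hV1]
      exact hΛMV)
    hG01
    (by
      intro k hk x hx
      rw [IP.Om, mem_filter, mem_range] at hx
      rw [hQ]
      refine (hG0 m k (σ (b + W * x)) (Real.exp (η * L)) (Real.exp B1) hz2 hzR).trans ?_
      rw [hG0d, Real.log_exp, hlogz]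
      have h1 : B1 / (η * L) = e / lamb / η := by
        rw [hB1]
        field_simp
      rw [h1]
      apply mul_le_mul_of_nonneg_right _ (by positivity)
      apply pow_le_pow_right₀ (by norm_num)
      obtain ⟨v, hv1, hv2, hv3⟩ := hv x (by rw [← hn]; exact hx.1) k hk
      have h2 := few_dvd (Q := BPr m (Real.exp (η * L)) (Real.exp B1)) (z := Real.exp (η * L))
        (by linarith)
        (fun l hl => ⟨(mem_BPr hexpB1 hl).1, (mem_BPr hexpB1 hl).2.1⟩) hv1
      rw [hlogz] at h2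
      have h3 : ((BPr m (Real.exp (η * L)) (Real.exp B1)).filter
          (fun l => l ∣ σ (b + W * x) + k * m)).card ≤
          ((BPr m (Real.exp (η * L)) (Real.exp B1)).filter (fun l => l ∣ v)).card := by
        apply card_le_card
        intro l hl
        rw [mem_filter] at hl ⊢
        refine ⟨hl.1, ?_⟩
        obtain ⟨g1, g2, g3, g4⟩ := hall l (mem_union_right _ (by rw [hQ]; exact hl.1))
        exact hv3 l g1 g2 g3 g4 hl.2
      have h4 : (((BPr m (Real.exp (η * L)) (Real.exp B1)).filter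
          (fun l => l ∣ v)).card : ℝ) ≤ 3 / η := by
        rw [le_div_iff₀ hη]
        have h5 : (((BPr m (Real.exp (η * L)) (Real.exp B1)).filter
          (fun l => l ∣ v)).card : ℝ) * η * L ≤ 3 * L := by
          calc _ = (((BPr m (Real.exp (η * L)) (Real.exp B1)).filter
              (fun l => l ∣ v)).card : ℝ) * (η * L) := by ring
            _ ≤ _ := h2.trans hv2
        exact le_of_mul_le_mul_right h5 hL0
      have h5 : (((BPr m (Real.exp (η * L)) (Real.exp B1)).filter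
          (fun l => l ∣ v)).card : ℝ) ≤ (E : ℝ) := by
        rw [hE, hE2]
        exact h4.trans (Nat.le_ceil _)
      have h6 : ((BPr m (Real.exp (η * L)) (Real.exp B1)).filter
          (fun l => l ∣ v)).card ≤ E := by exact_mod_cast h5
      exact h3.trans h6)
  rw [← hV1] at key
  have h1 : 1 / (16 * (D * IP.C4 G0 J (C₀ / η))) * T ≤
      T / (16 * (D * IP.C4 G0 J (S.card * V1))) := by
    rw [one_div_mul_eq_div]
    have hG00 : 0 < G0 := by linarith
    have h2 : IP.C4 G0 J (S.card * V1) ≤ IP.C4 G0 J (C₀ / η) := by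
      unfold IP.C4
      gcongr
    have h3 : 0 < IP.C4 G0 J (S.card * V1) := by
      unfold IP.C4
      positivity
    gcongr
  have h0 : Real.exp (-Real.exp ((9 * κ₀ + 4 * C₁ + 48 * C3 + 63) * C₀)) * T ≤
      1 / (16 * (D * IP.C4 G0 J (C₀ / η))) * T := by
    apply mul_le_mul_of_nonneg_right _ hT0.le
    rw [Real.exp_neg, ← one_div]
    exact one_div_le_one_div_of_le (by positivity) hfinal
  refine h0.trans (h1.trans (key.trans ?_))
  refine Finset.sum_le_sum_of_subset_of_nonneg ?_ ?_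
  · intro x hx
    rw [mem_filter] at hx ⊢
    refine ⟨hx.1, fun k hk => ?_⟩
    obtain ⟨l, hl, hdvd⟩ := hx.2 k hk
    obtain ⟨g1, g2, g3, g4⟩ := hall l hl
    exact ⟨l, g1, g2, g3, g4, hdvd⟩
  · intro x _ _
    exact Real.log_natCast_nonneg _

end

end Pool.Agent.FCT
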