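import Mathlib
import Pool.Agent.FCT.St3

set_option autoImplicit false

/-!
FCT, part V: FINITE SETS of fixed classes (theorem `FinV`). There are absolute `c, C > 0` such that for
every finite set `𝓑` of nonzero integers, `a ∈ 𝓑`, `ε > 0`, all `x ≥ x₀(𝓑, ε)`, `t ≥ 1` with
`t |𝓑| ≤ c loglog x` and all windows `ε ≤ β ≤ t`, `0 ≤ α ≤ (1 - ε) β`, at least
`exp (- exp (C t |𝓑|)) (β - α) (φ(R)/R) x` of the moduli `n ∈ (x, 2 x]`, `R = ∏ |b|`, are coprime to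
`R` and have exactly one prime `q ≤ t n log n`, `q ∉ 𝓑`, in all the classes `b` modulo `n`, `b ∈ 𝓑`,
together; it is `a` modulo `n` and lies in `(α n log n, β n log n]`.
The engine of part IV is used with `m = 1`, `W = WW 1 L` (all primes up to `sqrt L`), `E = R`,
`K' = K R`; the site `(b, k)`, `k ≥ 1`, is `j = K' + k E / b`. Models: parts I, IV. Statements with
proofs in the comments.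
-/

namespace Pool.Agent.FCT

open Finset Pool.Agent.Lib_helper9.LG
open Pool.Agent.FXD (Bij)
open scoped ArithmeticFunction.vonMangoldt

noncomputable section

/-! ### The exceptional modulus is large -/

/-- SMC: characters of small conductor are not bad. PROOF. `AJ χ 0 σ = LFunction χ σ` for `σ > 1`;
`DirichletCharacter.LFunction_changeLevel` (`χ` is induced by the primitive character `ψ` modulo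
`f = conductor < D₀`, `ψ ≠ 1`): the factors `1 - ψ(p) p^(-σ)`, `p ∣ r`, have norm at least `1 - 1/p`,
their product is at least `φ(r)/r`. For each of the finitely many `ψ ≠ 1` modulo `f < D₀` the
continuous function `‖LFunction ψ σ‖` has a positive minimum on `[1, 2]`
(`DirichletCharacter.LFunction_ne_zero_of_one_le_re`, `differentiable_LFunction`). -/
def S_SMC : Prop := ∀ D₀ : ℕ, ∃ c : ℝ, 0 < c ∧ ∀ r : ℕ, 1 ≤ r → ∀ χ : DirichletCharacter ℂ r,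
  χ ≠ 1 → χ.conductor < D₀ → ∀ σ : ℝ, 1 < σ → σ ≤ 2 →
  c * ((r.totient : ℝ) / r) ≤ ‖AJ χ 0 (σ : ℂ)‖

/-- EXD. PROOF. As `t_EXC` (Pool/Agent/FCT/EXC.lean; `exc_cond` is used as it is). If there is a bad
character `χ₁` modulo `r₁ ≤ R`, `d` is its conductor; `d ≥ D₀`, otherwise by SMC
`‖AJ χ₁ 0 σ₁‖ ≥ c φ(r₁)/r₁ ≥ c / (1 + ω(r₁)) ≥ c / (1 + 2 log R) ≥ c / (3 M) ≥ 1 / (16 M ^ 3)` for
`M ≥ M₁(D₀)` (`ω(r) log 2 ≤ log r`). Otherwise `d = max D₀ 2`. -/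
def S_EXD : Prop := S_ZUP → S_DIF → S_REP → S_SMC → ∀ D₀ : ℕ, ∃ M₁ : ℝ, ∀ R T M σ₁ : ℝ,
  UB R T M → 1 ≤ T → 1 < σ₁ → σ₁ ≤ 1 + 1 / (16 * M ^ 5) → M₁ ≤ M → Real.log R ≤ M →
  ∃ d : ℕ, D₀ ≤ d ∧ 2 ≤ d ∧ ∀ r : ℕ, 1 ≤ r → (r : ℝ) ≤ R → ¬ d ∣ r → NoBad M σ₁ r

/-- The conclusion of CHD. -/
def ChD : Prop := ∃ D : ℝ, 1 ≤ D ∧ ∀ D₀ : ℕ, ∃ M₁ : ℝ, ∀ R T M σ₁ : ℝ, UB R T M → 1 ≤ T →
  1 < σ₁ → σ₁ ≤ 1 + 1 / (16 * M ^ 5) → M₁ ≤ M → Real.log R ≤ M →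
  ∃ d : ℕ, D₀ ≤ d ∧ 2 ≤ d ∧ ∀ r : ℕ, 1 ≤ r → (r : ℝ) ≤ R → ¬ d ∣ r →
    ∀ χ : DirichletCharacter ℂ r, χ ≠ 1 → ∀ t : ℝ, |t| ≤ T →
      ‖FK χ 8 ((σ₁ : ℂ) + (t : ℂ) * Complex.I)‖ ≤ D * M ^ 711

/-- AQ: AP with the exceptional modulus above any given bound. -/
def AQ : Prop := ∃ c : ℝ, 0 < c ∧ ∀ D₀ : ℕ, ∃ N₀ : ℝ, ∀ N : ℝ, N₀ ≤ N → ∃ d : ℕ, D₀ ≤ d ∧ 2 ≤ d ∧
  ∀ r : ℕ, 1 ≤ r → (r : ℝ) ≤ Real.log N ^ 2 → ¬ d ∣ r → ∀ a : ZMod r, IsUnit a →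
  ∀ y : ℝ, N ≤ y → y ≤ N ^ 2 →
    c * y / r.totient ≤
      ∑ p ∈ (Ioc ⌊y⌋₊ ⌊3 / 2 * y⌋₊).filter (fun p : ℕ => p.Prime ∧ (p : ZMod r) = a), Real.log p

/-- APD. PROOF: Pool/Agent/FCT/APB.lean, copied; `ChD` in place of the conclusion of CHB; in addition
`log R = 2 log L ≤ M = 7 C log L` and `M ≥ M₁` for large `N`. -/
def S_APD : Prop := S_MOM → S_WLO → S_APA →
  (∃ C : ℝ, 1 ≤ C ∧ ∀ R T : ℝ, 3 ≤ R → 3 ≤ T → UB R T (C * Real.log (R * T))) → ChD →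
  (∀ (r : ℕ) (a : ZMod r) (L T B y : ℝ), 1 ≤ r → IsUnit a → 1 ≤ L → 5 ≤ T → 0 ≤ B →
    Real.exp L ≤ y → y ≤ Real.exp (2 * L) →
    (∀ χ : DirichletCharacter ℂ r, χ ≠ 1 → ∀ t : ℝ, |t| ≤ T →
      ‖FK χ 8 (((1 + 1 / L : ℝ) : ℂ) + (t : ℂ) * Complex.I)‖ ≤ B) →
    1 / 2 * L ^ 8 * (13 / 10 * y)⁻¹ * Real.exp (-3) *
        ∑ n ∈ (Ioc ⌊11 / 10 * y⌋₊ ⌊13 / 10 * y⌋₊).filter (fun n => n.Coprime r), Λ n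
      ≤ 50 * r.totient * (3 * L) ^ 8 * y⁻¹ *
          ∑ n ∈ (Ioc ⌊y⌋₊ ⌊3 / 2 * y⌋₊).filter (fun n : ℕ => (n : ZMod r) = a), Λ n
        + r.totient * (2000 / T) * ∑' n, wt (1 + 1 / L) n
        + r.totient * B * (T / 5 + 1)) → AQ

/-! ### The engine with `m = 1` -/

/-- `ParX` with `m = 1`. -/
structure ParV (η : ℝ) (P : ℕ → Finset ℕ) (bb : ℕ → ℕ) (N : ℕ) (a : ℤ) (m W b r i n : ℕ)
    (Q S : Finset ℕ) (σ : ℕ → ℕ) (L α B B1 : ℝ) : Prop where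
  hm : m = 1
  ha0 : a ≠ 0
  hp : Prog a W b r L
  hWm : W.Coprime m
  hn : n = M0 L W
  hd : ∀ j < N, ∀ j' < N, j ≠ j' → Disjoint (P j) (P j')
  hS : ∀ l ∈ SS P N, l.Prime ∧ ¬ l ∣ m ∧ ¬ l ∣ W ∧ L ^ 100 < (l : ℝ) ∧ (l : ℝ) ≤ Real.exp (η * L)
  hQ : ∀ l ∈ Q, l.Prime ∧ ¬ l ∣ m ∧ ¬ l ∣ W ∧ Real.exp (η * L) < (l : ℝ) ∧ (l : ℝ) ≤ Real.exp B1
  hσ : ∀ l ∈ SS P N ∪ Q, Bij σ l ∧
    ∀ n : ℕ, ((l : ℤ) ∣ a + (r : ℤ) * (n : ℤ) ↔ l ∣ σ n + i * m)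
  hk : ∀ k ∈ S, (k : ℝ) ≤ L ^ 2
  hi : (i : ℝ) ≤ L ^ 2
  hiS : i ∉ S
  hLV : LV P bb N ≤ Real.exp (L / 1000)
  hα : 0 ≤ α
  hαη : α ≤ η * L
  hB1 : 0 < B1
  hB1B : B1 ≤ B
  hB : B ≤ L / 10000

/-- The conclusion of LPYV. -/
def LpyV : Prop :=
  ∀ a : ℤ, a ≠ 0 → ∃ L₀ : ℝ, ∀ L : ℝ, L₀ ≤ L → ∀ (P : ℕ → Finset ℕ) (bb : ℕ → ℕ)
    (N m W b r i J : ℕ) (Q' S D : Finset ℕ) (y : ({l // l ∈ Q'} → Option {k // k ∈ S}) → ℝ)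
    (σ : ℕ → ℕ) (B : ℝ), m = 1 →
  Pool.Agent.CRE.Cfg P bb N m J Q' S D y → Prog a W b r L →
  (∀ l ∈ SS P N ∪ Q', ¬ l ∣ W ∧ L ^ 100 < (l : ℝ)) → (∀ l ∈ Q', (l : ℝ) ≤ Real.exp (L / 10000)) →
  (∀ l ∈ SS P N ∪ Q', Bij σ l ∧
    ∀ n : ℕ, ((l : ℤ) ∣ a + (r : ℤ) * (n : ℤ) ↔ l ∣ σ n + i * m)) →
  (∀ k ∈ S, (k : ℝ) ≤ L ^ 2) → (i : ℝ) ≤ L ^ 2 → i ∉ S → LV P bb N ≤ Real.exp (L / 1000) →
  0 ≤ B → B ≤ L / 10000 →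
  (∀ α, y α ≠ 0 → sz (fun i : {l // l ∈ Q'} => Real.log ((i : ℕ) : ℝ)) (spp α) ≤ B) →
  |∑ x ∈ PiL a r W b L, lwX a r W b x *
        Pool.Agent.CRE.Gy P bb N m Q' S D y (σ (b + W * x)) ^ 2 -
      ThL a r W b L * Pool.Agent.IPP.mean (Pool.Agent.IPP.pr (SS P N ∪ Q'))
        (fun c => Pool.Agent.CRE.Gy P bb N m Q' S D y c ^ 2)| ≤
    Pool.Agent.CRE.Zy P N Q' S D y * (Real.exp L / (W.totient * L ^ 20))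

/-- LPYV. PROOF: Pool/Agent/FCT/LPYX.lean, copied, with `m = 1` in place of `m = a.natAbs` (the
relation between `m` and `a` is not used there). -/
def S_LPYV : Prop := Pool.Agent.CRE.S_LPA → Pool.Agent.CRE.S_LOC → Pool.Agent.CRE.S_CNY →
  Pool.Agent.CRE.S_COA → S_LEVX → S_HITY → S_CONX → LpyV

/-- The conclusion of LPUV. -/
def CoreV : Prop := ∀ a : ℤ, a ≠ 0 → ∃ L₀ : ℝ, ∀ L : ℝ, L₀ ≤ L → ∀ η : ℝ, 0 < η →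
  η ≤ 1 / 10 ^ 8 → 1 ≤ η ^ 8 * L →
  ∀ (P : ℕ → Finset ℕ) (bb : ℕ → ℕ) (N m W b r i n J : ℕ) (Q S : Finset ℕ) (σ : ℕ → ℕ)
    (α B B1 VJ : ℝ), ParV η P bb N a m W b r i n Q S σ L α B B1 →
  IP.EDP.Ctx P bb N m W b i n J Q S (Real.exp (η * L)) α B B1 VJ →
  (J : ℝ) * η ≤ 1 / 10 ^ 8 → 1 / L ^ (3 * J) ≤ VJ →
  LPhX P bb N a m W b r n J Q S σ L α B B1

/-- LPUV. PROOF: Pool/Agent/FCT/LPUX.lean, copied, with `ParV` in place of `ParX`. -/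
def S_LPUV : Prop := LpyV → S_LEVX → Pool.Agent.IPP.StmtLEV → Pool.Agent.IPP.StmtAVG →
  Pool.Agent.IPP.StmtGLEV → CoreV

open Classical in
/-- The conclusion of EDQUV: the engine for one class with `m = 1`. -/
def EngV : Prop := ∀ c₂ : ℝ, 0 < c₂ → ∃ κ : ℝ, 1 ≤ κ ∧ ∀ a : ℤ, a ≠ 0 → ∃ L₀ : ℝ, ∀ L : ℝ,
  L₀ ≤ L → ∀ C₀ : ℝ, 1 ≤ C₀ → κ * C₀ ≤ Real.log L → ∃ η : ℝ, 0 < η ∧
  L ^ 100 ≤ Real.exp (η * L) ∧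
  ∀ (b r i : ℕ) (S : Finset ℕ) (σ : ℕ → ℕ), Prog a (WW 1 L) b r L →
  (i : ℝ) ≤ L ^ 2 → (∀ k ∈ S, (k : ℝ) ≤ L ^ 2) → i ∉ S →
  (∀ l : ℕ, l.Prime → L ^ 100 < (l : ℝ) → (l : ℝ) ≤ Real.exp (L / 100) →
    Bij σ l ∧ ∀ n : ℕ, ((l : ℤ) ∣ a + (r : ℤ) * (n : ℤ) ↔ l ∣ σ n + i)) →
  (∀ x < M0 L (WW 1 L), ∀ k ∈ S, ∃ v : ℕ, 1 ≤ v ∧ Real.log v ≤ 3 * L ∧
    ∀ l : ℕ, l.Prime → L ^ 100 < (l : ℝ) → (l : ℝ) ≤ Real.exp (L / 100) →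
      l ∣ σ (b + WW 1 L * x) + k → l ∣ v) →
  S.card * VS (IP.SPH 1 L (Real.exp (η * L))) 1 ≤ C₀ / η →
  c₂ * (Real.exp L / (WW 1 L).totient) ≤ ThL a r (WW 1 L) b L →
  Real.exp (-Real.exp (κ * C₀)) * ThL a r (WW 1 L) b L ≤
    ∑ x ∈ (PiL a r (WW 1 L) b L).filter (fun x => ∀ k ∈ S,
      ∃ l : ℕ, l.Prime ∧ L ^ 100 < (l : ℝ) ∧ (l : ℝ) ≤ Real.exp (L / 100) ∧
        l ∣ σ (b + WW 1 L * x) + k), lwX a r (WW 1 L) b x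

/-- EDQUV. PROOF: Pool/Agent/FCT/EDQUX.lean, copied, with `m = 1`, `W = WW 1 L`; `Om 1 W b n` is all of
`range n`, so `PiL ⊆ Om` is clear; simplify `k * 1`, `¬ l ∣ 1` in the final form. -/
def S_EDQUV : Prop := CoreV → IP.S_CRL → IP.S_CRU → S_MOFX → S_EDPUX → UIP.S_BLHU → UIP.S_VSHU →
  UIP.S_KVHU → UIP.S_PARH → UIP.S_LARG → EngV

/-! ### The map `σ` -/

/-- SGB. PROOF. As SGX (Pool/Agent/FCT/SGX.lean): `σ n = E n^(eN N₀) - K'` modulo the product of the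
primes up to `N₀`, so that modulo `l` (`l ∤ n`) `σ n + j = E n⁻¹ + k e`, and
`n b (E n⁻¹ + k e) = E (b + k n)` as `b e = E`; `l ∤ E` gives `l ∤ b`. If `l ∣ n` then
`σ n + j = k e` is not divisible by `l` (`0 < k |e| ≤ K' < l`), nor is `b + k n = b`. -/
def S_SGB : Prop := ∀ (E K' N₀ : ℕ), 1 ≤ E → ∃ σ : ℕ → ℕ, ∀ l : ℕ, l.Prime → l ≤ N₀ → K' < l →
  ¬ l ∣ E → Bij σ l ∧ ∀ (n j k : ℕ) (b e : ℤ), b * e = (E : ℤ) → 1 ≤ k → (k : ℤ) * |e| ≤ (K' : ℤ) →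
    (j : ℤ) = (K' : ℤ) + (k : ℤ) * e → (l ∣ σ n + j ↔ (l : ℤ) ∣ b + (k : ℤ) * (n : ℤ))

/-! ### Selection -/

/-- The product of the `|b|`. -/
def RB (𝓑 : Finset ℤ) : ℕ := ∏ b ∈ 𝓑, b.natAbs

/-- The representatives `b` of the classes modulo `W` which are coprime to `R` and for which the site
`(a, r)` survives. -/
def BV (a : ℤ) (R W r : ℕ) : Finset ℕ :=
  (Ico (W * (2 * R + 1)) (W * (2 * R + 2))).filter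
    (fun b => IsCoprime (a + (r : ℤ) * (b : ℤ)) (W : ℤ) ∧ b.Coprime R)

/-- The sites `(b', k)`, `b' ∈ 𝓑`, `1 ≤ k ≤ K`, `(b', k) = 1`, other than `(a, r)`, which survive. -/
def PV (𝓑 : Finset ℤ) (a : ℤ) (W b r K : ℕ) : Finset (ℤ × ℕ) :=
  (𝓑 ×ˢ Icc 1 K).filter (fun p => IsCoprime p.1 (p.2 : ℤ) ∧ ¬ (p.1 = a ∧ p.2 = r) ∧
    IsCoprime (p.1 + (p.2 : ℤ) * (b : ℤ)) (W : ℤ))

/-- The site `(b', k)` as a natural number. -/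
def jV (E K' : ℕ) (p : ℤ × ℕ) : ℕ := ((K' : ℤ) + (p.2 : ℤ) * ((E : ℤ) / p.1)).toNat

/-- CNTV: counts of classes modulo `W`. PROOF. As CNTX (Pool/Agent/FCT/CNTX.lean), Chinese remainder
theorem; let `x = 1 - 1/p`, `n₃ = |a k - r b'| / (a, b')` (not `0`, by the coprimality conditions). The
number of the classes of `b` modulo `p ∣ W`, divided by `p`, for the second count is at most
`x^2` times `x⁻¹` for each of `p ∣ r`, `p ∣ k`, `p ∣ n₃`, if `p ∤ R` (as in CNTX). Let `p ∣ R`: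
`b = 0` is excluded too. (A) `p ∤ a b'`: excluded `0`, `-a/r` (if `p ∤ r`), `-b'/k` (if `p ∤ k`), the last
two equal only if `p ∣ n₃`: at most `x^3` times `x⁻¹` for `p ∣ r`, `p ∣ k`, `p ∣ n₃`
(`1 - 3/p ≤ x^3`, `1 - 2/p ≤ x^2`; for `p = 2` the number may be `0`). (B) `p ∣ a`, `p ∤ b'`: then `p ∤ r`,
excluded `0`, `-b'/k`: at most `x^2`, times `x⁻¹` if `p ∣ k`. (C) `p ∤ a`, `p ∣ b'`: `p ∤ k`, excluded `0`,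
`-a/r`: at most `x^2`, times `x⁻¹` if `p ∣ r`. (D) `p ∣ a`, `p ∣ b'`: excluded `0`: `x`. In all cases this
is at most `x^2 · x · x^(-[p ∣ a]) x^(-[p ∣ b']) x^(-[p ∣ r]) x^(-[p ∣ k]) x^(-[p ∣ n₃])`. First count:
`p ∤ R`: `x · x^(-[p ∣ r])`; `p ∣ R`, `p ∤ a`: at most `x^2 x^(-[p ∣ r])`; `p ∣ a`: `x`. -/
def S_CNTV : Prop := ∀ (a : ℤ) (R W r : ℕ), Squarefree W → a ≠ 0 → a.natAbs ∣ R → R ≠ 0 →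
  (∀ p : ℕ, p.Prime → p ∣ R → p ∣ W) → IsCoprime a (r : ℤ) → 1 ≤ r →
  ((((range W).filter (fun b : ℕ => IsCoprime (a + (r : ℤ) * (b : ℤ)) (W : ℤ) ∧
      b.Coprime R)).card : ℝ) ≤
    (W.totient : ℝ) * ((R.totient : ℝ) / R) * gq a.natAbs * gq r) ∧
  ∀ (b' : ℤ) (k : ℕ), b' ≠ 0 → b'.natAbs ∣ R → IsCoprime b' (k : ℤ) → 1 ≤ k →
    ¬ (b' = a ∧ k = r) →
    (((range W).filter (fun b : ℕ => (IsCoprime (a + (r : ℤ) * (b : ℤ)) (W : ℤ) ∧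
      b.Coprime R) ∧ IsCoprime (b' + (k : ℤ) * (b : ℤ)) (W : ℤ))).card : ℝ) * W ≤
    (W.totient : ℝ) ^ 2 * ((R.totient : ℝ) / R) * (gq a.natAbs * gq b'.natAbs) *
      (gq r * gq k * gq ((a * k - r * b').natAbs / Int.gcd a b'))

/-- GSV: GSX for `q k - s`, `(q, s) = 1`. PROOF. As GSX (Pool/Agent/FCT/GSX.lean); `d ∣ q k - s` is
impossible if `(d, q) > 1` and fixes the class of `k` modulo `d` otherwise;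
`d ≤ |q k - s| ≤ |q X - s| + |q Y - s|`. -/
def S_GSV : Prop := ∃ C : ℝ, 1 ≤ C ∧ ∀ m : ℕ, 1 ≤ m → ∃ D₀ : ℝ, 0 ≤ D₀ ∧ ∀ q s X Y : ℤ,
  q ≠ 0 → IsCoprime q s → X ≤ Y →
  ∑ k ∈ (Ioc X Y).filter (fun k => IsCoprime k (m : ℤ) ∧ q * k ≠ s), gq (q * k - s).natAbs ^ 2 ≤
    C * (((m.totient : ℝ) / m) * ((Y : ℝ) - X)) +
      D₀ * Real.sqrt (|(q : ℝ) * X - s| + |(q : ℝ) * Y - s| + 1)

/-- RSUV: the number of surviving sites for one `r`, weighted with the primes.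
PROOF. As RSUX (Pool/Agent/FCT/RSUX.lean). BTX: `ThL ≤ C gq r e^L / φ(W)`; for each `(b', k)` the
number of the `b ∈ BV` is bounded by CNTV (second part; all primes of `R` divide `W` for large `L`,
`b ↦ b mod W`). For fixed `b'`, `g = (a, b')`: `∑_k gq k gq n₃ ≤ (∑ gq k ^ 2 + ∑ gq n₃ ^ 2)/2` over
`1 ≤ k ≤ K`, `(k, b') = 1`, with GSV for `m = |b'|`, `X = 0`, `Y = K` and `(q, s) = (1, 0)`,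
`(a/g, r b'/g)`: at most `4 C (φ(|b'|)/|b'|) K` for `K ≥ L ≥ L₀(𝓑)`, and `gq b' φ(|b'|)/|b'| = 1`. -/
def S_RSUV : Prop := S_BTX → S_CNTV → S_GSV → ∃ C : ℝ, 0 < C ∧ ∀ (𝓑 : Finset ℤ) (a : ℤ),
  0 ∉ 𝓑 → a ∈ 𝓑 → ∃ L₀ : ℝ, ∀ L : ℝ, L₀ ≤ L → ∀ K r : ℕ, L ≤ (K : ℝ) → (K : ℝ) ≤ L ^ 2 → 1 ≤ r →
  r ≤ K → IsCoprime a (r : ℤ) →
  ∑ b ∈ BV a (RB 𝓑) (WW 1 L) r, ((PV 𝓑 a (WW 1 L) b r K).card : ℝ) * ThL a r (WW 1 L) b L ≤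
    C * (Real.exp L * (((WW 1 L).totient : ℝ) / (WW 1 L)) * (((RB 𝓑).totient : ℝ) / (RB 𝓑)) *
      gq a.natAbs * (𝓑.card * K) * gq r ^ 2)

/-- The conclusion of WRV: the weight of the primes for one `r`. -/
def WrV : Prop := ∃ c : ℝ, 0 < c ∧ ∀ (a : ℤ) (R : ℕ), a ≠ 0 → a.natAbs ∣ R → R ≠ 0 → ∃ L₀ : ℝ,
  ∀ L : ℝ, L₀ ≤ L → ∃ d : ℕ, 4 * R ≤ d ∧ ∀ r : ℕ, 1 ≤ r → (r : ℝ) ≤ L * Real.log L →
  IsCoprime a (r : ℤ) → (¬ (2 : ℤ) ∣ a → 2 ∣ r) → ¬ d ∣ r * R →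
  c * (Real.exp L * ((R.totient : ℝ) / R) * gq a.natAbs) ≤
    ∑ b ∈ BV a R (WW 1 L) r, ThL a r (WW 1 L) b L

/-- WRV. PROOF. AQ with `D₀ = 4 R`, `N = e^L`, `y = r e^L`. Let `R₁` be the product of the primes
`p ∣ R`, `p ∤ a`. For `c < R₁` with `(c, R₁) = 1`, `(a + r c, R₁) = 1` apply AQ to the modulus
`r R₁ ≤ L^2` (`d ∤ r R₁`, as `r R₁ ∣ r R`) and the class of `a + r c`, which is prime to it. The primes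
`q ∈ (r e^L, 3/2 r e^L]`, `q = a + r c` modulo `r R₁`, are of the form `a + r n` with `n = c` modulo `R₁`,
so `(n, R) = 1` (`(n, a) = 1` as `q > |a|` is prime), `n = b + W x` with exactly one
`b ∈ Ico (W (2R+1)) (W (2R+2))` and `x < M0 L W` (see PSUX), `b ∈ BV`; different `c` give different
primes. The number of the `c` is `∏_{p ∣ R₁} (p - 1 - [p ∤ r])` and
`φ(r R₁) = φ(r) ∏_{p ∣ R₁, p ∤ r} (p - 1) ∏_{p ∣ R₁, p ∣ r} p`, where `2 ∣ R₁` implies `2 ∣ r`; so the sum is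
at least `c₀ e^L ∏_{p ∣ R₁} (1 - 1/p) ∏_{3 ≤ p ∣ R₁} (1 - 1/(p-1)^2) ≥ (c₀/2) e^L ∏_{p ∣ R₁} (1 - 1/p)`
(`∏ (1 - x) ≥ 1 - ∑ x`, `∑_{p ≥ 3} 1/(p-1)^2 ≤ (1/4) ∑ 1/k^2 ≤ 1/2`), and
`∏_{p ∣ R₁} (1 - 1/p) = (φ(R)/R) gq |a|`. -/
def S_WRV : Prop := AQ → WrV

/-- The conclusion of PSV. -/
def PsV : Prop := ∃ c : ℝ, 0 < c ∧ ∀ (a : ℤ) (R : ℕ) (ε : ℝ), a ≠ 0 → a.natAbs ∣ R → R ≠ 0 →
  0 < ε → ∃ L₀ : ℝ, ∀ L : ℝ, L₀ ≤ L → ∀ u v : ℝ, 0 ≤ u → u ≤ (1 - ε) * v → ε ≤ v →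
  v ≤ Real.log L → ∃ Rs : Finset ℕ,
  (∀ r ∈ Rs, u * L < r ∧ (r : ℝ) ≤ v * L ∧ IsCoprime a (r : ℤ)) ∧
  c * (((R.totient : ℝ) / R) * ((v - u) * (L * Real.exp L))) ≤
    ∑ r ∈ Rs, ∑ b ∈ BV a R (WW 1 L) r, ThL a r (WW 1 L) b L

/-- PSV. PROOF. `g = 1` if `a` is even, `g = 2` if `a` is odd; `Rs` = the `r = g r'`, `u L < r ≤ v L`,
`(r', a) = 1`, with `d ∤ r R`. With `d' = d / (d, R) ≥ 4`: `d ∣ r R` iff `d' ∣ r` iff `d'' ∣ r'`,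
`d'' = d' / (d', g) ≥ 2`. As in PSUX the number of such `r'` is at least `(φ(m)/m) (v - u) L / 8`,
`m = |a|`, for `L ≥ L₀(a, R, ε)` (if `(d'', a) > 1` no `r'` is excluded, otherwise at most half).
WrV for each `r`; `gq |a| φ(m)/m = 1`. -/
def S_PSV : Prop := WrV → PsV

/-- The conclusion of SLUV: `c₁`, `c₂`, `C1` are absolute. -/
def SelV : Prop := ∃ c₁ c₂ C1 : ℝ, 0 < c₁ ∧ 0 < c₂ ∧ 0 < C1 ∧ ∀ (𝓑 : Finset ℤ) (a : ℤ) (ε : ℝ),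
  0 ∉ 𝓑 → a ∈ 𝓑 → 0 < ε → ∃ L₀ : ℝ, ∀ L : ℝ, L₀ ≤ L → ∀ u v t : ℝ, 0 ≤ u → u ≤ (1 - ε) * v →
  ε ≤ v → v ≤ t → 1 ≤ t → t ≤ Real.log L → ∃ GP : Finset (ℕ × ℕ),
  (∀ p ∈ GP, u * L < (p.1 : ℝ) ∧ (p.1 : ℝ) ≤ v * L ∧ IsCoprime a (p.1 : ℤ) ∧
    p.2 ∈ BV a (RB 𝓑) (WW 1 L) p.1 ∧
    c₂ * (Real.exp L / (WW 1 L).totient) ≤ ThL a p.1 (WW 1 L) p.2 L ∧
    ((PV 𝓑 a (WW 1 L) p.2 p.1 (⌊t * (L + 1)⌋₊ + 1)).card : ℝ) ≤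
      C1 * ((𝓑.card * (t * L)) * (((WW 1 L).totient : ℝ) / (WW 1 L)))) ∧
  c₁ * ((((RB 𝓑).totient : ℝ) / (RB 𝓑)) * ((v - u) * (L * Real.exp L))) ≤
    ∑ p ∈ GP, ThL a p.1 (WW 1 L) p.2 L

/-- SLUV. PROOF. As SLUX (Pool/Agent/FCT/SLUX.lean). PsV with `R = RB 𝓑`; `K = ⌊t (L + 1)⌋ + 1 ≤ 4 t L`,
`K ≥ L`. GSV with `q = 1`, `s = 0`, `m = |a|`: `∑_{r ∈ Rs} gq r ^ 2 ≤ 2 C (φ(m)/m) (v - u) L`. The pairs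
with `ThL < c₂ e^L / φ(W)` contribute at most (CNTV, first part, `gq ≤ gq^2`)
`c₂ e^L (φ(R)/R) gq m ∑ gq r ≤ (c/4) (φ(R)/R) (v - u) L e^L` for small `c₂`; those with more than
`C1 |𝓑| t L φ(W)/W` sites at most (RSUV, Markov)
`C e^L (φ(R)/R) gq m |𝓑| K ∑ gq r ^ 2 / (C1 |𝓑| t L) ≤ (c/4) (φ(R)/R) (v - u) L e^L`, `C1` large. -/
def S_SLUV : Prop := PsV → S_CNTV → S_GSV →
  (∃ C : ℝ, 0 < C ∧ ∀ (𝓑 : Finset ℤ) (a : ℤ),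
    0 ∉ 𝓑 → a ∈ 𝓑 → ∃ L₀ : ℝ, ∀ L : ℝ, L₀ ≤ L → ∀ K r : ℕ, L ≤ (K : ℝ) → (K : ℝ) ≤ L ^ 2 →
    1 ≤ r → r ≤ K → IsCoprime a (r : ℤ) →
    ∑ b ∈ BV a (RB 𝓑) (WW 1 L) r, ((PV 𝓑 a (WW 1 L) b r K).card : ℝ) * ThL a r (WW 1 L) b L ≤
      C * (Real.exp L * (((WW 1 L).totient : ℝ) / (WW 1 L)) * (((RB 𝓑).totient : ℝ) / (RB 𝓑)) *
        gq a.natAbs * (𝓑.card * K) * gq r ^ 2)) → SelV

/-! ### The conclusion -/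

/-- The property of the modulus `n`. -/
def GoodV (𝓑 : Finset ℤ) (a : ℤ) (α β t : ℝ) (n : ℕ) : Prop :=
  (∀ b ∈ 𝓑, IsCoprime b (n : ℤ)) ∧ ∃ q : ℕ, q.Prime ∧ (q : ℤ) ∉ 𝓑 ∧ (q : ℤ) ≡ a [ZMOD (n : ℤ)] ∧
    α * (n * Real.log n) < q ∧ (q : ℝ) ≤ β * (n * Real.log n) ∧
    ∀ q' : ℕ, q'.Prime → (q' : ℤ) ∉ 𝓑 → (∃ b ∈ 𝓑, (q' : ℤ) ≡ b [ZMOD (n : ℤ)]) →
      (q' : ℝ) ≤ t * (n * Real.log n) → q' = q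

/-- FNAV. PROOF. As FNAU (Pool/Agent/FCT/FNAU.lean). `n = b + W x > 2 R ≥ 2 |b'|`. `(n, R) = 1`: all
primes of `R` divide `W` and `(b, R) = 1`. `q = a + r n ≥ n - |a| > R`, so `q ∉ 𝓑`. A prime `q' = b'`
modulo `n`, `q' ∉ 𝓑`, `q' ≤ t n log n`, is `b' + k n` with `k ≥ 1` (`k = 0` gives `q' = b' ∈ 𝓑`) and
`k ≤ K = ⌊t (L + 1)⌋ + 1`. If `(b', k) > 1` a prime `p ∣ b'`, `p ∣ k` divides `q'`, but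
`p ≤ |b'| < n - |b'| ≤ q'`. If `b' = a`, `k = r` then `q' = q`. Otherwise either `(b', k) ∈ PV` and a
prime `l ≤ exp (L/100) < q'` divides `q'`, or a prime `p ∣ W`, `p ≤ sqrt L`, divides `b' + k b`, hence
`q'`. The last statement in the same way (`b' = a`). -/
def FnaV : Prop := ∀ (𝓑 : Finset ℤ) (a : ℤ) (ε : ℝ), 0 ∉ 𝓑 → a ∈ 𝓑 → 0 < ε → ∃ L₀ : ℝ, ∀ L : ℝ,
  L₀ ≤ L → ∀ α β t u v : ℝ, 0 ≤ α → α + ε ≤ u → u < v → v + ε ≤ β → β ≤ t → t ≤ Real.log L →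
  ∀ (b r x : ℕ), u * L < (r : ℝ) → (r : ℝ) ≤ v * L → IsCoprime a (r : ℤ) →
  b ∈ BV a (RB 𝓑) (WW 1 L) r → x ∈ PiL a r (WW 1 L) b L →
  (∀ p ∈ PV 𝓑 a (WW 1 L) b r (⌊t * (L + 1)⌋₊ + 1), ∃ l : ℕ, l.Prime ∧
    (l : ℝ) ≤ Real.exp (L / 100) ∧
    (l : ℤ) ∣ p.1 + (p.2 : ℤ) * ((b + WW 1 L * x : ℕ) : ℤ)) →
  Real.exp L - a.natAbs ≤ ((b + WW 1 L * x : ℕ) : ℝ) ∧
  ((b + WW 1 L * x : ℕ) : ℝ) ≤ 3 / 2 * Real.exp L + a.natAbs ∧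
  GoodV 𝓑 a α β t (b + WW 1 L * x) ∧
  ∀ k : ℕ, 1 ≤ k → k ≤ ⌊t * (L + 1)⌋₊ + 1 → k ≠ r → ¬ (qv a k (b + WW 1 L * x)).Prime

/-- The theorem, for finite sets of classes, with absolute constants `c` and `C`. -/
def FinV : Prop := ∃ c C : ℝ, 0 < c ∧ 0 < C ∧ c * C ≤ 1 / 2 ∧
  ∀ (𝓑 : Finset ℤ) (a : ℤ) (ε : ℝ), 0 ∉ 𝓑 → a ∈ 𝓑 → 0 < ε →
  ∃ x₀ : ℕ, ∀ x : ℕ, x₀ ≤ x → ∀ t α β : ℝ, 1 ≤ t → t * 𝓑.card ≤ c * Real.log (Real.log x) →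
  0 ≤ α → α ≤ (1 - ε) * β → ε ≤ β → β ≤ t → ∃ A : Finset ℕ, A ⊆ Ioc x (2 * x) ∧
    (∀ n ∈ A, GoodV 𝓑 a α β t n) ∧
    Real.exp (-Real.exp (C * (t * 𝓑.card))) * (β - α) *
      ((((RB 𝓑).totient : ℝ) / (RB 𝓑)) * x) ≤ (A.card : ℝ)

/-- FNUV. PROOF. As FNUX (Pool/Agent/FCT/FNUX.lean). `R = RB 𝓑`, `K = ⌊t (L + 1)⌋ + 1`, `K' = K R`,
`σ` from SGB with `E = R`, `N₀ = ⌊exp (L/100)⌋` (`l > L^100 ≥ K'`, `l ∤ R`), `e = R / b'` (exact),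
`i = jV R K' (a, r)`, `S` = the image of `PV` under `jV R K'` (at most `|PV|` elements, all
`≤ 2 K R ≤ L^2`). `i ∉ S`: `k (R/b') = r (R/a)` gives `k a = r b'`, and `(k, b') = 1`, `(r, a) = 1`,
`k, r ≥ 1` give `k = r`, `b' = a`. SGB turns `l ∣ σ n + j` into `l ∣ b' + k n`; `v = |b' + k n| ≥ 1`,
`log v ≤ 3 L`. `C₀ = C t |𝓑|` from KVHU with `m = 1` (`t := C1 t |𝓑|`-like), `κ` from EngV. The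
map `(r, b, x) ↦ n` is injective as in FNUX (last part of FnaV). -/
def S_FNUV : Prop := S_SGB → UIP.S_KVHU → EngV → SelV → FnaV → FinV

end

end Pool.Agent.FCT
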