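import Mathlib
import Pool.Agent.FCT.St2
import Pool.Agent.IP.EDQ

set_option autoImplicit false
set_option linter.unusedSectionVars false

/-!
FCT, part II, module EDQX: the engine for one class.
-/

namespace Pool.Agent.FCT

open Finset Filter Pool.Agent.Lib_helper9.LG
open Pool.Agent.FXD (Bij)

noncomputable section

namespace EDQXx

section ctx

variable {P : ℕ → Finset ℕ} {bb : ℕ → ℕ} {N m W b r i n J : ℕ} {Q S : Finset ℕ} {σ : ℕ → ℕ}
  {a : ℤ} {L η α B B1 VJ : ℝ}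

/-- from the parameters to the context -/
lemma ctx_of (hP : ParX η P bb N a m W b r i n Q S σ L α B B1) (hL : 200 ≤ L)
    (hL2 : L ^ 100 ≤ Real.exp (η * L)) (hJL : 16 * (J : ℝ) + 16 ≤ L ^ 100) (hm : 1 ≤ m)
    (hn : 1 ≤ n)
    (hsum : ∀ j < N, ∑ l ∈ P j, (1 : ℝ) / l ≤ 1) (hb : ∀ j < N, 700 * (J + 1) + j ≤ bb j)
    (hnorm : α * ∑ T : Finset {l // l ∈ Q}, s0 (fun i : {l // l ∈ Q} => Real.log ((i : ℕ) : ℝ))
      (fun i : {l // l ∈ Q} => ((i : ℕ) : ℝ) - 1) B1 T = 1)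
    (hBJ : B < (J + 1) * (η * L)) (hVJ : 0 < VJ) (hVJ2 : ∀ j ≤ J, VJ ≤ VS (SS P N) j)
    (hKz : 2 * ((J : ℝ) + 1) * S.card / Real.exp (η * L) ≤ 1) :
    IP.EDP.Ctx P bb N m W b i n J Q S (Real.exp (η * L)) α B B1 VJ := by
  have h100 : L ^ 2 ≤ L ^ 100 := pow_le_pow_right₀ (by linarith) (by norm_num)
  have hLL : L ≤ L ^ 100 := by
    calc L = L ^ 1 := (pow_one L).symm
      _ ≤ L ^ 100 := pow_le_pow_right₀ (by linarith) (by norm_num)
  have hk : ∀ k ∈ insert i S, (k : ℝ) ≤ L ^ 2 := by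
    intro k hk
    rw [mem_insert] at hk
    rcases hk with rfl | hk
    · exact hP.hi
    · exact hP.hk k hk
  refine ⟨⟨hP.hd, ?_, ?_, hsum, hb, hP.hiS⟩, ⟨by linarith, fun l hl => (hP.hQ l hl).2.2.2.1, ?_,
    hKz⟩, hP.hα, ?_, hP.hB1, hP.hB1.le.trans hP.hB1B, hnorm, hm, hP.hp.hW, hn, hP.hWm,
    fun l hl => ⟨(hP.hQ l hl).1, (hP.hQ l hl).2.1, (hP.hQ l hl).2.2.1⟩, ?_, ?_, hVJ, hVJ2⟩
  · intro l hl
    obtain ⟨g1, g2, g3, g4, g5⟩ := hP.hS l hl
    refine ⟨g1, g2, g3, ?_⟩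
    have h1 : ((16 * J + 16 : ℕ) : ℝ) ≤ (l : ℝ) := by
      push_cast
      linarith
    exact_mod_cast h1
  · intro k hk' l hl
    have h1 := hk k hk'
    have h2 := (hP.hS l hl).2.2.2.1
    have h3 : (k : ℝ) < l := by linarith
    exact_mod_cast h3
  · rw [Real.log_exp]
    exact hBJ
  · rw [Real.log_exp]
    exact hP.hαη
  · intro k hk' l hl
    have h1 := hk k hk'
    have h2 := (hP.hQ l hl).2.2.2.1
    have h3 : (k : ℝ) < l := by linarith
    exact_mod_cast h3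
  · rw [Finset.disjoint_left]
    intro l hl hlQ
    have h1 := (hP.hS l hl).2.2.2.2
    have h2 := (hP.hQ l hlQ).2.2.2.1
    linarith

/-- the primes of the class -/
lemma pil {x : ℕ} (hp : Prog a W b r L) (hL : 200 ≤ L) (hx : x ∈ PiL a r W b L) :
    x < M0 L W ∧ (qv a r (b + W * x)).Prime ∧ Real.exp L < ((qv a r (b + W * x) : ℕ) : ℝ) ∧
    ((qv a r (b + W * x) : ℕ) : ℤ) = a + (r : ℤ) * ((b + W * x : ℕ) : ℤ) ∧
    0 ≤ lwX a r W b x ∧ lwX a r W b x ≤ 2 * L := by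
  rw [PiL, mem_filter, mem_range] at hx
  obtain ⟨h1, h2, h3, h4⟩ := hx
  have hr1 : (1 : ℝ) ≤ r := by exact_mod_cast hp.hr
  have hE := Real.exp_pos L
  have h5 : (r : ℝ) * Real.exp L < ((qv a r (b + W * x) : ℕ) : ℝ) := Nat.lt_of_floor_lt h3
  have h6 : Real.exp L < ((qv a r (b + W * x) : ℕ) : ℝ) := lt_of_le_of_lt (by nlinarith) h5
  have h7 : ((qv a r (b + W * x) : ℕ) : ℝ) ≤ 3 / 2 * ((r : ℝ) * Real.exp L) :=
    (Nat.le_floor_iff (by positivity)).1 h4
  have hq0 : 0 < qv a r (b + W * x) := h2.pos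
  refine ⟨h1, h2, h6, ?_, Real.log_natCast_nonneg _, ?_⟩
  · unfold qv at hq0 ⊢
    exact Int.toNat_of_nonneg (by omega)
  · have h8 : ((qv a r (b + W * x) : ℕ) : ℝ) ≤ Real.exp (2 * L) := by
      have h9 : 3 / 2 * L ^ 2 ≤ Real.exp L := by
        have g1 := Real.pow_div_factorial_le_exp L (by linarith) 3
        have g2 : ((Nat.factorial 3 : ℕ) : ℝ) = 6 := by norm_num [Nat.factorial]
        rw [g2] at g1
        have g3 : 3 / 2 * L ^ 2 ≤ L ^ 3 / 6 := by
          have : 0 ≤ L ^ 2 := by positivity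
          nlinarith
        linarith
      calc ((qv a r (b + W * x) : ℕ) : ℝ) ≤ 3 / 2 * ((r : ℝ) * Real.exp L) := h7
        _ ≤ 3 / 2 * (L ^ 2 * Real.exp L) := by
            have := hp.hrL
            gcongr
        _ = (3 / 2 * L ^ 2) * Real.exp L := by ring
        _ ≤ Real.exp L * Real.exp L := mul_le_mul_of_nonneg_right h9 hE.le
        _ = Real.exp (2 * L) := by rw [← Real.exp_add]; ring_nf
    have h9 := Real.log_le_log (by exact_mod_cast hq0 : (0 : ℝ) < ((qv a r (b + W * x) : ℕ) : ℝ)) h8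
    rwa [Real.log_exp] at h9

lemma pil_om {x : ℕ} (hm0 : 0 < m) (hm : m = a.natAbs) (hp : Prog a W b r L) (hL : 200 ≤ L)
    (hmL : (m : ℝ) ≤ Real.exp L) (hx : x ∈ PiL a r W b L) : x ∈ IP.Om m W b (M0 L W) := by
  obtain ⟨h1, h2, h3, h4, -, -⟩ := pil hp hL hx
  rw [IP.Om, mem_filter, mem_range]
  refine ⟨h1, ?_⟩
  have hm1 : m < qv a r (b + W * x) := by
    have : (m : ℝ) < ((qv a r (b + W * x) : ℕ) : ℝ) := lt_of_le_of_lt hmL h3
    exact_mod_cast this
  have g1 : (Nat.gcd (b + W * x) m : ℤ) ∣ a := by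
    rw [Int.natCast_dvd, ← hm]
    exact Nat.gcd_dvd_right _ _
  have g2 : (Nat.gcd (b + W * x) m : ℤ) ∣ ((b + W * x : ℕ) : ℤ) :=
    Int.natCast_dvd_natCast.2 (Nat.gcd_dvd_left _ _)
  have g3 : Nat.gcd (b + W * x) m ∣ qv a r (b + W * x) := by
    rw [← Int.natCast_dvd_natCast, h4]
    exact dvd_add g1 (dvd_mul_of_dvd_right g2 _)
  rcases (Nat.dvd_prime h2).1 g3 with h | h
  · exact h
  · exfalso
    have g4 : Nat.gcd (b + W * x) m ∣ m := Nat.gcd_dvd_right _ _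
    have := Nat.le_of_dvd hm0 g4
    omega

lemma pil_ndvd {x l : ℕ} (hp : Prog a W b r L) (hL : 200 ≤ L) (hx : x ∈ PiL a r W b L)
    (hl : l.Prime) (hlL : (l : ℝ) ≤ Real.exp L)
    (h : ∀ n : ℕ, ((l : ℤ) ∣ a + (r : ℤ) * (n : ℤ) ↔ l ∣ σ n + i * m)) :
    ¬ l ∣ σ (b + W * x) + i * m := by
  intro hd
  obtain ⟨-, h2, h3, h4, -, -⟩ := pil hp hL hx
  have h5 := (h (b + W * x)).2 hd
  rw [← h4, Int.natCast_dvd_natCast, Nat.prime_dvd_prime_iff_eq hl h2] at h5
  rw [← h5] at h3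
  linarith

end ctx

/-- the number of values of `x` -/
lemma num_n {m W : ℕ} {L : ℝ} (hL : 10 ^ 6 ≤ L) (hm : 1 ≤ m) (hW : 1 ≤ W)
    (hWL : (W : ℝ) ≤ Real.exp (2 * Real.sqrt L)) :
    1 ≤ M0 L W ∧ (M0 L W : ℝ) ≤ 2 * Real.exp L / W ∧ 0 < IP.EDP.MM m (M0 L W) ∧
    IP.EDP.MM m (M0 L W) ≤ 2 * Real.exp L / W * ((m.totient : ℝ) / m) ∧
    Real.exp L / W * (1 / m) ≤ IP.EDP.MM m (M0 L W) := by
  have hL0 : 0 < L := lt_of_lt_of_le (by norm_num) hL
  have hW0 : (0 : ℝ) < W := by exact_mod_cast hW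
  have hm0 : (0 : ℝ) < m := by exact_mod_cast hm
  have htot : (1 : ℝ) ≤ m.totient := by exact_mod_cast Nat.totient_pos.2 hm
  have hsq := IP.EDQ.sqrt_small hL
  have h1 : 1 ≤ Real.exp L / W := by
    rw [one_le_div hW0]
    exact hWL.trans (Real.exp_le_exp.2 (by linarith))
  have h2 : 2 * Real.exp L / W = 2 * (Real.exp L / W) := by ring
  have h3 : (M0 L W : ℝ) ≤ 2 * Real.exp L / W := by
    unfold M0
    exact Nat.floor_le (by positivity)
  have h4 : Real.exp L / W ≤ (M0 L W : ℝ) := by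
    have h5 : 2 * Real.exp L / W < (M0 L W : ℝ) + 1 := by
      unfold M0
      exact Nat.lt_floor_add_one _
    linarith
  have h5 : (1 : ℝ) ≤ (M0 L W : ℝ) := h1.trans h4
  have h6 : (0 : ℝ) < (M0 L W : ℝ) := by linarith
  refine ⟨by exact_mod_cast h5, h3, ?_, ?_, ?_⟩
  · unfold IP.EDP.MM
    positivity
  · unfold IP.EDP.MM
    exact mul_le_mul_of_nonneg_right h3 (by positivity)
  · unfold IP.EDP.MM
    gcongr

/-- the size of the divisor terms -/
lemma num_p {m W : ℕ} {L M lam P0 : ℝ} (hL : 10 ^ 6 ≤ L) (hm : 1 ≤ m) (hW : 1 ≤ W)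
    (hWL : (W : ℝ) ≤ Real.exp (2 * Real.sqrt L)) (hlam : 0 ≤ lam)
    (hP0 : P0 = lam * 2 ^ m.primeFactors.card * m) (hP : 5 * P0 ≤ L)
    (hM : Real.exp L / W * (1 / m) ≤ M) :
    lam * 2 ^ m.primeFactors.card / M ≤ 2 * Real.exp (-(31 / 40 * L)) := by
  have hL0 : 0 < L := lt_of_lt_of_le (by norm_num) hL
  have hW0 : (0 : ℝ) < W := by exact_mod_cast hW
  have hm0 : (0 : ℝ) < m := by exact_mod_cast hm
  have hsq := IP.EDQ.sqrt_small hL
  have hE := Real.exp_pos L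
  have h0 : 0 < Real.exp L / W * (1 / m) := by positivity
  calc lam * 2 ^ m.primeFactors.card / M ≤
      lam * 2 ^ m.primeFactors.card / (Real.exp L / W * (1 / m)) := by gcongr
    _ = P0 * W * Real.exp (-L) := by
        rw [hP0, Real.exp_neg]
        field_simp
    _ ≤ Real.exp (L / 5) * Real.exp (2 * Real.sqrt L) * Real.exp (-L) := by
        have h1 : P0 ≤ Real.exp (L / 5) := by
          have := Real.add_one_le_exp (L / 5)
          linarith
        gcongr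
    _ = Real.exp (L / 5 + 2 * Real.sqrt L + -L) := by rw [Real.exp_add, Real.exp_add]
    _ ≤ Real.exp (-(31 / 40 * L)) := by
        apply Real.exp_le_exp.2
        linarith
    _ ≤ 2 * Real.exp (-(31 / 40 * L)) := by
        have := Real.exp_pos (-(31 / 40 * L))
        linarith

lemma num_h3x {J : ℕ} {K L η lam : ℝ} (hK0 : 0 ≤ K) (hK : K ≤ L ^ 2 + 1) (hL : 0 < L)
    (hlam : 0 ≤ lam)
    (e7 : lam * (12288 * J) * L ^ (3 * J + 5) * Real.exp (-(η * L)) ≤ 1) (hL2 : 2 ≤ L ^ 2) :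
    384 * L * ((K + 1) * (lam * (2 * (4 * J * K / Real.exp (η * L)) / (1 / L ^ (3 * J))))) ≤ 1 := by
  have h1 : 2 * (4 * (J : ℝ) * K / Real.exp (η * L)) / (1 / L ^ (3 * J)) =
      8 * J * K * L ^ (3 * J) * Real.exp (-(η * L)) := by
    rw [Real.exp_neg]
    field_simp
    ring
  rw [h1]
  have hE := Real.exp_pos (-(η * L))
  have hJ0 : (0 : ℝ) ≤ J := Nat.cast_nonneg J
  have hK2 : K + 1 ≤ 2 * L ^ 2 := by linarith
  have hK3 : K ≤ 2 * L ^ 2 := by linarith
  calc 384 * L * ((K + 1) * (lam * (8 * J * K * L ^ (3 * J) * Real.exp (-(η * L))))) ≤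
        384 * L * ((2 * L ^ 2) * (lam * (8 * J * (2 * L ^ 2) * L ^ (3 * J) *
          Real.exp (-(η * L))))) := by
        apply mul_le_mul_of_nonneg_left _ (by positivity)
        apply mul_le_mul hK2 _ (by positivity) (by positivity)
        gcongr
    _ = lam * (12288 * J) * L ^ (3 * J + 5) * Real.exp (-(η * L)) := by
        rw [pow_add]
        ring
    _ ≤ 1 := e7

lemma big16x {L K t M T lam c₂ : ℝ} (hL : 0 ≤ L) (hT : 0 ≤ T) (hc : 0 < c₂)
    (hlam : 1 / (6 * c₂) ≤ lam) (hKt : 0 ≤ (K + 1) * t)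
    (hM : 2 * L * M ≤ 4 * L / c₂ * T) (h : 384 * L * ((K + 1) * (lam * t)) ≤ 1) :
    2 * L * M * ((K + 1) * t) ≤ T / 16 := by
  have h1 : 4 * L / c₂ ≤ 24 * L * lam := by
    have h2 : 4 * L / c₂ = 24 * L * (1 / (6 * c₂)) := by
      field_simp
      ring
    rw [h2]
    exact mul_le_mul_of_nonneg_left hlam (by positivity)
  calc 2 * L * M * ((K + 1) * t) ≤ 4 * L / c₂ * T * ((K + 1) * t) :=
        mul_le_mul_of_nonneg_right hM hKt
    _ ≤ 24 * L * lam * T * ((K + 1) * t) := by gcongr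
    _ = T / 16 * (384 * L * ((K + 1) * (lam * t))) := by ring
    _ ≤ T / 16 * 1 := mul_le_mul_of_nonneg_left h (by positivity)
    _ = T / 16 := by ring

lemma big8x {L K t lam : ℝ} (hL : 1 ≤ L) (hK : 0 ≤ K) (ht : 0 ≤ t) (hlam : 1 ≤ lam)
    (h : 384 * L * ((K + 1) * (lam * t)) ≤ 1) : t ≤ 1 / 8 := by
  have h1 := IP.EDQ.big8 hL hK (t := lam * t) (by positivity) h
  have h2 : t ≤ lam * t := le_mul_of_one_le_left ht hlam
  linarith

/-- A large `L`: the error terms of the bilinear estimate. -/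
lemma num_h5x {L W s T c₂ : ℝ} (hL : 10 ^ 6 ≤ L) (hW : 1 ≤ W)
    (hWL : W ≤ Real.exp (2 * Real.sqrt L)) (hc : 0 < c₂) (hcL : 1 / c₂ ≤ L)
    (hs : 16 * s / c₂ ≤ L) (hT : c₂ * (Real.exp L / W) ≤ T) :
    Real.exp L / (W * L) * s + Real.exp (99 / 100 * L) ≤ T / 8 := by
  have hL0 : 0 < L := lt_of_lt_of_le (by norm_num) hL
  have hW0 : 0 < W := by linarith
  have hE : 0 < Real.exp L := Real.exp_pos L
  rw [div_le_iff₀ hc] at hs hcL
  have h1 : Real.exp L / (W * L) * s ≤ c₂ * (Real.exp L / W) / 16 := by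
    rw [div_mul_eq_mul_div, div_le_iff₀ (by positivity)]
    have e1 : c₂ * (Real.exp L / W) / 16 * (W * L) = Real.exp L * (L * c₂ / 16) := by
      field_simp
    rw [e1]
    gcongr
    linarith
  have hsq : Real.sqrt L ≤ L / 1000 := IP.EDQ.sqrt_small hL
  have h2 : Real.exp (99 / 100 * L) ≤ c₂ * (Real.exp L / W) / 16 := by
    have e1 : 16 * L ≤ Real.exp (L / 125) := by
      have g1 := Real.pow_div_factorial_le_exp (L / 125) (by positivity) 2
      have g2 : ((Nat.factorial 2 : ℕ) : ℝ) = 2 := by norm_num [Nat.factorial]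
      rw [g2] at g1
      refine le_trans ?_ g1
      have : (10 : ℝ) ^ 6 * L ≤ L * L := mul_le_mul_of_nonneg_right hL hL0.le
      norm_num at this
      nlinarith
    have e2 : 16 * L * W ≤ Real.exp (1 / 100 * L) := by
      calc 16 * L * W ≤ Real.exp (L / 125) * Real.exp (2 * Real.sqrt L) := by gcongr
        _ = Real.exp (L / 125 + 2 * Real.sqrt L) := by rw [Real.exp_add]
        _ ≤ Real.exp (1 / 100 * L) := by
            apply Real.exp_le_exp.2
            linarith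
    have e3 : Real.exp L = Real.exp (99 / 100 * L) * Real.exp (1 / 100 * L) := by
      rw [← Real.exp_add]
      ring_nf
    have e4 : c₂ * (Real.exp L / W) / 16 = Real.exp (99 / 100 * L) *
        (c₂ * Real.exp (1 / 100 * L) / (16 * W)) := by
      rw [e3]
      field_simp
    rw [e4]
    apply le_mul_of_one_le_right (Real.exp_nonneg _)
    rw [one_le_div (by positivity)]
    calc 16 * W ≤ (L * c₂) * (16 * W) := by
          apply le_mul_of_one_le_left (by positivity)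
          linarith
      _ = c₂ * (16 * L * W) := by ring
      _ ≤ c₂ * Real.exp (1 / 100 * L) := by gcongr
  linarith

end EDQXx

open EDQXx in
theorem t_EDQX : S_EDQX := by
  classical
  intro hLPX hCRL hCRU hMOF hEDP hBLH hVSH hKVH hPAR a C₀ c₂ ha hC₀ hc₂
  obtain ⟨m, hmd⟩ : ∃ m : ℕ, m = a.natAbs := ⟨_, rfl⟩
  rw [← hmd]
  have hm : 1 ≤ m := by
    rw [hmd]
    exact Int.natAbs_pos.2 ha
  have hm0 : (0 : ℝ) < m := by exact_mod_cast hm
  have hm1 : (1 : ℝ) ≤ m := by exact_mod_cast hm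
  obtain ⟨c, hc, hSIG⟩ := SIGDd.sigd
  obtain ⟨C₁, hC₁, hG0⟩ := g0_bound
  obtain ⟨C3', hC3', hKVH⟩ := hKVH
  obtain ⟨C3, hC3d⟩ : ∃ C3 : ℝ, C3 = C3' / (12 * c₂) := ⟨_, rfl⟩
  have hC3 : 0 < C3 := by rw [hC3d]; positivity
  obtain ⟨e, he⟩ : ∃ e : ℝ, e = 1 / 10 ^ 8 := ⟨_, rfl⟩
  have he0 : 0 < e := by rw [he]; norm_num
  obtain ⟨η, lamb, I, hη, hηe, hlamb, hI1, hI2, hI3, hI4⟩ :=
    hPAR C₀ c e (64 * 24 * C3 * C₀) hC₀ hc he0 (by positivity)
  obtain ⟨J, hJ⟩ : ∃ J : ℕ, J = ⌊e / η⌋₊ := ⟨_, rfl⟩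
  have hJ1 : (J : ℝ) * η ≤ e := by
    have h1 : (J : ℝ) ≤ e / η := by
      rw [hJ]
      exact Nat.floor_le (by positivity)
    rwa [le_div_iff₀ hη] at h1
  have hJ2 : e < ((J : ℝ) + 1) * η := by
    have h1 : e / η < (J : ℝ) + 1 := by
      rw [hJ]
      exact Nat.lt_floor_add_one _
    rwa [div_lt_iff₀ hη] at h1
  have hJ0 : (0 : ℝ) ≤ J := Nat.cast_nonneg J
  have hJ3 : 1 ≤ J := by
    rw [hJ]
    apply Nat.le_floor
    rw [le_div_iff₀ hη]
    push_cast
    linarith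
  obtain ⟨E, hE⟩ : ∃ E : ℕ, E = ⌈(3 : ℝ) / η⌉₊ := ⟨_, rfl⟩
  obtain ⟨G0, hG0d⟩ : ∃ G0 : ℝ, G0 = 2 ^ E * (C₁ * (e / lamb / η)) := ⟨_, rfl⟩
  have hlamb0 : 0 < lamb := by linarith
  have hratio : 1 ≤ e / lamb / η := by
    rw [le_div_iff₀ hη, le_div_iff₀ hlamb0, one_mul]
    have h1 : (1 : ℝ) ≤ 2 ^ I := one_le_pow₀ (by norm_num)
    have h2 : 0 ≤ η * lamb := by positivity
    nlinarith
  have hG01 : 1 ≤ G0 := by
    rw [hG0d]
    have h1 : (1 : ℝ) ≤ 2 ^ E := one_le_pow₀ (by norm_num)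
    exact one_le_mul_of_one_le_of_one_le h1 (one_le_mul_of_one_le_of_one_le hC₁ hratio)
  have hC40 : 0 < IP.C4 G0 J (C₀ / η) := by
    have : 0 < G0 := by linarith
    unfold IP.C4
    positivity
  obtain ⟨D, hD⟩ : ∃ D : ℝ, D = 24 * C3 / η := ⟨_, rfl⟩
  have hD0 : 0 < D := by rw [hD]; positivity
  refine ⟨η, 1 / (16 * (D * IP.C4 G0 J (C₀ / η))), hη, by positivity, ?_⟩
  obtain ⟨L₄, hL₄⟩ := hLPX a η ha hη
  obtain ⟨L₁, hL₁⟩ := hSIG η hη 1 I
  obtain ⟨L₂, hL₂⟩ := hBLH η hη (700 * (J + 1))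
  obtain ⟨L₃, hL₃⟩ := hVSH η hη J
  obtain ⟨L₅, hL₅⟩ := hKVH 1 η one_pos hη 1
  obtain ⟨lam, hlam⟩ : ∃ lam : ℝ, lam = max 1 (1 / (6 * c₂)) := ⟨_, rfl⟩
  have hlam1 : 1 ≤ lam := by rw [hlam]; exact le_max_left _ _
  have hlam2 : 1 / (6 * c₂) ≤ lam := by rw [hlam]; exact le_max_right _ _
  have hlam0 : 0 ≤ lam := by linarith
  obtain ⟨P0, hP0⟩ : ∃ P0 : ℝ, P0 = lam * 2 ^ m.primeFactors.card * m := ⟨_, rfl⟩
  have hP00 : 0 ≤ P0 := by rw [hP0]; positivity
  have hev := IP.EDQ.largeQ J (D := 24576 * C3 * C₀ / η ^ 2 * (J : ℝ) ^ 2)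
    (D2 := 16 * Real.sqrt (IP.C4 G0 J (C₀ / η)) / c₂ + 1 / c₂ + 5 * P0 + m) hη (by positivity)
  have hev2 := ev_exp (3 * J + 5) hη (K := lam * (12288 * (J : ℝ))) (by positivity)
  obtain ⟨L₀, hL₀⟩ := eventually_atTop.1 (hev.and (hev2.and ((eventually_ge_atTop L₁).and
    ((eventually_ge_atTop L₂).and ((eventually_ge_atTop L₃).and ((eventually_ge_atTop L₄).and
      (eventually_ge_atTop L₅)))))))
  refine ⟨L₀, fun L hLL b r i S σ hp hiL hSk hiS hσB hv hSV hTh => ?_⟩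
  obtain ⟨⟨e1, e2, e3, e4, e5, e6, -, e8, e13⟩, e7, e10, e11, e12, e9, e14⟩ := hL₀ L hLL
  have hL0 : 0 < L := lt_of_lt_of_le (by norm_num) e1
  have hL200 : 200 ≤ L := le_trans (by norm_num) e1
  have hL1 : 1 ≤ L := by linarith
  have hL22 : 2 ≤ L ^ 2 := by nlinarith
  have hs0 : 0 ≤ 16 * Real.sqrt (IP.C4 G0 J (C₀ / η)) / c₂ := by positivity
  have hc0 : 0 ≤ 1 / c₂ := by positivity
  have d1 : 16 * Real.sqrt (IP.C4 G0 J (C₀ / η)) / c₂ ≤ L := by linarith
  have d2 : 1 / c₂ ≤ L := by linarith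
  have d3 : 5 * P0 ≤ L := by linarith
  have d4 : (m : ℝ) ≤ L := by linarith
  have hLE : L ≤ Real.exp L := by
    have := Real.add_one_le_exp L
    linarith
  have hmE : (m : ℝ) ≤ Real.exp L := d4.trans hLE
  have hmL : Real.log m ≤ ((1 : ℕ) : ℝ) * L := by
    have := Real.log_le_sub_one_of_pos hm0
    push_cast
    linarith
  obtain ⟨P, N, hd, hSS, hsum, hLV⟩ := hL₂ L e11 m hm
  have hVSL' := hL₃ L e12 m hm
  obtain ⟨W, hW⟩ : ∃ W : ℕ, W = WW m L := ⟨_, rfl⟩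
  have hW1 : 1 ≤ W := by rw [hW]; exact THDd.WW_pos m L
  have hWm : W.Coprime m := by rw [hW]; exact THDd.WW_coprime m L
  have hWL : (W : ℝ) ≤ Real.exp (2 * Real.sqrt L) := by rw [hW]; exact IP.EDQ.W_le hL0.le
  have hWp : ∀ p : ℕ, p.Prime → p ∣ W → (p : ℝ) ≤ L ^ 100 := by
    intro p hp hpW
    rw [hW] at hpW
    have h1 := (THDd.dvd_WW hp hpW).1
    have h2 : (p : ℝ) ≤ Real.sqrt L := by
      have h3 : (p : ℝ) ≤ (⌊Real.sqrt L⌋₊ : ℝ) := by exact_mod_cast h1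
      exact h3.trans (Nat.floor_le (Real.sqrt_nonneg L))
    have h3 : Real.sqrt L ≤ L := by
      have := IP.EDQ.sqrt_small e1
      linarith
    exact (h2.trans h3).trans (le_self_pow₀ hL1 (by norm_num))
  have hKV3 := hL₅ L e14 m hm hmL (⌊((m.totient : ℝ) / m) * L⌋₊ + 1) (by
    push_cast
    have : (⌊((m.totient : ℝ) / m) * L⌋₊ : ℝ) ≤ ((m.totient : ℝ) / m) * L :=
      Nat.floor_le (by positivity)
    linarith)
  rw [← hW] at hp hv hTh hKV3 ⊢
  have hW0 : (0 : ℝ) < W := by exact_mod_cast hW1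
  have hW1' : (1 : ℝ) ≤ W := by exact_mod_cast hW1
  have htW : (0 : ℝ) < W.totient := by exact_mod_cast Nat.totient_pos.2 hW1
  have htWle : (W.totient : ℝ) ≤ W := by exact_mod_cast Nat.totient_le W
  have htot : (0 : ℝ) < m.totient := by exact_mod_cast Nat.totient_pos.2 hm
  have htotle : (m.totient : ℝ) ≤ m := by exact_mod_cast Nat.totient_le m
  obtain ⟨B1, hB1⟩ : ∃ B1 : ℝ, B1 = e * L / lamb := ⟨_, rfl⟩
  have hB1I : 2 ^ I * (η * L) ≤ B1 := by
    rw [hB1, le_div_iff₀ hlamb0]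
    calc 2 ^ I * (η * L) * lamb = (2 ^ I * (η * lamb)) * L := by ring
      _ ≤ e * L := by gcongr
  have hσ := hL₁ L e10 m hm hmL B1 hB1I
  have hlogz : Real.log (Real.exp (η * L)) = η * L := Real.log_exp _
  obtain ⟨Q, hQ⟩ : ∃ Q : Finset ℕ, Q = BPr m (Real.exp (η * L)) (Real.exp B1) := ⟨_, rfl⟩
  have hB10 : 0 < B1 := by rw [hB1]; positivity
  have hηB1 : η * L ≤ B1 := by
    have h1 : (1 : ℝ) ≤ 2 ^ I := one_le_pow₀ (by norm_num)
    have h2 : 0 ≤ η * L := by positivity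
    exact (le_mul_of_one_le_left h2 h1).trans hB1I
  have hzR : Real.exp (η * L) ≤ Real.exp B1 := Real.exp_le_exp.2 hηB1
  have hexpB1 : 0 ≤ Real.exp B1 := Real.exp_nonneg _
  have hz0 : 0 < Real.exp (η * L) := Real.exp_pos _
  have hL24 : L ^ 2 < L ^ 100 := pow_lt_pow_right₀ (by linarith) (by norm_num)
  have hLL100 : L ≤ L ^ 100 := le_self_pow₀ hL1 (by norm_num)
  have hz2 : 2 ≤ Real.exp (η * L) := by linarith
  have hηL : η * L ≤ L / 100 := by
    have h3 : η ≤ 1 / 100 := by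
      refine hηe.trans ?_
      rw [he]
      norm_num
    calc η * L ≤ 1 / 100 * L := mul_le_mul_of_nonneg_right h3 hL0.le
      _ = L / 100 := by ring
  have hB1L : B1 ≤ L / 100 := by
    have h3 : e ≤ 1 / 100 := by
      rw [he]
      norm_num
    rw [hB1]
    calc e * L / lamb ≤ e * L := div_le_self (by positivity) hlamb
      _ ≤ 1 / 100 * L := mul_le_mul_of_nonneg_right h3 hL0.le
      _ = L / 100 := by ring
  have hSSm : ∀ l ∈ SS P N, l.Prime ∧ L ^ 100 < (l : ℝ) ∧ ¬ l ∣ m ∧ (l : ℝ) ≤ Real.exp (η * L) := by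
    intro l hl
    rw [hSS] at hl
    exact IP.EDQ.mem_SPH hz0.le hl
  have hQm : ∀ l ∈ Q, l.Prime ∧ Real.exp (η * L) < (l : ℝ) ∧ ¬ l ∣ m ∧ (l : ℝ) ≤ Real.exp B1 := by
    intro l hl
    rw [hQ] at hl
    exact mem_BPr hexpB1 hl
  have hall : ∀ l ∈ SS P N ∪ Q, l.Prime ∧ L ^ 100 < (l : ℝ) ∧ (l : ℝ) ≤ Real.exp (L / 100) ∧
      ¬ l ∣ m := by
    intro l hl
    rw [mem_union] at hl
    rcases hl with hl | hl
    · obtain ⟨g1, g2, g3, g4⟩ := hSSm l hl
      exact ⟨g1, g2, g4.trans (Real.exp_le_exp.2 hηL), g3⟩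
    · obtain ⟨g1, g2, g3, g4⟩ := hQm l hl
      exact ⟨g1, e3.trans_lt g2, g4.trans (Real.exp_le_exp.2 hB1L), g3⟩
  have hσl : ∀ l ∈ SS P N ∪ Q, Bij σ l ∧
      ∀ n : ℕ, ((l : ℤ) ∣ a + (r : ℤ) * (n : ℤ) ↔ l ∣ σ n + i * m) := by
    intro l hl
    obtain ⟨g1, g2, g3, g4⟩ := hall l hl
    exact hσB l g1 g2 g3 g4
  have hcardS : (S.card : ℝ) ≤ L ^ 2 + 1 := by
    have h1 : S ⊆ range (⌊L ^ 2⌋₊ + 1) := by
      intro k hk
      rw [mem_range]
      have := Nat.le_floor (hSk k hk)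
      omega
    have h2 := card_le_card h1
    rw [card_range] at h2
    have h3 : (S.card : ℝ) ≤ (⌊L ^ 2⌋₊ : ℝ) + 1 := by exact_mod_cast h2
    have h4 : (⌊L ^ 2⌋₊ : ℝ) ≤ L ^ 2 := Nat.floor_le (by positivity)
    linarith
  have hS0 : (0 : ℝ) ≤ S.card := Nat.cast_nonneg _
  obtain ⟨sg, hsg⟩ : ∃ sg : ℝ, sg = ∑ T : Finset {l // l ∈ Q},
      s0 (fun i : {l // l ∈ Q} => Real.log ((i : ℕ) : ℝ))
        (fun i : {l // l ∈ Q} => ((i : ℕ) : ℝ) - 1) B1 T := ⟨_, rfl⟩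
  have hσ2 : (c * I - 1) / (η * L) ≤ sg := by
    rw [hsg]
    subst hQ
    exact hσ
  have hcI : 0 < c * I - 1 := by
    have : 0 < 8 * C₀ / e := by positivity
    linarith
  have hcI1 : 1 ≤ c * I - 1 := by
    have : 0 < 8 * C₀ / e := by positivity
    linarith
  have hσ0 : 0 < sg := lt_of_lt_of_le (by positivity) hσ2
  have ha1 : 1 / sg ≤ η * L / (c * I - 1) := by
    rw [div_le_div_iff₀ hσ0 hcI, one_mul]
    rw [div_le_iff₀ (by positivity)] at hσ2
    linarith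
  have ha2 : 1 / sg ≤ η * L := by
    refine ha1.trans ?_
    exact div_le_self (by positivity) hcI1
  -- the range
  obtain ⟨hn1, hnW, hM0, hMle1, hMge⟩ := num_n e1 hm hW1 hWL
  obtain ⟨n, hn⟩ : ∃ n : ℕ, n = M0 L W := ⟨_, rfl⟩
  rw [← hn] at hn1 hnW hM0 hMle1 hMge
  obtain ⟨M, hM⟩ : ∃ M : ℝ, M = IP.EDP.MM m n := ⟨_, rfl⟩
  rw [← hM] at hM0 hMle1 hMge
  have hωl := num_p e1 hm hW1 hWL hlam0 hP0 d3 hMge
  have hωM : 2 ^ m.primeFactors.card / M ≤ 2 * Real.exp (-(31 / 40 * L)) := by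
    refine le_trans ?_ hωl
    gcongr
    exact le_mul_of_one_le_left (by positivity) hlam1
  obtain ⟨T, hT⟩ : ∃ T : ℝ, T = ThL a r W b L := ⟨_, rfl⟩
  rw [← hT] at hTh ⊢
  have hT1 : c₂ * (Real.exp L / W) ≤ T := by
    refine le_trans ?_ hTh
    gcongr
  have hT0 : 0 < T := lt_of_lt_of_le (by positivity) hT1
  -- the level
  obtain ⟨bb, hbb⟩ : ∃ bb : ℕ → ℕ, bb = fun j => 700 * (J + 1) + j := ⟨_, rfl⟩
  rw [← hbb] at hLV
  have hLV0 : 0 ≤ LV P bb N := by
    unfold LV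
    apply Finset.prod_nonneg
    intro j _
    have : 0 ≤ ∑ l ∈ P j, (l : ℝ) := Finset.sum_nonneg fun l _ => Nat.cast_nonneg l
    positivity
  have hLV1 : LV P bb N ≤ Real.exp (L / 1000) := by
    refine hLV.trans (Real.exp_le_exp.2 (IP.EDQ.num_lv hL0 ?_ ?_))
    · rw [← he]
      exact hηe
    · rw [← he]
      exact hJ1
  have hLV2 : LV P bb N ^ 2 ≤ Real.exp (L / 500) := by
    have h1 := pow_le_pow_left₀ hLV0 hLV1 2
    refine h1.trans (le_of_eq ?_)
    rw [← Real.exp_nat_mul]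
    congr 1
    push_cast
    ring
  have hLV4 : LV P bb N ^ 4 ≤ Real.exp (L / 250) := by
    have h1 := pow_le_pow_left₀ hLV0 hLV1 4
    refine h1.trans (le_of_eq ?_)
    rw [← Real.exp_nat_mul]
    congr 1
    push_cast
    ring
  obtain ⟨V1, hV1⟩ : ∃ V1 : ℝ, V1 = VS (SS P N) 1 := ⟨_, rfl⟩
  have hV10 : 0 ≤ V1 := by
    rw [hV1]
    apply VS_nonneg
    intro l hl
    exact (hSSm l hl).1.one_le
  have hVK : V1 * S.card ≤ C₀ / η := by
    rw [hV1, hSS, mul_comm]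
    exact hSV
  have hKV : (S.card : ℝ) * V1 ≤ C₀ / η := by
    rw [mul_comm]
    exact hVK
  have hVK0 : 0 ≤ V1 * S.card := by positivity
  -- the sizes
  have hMle : M ≤ 2 * Real.exp L / W := by
    refine hMle1.trans ?_
    apply mul_le_of_le_one_right (by positivity)
    rw [div_le_one hm0]
    exact htotle
  have hΛM : 2 * L * M ≤ 4 * L / c₂ * T := by
    calc 2 * L * M ≤ 2 * L * (2 * Real.exp L / W) := by gcongr
      _ = 4 * L / c₂ * (c₂ * (Real.exp L / W)) := by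
          field_simp
          ring
      _ ≤ 4 * L / c₂ * T := by gcongr
  have hΛMV : 2 * L * M * V1 ≤ D * T := by
    have h1 : 2 * (((m.totient : ℝ) / m) * L) * ((W.totient : ℝ) / W) * V1 ≤ C3' / η := by
      have h2 : ((m.totient : ℝ) / m) * L ≤ ((⌊((m.totient : ℝ) / m) * L⌋₊ + 1 : ℕ) : ℝ) := by
        push_cast
        exact (Nat.lt_floor_add_one _).le
      rw [← hSS, ← hV1, mul_one] at hKV3
      refine le_trans ?_ hKV3
      gcongr
    calc 2 * L * M * V1 ≤ 2 * L * (2 * Real.exp L / W * ((m.totient : ℝ) / m)) * V1 := by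
          gcongr
      _ = 2 * (2 * (((m.totient : ℝ) / m) * L) * ((W.totient : ℝ) / W) * V1) *
          (Real.exp L / W.totient) := by
          field_simp
      _ ≤ 2 * (C3' / η) * (Real.exp L / W.totient) := by gcongr
      _ = D * (c₂ * (Real.exp L / W.totient)) := by
          rw [hD, hC3d]
          field_simp
          norm_num
      _ ≤ D * T := by gcongr
  have hPar : ParX η P bb N a m W b r i n Q S σ L (1 / sg) (e * L) B1 :=
    { hm := hmd
      ha0 := ha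
      hp := hp
      hWm := hWm
      hn := hn
      hd := hd
      hS := by
        intro l hl
        obtain ⟨g1, g2, g3, g4⟩ := hSSm l hl
        exact ⟨g1, g3, fun h => absurd (hWp l g1 h) (not_le.2 g2), g2, g4⟩
      hQ := by
        intro l hl
        obtain ⟨g1, g2, g3, g4⟩ := hQm l hl
        exact ⟨g1, g3, fun h => absurd (hWp l g1 h) (not_le.2 (e3.trans_lt g2)), g2, g4⟩
      hσ := hσl
      hk := hSk
      hi := hiL
      hiS := hiS
      hLV := hLV1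
      hα := by positivity
      hαη := ha2
      hB1 := hB10
      hB1B := by
        rw [hB1]
        exact div_le_self (by positivity) hlamb
      hB := by
        rw [he]
        have := hL0.le
        norm_num
        linarith }
  have hCtx := ctx_of (J := J) (VJ := 1 / L ^ (3 * J)) hPar hL200 e3 (e2.trans hLL100) hm hn1 hsum
    (by
      intro j _
      rw [hbb])
    (by
      rw [← hsg]
      field_simp)
    (by
      calc e * L < (((J : ℝ) + 1) * η) * L := by gcongr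
        _ = _ := by ring)
    (by positivity)
    (by
      intro j hj
      rw [hSS]
      exact hVSL' j hj)
    (by
      have h1 : 2 * ((J : ℝ) + 1) * S.card / Real.exp (η * L) =
          2 * ((J : ℝ) + 1) * S.card * Real.exp (-(η * L)) := by
        rw [Real.exp_neg]
        rfl
      rw [h1]
      refine le_trans ?_ e4
      gcongr)
  have hh2 : 384 * L * (((S.card : ℝ) + 1) * (lam * (2 ^ m.primeFactors.card * LV P bb N ^ 2 / M *
      (Real.exp (3 * (e * L)) * 3) ^ 2))) ≤ 1 := by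
    have h1 := IP.EDQ.num_h2 (p := lam * 2 ^ m.primeFactors.card) (v := LV P bb N ^ 2) hS0 hcardS
      hL1 hM0 (by positivity) hωl (by positivity) hLV2 he e6
    refine le_trans (le_of_eq ?_) h1
    ring
  have hh3 := num_h3x (J := J) (η := η) hS0 hcardS hL0 hlam0 e7 hL22
  have hh4 := IP.EDQ.num_h4 (J := J) hS0 hcardS hL1 hM0 (p := 2 ^ m.primeFactors.card)
    (by positivity) hωM (v := LV P bb N ^ 4) (by positivity) hLV4 e8
  have key := hEDP hCRL hCRU hMOF P bb N m W b i n J Q S (Real.exp (η * L)) (1 / sg) (e * L) B1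
    (1 / L ^ (3 * J)) σ hCtx (fun l hl => (hσl l hl).1) (PiL a r W b L) (lwX a r W b) T
    (Real.exp L / (W * L)) (Real.exp (99 / 100 * L)) G0 (2 * L) D
    (by
      intro x hx
      rw [hn]
      exact pil_om hm hmd hp hL200 hmE hx)
    (fun x hx => (pil hp hL200 hx).2.2.2.2.1)
    (fun x hx => (pil hp hL200 hx).2.2.2.2.2)
    (by
      intro x hx l hl
      have hl' : l ∈ SS P N ∪ Q := mem_union_left _ hl
      refine pil_ndvd hp hL200 hx (hall l hl').1 ((hall l hl').2.2.1.trans ?_) (hσl l hl').2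
      exact Real.exp_le_exp.2 (by linarith))
    (by
      rw [hT]
      exact hL₄ L e9 P bb N m W b r i n Q S σ (1 / sg) (e * L) B1 hPar)
    hT0 hD0 (by positivity) (by positivity)
    (by
      rw [← hM, ← hV1]
      have h1 := IP.EDQ.num_h1 (J := J) hVK0 hC₀ hC3 hη hVK hL0 ha1 he0 hlamb0 hB1 hI2 hI3 e5
      rw [← hD] at h1
      have h0 : 0 ≤ 2 * (V1 * S.card) * ((4 * (J : ℝ) / Real.exp (η * L)) ^ 2 +
          Real.exp ((2 * (1 / sg) * (V1 * S.card) - (e * L - B1)) / B1)) := by positivity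
      calc 2 * L * M * V1 * (2 * (V1 * S.card)) * ((4 * (J : ℝ) / Real.exp (η * L)) ^ 2 +
          Real.exp ((2 * (1 / sg) * (V1 * S.card) - (e * L - B1)) / B1)) =
            (2 * L * M * V1) * (2 * (V1 * S.card) * ((4 * (J : ℝ) / Real.exp (η * L)) ^ 2 +
          Real.exp ((2 * (1 / sg) * (V1 * S.card) - (e * L - B1)) / B1))) := by ring
        _ ≤ (D * T) * (2 * (V1 * S.card) * ((4 * (J : ℝ) / Real.exp (η * L)) ^ 2 +
          Real.exp ((2 * (1 / sg) * (V1 * S.card) - (e * L - B1)) / B1))) :=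
            mul_le_mul_of_nonneg_right hΛMV h0
        _ = T * (D * (2 * (V1 * S.card) * ((4 * (J : ℝ) / Real.exp (η * L)) ^ 2 +
          Real.exp ((2 * (1 / sg) * (V1 * S.card) - (e * L - B1)) / B1)))) := by ring
        _ ≤ T * (1 / 16) := mul_le_mul_of_nonneg_left h1 hT0.le
        _ = T / 16 := by ring)
    (by
      rw [← hM]
      exact big16x hL0.le hT0.le hc₂ hlam2 (by positivity) hΛM hh2)
    (by
      rw [← hM]
      exact big8x hL1 hS0 (by positivity) hlam1 hh2)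
    (by
      rw [← hM]
      exact big16x hL0.le hT0.le hc₂ hlam2 (by positivity) hΛM hh3)
    (big8x hL1 hS0 (by positivity) hlam1 hh3)
    (by
      rw [← hM]
      refine hh4.trans ?_
      rw [hSS]
      exact hVSL' 1 hJ3)
    (by
      rw [← hV1]
      refine num_h5x e1 hW1' hWL hc₂ d2 ?_ hT1
      refine le_trans ?_ d1
      have h9 : Real.sqrt (IP.C4 G0 J (S.card * V1)) ≤ Real.sqrt (IP.C4 G0 J (C₀ / η)) := by
        apply Real.sqrt_le_sqrt
        unfold IP.C4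
        have : 0 < G0 := by linarith
        gcongr
      gcongr)
    (by
      rw [← hM, ← hV1]
      exact hΛMV)
    hG01
    (by
      intro k hk x hx
      rw [IP.Om, mem_filter, mem_range] at hx
      rw [hQ]
      refine (hG0 m k (σ (b + W * x)) (Real.exp (η * L)) (Real.exp B1) hz2 hzR).trans ?_
      rw [hG0d, Real.log_exp, hlogz]
      have h1 : B1 / (η * L) = e / lamb / η := by
        rw [hB1]
        field_simp
      rw [h1]
      apply mul_le_mul_of_nonneg_right _ (by positivity)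
      apply pow_le_pow_right₀ (by norm_num)
      obtain ⟨v, hv1, hv2, hv3⟩ := hv x (by rw [← hn]; exact hx.1) k hk
      have h2 := few_dvd (Q := BPr m (Real.exp (η * L)) (Real.exp B1)) (z := Real.exp (η * L))
        (by linarith)
        (fun l hl => ⟨(mem_BPr hexpB1 hl).1, (mem_BPr hexpB1 hl).2.1⟩) hv1
      rw [hlogz] at h2
      have h3 : ((BPr m (Real.exp (η * L)) (Real.exp B1)).filter
          (fun l => l ∣ σ (b + W * x) + k * m)).card ≤
          ((BPr m (Real.exp (η * L)) (Real.exp B1)).filter (fun l => l ∣ v)).card := by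
        apply card_le_card
        intro l hl
        rw [mem_filter] at hl ⊢
        refine ⟨hl.1, ?_⟩
        obtain ⟨g1, g2, g3, g4⟩ := hall l (mem_union_right _ (by rw [hQ]; exact hl.1))
        exact hv3 l g1 g2 g3 g4 hl.2
      have h4 : (((BPr m (Real.exp (η * L)) (Real.exp B1)).filter
          (fun l => l ∣ v)).card : ℝ) ≤ 3 / η := by
        rw [le_div_iff₀ hη]
        have h5 : (((BPr m (Real.exp (η * L)) (Real.exp B1)).filter
          (fun l => l ∣ v)).card : ℝ) * η * L ≤ 3 * L := by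
          calc _ = (((BPr m (Real.exp (η * L)) (Real.exp B1)).filter
              (fun l => l ∣ v)).card : ℝ) * (η * L) := by ring
            _ ≤ _ := h2.trans hv2
        exact le_of_mul_le_mul_right h5 hL0
      have h5 : (((BPr m (Real.exp (η * L)) (Real.exp B1)).filter
          (fun l => l ∣ v)).card : ℝ) ≤ (E : ℝ) := by
        rw [hE]
        exact h4.trans (Nat.le_ceil _)
      have h6 : ((BPr m (Real.exp (η * L)) (Real.exp B1)).filter
          (fun l => l ∣ v)).card ≤ E := by exact_mod_cast h5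
      exact h3.trans h6)
  rw [← hV1] at key
  have h1 : 1 / (16 * (D * IP.C4 G0 J (C₀ / η))) * T ≤
      T / (16 * (D * IP.C4 G0 J (S.card * V1))) := by
    rw [one_div_mul_eq_div]
    have hG00 : 0 < G0 := by linarith
    have h2 : IP.C4 G0 J (S.card * V1) ≤ IP.C4 G0 J (C₀ / η) := by
      unfold IP.C4
      gcongr
    have h3 : 0 < IP.C4 G0 J (S.card * V1) := by
      unfold IP.C4
      positivity
    gcongr
  refine h1.trans (key.trans ?_)
  refine Finset.sum_le_sum_of_subset_of_nonneg ?_ ?_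
  · intro x hx
    rw [mem_filter] at hx ⊢
    refine ⟨hx.1, fun k hk => ?_⟩
    obtain ⟨l, hl, hdvd⟩ := hx.2 k hk
    obtain ⟨g1, g2, g3, g4⟩ := hall l hl
    exact ⟨l, g1, g2, g3, g4, hdvd⟩
  · intro x hx _
    rw [mem_filter] at hx
    exact (pil hp hL200 hx.1).2.2.2.2.1

end

end Pool.Agent.FCT
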