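import Pool.Agent.FCT.St4
import Pool.Agent.FCT.EXC

/-!
# FCT_EXD (helper95): the exceptional modulus is large
-/

set_option autoImplicit false

namespace Pool.Agent.FCT

open Finset

namespace H95

theorem phi_prod (T : Finset ℕ) (hT : ∀ p ∈ T, 2 ≤ p) :
    ∏ p ∈ T, p ≤ (T.card + 1) * ∏ p ∈ T, (p - 1) := by
  induction T using Finset.induction_on_max with
  | empty => simp
  | insert a s ha ih =>
    have has : a ∉ s := fun h => lt_irrefl a (ha a h)
    rw [Finset.prod_insert has, Finset.prod_insert has, Finset.card_insert_of_notMem has]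
    have h1 := ih fun p hp => hT p (Finset.mem_insert_of_mem hp)
    have ha2 : 2 ≤ a := hT a (Finset.mem_insert_self a s)
    have h2 : s.card + 2 ≤ a := by
      have h3 : s ⊆ Finset.Ico 2 a := by
        intro p hp
        rw [Finset.mem_Ico]
        exact ⟨hT p (Finset.mem_insert_of_mem hp), ha p hp⟩
      have h4 := Finset.card_le_card h3
      rw [Nat.card_Ico] at h4
      omega
    have h5 : a * (s.card + 1) ≤ (s.card + 1 + 1) * (a - 1) := by
      obtain ⟨b, rfl⟩ : ∃ b, a = b + 1 := ⟨a - 1, by omega⟩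
      rw [Nat.add_sub_cancel]
      nlinarith
    calc a * ∏ p ∈ s, p ≤ a * ((s.card + 1) * ∏ p ∈ s, (p - 1)) := Nat.mul_le_mul_left _ h1
      _ = a * (s.card + 1) * ∏ p ∈ s, (p - 1) := by ring
      _ ≤ (s.card + 1 + 1) * (a - 1) * ∏ p ∈ s, (p - 1) := Nat.mul_le_mul_right _ h5
      _ = _ := by ring

theorem phi_nat (N : ℕ) (hN : 1 ≤ N) : N ≤ Nat.totient N * (Nat.log 2 N + 1) := by
  have h1 := Nat.totient_mul_prod_primeFactors N
  have h2 := phi_prod N.primeFactors fun p hp => (Nat.prime_of_mem_primeFactors hp).two_le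
  have h3 : 0 < ∏ p ∈ N.primeFactors, (p - 1) := by
    refine Finset.prod_pos fun p hp => ?_
    have := (Nat.prime_of_mem_primeFactors hp).two_le
    omega
  have h4 : N.primeFactors.card ≤ Nat.log 2 N := by
    refine (Nat.le_log_iff_pow_le one_lt_two (by omega)).2 ?_
    calc 2 ^ N.primeFactors.card = ∏ _p ∈ N.primeFactors, 2 := by simp
      _ ≤ ∏ p ∈ N.primeFactors, p :=
        Finset.prod_le_prod' fun p hp => (Nat.prime_of_mem_primeFactors hp).two_le
      _ ≤ N := Nat.le_of_dvd (by omega) (Nat.prod_primeFactors_dvd N)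
  have h5 : N ≤ Nat.totient N * (N.primeFactors.card + 1) := by
    refine Nat.le_of_mul_le_mul_right ?_ h3
    calc N * ∏ p ∈ N.primeFactors, (p - 1) = Nat.totient N * ∏ p ∈ N.primeFactors, p := h1.symm
      _ ≤ Nat.totient N * ((N.primeFactors.card + 1) * ∏ p ∈ N.primeFactors, (p - 1)) :=
        Nat.mul_le_mul_left _ h2
      _ = _ := by ring
  exact h5.trans (Nat.mul_le_mul_left _ (by omega))

/-- `φ(r)/r ≥ 1/(3M)` if `log r ≤ M`, `M ≥ 2`. -/
theorem phi_real (r : ℕ) (hr : 1 ≤ r) (M : ℝ) (hM : 2 ≤ M) (hl : Real.log r ≤ M) :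
    1 / (3 * M) ≤ (r.totient : ℝ) / r := by
  have hr0 : (0 : ℝ) < r := by exact_mod_cast hr
  have h1 : (r : ℝ) ≤ (r.totient : ℝ) * ((Nat.log 2 r : ℝ) + 1) := by
    exact_mod_cast phi_nat r hr
  have hlog2 : (1 : ℝ) / 2 ≤ Real.log 2 := by
    have := Real.log_two_gt_d9
    linarith
  have h2 : (Nat.log 2 r : ℝ) * Real.log 2 ≤ Real.log r := by
    have h3 : 2 ^ Nat.log 2 r ≤ r := Nat.pow_log_le_self 2 (by omega)
    have h4 : ((2 : ℝ)) ^ Nat.log 2 r ≤ r := by exact_mod_cast h3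
    have h5 := Real.log_le_log (by positivity) h4
    rwa [Real.log_pow] at h5
  have h3 : (Nat.log 2 r : ℝ) ≤ 2 * M := by
    have h4 : (0 : ℝ) ≤ (Nat.log 2 r : ℝ) := Nat.cast_nonneg _
    have h5 : (Nat.log 2 r : ℝ) * (1 / 2) ≤ (Nat.log 2 r : ℝ) * Real.log 2 :=
      mul_le_mul_of_nonneg_left hlog2 h4
    linarith
  have h4 : (r : ℝ) ≤ (r.totient : ℝ) * (3 * M) := by
    refine h1.trans (mul_le_mul_of_nonneg_left (by linarith) (Nat.cast_nonneg _))
  rw [div_le_div_iff₀ (by linarith) hr0, one_mul]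
  exact h4

end H95

theorem t_EXD : S_EXD := by
  intro hZUP hDIF hREP hSMC D₀
  obtain ⟨c, hc, hS⟩ := hSMC D₀
  refine ⟨1 / c, ?_⟩
  intro R T M σ₁ hUB hT h1 h2 hM₁ hlR
  have hM : 2 ≤ M := hUB.1
  have hM0 : 0 < M := by linarith
  have hcM : 1 ≤ c * M := by
    rw [div_le_iff₀ hc] at hM₁
    linarith [mul_comm M c]
  have hM5 : (32 : ℝ) ≤ M ^ 5 := by
    calc (32 : ℝ) = 2 ^ 5 := by norm_num
      _ ≤ M ^ 5 := by gcongr
  have hσ2 : σ₁ ≤ 2 := by
    have h5 : 1 / (16 * M ^ 5) ≤ 1 := by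
      rw [div_le_one (by positivity)]
      linarith
    linarith
  by_cases hex : ∃ r₁ : ℕ, 1 ≤ r₁ ∧ (r₁ : ℝ) ≤ R ∧ ∃ χ₁ : DirichletCharacter ℂ r₁, χ₁ ≠ 1 ∧
      χ₁ ^ 2 = 1 ∧ ‖AJ χ₁ 0 (σ₁ : ℂ)‖ < 1 / (16 * M ^ 3)
  · obtain ⟨r₁, hr₁, hR₁, χ₁, hχ₁, hs₁, hb₁⟩ := hex
    have : NeZero r₁ := ⟨by omega⟩
    refine ⟨χ₁.conductor, ?_, ?_, ?_⟩
    · by_contra hlt
      push Not at hlt
      have h3 := hS r₁ hr₁ χ₁ hχ₁ hlt σ₁ h1 hσ2
      have hr0 : (0 : ℝ) < r₁ := by exact_mod_cast hr₁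
      have h4 := H95.phi_real r₁ hr₁ M hM ((Real.log_le_log hr0 hR₁).trans hlR)
      have h5 : c * (1 / (3 * M)) < 1 / (16 * M ^ 3) :=
        lt_of_le_of_lt ((mul_le_mul_of_nonneg_left h4 hc.le).trans h3) hb₁
      rw [mul_one_div, div_lt_div_iff₀ (by positivity) (by positivity)] at h5
      have h6 : 3 * M ≤ c * M * (3 * M) := by
        have := mul_le_mul_of_nonneg_right hcM (by positivity : (0 : ℝ) ≤ 3 * M)
        linarith
      have h7 : c * M * (3 * M) ≤ c * (16 * M ^ 3) := by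
        have h8 : c * (16 * M ^ 3) - c * M * (3 * M) = c * M ^ 2 * (16 * M - 3) := by ring
        have h9 : 0 ≤ c * M ^ 2 * (16 * M - 3) :=
          mul_nonneg (by positivity) (by linarith)
        linarith
      linarith
    · have h3 : χ₁.conductor ≠ 0 := DirichletCharacter.conductor_ne_zero χ₁
      have h4 : χ₁.conductor ≠ 1 := fun h =>
        hχ₁ (DirichletCharacter.eq_one_iff_conductor_eq_one.2 h)
      omega
    · intro r hr hR hd χ hχ hs
      by_contra hlt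
      push Not at hlt
      apply hd
      rw [exc_cond hZUP hDIF hREP R T M σ₁ hUB hT h1 h2 r₁ r hr₁ hr hR₁ hR χ₁ χ hχ₁ hχ hs₁ hs hb₁
        hlt]
      exact DirichletCharacter.conductor_dvd_level χ
  · refine ⟨max D₀ 2, le_max_left _ _, le_max_right _ _, ?_⟩
    intro r hr hR _ χ hχ hs
    by_contra hlt
    push Not at hlt
    exact hex ⟨r, hr, hR, χ, hχ, hs, hlt⟩

end Pool.Agent.FCT
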