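import Pool.Agent.FCT.St3

/-!
# FNAU: a good `x` gives a good modulus, uniform form
-/

set_option autoImplicit false

namespace Pool.Agent.FCT

open Finset Pool.Agent.Lib_helper9.LG

namespace FNAU

theorem WW_le {m p : ℕ} {L : ℝ} (hp : p.Prime) (h : p ∣ WW m L) : (p : ℝ) ≤ Real.sqrt L := by
  unfold WW at h
  obtain ⟨q, hq, hpq⟩ := (hp.prime.dvd_finset_prod_iff _).mp h
  rw [Finset.mem_filter, Finset.mem_Icc] at hq
  have h1 := (Nat.prime_dvd_prime_iff_eq hp hq.2.1).mp hpq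
  subst h1
  exact (Nat.cast_le.mpr hq.1.2).trans (Nat.floor_le (Real.sqrt_nonneg _))

theorem prime_of_not_coprime {x y : ℤ} (h : ¬ IsCoprime x y) :
    ∃ l : ℕ, l.Prime ∧ (l : ℤ) ∣ x ∧ (l : ℤ) ∣ y := by
  rw [Int.isCoprime_iff_gcd_eq_one] at h
  obtain ⟨l, hl, hd⟩ := Nat.exists_prime_and_dvd h
  have hd' : (l : ℤ) ∣ (Int.gcd x y : ℤ) := Int.natCast_dvd_natCast.mpr hd
  exact ⟨l, hl, hd'.trans (Int.gcd_dvd_left ..), hd'.trans (Int.gcd_dvd_right ..)⟩

theorem cast_abs (a : ℤ) : -(a.natAbs : ℝ) ≤ (a : ℝ) ∧ (a : ℝ) ≤ (a.natAbs : ℝ) := by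
  have h : ((a.natAbs : ℕ) : ℝ) = |(a : ℝ)| := by
    rw [← Int.cast_abs, Int.abs_eq_natAbs, Int.cast_natCast]
  rw [h]
  exact ⟨neg_abs_le _, le_abs_self _⟩

/-- the numbers `a + k n` at the other sites are not primes -/
theorem core {a : ℤ} {L : ℝ} {b r x K W : ℕ} (ha : a ≠ 0) (hW : W = WW a.natAbs L)
    (hb1 : (a.natAbs : ℝ) < ((b + W * x : ℕ) : ℝ) - a.natAbs)
    (hb2 : Real.sqrt L < ((b + W * x : ℕ) : ℝ) - a.natAbs)
    (hb3 : Real.exp (L / 100) < ((b + W * x : ℕ) : ℝ) - a.natAbs)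
    (hs : ∀ j ∈ SU a W b r K, ∃ l : ℕ, l.Prime ∧ (l : ℝ) ≤ Real.exp (L / 100) ∧
      (l : ℤ) ∣ a + ((j : ℤ) - (K : ℕ)) * ((b + W * x : ℕ) : ℤ))
    (k : ℤ) (hk0 : k ≠ 0) (hk1 : -(K : ℤ) ≤ k) (hk2 : k ≤ K) (hkr : k ≠ r) :
    ¬ (a + k * ((b + W * x : ℕ) : ℤ)).natAbs.Prime := by
  intro hp
  set n : ℕ := b + W * x with hn
  -- the size of the number
  have hsz : (n : ℤ) - a.natAbs ≤ ((a + k * (n : ℤ)).natAbs : ℤ) := by
    have h1 : 1 ≤ |k| := Int.one_le_abs hk0
    have h2 : |k| * (n : ℤ) = |k * n| := by rw [abs_mul, Nat.abs_cast]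
    have h3 : (n : ℤ) ≤ |k| * n := by nlinarith [(Nat.cast_nonneg n : (0 : ℤ) ≤ n)]
    have h4 : |k * (n : ℤ)| ≤ |a + k * n| + |a| := by
      have h5 := abs_sub (a + k * (n : ℤ)) a
      have h6 : a + k * (n : ℤ) - a = k * n := by ring
      rw [h6] at h5
      exact h5
    rw [Int.natCast_natAbs, Int.natCast_natAbs]
    omega
  have hszR : (n : ℝ) - a.natAbs ≤ (((a + k * (n : ℤ)).natAbs : ℕ) : ℝ) := by
    have h8 : n ≤ (a + k * (n : ℤ)).natAbs + a.natAbs := by omega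
    have h9 : (n : ℝ) ≤ (((a + k * (n : ℤ)).natAbs + a.natAbs : ℕ) : ℝ) := Nat.cast_le.mpr h8
    have h10 := Nat.cast_add (R := ℝ) (a + k * (n : ℤ)).natAbs a.natAbs
    linarith
  -- a prime divisor is at least as large
  have key : ∀ l : ℕ, l.Prime → (l : ℤ) ∣ a + k * (n : ℤ) → (n : ℝ) - a.natAbs ≤ (l : ℝ) := by
    intro l hl hd
    have h1 : l = (a + k * (n : ℤ)).natAbs :=
      (Nat.prime_dvd_prime_iff_eq hl hp).mp (Int.natCast_dvd.mp hd)
    rw [h1]
    exact hszR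
  by_cases c1 : IsCoprime k a
  · by_cases c2 : IsCoprime (a + k * (b : ℤ)) (W : ℤ)
    · obtain ⟨j, hj⟩ := Int.eq_ofNat_of_zero_le (by omega : (0 : ℤ) ≤ K + k)
      have hjk : (j : ℤ) - K = k := by omega
      have hj1 : j ∈ SU a W b r K := by
        unfold SU
        rw [Finset.mem_filter, Finset.mem_range, hjk]
        refine ⟨by omega, by omega, by omega, c1, c2⟩
      obtain ⟨l, hl, hl1, hl2⟩ := hs j hj1
      rw [hjk] at hl2
      linarith [key l hl hl2]
    · obtain ⟨l, hl, hl1, hl2⟩ := prime_of_not_coprime c2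
      have h1 : (l : ℤ) ∣ a + k * (n : ℤ) := by
        have h2 : a + k * (n : ℤ) = (a + k * (b : ℤ)) + (W : ℤ) * (k * x) := by
          rw [hn]
          push_cast
          ring
        rw [h2]
        exact dvd_add hl1 (hl2.mul_right _)
      have h3 : l ∣ WW a.natAbs L := by
        rw [← hW]
        exact Int.natCast_dvd_natCast.mp hl2
      linarith [key l hl h1, WW_le hl h3]
  · obtain ⟨l, hl, hl1, hl2⟩ := prime_of_not_coprime c1
    have h1 : (l : ℤ) ∣ a + k * (n : ℤ) := dvd_add hl2 (hl1.mul_right _)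
    have h2 : l ≤ a.natAbs := Nat.le_of_dvd (Int.natAbs_pos.mpr ha) (Int.natCast_dvd.mp hl2)
    have h3 : (l : ℝ) ≤ a.natAbs := Nat.cast_le.mpr h2
    linarith [key l hl h1]

/-- the conditions on `L` -/
theorem large (a : ℤ) (ε : ℝ) (hε : 0 < ε) : ∃ L₀ : ℝ, ∀ L : ℝ, L₀ ≤ L → 16 ≤ L ∧
    16 * ((a.natAbs : ℝ) + 1) ≤ Real.exp L ∧ Real.log L / 2 + 1 ≤ ε * L := by
  have h1 := Real.isLittleO_log_id_atTop.def hε
  obtain ⟨L₁, hL₁⟩ := Filter.eventually_atTop.mp h1
  refine ⟨max L₁ (max (16 * ((a.natAbs : ℝ) + 1)) (2 / ε)), fun L hL => ?_⟩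
  have h2 : L₁ ≤ L := (le_max_left _ _).trans hL
  have h3 : 16 * ((a.natAbs : ℝ) + 1) ≤ L :=
    (le_max_left _ _).trans ((le_max_right _ _).trans hL)
  have h4 : 2 / ε ≤ L := (le_max_right _ _).trans ((le_max_right _ _).trans hL)
  have h5 : (0 : ℝ) ≤ a.natAbs := Nat.cast_nonneg _
  have h6 : 16 ≤ L := by linarith
  refine ⟨h6, ?_, ?_⟩
  · linarith [Real.add_one_le_exp L]
  · have h7 := hL₁ L h2
    simp only [id, Real.norm_eq_abs] at h7
    rw [abs_of_nonneg (by linarith : (0 : ℝ) ≤ L)] at h7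
    have h8 := (le_abs_self _).trans h7
    rw [div_le_iff₀ hε] at h4
    linarith

end FNAU

open FNAU in
theorem t_FNAU : FnaU := by
  intro a ε ha hε
  obtain ⟨L₀, hL₀⟩ := large a ε hε
  refine ⟨L₀, fun L hL α β t u v hα hαu huv hvβ hβt htL b r x hur hrv hb hx hs => ?_⟩
  obtain ⟨hL16, hLA, hLε⟩ := hL₀ L hL
  set W : ℕ := WW a.natAbs L with hW
  set K : ℕ := ⌊t * (L + 1)⌋₊ + 1 with hK
  set n : ℕ := b + W * x with hn
  have hA0 : (0 : ℝ) ≤ (a.natAbs : ℝ) := Nat.cast_nonneg _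
  obtain ⟨hA1, hA2⟩ := cast_abs a
  have hL0 : 0 < L := by linarith
  have hu0 : 0 < u := by linarith
  have hv0 : 0 < v := by linarith
  have ht0 : 0 < t := by linarith
  have hr1 : 1 ≤ r := by
    have : (0 : ℝ) < r := lt_of_le_of_lt (by positivity) hur
    exact_mod_cast this
  have hr1R : (1 : ℝ) ≤ r := by exact_mod_cast hr1
  -- the prime
  unfold PiL at hx
  rw [Finset.mem_filter] at hx
  obtain ⟨-, hqp, hq1, hq2⟩ := hx
  have hqpos : 0 < qv a r n := hqp.pos
  have hqz : ((qv a r n : ℕ) : ℤ) = a + (r : ℤ) * (n : ℤ) := by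
    unfold qv at hqpos ⊢
    exact Int.toNat_of_nonneg (by omega)
  have hqR : ((qv a r n : ℕ) : ℝ) = (a : ℝ) + (r : ℝ) * (n : ℝ) := by
    have := congrArg (fun z : ℤ => (z : ℝ)) hqz
    push_cast at this
    exact this
  have h1 : (r : ℝ) * Real.exp L < (qv a r n : ℕ) := Nat.lt_of_floor_lt hq1
  have h2 : ((qv a r n : ℕ) : ℝ) ≤ 3 / 2 * ((r : ℝ) * Real.exp L) :=
    (Nat.cast_le.mpr hq2).trans (Nat.floor_le (by positivity))
  have hn1 : Real.exp L - a.natAbs ≤ (n : ℝ) := by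
    by_contra hc
    push Not at hc
    have h3 : (r : ℝ) * n < r * (Real.exp L - a.natAbs) :=
      mul_lt_mul_of_pos_left hc (by linarith)
    nlinarith
  have hn2 : (n : ℝ) ≤ 3 / 2 * Real.exp L + a.natAbs := by
    by_contra hc
    push Not at hc
    have h3 : (r : ℝ) * (3 / 2 * Real.exp L + a.natAbs) < r * n :=
      mul_lt_mul_of_pos_left hc (by linarith)
    nlinarith
  have hE : 0 < Real.exp L := Real.exp_pos _
  -- sizes
  have hsq : Real.sqrt L ≤ Real.exp L / 8 := by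
    have h3 : Real.sqrt L ≤ L := by
      rw [Real.sqrt_le_left (by linarith)]
      nlinarith
    have h4 := Real.quadratic_le_exp_of_nonneg (by linarith : 0 ≤ L)
    nlinarith
  have hex : Real.exp (L / 100) ≤ Real.exp L / 8 := by
    have h3 : Real.exp L = Real.exp (L / 100) * Real.exp (99 * L / 100) := by
      rw [← Real.exp_add]
      congr 1
      ring
    have h4 := Real.add_one_le_exp (99 * L / 100)
    rw [h3]
    nlinarith [Real.exp_pos (L / 100)]
  have hnA : Real.exp L - 2 * a.natAbs ≤ (n : ℝ) - a.natAbs := by linarith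
  have hb1 : (a.natAbs : ℝ) < (n : ℝ) - a.natAbs := by linarith
  have hb2 : Real.sqrt L < (n : ℝ) - a.natAbs := by linarith
  have hb3 : Real.exp (L / 100) < (n : ℝ) - a.natAbs := by linarith
  have hn0 : (0 : ℝ) < n := by linarith
  -- the logarithm of `n`
  have hlo : L - 1 / 10 ≤ Real.log n := by
    rw [Real.le_log_iff_exp_le hn0]
    refine le_trans ?_ hn1
    rw [Real.exp_sub]
    have h3 : (1 : ℝ) + 1 / 10 ≤ Real.exp (1 / 10) := by linarith [Real.add_one_le_exp (1 / 10 : ℝ)]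
    rw [div_le_iff₀ (Real.exp_pos _)]
    nlinarith
  have hhi : Real.log n ≤ L + 1 / 2 := by
    rw [Real.log_le_iff_le_exp hn0]
    refine le_trans hn2 ?_
    rw [Real.exp_add]
    have h3 := Real.quadratic_le_exp_of_nonneg (by norm_num : (0 : ℝ) ≤ 1 / 2)
    nlinarith
  have hlog0 : 0 ≤ Real.log L := Real.log_nonneg (by linarith)
  have hcore := core (a := a) (L := L) (b := b) (r := r) (x := x) (K := K) (W := W) ha hW hb1 hb2
    hb3 hs
  refine ⟨hn1, hn2, ⟨?_, qv a r n, hqp, ?_, ?_, ?_, ?_⟩, ?_⟩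
  · -- coprimality
    by_contra hc
    obtain ⟨p, hp, hp1, hp2⟩ := prime_of_not_coprime hc
    have h3 : (p : ℤ) ∣ ((qv a r n : ℕ) : ℤ) := by
      rw [hqz]
      exact dvd_add hp1 (hp2.mul_left _)
    have h4 := (Nat.prime_dvd_prime_iff_eq hp hqp).mp (Int.natCast_dvd_natCast.mp h3)
    have h5 : p ≤ a.natAbs := Nat.le_of_dvd (Int.natAbs_pos.mpr ha) (Int.natCast_dvd.mp hp1)
    have h6 : ((qv a r n : ℕ) : ℝ) ≤ a.natAbs := by
      rw [← h4]
      exact Nat.cast_le.mpr h5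
    nlinarith
  · rw [hqz]
    have h3 : (a + (r : ℤ) * (n : ℤ)) ≡ a + (r : ℤ) * 0 [ZMOD (n : ℤ)] :=
      Int.ModEq.add_left _ (Int.ModEq.mul_left _ (Int.modEq_zero_iff_dvd.mpr dvd_rfl))
    rwa [mul_zero, add_zero] at h3
  · -- lower bound
    have h3 : α * ((n : ℝ) * Real.log n) ≤ α * (n * (L + 1 / 2)) :=
      mul_le_mul_of_nonneg_left (mul_le_mul_of_nonneg_left hhi hn0.le) hα
    have h4 : u * L * n < r * n := mul_lt_mul_of_pos_right hur hn0
    have h5 : α ≤ Real.log L := by linarith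
    have h6 : 1 ≤ (u - α) * L - α / 2 := by nlinarith
    have h7 : (n : ℝ) * 1 ≤ n * ((u - α) * L - α / 2) := mul_le_mul_of_nonneg_left h6 hn0.le
    rw [hqR]
    nlinarith
  · -- upper bound
    have h3 : β * ((n : ℝ) * (L - 1 / 10)) ≤ β * (n * Real.log n) :=
      mul_le_mul_of_nonneg_left (mul_le_mul_of_nonneg_left hlo hn0.le) (by linarith)
    have h4 : (r : ℝ) * n ≤ v * L * n := mul_le_mul_of_nonneg_right hrv hn0.le
    have h5 : β ≤ Real.log L := by linarith
    have h6 : 1 ≤ (β - v) * L - β / 10 := by nlinarith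
    have h7 : (n : ℝ) * 1 ≤ n * ((β - v) * L - β / 10) := mul_le_mul_of_nonneg_left h6 hn0.le
    rw [hqR]
    nlinarith
  · -- uniqueness
    intro q' hq' hcong hne hle
    have hle' : (q' : ℝ) ≤ t * (n * (L + 1 / 2)) :=
      hle.trans (mul_le_mul_of_nonneg_left (mul_le_mul_of_nonneg_left hhi hn0.le) ht0.le)
    have hq'0 : (0 : ℤ) < q' := by exact_mod_cast hq'.pos
    have hnz : (2 * a.natAbs : ℤ) < n := by
      have h3 : (2 * (a.natAbs : ℝ)) < n := by linarith
      exact_mod_cast h3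
    -- in both cases `± q' = a + k n`
    have hk : ∃ k : ℤ, k ≠ 0 ∧ (a + k * (n : ℤ)).natAbs = q' ∧
        ((a + k * (n : ℤ) = q') ∨ (a + k * (n : ℤ) = -q')) := by
      rcases hcong with hc | hc
      · obtain ⟨k, hk⟩ := hc.symm.dvd
        have h3 : a + k * (n : ℤ) = q' := by linarith
        refine ⟨k, ?_, ?_, Or.inl h3⟩
        · rintro rfl
          apply hne
          omega
        · rw [h3]
          exact Int.natAbs_natCast _
      · obtain ⟨k, hk⟩ := hc.symm.dvd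
        have h3 : a + (-k) * (n : ℤ) = -q' := by linarith
        refine ⟨-k, ?_, ?_, Or.inr h3⟩
        · intro h0
          have h4 : k = 0 := by omega
          subst h4
          apply hne
          omega
        · rw [h3, Int.natAbs_neg]
          exact Int.natAbs_natCast _
    obtain ⟨k, hk0, hkq, hks⟩ := hk
    -- the size of `k`
    have hkK : |k| ≤ K := by
      have h3 : |k| * (n : ℤ) ≤ q' + a.natAbs := by
        have h4 : |k| * (n : ℤ) = |k * n| := by rw [abs_mul, Nat.abs_cast]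
        have h5 : |k * (n : ℤ)| ≤ |a + k * n| + |a| := by
          have h6 := abs_sub (a + k * (n : ℤ)) a
          have h7 : a + k * (n : ℤ) - a = k * n := by ring
          rw [h7] at h6
          exact h6
        rw [h4]
        refine h5.trans ?_
        rw [Int.natCast_natAbs, ← Int.natCast_natAbs (a + k * (n : ℤ)), hkq]
      have h4 : ((|k| : ℤ) : ℝ) * n ≤ q' + a.natAbs := by
        have h4' := (Int.cast_le (R := ℝ)).mpr h3
        rw [Int.cast_mul, Int.cast_add, Int.cast_natCast, Int.cast_natCast,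
          Int.cast_natCast] at h4'
        exact h4'
      have h5 : ((|k| : ℤ) : ℝ) < t * (L + 1) + 1 := by
        by_contra hc
        push Not at hc
        have h6 : (t * (L + 1) + 1) * n ≤ ((|k| : ℤ) : ℝ) * n :=
          mul_le_mul_of_nonneg_right hc hn0.le
        have h7 := mul_pos ht0 hn0
        have h8 := (h6.trans h4).trans (add_le_add_left hle' _)
        have h9 : (t * (L + 1) + 1) * n = t * (n * (L + 1 / 2)) + t * n / 2 + n := by ring
        rw [h9] at h8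
        linarith
      have h6 : t * (L + 1) < (⌊t * (L + 1)⌋₊ : ℝ) + 1 := Nat.lt_floor_add_one _
      have h7 : ((|k| : ℤ) : ℝ) < ((⌊t * (L + 1)⌋₊ + 2 : ℕ) : ℝ) := by
        have h9 : ((⌊t * (L + 1)⌋₊ + 2 : ℕ) : ℝ) = (⌊t * (L + 1)⌋₊ : ℝ) + 2 := by push_cast; ring
        rw [h9]
        linarith
      have h8 : |k| < ((⌊t * (L + 1)⌋₊ + 2 : ℕ) : ℤ) := by exact_mod_cast h7
      rw [hK]
      push_cast at h8 ⊢
      omega
    have hk1 := (abs_le.mp hkK).1
    have hk2 := (abs_le.mp hkK).2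
    by_cases hkr : k = r
    · subst hkr
      rcases hks with h3 | h3
      · have h4 : (q' : ℤ) = (qv a r n : ℕ) := by rw [hqz, ← h3]
        exact_mod_cast h4
      · exfalso
        rw [← hqz] at h3
        omega
    · exact absurd (hkq ▸ hq') (hcore k hk0 hk1 hk2 hkr)
  · -- the other sites
    intro k hk1 hkK hkr hp
    have hkz : ((k : ℕ) : ℤ) ≠ r := by exact_mod_cast hkr
    refine hcore (k : ℤ) (by omega) (by omega) (by exact_mod_cast hkK) hkz ?_
    have h3 : (a + (k : ℤ) * (n : ℤ)).natAbs = qv a k n := by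
      have h4 : 0 < qv a k n := hp.pos
      unfold qv at h4 ⊢
      omega
    rw [h3]
    exact hp

end Pool.Agent.FCT
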