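import Pool.Agent.FCT.St4

/-!
# FNAV: a good `x` gives a good modulus, finite sets of classes (helper85), after FNAU (helper39)
-/

set_option autoImplicit false

namespace Pool.Agent.FCT

open Finset Pool.Agent.Lib_helper9.LG

namespace FNAV

theorem WW_le {m p : ℕ} {L : ℝ} (hp : p.Prime) (h : p ∣ WW m L) : (p : ℝ) ≤ Real.sqrt L := by
  unfold WW at h
  obtain ⟨q, hq, hpq⟩ := (hp.prime.dvd_finsetProd_iff _).mp h
  rw [Finset.mem_filter, Finset.mem_Icc] at hq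
  have h1 := (Nat.prime_dvd_prime_iff_eq hp hq.2.1).mp hpq
  subst h1
  exact (Nat.cast_le.mpr hq.1.2).trans (Nat.floor_le (Real.sqrt_nonneg _))

theorem dvd_WW {p : ℕ} {L : ℝ} (hp : p.Prime) (h : (p : ℝ) ≤ Real.sqrt L) : p ∣ WW 1 L := by
  unfold WW
  refine Finset.dvd_prod_of_mem (fun q : ℕ => q) ?_
  rw [Finset.mem_filter, Finset.mem_Icc]
  exact ⟨⟨hp.one_le, Nat.le_floor h⟩, hp, hp.not_dvd_one⟩

theorem prime_of_not_coprime {x y : ℤ} (h : ¬ IsCoprime x y) :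
    ∃ l : ℕ, l.Prime ∧ (l : ℤ) ∣ x ∧ (l : ℤ) ∣ y := by
  rw [Int.isCoprime_iff_gcd_eq_one] at h
  obtain ⟨l, hl, hd⟩ := Nat.exists_prime_and_dvd h
  have hd' : (l : ℤ) ∣ (Int.gcd x y : ℤ) := Int.natCast_dvd_natCast.mpr hd
  exact ⟨l, hl, hd'.trans (Int.gcd_dvd_left ..), hd'.trans (Int.gcd_dvd_right ..)⟩

theorem cast_abs (a : ℤ) : -(a.natAbs : ℝ) ≤ (a : ℝ) ∧ (a : ℝ) ≤ (a.natAbs : ℝ) := by
  have h : ((a.natAbs : ℕ) : ℝ) = |(a : ℝ)| := by
    rw [← Int.cast_abs, Int.abs_eq_natAbs, Int.cast_natCast]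
  rw [h]
  exact ⟨neg_abs_le _, le_abs_self _⟩

theorem RB_pos {𝓑 : Finset ℤ} (h0 : 0 ∉ 𝓑) : 0 < RB 𝓑 := by
  unfold RB
  refine Finset.prod_pos fun b hb => ?_
  rw [Int.natAbs_pos]
  rintro rfl
  exact h0 hb

theorem dvd_RB {𝓑 : Finset ℤ} {b : ℤ} (hb : b ∈ 𝓑) : b.natAbs ∣ RB 𝓑 :=
  Finset.dvd_prod_of_mem (fun b : ℤ => b.natAbs) hb

theorem le_RB {𝓑 : Finset ℤ} (h0 : 0 ∉ 𝓑) {b : ℤ} (hb : b ∈ 𝓑) : b.natAbs ≤ RB 𝓑 :=
  Nat.le_of_dvd (RB_pos h0) (dvd_RB hb)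

/-- the numbers `b' + k n` at the other sites are not primes -/
theorem core {𝓑 : Finset ℤ} {a : ℤ} {L : ℝ} {b r x K W : ℕ} (h0 : 0 ∉ 𝓑) (hW : W = WW 1 L)
    (hb1 : (RB 𝓑 : ℝ) < ((b + W * x : ℕ) : ℝ) - RB 𝓑)
    (hb2 : Real.sqrt L < ((b + W * x : ℕ) : ℝ) - RB 𝓑)
    (hb3 : Real.exp (L / 100) < ((b + W * x : ℕ) : ℝ) - RB 𝓑)
    (hs : ∀ p ∈ PV 𝓑 a W b r K, ∃ l : ℕ, l.Prime ∧ (l : ℝ) ≤ Real.exp (L / 100) ∧
      (l : ℤ) ∣ p.1 + (p.2 : ℤ) * ((b + W * x : ℕ) : ℤ))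
    (b' : ℤ) (hb' : b' ∈ 𝓑) (k : ℕ) (hk1 : 1 ≤ k) (hk2 : k ≤ K) (hkr : ¬ (b' = a ∧ k = r)) :
    ¬ (b' + (k : ℤ) * ((b + W * x : ℕ) : ℤ)).natAbs.Prime := by
  intro hp
  set n : ℕ := b + W * x with hn
  have hbR := le_RB h0 hb'
  -- the size of the number
  have hsz : (n : ℤ) - RB 𝓑 ≤ ((b' + (k : ℤ) * (n : ℤ)).natAbs : ℤ) := by
    have h3 : (n : ℤ) ≤ (k : ℤ) * n := by
      have : (1 : ℤ) ≤ k := by exact_mod_cast hk1
      nlinarith [(Nat.cast_nonneg n : (0 : ℤ) ≤ n)]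
    omega
  have hszR : (n : ℝ) - RB 𝓑 ≤ (((b' + (k : ℤ) * (n : ℤ)).natAbs : ℕ) : ℝ) := by
    have h8 : n ≤ (b' + (k : ℤ) * (n : ℤ)).natAbs + RB 𝓑 := by omega
    have h9 : (n : ℝ) ≤ (((b' + (k : ℤ) * (n : ℤ)).natAbs + RB 𝓑 : ℕ) : ℝ) := Nat.cast_le.mpr h8
    have h10 := Nat.cast_add (R := ℝ) (b' + (k : ℤ) * (n : ℤ)).natAbs (RB 𝓑)
    linarith
  -- a prime divisor is at least as large
  have key : ∀ l : ℕ, l.Prime → (l : ℤ) ∣ b' + (k : ℤ) * (n : ℤ) → (n : ℝ) - RB 𝓑 ≤ (l : ℝ) := by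
    intro l hl hd
    have h1 : l = (b' + (k : ℤ) * (n : ℤ)).natAbs :=
      (Nat.prime_dvd_prime_iff_eq hl hp).mp (Int.natCast_dvd.mp hd)
    rw [h1]
    exact hszR
  by_cases c1 : IsCoprime b' (k : ℤ)
  · by_cases c2 : IsCoprime (b' + (k : ℤ) * (b : ℤ)) (W : ℤ)
    · have hj1 : (b', k) ∈ PV 𝓑 a W b r K := by
        unfold PV
        rw [Finset.mem_filter, Finset.mem_product, Finset.mem_Icc]
        exact ⟨⟨hb', hk1, hk2⟩, c1, hkr, c2⟩
      obtain ⟨l, hl, hl1, hl2⟩ := hs _ hj1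
      linarith [key l hl hl2]
    · obtain ⟨l, hl, hl1, hl2⟩ := prime_of_not_coprime c2
      have h1 : (l : ℤ) ∣ b' + (k : ℤ) * (n : ℤ) := by
        have h2 : b' + (k : ℤ) * (n : ℤ) = (b' + (k : ℤ) * (b : ℤ)) + (W : ℤ) * (k * x) := by
          rw [hn]
          push_cast
          ring
        rw [h2]
        exact dvd_add hl1 (hl2.mul_right _)
      have h3 : l ∣ WW 1 L := by
        rw [← hW]
        exact Int.natCast_dvd_natCast.mp hl2
      linarith [key l hl h1, WW_le hl h3]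
  · obtain ⟨l, hl, hl1, hl2⟩ := prime_of_not_coprime c1
    have h1 : (l : ℤ) ∣ b' + (k : ℤ) * (n : ℤ) := dvd_add hl1 (hl2.mul_right _)
    have hb0 : b' ≠ 0 := by
      rintro rfl
      exact h0 hb'
    have h2 : l ≤ b'.natAbs := Nat.le_of_dvd (Int.natAbs_pos.mpr hb0) (Int.natCast_dvd.mp hl1)
    have h3 : (l : ℝ) ≤ RB 𝓑 := Nat.cast_le.mpr (h2.trans hbR)
    linarith [key l hl h1]

/-- the conditions on `L` -/
theorem large (R : ℕ) (ε : ℝ) (hε : 0 < ε) : ∃ L₀ : ℝ, ∀ L : ℝ, L₀ ≤ L → 16 ≤ L ∧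
    16 * ((R : ℝ) + 1) ≤ Real.exp L ∧ Real.log L / 2 + 1 ≤ ε * L ∧ (R : ℝ) ≤ Real.sqrt L := by
  have h1 := Real.isLittleO_log_id_atTop.def hε
  obtain ⟨L₁, hL₁⟩ := Filter.eventually_atTop.mp h1
  refine ⟨max L₁ (max (max (16 * ((R : ℝ) + 1)) ((R : ℝ) ^ 2)) (2 / ε)), fun L hL => ?_⟩
  have h2 : L₁ ≤ L := (le_max_left _ _).trans hL
  have h3' : max (16 * ((R : ℝ) + 1)) ((R : ℝ) ^ 2) ≤ L :=
    (le_max_left _ _).trans ((le_max_right _ _).trans hL)
  have h3 : 16 * ((R : ℝ) + 1) ≤ L := (le_max_left _ _).trans h3'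
  have h3b : (R : ℝ) ^ 2 ≤ L := (le_max_right _ _).trans h3'
  have h4 : 2 / ε ≤ L := (le_max_right _ _).trans ((le_max_right _ _).trans hL)
  have h5 : (0 : ℝ) ≤ R := Nat.cast_nonneg _
  have h6 : 16 ≤ L := by linarith
  refine ⟨h6, ?_, ?_, ?_⟩
  · linarith [Real.add_one_le_exp L]
  · have h7 := hL₁ L h2
    simp only [id, Real.norm_eq_abs] at h7
    rw [abs_of_nonneg (by linarith : (0 : ℝ) ≤ L)] at h7
    have h8 := (le_abs_self _).trans h7
    rw [div_le_iff₀ hε] at h4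
    linarith
  · exact Real.le_sqrt_of_sq_le h3b

end FNAV

open FNAV in
theorem t_FNAV : FnaV := by
  intro 𝓑 a ε hB0 haB hε
  have ha : a ≠ 0 := by
    rintro rfl
    exact hB0 haB
  set R : ℕ := RB 𝓑 with hR
  obtain ⟨L₀, hL₀⟩ := large R ε hε
  refine ⟨L₀, fun L hL α β t u v hα hαu huv hvβ hβt htL b r x hur hrv har hb hx hs => ?_⟩
  obtain ⟨hL16, hLA, hLε, hLR⟩ := hL₀ L hL
  set W : ℕ := WW 1 L with hW
  set K : ℕ := ⌊t * (L + 1)⌋₊ + 1 with hK
  set n : ℕ := b + W * x with hn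
  have hR1 : 1 ≤ R := RB_pos hB0
  have hR0 : (1 : ℝ) ≤ (R : ℝ) := by exact_mod_cast hR1
  have haR : (a.natAbs : ℝ) ≤ (R : ℝ) := Nat.cast_le.mpr (le_RB hB0 haB)
  have hA0 : (0 : ℝ) ≤ (a.natAbs : ℝ) := Nat.cast_nonneg _
  obtain ⟨hA1, hA2⟩ := cast_abs a
  have hL0 : 0 < L := by linarith
  have hu0 : 0 < u := by linarith
  have hv0 : 0 < v := by linarith
  have ht0 : 0 < t := by linarith
  have hr1 : 1 ≤ r := by
    have : (0 : ℝ) < r := lt_of_le_of_lt (by positivity) hur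
    exact_mod_cast this
  have hr1R : (1 : ℝ) ≤ r := by exact_mod_cast hr1
  -- the representative
  unfold BV at hb
  rw [Finset.mem_filter] at hb
  obtain ⟨-, -, hbR⟩ := hb
  -- the prime
  unfold PiL at hx
  rw [Finset.mem_filter] at hx
  obtain ⟨-, hqp, hq1, hq2⟩ := hx
  have hqpos : 0 < qv a r n := hqp.pos
  have hqz : ((qv a r n : ℕ) : ℤ) = a + (r : ℤ) * (n : ℤ) := by
    unfold qv at hqpos ⊢
    exact Int.toNat_of_nonneg (by omega)
  have hqR : ((qv a r n : ℕ) : ℝ) = (a : ℝ) + (r : ℝ) * (n : ℝ) := by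
    have := congrArg (fun z : ℤ => (z : ℝ)) hqz
    push_cast at this
    exact this
  have h1 : (r : ℝ) * Real.exp L < (qv a r n : ℕ) := Nat.lt_of_floor_lt hq1
  have h2 : ((qv a r n : ℕ) : ℝ) ≤ 3 / 2 * ((r : ℝ) * Real.exp L) :=
    (Nat.cast_le.mpr hq2).trans (Nat.floor_le (by positivity))
  have hn1 : Real.exp L - a.natAbs ≤ (n : ℝ) := by
    by_contra hc
    push Not at hc
    have h3 : (r : ℝ) * n < r * (Real.exp L - a.natAbs) :=
      mul_lt_mul_of_pos_left hc (by linarith)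
    nlinarith
  have hn2 : (n : ℝ) ≤ 3 / 2 * Real.exp L + a.natAbs := by
    by_contra hc
    push Not at hc
    have h3 : (r : ℝ) * (3 / 2 * Real.exp L + a.natAbs) < r * n :=
      mul_lt_mul_of_pos_left hc (by linarith)
    nlinarith
  have hE : 0 < Real.exp L := Real.exp_pos _
  -- sizes
  have hsq : Real.sqrt L ≤ Real.exp L / 8 := by
    have h3 : Real.sqrt L ≤ L := by
      rw [Real.sqrt_le_left (by linarith)]
      nlinarith
    have h4 := Real.quadratic_le_exp_of_nonneg (by linarith : 0 ≤ L)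
    nlinarith
  have hex : Real.exp (L / 100) ≤ Real.exp L / 8 := by
    have h3 : Real.exp L = Real.exp (L / 100) * Real.exp (99 * L / 100) := by
      rw [← Real.exp_add]
      congr 1
      ring
    have h4 := Real.add_one_le_exp (99 * L / 100)
    rw [h3]
    nlinarith [Real.exp_pos (L / 100)]
  have hnA : Real.exp L - 2 * R ≤ (n : ℝ) - R := by linarith
  have hb1 : (R : ℝ) < (n : ℝ) - R := by linarith
  have hb2 : Real.sqrt L < (n : ℝ) - R := by linarith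
  have hb3 : Real.exp (L / 100) < (n : ℝ) - R := by linarith
  have hn0 : (0 : ℝ) < n := by linarith
  -- the logarithm of `n`
  have hlo : L - 1 / 10 ≤ Real.log n := by
    rw [Real.le_log_iff_exp_le hn0]
    refine le_trans ?_ hn1
    rw [Real.exp_sub]
    have h3 : (1 : ℝ) + 1 / 10 ≤ Real.exp (1 / 10) := by linarith [Real.add_one_le_exp (1 / 10 : ℝ)]
    rw [div_le_iff₀ (Real.exp_pos _)]
    nlinarith
  have hhi : Real.log n ≤ L + 1 / 2 := by
    rw [Real.log_le_iff_le_exp hn0]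
    refine le_trans hn2 ?_
    rw [Real.exp_add]
    have h3 := Real.quadratic_le_exp_of_nonneg (by norm_num : (0 : ℝ) ≤ 1 / 2)
    nlinarith
  have hlog0 : 0 ≤ Real.log L := Real.log_nonneg (by linarith)
  have hcore := core (𝓑 := 𝓑) (a := a) (L := L) (b := b) (r := r) (x := x) (K := K) (W := W) hB0
    hW hb1 hb2 hb3 hs
  refine ⟨hn1, hn2, ⟨?_, qv a r n, hqp, ?_, ?_, ?_, ?_, ?_⟩, ?_⟩
  · -- coprimality
    intro b' hb'
    by_contra hc
    obtain ⟨p, hp, hp1, hp2⟩ := prime_of_not_coprime hc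
    have hb'0 : b' ≠ 0 := by
      rintro rfl
      exact hB0 hb'
    have h4 : p ∣ b'.natAbs := Int.natCast_dvd.mp hp1
    have h5 : p ∣ R := h4.trans (dvd_RB hb')
    have h6 : (p : ℝ) ≤ Real.sqrt L := by
      have h7 : (p : ℝ) ≤ R := Nat.cast_le.mpr (Nat.le_of_dvd hR1 h5)
      linarith
    have h7 : p ∣ W := dvd_WW hp h6
    have h8 : p ∣ n := Int.natCast_dvd_natCast.mp hp2
    have h9 : p ∣ b := (Nat.dvd_add_left (h7.mul_right x)).1 h8
    exact hp.one_lt.ne' (Nat.dvd_one.1 (hbR ▸ Nat.dvd_gcd h9 h5))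
  · -- the prime is not in the set
    intro hc
    have h3 := le_RB hB0 hc
    rw [Int.natAbs_natCast] at h3
    have h4 : ((qv a r n : ℕ) : ℝ) ≤ R := Nat.cast_le.mpr h3
    nlinarith
  · rw [hqz]
    have h3 : (a + (r : ℤ) * (n : ℤ)) ≡ a + (r : ℤ) * 0 [ZMOD (n : ℤ)] :=
      Int.ModEq.add_left _ (Int.ModEq.mul_left _ (Int.modEq_zero_iff_dvd.mpr dvd_rfl))
    rwa [mul_zero, add_zero] at h3
  · -- lower bound
    have h3 : α * ((n : ℝ) * Real.log n) ≤ α * (n * (L + 1 / 2)) :=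
      mul_le_mul_of_nonneg_left (mul_le_mul_of_nonneg_left hhi hn0.le) hα
    have h4 : u * L * n < r * n := mul_lt_mul_of_pos_right hur hn0
    have h5 : α ≤ Real.log L := by linarith
    have h6 : 1 ≤ (u - α) * L - α / 2 := by nlinarith
    have h7 : (n : ℝ) * 1 ≤ n * ((u - α) * L - α / 2) := mul_le_mul_of_nonneg_left h6 hn0.le
    rw [hqR]
    nlinarith
  · -- upper bound
    have h3 : β * ((n : ℝ) * (L - 1 / 10)) ≤ β * (n * Real.log n) :=
      mul_le_mul_of_nonneg_left (mul_le_mul_of_nonneg_left hlo hn0.le) (by linarith)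
    have h4 : (r : ℝ) * n ≤ v * L * n := mul_le_mul_of_nonneg_right hrv hn0.le
    have h5 : β ≤ Real.log L := by linarith
    have h6 : 1 ≤ (β - v) * L - β / 10 := by nlinarith
    have h7 : (n : ℝ) * 1 ≤ n * ((β - v) * L - β / 10) := mul_le_mul_of_nonneg_left h6 hn0.le
    rw [hqR]
    nlinarith
  · -- uniqueness
    intro q' hq' hnB hcong hle
    have hle' : (q' : ℝ) ≤ t * (n * (L + 1 / 2)) :=
      hle.trans (mul_le_mul_of_nonneg_left (mul_le_mul_of_nonneg_left hhi hn0.le) ht0.le)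
    have hq'0 : (0 : ℤ) < q' := by exact_mod_cast hq'.pos
    have hnz : (2 * R : ℤ) < n := by
      have h3 : (2 * (R : ℝ)) < n := by linarith
      exact_mod_cast h3
    obtain ⟨b', hb', hc⟩ := hcong
    have hbR' := le_RB hB0 hb'
    rw [← hR] at hbR'
    obtain ⟨k, hk⟩ := hc.symm.dvd
    have h3 : b' + k * (n : ℤ) = q' := by linarith
    have hk0 : k ≠ 0 := by
      rintro rfl
      apply hnB
      have h4 : (q' : ℤ) = b' := by linarith
      rw [h4]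
      exact hb'
    have hkpos : 0 < k := by
      by_contra hcn
      have h4 : k ≤ -1 := by omega
      have h5 : k * (n : ℤ) ≤ -1 * n := mul_le_mul_of_nonneg_right h4 (by positivity)
      omega
    obtain ⟨k', rfl⟩ := Int.eq_ofNat_of_zero_le hkpos.le
    have hk1 : 1 ≤ k' := by omega
    -- the size of `k`
    have hkK : k' ≤ K := by
      have h4 : (k' : ℤ) * (n : ℤ) ≤ q' + R := by omega
      have h4R : (k' : ℝ) * n ≤ q' + R := by
        have h4' := (Int.cast_le (R := ℝ)).mpr h4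
        push_cast at h4'
        exact h4'
      have h5 : (k' : ℝ) < t * (L + 1) + 1 := by
        by_contra hc
        push Not at hc
        have h6 : (t * (L + 1) + 1) * n ≤ (k' : ℝ) * n :=
          mul_le_mul_of_nonneg_right hc hn0.le
        have h7 := mul_pos ht0 hn0
        have h8 := (h6.trans h4R).trans (add_le_add_left hle' _)
        have h9 : (t * (L + 1) + 1) * n = t * (n * (L + 1 / 2)) + t * n / 2 + n := by ring
        rw [h9] at h8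
        linarith
      have h6 : t * (L + 1) < (⌊t * (L + 1)⌋₊ : ℝ) + 1 := Nat.lt_floor_add_one _
      have h7 : (k' : ℝ) < ((⌊t * (L + 1)⌋₊ + 2 : ℕ) : ℝ) := by
        have h9 : ((⌊t * (L + 1)⌋₊ + 2 : ℕ) : ℝ) = (⌊t * (L + 1)⌋₊ : ℝ) + 2 := by push_cast; ring
        rw [h9]
        linarith
      have h8 : k' < ⌊t * (L + 1)⌋₊ + 2 := by exact_mod_cast h7
      omega
    by_cases hkr : b' = a ∧ k' = r
    · obtain ⟨rfl, rfl⟩ := hkr
      have h4 : (q' : ℤ) = (qv b' k' n : ℕ) := by rw [hqz, ← h3]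
      exact_mod_cast h4
    · refine absurd ?_ (hcore b' hb' k' hk1 hkK hkr)
      rw [h3, Int.natAbs_natCast]
      exact hq'
  · -- the other sites
    intro k hk1 hkK hkr hp
    refine hcore a haB k hk1 hkK (fun h => hkr h.2) ?_
    have h3 : (a + (k : ℤ) * (n : ℤ)).natAbs = qv a k n := by
      have h4 : 0 < qv a k n := hp.pos
      unfold qv at h4 ⊢
      omega
    rw [h3]
    exact hp

end Pool.Agent.FCT
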