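import Mathlib
import Pool.Agent.FCT.St2
import Pool.Agent.IP.FIN

set_option autoImplicit false

/-!
FNAX (project FCT, MP_e1dc24_nt): a good `x` gives a good modulus `n = b + W x`.
-/

namespace Pool.Agent.FCT

open Finset Pool.Agent.Lib_helper9.LG

noncomputable section

namespace FNAX

theorem nodiv {a : ℤ} {W b r K x : ℕ} {L : ℝ}
    (hW : ∀ p : ℕ, p.Prime → p ∣ W → (p : ℝ) ≤ Real.sqrt L)
    (hj : ∀ j ∈ SX a W b r K, ∃ l : ℕ, l.Prime ∧ (l : ℝ) ≤ Real.exp (L / 100) ∧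
      (l : ℤ) ∣ a + ((j : ℤ) - (K : ℕ)) * ((b + W * x : ℕ) : ℤ))
    {j : ℕ} (h1 : j < 2 * K + 1) (h2 : j ≠ K) (h3 : j ≠ K + r) {q' : ℕ} (hq' : q'.Prime)
    (hv : (a + ((j : ℤ) - K) * ((b + W * x : ℕ) : ℤ)).natAbs = q')
    (hb1 : Real.exp (L / 100) < q') (hb2 : Real.sqrt L < q') : False := by
  have key : ∀ l : ℕ, l.Prime → (l : ℝ) < q' →
      ¬ (l : ℤ) ∣ a + ((j : ℤ) - K) * ((b + W * x : ℕ) : ℤ) := by
    intro l hl hlt hd
    have h4 : l ∣ q' := by
      rw [← hv]
      exact Int.natCast_dvd.1 hd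
    have h5 := (Nat.prime_dvd_prime_iff_eq hl hq').1 h4
    rw [h5] at hlt
    exact lt_irrefl _ hlt
  by_cases hc : IsCoprime (a + ((j : ℤ) - K) * (b : ℤ)) (W : ℤ)
  · obtain ⟨l, hl, hle, hd⟩ := hj j (by
      unfold SX
      rw [mem_filter, mem_range]
      exact ⟨h1, h2, h3, hc⟩)
    exact key l hl (hle.trans_lt hb1) hd
  · rw [Int.isCoprime_iff_gcd_eq_one] at hc
    obtain ⟨p, hp, hpd⟩ := Nat.exists_prime_and_dvd hc
    have hp1 : (p : ℤ) ∣ a + ((j : ℤ) - K) * (b : ℤ) :=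
      (Int.natCast_dvd_natCast.2 hpd).trans (Int.gcd_dvd_left _ _)
    have hp2 : (p : ℤ) ∣ (W : ℤ) :=
      (Int.natCast_dvd_natCast.2 hpd).trans (Int.gcd_dvd_right _ _)
    refine key p hp ((hW p hp (Int.natCast_dvd_natCast.1 hp2)).trans_lt hb2) ?_
    have e : a + ((j : ℤ) - K) * ((b + W * x : ℕ) : ℤ) =
        (a + ((j : ℤ) - K) * (b : ℤ)) + (W : ℤ) * (((j : ℤ) - K) * x) := by
      push_cast
      ring
    rw [e]
    exact dvd_add hp1 (hp2.mul_right _)

theorem qv_cast {a : ℤ} {k n : ℕ} (h : (qv a k n).Prime) :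
    ((qv a k n : ℕ) : ℤ) = a + (k : ℤ) * (n : ℤ) := by
  unfold qv at h ⊢
  refine Int.toNat_of_nonneg ?_
  by_contra hcon
  push Not at hcon
  rw [Int.toNat_of_nonpos hcon.le] at h
  exact Nat.not_prime_zero h

end FNAX

open FNAX in
/-- MODULE FNAX -/
theorem t_FNAX : S_FNAX := by
  intro a α β t u v ha hα hαu huv hvβ hβt
  refine ⟨1 + (1 + α / 2) / (u - α) + (1 + β / 10) / (β - v) + 20 * a.natAbs,
    fun L hL b r x hr1 hr2 hb hx hj => ?_⟩
  set K : ℕ := ⌊t * (L + 1)⌋₊ + 1 with hK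
  set W : ℕ := WW a.natAbs L with hWdef
  set A : ℝ := (a.natAbs : ℝ) with hA
  have hA0 : 0 ≤ A := Nat.cast_nonneg _
  have hua : 0 < u - α := by linarith
  have hbv : 0 < β - v := by linarith
  have hu0 : 0 < u := by linarith
  have hβ0 : 0 < β := by linarith
  have ht0 : 0 < t := by linarith
  have hf1 : 0 ≤ (1 + α / 2) / (u - α) := by positivity
  have hf2 : 0 ≤ (1 + β / 10) / (β - v) := by positivity
  have hL1 : 1 ≤ L := by linarith
  have hL0 : 0 < L := by linarith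
  have hLA : 20 * A ≤ L := by linarith
  have hC5 : 1 + α / 2 ≤ (u - α) * L := by
    have h1 : (1 + α / 2) / (u - α) ≤ L := by linarith
    rw [div_le_iff₀ hua] at h1
    linarith
  have hC6 : 1 + β / 10 ≤ (β - v) * L := by
    have h1 : (1 + β / 10) / (β - v) ≤ L := by linarith
    rw [div_le_iff₀ hbv] at h1
    linarith
  have hE := Real.exp_pos L
  have hEL : L + 1 ≤ Real.exp L := Real.add_one_le_exp L
  have hEA : 20 * A ≤ Real.exp L := by linarith
  -- the modulus
  have hW0 : 0 < W := IP.FIN.WW_pos _ _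
  have hWp : ∀ p : ℕ, p.Prime → p ∣ W → (p : ℝ) ≤ Real.sqrt L := fun p hp hd =>
    IP.FIN.WW_prime hp hd
  unfold BX at hb
  rw [mem_filter, mem_Ico] at hb
  obtain ⟨⟨hb1, hb2⟩, hb3⟩ := hb
  set n : ℕ := b + W * x with hn
  have hnA : 2 * a.natAbs + 1 ≤ n := by
    have h1 : 1 * (2 * a.natAbs + 1) ≤ W * (2 * a.natAbs + 1) := Nat.mul_le_mul_right _ hW0
    omega
  have hnA' : 2 * A + 1 ≤ n := by
    rw [hA]
    exact_mod_cast hnA
  have hn0 : (0 : ℝ) < n := by linarith
  -- the prime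
  unfold PiL at hx
  rw [mem_filter] at hx
  obtain ⟨-, hq, hq1, hq2⟩ := hx
  rw [← hn] at hq hq1 hq2
  have hqc := qv_cast hq
  set q : ℕ := qv a r n with hqdef
  have haA : |(a : ℝ)| = A := by
    rw [hA, Nat.cast_natAbs, Int.cast_abs]
  have ha1 : (a : ℝ) ≤ A := haA ▸ le_abs_self _
  have ha2 : -A ≤ (a : ℝ) := by
    rw [← haA]
    exact neg_abs_le _
  have hqR : (q : ℝ) = a + r * n := by
    have := congrArg (Int.cast : ℤ → ℝ) hqc
    push_cast at this
    exact this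
  have hrE : 0 ≤ (r : ℝ) * Real.exp L := by positivity
  have hq1' : (r : ℝ) * Real.exp L < q := Nat.lt_of_floor_lt hq1
  have hq2' : (q : ℝ) ≤ 3 / 2 * ((r : ℝ) * Real.exp L) :=
    (Nat.cast_le.2 hq2).trans (Nat.floor_le (by positivity))
  have hr0 : (0 : ℝ) < r := lt_trans (by positivity) hr1
  have hr1' : (1 : ℝ) ≤ r := by
    have : 0 < r := by exact_mod_cast hr0
    exact_mod_cast this
  have hArA : A ≤ r * A := le_mul_of_one_le_left hA0 hr1'
  have c1 : Real.exp L - A ≤ n := by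
    have h1 : (r : ℝ) * (Real.exp L - A) ≤ r * n := by linarith
    exact le_of_mul_le_mul_left h1 hr0
  have c2 : (n : ℝ) ≤ 3 / 2 * Real.exp L + A := by
    have h1 : (r : ℝ) * n ≤ r * (3 / 2 * Real.exp L + A) := by linarith
    exact le_of_mul_le_mul_left h1 hr0
  -- large numbers
  have hbig : ∀ y : ℝ, (n : ℝ) - A ≤ y → Real.exp (L / 100) < y ∧ Real.sqrt L < y := by
    intro y hy
    have h1 : 9 / 10 * Real.exp L ≤ y := by linarith
    constructor
    · have h2 : Real.exp (L / 100) * Real.exp (99 / 100 * L) = Real.exp L := by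
        rw [← Real.exp_add]
        congr 1
        ring
      have h3 : 99 / 100 * L + 1 ≤ Real.exp (99 / 100 * L) := Real.add_one_le_exp _
      have h4 := Real.exp_pos (L / 100)
      nlinarith
    · have h2 : Real.sqrt L ≤ (L + 1) / 2 := by
        rw [Real.sqrt_le_left (by linarith)]
        nlinarith [sq_nonneg (L - 1)]
      linarith
  -- the last part
  have c4 : ∀ k : ℕ, 1 ≤ k → k ≤ K → k ≠ r → ¬ (qv a k n).Prime := by
    intro k hk1 hk2 hk3 hp
    have h1 := qv_cast hp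
    have h2 : ((qv a k n : ℕ) : ℝ) = a + k * n := by
      have := congrArg (Int.cast : ℤ → ℝ) h1
      push_cast at this
      exact this
    have h3 : (1 : ℝ) ≤ k := by exact_mod_cast hk1
    have h4 : (n : ℝ) ≤ k * n := le_mul_of_one_le_left hn0.le h3
    obtain ⟨h5, h6⟩ := hbig ((qv a k n : ℕ) : ℝ) (by rw [h2]; linarith)
    refine nodiv (j := K + k) hWp hj (by omega) (by omega) (by omega) hp ?_ h5 h6
    have h7 : (((K + k : ℕ) : ℤ) - (K : ℤ)) = k := by push_cast; ring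
    rw [h7, ← h1]
    exact Int.natAbs_natCast _
  -- the other sign
  have c5 : ∀ k : ℕ, 1 ≤ k → k ≤ K → ∀ q' : ℕ, q'.Prime → (q' : ℤ) ≠ -a + k * n := by
    intro k hk1 hk2 q' hp h1
    have h2 : (q' : ℝ) = -a + k * n := by
      have := congrArg (Int.cast : ℤ → ℝ) h1
      push_cast at this
      exact this
    have h3 : (1 : ℝ) ≤ k := by exact_mod_cast hk1
    have h4 : (n : ℝ) ≤ k * n := le_mul_of_one_le_left hn0.le h3
    obtain ⟨h5, h6⟩ := hbig (q' : ℝ) (by rw [h2]; linarith)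
    refine nodiv (j := K - k) hWp hj (by omega) (by omega) (by omega) hp ?_ h5 h6
    have h7 : (((K - k : ℕ) : ℤ) - (K : ℤ)) = -k := by
      rw [Nat.cast_sub hk2]
      ring
    rw [h7]
    have h8 : a + -(k : ℤ) * (n : ℤ) = -(q' : ℤ) := by
      rw [h1]
      ring
    rw [h8, Int.natAbs_neg]
    exact Int.natAbs_natCast _
  -- logarithms
  have hlog1 : Real.log n ≤ L + 1 / 2 := by
    rw [Real.log_le_iff_le_exp hn0, Real.exp_add]
    have h1 := Real.quadratic_le_exp_of_nonneg (show (0 : ℝ) ≤ 1 / 2 by norm_num)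
    have h2 : (31 / 20 : ℝ) ≤ Real.exp (1 / 2) := by linarith
    have h3 : Real.exp L * (31 / 20) ≤ Real.exp L * Real.exp (1 / 2) :=
      mul_le_mul_of_nonneg_left h2 hE.le
    linarith
  have hlog2 : L - 1 / 10 ≤ Real.log n := by
    rw [Real.le_log_iff_exp_le hn0]
    have h1 : Real.exp (L - 1 / 10) * Real.exp (1 / 10) = Real.exp L := by
      rw [← Real.exp_add]
      congr 1
      ring
    have h2 : (1 / 10 : ℝ) + 1 ≤ Real.exp (1 / 10) := Real.add_one_le_exp _
    have h3 := Real.exp_pos (L - 1 / 10)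
    have h4 : Real.exp (L - 1 / 10) * (1 / 10 + 1) ≤ Real.exp L := by
      rw [← h1]
      exact mul_le_mul_of_nonneg_left h2 h3.le
    linarith
  have hlog0 : 0 ≤ Real.log n := by linarith
  refine ⟨c1, c2, ⟨?_, q, hq, ?_, ?_, ?_, ?_⟩, c4⟩
  · -- coprime
    rw [Int.isCoprime_iff_gcd_eq_one]
    by_contra hc
    obtain ⟨p, hp, hpd⟩ := Nat.exists_prime_and_dvd hc
    have hp1 : (p : ℤ) ∣ a := (Int.natCast_dvd_natCast.2 hpd).trans (Int.gcd_dvd_left _ _)
    have hp2 : (p : ℤ) ∣ (n : ℤ) :=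
      (Int.natCast_dvd_natCast.2 hpd).trans (Int.gcd_dvd_right _ _)
    have hp3 : (p : ℤ) ∣ (q : ℤ) := by
      rw [hqc]
      exact dvd_add hp1 (hp2.mul_left _)
    have hp4 : p = q := (Nat.prime_dvd_prime_iff_eq hp hq).1 (Int.natCast_dvd_natCast.1 hp3)
    have hp5 : p ≤ a.natAbs := Nat.le_of_dvd (Int.natAbs_pos.2 ha) (Int.natCast_dvd.1 hp1)
    have hp6 : (q : ℝ) ≤ A := by
      rw [hA, ← hp4]
      exact_mod_cast hp5
    have hp7 : Real.exp L ≤ r * Real.exp L := le_mul_of_one_le_left hE.le hr1'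
    linarith
  · -- congruence
    rw [hqc]
    exact (Int.modEq_iff_dvd.2 ⟨-(r : ℤ), by ring⟩)
  · rw [hqR]
    have h1 : α * (n * Real.log n) ≤ α * (n * (L + 1 / 2)) :=
      mul_le_mul_of_nonneg_left (mul_le_mul_of_nonneg_left hlog1 hn0.le) hα
    have h2 : (u * L) * n < r * n := mul_lt_mul_of_pos_right hr1 hn0
    have h3 : n * (1 + α / 2) ≤ n * ((u - α) * L) := mul_le_mul_of_nonneg_left hC5 hn0.le
    nlinarith
  · rw [hqR]
    have h1 : β * (n * (L - 1 / 10)) ≤ β * (n * Real.log n) :=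
      mul_le_mul_of_nonneg_left (mul_le_mul_of_nonneg_left hlog2 hn0.le) hβ0.le
    have h2 : r * n ≤ (v * L) * n := mul_le_mul_of_nonneg_right hr2 hn0.le
    have h3 : n * (1 + β / 10) ≤ n * ((β - v) * L) := mul_le_mul_of_nonneg_left hC6 hn0.le
    nlinarith
  · -- uniqueness
    intro q' hq' hcong hne hle
    have hub : ∀ k : ℕ, (k : ℝ) * n ≤ q' + A → k ≤ K := by
      intro k hk
      have h1 : t * (n * Real.log n) ≤ t * (n * (L + 1 / 2)) :=
        mul_le_mul_of_nonneg_left (mul_le_mul_of_nonneg_left hlog1 hn0.le) ht0.le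
      have h2 : (k : ℝ) * n ≤ (t * (L + 1) + 1) * n := by nlinarith
      have h3 : (k : ℝ) ≤ t * (L + 1) + 1 := le_of_mul_le_mul_right h2 hn0
      have h4 : k ≤ ⌊t * (L + 1) + 1⌋₊ := Nat.le_floor h3
      rwa [Nat.floor_add_one (by positivity)] at h4
    have hq'0 : (0 : ℤ) < q' := by exact_mod_cast hq'.pos
    have hnI : 2 * (a.natAbs : ℤ) + 1 ≤ n := by exact_mod_cast hnA
    have hposk : ∀ (s : ℤ) (k : ℤ), s.natAbs = a.natAbs → (q' : ℤ) = s + k * n → 1 ≤ k := by
      intro s k hs h1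
      by_contra hcon
      push Not at hcon
      rcases lt_or_eq_of_le (show k ≤ 0 by omega) with h2 | h2
      · have h3 : k * (n : ℤ) ≤ (-1) * n := mul_le_mul_of_nonneg_right (by omega) (by omega)
        omega
      · rw [h2, zero_mul, add_zero] at h1
        apply hne
        rw [← hs, ← h1]
        exact (Int.natAbs_natCast _).symm
    rcases hcong with hcong | hcong
    · obtain ⟨k, hk⟩ := Int.modEq_iff_dvd.1 hcong
      have h1 : (q' : ℤ) = a + (-k) * n := by linarith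
      have h2 := hposk a (-k) rfl h1
      obtain ⟨k', hk'⟩ := Int.eq_ofNat_of_zero_le (show 0 ≤ -k by omega)
      rw [hk'] at h1 h2
      have h3 : 1 ≤ k' := by exact_mod_cast h2
      have h4 : (q' : ℝ) = a + k' * n := by
        have := congrArg (Int.cast : ℤ → ℝ) h1
        push_cast at this
        exact this
      have h5 : k' ≤ K := hub k' (by rw [h4]; linarith)
      have h6 : qv a k' n = q' := by
        unfold qv
        rw [← h1]
        exact Int.toNat_natCast _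
      by_cases h7 : k' = r
      · rw [← h6, h7]
      · exact absurd (h6 ▸ hq') (c4 k' h3 h5 h7)
    · obtain ⟨k, hk⟩ := Int.modEq_iff_dvd.1 hcong
      have h1 : (q' : ℤ) = -a + (-k) * n := by linarith
      have h2 := hposk (-a) (-k) (Int.natAbs_neg a) h1
      obtain ⟨k', hk'⟩ := Int.eq_ofNat_of_zero_le (show 0 ≤ -k by omega)
      rw [hk'] at h1 h2
      have h3 : 1 ≤ k' := by exact_mod_cast h2
      have h4 : (q' : ℝ) = -a + k' * n := by
        have := congrArg (Int.cast : ℤ → ℝ) h1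
        push_cast at this
        exact this
      have h5 : k' ≤ K := hub k' (by rw [h4]; linarith)
      exact absurd h1 (c5 k' h3 h5 q' hq')

end

end Pool.Agent.FCT
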