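import Pool.Agent.FCT.St2
import Pool.Agent.IP.FIN
import Pool.Agent.Lib_helper9.LG.THDd

set_option autoImplicit false

/-!
FNBX: the final assembly for a fixed class.
-/

namespace Pool.Agent.FCT

open Finset Pool.Agent.Lib_helper9.LG
open Pool.Agent.FXD (Bij)

noncomputable section

namespace FNBXx

theorem W_pos (m : ℕ) (L : ℝ) : 0 < WW m L :=
  Finset.prod_pos fun _ hp => (mem_filter.1 hp).2.1.pos

theorem W_le {m : ℕ} {L : ℝ} : ((WW m L : ℕ) : ℝ) ≤ Real.exp (2 * Real.sqrt L) := by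
  have h1 : ((WW m L : ℕ) : ℝ) ≤ (4 : ℝ) ^ ⌊Real.sqrt L⌋₊ := by
    exact_mod_cast THDd.WW_le m L
  have h2 : (4 : ℝ) ≤ Real.exp 2 := by
    have h3 := Real.add_one_le_exp (1 : ℝ)
    have h4 : Real.exp 2 = Real.exp 1 * Real.exp 1 := by
      rw [← Real.exp_add]
      norm_num
    rw [h4]
    nlinarith
  have hs : 0 ≤ Real.sqrt L := Real.sqrt_nonneg L
  calc ((WW m L : ℕ) : ℝ) ≤ (4 : ℝ) ^ ⌊Real.sqrt L⌋₊ := h1
    _ ≤ (Real.exp 2) ^ ⌊Real.sqrt L⌋₊ := by gcongr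
    _ = Real.exp ((⌊Real.sqrt L⌋₊ : ℝ) * 2) := by rw [← Real.exp_nat_mul]
    _ ≤ Real.exp (2 * Real.sqrt L) := by
        apply Real.exp_le_exp.2
        have := Nat.floor_le hs
        linarith

/-- the asymptotic conditions -/
structure Big (m : ℕ) (t v L : ℝ) : Prop where
  one : 1 ≤ L
  vL : v * L ≤ L ^ 2
  iL : (t * (L + 1) + 1) + v * L ≤ L ^ 2
  kL : 2 * (t * (L + 1) + 1) ≤ L ^ 2
  W4 : Real.exp (2 * Real.sqrt L) * (2 * m + 2) ≤ Real.exp (L / 4)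
  v3 : m + L ^ 2 * (3 * Real.exp L) ≤ Real.exp (3 * L)
  lm : Real.log m ≤ L
  q2 : 3 / 2 * (L ^ 2 * Real.exp L) ≤ Real.exp (2 * L)

theorem big (m : ℕ) (t v L : ℝ) (ht : 0 ≤ t) (hv : 0 ≤ v)
    (hL : 400 + 20 * ((m : ℝ) + 1) + 4 * t + 4 * v ≤ L) : Big m t v L := by
  have hm : (0 : ℝ) ≤ m := Nat.cast_nonneg m
  have h1 : 1 ≤ L := by linarith
  have hL0 : 0 < L := by linarith
  have hLt : 4 * t + 8 ≤ L := by linarith
  have hLv : 4 * v + 8 ≤ L := by linarith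
  have e1 : L ≤ Real.exp L := by linarith [Real.add_one_le_exp L]
  have e2 : L ^ 2 / 2 ≤ Real.exp L := by
    have := Real.pow_div_factorial_le_exp L hL0.le 2
    simpa [Nat.factorial] using this
  have e3 : L ^ 3 / 6 ≤ Real.exp L := by
    have := Real.pow_div_factorial_le_exp L hL0.le 3
    simpa [Nat.factorial] using this
  have hE0 : 0 < Real.exp L := Real.exp_pos L
  have e4 : Real.exp (2 * L) = Real.exp L * Real.exp L := by
    rw [← Real.exp_add]; congr 1; ring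
  have e5 : Real.exp (3 * L) = Real.exp L * (Real.exp L * Real.exp L) := by
    rw [← Real.exp_add, ← Real.exp_add]; congr 1; ring
  refine ⟨h1, ?_, ?_, ?_, ?_, ?_, ?_, ?_⟩
  · rw [pow_two]; exact mul_le_mul_of_nonneg_right (by linarith) hL0.le
  · have : t * (L + 1) + 1 + v * L ≤ (2 * t + v + 1) * L := by nlinarith
    refine this.trans ?_
    rw [pow_two]; exact mul_le_mul_of_nonneg_right (by linarith) hL0.le
  · have : 2 * (t * (L + 1) + 1) ≤ (4 * t + 2) * L := by nlinarith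
    refine this.trans ?_
    rw [pow_two]; exact mul_le_mul_of_nonneg_right (by linarith) hL0.le
  · have hs : (20 : ℝ) ≤ Real.sqrt L := by
      rw [show (20 : ℝ) = Real.sqrt (20 ^ 2) by rw [Real.sqrt_sq (by norm_num)]]
      exact Real.sqrt_le_sqrt (by linarith)
    have hs2 : Real.sqrt L * Real.sqrt L = L := Real.mul_self_sqrt hL0.le
    have hs3 : 2 * Real.sqrt L ≤ L / 10 := by nlinarith
    have h5 : (2 * (m : ℝ) + 2) ≤ Real.exp (L / 10) := by
      have := Real.add_one_le_exp (L / 10)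
      linarith
    calc Real.exp (2 * Real.sqrt L) * (2 * m + 2) ≤ Real.exp (L / 10) * Real.exp (L / 10) :=
          mul_le_mul (Real.exp_le_exp.2 hs3) h5 (by positivity) (Real.exp_pos _).le
      _ = Real.exp (L / 10 + L / 10) := (Real.exp_add _ _).symm
      _ ≤ Real.exp (L / 4) := Real.exp_le_exp.2 (by linarith)
  · have h6 : (m : ℝ) ≤ Real.exp L := by linarith
    have h7 : L ^ 2 * (3 * Real.exp L) ≤ 6 * (Real.exp L * Real.exp L) := by
      have h8 : L ^ 2 * (3 * Real.exp L) ≤ (2 * Real.exp L) * (3 * Real.exp L) :=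
        mul_le_mul_of_nonneg_right (by linarith) (by positivity)
      linarith
    have h9 : Real.exp L ≤ Real.exp L * Real.exp L := by
      have : (1 : ℝ) ≤ Real.exp L := by linarith
      nlinarith
    have h10 : 7 * (Real.exp L * Real.exp L) ≤ Real.exp L * (Real.exp L * Real.exp L) :=
      mul_le_mul_of_nonneg_right (by linarith) (by positivity)
    rw [e5]
    linarith
  · rcases Nat.eq_zero_or_pos m with h | h
    · rw [h]; simp; linarith
    · have h' : (0 : ℝ) < m := by exact_mod_cast h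
      have := Real.log_le_sub_one_of_pos h'
      linarith
  · rw [e4]
    have h11 : 3 / 2 * L ^ 2 ≤ Real.exp L := by
      have : 3 / 2 * L ^ 2 ≤ L ^ 3 / 6 := by
        have h12 : 9 * L ^ 2 ≤ L * L ^ 2 := mul_le_mul_of_nonneg_right (by linarith) (by positivity)
        have h13 : L * L ^ 2 = L ^ 3 := by ring
        linarith
      linarith
    calc 3 / 2 * (L ^ 2 * Real.exp L) = (3 / 2 * L ^ 2) * Real.exp L := by ring
      _ ≤ Real.exp L * Real.exp L := mul_le_mul_of_nonneg_right h11 hE0.le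

open Classical in
/-- the engine at one `L` -/
def EngI (a : ℤ) (C₀ c₂ η δ L : ℝ) : Prop :=
  ∀ (b r i : ℕ) (S : Finset ℕ) (σ : ℕ → ℕ), Prog a (WW a.natAbs L) b r L →
  (i : ℝ) ≤ L ^ 2 → (∀ k ∈ S, (k : ℝ) ≤ L ^ 2) → i ∉ S →
  (∀ l : ℕ, l.Prime → L ^ 100 < (l : ℝ) → (l : ℝ) ≤ Real.exp (L / 100) → ¬ l ∣ a.natAbs →
    Bij σ l ∧ ∀ n : ℕ, ((l : ℤ) ∣ a + (r : ℤ) * (n : ℤ) ↔ l ∣ σ n + i * a.natAbs)) →
  (∀ x < M0 L (WW a.natAbs L), ∀ k ∈ S, ∃ v : ℕ, 1 ≤ v ∧ Real.log v ≤ 3 * L ∧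
    ∀ l : ℕ, l.Prime → L ^ 100 < (l : ℝ) → (l : ℝ) ≤ Real.exp (L / 100) → ¬ l ∣ a.natAbs →
      l ∣ σ (b + WW a.natAbs L * x) + k * a.natAbs → l ∣ v) →
  S.card * VS (IP.SPH a.natAbs L (Real.exp (η * L))) 1 ≤ C₀ / η →
  c₂ * (Real.exp L / (WW a.natAbs L).totient) ≤ ThL a r (WW a.natAbs L) b L →
  δ * ThL a r (WW a.natAbs L) b L ≤
    ∑ x ∈ (PiL a r (WW a.natAbs L) b L).filter (fun x => ∀ k ∈ S,
      ∃ l : ℕ, l.Prime ∧ L ^ 100 < (l : ℝ) ∧ (l : ℝ) ≤ Real.exp (L / 100) ∧ ¬ l ∣ a.natAbs ∧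
        l ∣ σ (b + WW a.natAbs L * x) + k * a.natAbs), lwX a r (WW a.natAbs L) b x

theorem mem_BX {a : ℤ} {W r b : ℕ} (h : b ∈ BX a W r) :
    W * (2 * a.natAbs + 1) ≤ b ∧ b < W * (2 * a.natAbs + 2) ∧
      IsCoprime (a + (r : ℤ) * (b : ℤ)) (W : ℤ) := by
  unfold BX at h
  rw [mem_filter, mem_Ico] at h
  exact ⟨h.1.1, h.1.2, h.2⟩

theorem mem_SX {a : ℤ} {W b r K j : ℕ} (h : j ∈ SX a W b r K) :
    j ≤ 2 * K ∧ j ≠ K ∧ j ≠ K + r := by
  unfold SX at h
  rw [mem_filter, mem_range] at h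
  exact ⟨by omega, h.2.1, h.2.2.1⟩

theorem mem_PiL {a : ℤ} {r W b : ℕ} {L : ℝ} {x : ℕ} (h : x ∈ PiL a r W b L) :
    x < M0 L W ∧ (qv a r (b + W * x)).Prime ∧
      ((qv a r (b + W * x) : ℕ) : ℝ) ≤ 3 / 2 * ((r : ℝ) * Real.exp L) := by
  unfold PiL at h
  rw [mem_filter, mem_range] at h
  refine ⟨h.1, h.2.1, ?_⟩
  exact (Nat.cast_le.2 h.2.2.2).trans (Nat.floor_le (by positivity))

theorem progX {a : ℤ} (ha : a ≠ 0) {t v L : ℝ} (hB : Big a.natAbs t v L) {r b : ℕ}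
    (hr0 : 1 ≤ r) (hr2 : (r : ℝ) ≤ v * L) (hcop : IsCoprime a (r : ℤ))
    (hb : b ∈ BX a (WW a.natAbs L) r) : Prog a (WW a.natAbs L) b r L := by
  obtain ⟨h1, h2, h3⟩ := mem_BX hb
  have hW := W_pos a.natAbs L
  refine ⟨hW, W_le, ?_, ?_, h3, hcop, hr0, hr2.trans hB.vL⟩
  · calc 2 * a.natAbs + 1 = 1 * (2 * a.natAbs + 1) := by ring
      _ ≤ WW a.natAbs L * (2 * a.natAbs + 1) := Nat.mul_le_mul_right _ hW
      _ ≤ b := h1
  · have h4 : (b : ℝ) ≤ (WW a.natAbs L : ℝ) * (2 * (a.natAbs : ℝ) + 2) := by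
      exact_mod_cast h2.le
    refine h4.trans (le_trans ?_ hB.W4)
    exact mul_le_mul_of_nonneg_right W_le (by positivity)

theorem pair {a : ℤ} (ha : a ≠ 0) {t v u L : ℝ} (hB : Big a.natAbs t v L) (ht : 0 < t)
    (hu : 0 ≤ u) (hvt : v ≤ t) (hSG : S_SGX) {η δ c₂ C₀ C1 : ℝ}
    (hE : EngI a C₀ c₂ η δ L)
    (hV : C1 * (L * (((WW a.natAbs L).totient : ℝ) / (WW a.natAbs L))) *
      VS (IP.SPH a.natAbs L (Real.exp (η * L))) 1 ≤ C₀ / η)
    {r b K : ℕ} (hK : K = ⌊t * (L + 1)⌋₊ + 1)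
    (hr1 : u * L < (r : ℝ)) (hr2 : (r : ℝ) ≤ v * L) (hcop : IsCoprime a (r : ℤ))
    (hb : b ∈ BX a (WW a.natAbs L) r)
    (hTh : c₂ * (Real.exp L / (WW a.natAbs L).totient) ≤ ThL a r (WW a.natAbs L) b L)
    (hSX : ((SX a (WW a.natAbs L) b r K).card : ℝ) ≤
      C1 * (L * (((WW a.natAbs L).totient : ℝ) / (WW a.natAbs L)))) :
    ∃ G : Finset ℕ, (∀ x ∈ G, x ∈ PiL a r (WW a.natAbs L) b L ∧
      ∀ j ∈ SX a (WW a.natAbs L) b r K, ∃ l : ℕ, l.Prime ∧ (l : ℝ) ≤ Real.exp (L / 100) ∧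
        (l : ℤ) ∣ a + ((j : ℤ) - (K : ℕ)) * ((b + WW a.natAbs L * x : ℕ) : ℤ)) ∧
      δ * ThL a r (WW a.natAbs L) b L ≤ 2 * L * G.card := by
  have hL1 := hB.one
  have hL0 : 0 < L := by linarith
  have hr0 : 1 ≤ r := by
    have h1 : (0 : ℝ) < r := lt_of_le_of_lt (by positivity) hr1
    exact_mod_cast h1
  have hKle : (K : ℝ) ≤ t * (L + 1) + 1 := by
    rw [hK]
    push_cast
    have := Nat.floor_le (show 0 ≤ t * (L + 1) by positivity)
    linarith
  have hrK : r ≤ K := by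
    have h1 : (r : ℝ) ≤ t * (L + 1) := by
      have h2 : v * L ≤ t * L := mul_le_mul_of_nonneg_right hvt hL0.le
      nlinarith
    have h2 := Nat.le_floor h1
    omega
  have hKL : (K : ℝ) ≤ L ^ 2 := by
    have h1 := hB.kL
    have h2 : 0 ≤ t * (L + 1) := by positivity
    linarith
  have hL100 : L ^ 2 ≤ L ^ 100 := pow_le_pow_right₀ hL1 (by norm_num)
  have hP := progX ha hB hr0 hr2 hcop hb
  obtain ⟨σ, hσ⟩ := hSG a K ⌊Real.exp (L / 100)⌋₊ ha
  have hl : ∀ l : ℕ, l.Prime → L ^ 100 < (l : ℝ) → (l : ℝ) ≤ Real.exp (L / 100) →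
      ¬ l ∣ a.natAbs → Bij σ l ∧ ∀ n j : ℕ, j ≤ 2 * K → j ≠ K →
        (l ∣ σ n + j * a.natAbs ↔ (l : ℤ) ∣ a + ((j : ℤ) - K) * (n : ℤ)) := by
    intro l h1 h2 h3 h4
    refine hσ l h1 (Nat.le_floor h3) ?_ h4
    have h5 : (K : ℝ) < l := by linarith
    exact_mod_cast h5
  have hbb := mem_BX hb
  have hW := W_pos a.natAbs L
  have hi : ((K + r : ℕ) : ℝ) ≤ L ^ 2 := by
    push_cast
    have := hB.iL
    linarith
  have hkk : ∀ k ∈ SX a (WW a.natAbs L) b r K, (k : ℝ) ≤ L ^ 2 := by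
    intro k hk
    have h1 := (mem_SX hk).1
    have h2 : (k : ℝ) ≤ 2 * K := by exact_mod_cast h1
    have h3 := hB.kL
    linarith
  have hiS : K + r ∉ SX a (WW a.natAbs L) b r K := by
    intro h
    exact (mem_SX h).2.2 rfl
  have hbij : ∀ l : ℕ, l.Prime → L ^ 100 < (l : ℝ) → (l : ℝ) ≤ Real.exp (L / 100) →
      ¬ l ∣ a.natAbs → Bij σ l ∧ ∀ n : ℕ, ((l : ℤ) ∣ a + (r : ℤ) * (n : ℤ) ↔
        l ∣ σ n + (K + r) * a.natAbs) := by
    intro l h1 h2 h3 h4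
    obtain ⟨h5, h6⟩ := hl l h1 h2 h3 h4
    refine ⟨h5, fun n => ?_⟩
    have h7 := h6 n (K + r) (by omega) (by omega)
    rw [show (((K + r : ℕ) : ℤ) - (K : ℤ)) = (r : ℤ) by push_cast; ring] at h7
    exact h7.symm
  have hvv : ∀ x < M0 L (WW a.natAbs L), ∀ k ∈ SX a (WW a.natAbs L) b r K, ∃ v : ℕ, 1 ≤ v ∧
      Real.log v ≤ 3 * L ∧
      ∀ l : ℕ, l.Prime → L ^ 100 < (l : ℝ) → (l : ℝ) ≤ Real.exp (L / 100) → ¬ l ∣ a.natAbs →
        l ∣ σ (b + WW a.natAbs L * x) + k * a.natAbs → l ∣ v := by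
    intro x hx k hk
    obtain ⟨hk1, hk2, hk3⟩ := mem_SX hk
    set n : ℕ := b + WW a.natAbs L * x with hn
    have hna : a.natAbs < n := by
      have h1 : 2 * a.natAbs + 1 ≤ b := hP.hb1
      omega
    set w : ℤ := a + ((k : ℤ) - K) * (n : ℤ) with hw
    have hw0 : w ≠ 0 := by
      intro h0
      have h1 : ((k : ℤ) - K) * (n : ℤ) = -a := by linarith
      have h2 : ((k : ℤ) - K).natAbs * n = a.natAbs := by
        have := congrArg Int.natAbs h1
        rw [Int.natAbs_mul, Int.natAbs_neg, Int.natAbs_natCast] at this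
        exact this
      have h3 : 1 ≤ ((k : ℤ) - K).natAbs := by
        have : (k : ℤ) - K ≠ 0 := by omega
        exact Int.natAbs_pos.2 this
      have h4 : 1 * n ≤ ((k : ℤ) - K).natAbs * n := Nat.mul_le_mul_right n h3
      omega
    refine ⟨w.natAbs, Int.natAbs_pos.2 hw0, ?_, ?_⟩
    · have h1 : (w.natAbs : ℝ) ≤ Real.exp (3 * L) := by
        refine le_trans ?_ hB.v3
        have h2 : w.natAbs ≤ a.natAbs + ((k : ℤ) - K).natAbs * n := by
          refine (Int.natAbs_add_le _ _).trans ?_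
          rw [Int.natAbs_mul, Int.natAbs_natCast]
        have h3 : ((k : ℤ) - K).natAbs ≤ K := by omega
        have h4 : w.natAbs ≤ a.natAbs + K * n :=
          h2.trans (Nat.add_le_add_left (Nat.mul_le_mul_right n h3) _)
        have h5 : (w.natAbs : ℝ) ≤ a.natAbs + K * n := by exact_mod_cast h4
        refine h5.trans ?_
        have h6 : (n : ℝ) ≤ 3 * Real.exp L := by
          have h7 : (x : ℝ) ≤ 2 * Real.exp L / WW a.natAbs L := by
            have h8 : x ≤ M0 L (WW a.natAbs L) := hx.le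
            refine (Nat.cast_le.2 h8).trans ?_
            unfold M0
            exact Nat.floor_le (by positivity)
          have hWR : (0 : ℝ) < WW a.natAbs L := by exact_mod_cast hW
          have h9 : (WW a.natAbs L : ℝ) * x ≤ 2 * Real.exp L := by
            have := mul_le_mul_of_nonneg_left h7 hWR.le
            rwa [mul_div_cancel₀ _ hWR.ne'] at this
          have h10 := hP.hb2
          have h11 : Real.exp (L / 4) ≤ Real.exp L := Real.exp_le_exp.2 (by linarith)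
          rw [hn]
          push_cast
          linarith
        have h12 : (K : ℝ) * n ≤ L ^ 2 * (3 * Real.exp L) :=
          mul_le_mul hKL h6 (by positivity) (by positivity)
        linarith
      have h2 : (0 : ℝ) < (w.natAbs : ℝ) := by
        exact_mod_cast Int.natAbs_pos.2 hw0
      have h3 := Real.log_le_log h2 h1
      rwa [Real.log_exp] at h3
    · intro l h1 h2 h3 h4 h5
      have h6 := ((hl l h1 h2 h3 h4).2 n k hk1 hk2).1 h5
      exact Int.natCast_dvd.1 h6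
  have hcard : ((SX a (WW a.natAbs L) b r K).card : ℝ) *
      VS (IP.SPH a.natAbs L (Real.exp (η * L))) 1 ≤ C₀ / η :=
    (mul_le_mul_of_nonneg_right hSX (IP.FIN.VS_nonneg _ _ _)).trans hV
  have hE0 := hE b r (K + r) (SX a (WW a.natAbs L) b r K) σ hP hi hkk hiS hbij hvv hcard hTh
  classical
  obtain ⟨G, hGm, hG⟩ := IP.FIN.pack hE0
  refine ⟨G, fun x hx => ?_, ?_⟩
  · obtain ⟨h1, h2⟩ := (hGm x).1 hx
    refine ⟨h1, fun j hj => ?_⟩
    obtain ⟨l, h3, h4, h5, h6, h7⟩ := h2 j hj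
    obtain ⟨hj1, hj2, _⟩ := mem_SX hj
    exact ⟨l, h3, h5, ((hl l h3 h4 h5 h6).2 _ j hj1 hj2).1 h7⟩
  · refine hG.trans ((Finset.sum_le_card_nsmul _ _ (2 * L) ?_).trans (le_of_eq ?_))
    · intro x hx
      obtain ⟨h1, h2, h3⟩ := mem_PiL ((hGm x).1 hx).1
      unfold lwX
      have h4 : ((qv a r (b + WW a.natAbs L * x) : ℕ) : ℝ) ≤ Real.exp (2 * L) := by
        refine h3.trans (le_trans ?_ hB.q2)
        have h5 : (r : ℝ) ≤ L ^ 2 := hr2.trans hB.vL
        have h6 : (r : ℝ) * Real.exp L ≤ L ^ 2 * Real.exp L :=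
          mul_le_mul_of_nonneg_right h5 (Real.exp_pos L).le
        linarith
      have h5 : (0 : ℝ) < ((qv a r (b + WW a.natAbs L * x) : ℕ) : ℝ) := by
        exact_mod_cast h2.pos
      have h6 := Real.log_le_log h5 h4
      rwa [Real.log_exp] at h6
    · rw [nsmul_eq_mul, mul_comm]

end FNBXx

open FNBXx in
theorem t_FNBX : S_FNBX := by
  intro hSG hKV hEng hSel hFNA a α β t ha hα hαβ hβt
  classical
  have hα3 : 0 < (β - α) / 3 := by linarith
  set u : ℝ := α + (β - α) / 3 with hu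
  set v : ℝ := β - (β - α) / 3 with hv
  have hu0 : 0 ≤ u := by linarith
  have hαu : α < u := by linarith
  have huv : u < v := by linarith
  have hvβ : v < β := by linarith
  have hvt : v ≤ t := by linarith
  have ht : 0 < t := by linarith
  have hv0 : 0 ≤ v := by linarith
  obtain ⟨c₁, c₂, C1, hc₁, hc₂, hC1, L₁, hSel⟩ := hSel a u v t ha hu0 huv hvt
  obtain ⟨C, hC, hKV⟩ := hKV
  have hm : 1 ≤ a.natAbs := Int.natAbs_pos.2 ha
  have hmR : (0 : ℝ) < (a.natAbs : ℝ) := by exact_mod_cast hm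
  have hφ : (0 : ℝ) < ((a.natAbs).totient : ℝ) := by exact_mod_cast Nat.totient_pos.2 hm
  have ht' : 0 < C1 * ((a.natAbs : ℝ) / (a.natAbs).totient) := by positivity
  set t' : ℝ := C1 * ((a.natAbs : ℝ) / (a.natAbs).totient) with ht'def
  obtain ⟨η, δ, hη, hδ, L₂, hEng⟩ := hEng a (C * t') c₂ ha (by positivity) hc₂
  obtain ⟨L₃, hKV⟩ := hKV t' η ht' hη 1
  obtain ⟨L₄, hFNA⟩ := hFNA a α β t u v ha hα hαu huv hvβ hβt
  set L₅ : ℝ := 400 + 20 * ((a.natAbs : ℝ) + 1) + 4 * t + 4 * v with hL₅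
  refine ⟨δ * c₁ / 2, by positivity,
    ⌈Real.exp (max (max L₁ L₂) (max (max L₃ L₄) L₅))⌉₊ + (5 * a.natAbs + 5), fun x hx => ?_⟩
  have hxm : 5 * a.natAbs + 5 ≤ x := by omega
  have hxR : (0 : ℝ) < (x : ℝ) + a.natAbs + 1 := by positivity
  set L : ℝ := Real.log ((x : ℝ) + a.natAbs + 1) with hL
  have hexp : Real.exp L = (x : ℝ) + a.natAbs + 1 := Real.exp_log hxR
  have hLmax : max (max L₁ L₂) (max (max L₃ L₄) L₅) ≤ L := by
    rw [hL, Real.le_log_iff_exp_le hxR]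
    have h1 : (⌈Real.exp (max (max L₁ L₂) (max (max L₃ L₄) L₅))⌉₊ : ℝ) ≤ x := by
      exact_mod_cast (show ⌈Real.exp (max (max L₁ L₂) (max (max L₃ L₄) L₅))⌉₊ ≤ x by omega)
    have h2 := Nat.le_ceil (Real.exp (max (max L₁ L₂) (max (max L₃ L₄) L₅)))
    linarith
  have hL1 : L₁ ≤ L := (le_max_left _ _).trans ((le_max_left _ _).trans hLmax)
  have hL2 : L₂ ≤ L := (le_max_right _ _).trans ((le_max_left _ _).trans hLmax)
  have hL3 : L₃ ≤ L :=
    (le_max_left _ _).trans ((le_max_left _ _).trans ((le_max_right _ _).trans hLmax))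
  have hL4 : L₄ ≤ L :=
    (le_max_right _ _).trans ((le_max_left _ _).trans ((le_max_right _ _).trans hLmax))
  have hL5 : L₅ ≤ L := (le_max_right _ _).trans ((le_max_right _ _).trans hLmax)
  have hB : Big a.natAbs t v L := big a.natAbs t v L ht.le hv0 (by rw [← hL₅]; exact hL5)
  have hLpos : 0 < L := by linarith [hB.one]
  have hE : EngI a (C * t') c₂ η δ L := hEng L hL2
  obtain ⟨GP, hGP, hsum⟩ := hSel L hL1
  set K : ℕ := ⌊t * (L + 1)⌋₊ + 1 with hK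
  have hWt : (0 : ℝ) ≤ ((WW a.natAbs L).totient : ℝ) / (WW a.natAbs L) := by positivity
  have hV : C1 * (L * (((WW a.natAbs L).totient : ℝ) / (WW a.natAbs L))) *
      VS (IP.SPH a.natAbs L (Real.exp (η * L))) 1 ≤ C * t' / η := by
    have h1 := hKV L hL3 a.natAbs hm (by
      rw [Nat.cast_one, one_mul]; exact hB.lm) ⌈C1 * L⌉₊ (by
      have h2 : t' * (((a.natAbs).totient : ℝ) / a.natAbs) * L = C1 * L := by
        rw [ht'def]
        field_simp
      rw [h2]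
      exact (Nat.ceil_lt_add_one (by positivity)).le)
    have h3 : C1 * L ≤ (⌈C1 * L⌉₊ : ℝ) := Nat.le_ceil _
    have h4 := IP.FIN.VS_nonneg a.natAbs L (Real.exp (η * L))
    have h5 : C1 * L * ((((WW a.natAbs L).totient : ℝ) / (WW a.natAbs L)) *
        VS (IP.SPH a.natAbs L (Real.exp (η * L))) 1) ≤
        (⌈C1 * L⌉₊ : ℝ) * ((((WW a.natAbs L).totient : ℝ) / (WW a.natAbs L)) *
        VS (IP.SPH a.natAbs L (Real.exp (η * L))) 1) :=
      mul_le_mul_of_nonneg_right h3 (mul_nonneg hWt h4)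
    have h6 : 0 ≤ C1 * L * ((((WW a.natAbs L).totient : ℝ) / (WW a.natAbs L)) *
        VS (IP.SPH a.natAbs L (Real.exp (η * L))) 1) :=
      mul_nonneg (by positivity) (mul_nonneg hWt h4)
    have h7 : C1 * (L * (((WW a.natAbs L).totient : ℝ) / (WW a.natAbs L))) *
        VS (IP.SPH a.natAbs L (Real.exp (η * L))) 1 =
        C1 * L * ((((WW a.natAbs L).totient : ℝ) / (WW a.natAbs L)) *
        VS (IP.SPH a.natAbs L (Real.exp (η * L))) 1) := by ring
    have h8 : 2 * (⌈C1 * L⌉₊ : ℝ) * (((WW a.natAbs L).totient : ℝ) / (WW a.natAbs L)) *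
        VS (IP.SPH a.natAbs L (Real.exp (η * L))) 1 =
        2 * ((⌈C1 * L⌉₊ : ℝ) * ((((WW a.natAbs L).totient : ℝ) / (WW a.natAbs L)) *
        VS (IP.SPH a.natAbs L (Real.exp (η * L))) 1)) := by ring
    rw [h8] at h1
    rw [h7]
    linarith
  have hpair : ∀ p ∈ GP, ∃ G : Finset ℕ, (∀ y ∈ G, y ∈ PiL a p.1 (WW a.natAbs L) p.2 L ∧
      ∀ j ∈ SX a (WW a.natAbs L) p.2 p.1 K, ∃ l : ℕ, l.Prime ∧ (l : ℝ) ≤ Real.exp (L / 100) ∧
        (l : ℤ) ∣ a + ((j : ℤ) - (K : ℕ)) * ((p.2 + WW a.natAbs L * y : ℕ) : ℤ)) ∧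
      δ * ThL a p.1 (WW a.natAbs L) p.2 L ≤ 2 * L * G.card := by
    intro p hp
    obtain ⟨h1, h2, h3, h4, h5, h6⟩ := hGP p hp
    exact pair ha hB ht hu0 hvt hSG hE hV hK h1 h2 h3 h4 h5 h6
  choose! G hG using hpair
  have hgood : ∀ p ∈ GP, ∀ y ∈ G p,
      Real.exp L - a.natAbs ≤ ((p.2 + WW a.natAbs L * y : ℕ) : ℝ) ∧
      ((p.2 + WW a.natAbs L * y : ℕ) : ℝ) ≤ 3 / 2 * Real.exp L + a.natAbs ∧
      Good a α β t (p.2 + WW a.natAbs L * y) ∧
      ∀ k : ℕ, 1 ≤ k → k ≤ K → k ≠ p.1 → ¬ (qv a k (p.2 + WW a.natAbs L * y)).Prime := by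
    intro p hp y hy
    obtain ⟨h1, h2, h3, h4, h5, h6⟩ := hGP p hp
    obtain ⟨h7, h8⟩ := (hG p hp).1 y hy
    exact hFNA L hL4 p.2 p.1 y h1 h2 h4 h7 h8
  set W : ℕ := WW a.natAbs L with hWdef
  have hW : 0 < W := W_pos a.natAbs L
  let cm : (Σ _ : ℕ × ℕ, ℕ) → ℕ := fun τ => τ.1.2 + W * τ.2
  set S := GP.sigma G with hS
  have hmem : ∀ τ ∈ S, τ.1 ∈ GP ∧ τ.2 ∈ G τ.1 := by
    intro τ hτ
    rw [hS, Finset.mem_sigma] at hτ
    exact hτ
  have hinj : Set.InjOn cm (S : Set (Σ _ : ℕ × ℕ, ℕ)) := by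
    rintro ⟨⟨r, b⟩, y⟩ hτ ⟨⟨r', b'⟩, y'⟩ hτ' heq
    obtain ⟨h1, h2⟩ := hmem _ hτ
    obtain ⟨h3, h4⟩ := hmem _ hτ'
    change b + W * y = b' + W * y' at heq
    change y ∈ G (r, b) at h2
    change y' ∈ G (r', b') at h4
    have hb := mem_BX (hGP _ h1).2.2.2.1
    have hb' := mem_BX (hGP _ h3).2.2.2.1
    change W * (2 * a.natAbs + 1) ≤ b ∧ b < W * (2 * a.natAbs + 2) ∧ _ at hb
    change W * (2 * a.natAbs + 1) ≤ b' ∧ b' < W * (2 * a.natAbs + 2) ∧ _ at hb'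
    have hd : ∀ c : ℕ, W * (2 * a.natAbs + 1) ≤ c → c < W * (2 * a.natAbs + 2) →
        c = W * (2 * a.natAbs + 1) + c % W := by
      intro c hc1 hc2
      have h5 : c / W = 2 * a.natAbs + 1 := by
        apply Nat.div_eq_of_lt_le
        · rw [Nat.mul_comm]; exact hc1
        · rw [Nat.mul_comm]; exact hc2
      have h6 := Nat.div_add_mod c W
      rw [h5] at h6
      exact h6.symm
    have hmod : b % W = b' % W := by
      have h5 : (b + W * y) % W = (b' + W * y') % W := by rw [heq]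
      rwa [Nat.add_mul_mod_self_left, Nat.add_mul_mod_self_left] at h5
    have hbb : b = b' := by
      rw [hd b hb.1 hb.2.1, hd b' hb'.1 hb'.2.1, hmod]
    subst hbb
    have hyy : y = y' := by
      have h5 : W * y = W * y' := by omega
      exact Nat.eq_of_mul_eq_mul_left hW h5
    subst hyy
    have hrr : r = r' := by
      by_contra hne
      have h5 := (hgood (r, b) h1 y h2).2.2.2 r'
      have h6 : u * L < (r' : ℝ) := (hGP _ h3).1
      have h7 : (r' : ℝ) ≤ v * L := (hGP _ h3).2.1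
      have h8 : 1 ≤ r' := by
        have h9 : (0 : ℝ) < r' := lt_of_le_of_lt (by positivity) h6
        exact_mod_cast h9
      have h9 : r' ≤ K := by
        have h10 : (r' : ℝ) ≤ t * (L + 1) := by
          have h11 : v * L ≤ t * L := mul_le_mul_of_nonneg_right hvt hLpos.le
          nlinarith
        have h11 := Nat.le_floor h10
        omega
      have h10 := (mem_PiL ((hG _ h3).1 y h4).1).2.1
      exact h5 h8 h9 (Ne.symm hne) h10
    subst hrr
    rfl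
  refine ⟨S.image cm, ?_, ?_, ?_⟩
  · intro n hn
    rw [Finset.mem_image] at hn
    obtain ⟨τ, hτ, rfl⟩ := hn
    obtain ⟨h1, h2⟩ := hmem τ hτ
    obtain ⟨h3, h4, _, _⟩ := hgood τ.1 h1 τ.2 h2
    change Real.exp L - a.natAbs ≤ ((cm τ : ℕ) : ℝ) at h3
    change ((cm τ : ℕ) : ℝ) ≤ 3 / 2 * Real.exp L + a.natAbs at h4
    rw [hexp] at h3 h4
    rw [Finset.mem_Ioc]
    constructor
    · have h5 : ((x : ℕ) : ℝ) < ((cm τ : ℕ) : ℝ) := by linarith
      exact_mod_cast h5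
    · have h6 : (5 * (a.natAbs : ℝ) + 5) ≤ x := by exact_mod_cast hxm
      have h5 : ((cm τ : ℕ) : ℝ) ≤ ((2 * x : ℕ) : ℝ) := by
        push_cast
        linarith
      exact_mod_cast h5
  · intro n hn
    rw [Finset.mem_image] at hn
    obtain ⟨τ, hτ, rfl⟩ := hn
    obtain ⟨h1, h2⟩ := hmem τ hτ
    exact (hgood τ.1 h1 τ.2 h2).2.2.1
  · rw [Finset.card_image_of_injOn hinj, hS, Finset.card_sigma]
    push_cast
    have h1 : δ * ∑ p ∈ GP, ThL a p.1 W p.2 L ≤ 2 * L * ∑ p ∈ GP, ((G p).card : ℝ) := by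
      rw [Finset.mul_sum, Finset.mul_sum]
      exact Finset.sum_le_sum fun p hp => (hG p hp).2
    have h2 : δ * (c₁ * (L * Real.exp L)) ≤ δ * ∑ p ∈ GP, ThL a p.1 W p.2 L :=
      mul_le_mul_of_nonneg_left hsum hδ.le
    have h3 : 2 * L * (δ * c₁ / 2 * Real.exp L) ≤ 2 * L * ∑ p ∈ GP, ((G p).card : ℝ) := by
      refine le_trans (le_of_eq ?_) (h2.trans h1)
      ring
    have h4 := le_of_mul_le_mul_left h3 (by linarith)
    refine le_trans ?_ h4
    apply mul_le_mul_of_nonneg_left _ (by positivity)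
    rw [hexp]
    have h5 : (0 : ℝ) ≤ (a.natAbs : ℝ) := Nat.cast_nonneg _
    linarith

end

end Pool.Agent.FCT
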