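import Pool.Agent.FCT.St3
import Pool.Agent.FCT.FNBX

set_option autoImplicit false

/-!
FNUX: the final assembly for a fixed class, uniform form with absolute constants.
-/

namespace Pool.Agent.FCT

open Finset Pool.Agent.Lib_helper9.LG
open Pool.Agent.FXD (Bij)

noncomputable section

namespace FNUXx

open FNBXx

theorem mem_SU {a : ℤ} {W b r K j : ℕ} (h : j ∈ SU a W b r K) :
    j ≤ 2 * K ∧ j ≠ K ∧ j ≠ K + r := by
  unfold SU at h
  rw [mem_filter, mem_range] at h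
  exact ⟨by omega, h.2.1, h.2.2.1⟩

theorem pairU {a : ℤ} (ha : a ≠ 0) {t v u L : ℝ} (hB : Big a.natAbs t v L) (ht : 0 < t)
    (hu : 0 ≤ u) (hvt : v ≤ t) (hSG : S_SGX) {η δ c₂ C₀ : ℝ}
    (hE : EngI a C₀ c₂ η δ L)
    {r b K : ℕ} (hK : K = ⌊t * (L + 1)⌋₊ + 1)
    (hr1 : u * L < (r : ℝ)) (hr2 : (r : ℝ) ≤ v * L) (hcop : IsCoprime a (r : ℤ))
    (hb : b ∈ BX a (WW a.natAbs L) r)
    (hTh : c₂ * (Real.exp L / (WW a.natAbs L).totient) ≤ ThL a r (WW a.natAbs L) b L)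
    (S : Finset ℕ) (hS : ∀ j ∈ S, j ≤ 2 * K ∧ j ≠ K ∧ j ≠ K + r)
    (hV : (S.card : ℝ) * VS (IP.SPH a.natAbs L (Real.exp (η * L))) 1 ≤ C₀ / η) :
    ∃ G : Finset ℕ, (∀ x ∈ G, x ∈ PiL a r (WW a.natAbs L) b L ∧
      ∀ j ∈ S, ∃ l : ℕ, l.Prime ∧ (l : ℝ) ≤ Real.exp (L / 100) ∧
        (l : ℤ) ∣ a + ((j : ℤ) - (K : ℕ)) * ((b + WW a.natAbs L * x : ℕ) : ℤ)) ∧
      δ * ThL a r (WW a.natAbs L) b L ≤ 2 * L * G.card := by
  have hL1 := hB.one
  have hL0 : 0 < L := by linarith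
  have hr0 : 1 ≤ r := by
    have h1 : (0 : ℝ) < r := lt_of_le_of_lt (by positivity) hr1
    exact_mod_cast h1
  have hKle : (K : ℝ) ≤ t * (L + 1) + 1 := by
    rw [hK]
    push_cast
    have := Nat.floor_le (show 0 ≤ t * (L + 1) by positivity)
    linarith
  have hrK : r ≤ K := by
    have h1 : (r : ℝ) ≤ t * (L + 1) := by
      have h2 : v * L ≤ t * L := mul_le_mul_of_nonneg_right hvt hL0.le
      nlinarith
    have h2 := Nat.le_floor h1
    omega
  have hKL : (K : ℝ) ≤ L ^ 2 := by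
    have h1 := hB.kL
    have h2 : 0 ≤ t * (L + 1) := by positivity
    linarith
  have hL100 : L ^ 2 ≤ L ^ 100 := pow_le_pow_right₀ hL1 (by norm_num)
  have hP := progX ha hB hr0 hr2 hcop hb
  obtain ⟨σ, hσ⟩ := hSG a K ⌊Real.exp (L / 100)⌋₊ ha
  have hl : ∀ l : ℕ, l.Prime → L ^ 100 < (l : ℝ) → (l : ℝ) ≤ Real.exp (L / 100) →
      ¬ l ∣ a.natAbs → Bij σ l ∧ ∀ n j : ℕ, j ≤ 2 * K → j ≠ K →
        (l ∣ σ n + j * a.natAbs ↔ (l : ℤ) ∣ a + ((j : ℤ) - K) * (n : ℤ)) := by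
    intro l h1 h2 h3 h4
    refine hσ l h1 (Nat.le_floor h3) ?_ h4
    have h5 : (K : ℝ) < l := by linarith
    exact_mod_cast h5
  have hbb := mem_BX hb
  have hW := W_pos a.natAbs L
  have hi : ((K + r : ℕ) : ℝ) ≤ L ^ 2 := by
    push_cast
    have := hB.iL
    linarith
  have hkk : ∀ k ∈ S, (k : ℝ) ≤ L ^ 2 := by
    intro k hk
    have h1 := (hS k hk).1
    have h2 : (k : ℝ) ≤ 2 * K := by exact_mod_cast h1
    have h3 := hB.kL
    linarith
  have hiS : K + r ∉ S := by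
    intro h
    exact (hS _ h).2.2 rfl
  have hbij : ∀ l : ℕ, l.Prime → L ^ 100 < (l : ℝ) → (l : ℝ) ≤ Real.exp (L / 100) →
      ¬ l ∣ a.natAbs → Bij σ l ∧ ∀ n : ℕ, ((l : ℤ) ∣ a + (r : ℤ) * (n : ℤ) ↔
        l ∣ σ n + (K + r) * a.natAbs) := by
    intro l h1 h2 h3 h4
    obtain ⟨h5, h6⟩ := hl l h1 h2 h3 h4
    refine ⟨h5, fun n => ?_⟩
    have h7 := h6 n (K + r) (by omega) (by omega)
    rw [show (((K + r : ℕ) : ℤ) - (K : ℤ)) = (r : ℤ) by push_cast; ring] at h7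
    exact h7.symm
  have hvv : ∀ x < M0 L (WW a.natAbs L), ∀ k ∈ S, ∃ v : ℕ, 1 ≤ v ∧
      Real.log v ≤ 3 * L ∧
      ∀ l : ℕ, l.Prime → L ^ 100 < (l : ℝ) → (l : ℝ) ≤ Real.exp (L / 100) → ¬ l ∣ a.natAbs →
        l ∣ σ (b + WW a.natAbs L * x) + k * a.natAbs → l ∣ v := by
    intro x hx k hk
    obtain ⟨hk1, hk2, hk3⟩ := hS k hk
    set n : ℕ := b + WW a.natAbs L * x with hn
    have hna : a.natAbs < n := by
      have h1 : 2 * a.natAbs + 1 ≤ b := hP.hb1
      omega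
    set w : ℤ := a + ((k : ℤ) - K) * (n : ℤ) with hw
    have hw0 : w ≠ 0 := by
      intro h0
      have h1 : ((k : ℤ) - K) * (n : ℤ) = -a := by linarith
      have h2 : ((k : ℤ) - K).natAbs * n = a.natAbs := by
        have := congrArg Int.natAbs h1
        rw [Int.natAbs_mul, Int.natAbs_neg, Int.natAbs_natCast] at this
        exact this
      have h3 : 1 ≤ ((k : ℤ) - K).natAbs := by
        have : (k : ℤ) - K ≠ 0 := by omega
        exact Int.natAbs_pos.2 this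
      have h4 : 1 * n ≤ ((k : ℤ) - K).natAbs * n := Nat.mul_le_mul_right n h3
      omega
    refine ⟨w.natAbs, Int.natAbs_pos.2 hw0, ?_, ?_⟩
    · have h1 : (w.natAbs : ℝ) ≤ Real.exp (3 * L) := by
        refine le_trans ?_ hB.v3
        have h2 : w.natAbs ≤ a.natAbs + ((k : ℤ) - K).natAbs * n := by
          refine (Int.natAbs_add_le _ _).trans ?_
          rw [Int.natAbs_mul, Int.natAbs_natCast]
        have h3 : ((k : ℤ) - K).natAbs ≤ K := by omega
        have h4 : w.natAbs ≤ a.natAbs + K * n :=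
          h2.trans (Nat.add_le_add_left (Nat.mul_le_mul_right n h3) _)
        have h5 : (w.natAbs : ℝ) ≤ a.natAbs + K * n := by exact_mod_cast h4
        refine h5.trans ?_
        have h6 : (n : ℝ) ≤ 3 * Real.exp L := by
          have h7 : (x : ℝ) ≤ 2 * Real.exp L / WW a.natAbs L := by
            have h8 : x ≤ M0 L (WW a.natAbs L) := hx.le
            refine (Nat.cast_le.2 h8).trans ?_
            unfold M0
            exact Nat.floor_le (by positivity)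
          have hWR : (0 : ℝ) < WW a.natAbs L := by exact_mod_cast hW
          have h9 : (WW a.natAbs L : ℝ) * x ≤ 2 * Real.exp L := by
            have := mul_le_mul_of_nonneg_left h7 hWR.le
            rwa [mul_div_cancel₀ _ hWR.ne'] at this
          have h10 := hP.hb2
          have h11 : Real.exp (L / 4) ≤ Real.exp L := Real.exp_le_exp.2 (by linarith)
          rw [hn]
          push_cast
          linarith
        have h12 : (K : ℝ) * n ≤ L ^ 2 * (3 * Real.exp L) :=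
          mul_le_mul hKL h6 (by positivity) (by positivity)
        linarith
      have h2 : (0 : ℝ) < (w.natAbs : ℝ) := by
        exact_mod_cast Int.natAbs_pos.2 hw0
      have h3 := Real.log_le_log h2 h1
      rwa [Real.log_exp] at h3
    · intro l h1 h2 h3 h4 h5
      have h6 := ((hl l h1 h2 h3 h4).2 n k hk1 hk2).1 h5
      exact Int.natCast_dvd.1 h6
  have hE0 := hE b r (K + r) S σ hP hi hkk hiS hbij hvv hV hTh
  classical
  obtain ⟨G, hGm, hG⟩ := IP.FIN.pack hE0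
  refine ⟨G, fun x hx => ?_, ?_⟩
  · obtain ⟨h1, h2⟩ := (hGm x).1 hx
    refine ⟨h1, fun j hj => ?_⟩
    obtain ⟨l, h3, h4, h5, h6, h7⟩ := h2 j hj
    obtain ⟨hj1, hj2, _⟩ := hS j hj
    exact ⟨l, h3, h5, ((hl l h3 h4 h5 h6).2 _ j hj1 hj2).1 h7⟩
  · refine hG.trans ((Finset.sum_le_card_nsmul _ _ (2 * L) ?_).trans (le_of_eq ?_))
    · intro x hx
      obtain ⟨h1, h2, h3⟩ := mem_PiL ((hGm x).1 hx).1
      unfold lwX
      have h4 : ((qv a r (b + WW a.natAbs L * x) : ℕ) : ℝ) ≤ Real.exp (2 * L) := by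
        refine h3.trans (le_trans ?_ hB.q2)
        have h5 : (r : ℝ) ≤ L ^ 2 := hr2.trans hB.vL
        have h6 : (r : ℝ) * Real.exp L ≤ L ^ 2 * Real.exp L :=
          mul_le_mul_of_nonneg_right h5 (Real.exp_pos L).le
        linarith
      have h5 : (0 : ℝ) < ((qv a r (b + WW a.natAbs L * x) : ℕ) : ℝ) := by
        exact_mod_cast h2.pos
      have h6 := Real.log_le_log h5 h4
      rwa [Real.log_exp] at h6
    · rw [nsmul_eq_mul, mul_comm]

/-- the logarithm is small -/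
theorem log_small {L : ℝ} (hL : 256 ≤ L) : 4 * Real.log L ≤ L / 2 := by
  have h0 : 0 < L := by linarith
  have hs : 0 < Real.sqrt L := Real.sqrt_pos.2 h0
  have h1 : Real.log L = 2 * Real.log (Real.sqrt L) := by
    rw [Real.log_sqrt h0.le]
    ring
  have h2 := Real.log_le_sub_one_of_pos hs
  have h3 : (16 : ℝ) ≤ Real.sqrt L := by
    rw [show (16 : ℝ) = Real.sqrt (16 ^ 2) by rw [Real.sqrt_sq (by norm_num)]]
    exact Real.sqrt_le_sqrt (by linarith)
  have h4 : Real.sqrt L * Real.sqrt L = L := Real.mul_self_sqrt h0.le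
  have h5 : 16 * Real.sqrt L ≤ Real.sqrt L * Real.sqrt L :=
    mul_le_mul_of_nonneg_right h3 hs.le
  rw [h1]
  linarith

/-- the constant -/
theorem const_le {κ' c₁ t : ℝ} (hκ : 1 ≤ κ') (hc : 0 < c₁) (ht : 1 ≤ t) :
    Real.exp (-Real.exp ((κ' + |Real.log (6 / c₁)|) * t)) ≤
      c₁ / 6 * Real.exp (-Real.exp (κ' * t)) := by
  have h1 : c₁ / 6 * Real.exp (-Real.exp (κ' * t)) =
      Real.exp (-(Real.exp (κ' * t) + Real.log (6 / c₁))) := by
    rw [neg_add, Real.exp_add, Real.exp_neg (Real.log (6 / c₁)),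
      Real.exp_log (by positivity), inv_div]
    ring
  rw [h1]
  apply Real.exp_le_exp.2
  have h2 : Real.exp ((κ' + |Real.log (6 / c₁)|) * t) =
      Real.exp (κ' * t) * Real.exp (|Real.log (6 / c₁)| * t) := by
    rw [add_mul, Real.exp_add]
  have h3 : |Real.log (6 / c₁)| * t + 1 ≤ Real.exp (|Real.log (6 / c₁)| * t) :=
    Real.add_one_le_exp _
  have h4 : 1 ≤ Real.exp (κ' * t) := Real.one_le_exp (by positivity)
  have h5 : |Real.log (6 / c₁)| ≤ |Real.log (6 / c₁)| * t :=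
    le_mul_of_one_le_right (abs_nonneg _) ht
  have h6 := le_abs_self (Real.log (6 / c₁))
  have h7 : 0 ≤ |Real.log (6 / c₁)| := abs_nonneg _
  have h8 : Real.exp (κ' * t) * (|Real.log (6 / c₁)| + 1) ≤
      Real.exp (κ' * t) * Real.exp (|Real.log (6 / c₁)| * t) :=
    mul_le_mul_of_nonneg_left (by linarith) (by linarith)
  have h9 : 1 * |Real.log (6 / c₁)| ≤ Real.exp (κ' * t) * |Real.log (6 / c₁)| :=
    mul_le_mul_of_nonneg_right h4 h7
  rw [h2]
  linarith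

end FNUXx

open FNBXx FNUXx in
theorem t_FNUX : S_FNUX := by
  intro hSG hKV hEng hSel hFNA
  classical
  obtain ⟨c₁, c₂, C1, hc₁, hc₂, hC1, hSel⟩ := hSel
  obtain ⟨C, hC, L₀, hKV⟩ := hKV
  obtain ⟨κ, hκ, hEng⟩ := hEng c₂ hc₂
  obtain ⟨A0, hA0⟩ : ∃ A0 : ℝ, A0 = C * (C1 + 1) + 1 := ⟨_, rfl⟩
  have hA01 : 1 ≤ A0 := by
    have : 0 < C * (C1 + 1) := by positivity
    linarith
  obtain ⟨κ', hκ'⟩ : ∃ κ' : ℝ, κ' = κ * A0 := ⟨_, rfl⟩
  have hκ'1 : 1 ≤ κ' := by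
    rw [hκ']
    exact one_le_mul_of_one_le_of_one_le hκ hA01
  obtain ⟨Cs, hCs⟩ : ∃ Cs : ℝ, Cs = κ' + |Real.log (6 / c₁)| := ⟨_, rfl⟩
  have hCsk : κ' ≤ Cs := by
    have := abs_nonneg (Real.log (6 / c₁))
    linarith
  have hCs1 : 1 ≤ Cs := hκ'1.trans hCsk
  refine ⟨1 / (2 * Cs), Cs, by positivity, by linarith, ?_, fun a ε ha hε => ?_⟩
  · rw [div_mul_eq_mul_div, one_mul, div_le_div_iff₀ (by linarith) (by norm_num)]
    linarith
  obtain ⟨L₁, hSel⟩ := hSel a (ε / 3) ha (by positivity)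
  obtain ⟨L₂, hEng⟩ := hEng a ha
  obtain ⟨L₄, hFNA⟩ := hFNA a (ε ^ 2 / 3) ha (by positivity)
  have hm : 1 ≤ a.natAbs := Int.natAbs_pos.2 ha
  have hmR : (0 : ℝ) < (a.natAbs : ℝ) := by exact_mod_cast hm
  have hφ : (0 : ℝ) < ((a.natAbs).totient : ℝ) := by exact_mod_cast Nat.totient_pos.2 hm
  obtain ⟨L₅, hL₅⟩ : ∃ L₅ : ℝ, L₅ = 800 + 40 * ((a.natAbs : ℝ) + 1) := ⟨_, rfl⟩
  refine ⟨⌈Real.exp (max (max L₁ L₂) (max (max L₀ L₄) L₅))⌉₊ + (5 * a.natAbs + 5),
    fun x hx t α β ht1 htc hα hαβ hεβ hβt => ?_⟩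
  have hxm : 5 * a.natAbs + 5 ≤ x := by omega
  have hxR : (0 : ℝ) < (x : ℝ) + a.natAbs + 1 := by positivity
  set L : ℝ := Real.log ((x : ℝ) + a.natAbs + 1) with hL
  have hexp : Real.exp L = (x : ℝ) + a.natAbs + 1 := Real.exp_log hxR
  have hLmax : max (max L₁ L₂) (max (max L₀ L₄) L₅) ≤ L := by
    rw [hL, Real.le_log_iff_exp_le hxR]
    have h1 : (⌈Real.exp (max (max L₁ L₂) (max (max L₀ L₄) L₅))⌉₊ : ℝ) ≤ x := by
      exact_mod_cast (show ⌈Real.exp (max (max L₁ L₂) (max (max L₀ L₄) L₅))⌉₊ ≤ x by omega)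
    have h2 := Nat.le_ceil (Real.exp (max (max L₁ L₂) (max (max L₀ L₄) L₅)))
    linarith
  have hL1 : L₁ ≤ L := (le_max_left _ _).trans ((le_max_left _ _).trans hLmax)
  have hL2 : L₂ ≤ L := (le_max_right _ _).trans ((le_max_left _ _).trans hLmax)
  have hL3 : L₀ ≤ L :=
    (le_max_left _ _).trans ((le_max_left _ _).trans ((le_max_right _ _).trans hLmax))
  have hL4 : L₄ ≤ L :=
    (le_max_right _ _).trans ((le_max_left _ _).trans ((le_max_right _ _).trans hLmax))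
  have hL5 : L₅ ≤ L := (le_max_right _ _).trans ((le_max_right _ _).trans hLmax)
  rw [hL₅] at hL5
  have hLpos : 0 < L := by linarith
  have hlogL : 0 ≤ Real.log L := Real.log_nonneg (by linarith)
  have ht : 0 < t := by linarith
  -- the window
  have hβ : 0 < β := by linarith
  have hγ : ε * β ≤ β - α := by linarith
  have hγ2 : ε ^ 2 ≤ β - α := by
    have h1 : ε * ε ≤ ε * β := mul_le_mul_of_nonneg_left hεβ hε.le
    have h2 : ε ^ 2 = ε * ε := by ring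
    linarith
  have hγ0 : 0 < β - α := lt_of_lt_of_le (by positivity) hγ2
  set u : ℝ := α + (β - α) / 3 with hu
  set v : ℝ := β - (β - α) / 3 with hv
  have hu0 : 0 ≤ u := by linarith
  have huv : u < v := by linarith
  have hvβ : v ≤ β := by linarith
  have hvt : v ≤ t := by linarith
  have hv0 : 0 ≤ v := by linarith
  have huv3 : u ≤ (1 - ε / 3) * v := by
    have h1 : ε / 3 * v ≤ ε / 3 * β := mul_le_mul_of_nonneg_left hvβ (by positivity)
    have h2 : (1 - ε / 3) * v = v - ε / 3 * v := by ring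
    rw [h2]
    linarith
  have hv3 : ε / 3 ≤ v := by linarith
  -- the bounds of `t`
  have hx5 : (5 : ℝ) ≤ x := by exact_mod_cast (show 5 ≤ x by omega)
  have hlx : 0 < Real.log x := Real.log_pos (by linarith)
  have hloglog : Real.log (Real.log x) ≤ Real.log L := by
    refine Real.log_le_log hlx ?_
    rw [hL]
    exact Real.log_le_log (by linarith) (by linarith)
  have hCt : Cs * t ≤ 1 / 2 * Real.log L := by
    have h1 := mul_le_mul_of_nonneg_left htc (show 0 ≤ Cs by linarith)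
    have h2 : Cs * (1 / (2 * Cs) * Real.log (Real.log x)) = 1 / 2 * Real.log (Real.log x) := by
      field_simp
    rw [h2] at h1
    linarith
  have hkt : κ' * t ≤ 1 / 2 * Real.log L :=
    (mul_le_mul_of_nonneg_right hCsk ht.le).trans hCt
  have htL' : t ≤ 1 / 2 * Real.log L := by
    have h1 : 1 * t ≤ κ' * t := mul_le_mul_of_nonneg_right hκ'1 ht.le
    linarith
  have htlog : t ≤ Real.log L := by linarith
  have hlsm := log_small (show 256 ≤ L by linarith)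
  have hB : Big a.natAbs t v L := big a.natAbs t v L ht.le hv0 (by linarith)
  -- the engine
  obtain ⟨C₀, hC₀⟩ : ∃ C₀ : ℝ, C₀ = A0 * t := ⟨_, rfl⟩
  have hC₀1 : 1 ≤ C₀ := by
    rw [hC₀]
    exact one_le_mul_of_one_le_of_one_le hA01 ht1
  have hκC : κ * C₀ = κ' * t := by rw [hC₀, hκ']; ring
  obtain ⟨η, hη, hηL, hE⟩ := hEng L hL2 C₀ hC₀1 (by rw [hκC]; linarith)
  rw [hκC] at hE
  obtain ⟨δ, hδdef⟩ : ∃ δ : ℝ, δ = Real.exp (-Real.exp (κ' * t)) := ⟨_, rfl⟩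
  have hδ : 0 < δ := by rw [hδdef]; exact Real.exp_pos _
  rw [← hδdef] at hE
  have hE : EngI a C₀ c₂ η δ L := hE
  obtain ⟨GP, hGP, hsum⟩ := hSel L hL1 u v t hu0 huv3 hv3 hvt ht1 htlog
  set K : ℕ := ⌊t * (L + 1)⌋₊ + 1 with hK
  obtain ⟨ph, hph⟩ : ∃ ph : ℝ, ph = ((a.natAbs).totient : ℝ) / a.natAbs := ⟨_, rfl⟩
  rw [← hph] at hsum hGP
  have hph0 : 0 < ph := by rw [hph]; positivity
  have hWt : (0 : ℝ) ≤ ((WW a.natAbs L).totient : ℝ) / (WW a.natAbs L) := by positivity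
  have hV : C1 * ((ph * (t * L)) * (((WW a.natAbs L).totient : ℝ) / (WW a.natAbs L))) *
      VS (IP.SPH a.natAbs L (Real.exp (η * L))) 1 ≤ C₀ / η := by
    have ht' : 1 ≤ (C1 + 1) * t := one_le_mul_of_one_le_of_one_le (by linarith) ht1
    have h1 := hKV L hL3 ((C1 + 1) * t) η ht' hη hηL 1 (by push_cast; linarith) a.natAbs hm (by
      rw [Nat.cast_one, one_mul]; exact hB.lm) ⌈C1 * (ph * (t * L))⌉₊ (by
      have h2 : ((⌈C1 * (ph * (t * L))⌉₊ : ℕ) : ℝ) ≤ C1 * (ph * (t * L)) + 1 :=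
        (Nat.ceil_lt_add_one (by positivity)).le
      have h3 : 0 ≤ ph * (t * L) := by positivity
      rw [← hph]
      linarith)
    have h3 : C1 * (ph * (t * L)) ≤ (⌈C1 * (ph * (t * L))⌉₊ : ℝ) := Nat.le_ceil _
    have h4 := IP.FIN.VS_nonneg a.natAbs L (Real.exp (η * L))
    have h5 : C1 * (ph * (t * L)) * ((((WW a.natAbs L).totient : ℝ) / (WW a.natAbs L)) *
        VS (IP.SPH a.natAbs L (Real.exp (η * L))) 1) ≤
        (⌈C1 * (ph * (t * L))⌉₊ : ℝ) * ((((WW a.natAbs L).totient : ℝ) / (WW a.natAbs L)) *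
        VS (IP.SPH a.natAbs L (Real.exp (η * L))) 1) :=
      mul_le_mul_of_nonneg_right h3 (mul_nonneg hWt h4)
    have h6 : 0 ≤ C1 * (ph * (t * L)) * ((((WW a.natAbs L).totient : ℝ) / (WW a.natAbs L)) *
        VS (IP.SPH a.natAbs L (Real.exp (η * L))) 1) :=
      mul_nonneg (by positivity) (mul_nonneg hWt h4)
    have h7 : C1 * ((ph * (t * L)) * (((WW a.natAbs L).totient : ℝ) / (WW a.natAbs L))) *
        VS (IP.SPH a.natAbs L (Real.exp (η * L))) 1 =
        C1 * (ph * (t * L)) * ((((WW a.natAbs L).totient : ℝ) / (WW a.natAbs L)) *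
        VS (IP.SPH a.natAbs L (Real.exp (η * L))) 1) := by ring
    have h8 : 2 * (⌈C1 * (ph * (t * L))⌉₊ : ℝ) *
        (((WW a.natAbs L).totient : ℝ) / (WW a.natAbs L)) *
        VS (IP.SPH a.natAbs L (Real.exp (η * L))) 1 =
        2 * ((⌈C1 * (ph * (t * L))⌉₊ : ℝ) * ((((WW a.natAbs L).totient : ℝ) / (WW a.natAbs L)) *
        VS (IP.SPH a.natAbs L (Real.exp (η * L))) 1)) := by ring
    have h9 : C * ((C1 + 1) * t) / η ≤ C₀ / η := by
      refine div_le_div_of_nonneg_right ?_ hη.le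
      have h10 : C₀ = C * ((C1 + 1) * t) + t := by rw [hC₀, hA0]; ring
      linarith
    rw [h8] at h1
    rw [h7]
    linarith
  have hpair : ∀ p ∈ GP, ∃ G : Finset ℕ, (∀ y ∈ G, y ∈ PiL a p.1 (WW a.natAbs L) p.2 L ∧
      ∀ j ∈ SU a (WW a.natAbs L) p.2 p.1 K, ∃ l : ℕ, l.Prime ∧ (l : ℝ) ≤ Real.exp (L / 100) ∧
        (l : ℤ) ∣ a + ((j : ℤ) - (K : ℕ)) * ((p.2 + WW a.natAbs L * y : ℕ) : ℤ)) ∧
      δ * ThL a p.1 (WW a.natAbs L) p.2 L ≤ 2 * L * G.card := by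
    intro p hp
    obtain ⟨h1, h2, h3, h4, h5, h6⟩ := hGP p hp
    exact pairU ha hB ht hu0 hvt hSG hE hK h1 h2 h3 h4 h5 (SU a (WW a.natAbs L) p.2 p.1 K)
      (fun j hj => mem_SU hj)
      ((mul_le_mul_of_nonneg_right h6 (IP.FIN.VS_nonneg _ _ _)).trans hV)
  choose! G hG using hpair
  have hgood : ∀ p ∈ GP, ∀ y ∈ G p,
      Real.exp L - a.natAbs ≤ ((p.2 + WW a.natAbs L * y : ℕ) : ℝ) ∧
      ((p.2 + WW a.natAbs L * y : ℕ) : ℝ) ≤ 3 / 2 * Real.exp L + a.natAbs ∧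
      Good a α β t (p.2 + WW a.natAbs L * y) ∧
      ∀ k : ℕ, 1 ≤ k → k ≤ K → k ≠ p.1 → ¬ (qv a k (p.2 + WW a.natAbs L * y)).Prime := by
    intro p hp y hy
    obtain ⟨h1, h2, h3, h4, h5, h6⟩ := hGP p hp
    obtain ⟨h7, h8⟩ := (hG p hp).1 y hy
    exact hFNA L hL4 α β t u v hα (by linarith) huv (by linarith) hβt htlog p.2 p.1 y
      h1 h2 h4 h7 h8
  set W : ℕ := WW a.natAbs L with hWdef
  have hW : 0 < W := W_pos a.natAbs L
  let cm : (Σ _ : ℕ × ℕ, ℕ) → ℕ := fun τ => τ.1.2 + W * τ.2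
  set S := GP.sigma G with hS
  have hmem : ∀ τ ∈ S, τ.1 ∈ GP ∧ τ.2 ∈ G τ.1 := by
    intro τ hτ
    rw [hS, Finset.mem_sigma] at hτ
    exact hτ
  have hinj : Set.InjOn cm (S : Set (Σ _ : ℕ × ℕ, ℕ)) := by
    rintro ⟨⟨r, b⟩, y⟩ hτ ⟨⟨r', b'⟩, y'⟩ hτ' heq
    obtain ⟨h1, h2⟩ := hmem _ hτ
    obtain ⟨h3, h4⟩ := hmem _ hτ'
    change b + W * y = b' + W * y' at heq
    change y ∈ G (r, b) at h2
    change y' ∈ G (r', b') at h4
    have hb := mem_BX (hGP _ h1).2.2.2.1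
    have hb' := mem_BX (hGP _ h3).2.2.2.1
    change W * (2 * a.natAbs + 1) ≤ b ∧ b < W * (2 * a.natAbs + 2) ∧ _ at hb
    change W * (2 * a.natAbs + 1) ≤ b' ∧ b' < W * (2 * a.natAbs + 2) ∧ _ at hb'
    have hd : ∀ c : ℕ, W * (2 * a.natAbs + 1) ≤ c → c < W * (2 * a.natAbs + 2) →
        c = W * (2 * a.natAbs + 1) + c % W := by
      intro c hc1 hc2
      have h5 : c / W = 2 * a.natAbs + 1 := by
        apply Nat.div_eq_of_lt_le
        · rw [Nat.mul_comm]; exact hc1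
        · rw [Nat.mul_comm]; exact hc2
      have h6 := Nat.div_add_mod c W
      rw [h5] at h6
      exact h6.symm
    have hmod : b % W = b' % W := by
      have h5 : (b + W * y) % W = (b' + W * y') % W := by rw [heq]
      rwa [Nat.add_mul_mod_self_left, Nat.add_mul_mod_self_left] at h5
    have hbb : b = b' := by
      rw [hd b hb.1 hb.2.1, hd b' hb'.1 hb'.2.1, hmod]
    subst hbb
    have hyy : y = y' := by
      have h5 : W * y = W * y' := by omega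
      exact Nat.eq_of_mul_eq_mul_left hW h5
    subst hyy
    have hrr : r = r' := by
      by_contra hne
      have h5 := (hgood (r, b) h1 y h2).2.2.2 r'
      have h6 : u * L < (r' : ℝ) := (hGP _ h3).1
      have h7 : (r' : ℝ) ≤ v * L := (hGP _ h3).2.1
      have h8 : 1 ≤ r' := by
        have h9 : (0 : ℝ) < r' := lt_of_le_of_lt (by positivity) h6
        exact_mod_cast h9
      have h9 : r' ≤ K := by
        have h10 : (r' : ℝ) ≤ t * (L + 1) := by
          have h11 : v * L ≤ t * L := mul_le_mul_of_nonneg_right hvt hLpos.le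
          nlinarith
        have h11 := Nat.le_floor h10
        omega
      have h10 := (mem_PiL ((hG _ h3).1 y h4).1).2.1
      exact h5 h8 h9 (Ne.symm hne) h10
    subst hrr
    rfl
  refine ⟨S.image cm, ?_, ?_, ?_⟩
  · intro n hn
    rw [Finset.mem_image] at hn
    obtain ⟨τ, hτ, rfl⟩ := hn
    obtain ⟨h1, h2⟩ := hmem τ hτ
    obtain ⟨h3, h4, _, _⟩ := hgood τ.1 h1 τ.2 h2
    change Real.exp L - a.natAbs ≤ ((cm τ : ℕ) : ℝ) at h3
    change ((cm τ : ℕ) : ℝ) ≤ 3 / 2 * Real.exp L + a.natAbs at h4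
    rw [hexp] at h3 h4
    rw [Finset.mem_Ioc]
    constructor
    · have h5 : ((x : ℕ) : ℝ) < ((cm τ : ℕ) : ℝ) := by linarith
      exact_mod_cast h5
    · have h6 : (5 * (a.natAbs : ℝ) + 5) ≤ x := by exact_mod_cast hxm
      have h5 : ((cm τ : ℕ) : ℝ) ≤ ((2 * x : ℕ) : ℝ) := by
        push_cast
        linarith
      exact_mod_cast h5
  · intro n hn
    rw [Finset.mem_image] at hn
    obtain ⟨τ, hτ, rfl⟩ := hn
    obtain ⟨h1, h2⟩ := hmem τ hτ
    exact (hgood τ.1 h1 τ.2 h2).2.2.1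
  · rw [Finset.card_image_of_injOn hinj, hS, Finset.card_sigma]
    push_cast
    have h1 : δ * ∑ p ∈ GP, ThL a p.1 W p.2 L ≤ 2 * L * ∑ p ∈ GP, ((G p).card : ℝ) := by
      rw [Finset.mul_sum, Finset.mul_sum]
      exact Finset.sum_le_sum fun p hp => (hG p hp).2
    have h2 : δ * (c₁ * (ph * ((v - u) * (L * Real.exp L)))) ≤
        δ * ∑ p ∈ GP, ThL a p.1 W p.2 L :=
      mul_le_mul_of_nonneg_left hsum hδ.le
    have hvu : v - u = (β - α) / 3 := by rw [hu, hv]; ring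
    have h3 : 2 * L * (c₁ / 6 * δ * (β - α) * (ph * Real.exp L)) ≤
        2 * L * ∑ p ∈ GP, ((G p).card : ℝ) := by
      refine le_trans (le_of_eq ?_) (h2.trans h1)
      rw [hvu]
      ring
    have h4 := le_of_mul_le_mul_left h3 (by linarith)
    refine le_trans ?_ h4
    rw [← hph]
    have h5 : Real.exp (-Real.exp (Cs * t)) ≤ c₁ / 6 * δ := by
      rw [hCs, hδdef]
      exact const_le hκ'1 hc₁ ht1
    have h6 : (0 : ℝ) ≤ (a.natAbs : ℝ) := Nat.cast_nonneg _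
    have h7 : ph * (x : ℝ) ≤ ph * Real.exp L := by
      refine mul_le_mul_of_nonneg_left ?_ hph0.le
      rw [hexp]
      linarith
    exact mul_le_mul (mul_le_mul_of_nonneg_right h5 hγ0.le) h7 (by positivity) (by positivity)

end

end Pool.Agent.FCT
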