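import Pool.Agent.FCT.St4
import Pool.Agent.FCT.FNUX

set_option autoImplicit false

/-!
FNUV: the final assembly for a finite set of classes, uniform form with absolute constants (helper92).
-/

namespace Pool.Agent.FCT

open Finset Pool.Agent.Lib_helper9.LG
open Pool.Agent.FXD (Bij)

noncomputable section

namespace FNUVx

open FNBXx FNUXx

open Classical in
/-- the engine at one `L`, `m = 1` -/
def EngJ (a : ℤ) (C₀ c₂ η δ L : ℝ) : Prop :=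
  ∀ (b r i : ℕ) (S : Finset ℕ) (σ : ℕ → ℕ), Prog a (WW 1 L) b r L →
  (i : ℝ) ≤ L ^ 2 → (∀ k ∈ S, (k : ℝ) ≤ L ^ 2) → i ∉ S →
  (∀ l : ℕ, l.Prime → L ^ 100 < (l : ℝ) → (l : ℝ) ≤ Real.exp (L / 100) →
    Bij σ l ∧ ∀ n : ℕ, ((l : ℤ) ∣ a + (r : ℤ) * (n : ℤ) ↔ l ∣ σ n + i)) →
  (∀ x < M0 L (WW 1 L), ∀ k ∈ S, ∃ v : ℕ, 1 ≤ v ∧ Real.log v ≤ 3 * L ∧
    ∀ l : ℕ, l.Prime → L ^ 100 < (l : ℝ) → (l : ℝ) ≤ Real.exp (L / 100) →
      l ∣ σ (b + WW 1 L * x) + k → l ∣ v) →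
  S.card * VS (IP.SPH 1 L (Real.exp (η * L))) 1 ≤ C₀ / η →
  c₂ * (Real.exp L / (WW 1 L).totient) ≤ ThL a r (WW 1 L) b L →
  δ * ThL a r (WW 1 L) b L ≤
    ∑ x ∈ (PiL a r (WW 1 L) b L).filter (fun x => ∀ k ∈ S,
      ∃ l : ℕ, l.Prime ∧ L ^ 100 < (l : ℝ) ∧ (l : ℝ) ≤ Real.exp (L / 100) ∧
        l ∣ σ (b + WW 1 L * x) + k), lwX a r (WW 1 L) b x

theorem mem_BV {a : ℤ} {R W r b : ℕ} (h : b ∈ BV a R W r) :
    W * (2 * R + 1) ≤ b ∧ b < W * (2 * R + 2) ∧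
      IsCoprime (a + (r : ℤ) * (b : ℤ)) (W : ℤ) ∧ b.Coprime R := by
  unfold BV at h
  rw [mem_filter, mem_Ico] at h
  exact ⟨h.1.1, h.1.2, h.2.1, h.2.2⟩

theorem mem_PV {𝓑 : Finset ℤ} {a : ℤ} {W b r K : ℕ} {p : ℤ × ℕ} (h : p ∈ PV 𝓑 a W b r K) :
    p.1 ∈ 𝓑 ∧ 1 ≤ p.2 ∧ p.2 ≤ K ∧ IsCoprime p.1 (p.2 : ℤ) ∧ ¬ (p.1 = a ∧ p.2 = r) := by
  unfold PV at h
  rw [mem_filter, mem_product, mem_Icc] at h
  exact ⟨h.1.1, h.1.2.1, h.1.2.2, h.2.1, h.2.2.1⟩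

theorem RB_pos {𝓑 : Finset ℤ} (h0 : 0 ∉ 𝓑) : 1 ≤ RB 𝓑 := by
  refine Nat.pos_of_ne_zero (Finset.prod_ne_zero_iff.2 fun b hb => ?_)
  rw [Ne, Int.natAbs_eq_zero]
  rintro rfl
  exact h0 hb

theorem natAbs_le_RB {𝓑 : Finset ℤ} (h0 : 0 ∉ 𝓑) {b : ℤ} (hb : b ∈ 𝓑) : b.natAbs ≤ RB 𝓑 :=
  Nat.le_of_dvd (RB_pos h0) (Finset.dvd_prod_of_mem (fun b : ℤ => b.natAbs) hb)

theorem mul_div_RB {𝓑 : Finset ℤ} {b : ℤ} (hb : b ∈ 𝓑) :
    b * ((RB 𝓑 : ℤ) / b) = (RB 𝓑 : ℤ) := by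
  refine Int.mul_ediv_cancel' ?_
  rw [← Int.natAbs_dvd]
  exact_mod_cast (Finset.dvd_prod_of_mem (fun b : ℤ => b.natAbs) hb : b.natAbs ∣ RB 𝓑)

theorem abs_div_RB {𝓑 : Finset ℤ} (h0 : 0 ∉ 𝓑) {b : ℤ} (hb : b ∈ 𝓑) :
    |(RB 𝓑 : ℤ) / b| ≤ (RB 𝓑 : ℤ) := by
  have h1 := mul_div_RB hb
  have h2 : 1 ≤ |b| := Int.one_le_abs (fun h => h0 (h ▸ hb))
  have h3 : |b| * |(RB 𝓑 : ℤ) / b| = (RB 𝓑 : ℤ) := by
    rw [← abs_mul, h1, abs_of_nonneg (Int.natCast_nonneg _)]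
  have h4 : 0 ≤ |(RB 𝓑 : ℤ) / b| := abs_nonneg _
  calc |(RB 𝓑 : ℤ) / b| = 1 * |(RB 𝓑 : ℤ) / b| := (one_mul _).symm
    _ ≤ |b| * |(RB 𝓑 : ℤ) / b| := mul_le_mul_of_nonneg_right h2 h4
    _ = (RB 𝓑 : ℤ) := h3

/-- the site as an integer -/
theorem jV_eq {𝓑 : Finset ℤ} (h0 : 0 ∉ 𝓑) {K k : ℕ} {b : ℤ} (hb : b ∈ 𝓑) (hk : k ≤ K) :
    (k : ℤ) * |(RB 𝓑 : ℤ) / b| ≤ ((K * RB 𝓑 : ℕ) : ℤ) ∧
    ((jV (RB 𝓑) (K * RB 𝓑) (b, k) : ℕ) : ℤ) =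
      ((K * RB 𝓑 : ℕ) : ℤ) + (k : ℤ) * ((RB 𝓑 : ℤ) / b) ∧
    jV (RB 𝓑) (K * RB 𝓑) (b, k) ≤ 2 * (K * RB 𝓑) := by
  have h1 := abs_div_RB h0 hb
  have h2 : (k : ℤ) * |(RB 𝓑 : ℤ) / b| ≤ ((K * RB 𝓑 : ℕ) : ℤ) := by
    push_cast
    exact mul_le_mul (by exact_mod_cast hk) h1 (abs_nonneg _) (Int.natCast_nonneg _)
  have h3 : |(k : ℤ) * ((RB 𝓑 : ℤ) / b)| ≤ ((K * RB 𝓑 : ℕ) : ℤ) := by
    rw [abs_mul, abs_of_nonneg (Int.natCast_nonneg k)]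
    exact h2
  obtain ⟨h4, h5⟩ := abs_le.1 h3
  have h6 : ((jV (RB 𝓑) (K * RB 𝓑) (b, k) : ℕ) : ℤ) =
      ((K * RB 𝓑 : ℕ) : ℤ) + (k : ℤ) * ((RB 𝓑 : ℤ) / b) := by
    unfold jV
    rw [Int.toNat_of_nonneg]
    change 0 ≤ ((K * RB 𝓑 : ℕ) : ℤ) + (k : ℤ) * ((RB 𝓑 : ℤ) / b)
    linarith
  refine ⟨h2, h6, ?_⟩
  have h7 : ((jV (RB 𝓑) (K * RB 𝓑) (b, k) : ℕ) : ℤ) ≤ ((2 * (K * RB 𝓑) : ℕ) : ℤ) := by
    rw [h6]
    push_cast at h5 ⊢
    linarith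
  exact_mod_cast h7

/-- different sites have different numbers -/
theorem jV_inj {𝓑 : Finset ℤ} (h0 : 0 ∉ 𝓑) {K k r : ℕ} {a b : ℤ} (ha : a ∈ 𝓑) (hb : b ∈ 𝓑)
    (hk1 : 1 ≤ k) (hk : k ≤ K) (_ : 1 ≤ r) (hr : r ≤ K) (hbk : IsCoprime b (k : ℤ))
    (har : IsCoprime a (r : ℤ))
    (h : jV (RB 𝓑) (K * RB 𝓑) (b, k) = jV (RB 𝓑) (K * RB 𝓑) (a, r)) : b = a ∧ k = r := by
  have h1 := (jV_eq h0 hb hk).2.1
  have h2 := (jV_eq h0 ha hr).2.1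
  rw [h, h2] at h1
  have h3 : (r : ℤ) * ((RB 𝓑 : ℤ) / a) = (k : ℤ) * ((RB 𝓑 : ℤ) / b) := by linarith
  have ha' := mul_div_RB ha
  have hb' := mul_div_RB hb
  have hR : ((RB 𝓑 : ℕ) : ℤ) ≠ 0 := by
    have := RB_pos h0
    exact_mod_cast (show RB 𝓑 ≠ 0 by omega)
  have h4 : (RB 𝓑 : ℤ) * ((r : ℤ) * b) = (RB 𝓑 : ℤ) * ((k : ℤ) * a) := by
    calc (RB 𝓑 : ℤ) * ((r : ℤ) * b) = (a * ((RB 𝓑 : ℤ) / a)) * ((r : ℤ) * b) := by rw [ha']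
      _ = a * b * ((r : ℤ) * ((RB 𝓑 : ℤ) / a)) := by ring
      _ = a * b * ((k : ℤ) * ((RB 𝓑 : ℤ) / b)) := by rw [h3]
      _ = (b * ((RB 𝓑 : ℤ) / b)) * ((k : ℤ) * a) := by ring
      _ = (RB 𝓑 : ℤ) * ((k : ℤ) * a) := by rw [hb']
  have h5 : (r : ℤ) * b = (k : ℤ) * a := mul_left_cancel₀ hR h4
  have h6 : (k : ℤ) ∣ (r : ℤ) := by
    refine hbk.symm.dvd_of_dvd_mul_right ?_
    rw [h5]
    exact Dvd.intro _ rfl
  have h7 : (r : ℤ) ∣ (k : ℤ) := by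
    refine har.symm.dvd_of_dvd_mul_right ?_
    rw [← h5]
    exact Dvd.intro _ rfl
  have h8 : k = r := Nat.dvd_antisymm (by exact_mod_cast h6) (by exact_mod_cast h7)
  refine ⟨?_, h8⟩
  rw [h8] at h5
  have hr0 : (r : ℤ) ≠ 0 := by exact_mod_cast (show r ≠ 0 by omega)
  exact mul_left_cancel₀ hr0 h5

theorem progV {𝓑 : Finset ℤ} {a : ℤ} (h0 : 0 ∉ 𝓑) (ha : a ∈ 𝓑) {t v L : ℝ}
    (hB : Big (RB 𝓑) t v L) {r b : ℕ}
    (hr0 : 1 ≤ r) (hr2 : (r : ℝ) ≤ v * L) (hcop : IsCoprime a (r : ℤ))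
    (hb : b ∈ BV a (RB 𝓑) (WW 1 L) r) : Prog a (WW 1 L) b r L := by
  obtain ⟨h1, h2, h3, _⟩ := mem_BV hb
  have hW := W_pos 1 L
  have haR := natAbs_le_RB h0 ha
  refine ⟨hW, W_le, ?_, ?_, h3, hcop, hr0, hr2.trans hB.vL⟩
  · calc 2 * a.natAbs + 1 ≤ 1 * (2 * RB 𝓑 + 1) := by omega
      _ ≤ WW 1 L * (2 * RB 𝓑 + 1) := Nat.mul_le_mul_right _ hW
      _ ≤ b := h1
  · have h4 : (b : ℝ) ≤ (WW 1 L : ℝ) * (2 * (RB 𝓑 : ℝ) + 2) := by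
      exact_mod_cast h2.le
    refine h4.trans (le_trans ?_ hB.W4)
    exact mul_le_mul_of_nonneg_right W_le (by positivity)

theorem pairV {𝓑 : Finset ℤ} {a : ℤ} (h0 : 0 ∉ 𝓑) (ha : a ∈ 𝓑) {t v u L : ℝ}
    (hB : Big (RB 𝓑) (2 * t * RB 𝓑) v L) (ht : 1 ≤ t)
    (hu : 0 ≤ u) (hvt : v ≤ t) (hSG : S_SGB) {η δ c₂ C₀ : ℝ}
    (hE : EngJ a C₀ c₂ η δ L)
    {r b K : ℕ} (hK : K = ⌊t * (L + 1)⌋₊ + 1)
    (hr1 : u * L < (r : ℝ)) (hr2 : (r : ℝ) ≤ v * L) (hcop : IsCoprime a (r : ℤ))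
    (hb : b ∈ BV a (RB 𝓑) (WW 1 L) r)
    (hTh : c₂ * (Real.exp L / (WW 1 L).totient) ≤ ThL a r (WW 1 L) b L)
    (hV : ((PV 𝓑 a (WW 1 L) b r K).card : ℝ) * VS (IP.SPH 1 L (Real.exp (η * L))) 1 ≤ C₀ / η) :
    ∃ G : Finset ℕ, (∀ x ∈ G, x ∈ PiL a r (WW 1 L) b L ∧
      ∀ p ∈ PV 𝓑 a (WW 1 L) b r K, ∃ l : ℕ, l.Prime ∧ (l : ℝ) ≤ Real.exp (L / 100) ∧
        (l : ℤ) ∣ p.1 + (p.2 : ℤ) * ((b + WW 1 L * x : ℕ) : ℤ)) ∧
      δ * ThL a r (WW 1 L) b L ≤ 2 * L * G.card := by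
  classical
  have hL1 := hB.one
  have hL0 : 0 < L := by linarith
  have hR := RB_pos h0
  have hRR : (1 : ℝ) ≤ (RB 𝓑 : ℝ) := by exact_mod_cast hR
  have hr0 : 1 ≤ r := by
    have h1 : (0 : ℝ) < r := lt_of_le_of_lt (by positivity) hr1
    exact_mod_cast h1
  have hKle : (K : ℝ) ≤ t * (L + 1) + 1 := by
    rw [hK]
    push_cast
    have := Nat.floor_le (show 0 ≤ t * (L + 1) by positivity)
    linarith
  have hrK : r ≤ K := by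
    have h1 : (r : ℝ) ≤ t * (L + 1) := by
      have h2 : v * L ≤ t * L := mul_le_mul_of_nonneg_right hvt hL0.le
      nlinarith
    have h2 := Nat.le_floor h1
    omega
  have hKR : 2 * ((K : ℝ) * RB 𝓑) ≤ L ^ 2 := by
    have h1 := hB.kL
    have h2 : (K : ℝ) ≤ 2 * t * (L + 1) := by
      have h3 : 1 * 1 ≤ t * (L + 1) := mul_le_mul ht (by linarith) (by norm_num) (by linarith)
      linarith
    have h3 : (K : ℝ) * RB 𝓑 ≤ 2 * t * (L + 1) * RB 𝓑 :=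
      mul_le_mul_of_nonneg_right h2 (by positivity)
    have h4 : 2 * t * (L + 1) * (RB 𝓑 : ℝ) = 2 * t * RB 𝓑 * (L + 1) := by ring
    linarith
  have hKL : (K : ℝ) ≤ L ^ 2 := by
    have h1 : (K : ℝ) * 1 ≤ (K : ℝ) * RB 𝓑 := mul_le_mul_of_nonneg_left hRR (Nat.cast_nonneg _)
    have h2 : (0 : ℝ) ≤ (K : ℝ) * RB 𝓑 := by positivity
    linarith
  have hL100 : L ^ 2 ≤ L ^ 100 := pow_le_pow_right₀ hL1 (by norm_num)
  have hP := progV h0 ha hB hr0 hr2 hcop hb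
  obtain ⟨σ, hσ⟩ := hSG (RB 𝓑) (K * RB 𝓑) ⌊Real.exp (L / 100)⌋₊ hR
  have hl : ∀ l : ℕ, l.Prime → L ^ 100 < (l : ℝ) → (l : ℝ) ≤ Real.exp (L / 100) →
      Bij σ l ∧ ∀ (n : ℕ) (p : ℤ × ℕ), p.1 ∈ 𝓑 → 1 ≤ p.2 → p.2 ≤ K →
        (l ∣ σ n + jV (RB 𝓑) (K * RB 𝓑) p ↔ (l : ℤ) ∣ p.1 + (p.2 : ℤ) * (n : ℤ)) := by
    intro l h1 h2 h3
    have h5 : ((K * RB 𝓑 : ℕ) : ℝ) < l := by
      push_cast
      have : (0 : ℝ) ≤ (K : ℝ) * RB 𝓑 := by positivity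
      linarith
    have h6 : K * RB 𝓑 < l := by exact_mod_cast h5
    have h7 : ¬ l ∣ RB 𝓑 := by
      intro h8
      have h9 := Nat.le_of_dvd hR h8
      have h10 : 1 * RB 𝓑 ≤ K * RB 𝓑 := Nat.mul_le_mul_right _ (by omega)
      omega
    obtain ⟨h8, h9⟩ := hσ l h1 (Nat.le_floor h3) h6 h7
    refine ⟨h8, fun n p hp1 hp2 hp3 => ?_⟩
    obtain ⟨h10, h11, _⟩ := jV_eq h0 hp1 hp3
    exact h9 n _ p.2 p.1 _ (mul_div_RB hp1) hp2 h10 h11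
  have hbb := mem_BV hb
  have hW := W_pos 1 L
  have hjL : ∀ p : ℤ × ℕ, p.1 ∈ 𝓑 → p.2 ≤ K →
      ((jV (RB 𝓑) (K * RB 𝓑) p : ℕ) : ℝ) ≤ L ^ 2 := by
    intro p h1 h2
    have h3 := (jV_eq h0 h1 h2).2.2
    have h4 : ((jV (RB 𝓑) (K * RB 𝓑) p : ℕ) : ℝ) ≤ ((2 * (K * RB 𝓑) : ℕ) : ℝ) := by
      exact_mod_cast h3
    refine h4.trans ?_
    push_cast
    linarith
  set S : Finset ℕ := (PV 𝓑 a (WW 1 L) b r K).image (jV (RB 𝓑) (K * RB 𝓑)) with hS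
  have hSm : ∀ k ∈ S, ∃ p ∈ PV 𝓑 a (WW 1 L) b r K, jV (RB 𝓑) (K * RB 𝓑) p = k := by
    intro k hk
    rw [hS, Finset.mem_image] at hk
    exact hk
  have hkk : ∀ k ∈ S, (k : ℝ) ≤ L ^ 2 := by
    intro k hk
    obtain ⟨p, hp, rfl⟩ := hSm k hk
    obtain ⟨h1, h2, h3, _⟩ := mem_PV hp
    exact hjL p h1 h3
  have hi := hjL (a, r) ha hrK
  have hiS : jV (RB 𝓑) (K * RB 𝓑) (a, r) ∉ S := by
    intro h
    obtain ⟨p, hp, hpe⟩ := hSm _ h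
    obtain ⟨h1, h2, h3, h4, h5⟩ := mem_PV hp
    exact h5 (jV_inj h0 ha h1 h2 h3 hr0 hrK h4 hcop hpe)
  have hbij : ∀ l : ℕ, l.Prime → L ^ 100 < (l : ℝ) → (l : ℝ) ≤ Real.exp (L / 100) →
      Bij σ l ∧ ∀ n : ℕ, ((l : ℤ) ∣ a + (r : ℤ) * (n : ℤ) ↔
        l ∣ σ n + jV (RB 𝓑) (K * RB 𝓑) (a, r)) := by
    intro l h1 h2 h3
    obtain ⟨h5, h6⟩ := hl l h1 h2 h3
    exact ⟨h5, fun n => (h6 n (a, r) ha hr0 hrK).symm⟩
  have hvv : ∀ x < M0 L (WW 1 L), ∀ k ∈ S, ∃ v : ℕ, 1 ≤ v ∧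
      Real.log v ≤ 3 * L ∧
      ∀ l : ℕ, l.Prime → L ^ 100 < (l : ℝ) → (l : ℝ) ≤ Real.exp (L / 100) →
        l ∣ σ (b + WW 1 L * x) + k → l ∣ v := by
    intro x hx k hk
    obtain ⟨p, hp, rfl⟩ := hSm k hk
    obtain ⟨hk1, hk2, hk3, _⟩ := mem_PV hp
    have hpR := natAbs_le_RB h0 hk1
    set n : ℕ := b + WW 1 L * x with hn
    have hna : RB 𝓑 < n := by
      have h1 : 1 * (2 * RB 𝓑 + 1) ≤ WW 1 L * (2 * RB 𝓑 + 1) := Nat.mul_le_mul_right _ hW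
      omega
    set w : ℤ := p.1 + (p.2 : ℤ) * (n : ℤ) with hw
    have hw0 : w ≠ 0 := by
      intro h1
      have h2 : (p.2 : ℤ) * (n : ℤ) = -p.1 := by linarith
      have h3 : p.2 * n = p.1.natAbs := by
        have := congrArg Int.natAbs h2
        rw [Int.natAbs_mul, Int.natAbs_neg, Int.natAbs_natCast, Int.natAbs_natCast] at this
        exact this
      have h4 : 1 * n ≤ p.2 * n := Nat.mul_le_mul_right n hk2
      omega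
    refine ⟨w.natAbs, Int.natAbs_pos.2 hw0, ?_, ?_⟩
    · have h1 : (w.natAbs : ℝ) ≤ Real.exp (3 * L) := by
        refine le_trans ?_ hB.v3
        have h2 : w.natAbs ≤ p.1.natAbs + p.2 * n := by
          refine (Int.natAbs_add_le _ _).trans ?_
          rw [Int.natAbs_mul, Int.natAbs_natCast, Int.natAbs_natCast]
        have h4 : w.natAbs ≤ RB 𝓑 + K * n :=
          h2.trans (Nat.add_le_add hpR (Nat.mul_le_mul_right n hk3))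
        have h5 : (w.natAbs : ℝ) ≤ RB 𝓑 + K * n := by exact_mod_cast h4
        refine h5.trans ?_
        have h6 : (n : ℝ) ≤ 3 * Real.exp L := by
          have h7 : (x : ℝ) ≤ 2 * Real.exp L / WW 1 L := by
            have h8 : x ≤ M0 L (WW 1 L) := hx.le
            refine (Nat.cast_le.2 h8).trans ?_
            unfold M0
            exact Nat.floor_le (by positivity)
          have hWR : (0 : ℝ) < WW 1 L := by exact_mod_cast hW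
          have h9 : (WW 1 L : ℝ) * x ≤ 2 * Real.exp L := by
            have := mul_le_mul_of_nonneg_left h7 hWR.le
            rwa [mul_div_cancel₀ _ hWR.ne'] at this
          have h10 := hP.hb2
          have h11 : Real.exp (L / 4) ≤ Real.exp L := Real.exp_le_exp.2 (by linarith)
          rw [hn]
          push_cast
          linarith
        have h12 : (K : ℝ) * n ≤ L ^ 2 * (3 * Real.exp L) :=
          mul_le_mul hKL h6 (by positivity) (by positivity)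
        linarith
      have h2 : (0 : ℝ) < (w.natAbs : ℝ) := by
        exact_mod_cast Int.natAbs_pos.2 hw0
      have h3 := Real.log_le_log h2 h1
      rwa [Real.log_exp] at h3
    · intro l h1 h2 h3 h5
      have h6 := ((hl l h1 h2 h3).2 n p hk1 hk2 hk3).1 h5
      exact Int.natCast_dvd.1 h6
  have hVS : (S.card : ℝ) * VS (IP.SPH 1 L (Real.exp (η * L))) 1 ≤ C₀ / η := by
    refine le_trans (mul_le_mul_of_nonneg_right ?_ (IP.FIN.VS_nonneg _ _ _)) hV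
    exact_mod_cast Finset.card_image_le
  have hE0 := hE b r _ S σ hP hi hkk hiS hbij hvv hVS hTh
  obtain ⟨G, hGm, hG⟩ := IP.FIN.pack hE0
  refine ⟨G, fun x hx => ?_, ?_⟩
  · obtain ⟨h1, h2⟩ := (hGm x).1 hx
    refine ⟨h1, fun p hp => ?_⟩
    obtain ⟨l, h3, h4, h5, h7⟩ := h2 (jV (RB 𝓑) (K * RB 𝓑) p) (by
      rw [hS]
      exact Finset.mem_image_of_mem _ hp)
    obtain ⟨hj1, hj2, hj3, _⟩ := mem_PV hp
    exact ⟨l, h3, h5, ((hl l h3 h4 h5).2 _ p hj1 hj2 hj3).1 h7⟩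
  · refine hG.trans ((Finset.sum_le_card_nsmul _ _ (2 * L) ?_).trans (le_of_eq ?_))
    · intro x hx
      obtain ⟨h1, h2, h3⟩ := mem_PiL ((hGm x).1 hx).1
      unfold lwX
      have h4 : ((qv a r (b + WW 1 L * x) : ℕ) : ℝ) ≤ Real.exp (2 * L) := by
        refine h3.trans (le_trans ?_ hB.q2)
        have h5 : (r : ℝ) ≤ L ^ 2 := hr2.trans hB.vL
        have h6 : (r : ℝ) * Real.exp L ≤ L ^ 2 * Real.exp L :=
          mul_le_mul_of_nonneg_right h5 (Real.exp_pos L).le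
        linarith
      have h5 : (0 : ℝ) < ((qv a r (b + WW 1 L * x) : ℕ) : ℝ) := by
        exact_mod_cast h2.pos
      have h6 := Real.log_le_log h5 h4
      rwa [Real.log_exp] at h6
    · rw [nsmul_eq_mul, mul_comm]

/-- the condition on `L` -/
theorem cond {R t v L : ℝ} (hR : 1 ≤ R) (ht : t ≤ 1 / 2 * Real.log L) (_ : 0 ≤ t) (hvt : v ≤ t)
    (hL : 16 * (4 * R + 2) ^ 2 + 800 + 40 * (R + 1) ≤ L) :
    400 + 20 * (R + 1) + 4 * (2 * t * R) + 4 * v ≤ L := by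
  have h00 : 0 ≤ 16 * (4 * R + 2) ^ 2 := by positivity
  have hL0 : 0 < L := by linarith
  have hs : 0 < Real.sqrt L := Real.sqrt_pos.2 hL0
  have h1 : Real.log L = 2 * Real.log (Real.sqrt L) := by
    rw [Real.log_sqrt hL0.le]
    ring
  have h2 := Real.log_le_sub_one_of_pos hs
  have h3 : 4 * (4 * R + 2) ≤ Real.sqrt L := by
    rw [show 4 * (4 * R + 2) = Real.sqrt ((4 * (4 * R + 2)) ^ 2) by
      rw [Real.sqrt_sq (by linarith)]]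
    refine Real.sqrt_le_sqrt ?_
    have : (4 * (4 * R + 2)) ^ 2 = 16 * (4 * R + 2) ^ 2 := by ring
    linarith
  have h4 : Real.sqrt L * Real.sqrt L = L := Real.mul_self_sqrt hL0.le
  have h5 : 4 * (4 * R + 2) * Real.sqrt L ≤ Real.sqrt L * Real.sqrt L :=
    mul_le_mul_of_nonneg_right h3 hs.le
  have h6 : t ≤ Real.sqrt L := by linarith
  have h7 : (8 * R + 4) * t ≤ (8 * R + 4) * Real.sqrt L :=
    mul_le_mul_of_nonneg_left h6 (by linarith)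
  have h8 : 4 * (2 * t * R) + 4 * v ≤ (8 * R + 4) * t := by
    have : 4 * (2 * t * R) + 4 * t = (8 * R + 4) * t := by ring
    linarith
  have h9 : (8 * R + 4) * Real.sqrt L ≤ L / 2 := by
    have : 4 * (4 * R + 2) * Real.sqrt L = 2 * ((8 * R + 4) * Real.sqrt L) := by ring
    linarith
  linarith

end FNUVx

open FNBXx FNUXx FNUVx in
theorem t_FNUV : S_FNUV := by
  intro hSG hKV hEng hSel hFNA
  classical
  obtain ⟨c₁, c₂, C1, hc₁, hc₂, hC1, hSel⟩ := hSel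
  obtain ⟨C, hC, L₀, hKV⟩ := hKV
  obtain ⟨κ, hκ, hEng⟩ := hEng c₂ hc₂
  obtain ⟨A0, hA0⟩ : ∃ A0 : ℝ, A0 = C * (C1 + 1) + 1 := ⟨_, rfl⟩
  have hA01 : 1 ≤ A0 := by
    have : 0 < C * (C1 + 1) := by positivity
    linarith
  obtain ⟨κ', hκ'⟩ : ∃ κ' : ℝ, κ' = κ * A0 := ⟨_, rfl⟩
  have hκ'1 : 1 ≤ κ' := by
    rw [hκ']
    exact one_le_mul_of_one_le_of_one_le hκ hA01
  obtain ⟨Cs, hCs⟩ : ∃ Cs : ℝ, Cs = κ' + |Real.log (6 / c₁)| := ⟨_, rfl⟩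
  have hCsk : κ' ≤ Cs := by
    have := abs_nonneg (Real.log (6 / c₁))
    linarith
  have hCs1 : 1 ≤ Cs := hκ'1.trans hCsk
  refine ⟨1 / (2 * Cs), Cs, by positivity, by linarith, ?_, fun 𝓑 a ε h0 ha hε => ?_⟩
  · rw [div_mul_eq_mul_div, one_mul, div_le_div_iff₀ (by linarith) (by norm_num)]
    linarith
  have ha0 : a ≠ 0 := fun h => h0 (h ▸ ha)
  obtain ⟨L₁, hSel⟩ := hSel 𝓑 a (ε / 3) h0 ha (by positivity)
  obtain ⟨L₂, hEng⟩ := hEng a ha0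
  obtain ⟨L₄, hFNA⟩ := hFNA 𝓑 a (ε ^ 2 / 3) h0 ha (by positivity)
  have hR := RB_pos h0
  have hRR : (1 : ℝ) ≤ (RB 𝓑 : ℝ) := by exact_mod_cast hR
  have hφ : (0 : ℝ) < ((RB 𝓑).totient : ℝ) := by exact_mod_cast Nat.totient_pos.2 hR
  obtain ⟨L₅, hL₅⟩ : ∃ L₅ : ℝ, L₅ = 16 * (4 * (RB 𝓑 : ℝ) + 2) ^ 2 + 800 +
      40 * ((RB 𝓑 : ℝ) + 1) := ⟨_, rfl⟩
  refine ⟨⌈Real.exp (max (max L₁ L₂) (max (max L₀ L₄) L₅))⌉₊ + (5 * a.natAbs + 5),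
    fun x hx t α β ht1 htc hα hαβ hεβ hβt => ?_⟩
  obtain ⟨s, hs⟩ : ∃ s : ℝ, s = t * (𝓑.card : ℝ) := ⟨_, rfl⟩
  rw [← hs] at htc ⊢
  have hcard : (1 : ℝ) ≤ (𝓑.card : ℝ) := by
    exact_mod_cast Finset.card_pos.2 ⟨a, ha⟩
  have hts : t ≤ s := by
    rw [hs]
    exact le_mul_of_one_le_right (by linarith) hcard
  have hs1 : 1 ≤ s := ht1.trans hts
  have hxm : 5 * a.natAbs + 5 ≤ x := by omega
  have hxR : (0 : ℝ) < (x : ℝ) + a.natAbs + 1 := by positivity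
  set L : ℝ := Real.log ((x : ℝ) + a.natAbs + 1) with hL
  have hexp : Real.exp L = (x : ℝ) + a.natAbs + 1 := Real.exp_log hxR
  have hLmax : max (max L₁ L₂) (max (max L₀ L₄) L₅) ≤ L := by
    rw [hL, Real.le_log_iff_exp_le hxR]
    have h1 : (⌈Real.exp (max (max L₁ L₂) (max (max L₀ L₄) L₅))⌉₊ : ℝ) ≤ x := by
      exact_mod_cast (show ⌈Real.exp (max (max L₁ L₂) (max (max L₀ L₄) L₅))⌉₊ ≤ x by omega)
    have h2 := Nat.le_ceil (Real.exp (max (max L₁ L₂) (max (max L₀ L₄) L₅)))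
    have h3 : (0 : ℝ) ≤ (a.natAbs : ℝ) := Nat.cast_nonneg _
    linarith
  have hL1 : L₁ ≤ L := (le_max_left _ _).trans ((le_max_left _ _).trans hLmax)
  have hL2 : L₂ ≤ L := (le_max_right _ _).trans ((le_max_left _ _).trans hLmax)
  have hL3 : L₀ ≤ L :=
    (le_max_left _ _).trans ((le_max_left _ _).trans ((le_max_right _ _).trans hLmax))
  have hL4 : L₄ ≤ L :=
    (le_max_right _ _).trans ((le_max_left _ _).trans ((le_max_right _ _).trans hLmax))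
  have hL5 : L₅ ≤ L := (le_max_right _ _).trans ((le_max_right _ _).trans hLmax)
  rw [hL₅] at hL5
  have h00 : 0 ≤ 16 * (4 * (RB 𝓑 : ℝ) + 2) ^ 2 := by positivity
  have hLpos : 0 < L := by linarith
  have hlogL : 0 ≤ Real.log L := Real.log_nonneg (by linarith)
  have ht : 0 < t := by linarith
  -- the window
  have hβ : 0 < β := by linarith
  have hγ : ε * β ≤ β - α := by linarith
  have hγ2 : ε ^ 2 ≤ β - α := by
    have h1 : ε * ε ≤ ε * β := mul_le_mul_of_nonneg_left hεβ hε.le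
    have h2 : ε ^ 2 = ε * ε := by ring
    linarith
  have hγ0 : 0 < β - α := lt_of_lt_of_le (by positivity) hγ2
  set u : ℝ := α + (β - α) / 3 with hu
  set v : ℝ := β - (β - α) / 3 with hv
  have hu0 : 0 ≤ u := by linarith
  have huv : u < v := by linarith
  have hvβ : v ≤ β := by linarith
  have hvt : v ≤ t := by linarith
  have hv0 : 0 ≤ v := by linarith
  have huv3 : u ≤ (1 - ε / 3) * v := by
    have h1 : ε / 3 * v ≤ ε / 3 * β := mul_le_mul_of_nonneg_left hvβ (by positivity)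
    have h2 : (1 - ε / 3) * v = v - ε / 3 * v := by ring
    rw [h2]
    linarith
  have hv3 : ε / 3 ≤ v := by linarith
  -- the bounds of `t`
  have hx5 : (5 : ℝ) ≤ x := by exact_mod_cast (show 5 ≤ x by omega)
  have hlx : 0 < Real.log x := Real.log_pos (by linarith)
  have hloglog : Real.log (Real.log x) ≤ Real.log L := by
    refine Real.log_le_log hlx ?_
    rw [hL]
    refine Real.log_le_log (by linarith) ?_
    have h3 : (0 : ℝ) ≤ (a.natAbs : ℝ) := Nat.cast_nonneg _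
    linarith
  have hCt : Cs * s ≤ 1 / 2 * Real.log L := by
    have h1 := mul_le_mul_of_nonneg_left htc (show 0 ≤ Cs by linarith)
    have h2 : Cs * (1 / (2 * Cs) * Real.log (Real.log x)) = 1 / 2 * Real.log (Real.log x) := by
      field_simp
    rw [h2] at h1
    linarith
  have hkt : κ' * s ≤ 1 / 2 * Real.log L :=
    (mul_le_mul_of_nonneg_right hCsk (by linarith)).trans hCt
  have htL' : t ≤ 1 / 2 * Real.log L := by
    have h1 : 1 * s ≤ κ' * s := mul_le_mul_of_nonneg_right hκ'1 (by linarith)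
    linarith
  have htlog : t ≤ Real.log L := by linarith
  have hB : Big (RB 𝓑) (2 * t * RB 𝓑) v L :=
    big (RB 𝓑) (2 * t * RB 𝓑) v L (by positivity) hv0 (cond hRR htL' ht.le hvt hL5)
  -- the engine
  obtain ⟨C₀, hC₀⟩ : ∃ C₀ : ℝ, C₀ = A0 * s := ⟨_, rfl⟩
  have hC₀1 : 1 ≤ C₀ := by
    rw [hC₀]
    exact one_le_mul_of_one_le_of_one_le hA01 hs1
  have hκC : κ * C₀ = κ' * s := by rw [hC₀, hκ']; ring
  obtain ⟨η, hη, hηL, hE⟩ := hEng L hL2 C₀ hC₀1 (by rw [hκC]; linarith)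
  rw [hκC] at hE
  obtain ⟨δ, hδdef⟩ : ∃ δ : ℝ, δ = Real.exp (-Real.exp (κ' * s)) := ⟨_, rfl⟩
  have hδ : 0 < δ := by rw [hδdef]; exact Real.exp_pos _
  rw [← hδdef] at hE
  have hE : EngJ a C₀ c₂ η δ L := hE
  obtain ⟨GP, hGP, hsum⟩ := hSel L hL1 u v t hu0 huv3 hv3 hvt ht1 htlog
  set K : ℕ := ⌊t * (L + 1)⌋₊ + 1 with hK
  obtain ⟨ph, hph⟩ : ∃ ph : ℝ, ph = ((RB 𝓑).totient : ℝ) / (RB 𝓑) := ⟨_, rfl⟩
  rw [← hph] at hsum
  have hph0 : 0 < ph := by rw [hph]; positivity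
  have hWt : (0 : ℝ) ≤ ((WW 1 L).totient : ℝ) / (WW 1 L) := by positivity
  have hV : C1 * ((𝓑.card * (t * L)) * (((WW 1 L).totient : ℝ) / (WW 1 L))) *
      VS (IP.SPH 1 L (Real.exp (η * L))) 1 ≤ C₀ / η := by
    have ht' : 1 ≤ (C1 + 1) * s := one_le_mul_of_one_le_of_one_le (by linarith) hs1
    have h1 := hKV L hL3 ((C1 + 1) * s) η ht' hη hηL 1 (by push_cast; linarith) 1 le_rfl (by
      simp; linarith) ⌈C1 * (s * L)⌉₊ (by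
      have h2 : ((⌈C1 * (s * L)⌉₊ : ℕ) : ℝ) ≤ C1 * (s * L) + 1 :=
        (Nat.ceil_lt_add_one (by positivity)).le
      have h3 : 0 ≤ s * L := by positivity
      rw [Nat.totient_one, Nat.cast_one, div_one, mul_one]
      linarith)
    have h3 : C1 * (s * L) ≤ (⌈C1 * (s * L)⌉₊ : ℝ) := Nat.le_ceil _
    have h4 := IP.FIN.VS_nonneg 1 L (Real.exp (η * L))
    have h5 : C1 * (s * L) * ((((WW 1 L).totient : ℝ) / (WW 1 L)) *
        VS (IP.SPH 1 L (Real.exp (η * L))) 1) ≤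
        (⌈C1 * (s * L)⌉₊ : ℝ) * ((((WW 1 L).totient : ℝ) / (WW 1 L)) *
        VS (IP.SPH 1 L (Real.exp (η * L))) 1) :=
      mul_le_mul_of_nonneg_right h3 (mul_nonneg hWt h4)
    have h6 : 0 ≤ C1 * (s * L) * ((((WW 1 L).totient : ℝ) / (WW 1 L)) *
        VS (IP.SPH 1 L (Real.exp (η * L))) 1) :=
      mul_nonneg (by positivity) (mul_nonneg hWt h4)
    have h7 : C1 * ((𝓑.card * (t * L)) * (((WW 1 L).totient : ℝ) / (WW 1 L))) *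
        VS (IP.SPH 1 L (Real.exp (η * L))) 1 =
        C1 * (s * L) * ((((WW 1 L).totient : ℝ) / (WW 1 L)) *
        VS (IP.SPH 1 L (Real.exp (η * L))) 1) := by rw [hs]; ring
    have h8 : 2 * (⌈C1 * (s * L)⌉₊ : ℝ) *
        (((WW 1 L).totient : ℝ) / (WW 1 L)) *
        VS (IP.SPH 1 L (Real.exp (η * L))) 1 =
        2 * ((⌈C1 * (s * L)⌉₊ : ℝ) * ((((WW 1 L).totient : ℝ) / (WW 1 L)) *
        VS (IP.SPH 1 L (Real.exp (η * L))) 1)) := by ring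
    have h9 : C * ((C1 + 1) * s) / η ≤ C₀ / η := by
      refine div_le_div_of_nonneg_right ?_ hη.le
      have h10 : C₀ = C * ((C1 + 1) * s) + s := by rw [hC₀, hA0]; ring
      linarith
    rw [h8] at h1
    rw [h7]
    linarith
  have hpair : ∀ p ∈ GP, ∃ G : Finset ℕ, (∀ y ∈ G, y ∈ PiL a p.1 (WW 1 L) p.2 L ∧
      ∀ q ∈ PV 𝓑 a (WW 1 L) p.2 p.1 K, ∃ l : ℕ, l.Prime ∧ (l : ℝ) ≤ Real.exp (L / 100) ∧
        (l : ℤ) ∣ q.1 + (q.2 : ℤ) * ((p.2 + WW 1 L * y : ℕ) : ℤ)) ∧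
      δ * ThL a p.1 (WW 1 L) p.2 L ≤ 2 * L * G.card := by
    intro p hp
    obtain ⟨h1, h2, h3, h4, h5, h6⟩ := hGP p hp
    exact pairV h0 ha hB ht1 hu0 hvt hSG hE hK h1 h2 h3 h4 h5
      ((mul_le_mul_of_nonneg_right h6 (IP.FIN.VS_nonneg _ _ _)).trans hV)
  choose! G hG using hpair
  have hgood : ∀ p ∈ GP, ∀ y ∈ G p,
      Real.exp L - a.natAbs ≤ ((p.2 + WW 1 L * y : ℕ) : ℝ) ∧
      ((p.2 + WW 1 L * y : ℕ) : ℝ) ≤ 3 / 2 * Real.exp L + a.natAbs ∧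
      GoodV 𝓑 a α β t (p.2 + WW 1 L * y) ∧
      ∀ k : ℕ, 1 ≤ k → k ≤ K → k ≠ p.1 → ¬ (qv a k (p.2 + WW 1 L * y)).Prime := by
    intro p hp y hy
    obtain ⟨h1, h2, h3, h4, h5, h6⟩ := hGP p hp
    obtain ⟨h7, h8⟩ := (hG p hp).1 y hy
    exact hFNA L hL4 α β t u v hα (by linarith) huv (by linarith) hβt htlog p.2 p.1 y
      h1 h2 h3 h4 h7 h8
  set W : ℕ := WW 1 L with hWdef
  have hW : 0 < W := W_pos 1 L
  let cm : (Σ _ : ℕ × ℕ, ℕ) → ℕ := fun τ => τ.1.2 + W * τ.2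
  set S := GP.sigma G with hS
  have hmem : ∀ τ ∈ S, τ.1 ∈ GP ∧ τ.2 ∈ G τ.1 := by
    intro τ hτ
    rw [hS, Finset.mem_sigma] at hτ
    exact hτ
  have hinj : Set.InjOn cm (S : Set (Σ _ : ℕ × ℕ, ℕ)) := by
    rintro ⟨⟨r, b⟩, y⟩ hτ ⟨⟨r', b'⟩, y'⟩ hτ' heq
    obtain ⟨h1, h2⟩ := hmem _ hτ
    obtain ⟨h3, h4⟩ := hmem _ hτ'
    change b + W * y = b' + W * y' at heq
    change y ∈ G (r, b) at h2
    change y' ∈ G (r', b') at h4
    have hb := mem_BV (hGP _ h1).2.2.2.1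
    have hb' := mem_BV (hGP _ h3).2.2.2.1
    change W * (2 * RB 𝓑 + 1) ≤ b ∧ b < W * (2 * RB 𝓑 + 2) ∧ _ at hb
    change W * (2 * RB 𝓑 + 1) ≤ b' ∧ b' < W * (2 * RB 𝓑 + 2) ∧ _ at hb'
    have hd : ∀ c : ℕ, W * (2 * RB 𝓑 + 1) ≤ c → c < W * (2 * RB 𝓑 + 2) →
        c = W * (2 * RB 𝓑 + 1) + c % W := by
      intro c hc1 hc2
      have h5 : c / W = 2 * RB 𝓑 + 1 := by
        apply Nat.div_eq_of_lt_le
        · rw [Nat.mul_comm]; exact hc1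
        · rw [Nat.mul_comm]; exact hc2
      have h6 := Nat.div_add_mod c W
      rw [h5] at h6
      exact h6.symm
    have hmod : b % W = b' % W := by
      have h5 : (b + W * y) % W = (b' + W * y') % W := by rw [heq]
      rwa [Nat.add_mul_mod_self_left, Nat.add_mul_mod_self_left] at h5
    have hbb : b = b' := by
      rw [hd b hb.1 hb.2.1, hd b' hb'.1 hb'.2.1, hmod]
    subst hbb
    have hyy : y = y' := by
      have h5 : W * y = W * y' := by omega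
      exact Nat.eq_of_mul_eq_mul_left hW h5
    subst hyy
    have hrr : r = r' := by
      by_contra hne
      have h5 := (hgood (r, b) h1 y h2).2.2.2 r'
      have h6 : u * L < (r' : ℝ) := (hGP _ h3).1
      have h7 : (r' : ℝ) ≤ v * L := (hGP _ h3).2.1
      have h8 : 1 ≤ r' := by
        have h9 : (0 : ℝ) < r' := lt_of_le_of_lt (by positivity) h6
        exact_mod_cast h9
      have h9 : r' ≤ K := by
        have h10 : (r' : ℝ) ≤ t * (L + 1) := by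
          have h11 : v * L ≤ t * L := mul_le_mul_of_nonneg_right hvt hLpos.le
          nlinarith
        have h11 := Nat.le_floor h10
        omega
      have h10 := (mem_PiL ((hG _ h3).1 y h4).1).2.1
      exact h5 h8 h9 (Ne.symm hne) h10
    subst hrr
    rfl
  refine ⟨S.image cm, ?_, ?_, ?_⟩
  · intro n hn
    rw [Finset.mem_image] at hn
    obtain ⟨τ, hτ, rfl⟩ := hn
    obtain ⟨h1, h2⟩ := hmem τ hτ
    obtain ⟨h3, h4, _, _⟩ := hgood τ.1 h1 τ.2 h2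
    change Real.exp L - a.natAbs ≤ ((cm τ : ℕ) : ℝ) at h3
    change ((cm τ : ℕ) : ℝ) ≤ 3 / 2 * Real.exp L + a.natAbs at h4
    rw [hexp] at h3 h4
    rw [Finset.mem_Ioc]
    constructor
    · have h5 : ((x : ℕ) : ℝ) < ((cm τ : ℕ) : ℝ) := by linarith
      exact_mod_cast h5
    · have h6 : (5 * (a.natAbs : ℝ) + 5) ≤ x := by exact_mod_cast hxm
      have h5 : ((cm τ : ℕ) : ℝ) ≤ ((2 * x : ℕ) : ℝ) := by
        push_cast
        linarith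
      exact_mod_cast h5
  · intro n hn
    rw [Finset.mem_image] at hn
    obtain ⟨τ, hτ, rfl⟩ := hn
    obtain ⟨h1, h2⟩ := hmem τ hτ
    exact (hgood τ.1 h1 τ.2 h2).2.2.1
  · rw [Finset.card_image_of_injOn hinj, hS, Finset.card_sigma]
    push_cast
    have h1 : δ * ∑ p ∈ GP, ThL a p.1 W p.2 L ≤ 2 * L * ∑ p ∈ GP, ((G p).card : ℝ) := by
      rw [Finset.mul_sum, Finset.mul_sum]
      exact Finset.sum_le_sum fun p hp => (hG p hp).2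
    have h2 : δ * (c₁ * (ph * ((v - u) * (L * Real.exp L)))) ≤
        δ * ∑ p ∈ GP, ThL a p.1 W p.2 L :=
      mul_le_mul_of_nonneg_left hsum hδ.le
    have hvu : v - u = (β - α) / 3 := by rw [hu, hv]; ring
    have h3 : 2 * L * (c₁ / 6 * δ * (β - α) * (ph * Real.exp L)) ≤
        2 * L * ∑ p ∈ GP, ((G p).card : ℝ) := by
      refine le_trans (le_of_eq ?_) (h2.trans h1)
      rw [hvu]
      ring
    have h4 := le_of_mul_le_mul_left h3 (by linarith)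
    refine le_trans ?_ h4
    rw [← hph]
    have h5 : Real.exp (-Real.exp (Cs * s)) ≤ c₁ / 6 * δ := by
      rw [hCs, hδdef]
      exact const_le hκ'1 hc₁ hs1
    have h6 : (0 : ℝ) ≤ (a.natAbs : ℝ) := Nat.cast_nonneg _
    have h7 : ph * (x : ℝ) ≤ ph * Real.exp L := by
      refine mul_le_mul_of_nonneg_left ?_ hph0.le
      rw [hexp]
      linarith
    exact mul_le_mul (mul_le_mul_of_nonneg_right h5 hγ0.le) h7 (by positivity) (by positivity)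

end

end Pool.Agent.FCT
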