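import Mathlib
import Pool.Agent.FCT.St3

set_option autoImplicit false

/-!
FCT: the final form of the uniform theorem (the prime `q` is not `|a|`).
-/

namespace Pool.Agent.FCT

open Finset

/-- The property in the final form. -/
def Good' (a : ℤ) (α β t : ℝ) (n : ℕ) : Prop :=
  IsCoprime a (n : ℤ) ∧ ∃ q : ℕ, q.Prime ∧ q ≠ a.natAbs ∧ (q : ℤ) ≡ a [ZMOD n] ∧
    α * (n * Real.log n) < q ∧ (q : ℝ) ≤ β * (n * Real.log n) ∧
    (∀ q' : ℕ, q'.Prime → q' ≠ a.natAbs → (q' : ℤ) ≡ a [ZMOD n] →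
      (q' : ℝ) ≤ t * (n * Real.log n) → q' = q) ∧
    ∀ q' : ℕ, q'.Prime → q' ≠ a.natAbs → (q' : ℤ) ≡ -a [ZMOD n] →
      t * (n * Real.log n) < q'

lemma good'_of {a : ℤ} {α α' β t : ℝ} {n : ℕ} (h : Good a α' β t n) (hα : α ≤ α')
    (hn : (a.natAbs : ℝ) ≤ α' * (n * Real.log n)) (ha : a ≠ 0) (hna : 2 * a.natAbs < n) :
    Good' a α β t n := by
  obtain ⟨h1, q, h2, h3, h4, h5, h6⟩ := h
  have h0 : (0 : ℝ) ≤ n * Real.log n := mul_nonneg (Nat.cast_nonneg _) (Real.log_natCast_nonneg _)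
  refine ⟨h1, q, h2, ?_, h3, ?_, h5, fun q' g1 g2 g3 g4 => h6 q' g1 (Or.inl g3) g2 g4,
    fun q' g1 g2 g3 => ?_⟩
  · intro h7
    rw [h7] at h4
    linarith
  · exact (mul_le_mul_of_nonneg_right hα h0).trans_lt h4
  · by_contra h7
    have h8 : q' = q := h6 q' g1 (Or.inr g3) g2 (not_lt.1 h7)
    subst h8
    have h9 : a ≡ -a [ZMOD n] := h3.symm.trans g3
    have h10 : (n : ℤ) ∣ -a - a := h9.dvd
    have h11 : n ∣ 2 * a.natAbs := by
      have h12 : n ∣ (-a - a).natAbs := Int.natCast_dvd.1 h10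
      have h13 : (-a - a).natAbs = 2 * a.natAbs := by
        rw [show -a - a = -(2 * a) by ring, Int.natAbs_neg, Int.natAbs_mul]
        rfl
      rwa [h13] at h12
    have h14 : 0 < a.natAbs := Int.natAbs_pos.2 ha
    have := Nat.le_of_dvd (by omega) h11
    omega

open Classical in
theorem finR (h : FinU) :
    ∃ c C : ℝ, 0 < c ∧ 0 < C ∧ c * C ≤ 1 / 2 ∧ ∀ (a : ℤ) (ε : ℝ), a ≠ 0 → 0 < ε →
      ∃ x₀ : ℕ, ∀ x : ℕ, x₀ ≤ x → ∀ t α β : ℝ, 1 ≤ t → t ≤ c * Real.log (Real.log x) →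
        0 ≤ α → α ≤ (1 - ε) * β → ε ≤ β → β ≤ t →
        Real.exp (-Real.exp (C * t)) * (β - α) * ((a.natAbs.totient : ℝ) / a.natAbs * x) ≤
          (((Finset.Ioc x (2 * x)).filter (fun n : ℕ => IsCoprime a (n : ℤ) ∧
            ∃ q : ℕ, q.Prime ∧ q ≠ a.natAbs ∧ (q : ℤ) ≡ a [ZMOD n] ∧
              α * (n * Real.log n) < q ∧ (q : ℝ) ≤ β * (n * Real.log n) ∧
              (∀ q' : ℕ, q'.Prime → q' ≠ a.natAbs → (q' : ℤ) ≡ a [ZMOD n] →
                (q' : ℝ) ≤ t * (n * Real.log n) → q' = q) ∧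
              ∀ q' : ℕ, q'.Prime → q' ≠ a.natAbs → (q' : ℤ) ≡ -a [ZMOD n] →
                t * (n * Real.log n) < q')).card : ℝ) := by
  obtain ⟨c, C, hc, hC, hcC, h⟩ := h
  obtain ⟨c', hc'⟩ : ∃ c' : ℝ, c' = min c (1 / (2 * (C + 1))) := ⟨_, rfl⟩
  have hc'1 : c' ≤ c := by rw [hc']; exact min_le_left _ _
  have hc'2 : c' ≤ 1 / (2 * (C + 1)) := by rw [hc']; exact min_le_right _ _
  have hc'0 : 0 < c' := by
    rw [hc']
    exact lt_min hc (by positivity)
  refine ⟨c', C + 1, hc'0, by linarith, ?_, fun a ε ha hε => ?_⟩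
  · calc c' * (C + 1) ≤ 1 / (2 * (C + 1)) * (C + 1) :=
          mul_le_mul_of_nonneg_right hc'2 (by linarith)
      _ = 1 / 2 := by field_simp
  -- `ε ≤ 1/2` without loss
  obtain ⟨e, he⟩ : ∃ e : ℝ, e = min ε (1 / 2) := ⟨_, rfl⟩
  have he0 : 0 < e := by rw [he]; exact lt_min hε (by norm_num)
  have he1 : e ≤ ε := by rw [he]; exact min_le_left _ _
  have he2 : e ≤ 1 / 2 := by rw [he]; exact min_le_right _ _
  obtain ⟨x₁, h⟩ := h a (e / 2) ha (by linarith)
  refine ⟨x₁ + ⌈2 * (a.natAbs : ℝ) / e ^ 2⌉₊ + 2 * a.natAbs + 3, fun x hx t α β h1 h2 h3 h4 h5 h6 => ?_⟩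
  have hx1 : x₁ ≤ x := by omega
  have hx3 : 3 ≤ x := by omega
  have hx2 : 2 * (a.natAbs : ℝ) / e ^ 2 ≤ x := by
    have h7 : ⌈2 * (a.natAbs : ℝ) / e ^ 2⌉₊ ≤ x := by omega
    exact (Nat.le_ceil _).trans (by exact_mod_cast h7)
  have hβ0 : 0 < β := by linarith
  have hx3' : (3 : ℝ) ≤ x := by exact_mod_cast hx3
  have hlog1 : 1 ≤ Real.log x := by
    rw [Real.le_log_iff_exp_le (by linarith)]
    have := Real.exp_one_lt_d9
    linarith
  have hll : 0 ≤ Real.log (Real.log x) := Real.log_nonneg hlog1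
  have h2' : t ≤ c * Real.log (Real.log x) := h2.trans (mul_le_mul_of_nonneg_right hc'1 hll)
  obtain ⟨α', hα'⟩ : ∃ α' : ℝ, α' = max α (e / 2 * β) := ⟨_, rfl⟩
  have g1 : α ≤ α' := by rw [hα']; exact le_max_left _ _
  have g2 : e / 2 * β ≤ α' := by rw [hα']; exact le_max_right _ _
  have g0 : 0 ≤ α' := h3.trans g1
  have g3 : α' ≤ (1 - e / 2) * β := by
    rw [hα']
    apply max_le
    · refine h4.trans (mul_le_mul_of_nonneg_right (by linarith) hβ0.le)
    · exact mul_le_mul_of_nonneg_right (by linarith) hβ0.le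
  have g4 : (β - α) / 2 ≤ β - α' := by
    rw [hα']
    rcases le_total α (e / 2 * β) with h7 | h7
    · rw [max_eq_right h7]
      have h8 : e / 2 * β ≤ 1 / 2 * β := mul_le_mul_of_nonneg_right (by linarith) hβ0.le
      linarith
    · rw [max_eq_left h7]
      have h8 : α ≤ β := h4.trans (by
        have : (1 - ε) * β ≤ 1 * β := mul_le_mul_of_nonneg_right (by linarith) hβ0.le
        linarith)
      linarith
  obtain ⟨A, hA, hgood, hcard⟩ := h x hx1 t α' β h1 h2' g0 g3 (by linarith) h6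
  have h7 : A ⊆ (Finset.Ioc x (2 * x)).filter (fun n : ℕ => IsCoprime a (n : ℤ) ∧
            ∃ q : ℕ, q.Prime ∧ q ≠ a.natAbs ∧ (q : ℤ) ≡ a [ZMOD n] ∧
              α * (n * Real.log n) < q ∧ (q : ℝ) ≤ β * (n * Real.log n) ∧
              (∀ q' : ℕ, q'.Prime → q' ≠ a.natAbs → (q' : ℤ) ≡ a [ZMOD n] →
                (q' : ℝ) ≤ t * (n * Real.log n) → q' = q) ∧
              ∀ q' : ℕ, q'.Prime → q' ≠ a.natAbs → (q' : ℤ) ≡ -a [ZMOD n] →
                t * (n * Real.log n) < q') := by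
    intro n hn
    rw [Finset.mem_filter]
    have hnx : x < n := (Finset.mem_Ioc.1 (hA hn)).1
    refine ⟨hA hn, good'_of (hgood n hn) g1 ?_ ha (by omega)⟩
    have hnx' : (x : ℝ) ≤ n := by exact_mod_cast hnx.le
    have hlogn : 1 ≤ Real.log n := hlog1.trans (Real.log_le_log (by linarith) hnx')
    have h8 : (x : ℝ) ≤ n * Real.log n := by
      calc (x : ℝ) ≤ n := hnx'
        _ = n * 1 := (mul_one _).symm
        _ ≤ n * Real.log n := mul_le_mul_of_nonneg_left hlogn (Nat.cast_nonneg _)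
    have h9 : e ^ 2 / 2 ≤ α' := by
      refine le_trans ?_ g2
      have : e ≤ β := he1.trans h5
      nlinarith
    calc (a.natAbs : ℝ) = e ^ 2 / 2 * (2 * (a.natAbs : ℝ) / e ^ 2) := by field_simp
      _ ≤ e ^ 2 / 2 * x := mul_le_mul_of_nonneg_left hx2 (by positivity)
      _ ≤ α' * (n * Real.log n) := mul_le_mul h9 h8 (Nat.cast_nonneg _) g0
  refine le_trans ?_ (hcard.trans (by exact_mod_cast Finset.card_le_card h7))
  -- the constants
  have k1 : 1 ≤ Real.exp (C * t) := Real.one_le_exp (by positivity)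
  have k2 : Real.exp (C * t) + 1 ≤ Real.exp ((C + 1) * t) := by
    have e1 : Real.exp ((C + 1) * t) = Real.exp (C * t) * Real.exp t := by
      rw [← Real.exp_add]
      congr 1
      ring
    have e2 : 2 ≤ Real.exp t := by
      have := Real.add_one_le_exp t
      linarith
    rw [e1]
    nlinarith
  have k3 : Real.exp (-Real.exp ((C + 1) * t)) ≤ Real.exp (-Real.exp (C * t)) * (1 / 2) := by
    have e1 : Real.exp (-Real.exp ((C + 1) * t)) ≤ Real.exp (-Real.exp (C * t) + -1) :=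
      Real.exp_le_exp.2 (by linarith)
    have e2 : Real.exp (-1) ≤ 1 / 2 := by
      rw [Real.exp_neg, ← one_div]
      apply one_div_le_one_div_of_le (by norm_num)
      have := Real.add_one_le_exp (1 : ℝ)
      linarith
    rw [Real.exp_add] at e1
    exact e1.trans (mul_le_mul_of_nonneg_left e2 (Real.exp_nonneg _))
  have k4 : 0 ≤ β - α := by linarith
  have k5 : (0 : ℝ) ≤ (a.natAbs.totient : ℝ) / a.natAbs * x := by positivity
  refine mul_le_mul_of_nonneg_right ?_ k5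
  calc Real.exp (-Real.exp ((C + 1) * t)) * (β - α)
      ≤ Real.exp (-Real.exp (C * t)) * (1 / 2) * (β - α) := mul_le_mul_of_nonneg_right k3 k4
    _ = Real.exp (-Real.exp (C * t)) * ((β - α) / 2) := by ring
    _ ≤ Real.exp (-Real.exp (C * t)) * (β - α') :=
        mul_le_mul_of_nonneg_left g4 (Real.exp_nonneg _)

end Pool.Agent.FCT
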