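import Pool.Agent.FCT.St2

/-!
# Project FCT: module G4X

The fourth moment of `n / φ(n)`.
-/

set_option autoImplicit false

namespace Pool.Agent.FCT.G4X

open Finset

lemma loc (p : ℕ) (hp : 2 ≤ p) : ((1 - (p : ℝ)⁻¹)⁻¹) ^ 4 ≤ 1 + 30 / p := by
  have hp2 : (2 : ℝ) ≤ p := by exact_mod_cast hp
  obtain ⟨x, hx⟩ : ∃ x : ℝ, x = (p : ℝ)⁻¹ := ⟨_, rfl⟩
  have hx0 : 0 < x := by rw [hx]; positivity
  have hx1 : x ≤ 1 / 2 := by
    rw [hx, inv_eq_one_div]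
    exact one_div_le_one_div_of_le (by norm_num) hp2
  have h30 : (30 : ℝ) / p = 30 * x := by rw [hx]; rfl
  rw [h30, ← hx]
  have h1 : (1 - x)⁻¹ ≤ 1 + 2 * x := by
    rw [inv_le_iff_one_le_mul₀ (by linarith)]
    nlinarith
  have h2 : 0 ≤ (1 - x)⁻¹ := inv_nonneg.2 (by linarith)
  have h3 := pow_le_pow_left₀ h2 h1 4
  have h4 : (1 + 2 * x) ^ 4 ≤ 1 + 30 * x := by
    have e1 : (1 + 2 * x) ^ 4 = 1 + 8 * x + 24 * x ^ 2 + 32 * x ^ 3 + 16 * x ^ 4 := by ring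
    have e2 : x ^ 2 ≤ x / 2 := by nlinarith
    have e3 : x ^ 3 ≤ x / 4 := by
      have : x ^ 3 = x * x ^ 2 := by ring
      nlinarith
    have e4 : x ^ 4 ≤ x / 8 := by
      have : x ^ 4 = x * x ^ 3 := by ring
      nlinarith
    linarith
  exact h3.trans h4

lemma gq4_le (n : ℕ) (hn : 1 ≤ n) :
    gq n ^ 4 ≤ ∏ p ∈ n.primeFactors, (1 + 30 / (p : ℝ)) := by
  have hn0 : (0 : ℝ) < n := by exact_mod_cast hn
  have e1 := Nat.totient_eq_mul_prod_factors n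
  have e2 : (Nat.totient n : ℝ) = n * ∏ p ∈ n.primeFactors, (1 - (p : ℝ)⁻¹) := by
    have : ((Nat.totient n : ℚ) : ℝ) =
        (((n : ℚ) * ∏ p ∈ n.primeFactors, (1 - (p : ℚ)⁻¹) : ℚ) : ℝ) := by
      rw [e1]
    push_cast at this
    exact this
  have e3 : gq n = ∏ p ∈ n.primeFactors, (1 - (p : ℝ)⁻¹)⁻¹ := by
    unfold gq
    rw [e2, Finset.prod_inv_distrib, div_mul_eq_div_div, div_self hn0.ne', one_div]
  rw [e3, ← Finset.prod_pow]
  refine Finset.prod_le_prod (fun p hp => ?_) fun p hp => ?_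
  · positivity
  · exact loc p (Nat.prime_of_mem_primeFactors hp).two_le

lemma cnt (X : ℕ) (t : Finset ℕ) (ht : ∀ p ∈ t, p.Prime) :
    (((Icc 1 X).filter (fun n => t ⊆ n.primeFactors)).card : ℝ) ≤ X / ∏ p ∈ t, (p : ℝ) := by
  have hpos : 0 < ∏ p ∈ t, p := Finset.prod_pos fun p hp => (ht p hp).pos
  have h1 : (Icc 1 X).filter (fun n => t ⊆ n.primeFactors) ⊆
      (Ioc 0 X).filter (fun n => (∏ p ∈ t, p) ∣ n) := by
    intro n hn
    rw [mem_filter, mem_Icc] at hn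
    rw [mem_filter, mem_Ioc]
    refine ⟨⟨by omega, hn.1.2⟩, ?_⟩
    exact (Finset.prod_dvd_prod_of_subset _ _ _ hn.2).trans (Nat.prod_primeFactors_dvd n)
  have h2 := Finset.card_le_card h1
  rw [Nat.Ioc_filter_dvd_card_eq_div] at h2
  calc (((Icc 1 X).filter (fun n => t ⊆ n.primeFactors)).card : ℝ) ≤
        ((X / ∏ p ∈ t, p : ℕ) : ℝ) := by exact_mod_cast h2
    _ ≤ (X : ℝ) / ((∏ p ∈ t, p : ℕ) : ℝ) := Nat.cast_div_le
    _ = X / ∏ p ∈ t, (p : ℝ) := by push_cast; rfl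

end Pool.Agent.FCT.G4X

namespace Pool.Agent.FCT

open Finset

/-- G4X -/
theorem t_G4X : S_G4X := by
  classical
  refine ⟨Real.exp 30, Real.one_le_exp (by norm_num), fun X => ?_⟩
  obtain ⟨Q, hQ⟩ : ∃ Q : Finset ℕ, Q = (Ioc 1 X).filter Nat.Prime := ⟨_, rfl⟩
  have hQp : ∀ p ∈ Q, p.Prime := fun p hp => by
    rw [hQ, mem_filter] at hp
    exact hp.2
  have h1 : ∀ n ∈ Icc 1 X, gq n ^ 4 ≤
      ∑ t ∈ Q.powerset, if t ⊆ n.primeFactors then ∏ p ∈ t, (30 / (p : ℝ)) else 0 := by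
    intro n hn
    rw [mem_Icc] at hn
    refine (G4X.gq4_le n hn.1).trans ?_
    rw [Finset.prod_one_add, ← Finset.sum_filter]
    refine Finset.sum_le_sum_of_subset_of_nonneg ?_ fun _ _ _ => by positivity
    intro t ht
    rw [mem_powerset] at ht
    rw [mem_filter, mem_powerset]
    refine ⟨fun p hp => ?_, ht⟩
    have h2 := Nat.prime_of_mem_primeFactors (ht hp)
    have h3 := Nat.le_of_mem_primeFactors (ht hp)
    rw [hQ, mem_filter, mem_Ioc]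
    exact ⟨⟨h2.one_lt, h3.trans hn.2⟩, h2⟩
  have h2 : ∀ t ∈ Q.powerset, ∑ n ∈ Icc 1 X,
      (if t ⊆ n.primeFactors then ∏ p ∈ t, (30 / (p : ℝ)) else 0) ≤
      X * ∏ p ∈ t, (30 / (p : ℝ) ^ 2) := by
    intro t ht
    rw [mem_powerset] at ht
    rw [← Finset.sum_filter, Finset.sum_const, nsmul_eq_mul]
    have h3 := G4X.cnt X t fun p hp => hQp p (ht hp)
    have h4 : (0 : ℝ) ≤ ∏ p ∈ t, (30 / (p : ℝ)) := by positivity
    refine (mul_le_mul_of_nonneg_right h3 h4).trans_eq ?_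
    rw [div_mul_eq_mul_div, mul_div_assoc, ← Finset.prod_div_distrib]
    congr 1
    refine Finset.prod_congr rfl fun p _ => ?_
    rw [div_div, sq]
  calc ∑ n ∈ Icc 1 X, gq n ^ 4 ≤ ∑ n ∈ Icc 1 X, ∑ t ∈ Q.powerset,
        (if t ⊆ n.primeFactors then ∏ p ∈ t, (30 / (p : ℝ)) else 0) := Finset.sum_le_sum h1
    _ = ∑ t ∈ Q.powerset, ∑ n ∈ Icc 1 X,
        (if t ⊆ n.primeFactors then ∏ p ∈ t, (30 / (p : ℝ)) else 0) := Finset.sum_comm
    _ ≤ ∑ t ∈ Q.powerset, (X : ℝ) * ∏ p ∈ t, (30 / (p : ℝ) ^ 2) := Finset.sum_le_sum h2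
    _ = (X : ℝ) * ∏ p ∈ Q, (1 + 30 / (p : ℝ) ^ 2) := by
        rw [← Finset.mul_sum, Finset.prod_one_add]
    _ ≤ (X : ℝ) * Real.exp 30 := by
        refine mul_le_mul_of_nonneg_left ?_ (Nat.cast_nonneg _)
        have e1 : ∏ p ∈ Q, (1 + 30 / (p : ℝ) ^ 2) ≤ ∏ p ∈ Q, Real.exp (30 / (p : ℝ) ^ 2) := by
          refine Finset.prod_le_prod (fun p _ => by positivity) fun p _ => ?_
          rw [add_comm]
          exact Real.add_one_le_exp _
        rw [← Real.exp_sum] at e1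
        refine e1.trans (Real.exp_le_exp.2 ?_)
        have e2 : ∑ p ∈ Q, 30 / (p : ℝ) ^ 2 ≤ 30 * ∑ p ∈ Ioc 1 X, ((p : ℝ) ^ 2)⁻¹ := by
          rw [Finset.mul_sum]
          refine Finset.sum_le_sum_of_subset_of_nonneg ?_ fun _ _ _ => by positivity
          rw [hQ]
          exact Finset.filter_subset _ _
        have e3 : ∑ p ∈ Ioc 1 X, ((p : ℝ) ^ 2)⁻¹ ≤ 1 := by
          rcases Nat.lt_or_ge X 1 with h | h
          · rw [Finset.Ioc_eq_empty (by omega)]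
            simp
          · have := sum_Ioc_inv_sq_le_sub (α := ℝ) one_ne_zero h
            have h5 : (0 : ℝ) ≤ (X : ℝ)⁻¹ := by positivity
            simp only [Nat.cast_one, inv_one] at this
            linarith
        linarith
    _ = Real.exp 30 * X := mul_comm _ _

end Pool.Agent.FCT
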