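import Pool.Agent.FCT.St1

set_option autoImplicit false

/-!
FCT, module GOO (helper56): lower bounds for the characters to a good modulus.
-/

namespace Pool.Agent.FCT

theorem goo_re (u t : ℝ) : ((u : ℂ) + (t : ℂ) * Complex.I).re = u := by simp

theorem goo_im (u t : ℝ) : ((u : ℂ) + (t : ℂ) * Complex.I).im = t := by simp

/-- the points of the segment from `σ` to `σ + i t` -/
theorem goo_seg (σ t : ℝ) (z : ℂ)
    (hz : z ∈ segment ℝ (σ : ℂ) ((σ : ℂ) + (t : ℂ) * Complex.I)) :
    z.re = σ ∧ |z.im| ≤ |t| := by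
  obtain ⟨a, b, ha, hb, hab, rfl⟩ := hz
  constructor
  · have h : (a • (σ : ℂ) + b • ((σ : ℂ) + (t : ℂ) * Complex.I)).re = a * σ + b * σ := by
      simp [Complex.add_re, Complex.real_smul]
    rw [h, ← add_mul, hab, one_mul]
  · have h : (a • (σ : ℂ) + b • ((σ : ℂ) + (t : ℂ) * Complex.I)).im = b * t := by
      simp [Complex.add_im, Complex.real_smul]
    rw [h, abs_mul, abs_of_nonneg hb]
    have h1 : b ≤ 1 := by linarith
    nlinarith [abs_nonneg t]

theorem goo_final (M : ℝ) (hM : 2 ≤ M) (k : ℕ) (hk : k ≤ 77) (c : ℝ) (hc : 0 < c)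
    (hc7 : c ≤ 2 ^ 7) : 1 / (2 ^ 7 * M ^ 77) ≤ 1 / (c * M ^ k) := by
  have h1 : (1 : ℝ) ≤ M := by linarith
  have h2 : M ^ k ≤ M ^ 77 := pow_le_pow_right₀ h1 hk
  have h3 : 0 < M ^ k := by positivity
  apply one_div_le_one_div_of_le (by positivity)
  exact mul_le_mul hc7 h2 h3.le (by norm_num)

theorem t_GOO : S_GOO := by
  intro hZUP hDIF hLBA R T M σ₁ r hUB hT hσ hσ2 hr hrR hNB χ hχ t ht
  obtain ⟨hM, hU⟩ := hUB
  have hM1 : (1 : ℝ) ≤ M := by linarith
  have hM0 : 0 < M := by linarith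
  have hr1 : (1 : ℝ) ≤ r := by exact_mod_cast hr
  have hR2 : (r : ℝ) ≤ R ^ 2 := by nlinarith
  obtain ⟨hU1, hU2⟩ := hU r hr hR2
  have hA1 : ∀ u : ℝ, 1 < u → u ≤ 2 → ‖AJ χ 1 ((u : ℂ) + (t : ℂ) * Complex.I)‖ ≤ M ^ 2 := by
    intro u h1 h2
    exact hU1 χ hχ 1 (by norm_num) _ (by rw [goo_re]; exact h1) (by rw [goo_re]; exact h2)
      (by rw [goo_im]; linarith)
  have h2t : |2 * t| ≤ 2 * T := by
    rw [abs_mul, abs_two]
    linarith
  by_cases h2 : χ ^ 2 = 1
  · by_cases h3 : 1 / (32 * M ^ 5) ≤ |t|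
    · have h4 : (2 : ℝ) ≤ M ^ 11 := by
        have : M ^ 1 ≤ M ^ 11 := pow_le_pow_right₀ hM1 (by norm_num)
        rw [pow_one] at this
        linarith
      have h5 := hLBA hZUP hDIF r χ (M ^ 11) t hr h4
        (fun u h1 h2 => (hA1 u h1 h2).trans (by
          rw [← pow_mul]
          exact pow_le_pow_right₀ hM1 (by norm_num)))
        (fun u h1 h6 => by
          have ht0 : 0 < |t| := lt_of_lt_of_le (by positivity) h3
          have ht1 : t ≠ 0 := abs_pos.1 ht0
          rw [h2]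
          have h7 := hU2 ((u : ℂ) + ((2 * t : ℝ) : ℂ) * Complex.I) (by rw [goo_re]; exact h1)
            (by rw [goo_re]; exact h6) (by rw [goo_im]; exact mul_ne_zero two_ne_zero ht1)
            (by rw [goo_im]; exact h2t)
          rw [goo_im] at h7
          refine h7.trans ?_
          have h8 : 1 / |2 * t| ≤ 16 * M ^ 5 := by
            rw [abs_mul, abs_two]
            rw [div_le_iff₀ (by positivity)] at h3
            rw [div_le_iff₀ (by positivity)]
            nlinarith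
          have h9 : (32 : ℝ) ≤ M ^ 5 := by
            have : (2 : ℝ) ^ 5 ≤ M ^ 5 := pow_le_pow_left₀ (by norm_num) hM 5
            norm_num at this
            exact this
          have h10 : M ≤ M ^ 6 := by
            have : M ^ 1 ≤ M ^ 6 := pow_le_pow_right₀ hM1 (by norm_num)
            rwa [pow_one] at this
          have h11 : 0 < M ^ 6 := by positivity
          calc M * (1 + 1 / |2 * t|) ≤ M * (1 + 16 * M ^ 5) :=
                mul_le_mul_of_nonneg_left (by linarith) hM0.le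
            _ = M + 16 * M ^ 6 := by ring
            _ ≤ 32 * M ^ 6 := by linarith
            _ ≤ M ^ 5 * M ^ 6 := mul_le_mul_of_nonneg_right h9 h11.le
            _ = M ^ 11 := by ring)
        σ₁ hσ hσ2
      rw [← pow_mul] at h5
      exact h5
    · have h3' : |t| < 1 / (32 * M ^ 5) := not_le.1 h3
      have h4 := hNB χ hχ h2
      have h5 := hDIF r χ (σ₁ : ℂ) ((σ₁ : ℂ) + (t : ℂ) * Complex.I) (M ^ 2)
        (by rw [Complex.ofReal_re]; exact hσ) (by rw [goo_re]; exact hσ) (fun z hz => by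
          obtain ⟨h6, h7⟩ := goo_seg σ₁ t z hz
          exact hU1 χ hχ 1 (by norm_num) z (by rw [h6]; exact hσ) (by rw [h6]; exact hσ2)
            (by linarith [abs_nonneg t]))
      have h6 : ‖(σ₁ : ℂ) - ((σ₁ : ℂ) + (t : ℂ) * Complex.I)‖ = |t| := by
        rw [sub_add_cancel_left, norm_neg, norm_mul, Complex.norm_I, mul_one, Complex.norm_real,
          Real.norm_eq_abs]
      rw [h6] at h5
      have h7 : M ^ 2 * |t| ≤ 1 / (32 * M ^ 3) := by
        calc M ^ 2 * |t| ≤ M ^ 2 * (1 / (32 * M ^ 5)) :=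
              mul_le_mul_of_nonneg_left h3'.le (by positivity)
          _ = 1 / (32 * M ^ 3) := by
              field_simp
      have h8 : 1 / (16 * M ^ 3) = 1 / (32 * M ^ 3) + 1 / (32 * M ^ 3) := by
        field_simp
        norm_num
      have h9 := norm_sub_norm_le (AJ χ 0 (σ₁ : ℂ)) (AJ χ 0 ((σ₁ : ℂ) + (t : ℂ) * Complex.I))
      have h10 := goo_final M hM 3 (by norm_num) 32 (by norm_num) (by norm_num)
      linarith
  · have h5 := hLBA hZUP hDIF r χ M t hr hM hA1
      (fun u h1 h6 => by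
        have h7 := hU1 (χ ^ 2) h2 0 (by norm_num) ((u : ℂ) + ((2 * t : ℝ) : ℂ) * Complex.I)
          (by rw [goo_re]; exact h1) (by rw [goo_re]; exact h6) (by rw [goo_im]; exact h2t)
        rwa [zero_add, pow_one] at h7)
      σ₁ hσ hσ2
    exact (goo_final M hM 7 (by norm_num) (2 ^ 7) (by norm_num) le_rfl).trans h5

end Pool.Agent.FCT
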