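import Pool.Agent.FCT.St3

/-!
# Project FCT, module GSX: squares of `n / φ(n)` on average over `n = k - s`, `(k, m) = 1`
-/

set_option autoImplicit false

namespace Pool.Agent.FCT

open Finset

namespace GSXx

/-! ### Products over the prime factors -/

/-- `φ(n) / n` -/
noncomputable def vv (n : ℕ) : ℝ := ∏ p ∈ n.primeFactors, (1 - (p : ℝ)⁻¹)

theorem tot_eq (n : ℕ) : (n.totient : ℝ) = n * vv n := by
  have h := Nat.totient_eq_mul_prod_factors n
  have h2 := congrArg (fun x : ℚ => (x : ℝ)) h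
  unfold vv
  push_cast at h2
  exact h2

theorem fac_pos {p : ℕ} (hp : p.Prime) : 0 < 1 - (p : ℝ)⁻¹ := by
  have h2 : (2 : ℝ) ≤ p := by exact_mod_cast hp.two_le
  have : (p : ℝ)⁻¹ ≤ 2⁻¹ := inv_anti₀ (by norm_num) h2
  norm_num at this ⊢
  linarith

theorem fac_le {p : ℕ} (_hp : p.Prime) : 1 - (p : ℝ)⁻¹ ≤ 1 := by
  have : 0 ≤ (p : ℝ)⁻¹ := by positivity
  linarith

theorem vv_pos (n : ℕ) : 0 < vv n :=
  Finset.prod_pos fun _ hp => fac_pos (Nat.prime_of_mem_primeFactors hp)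

theorem gq_eq {n : ℕ} (hn : n ≠ 0) : gq n = (vv n)⁻¹ := by
  have h0 : (n : ℝ) ≠ 0 := by exact_mod_cast hn
  have h1 := (vv_pos n).ne'
  unfold gq
  rw [tot_eq]
  field_simp

theorem gq_prod {n : ℕ} (hn : n ≠ 0) : gq n = ∏ p ∈ n.primeFactors, (1 - (p : ℝ)⁻¹)⁻¹ := by
  rw [gq_eq hn, vv, Finset.prod_inv_distrib]

/-- comparison of products over prime factors -/
theorem prod_cmp (c : ℝ) (hc : 1 ≤ c) (P : ℕ) (f g : ℕ → ℝ) (S : Finset ℕ)
    (hS : ∀ p ∈ S, p.Prime) (hf : ∀ p, p.Prime → 0 ≤ f p) (hg : ∀ p, p.Prime → 0 ≤ g p)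
    (h1 : ∀ p, p.Prime → P ≤ p → f p ≤ g p) (h2 : ∀ p, p.Prime → f p ≤ c * g p) :
    ∏ p ∈ S, f p ≤ c ^ P * ∏ p ∈ S, g p := by
  have h3 : ∏ p ∈ S, f p ≤ ∏ p ∈ S, ((if p < P then c else 1) * g p) := by
    refine Finset.prod_le_prod (fun p hp => hf p (hS p hp)) fun p hp => ?_
    by_cases h : p < P
    · rw [if_pos h]
      exact h2 p (hS p hp)
    · rw [if_neg h, one_mul]
      exact h1 p (hS p hp) (by omega)
  rw [Finset.prod_mul_distrib] at h3
  have h4 : ∏ p ∈ S, (if p < P then c else (1 : ℝ)) ≤ c ^ P := by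
    rw [Finset.prod_ite, Finset.prod_const_one, mul_one, Finset.prod_const]
    refine pow_le_pow_right₀ hc ?_
    calc (S.filter (· < P)).card ≤ (range P).card := Finset.card_le_card fun p hp => by
          rw [Finset.mem_filter] at hp
          exact Finset.mem_range.2 hp.2
      _ = P := Finset.card_range P
  exact h3.trans (mul_le_mul_of_nonneg_right h4 (Finset.prod_nonneg fun p hp => hg p (hS p hp)))

/-! ### The square of `n / φ(n)` -/

theorem inv_fac {p : ℕ} (hp : p.Prime) : (1 - (p : ℝ)⁻¹)⁻¹ = (p : ℝ) / (p - 1) := by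
  have h2 : (2 : ℝ) ≤ p := by exact_mod_cast hp.two_le
  have h3 : (p : ℝ) ≠ 0 := by linarith
  have h4 : (p : ℝ) - 1 ≠ 0 := by linarith
  rw [eq_div_iff h4]
  field_simp

theorem sq_small {p : ℕ} (hp : p.Prime) : ((1 - (p : ℝ)⁻¹)⁻¹) ^ 2 ≤ 4 := by
  have h2 : (2 : ℝ) ≤ p := by exact_mod_cast hp.two_le
  have h3 : (1 - (p : ℝ)⁻¹)⁻¹ ≤ 2 := by
    rw [inv_fac hp, div_le_iff₀ (by linarith)]
    linarith
  have h4 : 0 ≤ (1 - (p : ℝ)⁻¹)⁻¹ := (inv_pos.2 (fac_pos hp)).le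
  nlinarith

theorem sq_large {p : ℕ} (hp : p.Prime) (h10 : 10 ≤ p) :
    ((1 - (p : ℝ)⁻¹)⁻¹) ^ 2 ≤ 1 + 1 / Real.sqrt p := by
  have h2 : (10 : ℝ) ≤ p := by exact_mod_cast h10
  obtain ⟨r, hr⟩ : ∃ r, r = Real.sqrt p := ⟨_, rfl⟩
  have hr0 : 0 < r := by
    rw [hr]
    exact Real.sqrt_pos.2 (by linarith)
  have hrr : r ^ 2 = p := by
    rw [hr]
    exact Real.sq_sqrt (by linarith)
  have hr3 : 3 ≤ r := by
    by_contra h
    push Not at h
    nlinarith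
  rw [inv_fac hp, ← hr, div_pow, div_le_iff₀ (by nlinarith)]
  have e1 : (1 + 1 / r) * ((p : ℝ) - 1) ^ 2 = ((p : ℝ) - 1) ^ 2 + ((p : ℝ) - 1) ^ 2 / r := by
    field_simp
  rw [e1]
  have e2 : 2 * (p : ℝ) - 1 ≤ ((p : ℝ) - 1) ^ 2 / r := by
    rw [le_div_iff₀ hr0, ← hrr]
    have h5 : r ≤ r ^ 2 / 3 := by nlinarith
    have h6 : 0 ≤ 2 * r ^ 2 - 1 := by nlinarith
    have h7 : (2 * r ^ 2 - 1) * r ≤ (2 * r ^ 2 - 1) * (r ^ 2 / 3) :=
      mul_le_mul_of_nonneg_left h5 h6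
    have h8 : (10 : ℝ) ≤ r ^ 2 := by rw [hrr]; exact h2
    nlinarith
  nlinarith

theorem four_small {p : ℕ} (hp : p.Prime) :
    ((1 - (p : ℝ)⁻¹)⁻¹) ^ 2 ≤ 4 * (1 + 1 / Real.sqrt p) := by
  have h1 := sq_small hp
  have h2 : 0 ≤ 1 / Real.sqrt p := by positivity
  linarith

/-- a product over the prime factors is at most a sum over the divisors -/
theorem prod_le_div {n : ℕ} (hn : n ≠ 0) :
    ∏ p ∈ n.primeFactors, (1 + 1 / Real.sqrt p) ≤ ∑ d ∈ n.divisors, 1 / Real.sqrt d := by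
  rw [Finset.prod_one_add]
  have h1 : ∀ t ∈ n.primeFactors.powerset, ∏ p ∈ t, 1 / Real.sqrt (p : ℝ) =
      1 / Real.sqrt ((∏ p ∈ t, p : ℕ) : ℝ) := by
    intro t _
    push_cast
    rw [Real.sqrt_prod t (fun i _ => Nat.cast_nonneg i), Finset.prod_div_distrib,
      Finset.prod_const_one]
  rw [Finset.sum_congr rfl h1]
  have hinj : Set.InjOn (fun t : Finset ℕ => ∏ p ∈ t, p) (n.primeFactors.powerset : Set _) := by
    intro t ht t' ht' h
    rw [Finset.mem_coe, Finset.mem_powerset] at ht ht'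
    have e1 := Nat.primeFactors_prod (s := t) fun p hp => Nat.prime_of_mem_primeFactors (ht hp)
    have e2 := Nat.primeFactors_prod (s := t') fun p hp => Nat.prime_of_mem_primeFactors (ht' hp)
    rw [← e1, ← e2]
    exact congrArg Nat.primeFactors h
  rw [← Finset.sum_image (f := fun d : ℕ => 1 / Real.sqrt (d : ℝ)) hinj]
  refine Finset.sum_le_sum_of_subset_of_nonneg ?_ fun d _ _ => by positivity
  intro d hd
  rw [Finset.mem_image] at hd
  obtain ⟨t, ht, rfl⟩ := hd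
  rw [Finset.mem_powerset] at ht
  rw [Nat.mem_divisors]
  exact ⟨(Finset.prod_dvd_prod_of_subset _ _ _ ht).trans (Nat.prod_primeFactors_dvd n), hn⟩

theorem gq_sq {n : ℕ} (hn : n ≠ 0) :
    gq n ^ 2 ≤ 4 ^ 10 * ∑ d ∈ n.divisors, 1 / Real.sqrt d := by
  rw [gq_prod hn, ← Finset.prod_pow]
  refine (prod_cmp 4 (by norm_num) 10 (fun p => ((1 - (p : ℝ)⁻¹)⁻¹) ^ 2)
    (fun p => 1 + 1 / Real.sqrt p) n.primeFactors (fun p hp => Nat.prime_of_mem_primeFactors hp)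
    (fun p _ => sq_nonneg _) (fun p _ => by positivity) (fun p hp h => sq_large hp h)
    (fun p hp => four_small hp)).trans ?_
  exact mul_le_mul_of_nonneg_left (prod_le_div hn) (by norm_num)

/-! ### The size of `n / φ(n)` -/

theorem gq_le {n : ℕ} (hn : n ≠ 0) : gq n ≤ 2 ^ 5 * Real.sqrt (Real.sqrt n) := by
  rw [gq_prod hn]
  refine (prod_cmp 2 (by norm_num) 5 (fun p => (1 - (p : ℝ)⁻¹)⁻¹)
    (fun p => Real.sqrt (Real.sqrt p)) n.primeFactors
    (fun p hp => Nat.prime_of_mem_primeFactors hp)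
    (fun p hp => (inv_pos.2 (fac_pos hp)).le) (fun p _ => Real.sqrt_nonneg _)
    (fun p hp h => ?_) (fun p hp => ?_)).trans ?_
  · have h2 : (5 : ℝ) ≤ p := by exact_mod_cast h
    rw [inv_fac hp]
    have h3 : (p : ℝ) / (p - 1) ≤ 5 / 4 := by
      rw [div_le_iff₀ (by linarith)]
      linarith
    refine h3.trans ?_
    refine Real.le_sqrt_of_sq_le (Real.le_sqrt_of_sq_le ?_)
    norm_num
    linarith
  · have h2 : (2 : ℝ) ≤ p := by exact_mod_cast hp.two_le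
    have h3 : (1 - (p : ℝ)⁻¹)⁻¹ ≤ 2 := by
      rw [inv_fac hp, div_le_iff₀ (by linarith)]
      linarith
    have h4 : 1 ≤ Real.sqrt (Real.sqrt p) := by
      refine Real.le_sqrt_of_sq_le (Real.le_sqrt_of_sq_le ?_)
      rw [one_pow, one_pow]
      linarith
    linarith
  · refine mul_le_mul_of_nonneg_left ?_ (by norm_num)
    rw [← Real.sqrt_prod _ (fun i _ => Real.sqrt_nonneg _),
      ← Real.sqrt_prod _ (fun i _ => Nat.cast_nonneg i)]
    refine Real.sqrt_le_sqrt (Real.sqrt_le_sqrt ?_)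
    have h1 := Nat.le_of_dvd (Nat.pos_of_ne_zero hn) (Nat.prod_primeFactors_dvd n)
    have h2 : ((∏ p ∈ n.primeFactors, p : ℕ) : ℝ) ≤ n := by exact_mod_cast h1
    rw [Nat.cast_prod] at h2
    exact h2

/-! ### The part of `m` which is prime to `D` -/

/-- the product of the primes which divide `m` and do not divide `D` -/
def mp (m D : ℕ) : ℕ := ∏ p ∈ m.primeFactors.filter (fun p => ¬ p ∣ D), p

theorem mp_pf (m D : ℕ) : (mp m D).primeFactors = m.primeFactors.filter (fun p => ¬ p ∣ D) :=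
  Nat.primeFactors_prod fun _ hp => Nat.prime_of_mem_primeFactors (Finset.mem_filter.1 hp).1

theorem mp_dvd (m D : ℕ) : mp m D ∣ m :=
  (Finset.prod_dvd_prod_of_subset _ _ _ (Finset.filter_subset _ _)).trans
    (Nat.prod_primeFactors_dvd m)

theorem mp_pos (m D : ℕ) : 0 < mp m D :=
  Finset.prod_pos fun _ hp => (Nat.prime_of_mem_primeFactors (Finset.mem_filter.1 hp).1).pos

theorem mp_cop (m D : ℕ) : Nat.Coprime (mp m D) D := by
  refine Nat.Coprime.prod_left fun p hp => ?_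
  rw [Finset.mem_filter] at hp
  exact (Nat.Prime.coprime_iff_not_dvd (Nat.prime_of_mem_primeFactors hp.1)).2 hp.2

theorem vv_mp {m D : ℕ} (hD : D ≠ 0) : vv (mp m D) ≤ vv m * gq D := by
  have h1 : vv (mp m D) * vv D ≤ vv m := by
    unfold vv
    rw [mp_pf]
    have hdis : Disjoint (m.primeFactors.filter (fun p => ¬ p ∣ D)) D.primeFactors := by
      rw [Finset.disjoint_left]
      intro p hp hp'
      exact (Finset.mem_filter.1 hp).2 (Nat.dvd_of_mem_primeFactors hp')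
    rw [← Finset.prod_union hdis]
    have hpr : ∀ p ∈ m.primeFactors.filter (fun p => ¬ p ∣ D) ∪ D.primeFactors, p.Prime := by
      intro p hp
      rcases Finset.mem_union.1 hp with h | h
      · exact Nat.prime_of_mem_primeFactors (Finset.mem_filter.1 h).1
      · exact Nat.prime_of_mem_primeFactors h
    have hsub : m.primeFactors ⊆ m.primeFactors.filter (fun p => ¬ p ∣ D) ∪ D.primeFactors := by
      intro p hp
      rw [Finset.mem_union, Finset.mem_filter]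
      by_cases h : p ∣ D
      · exact Or.inr (Nat.mem_primeFactors.2 ⟨Nat.prime_of_mem_primeFactors hp, h, hD⟩)
      · exact Or.inl ⟨hp, h⟩
    rw [← Finset.prod_sdiff hsub]
    have h2 : ∏ p ∈ (m.primeFactors.filter (fun p => ¬ p ∣ D) ∪ D.primeFactors) \
        m.primeFactors, (1 - (p : ℝ)⁻¹) ≤ 1 :=
      Finset.prod_le_one
        (fun p hp => (fac_pos (hpr p (Finset.mem_sdiff.1 hp).1)).le)
        (fun p hp => fac_le (hpr p (Finset.mem_sdiff.1 hp).1))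
    have h3 : 0 ≤ ∏ p ∈ m.primeFactors, (1 - (p : ℝ)⁻¹) := (vv_pos m).le
    calc _ ≤ 1 * ∏ p ∈ m.primeFactors, (1 - (p : ℝ)⁻¹) := mul_le_mul_of_nonneg_right h2 h3
      _ = _ := one_mul _
  rw [gq_eq hD, ← div_eq_mul_inv, le_div_iff₀ (vv_pos D)]
  exact h1

/-! ### Counting -/

/-- the number of the elements of an interval in one class -/
theorem card_class (X Y : ℤ) (hXY : X ≤ Y) (q : ℕ) (hq : 0 < q) (v : ℤ) :
    (((Ioc X Y).filter (fun k => k ≡ v [ZMOD (q : ℤ)])).card : ℝ) ≤ ((Y : ℝ) - X) / q + 1 := by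
  have h := Int.Ioc_filter_modEq_card X Y (show (0 : ℤ) < (q : ℤ) by exact_mod_cast hq) v
  have hq' : (0 : ℚ) < q := by exact_mod_cast hq
  have h1 : (((Ioc X Y).filter (fun k => k ≡ v [ZMOD (q : ℤ)])).card : ℚ) ≤
      ((Y : ℚ) - X) / q + 1 := by
    have h2 : (((Ioc X Y).filter (fun k => k ≡ v [ZMOD (q : ℤ)])).card : ℤ) =
      max (⌊((Y : ℚ) - v) / ((q : ℤ) : ℚ)⌋ - ⌊((X : ℚ) - v) / ((q : ℤ) : ℚ)⌋) 0 := by
      exact_mod_cast h
    have h3 : (((Ioc X Y).filter (fun k => k ≡ v [ZMOD (q : ℤ)])).card : ℚ) =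
      ((max (⌊((Y : ℚ) - v) / ((q : ℤ) : ℚ)⌋ - ⌊((X : ℚ) - v) / ((q : ℤ) : ℚ)⌋) 0 : ℤ) : ℚ) := by
      exact_mod_cast h2
    rw [h3]
    have h4 := Int.floor_le (((Y : ℚ) - v) / ((q : ℤ) : ℚ))
    have h5 := Int.lt_floor_add_one (((X : ℚ) - v) / ((q : ℤ) : ℚ))
    have h6 : ((Y : ℚ) - v) / ((q : ℤ) : ℚ) - ((X : ℚ) - v) / ((q : ℤ) : ℚ) =
        ((Y : ℚ) - X) / q := by
      rw [← sub_div]
      push_cast
      congr 1
      ring
    have h7 : 0 ≤ ((Y : ℚ) - X) / q := by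
      refine div_nonneg ?_ hq'.le
      have : (X : ℚ) ≤ Y := by exact_mod_cast hXY
      linarith
    push_cast at h4 h5 h6 ⊢
    refine max_le ?_ (by linarith)
    linarith
  exact_mod_cast h1

theorem card_bound (m D : ℕ) (hm : 0 < m) (hD : 0 < D) (X Y s : ℤ) (hXY : X ≤ Y) :
    (((Ioc X Y).filter (fun k => IsCoprime k (m : ℤ) ∧ (D : ℤ) ∣ k - s)).card : ℝ) ≤
      vv m * gq D * (((Y : ℝ) - X) / D) + m := by
  classical
  obtain ⟨m', hm'⟩ : ∃ m', m' = mp m D := ⟨_, rfl⟩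
  have hm0 : 0 < m' := by
    rw [hm']
    exact mp_pos m D
  have hcop : Nat.Coprime m' D := by
    rw [hm']
    exact mp_cop m D
  have hdvd : m' ∣ m := by
    rw [hm']
    exact mp_dvd m D
  obtain ⟨R, hR⟩ : ∃ R : Finset ℕ, R = (range (m' * D)).filter
    (fun r => Nat.Coprime m' r ∧ (D : ℤ) ∣ (r : ℤ) - s) := ⟨_, rfl⟩
  have hRc : R.card ≤ m'.totient := by
    rw [Nat.totient_eq_card_coprime]
    refine Finset.card_le_card_of_injOn (fun r => r % m') (fun r hr => ?_) ?_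
    · rw [hR, Finset.mem_coe, Finset.mem_filter] at hr
      rw [Finset.mem_coe, Finset.mem_filter, Finset.mem_range]
      refine ⟨Nat.mod_lt _ hm0, ?_⟩
      show Nat.Coprime m' (r % m')
      rw [Nat.Coprime, Nat.gcd_comm, ← Nat.gcd_rec]
      exact hr.2.1
    · intro r hr r' hr' h
      rw [hR, Finset.mem_coe, Finset.mem_filter, Finset.mem_range] at hr hr'
      have e1 : r ≡ r' [MOD m'] := h
      have e2 : r ≡ r' [MOD D] := by
        rw [← Int.natCast_modEq_iff, Int.modEq_iff_dvd]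
        have := dvd_sub hr'.2.2 hr.2.2
        rwa [sub_sub_sub_cancel_right] at this
      have e3 := (Nat.modEq_and_modEq_iff_modEq_mul hcop).1 ⟨e1, e2⟩
      exact Nat.ModEq.eq_of_lt_of_lt e3 hr.1 hr'.1
  have hq : 0 < m' * D := Nat.mul_pos hm0 hD
  have hsub : (Ioc X Y).filter (fun k => IsCoprime k (m : ℤ) ∧ (D : ℤ) ∣ k - s) ⊆
      R.biUnion (fun r => (Ioc X Y).filter (fun k => k ≡ (r : ℤ) [ZMOD ((m' * D : ℕ) : ℤ)])) := by
    intro k hk
    rw [Finset.mem_filter] at hk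
    rw [Finset.mem_biUnion]
    have hqz : (0 : ℤ) < ((m' * D : ℕ) : ℤ) := by exact_mod_cast hq
    have h0 := Int.emod_nonneg k hqz.ne'
    have hlt := Int.emod_lt_of_pos k hqz
    obtain ⟨r, hr⟩ := Int.eq_ofNat_of_zero_le h0
    have hmod : k ≡ (r : ℤ) [ZMOD ((m' * D : ℕ) : ℤ)] := by
      rw [← hr]
      exact (Int.mod_modEq _ _).symm
    have hmd := Int.modEq_iff_dvd.1 hmod
    refine ⟨r, ?_, Finset.mem_filter.2 ⟨hk.1, hmod⟩⟩
    rw [hR, Finset.mem_filter, Finset.mem_range]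
    refine ⟨by
      rw [hr] at hlt
      exact_mod_cast hlt, ?_, ?_⟩
    · have h1 : (m' : ℤ) ∣ (r : ℤ) - k := by
        refine dvd_trans ?_ hmd
        push_cast
        exact dvd_mul_right _ _
      have h2 : IsCoprime k (m' : ℤ) :=
        hk.2.1.of_isCoprime_of_dvd_right (by exact_mod_cast hdvd)
      have h3 : IsCoprime (r : ℤ) (m' : ℤ) := by
        obtain ⟨c, hc⟩ := h1
        have : (r : ℤ) = k + (m' : ℤ) * c := by linarith
        rw [this]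
        exact h2.add_mul_left_left c
      exact (Nat.isCoprime_iff_coprime.1 h3).symm
    · have h1 : (D : ℤ) ∣ (r : ℤ) - k := by
        refine dvd_trans ?_ hmd
        push_cast
        exact dvd_mul_left _ _
      have := dvd_add h1 hk.2.2
      rwa [sub_add_sub_cancel] at this
  have hcard : (((Ioc X Y).filter (fun k => IsCoprime k (m : ℤ) ∧ (D : ℤ) ∣ k - s)).card : ℝ) ≤
      (R.card : ℝ) * (((Y : ℝ) - X) / ((m' * D : ℕ) : ℝ) + 1) := by
    have h1 := (Finset.card_le_card hsub).trans Finset.card_biUnion_le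
    calc (((Ioc X Y).filter (fun k => IsCoprime k (m : ℤ) ∧ (D : ℤ) ∣ k - s)).card : ℝ) ≤
        ((∑ r ∈ R, ((Ioc X Y).filter
          (fun k => k ≡ (r : ℤ) [ZMOD ((m' * D : ℕ) : ℤ)])).card : ℕ) : ℝ) := by
          exact_mod_cast h1
      _ = ∑ r ∈ R, (((Ioc X Y).filter
          (fun k => k ≡ (r : ℤ) [ZMOD ((m' * D : ℕ) : ℤ)])).card : ℝ) := by
          rw [Nat.cast_sum]
      _ ≤ ∑ r ∈ R, (((Y : ℝ) - X) / ((m' * D : ℕ) : ℝ) + 1) :=
          Finset.sum_le_sum fun r _ => card_class X Y hXY (m' * D) hq r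
      _ = _ := by rw [Finset.sum_const, nsmul_eq_mul]
  have hXY' : (0 : ℝ) ≤ (Y : ℝ) - X := by
    have : (X : ℝ) ≤ Y := by exact_mod_cast hXY
    linarith
  have hm0' : (0 : ℝ) < m' := by exact_mod_cast hm0
  have hD' : (0 : ℝ) < D := by exact_mod_cast hD
  have hR1 : (R.card : ℝ) ≤ m' * vv m' := by
    rw [← tot_eq]
    exact_mod_cast hRc
  have hvm : vv m' ≤ vv m * gq D := by
    rw [hm']
    exact vv_mp hD.ne'
  have hR2 : (R.card : ℝ) ≤ m := by
    have h1 : m'.totient ≤ m := (Nat.totient_le m').trans (Nat.le_of_dvd hm hdvd)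
    exact_mod_cast hRc.trans h1
  have hq0 : 0 ≤ ((Y : ℝ) - X) / ((m' * D : ℕ) : ℝ) := div_nonneg hXY' (Nat.cast_nonneg _)
  calc _ ≤ (R.card : ℝ) * (((Y : ℝ) - X) / ((m' * D : ℕ) : ℝ) + 1) := hcard
    _ = (R.card : ℝ) * (((Y : ℝ) - X) / ((m' * D : ℕ) : ℝ)) + R.card := by ring
    _ ≤ (m' * vv m') * (((Y : ℝ) - X) / ((m' * D : ℕ) : ℝ)) + m :=
        add_le_add (mul_le_mul_of_nonneg_right hR1 hq0) hR2
    _ = vv m' * (((Y : ℝ) - X) / D) + m := by
        push_cast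
        field_simp
    _ ≤ _ := by
        have := mul_le_mul_of_nonneg_right hvm (div_nonneg hXY' hD'.le)
        linarith

/-! ### Sums -/

theorem sum_inv_sqrt (H : ℕ) : ∑ d ∈ Icc 1 H, 1 / Real.sqrt d ≤ 2 * Real.sqrt H := by
  induction H with
  | zero => simp
  | succ H ih =>
    rw [Finset.sum_Icc_succ_top (by omega)]
    have h0 : (0 : ℝ) ≤ H := Nat.cast_nonneg H
    have h1 : 0 < Real.sqrt ((H + 1 : ℕ) : ℝ) := by
      rw [Real.sqrt_pos]
      positivity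
    have h2 : Real.sqrt ((H + 1 : ℕ) : ℝ) ^ 2 = (H : ℝ) + 1 := by
      rw [Real.sq_sqrt (Nat.cast_nonneg _)]
      push_cast
      ring
    have h3 : Real.sqrt (H : ℝ) ^ 2 = H := Real.sq_sqrt h0
    have h4 : 0 ≤ Real.sqrt (H : ℝ) := Real.sqrt_nonneg _
    have h5 : 1 / Real.sqrt ((H + 1 : ℕ) : ℝ) ≤
        2 * (Real.sqrt ((H + 1 : ℕ) : ℝ) - Real.sqrt (H : ℝ)) := by
      rw [div_le_iff₀ h1]
      nlinarith [sq_nonneg (Real.sqrt ((H + 1 : ℕ) : ℝ) - Real.sqrt (H : ℝ))]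
    linarith

theorem sum_conv : ∃ S : ℝ, 0 ≤ S ∧ ∀ H : ℕ,
    ∑ d ∈ Icc 1 H, 1 / Real.sqrt d * (Real.sqrt (Real.sqrt d) / d) ≤ S := by
  have hs : Summable (fun n : ℕ => 1 / (n : ℝ) ^ (5 / 4 : ℝ)) :=
    Real.summable_one_div_nat_rpow.2 (by norm_num)
  refine ⟨∑' n : ℕ, 1 / (n : ℝ) ^ (5 / 4 : ℝ), tsum_nonneg fun n => by positivity, fun H => ?_⟩
  have h1 : ∀ d ∈ Icc 1 H, 1 / Real.sqrt (d : ℝ) * (Real.sqrt (Real.sqrt d) / d) =
      1 / (d : ℝ) ^ (5 / 4 : ℝ) := by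
    intro d hd
    have hd1 : (0 : ℝ) < d := by exact_mod_cast (Finset.mem_Icc.1 hd).1
    rw [Real.sqrt_eq_rpow, Real.sqrt_eq_rpow, ← Real.rpow_mul hd1.le, one_div_mul_eq_div,
      div_div, div_eq_div_iff (by positivity) (by positivity), one_mul, ← Real.rpow_add hd1]
    nth_rewrite 2 [← Real.rpow_one (d : ℝ)]
    rw [← Real.rpow_add hd1]
    norm_num
  rw [Finset.sum_congr rfl h1]
  exact hs.sum_le_tsum _ fun n _ => by positivity

end GSXx

open GSXx in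
theorem t_GSX : S_GSX := by
  classical
  obtain ⟨S, hS0, hS⟩ := sum_conv
  refine ⟨4 ^ 10 * 2 ^ 5 * S + 1, by
    have : 0 ≤ 4 ^ 10 * 2 ^ 5 * S := by positivity
    linarith, fun m hm => ⟨4 ^ 10 * (m * 2), by positivity, fun X Y s hXY => ?_⟩⟩
  obtain ⟨H, hH⟩ : ∃ H : ℕ, H = (X - s).natAbs + (Y - s).natAbs := ⟨_, rfl⟩
  obtain ⟨T, hT⟩ : ∃ T : Finset ℤ, T = (Ioc X Y).filter
    (fun k => IsCoprime k (m : ℤ) ∧ k ≠ s) := ⟨_, rfl⟩
  rw [← hT]
  have hXY' : (0 : ℝ) ≤ (Y : ℝ) - X := by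
    have : (X : ℝ) ≤ Y := by exact_mod_cast hXY
    linarith
  have hmpos : (0 : ℝ) < m := by exact_mod_cast hm
  have h1 : ∀ k ∈ T, gq (k - s).natAbs ^ 2 ≤
      4 ^ 10 * ∑ d ∈ Icc 1 H, if (d : ℤ) ∣ k - s then 1 / Real.sqrt d else 0 := by
    intro k hk
    rw [hT, Finset.mem_filter, Finset.mem_Ioc] at hk
    have hn : (k - s).natAbs ≠ 0 := by
      rw [Int.natAbs_ne_zero]
      exact sub_ne_zero.2 hk.2.2
    refine (gq_sq hn).trans (mul_le_mul_of_nonneg_left ?_ (by norm_num))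
    rw [← Finset.sum_filter]
    refine Finset.sum_le_sum_of_subset_of_nonneg ?_ fun d _ _ => by positivity
    intro d hd
    rw [Nat.mem_divisors] at hd
    have h3 := Nat.le_of_dvd (Nat.pos_of_ne_zero hn) hd.1
    have h4 : 0 < d := Nat.pos_of_dvd_of_pos hd.1 (Nat.pos_of_ne_zero hn)
    rw [Finset.mem_filter, Finset.mem_Icc]
    refine ⟨⟨h4, ?_⟩, Int.natCast_dvd.2 hd.1⟩
    omega
  have h2 : ∑ k ∈ T, gq (k - s).natAbs ^ 2 ≤
      4 ^ 10 * ∑ d ∈ Icc 1 H, 1 / Real.sqrt d *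
        (((Ioc X Y).filter (fun k => IsCoprime k (m : ℤ) ∧ (d : ℤ) ∣ k - s)).card : ℝ) := by
    refine (Finset.sum_le_sum h1).trans ?_
    rw [← Finset.mul_sum, Finset.sum_comm]
    refine mul_le_mul_of_nonneg_left (Finset.sum_le_sum fun d _ => ?_) (by norm_num)
    rw [← Finset.sum_filter, Finset.sum_const, nsmul_eq_mul, mul_comm]
    refine mul_le_mul_of_nonneg_left ?_ (by positivity)
    have h3 : (T.filter (fun k => (d : ℤ) ∣ k - s)).card ≤
        ((Ioc X Y).filter (fun k => IsCoprime k (m : ℤ) ∧ (d : ℤ) ∣ k - s)).card := by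
      refine Finset.card_le_card fun k hk => ?_
      rw [hT, Finset.mem_filter, Finset.mem_filter] at hk
      rw [Finset.mem_filter]
      exact ⟨hk.1.1, hk.1.2.1, hk.2⟩
    exact_mod_cast h3
  have h3 : ∀ d ∈ Icc 1 H, 1 / Real.sqrt (d : ℝ) *
      (((Ioc X Y).filter (fun k => IsCoprime k (m : ℤ) ∧ (d : ℤ) ∣ k - s)).card : ℝ) ≤
      (2 ^ 5 * (vv m * ((Y : ℝ) - X))) *
        (1 / Real.sqrt d * (Real.sqrt (Real.sqrt d) / d)) + m * (1 / Real.sqrt d) := by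
    intro d hd
    have hd1 : 0 < d := (Finset.mem_Icc.1 hd).1
    have hd0 : (0 : ℝ) < d := by exact_mod_cast hd1
    have h4 := card_bound m d (by omega) hd1 X Y s hXY
    have h5 := gq_le hd1.ne'
    have h6 : vv m * gq d * (((Y : ℝ) - X) / d) ≤
        vv m * (2 ^ 5 * Real.sqrt (Real.sqrt d)) * (((Y : ℝ) - X) / d) :=
      mul_le_mul_of_nonneg_right (mul_le_mul_of_nonneg_left h5 (vv_pos m).le)
        (div_nonneg hXY' hd0.le)
    calc 1 / Real.sqrt (d : ℝ) *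
        (((Ioc X Y).filter (fun k => IsCoprime k (m : ℤ) ∧ (d : ℤ) ∣ k - s)).card : ℝ) ≤
        1 / Real.sqrt (d : ℝ) *
          (vv m * (2 ^ 5 * Real.sqrt (Real.sqrt d)) * (((Y : ℝ) - X) / d) + m) :=
          mul_le_mul_of_nonneg_left (by linarith) (by positivity)
      _ = _ := by ring
  have h4 : ∑ k ∈ T, gq (k - s).natAbs ^ 2 ≤
      4 ^ 10 * ((2 ^ 5 * (vv m * ((Y : ℝ) - X))) * S + m * (2 * Real.sqrt H)) := by
    refine h2.trans (mul_le_mul_of_nonneg_left ?_ (by norm_num))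
    refine (Finset.sum_le_sum h3).trans ?_
    rw [Finset.sum_add_distrib, ← Finset.mul_sum, ← Finset.mul_sum]
    have h5 : 0 ≤ 2 ^ 5 * (vv m * ((Y : ℝ) - X)) := by
      have := (vv_pos m).le
      positivity
    exact add_le_add (mul_le_mul_of_nonneg_left (hS H) h5)
      (mul_le_mul_of_nonneg_left (sum_inv_sqrt H) hmpos.le)
  have h5 : Real.sqrt H ≤ Real.sqrt (|(X : ℝ) - s| + |(Y : ℝ) - s| + 1) := by
    refine Real.sqrt_le_sqrt ?_
    have e1 : ((X - s).natAbs : ℝ) = |(X : ℝ) - s| := by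
      rw [Nat.cast_natAbs]
      push_cast
      rfl
    have e2 : ((Y - s).natAbs : ℝ) = |(Y : ℝ) - s| := by
      rw [Nat.cast_natAbs]
      push_cast
      rfl
    rw [hH, Nat.cast_add, e1, e2]
    linarith
  have h6 : (m.totient : ℝ) / m = vv m := by
    rw [tot_eq]
    field_simp
  rw [h6]
  have h7 : 0 ≤ vv m * ((Y : ℝ) - X) := mul_nonneg (vv_pos m).le hXY'
  have h8 := mul_le_mul_of_nonneg_left h5 (show (0 : ℝ) ≤ 4 ^ 10 * (m * 2) by positivity)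
  calc ∑ k ∈ T, gq (k - s).natAbs ^ 2 ≤
      4 ^ 10 * ((2 ^ 5 * (vv m * ((Y : ℝ) - X))) * S + m * (2 * Real.sqrt H)) := h4
    _ = 4 ^ 10 * 2 ^ 5 * S * (vv m * ((Y : ℝ) - X)) + 4 ^ 10 * (m * 2) * Real.sqrt H := by ring
    _ ≤ (4 ^ 10 * 2 ^ 5 * S + 1) * (vv m * ((Y : ℝ) - X)) +
        4 ^ 10 * (m * 2) * Real.sqrt (|(X : ℝ) - s| + |(Y : ℝ) - s| + 1) := by linarith

end Pool.Agent.FCT
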