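import Pool.Agent.FCT.St4
import Pool.Agent.FCT.GSX

/-!
# Project FCT, module GSV: squares of `n / φ(n)` on average over `n = q k - s`, `(k, m) = 1`
-/

set_option autoImplicit false

namespace Pool.Agent.FCT

open Finset

namespace GSVx

open GSXx

theorem gq_nn (n : ℕ) : 0 ≤ gq n := by
  unfold gq
  positivity

/-- the count of the `k` in an interval which are prime to `m`, with `D ∣ q k - s` -/
theorem card_boundq (m D : ℕ) (hm : 0 < m) (hD : 0 < D) (q s X Y : ℤ) (hqs : IsCoprime q s)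
    (hXY : X ≤ Y) :
    (((Ioc X Y).filter (fun k => IsCoprime k (m : ℤ) ∧ (D : ℤ) ∣ q * k - s)).card : ℝ) ≤
      vv m * gq D * (((Y : ℝ) - X) / D) + m := by
  classical
  have hXY' : (0 : ℝ) ≤ (Y : ℝ) - X := by
    have : (X : ℝ) ≤ Y := by exact_mod_cast hXY
    linarith
  by_cases h : IsCoprime (D : ℤ) q
  · obtain ⟨u, v, huv⟩ := h
    refine le_trans ?_ (card_bound m D hm hD X Y (v * s) hXY)
    have h1 : ((Ioc X Y).filter (fun k => IsCoprime k (m : ℤ) ∧ (D : ℤ) ∣ q * k - s)).card ≤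
        ((Ioc X Y).filter (fun k => IsCoprime k (m : ℤ) ∧ (D : ℤ) ∣ k - v * s)).card := by
      refine Finset.card_le_card fun k hk => ?_
      rw [Finset.mem_filter] at hk
      rw [Finset.mem_filter]
      refine ⟨hk.1, hk.2.1, ?_⟩
      obtain ⟨c, hc⟩ := hk.2.2
      exact ⟨u * k + v * c, by linear_combination (-k) * huv + v * hc⟩
    exact_mod_cast h1
  · have h1 : (Ioc X Y).filter (fun k => IsCoprime k (m : ℤ) ∧ (D : ℤ) ∣ q * k - s) = ∅ := by
      refine Finset.filter_eq_empty_iff.2 fun k _ hk => h ?_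
      obtain ⟨a, b, hab⟩ := hqs
      obtain ⟨c, hc⟩ := hk.2
      exact ⟨-b * c, a + b * k, by linear_combination hab + b * hc⟩
    rw [h1, Finset.card_empty, Nat.cast_zero]
    have h2 := (vv_pos m).le
    have h3 := gq_nn D
    have h4 : 0 ≤ ((Y : ℝ) - X) / D := div_nonneg hXY' (Nat.cast_nonneg _)
    positivity

/-- the values of `q k - s` on an interval -/
theorem abs_bound (q s X Y k : ℤ) (h1 : X < k) (h2 : k ≤ Y) :
    (q * k - s).natAbs ≤ (q * X - s).natAbs + (q * Y - s).natAbs := by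
  rcases le_total 0 q with hq | hq
  · have e1 : q * X ≤ q * k := mul_le_mul_of_nonneg_left h1.le hq
    have e2 : q * k ≤ q * Y := mul_le_mul_of_nonneg_left h2 hq
    generalize q * X = a at e1 e2 ⊢
    generalize q * Y = b at e1 e2 ⊢
    generalize q * k = c at e1 e2 ⊢
    omega
  · have e1 : q * k ≤ q * X := mul_le_mul_of_nonpos_left h1.le hq
    have e2 : q * Y ≤ q * k := mul_le_mul_of_nonpos_left h2 hq
    generalize q * X = a at e1 e2 ⊢
    generalize q * Y = b at e1 e2 ⊢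
    generalize q * k = c at e1 e2 ⊢
    omega

end GSVx

open GSXx GSVx in
theorem t_GSV : S_GSV := by
  classical
  obtain ⟨S, hS0, hS⟩ := sum_conv
  refine ⟨4 ^ 10 * 2 ^ 5 * S + 1, by
    have : 0 ≤ 4 ^ 10 * 2 ^ 5 * S := by positivity
    linarith, fun m hm => ⟨4 ^ 10 * (m * 2), by positivity, fun q s X Y _hq hqs hXY => ?_⟩⟩
  obtain ⟨H, hH⟩ : ∃ H : ℕ, H = (q * X - s).natAbs + (q * Y - s).natAbs := ⟨_, rfl⟩
  obtain ⟨T, hT⟩ : ∃ T : Finset ℤ, T = (Ioc X Y).filter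
    (fun k => IsCoprime k (m : ℤ) ∧ q * k ≠ s) := ⟨_, rfl⟩
  rw [← hT]
  have hXY' : (0 : ℝ) ≤ (Y : ℝ) - X := by
    have : (X : ℝ) ≤ Y := by exact_mod_cast hXY
    linarith
  have hmpos : (0 : ℝ) < m := by exact_mod_cast hm
  have h1 : ∀ k ∈ T, gq (q * k - s).natAbs ^ 2 ≤
      4 ^ 10 * ∑ d ∈ Icc 1 H, if (d : ℤ) ∣ q * k - s then 1 / Real.sqrt d else 0 := by
    intro k hk
    rw [hT, Finset.mem_filter, Finset.mem_Ioc] at hk
    have hn : (q * k - s).natAbs ≠ 0 := by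
      rw [Int.natAbs_ne_zero]
      exact sub_ne_zero.2 hk.2.2
    refine (gq_sq hn).trans (mul_le_mul_of_nonneg_left ?_ (by norm_num))
    rw [← Finset.sum_filter]
    refine Finset.sum_le_sum_of_subset_of_nonneg ?_ fun d _ _ => by positivity
    intro d hd
    rw [Nat.mem_divisors] at hd
    have h3 := Nat.le_of_dvd (Nat.pos_of_ne_zero hn) hd.1
    have h4 : 0 < d := Nat.pos_of_dvd_of_pos hd.1 (Nat.pos_of_ne_zero hn)
    rw [Finset.mem_filter, Finset.mem_Icc]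
    refine ⟨⟨h4, ?_⟩, Int.natCast_dvd.2 hd.1⟩
    rw [hH]
    exact h3.trans (abs_bound q s X Y k hk.1.1 hk.1.2)
  have h2 : ∑ k ∈ T, gq (q * k - s).natAbs ^ 2 ≤
      4 ^ 10 * ∑ d ∈ Icc 1 H, 1 / Real.sqrt d *
        (((Ioc X Y).filter (fun k => IsCoprime k (m : ℤ) ∧ (d : ℤ) ∣ q * k - s)).card : ℝ) := by
    refine (Finset.sum_le_sum h1).trans ?_
    rw [← Finset.mul_sum, Finset.sum_comm]
    refine mul_le_mul_of_nonneg_left (Finset.sum_le_sum fun d _ => ?_) (by norm_num)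
    rw [← Finset.sum_filter, Finset.sum_const, nsmul_eq_mul, mul_comm]
    refine mul_le_mul_of_nonneg_left ?_ (by positivity)
    have h3 : (T.filter (fun k => (d : ℤ) ∣ q * k - s)).card ≤
        ((Ioc X Y).filter (fun k => IsCoprime k (m : ℤ) ∧ (d : ℤ) ∣ q * k - s)).card := by
      refine Finset.card_le_card fun k hk => ?_
      rw [hT, Finset.mem_filter, Finset.mem_filter] at hk
      rw [Finset.mem_filter]
      exact ⟨hk.1.1, hk.1.2.1, hk.2⟩
    exact_mod_cast h3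
  have h3 : ∀ d ∈ Icc 1 H, 1 / Real.sqrt (d : ℝ) *
      (((Ioc X Y).filter (fun k => IsCoprime k (m : ℤ) ∧ (d : ℤ) ∣ q * k - s)).card : ℝ) ≤
      (2 ^ 5 * (vv m * ((Y : ℝ) - X))) *
        (1 / Real.sqrt d * (Real.sqrt (Real.sqrt d) / d)) + m * (1 / Real.sqrt d) := by
    intro d hd
    have hd1 : 0 < d := (Finset.mem_Icc.1 hd).1
    have hd0 : (0 : ℝ) < d := by exact_mod_cast hd1
    have h4 := card_boundq m d (by omega) hd1 q s X Y hqs hXY
    have h5 := gq_le hd1.ne'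
    have h6 : vv m * gq d * (((Y : ℝ) - X) / d) ≤
        vv m * (2 ^ 5 * Real.sqrt (Real.sqrt d)) * (((Y : ℝ) - X) / d) :=
      mul_le_mul_of_nonneg_right (mul_le_mul_of_nonneg_left h5 (vv_pos m).le)
        (div_nonneg hXY' hd0.le)
    calc 1 / Real.sqrt (d : ℝ) *
        (((Ioc X Y).filter (fun k => IsCoprime k (m : ℤ) ∧ (d : ℤ) ∣ q * k - s)).card : ℝ) ≤
        1 / Real.sqrt (d : ℝ) *
          (vv m * (2 ^ 5 * Real.sqrt (Real.sqrt d)) * (((Y : ℝ) - X) / d) + m) :=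
          mul_le_mul_of_nonneg_left (by linarith) (by positivity)
      _ = _ := by ring
  have h4 : ∑ k ∈ T, gq (q * k - s).natAbs ^ 2 ≤
      4 ^ 10 * ((2 ^ 5 * (vv m * ((Y : ℝ) - X))) * S + m * (2 * Real.sqrt H)) := by
    refine h2.trans (mul_le_mul_of_nonneg_left ?_ (by norm_num))
    refine (Finset.sum_le_sum h3).trans ?_
    rw [Finset.sum_add_distrib, ← Finset.mul_sum, ← Finset.mul_sum]
    have h5 : 0 ≤ 2 ^ 5 * (vv m * ((Y : ℝ) - X)) := by
      have := (vv_pos m).le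
      positivity
    exact add_le_add (mul_le_mul_of_nonneg_left (hS H) h5)
      (mul_le_mul_of_nonneg_left (sum_inv_sqrt H) hmpos.le)
  have h5 : Real.sqrt H ≤ Real.sqrt (|(q : ℝ) * X - s| + |(q : ℝ) * Y - s| + 1) := by
    refine Real.sqrt_le_sqrt ?_
    have e1 : ((q * X - s).natAbs : ℝ) = |(q : ℝ) * X - s| := by
      rw [Nat.cast_natAbs]
      push_cast
      rfl
    have e2 : ((q * Y - s).natAbs : ℝ) = |(q : ℝ) * Y - s| := by
      rw [Nat.cast_natAbs]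
      push_cast
      rfl
    rw [hH, Nat.cast_add, e1, e2]
    linarith
  have h6 : (m.totient : ℝ) / m = vv m := by
    rw [tot_eq]
    field_simp
  rw [h6]
  have h7 : 0 ≤ vv m * ((Y : ℝ) - X) := mul_nonneg (vv_pos m).le hXY'
  have h8 := mul_le_mul_of_nonneg_left h5 (show (0 : ℝ) ≤ 4 ^ 10 * (m * 2) by positivity)
  calc ∑ k ∈ T, gq (q * k - s).natAbs ^ 2 ≤
      4 ^ 10 * ((2 ^ 5 * (vv m * ((Y : ℝ) - X))) * S + m * (2 * Real.sqrt H)) := h4
    _ = 4 ^ 10 * 2 ^ 5 * S * (vv m * ((Y : ℝ) - X)) + 4 ^ 10 * (m * 2) * Real.sqrt H := by ring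
    _ ≤ (4 ^ 10 * 2 ^ 5 * S + 1) * (vv m * ((Y : ℝ) - X)) +
        4 ^ 10 * (m * 2) * Real.sqrt (|(q : ℝ) * X - s| + |(q : ℝ) * Y - s| + 1) := by linarith

end Pool.Agent.FCT
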