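import Pool.Agent.FCT.St2

/-!
# FCT, part II: the hits of the composed map (module HITX)
-/

set_option autoImplicit false

namespace Pool.Agent.FCT

open Finset Pool.Agent.Lib_helper9.LG
open Pool.Agent.FXD (Bij)

namespace HITXx

lemma bij_modEq {σ : ℕ → ℕ} {l : ℕ} (h : Bij σ l) {x y : ℕ} (hxy : x ≡ y [MOD l]) :
    σ x ≡ σ y [MOD l] := by
  have h1 : ∀ x, σ (x % l) ≡ σ x [MOD l] := by
    intro x
    have h2 := h.per_mul (x / l) (x % l)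
    have e : x % l + x / l * l = x := Nat.mod_add_div' x l
    rw [e] at h2
    exact h2.symm
  have h3 : x % l = y % l := hxy
  have h4 := h1 y
  rw [← h3] at h4
  exact (h1 x).symm.trans h4

/-- the inverse of the affine map -/
lemma exists_psi (Q : Finset ℕ) (a : ℤ) (r : ℕ) (hQ : ∀ l ∈ Q, l.Prime ∧ r < l) (hr : 1 ≤ r) :
    ∃ ψ : ℕ → ℕ, ∀ t : ℕ, ∀ l ∈ Q, (l : ℤ) ∣ a + (r : ℤ) * (ψ t : ℤ) - (t : ℤ) := by
  have hp0 : 0 < ∏ l ∈ Q, l := Finset.prod_pos fun l hl => (hQ l hl).1.pos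
  have hcop : Nat.Coprime r (∏ l ∈ Q, l) := by
    refine Nat.Coprime.prod_right fun l hl => ?_
    exact ((Nat.Prime.coprime_iff_not_dvd (hQ l hl).1).2
      (Nat.not_dvd_of_pos_of_lt hr (hQ l hl).2)).symm
  obtain ⟨r', hr'⟩ : ∃ r' : ℕ, (r : ℤ) * (r' : ℤ) ≡ 1 [ZMOD ((∏ l ∈ Q, l : ℕ) : ℤ)] := by
    have h1 : IsCoprime (r : ℤ) ((∏ l ∈ Q, l : ℕ) : ℤ) := Nat.isCoprime_iff_coprime.2 hcop
    obtain ⟨u, v, huv⟩ := h1
    refine ⟨(u % ((∏ l ∈ Q, l : ℕ) : ℤ)).toNat, ?_⟩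
    have h2 : 0 ≤ u % ((∏ l ∈ Q, l : ℕ) : ℤ) := Int.emod_nonneg _ (by exact_mod_cast hp0.ne')
    rw [Int.toNat_of_nonneg h2]
    have h3 : (r : ℤ) * (u % ((∏ l ∈ Q, l : ℕ) : ℤ)) ≡ r * u [ZMOD ((∏ l ∈ Q, l : ℕ) : ℤ)] :=
      (Int.mod_modEq u _).mul_left _
    refine h3.trans ?_
    rw [Int.modEq_iff_dvd]
    refine ⟨v, ?_⟩
    rw [← huv]
    ring
  have hA : 0 ≤ (-a) % ((∏ l ∈ Q, l : ℕ) : ℤ) := Int.emod_nonneg _ (by exact_mod_cast hp0.ne')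
  refine ⟨fun t => r' * (t + ((-a) % ((∏ l ∈ Q, l : ℕ) : ℤ)).toNat), fun t l hl => ?_⟩
  have hlp : (l : ℤ) ∣ ((∏ l ∈ Q, l : ℕ) : ℤ) :=
    Int.natCast_dvd_natCast.2 (Finset.dvd_prod_of_mem (fun l => l) hl)
  refine hlp.trans ?_
  push_cast
  rw [show (∏ l ∈ Q, (l : ℤ)) = ((∏ l ∈ Q, l : ℕ) : ℤ) by push_cast; rfl]
  set p : ℤ := ((∏ l ∈ Q, l : ℕ) : ℤ) with hp
  obtain ⟨c, hc⟩ := (Int.modEq_iff_dvd.1 hr')
  obtain ⟨d, hd⟩ := (Int.modEq_iff_dvd.1 (Int.mod_modEq (-a) p))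
  refine ⟨-(c * (t + (-a) % p)) - d, ?_⟩
  have hT : ((((-a) % p).toNat : ℕ) : ℤ) = (-a) % p := Int.toNat_of_nonneg hA
  linear_combination (-(t + (-a) % p)) * hc - hd + (r : ℤ) * r' * hT

/-- hits -/
lemma root {τ : ℕ → ℕ} {l : ℕ} (hl : 0 < l) (h : Bij τ l) (c : ℕ) :
    ∃ x < l, ∀ t : ℕ, (l ∣ τ t + c ↔ t % l = x) := by
  have hinj : Set.InjOn (fun c => τ c % l) (range l : Set ℕ) := by
    intro c hc c' hc' he
    have hc := mem_range.1 (mem_coe.1 hc)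
    have hc' := mem_range.1 (mem_coe.1 hc')
    have h2 := h.2 c c' he
    rw [Nat.ModEq, Nat.mod_eq_of_lt hc, Nat.mod_eq_of_lt hc'] at h2
    exact h2
  have himg : (range l).image (fun c => τ c % l) = range l := by
    apply eq_of_subset_of_card_le
    · intro y hy
      obtain ⟨c, hc, rfl⟩ := mem_image.1 hy
      exact mem_range.2 (Nat.mod_lt _ hl)
    · rw [card_image_of_injOn hinj]
  obtain ⟨e, he⟩ : ∃ e < l, l ∣ e + c := by
    refine ⟨(l - c % l) % l, Nat.mod_lt _ hl, ?_⟩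
    rw [← Nat.modEq_zero_iff_dvd]
    have h1 : (l - c % l) % l + c ≡ (l - c % l) + c % l [MOD l] :=
      (Nat.mod_modEq _ _).add (Nat.mod_modEq _ _).symm
    refine h1.trans ?_
    rw [Nat.sub_add_cancel (Nat.mod_lt _ hl).le]
    exact (Nat.modEq_zero_iff_dvd.2 dvd_rfl)
  have hmem : e ∈ (range l).image (fun c => τ c % l) := by
    rw [himg]
    exact mem_range.2 he.1
  obtain ⟨x, hx, hxe⟩ := mem_image.1 hmem
  have hx := mem_range.1 hx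
  have hroot : l ∣ τ x + c := by
    rw [← Nat.modEq_zero_iff_dvd]
    have h1 : τ x + c ≡ e + c [MOD l] := by
      refine Nat.ModEq.add_right _ ?_
      have h2 : τ x % l = e := hxe
      rw [← h2]
      exact (Nat.mod_modEq _ _).symm
    exact h1.trans (Nat.modEq_zero_iff_dvd.2 he.2)
  refine ⟨x, hx, fun t => ⟨fun ht => ?_, fun ht => ?_⟩⟩
  · have h1 : τ t + c ≡ τ x + c [MOD l] :=
      (Nat.modEq_zero_iff_dvd.2 ht).trans (Nat.modEq_zero_iff_dvd.2 hroot).symm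
    have h2 := h.2 t x (Nat.ModEq.add_right_cancel' c h1)
    rw [Nat.ModEq, Nat.mod_eq_of_lt hx] at h2
    exact h2
  · have h1 : t ≡ x [MOD l] := by
      rw [Nat.ModEq, Nat.mod_eq_of_lt hx]
      exact ht
    have h2 : τ t + c ≡ τ x + c [MOD l] := (bij_modEq h h1).add_right _
    exact Nat.modEq_zero_iff_dvd.1 (h2.trans (Nat.modEq_zero_iff_dvd.2 hroot))

lemma eq_of_dvd {l m k k' s : ℕ} (hl : l.Prime) (hm : ¬ l ∣ m) (hk : k < l) (hk' : k' < l)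
    (h : l ∣ s + k * m) (h' : l ∣ s + k' * m) : k = k' := by
  have h1 : (l : ℤ) ∣ ((k : ℤ) - k') * m := by
    have h2 := dvd_sub (Int.natCast_dvd_natCast.2 h) (Int.natCast_dvd_natCast.2 h')
    push_cast at h2
    have e : (s : ℤ) + k * m - (s + k' * m) = ((k : ℤ) - k') * m := by ring
    rwa [e] at h2
  rcases (Nat.prime_iff_prime_int.1 hl).dvd_or_dvd h1 with h3 | h3
  · have h4 : k' ≡ k [MOD l] := (Nat.modEq_iff_dvd).2 h3
    rw [Nat.ModEq, Nat.mod_eq_of_lt hk, Nat.mod_eq_of_lt hk'] at h4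
    exact h4.symm
  · exact absurd (Int.natCast_dvd_natCast.1 h3) hm

/-- the function `Gc` depends only on the hits -/
lemma gc_congr (P : ℕ → Finset ℕ) (b : ℕ → ℕ) (N m : ℕ) (Q' S : Finset ℕ) (a B B₁ : ℝ)
    (c c' : ℕ) (hiff : ∀ l ∈ SS P N ∪ Q', ∀ k ∈ S, (l ∣ c + k * m ↔ l ∣ c' + k * m)) :
    Pool.Agent.IPP.Gc P b N m Q' S a B B₁ c = Pool.Agent.IPP.Gc P b N m Q' S a B B₁ c' := by
  unfold Pool.Agent.IPP.Gc GD
  refine Finset.sum_congr rfl fun α _ => ?_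
  congr 1
  congr 1
  · unfold Lm
    refine Finset.prod_congr rfl fun j hj => ?_
    congr 1
    unfold om
    congr 1
    refine Finset.filter_congr fun l hl => ?_
    have hlS : l ∈ SS P N ∪ Q' := by
      refine Finset.mem_union_left _ ?_
      unfold SS
      exact Finset.mem_biUnion.2 ⟨j, hj, hl⟩
    refine exists_congr fun k => and_congr_right fun hk => ?_
    obtain ⟨k0, -, rfl⟩ := Finset.mem_map.1 hk
    exact hiff l hlS _ k0.2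
  · unfold vl
    refine Finset.prod_congr rfl fun i _ => ?_
    cases α i with
    | none => rfl
    | some k =>
      simp only [Option.elim]
      unfold xx
      have := hiff i (Finset.mem_union_right _ i.2) k k.2
      by_cases hd : (i : ℕ) ∣ c + k * m
      · rw [if_pos hd, if_pos (this.1 hd)]
      · rw [if_neg hd, if_neg (fun h => hd (this.2 h))]

end HITXx

open HITXx in
theorem t_HITX : S_HITX := by
  intro P bb N a m r i Q' S α B B₁ σ hQ hS hr hi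
  obtain ⟨ψ, hψ⟩ := exists_psi (SS P N ∪ Q') a r
    (fun l hl => ⟨(hQ l hl).1, (hQ l hl).2.2.1⟩) hr
  have hcopr : ∀ l ∈ SS P N ∪ Q', ∀ x : ℤ, (l : ℤ) ∣ (r : ℤ) * x → (l : ℤ) ∣ x := by
    intro l hl x hx
    rcases (Nat.prime_iff_prime_int.1 (hQ l hl).1).dvd_or_dvd hx with h3 | h3
    · exact absurd (Int.natCast_dvd_natCast.1 h3)
        (Nat.not_dvd_of_pos_of_lt hr (hQ l hl).2.2.1)
    · exact h3
  have hbψ : ∀ l ∈ SS P N ∪ Q', Bij (fun t => σ (ψ t)) l := by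
    intro l hl
    have hσ := (hQ l hl).2.2.2.2.1
    constructor
    · intro c
      refine bij_modEq hσ ?_
      rw [Nat.modEq_iff_dvd]
      refine hcopr l hl _ ?_
      have h1 := hψ c l hl
      have h2 := hψ (c + l) l hl
      have h3 : (l : ℤ) ∣ (a + (r : ℤ) * (ψ c : ℤ) - (c : ℤ)) -
          (a + (r : ℤ) * (ψ (c + l) : ℤ) - ((c + l : ℕ) : ℤ)) - l :=
        dvd_sub (dvd_sub h1 h2) dvd_rfl
      have e : (a + (r : ℤ) * (ψ c : ℤ) - (c : ℤ)) -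
          (a + (r : ℤ) * (ψ (c + l) : ℤ) - ((c + l : ℕ) : ℤ)) - l =
          (r : ℤ) * ((ψ c : ℤ) - (ψ (c + l) : ℤ)) := by
        push_cast
        ring
      rwa [e] at h3
    · intro c c' hc
      have h0 := hσ.2 _ _ hc
      rw [Nat.modEq_iff_dvd] at h0 ⊢
      have h1 := hψ c l hl
      have h2 := hψ c' l hl
      have h3 : (l : ℤ) ∣ (a + (r : ℤ) * (ψ c : ℤ) - (c : ℤ)) -
          (a + (r : ℤ) * (ψ c' : ℤ) - (c' : ℤ)) + (r : ℤ) * ((ψ c' : ℤ) - (ψ c : ℤ)) :=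
        dvd_add (dvd_sub h1 h2) (h0.mul_left _)
      have e : (a + (r : ℤ) * (ψ c : ℤ) - (c : ℤ)) -
          (a + (r : ℤ) * (ψ c' : ℤ) - (c' : ℤ)) + (r : ℤ) * ((ψ c' : ℤ) - (ψ c : ℤ)) =
          (c' : ℤ) - c := by
        ring
      rwa [e] at h3
  have hroot : ∀ l ∈ SS P N ∪ Q', ∀ k : ℕ,
      ∃ x < l, ∀ t : ℕ, (l ∣ σ (ψ t) + k * m ↔ t % l = x) := fun l hl k =>
    root (hQ l hl).1.pos (hbψ l hl) (k * m)
  classical
  set ρ : ℕ → {k // k ∈ S} → ℕ := fun l k =>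
    if h : l ∈ SS P N ∪ Q' then (hroot l h k).choose else 0 with hρ
  have hρ1 : ∀ l ∈ SS P N ∪ Q', ∀ k, ρ l k < l ∧
      ∀ t : ℕ, (l ∣ σ (ψ t) + k * m ↔ t % l = ρ l k) := by
    intro l hl k
    have e : ρ l k = (hroot l hl k).choose := by
      rw [hρ]
      exact dif_pos hl
    rw [e]
    exact (hroot l hl k).choose_spec
  refine ⟨ψ, ρ, hbψ, ?_, ⟨fun l hl => (hQ l hl).1, fun l hl k => (hρ1 l hl k).1,
    fun l hl k => ?_, fun l hl k k' hkk' => ?_⟩, ?_⟩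
  · intro q n hqn l hl
    refine bij_modEq (hQ l hl).2.2.2.2.1 ?_
    rw [Nat.modEq_iff_dvd]
    refine hcopr l hl _ ?_
    have h1 := hψ q l hl
    have e : (r : ℤ) * ((n : ℤ) - (ψ q : ℤ)) = -(a + (r : ℤ) * (ψ q : ℤ) - (q : ℤ)) := by
      rw [hqn]
      ring
    rw [e]
    exact (dvd_neg).2 h1
  · rw [Nat.pos_iff_ne_zero]
    intro h0
    have h1 : l ∣ σ (ψ 0) + k * m := ((hρ1 l hl k).2 0).2 (by rw [h0, Nat.zero_mod])
    have h2 := hψ 0 l hl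
    rw [Nat.cast_zero, sub_zero] at h2
    have h3 := ((hQ l hl).2.2.2.2.2 (ψ 0)).1 h2
    have h4 := eq_of_dvd (hQ l hl).1 (hQ l hl).2.1 (hS l hl k k.2) (hQ l hl).2.2.2.1 h1 h3
    exact hi (h4 ▸ k.2)
  · have hlt := (hρ1 l hl k).1
    have h1 : l ∣ σ (ψ (ρ l k)) + k * m := ((hρ1 l hl k).2 _).2 (Nat.mod_eq_of_lt hlt)
    have h2 : l ∣ σ (ψ (ρ l k)) + k' * m := ((hρ1 l hl k').2 _).2 (by
      rw [Nat.mod_eq_of_lt hlt]
      exact hkk')
    exact Subtype.ext (eq_of_dvd (hQ l hl).1 (hQ l hl).2.1 (hS l hl k k.2) (hS l hl k' k'.2) h1 h2)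
  · intro n n' h
    refine gc_congr P bb N m Q' S α B B₁ _ _ fun l hl k hk => ?_
    rw [(hρ1 l hl ⟨k, hk⟩).2 n, (hρ1 l hl ⟨k, hk⟩).2 n']
    exact h l hl ⟨k, hk⟩

end Pool.Agent.FCT
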