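import Pool.Agent.FCT.St3
import Pool.Agent.FCT.HITX

/-!
# FCT, part IV: the class of the prime `q` for every site (module HITY)
-/

set_option autoImplicit false

namespace Pool.Agent.FCT

open Finset Pool.Agent.Lib_helper9.LG
open Pool.Agent.FXD (Bij)

open HITXx in
theorem t_HITY : S_HITY := by
  intro Qt a m r i S σ hQ hS hr hi
  obtain ⟨ψ, hψ⟩ := exists_psi Qt a r
    (fun l hl => ⟨(hQ l hl).1, (hQ l hl).2.2.1⟩) hr
  have hcopr : ∀ l ∈ Qt, ∀ x : ℤ, (l : ℤ) ∣ (r : ℤ) * x → (l : ℤ) ∣ x := by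
    intro l hl x hx
    rcases (Nat.prime_iff_prime_int.1 (hQ l hl).1).dvd_or_dvd hx with h3 | h3
    · exact absurd (Int.natCast_dvd_natCast.1 h3)
        (Nat.not_dvd_of_pos_of_lt hr (hQ l hl).2.2.1)
    · exact h3
  have hbψ : ∀ l ∈ Qt, Bij (fun t => σ (ψ t)) l := by
    intro l hl
    have hσ := (hQ l hl).2.2.2.2.1
    constructor
    · intro c
      refine bij_modEq hσ ?_
      rw [Nat.modEq_iff_dvd]
      refine hcopr l hl _ ?_
      have h1 := hψ c l hl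
      have h2 := hψ (c + l) l hl
      have h3 : (l : ℤ) ∣ (a + (r : ℤ) * (ψ c : ℤ) - (c : ℤ)) -
          (a + (r : ℤ) * (ψ (c + l) : ℤ) - ((c + l : ℕ) : ℤ)) - l :=
        dvd_sub (dvd_sub h1 h2) dvd_rfl
      have e : (a + (r : ℤ) * (ψ c : ℤ) - (c : ℤ)) -
          (a + (r : ℤ) * (ψ (c + l) : ℤ) - ((c + l : ℕ) : ℤ)) - l =
          (r : ℤ) * ((ψ c : ℤ) - (ψ (c + l) : ℤ)) := by
        push_cast
        ring
      rwa [e] at h3
    · intro c c' hc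
      have h0 := hσ.2 _ _ hc
      rw [Nat.modEq_iff_dvd] at h0 ⊢
      have h1 := hψ c l hl
      have h2 := hψ c' l hl
      have h3 : (l : ℤ) ∣ (a + (r : ℤ) * (ψ c : ℤ) - (c : ℤ)) -
          (a + (r : ℤ) * (ψ c' : ℤ) - (c' : ℤ)) + (r : ℤ) * ((ψ c' : ℤ) - (ψ c : ℤ)) :=
        dvd_add (dvd_sub h1 h2) (h0.mul_left _)
      have e : (a + (r : ℤ) * (ψ c : ℤ) - (c : ℤ)) -
          (a + (r : ℤ) * (ψ c' : ℤ) - (c' : ℤ)) + (r : ℤ) * ((ψ c' : ℤ) - (ψ c : ℤ)) =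
          (c' : ℤ) - c := by
        ring
      rwa [e] at h3
  have hroot : ∀ l ∈ Qt, ∀ k : ℕ,
      ∃ x < l, ∀ t : ℕ, (l ∣ σ (ψ t) + k * m ↔ t % l = x) := fun l hl k =>
    root (hQ l hl).1.pos (hbψ l hl) (k * m)
  classical
  set ρ : ℕ → {k // k ∈ S} → ℕ := fun l k =>
    if h : l ∈ Qt then (hroot l h k).choose else 0 with hρ
  have hρ1 : ∀ l ∈ Qt, ∀ k, ρ l k < l ∧
      ∀ t : ℕ, (l ∣ σ (ψ t) + k * m ↔ t % l = ρ l k) := by
    intro l hl k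
    have e : ρ l k = (hroot l hl k).choose := by
      rw [hρ]
      exact dif_pos hl
    rw [e]
    exact (hroot l hl k).choose_spec
  refine ⟨ψ, ρ, hbψ, ?_, ⟨fun l hl => (hQ l hl).1, fun l hl k => (hρ1 l hl k).1,
    fun l hl k => ?_, fun l hl k k' hkk' => ?_⟩, ?_⟩
  · intro q n hqn l hl
    refine bij_modEq (hQ l hl).2.2.2.2.1 ?_
    rw [Nat.modEq_iff_dvd]
    refine hcopr l hl _ ?_
    have h1 := hψ q l hl
    have e : (r : ℤ) * ((n : ℤ) - (ψ q : ℤ)) = -(a + (r : ℤ) * (ψ q : ℤ) - (q : ℤ)) := by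
      rw [hqn]
      ring
    rw [e]
    exact (dvd_neg).2 h1
  · rw [Nat.pos_iff_ne_zero]
    intro h0
    have h1 : l ∣ σ (ψ 0) + k * m := ((hρ1 l hl k).2 0).2 (by rw [h0, Nat.zero_mod])
    have h2 := hψ 0 l hl
    rw [Nat.cast_zero, sub_zero] at h2
    have h3 := ((hQ l hl).2.2.2.2.2 (ψ 0)).1 h2
    have h4 := eq_of_dvd (hQ l hl).1 (hQ l hl).2.1 (hS l hl k k.2) (hQ l hl).2.2.2.1 h1 h3
    exact hi (h4 ▸ k.2)
  · have hlt := (hρ1 l hl k).1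
    have h1 : l ∣ σ (ψ (ρ l k)) + k * m := ((hρ1 l hl k).2 _).2 (Nat.mod_eq_of_lt hlt)
    have h2 : l ∣ σ (ψ (ρ l k)) + k' * m := ((hρ1 l hl k').2 _).2 (by
      rw [Nat.mod_eq_of_lt hlt]
      exact hkk')
    exact Subtype.ext (eq_of_dvd (hQ l hl).1 (hQ l hl).2.1 (hS l hl k k.2) (hS l hl k' k'.2) h1 h2)
  · intro t l hl k
    exact ((hρ1 l hl k).2 t).symm

end Pool.Agent.FCT
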