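import Pool.Agent.FCT.St2
import Pool.Agent.IPP.INT

set_option autoImplicit false

/-!
FCT, module INTX: functions of the hits on the primes `a + r (b + W x)`.
-/

namespace Pool.Agent.FCT

open Finset

namespace INTXx

open Pool.Agent.IPP (mean pr Hits Fac Lev StmtLEV StmtLP)

theorem exp_sq (L : ℝ) (hL : 100000 ≤ L) : 3 / 2 * L ^ 2 ≤ Real.exp (L / 50) := by
  have h := Real.pow_div_factorial_le_exp (x := L / 50) (by linarith) 4
  have h2 : ((Nat.factorial 4 : ℕ) : ℝ) = 24 := by norm_num [Nat.factorial]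
  rw [h2] at h
  refine le_trans ?_ h
  rw [le_div_iff₀ (by norm_num)]
  have h4 : (L / 50) ^ 4 = L ^ 2 * L ^ 2 / 6250000 := by ring
  rw [h4]
  have h3 : (10 : ℝ) ^ 10 ≤ L ^ 2 := by nlinarith
  nlinarith [sq_nonneg L]

theorem exp_sqrt (L : ℝ) (hL : 100000 ≤ L) : Real.exp (2 * Real.sqrt L) ≤ Real.exp (L / 50) := by
  rw [Real.exp_le_exp]
  have h0 : 0 ≤ L := by linarith
  have h1 : (100 : ℝ) ≤ Real.sqrt L := by
    apply Real.le_sqrt_of_sq_le
    linarith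
  have h2 : Real.sqrt L * Real.sqrt L = L := Real.mul_self_sqrt h0
  nlinarith

theorem base_pos (a : ℤ) (r b : ℕ) (hr : 1 ≤ r) (hb : 2 * a.natAbs + 1 ≤ b) :
    0 ≤ a + (r : ℤ) * (b : ℤ) := by
  have h1 : (b : ℤ) ≤ (r : ℤ) * b := by
    have h2 : (1 : ℤ) ≤ r := by exact_mod_cast hr
    have h3 : (0 : ℤ) ≤ b := Int.natCast_nonneg b
    nlinarith
  have h4 : ((2 * a.natAbs + 1 : ℕ) : ℤ) ≤ b := by exact_mod_cast hb
  have h5 := neg_abs_le a
  have h6 : (a.natAbs : ℤ) = |a| := Int.natCast_natAbs a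
  push_cast at h4
  linarith [abs_nonneg a]

theorem qv_cast (a : ℤ) (r b : ℕ) (hr : 1 ≤ r) (hb : 2 * a.natAbs + 1 ≤ b) :
    ((qv a r b : ℕ) : ℤ) = a + (r : ℤ) * (b : ℤ) := by
  unfold qv
  exact Int.toNat_of_nonneg (base_pos a r b hr hb)

theorem qv_eq (a : ℤ) (r W b x : ℕ) (hr : 1 ≤ r) (hb : 2 * a.natAbs + 1 ≤ b) :
    qv a r (b + W * x) = qv a r b + W * r * x := by
  have h1 := qv_cast a r b hr hb
  have h2 := qv_cast a r (b + W * x) hr (by omega)
  have h3 : ((qv a r (b + W * x) : ℕ) : ℤ) = ((qv a r b + W * r * x : ℕ) : ℤ) := by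
    rw [h2]
    push_cast
    rw [h1]
    ring
  exact_mod_cast h3

theorem qv_coprime (a : ℤ) (W b r : ℕ) (L : ℝ) (h : Prog a W b r L) :
    (qv a r b).Coprime (W * r) := by
  have h1 := qv_cast a r b h.hr h.hb1
  apply Nat.Coprime.mul_right
  · rw [← Nat.isCoprime_iff_coprime, h1]
    exact h.hbr
  · rw [← Nat.isCoprime_iff_coprime, h1]
    exact h.har.add_mul_left_left b

/-- The primes of the progression. -/
theorem sum_pil (a : ℤ) (W b r : ℕ) (L : ℝ) (h : Prog a W b r L) (hL : 100000 ≤ L)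
    (G : ℕ → ℝ) :
    ∑ x ∈ PiL a r W b L, lwX a r W b x * G (qv a r (b + W * x)) =
      ∑ n ∈ ((Ioc ⌊(r : ℝ) * Real.exp L⌋₊ ⌊3 / 2 * ((r : ℝ) * Real.exp L)⌋₊).filter
        (fun n => n % (W * r) = qv a r b % (W * r))).filter (fun n => n.Prime),
        ArithmeticFunction.vonMangoldt n * G n := by
  have hr := h.hr
  have hb := h.hb1
  have hW := h.hW
  have hr0 : (1 : ℝ) ≤ r := by exact_mod_cast hr
  have hW0 : (1 : ℝ) ≤ W := by exact_mod_cast hW
  have hE : (0 : ℝ) < Real.exp L := Real.exp_pos L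
  have hbE : (b : ℝ) ≤ Real.exp L / 4 := by
    refine h.hb2.trans ?_
    have h1 : Real.exp (L / 4) * 4 ≤ Real.exp (L / 4) * Real.exp (3 * L / 4) := by
      apply mul_le_mul_of_nonneg_left _ (Real.exp_pos _).le
      have := Real.add_one_le_exp (3 * L / 4)
      linarith
    rw [← Real.exp_add, show L / 4 + 3 * L / 4 = L by ring] at h1
    linarith
  have hWE : (W : ℝ) ≤ Real.exp L / 2 := by
    refine h.hWL.trans ((exp_sqrt L hL).trans ?_)
    have h1 : Real.exp (L / 50) * 2 ≤ Real.exp (L / 50) * Real.exp (49 * L / 50) := by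
      apply mul_le_mul_of_nonneg_left _ (Real.exp_pos _).le
      have := Real.add_one_le_exp (49 * L / 50)
      linarith
    rw [← Real.exp_add, show L / 50 + 49 * L / 50 = L by ring] at h1
    linarith
  have hs : ((qv a r b : ℕ) : ℝ) ≤ r * Real.exp L := by
    have h1 := qv_cast a r b hr hb
    have h2 : ((qv a r b : ℕ) : ℝ) = (a : ℝ) + (r : ℝ) * (b : ℝ) := by exact_mod_cast h1
    have h3 : (a : ℝ) ≤ (a.natAbs : ℝ) := by
      have h4 : a ≤ (a.natAbs : ℤ) := by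
        rw [Int.natCast_natAbs]
        exact le_abs_self a
      have h4' : ((a : ℤ) : ℝ) ≤ (((a.natAbs : ℕ) : ℤ) : ℝ) := Int.cast_le.mpr h4
      rwa [Int.cast_natCast] at h4'
    have h5 : ((2 * a.natAbs + 1 : ℕ) : ℝ) ≤ b := by exact_mod_cast hb
    push_cast at h5
    rw [h2]
    nlinarith
  refine Finset.sum_bij (fun x _ => qv a r (b + W * x)) ?_ ?_ ?_ ?_
  · intro x hx
    rw [PiL, Finset.mem_filter] at hx
    rw [Finset.mem_filter, Finset.mem_filter, Finset.mem_Ioc]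
    refine ⟨⟨⟨hx.2.2.1, hx.2.2.2⟩, ?_⟩, hx.2.1⟩
    rw [qv_eq a r W b x hr hb, Nat.add_mul_mod_self_left]
  · intro x _ y _ hxy
    have h0 : qv a r (b + W * x) = qv a r (b + W * y) := hxy
    rw [qv_eq a r W b x hr hb, qv_eq a r W b y hr hb] at h0
    have h1 : W * r * x = W * r * y := by omega
    exact Nat.eq_of_mul_eq_mul_left (Nat.mul_pos (by omega) (by omega)) h1
  · intro n hn
    rw [Finset.mem_filter, Finset.mem_filter, Finset.mem_Ioc] at hn
    obtain ⟨⟨⟨h1, h2⟩, h3⟩, h4⟩ := hn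
    have h5 : (r : ℝ) * Real.exp L < n := (Nat.floor_lt (by positivity)).mp h1
    have h6 : (n : ℝ) ≤ 3 / 2 * ((r : ℝ) * Real.exp L) :=
      (Nat.cast_le.mpr h2).trans (Nat.floor_le (by positivity))
    have h7 : qv a r b ≤ n := by
      have : ((qv a r b : ℕ) : ℝ) ≤ n := by linarith
      exact_mod_cast this
    have h8 : W * r ∣ n - qv a r b := (Nat.modEq_iff_dvd' h7).mp h3.symm
    obtain ⟨k, hk⟩ := h8
    have h9 : n = qv a r (b + W * k) := by
      rw [qv_eq a r W b k hr hb]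
      omega
    have h10 : k < M0 L W := by
      rw [M0]
      have h11 : k + 1 ≤ ⌊2 * Real.exp L / W⌋₊ := by
        apply Nat.le_floor
        rw [le_div_iff₀ (by linarith)]
        have h12 : W * r * k ≤ n := by omega
        have h13 : ((W * r * k : ℕ) : ℝ) ≤ n := by exact_mod_cast h12
        push_cast at h13 ⊢
        have h14 : (r : ℝ) * (W * k) ≤ r * (3 / 2 * Real.exp L) := by linarith
        have h15 : (W : ℝ) * k ≤ 3 / 2 * Real.exp L := le_of_mul_le_mul_left h14 (by linarith)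
        linarith
      omega
    refine ⟨k, ?_, h9.symm⟩
    rw [PiL, Finset.mem_filter, Finset.mem_range]
    rw [← h9]
    exact ⟨h10, h4, h1, h2⟩
  · intro x hx
    rw [PiL, Finset.mem_filter] at hx
    rw [lwX, ArithmeticFunction.vonMangoldt_apply_prime hx.2.1]

end INTXx

open INTXx Pool.Agent.IPP in
/-- INTX: functions of the hits on the primes `a + r (b + W x)`. -/
theorem t_INTX : S_INTX := by
  classical
  intro hLEV hLP
  obtain ⟨C, hC, hLP⟩ := hLP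
  refine ⟨48 * C + 100000 + 8, by linarith, ?_⟩
  intro Q κ _ ρ F z D a W b r L hH hFac hLev hD hQz hz1 hz2 hz3 hz4 hCL hP
  obtain ⟨-, -, -, -, hbd, -, -⟩ := hLEV Q hH.prime
  obtain ⟨-, hFD, hper⟩ := hbd D F hLev
  have hL5 : 100000 ≤ L := by linarith
  have hCL' : C ≤ L := by linarith
  have hL0 : 0 ≤ L := by linarith
  have hr := hP.hr
  have hb := hP.hb1
  have hW := hP.hW
  have hr0 : (1 : ℝ) ≤ r := by exact_mod_cast hr
  have hW0 : (1 : ℝ) ≤ W := by exact_mod_cast hW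
  have hE : (0 : ℝ) < Real.exp L := Real.exp_pos L
  have hEL : L + 1 ≤ Real.exp L := Real.add_one_le_exp L
  obtain ⟨A, hA⟩ : ∃ A : ℝ, A = (r : ℝ) * Real.exp L := ⟨_, rfl⟩
  have hAE : Real.exp L ≤ A := by rw [hA]; nlinarith
  have hA5 : 100000 ≤ A := by linarith
  have hrE : 3 / 2 * (r : ℝ) ≤ Real.exp (L / 50) := by
    refine le_trans ?_ (exp_sq L hL5)
    have := hP.hrL
    linarith
  have hrE' : (r : ℝ) ≤ Real.exp (L / 50) := by linarith
  have hWE : (W : ℝ) ≤ Real.exp (L / 50) := hP.hWL.trans (exp_sqrt L hL5)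
  obtain ⟨X₁, hX₁⟩ : ∃ X₁, X₁ = ⌊A⌋₊ := ⟨_, rfl⟩
  obtain ⟨X₂, hX₂⟩ : ∃ X₂, X₂ = ⌊3 / 2 * A⌋₊ := ⟨_, rfl⟩
  have x1u : (X₁ : ℝ) ≤ A := by rw [hX₁]; exact Nat.floor_le (by linarith)
  have x1l : A < X₁ + 1 := by rw [hX₁]; exact Nat.lt_floor_add_one A
  have x2u : (X₂ : ℝ) ≤ 3 / 2 * A := by rw [hX₂]; exact Nat.floor_le (by linarith)
  have x2l : 3 / 2 * A < X₂ + 1 := by rw [hX₂]; exact Nat.lt_floor_add_one _
  have hX12 : X₁ < X₂ := by
    have : (X₁ : ℝ) < X₂ := by linarith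
    exact_mod_cast this
  have hX22 : X₂ ≤ 2 * X₁ := by
    have : (X₂ : ℝ) ≤ ((2 * X₁ : ℕ) : ℝ) := by
      push_cast
      linarith
    exact_mod_cast this
  have hX2A : A ≤ X₂ := by linarith
  have hX2E : Real.exp L ≤ X₂ := by linarith
  have hX20 : (0 : ℝ) < X₂ := by linarith
  have hX21 : (1 : ℝ) ≤ X₂ := by linarith
  have hX2up : (X₂ : ℝ) ≤ Real.exp (51 / 50 * L) := by
    calc (X₂ : ℝ) ≤ 3 / 2 * A := x2u
      _ = 3 / 2 * (r : ℝ) * Real.exp L := by rw [hA]; ring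
      _ ≤ Real.exp (L / 50) * Real.exp L := mul_le_mul_of_nonneg_right hrE hE.le
      _ = Real.exp (51 / 50 * L) := by rw [← Real.exp_add]; congr 1; ring
  have hlogX : Real.log X₂ ≤ 2 * L := by
    have h1 : Real.log X₂ ≤ Real.log (Real.exp (51 / 50 * L)) := Real.log_le_log hX20 hX2up
    rw [Real.log_exp] at h1
    linarith
  have hlogX0 : 0 ≤ Real.log X₂ := Real.log_nonneg hX21
  have hWr : ((W * r : ℕ) : ℝ) ≤ Real.exp (L / 25) := by
    push_cast
    calc (W : ℝ) * r ≤ Real.exp (L / 50) * Real.exp (L / 50) :=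
          mul_le_mul hWE hrE' (by linarith) (Real.exp_pos _).le
      _ = Real.exp (L / 25) := by rw [← Real.exp_add]; congr 1; ring
  have hX2rp : ∀ t : ℝ, 0 ≤ t → Real.exp (L * t) ≤ (X₂ : ℝ) ^ t := by
    intro t ht
    rw [Real.exp_mul]
    exact Real.rpow_le_rpow hE.le hX2E ht
  have hX2ru : ∀ t : ℝ, 0 ≤ t → (X₂ : ℝ) ^ t ≤ Real.exp (51 / 50 * L * t) := by
    intro t ht
    rw [Real.exp_mul (51 / 50 * L) t]
    exact Real.rpow_le_rpow hX20.le hX2up ht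
  have hWX : ((W * r : ℕ) : ℝ) ≤ (X₂ : ℝ) ^ (1 / 10 : ℝ) := by
    refine hWr.trans (le_trans ?_ (hX2rp (1 / 10) (by norm_num)))
    rw [Real.exp_le_exp]
    linarith
  have hdiffl : A / 4 ≤ (X₂ : ℝ) - X₁ := by linarith
  have hpow : (X₂ : ℝ) ^ (9 / 10 : ℝ) ≤ (X₂ : ℝ) - X₁ := by
    refine le_trans ?_ hdiffl
    have h1 : (X₂ : ℝ) ^ (9 / 10 : ℝ) * (X₂ : ℝ) ^ (1 / 10 : ℝ) = X₂ := by
      rw [← Real.rpow_add hX20]
      norm_num
    have h2 : (6 : ℝ) ≤ (X₂ : ℝ) ^ (1 / 10 : ℝ) := by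
      refine le_trans ?_ (hX2rp (1 / 10) (by norm_num))
      have := Real.add_one_le_exp (L * (1 / 10))
      linarith
    have h3 : 0 < (X₂ : ℝ) ^ (9 / 10 : ℝ) := Real.rpow_pos_of_pos hX20 _
    have h4 : (X₂ : ℝ) ^ (9 / 10 : ℝ) * 6 ≤ X₂ := by
      calc (X₂ : ℝ) ^ (9 / 10 : ℝ) * 6 ≤ (X₂ : ℝ) ^ (9 / 10 : ℝ) * (X₂ : ℝ) ^ (1 / 10 : ℝ) :=
            mul_le_mul_of_nonneg_left h2 h3.le
        _ = X₂ := h1
    linarith
  obtain ⟨μ, hμ⟩ : ∃ μ, μ = mean (pr Q) F := ⟨_, rfl⟩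
  have hμD : |μ| ≤ D := by
    rw [hμ]
    exact INTx.mean_abs_le _ F D (by linarith) hFD
  have hdev : ∀ n, |F n - μ| ≤ 2 * D := fun n => by
    have h1 := abs_sub (F n) μ
    have h2 := hFD n
    linarith
  have hz4' : 4 * (Fintype.card κ : ℝ) * Real.log X₂ ≤ z := by
    refine le_trans ?_ hz4
    have h1 : (0 : ℝ) ≤ Fintype.card κ := Nat.cast_nonneg _
    nlinarith
  have hQz' : ∀ l ∈ Q, z ≤ l ∧ ¬ l ∣ W * r := by
    intro l hl
    obtain ⟨h1, h2, h3⟩ := hQz l hl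
    refine ⟨h1, fun h => ?_⟩
    rcases (Nat.Prime.dvd_mul (hH.prime l hl)).mp h with h | h
    · exact h2 h
    · exact h3 h
  have key := hLP Q κ ρ F z D (W * r) (qv a r b) X₁ X₂ hH hFac hLev hD hQz' hz1 hz2 hz3 hz4'
    (Nat.mul_pos (by omega) (by omega)) (qv_coprime a W b r L hP)
    (by linarith) hX12 hX22 hpow hWX
  rw [← hμ] at key
  rw [← hμ]
  -- the sums
  have hsum0 := sum_pil a W b r L hP hL5 (fun n => F n - μ)
  rw [← hA, ← hX₁, ← hX₂] at hsum0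
  obtain ⟨I, hI⟩ : ∃ I, I = (Ioc X₁ X₂).filter (fun n => n % (W * r) = qv a r b % (W * r)) :=
    ⟨_, rfl⟩
  rw [← hI] at key hsum0
  have hnp : |∑ n ∈ I.filter (fun n => ¬ n.Prime),
      ArithmeticFunction.vonMangoldt n * (F n - μ)| ≤ 2 * D * (2 * Real.sqrt X₂ * Real.log X₂) := by
    refine (Finset.abs_sum_le_sum_abs _ _).trans ?_
    calc ∑ n ∈ I.filter (fun n => ¬ n.Prime),
          |ArithmeticFunction.vonMangoldt n * (F n - μ)| ≤
          ∑ n ∈ I.filter (fun n => ¬ n.Prime), 2 * D * ArithmeticFunction.vonMangoldt n := by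
            refine Finset.sum_le_sum fun n _ => ?_
            rw [abs_mul, abs_of_nonneg ArithmeticFunction.vonMangoldt_nonneg, mul_comm]
            exact mul_le_mul_of_nonneg_right (hdev n) ArithmeticFunction.vonMangoldt_nonneg
      _ ≤ ∑ n ∈ (Ioc 0 X₂).filter (fun n => ¬ n.Prime),
            2 * D * ArithmeticFunction.vonMangoldt n := by
            refine Finset.sum_le_sum_of_subset_of_nonneg ?_ fun n _ _ =>
              mul_nonneg (by linarith) ArithmeticFunction.vonMangoldt_nonneg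
            refine Finset.filter_subset_filter _ ?_
            rw [hI]
            intro n hn
            rw [Finset.mem_filter, Finset.mem_Ioc] at hn
            rw [Finset.mem_Ioc]
            omega
      _ ≤ 2 * D * (2 * Real.sqrt X₂ * Real.log X₂) := by
            rw [← Finset.mul_sum]
            exact mul_le_mul_of_nonneg_left (INTx.prime_powers X₂ (by omega)) (by linarith)
  have hsplit := Finset.sum_filter_add_sum_filter_not I (fun n => n.Prime)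
    (fun n => ArithmeticFunction.vonMangoldt n * (F n - μ))
  rw [hsum0]
  have hmain : |∑ n ∈ I.filter (fun n => n.Prime),
      ArithmeticFunction.vonMangoldt n * (F n - μ)| ≤
      |∑ n ∈ I, ArithmeticFunction.vonMangoldt n * (F n - μ)| +
        2 * D * (2 * Real.sqrt X₂ * Real.log X₂) := by
    have h1 : ∑ n ∈ I.filter (fun n => n.Prime),
        ArithmeticFunction.vonMangoldt n * (F n - μ) =
        ∑ n ∈ I, ArithmeticFunction.vonMangoldt n * (F n - μ) -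
          ∑ n ∈ I.filter (fun n => ¬ n.Prime),
            ArithmeticFunction.vonMangoldt n * (F n - μ) := by
      rw [← hsplit]
      ring
    rw [h1]
    exact (abs_sub _ _).trans (add_le_add le_rfl hnp)
  refine hmain.trans ((add_le_add key le_rfl).trans ?_)
  -- the final estimate
  obtain ⟨E, hE'⟩ : ∃ E, E = Real.sqrt (mean (pr Q) fun n => F n ^ 2) := ⟨_, rfl⟩
  rw [← hE']
  have hE0 : 0 ≤ E := by rw [hE']; exact Real.sqrt_nonneg _
  have hz0 : 0 < z := by linarith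
  have hW1 : (0 : ℝ) < W := by linarith
  have hr1 : (0 : ℝ) < r := by linarith
  have hκ0 : (0 : ℝ) ≤ Fintype.card κ := Nat.cast_nonneg _
  have e1 : Real.log X₂ ^ 4 ≤ 16 * L ^ 4 := by
    calc Real.log X₂ ^ 4 ≤ (2 * L) ^ 4 := pow_le_pow_left₀ hlogX0 hlogX 4
      _ = 16 * L ^ 4 := by ring
  have e2 : Real.sqrt ((X₂ : ℝ) * ((X₂ : ℝ) - X₁)) / ((W * r : ℕ) : ℝ) ≤
      3 / 2 * (Real.exp L / W) := by
    have h1 : Real.sqrt ((X₂ : ℝ) * ((X₂ : ℝ) - X₁)) ≤ X₂ := by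
      apply Real.sqrt_le_iff.mpr
      refine ⟨hX20.le, ?_⟩
      have : (0 : ℝ) ≤ X₁ := Nat.cast_nonneg _
      nlinarith
    have h2 : Real.sqrt ((X₂ : ℝ) * ((X₂ : ℝ) - X₁)) ≤ 3 / 2 * A := h1.trans x2u
    calc Real.sqrt ((X₂ : ℝ) * ((X₂ : ℝ) - X₁)) / ((W * r : ℕ) : ℝ) ≤
          (3 / 2 * A) / ((W * r : ℕ) : ℝ) := div_le_div_of_nonneg_right h2 (Nat.cast_nonneg _)
      _ = 3 / 2 * (Real.exp L / W) := by
          rw [hA]
          push_cast
          field_simp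
  have e3 : ((Fintype.card κ : ℝ) ^ 3 * Real.log X₂ / z) ^ (1 / 8 : ℝ) ≤
      2 * ((Fintype.card κ : ℝ) ^ 3 * L / z) ^ (1 / 8 : ℝ) := by
    calc ((Fintype.card κ : ℝ) ^ 3 * Real.log X₂ / z) ^ (1 / 8 : ℝ) ≤
          (2 * ((Fintype.card κ : ℝ) ^ 3 * L / z)) ^ (1 / 8 : ℝ) := by
          apply Real.rpow_le_rpow (by positivity) _ (by norm_num)
          rw [← mul_div_assoc]
          apply div_le_div_of_nonneg_right _ hz0.le
          calc (Fintype.card κ : ℝ) ^ 3 * Real.log X₂ ≤ (Fintype.card κ : ℝ) ^ 3 * (2 * L) :=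
                mul_le_mul_of_nonneg_left hlogX (by positivity)
            _ = 2 * ((Fintype.card κ : ℝ) ^ 3 * L) := by ring
      _ = (2 : ℝ) ^ (1 / 8 : ℝ) * ((Fintype.card κ : ℝ) ^ 3 * L / z) ^ (1 / 8 : ℝ) :=
          Real.mul_rpow (by norm_num) (by positivity)
      _ ≤ 2 * ((Fintype.card κ : ℝ) ^ 3 * L / z) ^ (1 / 8 : ℝ) := by
          apply mul_le_mul_of_nonneg_right _ (by positivity)
          calc (2 : ℝ) ^ (1 / 8 : ℝ) ≤ (2 : ℝ) ^ (1 : ℝ) :=
                Real.rpow_le_rpow_of_exponent_le (by norm_num) (by norm_num)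
            _ = 2 := Real.rpow_one 2
  have e4 : (X₂ : ℝ) ^ (5 / 6 : ℝ) * ((W * r : ℕ) : ℝ) ^ (1 / 4 : ℝ) ≤
      Real.exp (9 / 10 * L) := by
    have h1 : (X₂ : ℝ) ^ (5 / 6 : ℝ) ≤ Real.exp (17 / 20 * L) := by
      refine (hX2ru (5 / 6) (by norm_num)).trans (le_of_eq ?_)
      congr 1
      ring
    have h2 : ((W * r : ℕ) : ℝ) ^ (1 / 4 : ℝ) ≤ Real.exp (L / 100) := by
      calc ((W * r : ℕ) : ℝ) ^ (1 / 4 : ℝ) ≤ (Real.exp (L / 25)) ^ (1 / 4 : ℝ) :=
            Real.rpow_le_rpow (Nat.cast_nonneg _) hWr (by norm_num)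
        _ = Real.exp (L / 100) := by
            rw [← Real.exp_mul]
            congr 1
            ring
    calc (X₂ : ℝ) ^ (5 / 6 : ℝ) * ((W * r : ℕ) : ℝ) ^ (1 / 4 : ℝ) ≤
          Real.exp (17 / 20 * L) * Real.exp (L / 100) :=
          mul_le_mul h1 h2 (by positivity) (by positivity)
      _ = Real.exp (43 / 50 * L) := by
          rw [← Real.exp_add]
          congr 1
          ring
      _ ≤ Real.exp (9 / 10 * L) := by
          rw [Real.exp_le_exp]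
          linarith
  have e5 : Real.sqrt X₂ ≤ Real.exp (9 / 10 * L) := by
    rw [Real.sqrt_eq_rpow]
    refine (hX2ru (1 / 2) (by norm_num)).trans ?_
    rw [Real.exp_le_exp]
    linarith
  have e6 : Real.log X₂ ≤ 2 * L ^ 4 := by
    have h1 : L ≤ L ^ 4 := by
      calc L = L ^ 1 := (pow_one L).symm
        _ ≤ L ^ 4 := pow_le_pow_right₀ (by linarith) (by norm_num)
    linarith
  obtain ⟨R, hR⟩ : ∃ R, R = ((Fintype.card κ : ℝ) ^ 3 * L / z) ^ (1 / 8 : ℝ) := ⟨_, rfl⟩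
  have hR0 : 0 ≤ R := by rw [hR]; positivity
  rw [← hR] at e3 ⊢
  obtain ⟨M, hM⟩ : ∃ M, M = Real.exp (9 / 10 * L) := ⟨_, rfl⟩
  have hM0 : 0 ≤ M := by rw [hM]; positivity
  rw [← hM] at e4 e5 ⊢
  have hAA : Real.sqrt ((X₂ : ℝ) * ((X₂ : ℝ) - X₁)) / ((W * r : ℕ) : ℝ) *
      ((Fintype.card κ : ℝ) ^ 3 * Real.log X₂ / z) ^ (1 / 8 : ℝ) * E ≤
      3 * (Real.exp L / W * R * E) := by
    calc _ ≤ 3 / 2 * (Real.exp L / W) * (2 * R) * E := by
          apply mul_le_mul_of_nonneg_right _ hE0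
          apply mul_le_mul e2 e3 (by positivity) (by positivity)
      _ = 3 * (Real.exp L / W * R * E) := by ring
  obtain ⟨B, hBdef⟩ : ∃ B, B = Real.exp L / W * R * E := ⟨_, rfl⟩
  rw [← hBdef] at hAA ⊢
  have hB0 : 0 ≤ B := by rw [hBdef]; positivity
  have hB : (X₂ : ℝ) ^ (5 / 6 : ℝ) * ((W * r : ℕ) : ℝ) ^ (1 / 4 : ℝ) * D ≤ M * D :=
    mul_le_mul_of_nonneg_right e4 (by linarith)
  have hMD : 0 ≤ M * D := mul_nonneg hM0 (by linarith)
  have hL4 : 0 ≤ L ^ 4 := by positivity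
  have f1 : C * Real.log X₂ ^ 4 * (Real.sqrt ((X₂ : ℝ) * ((X₂ : ℝ) - X₁)) / ((W * r : ℕ) : ℝ) *
      ((Fintype.card κ : ℝ) ^ 3 * Real.log X₂ / z) ^ (1 / 8 : ℝ) * E +
      (X₂ : ℝ) ^ (5 / 6 : ℝ) * ((W * r : ℕ) : ℝ) ^ (1 / 4 : ℝ) * D) ≤
      48 * C * (L ^ 4 * (B + M * D)) := by
    calc _ ≤ C * (16 * L ^ 4) * (3 * B + M * D) := by
          apply mul_le_mul (mul_le_mul_of_nonneg_left e1 hC.le) (add_le_add hAA hB)
          · positivity
          · positivity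
      _ ≤ 48 * C * (L ^ 4 * (B + M * D)) := by
          have h1 : 0 ≤ C * (L ^ 4 * (M * D)) := by positivity
          nlinarith
  have f2 : 2 * D * (2 * Real.sqrt X₂ * Real.log X₂) ≤ 8 * (L ^ 4 * (B + M * D)) := by
    calc 2 * D * (2 * Real.sqrt X₂ * Real.log X₂) ≤ 2 * D * (2 * M * (2 * L ^ 4)) := by
          apply mul_le_mul_of_nonneg_left _ (by linarith)
          apply mul_le_mul _ e6 hlogX0 (by positivity)
          exact mul_le_mul_of_nonneg_left e5 (by norm_num)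
      _ = 8 * (L ^ 4 * (M * D)) := by ring
      _ ≤ 8 * (L ^ 4 * (B + M * D)) := by
          have h1 : 0 ≤ L ^ 4 * B := mul_nonneg hL4 hB0
          nlinarith
  have f3 : 0 ≤ L ^ 4 * (B + M * D) := mul_nonneg hL4 (add_nonneg hB0 hMD)
  calc _ ≤ 48 * C * (L ^ 4 * (B + M * D)) + 8 * (L ^ 4 * (B + M * D)) := add_le_add f1 f2
    _ ≤ (48 * C + 100000 + 8) * L ^ 4 * (B + M * D) := by nlinarith

end Pool.Agent.FCT
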