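import Pool.Agent.FCT.St2

set_option autoImplicit false

/-!
LEVX: functions of bounded level composed with a map which permutes the classes.
-/

namespace Pool.Agent.FCT

open Finset Pool.Agent.Lib_helper9.LG
open Pool.Agent.FXD (Bij)

namespace LEVXx

lemma comp {τ : ℕ → ℕ} {Q : Finset ℕ} (hτ : ∀ l ∈ Q, Bij τ l) {D : ℝ} {g : ℕ → ℝ}
    (h : Pool.Agent.IPP.Lev Q D g) : Pool.Agent.IPP.Lev Q D (fun t => g (τ t)) := by
  induction h with
  | base E f hE hp hb =>
    exact Pool.Agent.IPP.Lev.base E (fun l c => f l (τ c)) hE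
      (fun l hl c => Pool.Agent.FXD.per_modEq (hp l hl) ((hτ l (hE hl)).1 c))
      (fun l hl c => hb l hl (τ c))
  | zero => exact Pool.Agent.IPP.Lev.zero
  | add hg hh ih1 ih2 => exact ih1.add ih2
  | smul c hg ih => exact ih.smul c
  | mono hg hab ih => exact ih.mono hab

end LEVXx

theorem t_LEVX : S_LEVX := by
  intro Q τ hQ hτ
  refine ⟨fun D g h => LEVXx.comp hτ h, fun g hg => ?_, fun g hg c c' hc => ?_⟩
  · unfold Pool.Agent.IPP.mean
    congr 1
    exact Pool.Agent.FXD.sum_bij (Finset.prod_pos fun l hl => (hQ l hl).pos)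
      (Bij.prod hQ hτ) hg
  · exact Pool.Agent.FXD.per_modEq hg (Pool.Agent.FXD.modEq_prod hQ hc)

end Pool.Agent.FCT
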