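import Pool.Agent.FCT.St3
import Pool.Agent.CRE.LPU

set_option autoImplicit false

/-!
# LPUX: the core inequality of part IV
-/

namespace Pool.Agent.FCT

open Finset Filter Pool.Agent.Lib_helper9.LG
open Pool.Agent.FXD (Bij)

noncomputable section

namespace LPUX

open Pool.Agent.IPP (Lev mean pr Gc)

/-- the numerical facts -/
lemma big (K : ℝ) (hK : 0 < K) : ∀ᶠ L : ℝ in atTop, K ≤ Real.exp (L / 10) := by
  have h6 := Pool.Agent.IPP.LPGx.pe 0 (1 / 10) K (by norm_num) hK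
  filter_upwards [h6] with L a6
  rw [show L / 10 = 1 / 10 * L by ring]
  simpa using a6

section eng

variable {P : ℕ → Finset ℕ} {bb : ℕ → ℕ} {N m W b r i n J : ℕ} {Q S : Finset ℕ} {a : ℤ}
  {σ : ℕ → ℕ} {η L z α B B1 VJ : ℝ}

lemma ThL_nonneg : 0 ≤ ThL a r W b L := by
  rw [ThL]
  apply Finset.sum_nonneg
  intro x _
  exact Real.log_natCast_nonneg _

/-- The number of values of `x` is at most `2 exp L`. -/
lemma M0_le (hW : 1 ≤ W) : (M0 L W : ℝ) ≤ 2 * Real.exp L := by
  have hW1 : (1 : ℝ) ≤ W := by exact_mod_cast hW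
  have h1 : (M0 L W : ℝ) ≤ 2 * Real.exp L / W := by
    unfold M0
    exact Nat.floor_le (by positivity)
  refine h1.trans ?_
  rw [div_le_iff₀ (by linarith)]
  have h2 : 0 < Real.exp L := Real.exp_pos L
  nlinarith

/-- The total weight of the primes. -/
lemma ThL_le (hp : Prog a W b r L) (hL : 1600 ≤ L) (f3 : 2 * L ^ 2 ≤ Real.exp (L / 20)) :
    ThL a r W b L ≤ 4 * L * Real.exp L := by
  have hlw : ∀ x ∈ PiL a r W b L, lwX a r W b x ≤ 2 * L := by
    intro x hx
    rw [PiL, mem_filter] at hx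
    obtain ⟨-, hx1, -, hx3⟩ := hx
    have hq0 : (0 : ℝ) < ((qv a r (b + W * x) : ℕ) : ℝ) := by exact_mod_cast hx1.pos
    have hr0 : (0 : ℝ) ≤ (r : ℝ) := Nat.cast_nonneg _
    have h2 : ((qv a r (b + W * x) : ℕ) : ℝ) ≤ 3 / 2 * ((r : ℝ) * Real.exp L) := by
      have h3 : ((qv a r (b + W * x) : ℕ) : ℝ) ≤ (⌊3 / 2 * ((r : ℝ) * Real.exp L)⌋₊ : ℝ) := by
        exact_mod_cast hx3
      exact h3.trans (Nat.floor_le (by positivity))
    rw [lwX, Real.log_le_iff_le_exp hq0]
    calc ((qv a r (b + W * x) : ℕ) : ℝ) ≤ 3 / 2 * ((r : ℝ) * Real.exp L) := h2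
      _ ≤ 3 / 2 * (L ^ 2 * Real.exp L) := by
          have := hp.hrL
          gcongr
      _ ≤ Real.exp (L / 20) * Real.exp L := by
          have h4 : 3 / 2 * L ^ 2 ≤ Real.exp (L / 20) := by nlinarith [sq_nonneg L]
          calc 3 / 2 * (L ^ 2 * Real.exp L) = (3 / 2 * L ^ 2) * Real.exp L := by ring
            _ ≤ _ := by gcongr
      _ = Real.exp (L / 20 + L) := (Real.exp_add _ _).symm
      _ ≤ Real.exp (2 * L) := Real.exp_le_exp.2 (by linarith)
  rw [ThL]
  refine (Finset.sum_le_card_nsmul _ _ _ hlw).trans ?_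
  rw [nsmul_eq_mul]
  have h1 : ((PiL a r W b L).card : ℝ) ≤ M0 L W := by
    have h2 : (PiL a r W b L).card ≤ (range (M0 L W)).card := card_filter_le _ _
    rw [card_range] at h2
    exact_mod_cast h2
  calc ((PiL a r W b L).card : ℝ) * (2 * L) ≤ (2 * Real.exp L) * (2 * L) := by
        gcongr
        exact h1.trans (M0_le hp.hW)
    _ = _ := by ring

/-- The mean over the coprime integers against the mean over a full period, and the total
weight. -/
lemma means (hX : S_LEVX) (lev : Pool.Agent.IPP.StmtLEV) (havg : Pool.Agent.IPP.StmtAVG)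
    (glev : Pool.Agent.IPP.StmtGLEV)
    (hp : ParX η P bb N a m W b r i n Q S σ L α B B1)
    (hLbig : 1600 ≤ L) (f2 : L ^ 100 ≤ Real.exp (η * L)) (f3 : 2 * L ^ 2 ≤ Real.exp (L / 20))
    (f7 : 162 ≤ Real.exp (L / 100)) (f8 : 2 * L ≤ Real.exp (L / 100))
    (hom : ((4 : ℝ) ^ m.primeFactors.card) ≤ Real.exp (L / 10)) :
    ThL a r W b L * |IP.mn m W b n (fun x => GX P bb N m W b Q S σ α B B1 x ^ 2) -
      mean (pr (SS P N ∪ Q)) (fun c => Gc P bb N m Q S α B B1 c ^ 2)| ≤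
      Real.exp (99 / 100 * L) := by
  have hm1 : 1 ≤ m := by
    rw [hp.hm]
    exact Int.natAbs_pos.2 hp.ha0
  have hm0 : (0 : ℝ) < m := by exact_mod_cast hm1
  have hL0 : 0 < L := by linarith
  -- number of prime factors
  set w : ℝ := (2 : ℝ) ^ m.primeFactors.card with hw
  have hw1 : 1 ≤ w := one_le_pow₀ (by norm_num)
  have hw2 : w ^ 2 ≤ Real.exp (L / 10) := by
    have h3 : w ^ 2 = (4 : ℝ) ^ m.primeFactors.card := by
      rw [hw, ← pow_mul, mul_comm, pow_mul]
      norm_num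
    rwa [h3]
  -- the modulus W
  have hWpos : 0 < W := hp.hp.hW
  have hW1 : (1 : ℝ) ≤ W := by exact_mod_cast hp.hp.hW
  have hW20 : (W : ℝ) ≤ Real.exp (L / 20) := by
    refine hp.hp.hWL.trans (Real.exp_le_exp.2 ?_)
    have h1 := Real.sq_sqrt hL0.le
    have h2 : 40 ≤ Real.sqrt L := by
      apply Real.le_sqrt_of_sq_le
      linarith
    nlinarith
  have hn := hp.hn
  have hn3 : Real.exp (95 / 100 * L) ≤ n := by
    have h1 : 2 * Real.exp (95 / 100 * L) ≤ 2 * Real.exp L / W := by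
      rw [le_div_iff₀ (by linarith)]
      calc 2 * Real.exp (95 / 100 * L) * W ≤
            2 * Real.exp (95 / 100 * L) * Real.exp (L / 20) := by gcongr
        _ = 2 * (Real.exp (95 / 100 * L) * Real.exp (L / 20)) := by ring
        _ = 2 * Real.exp L := by
            rw [← Real.exp_add]
            congr 2
            ring
    have h2 : 2 * Real.exp L / W < (n : ℝ) + 1 := by
      rw [hn]
      exact Nat.lt_floor_add_one _
    have h3 : (1 : ℝ) ≤ Real.exp (95 / 100 * L) := Real.one_le_exp (by linarith)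
    linarith
  have hnr : (0 : ℝ) < n := lt_of_lt_of_le (Real.exp_pos _) hn3
  -- sites
  have hScard := Pool.Agent.IPP.LPGx.cardS S L hp.hk
  have hS0 : (0 : ℝ) ≤ S.card := Nat.cast_nonneg _
  have hL1 : 1 ≤ L := by linarith
  have hS2 : (S.card : ℝ) ≤ 2 * L ^ 2 := by
    have : 1 ≤ L ^ 2 := one_le_pow₀ hL1
    linarith
  have hL7 : L ^ 7 ≤ L ^ 100 := pow_le_pow_right₀ hL1 (by norm_num)
  -- the primes
  set Qt : Finset ℕ := SS P N ∪ Q with hQt
  have hlarge : ∀ l ∈ Qt, l.Prime ∧ ¬ l ∣ m ∧ ¬ l ∣ W ∧ L ^ 100 ≤ (l : ℝ) := by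
    intro l hl
    rcases mem_union.1 hl with h | h
    · obtain ⟨a1, a2, a3, a4, _⟩ := hp.hS l h
      exact ⟨a1, a2, a3, a4.le⟩
    · obtain ⟨a1, a2, a3, a4, _⟩ := hp.hQ l h
      exact ⟨a1, a2, a3, f2.trans a4.le⟩
  -- the level of G
  set G : ℕ → ℝ := fun c => Gc P bb N m Q S α B B1 c with hG
  have hz1 : (1 : ℝ) ≤ L ^ 100 := one_le_pow₀ hL1
  have hz4 : 2 * (S.card : ℝ) ≤ L ^ 100 := by
    have h1 : 4 * L ^ 2 ≤ L ^ 7 := by
      have h2 : (4 : ℝ) ≤ L ^ 5 := by
        calc (4 : ℝ) ≤ 1600 ^ 5 := by norm_num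
          _ ≤ L ^ 5 := by gcongr
      calc 4 * L ^ 2 ≤ L ^ 5 * L ^ 2 := by gcongr
        _ = L ^ 7 := by ring
    linarith
  have hsum := Pool.Agent.IPP.LPGx.sumC Q S (L ^ 100) hz1
    (fun l hl => lt_of_le_of_lt f2 (hp.hQ l hl).2.2.2.1) hz4
  have hal : ∀ l ∈ Q, α ≤ Real.log l := by
    intro l hl
    have h1 := (hp.hQ l hl).2.2.2.1
    have h2 : (0 : ℝ) < l := (Real.exp_pos _).trans h1
    have h3 : η * L < Real.log l := (Real.lt_log_iff_exp_lt h2).2 h1
    exact hp.hαη.trans h3.le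
  have hlev := glev P bb N m Q S α B B1 3 (fun l hl => (hlarge l hl).1) hp.hα hal hsum
  obtain ⟨D0, hD0⟩ : ∃ D0 : ℝ, D0 = Real.exp (3 * B) * 3 * LV P bb N := ⟨_, rfl⟩
  rw [← hD0] at hlev
  have hLV1 : 1 ≤ LV P bb N := IP.EDP.LV_one
  have hB0 : 0 ≤ B := hp.hB1.le.trans hp.hB1B
  have hD01 : 1 ≤ D0 := by
    rw [hD0]
    have h1 : 1 ≤ Real.exp (3 * B) := Real.one_le_exp (by linarith)
    have h2 : 1 ≤ Real.exp (3 * B) * 3 := by linarith
    exact one_le_mul_of_one_le_of_one_le h2 hLV1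
  have hD00 : 0 < D0 := by linarith
  have hD0u : D0 ≤ 3 * Real.exp (13 / 10000 * L) := by
    have h1 := hp.hB
    calc D0 = Real.exp (3 * B) * 3 * LV P bb N := hD0
      _ ≤ Real.exp (3 / 10000 * L) * 3 * Real.exp (L / 1000) := by
          have h2 : 3 * B ≤ 3 / 10000 * L := by linarith
          have h3 := hp.hLV
          gcongr
      _ = 3 * (Real.exp (3 / 10000 * L) * Real.exp (L / 1000)) := by ring
      _ = 3 * Real.exp (13 / 10000 * L) := by
          rw [← Real.exp_add]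
          congr 2
          ring
  have hD2u : D0 ^ 2 ≤ 81 * Real.exp (52 / 10000 * L) := by
    calc D0 ^ 2 ≤ (3 * Real.exp (13 / 10000 * L)) ^ 2 := by gcongr
      _ = 9 * Real.exp (26 / 10000 * L) := by
          rw [mul_pow, ← Real.exp_nat_mul]
          have h5 : ((2 : ℕ) : ℝ) * (13 / 10000 * L) = 26 / 10000 * L := by push_cast; ring
          rw [h5]
          norm_num
      _ ≤ 81 * Real.exp (52 / 10000 * L) := by
          apply mul_le_mul (by norm_num) (Real.exp_le_exp.2 (by linarith)) (Real.exp_pos _).le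
            (by norm_num)
  obtain ⟨_, hmul, _, _, hpr, _⟩ := lev Qt (fun l hl => (hlarge l hl).1)
  have hG2 : Lev Qt (D0 ^ 2) (fun c => G c ^ 2) := by
    have h1 := hmul _ _ _ _ hlev hlev
    have e1 : D0 * D0 = D0 ^ 2 := (sq D0).symm
    have e2 : (fun c => G c * G c) = fun c => G c ^ 2 := by
      funext c
      exact (sq _).symm
    rw [e1] at h1
    rw [← e2]
    exact h1
  -- the composition with the map
  obtain ⟨hx1, hx2, -⟩ := hX Qt σ (fun l hl => (hlarge l hl).1) (fun l hl => (hp.hσ l hl).1)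
  have hG2σ : Lev Qt (D0 ^ 2) (fun c => G (σ c) ^ 2) := hx1 _ _ hG2
  have hmσ : mean (pr Qt) (fun c => G (σ c) ^ 2) = mean (pr Qt) (fun c => G c ^ 2) :=
    hx2 (fun c => G c ^ 2) (hpr _ _ hG2).2.2
  -- the averages
  have hcop : ∀ l ∈ Qt, l.Prime ∧ ¬ l ∣ m ∧ ¬ l ∣ W := fun l hl =>
    ⟨(hlarge l hl).1, (hlarge l hl).2.1, (hlarge l hl).2.2.1⟩
  have hA2 := havg Qt m W b n (D0 ^ 2) (fun c => G (σ c) ^ 2) hm1 hp.hp.hW hp.hWm hcop hG2σ
  rw [hmσ] at hA2
  have hρ := Pool.Agent.IPP.LPGx.two_pow_totient m hm1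
  have hB2 := Pool.Agent.IPP.LPGx.dv _ _ _ _ _ w n rfl hnr hw1 hρ (by positivity) hA2
  have he : w ^ 2 * D0 ^ 2 / n ≤ Real.exp (-(83 / 100) * L) := by
    rw [div_le_iff₀ hnr]
    have h1 : w ^ 2 * D0 ^ 2 ≤ Real.exp (L / 10) * (81 * Real.exp (52 / 10000 * L)) := by
      gcongr
    have h2 : 162 * (Real.exp (L / 10) * Real.exp (52 / 10000 * L)) ≤
        Real.exp (-(83 / 100) * L) * Real.exp (95 / 100 * L) := by
      calc 162 * (Real.exp (L / 10) * Real.exp (52 / 10000 * L)) ≤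
            Real.exp (L / 100) * (Real.exp (L / 10) * Real.exp (52 / 10000 * L)) := by gcongr
        _ = Real.exp (L / 100 + (L / 10 + 52 / 10000 * L)) := by rw [Real.exp_add, Real.exp_add]
        _ ≤ Real.exp (-(83 / 100) * L + 95 / 100 * L) := Real.exp_le_exp.2 (by linarith)
        _ = _ := Real.exp_add _ _
    have h3 : Real.exp (-(83 / 100) * L) * Real.exp (95 / 100 * L) ≤
        Real.exp (-(83 / 100) * L) * n := by gcongr
    have h4 : 0 < Real.exp (L / 10) * Real.exp (52 / 10000 * L) := by positivity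
    linarith
  -- the total weight
  have hTh := ThL_le hp.hp hLbig f3
  have hM2 : IP.mn m W b n (fun x => GX P bb N m W b Q S σ α B B1 x ^ 2) =
      (∑ x ∈ (range n).filter (fun x => (b + W * x).Coprime m), G (σ (b + W * x)) ^ 2) /
        ((n : ℝ) * ((m.totient : ℝ) / m)) := rfl
  rw [← hM2] at hB2
  calc ThL a r W b L * |IP.mn m W b n (fun x => GX P bb N m W b Q S σ α B B1 x ^ 2) -
      mean (pr Qt) (fun c => G c ^ 2)| ≤
        (4 * L * Real.exp L) * Real.exp (-(83 / 100) * L) := by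
        apply mul_le_mul hTh (hB2.trans he) (abs_nonneg _) (by positivity)
    _ = (2 * (2 * L) * Real.exp L) * Real.exp (-(83 / 100) * L) := by ring
    _ ≤ (Real.exp (L / 100) * Real.exp (L / 100) * Real.exp L) * Real.exp (-(83 / 100) * L) := by
        have h2 : (2 : ℝ) ≤ Real.exp (L / 100) := by linarith
        gcongr
    _ = Real.exp (L / 100 + L / 100 + L + -(83 / 100) * L) := by
        rw [Real.exp_add, Real.exp_add, Real.exp_add]
    _ ≤ Real.exp (99 / 100 * L) := Real.exp_le_exp.2 (by linarith)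

/-- The conditions of the core. -/
lemma cfg_of (hd : ∀ j < N, ∀ j' < N, j ≠ j' → Disjoint (P j) (P j'))
    (h : IP.EDP.Ctx P bb N m W b i n J Q S (Real.exp (η * L)) α B B1 VJ) (hS : S.Nonempty)
    (hsm : 4 * J * S.card / Real.exp (η * L) ≤ 1) :
    Pool.Agent.CRE.Cfg P bb N m J Q S ∅ (fun α' => yy (IP.EDP.la Q) α B B1 α') where
  disj := hd
  pS := fun l hl => ⟨(h.sv.hS1 l hl).1, (h.sv.hS1 l hl).2.1, (h.sv.hS1 l hl).2.2.2⟩
  pQ := fun l hl => ⟨(h.hQ1 l hl).1, (h.hQ1 l hl).2.1,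
    fun hs => (Finset.disjoint_left.1 h.hdQ hs) hl⟩
  ne := hS
  DS := empty_subset _
  lt := by
    intro k hk l hl
    rcases mem_union.1 hl with h1 | h1
    · exact h.sv.hkS k (mem_insert_of_mem hk) l h1
    · exact h.hkQ k (mem_insert_of_mem hk) l h1
  blk := h.sv.hsum
  bb := h.sv.hb
  card := by
    intro α' hα
    rw [union_empty, card_map]
    have := IP.EDP.card_act h.cfg α' (Pool.Agent.CRE.LPU.yy_of_ne hα)
    omega
  mono := Pool.Agent.CRE.LPU.mono_yy (IP.EDP.la_pos h.cfg) h.ha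
    (fun j => h.haz.trans (IP.EDP.la_le h.cfg j))
  eps := by
    intro α' hα
    have h1 := IP.EDP.eps_cfg h.cfg α' (Pool.Agent.CRE.LPU.yy_of_ne hα)
    rw [Fintype.card_coe] at h1
    refine le_trans ?_ (h1.trans (by linarith))
    exact le_refl _

end eng

end LPUX

open LPUX in
/-- **The module.** -/
theorem t_LPUX : S_LPUX := by
  intro hLPY hX lev havg glev a ha0
  obtain ⟨L₁, hL₁⟩ := hLPY a ha0
  obtain ⟨L₀, hL₀⟩ := eventually_atTop.1 Pool.Agent.CRE.LPU.big
  obtain ⟨L₂, hL₂⟩ := eventually_atTop.1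
    (big ((4 : ℝ) ^ a.natAbs.primeFactors.card) (by positivity))
  refine ⟨max L₁ (max L₀ L₂), fun L hL η hη hη8 hηL P bb N m W b r i n J Q S σ α B B1 VJ
    hp hctx hJη hVJ => ?_⟩
  have hLL1 : L₁ ≤ L := (le_max_left _ _).trans hL
  have hLL0 : L₀ ≤ L := (le_max_left _ _).trans ((le_max_right _ _).trans hL)
  have hLL2 : L₂ ≤ L := (le_max_right _ _).trans ((le_max_right _ _).trans hL)
  obtain ⟨f1, fl, f3, f7, f8⟩ := hL₀ L hLL0
  have hom : ((4 : ℝ) ^ m.primeFactors.card) ≤ Real.exp (L / 10) := by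
    rw [hp.hm]
    exact hL₂ L hLL2
  have hL0 : 0 < L := by linarith
  have hη1 : η ≤ 1 := hη8.trans (by norm_num)
  obtain ⟨e1, e2, e3, e4⟩ := UNI.eta_facts hη hη1 (by linarith) hηL
  have f2 : L ^ 100 ≤ Real.exp (η * L) := by
    calc L ^ 100 = Real.exp (((100 : ℕ) : ℝ) * Real.log L) := by
          rw [Real.exp_nat_mul, Real.exp_log hL0]
      _ ≤ _ := Real.exp_le_exp.2 (by push_cast; linarith)
  have hmeans := means hX lev havg glev hp f1 f2 f3 f7 f8 hom
  have hZ1 := Pool.Agent.CRE.LPU.ZZ_one hctx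
  have hW0 : (0 : ℝ) < W.totient := by exact_mod_cast Nat.totient_pos.2 hp.hp.hW
  -- the core
  have hcore : |∑ x ∈ PiL a r W b L, lwX a r W b x * GX P bb N m W b Q S σ α B B1 x ^ 2 -
      ThL a r W b L * Pool.Agent.IPP.mean (Pool.Agent.IPP.pr (SS P N ∪ Q))
        (fun c => Pool.Agent.IPP.Gc P bb N m Q S α B B1 c ^ 2)| ≤
      IP.EDP.ZZ P N J Q S α B B1 * (Real.exp L / (W.totient * L ^ 20)) := by
    rcases S.eq_empty_or_nonempty with hSe | hSne
    · subst hSe
      have hg : ∀ x, GX P bb N m W b Q ∅ σ α B B1 x = 1 := fun x =>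
        Pool.Agent.CRE.LPU.Gc_empty (m := m) (Q := Q) hctx.hB (σ (b + W * x))
      have h1 : ∑ x ∈ PiL a r W b L, lwX a r W b x * GX P bb N m W b Q ∅ σ α B B1 x ^ 2 =
          ThL a r W b L := by
        rw [ThL]
        apply Finset.sum_congr rfl
        intro x _
        rw [hg x]
        ring
      have h2 : Pool.Agent.IPP.mean (Pool.Agent.IPP.pr (SS P N ∪ Q))
          (fun c => Pool.Agent.IPP.Gc P bb N m Q ∅ α B B1 c ^ 2) = 1 := by
        have h3 : (fun c => Pool.Agent.IPP.Gc P bb N m Q ∅ α B B1 c ^ 2) =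
            fun _ => (1 : ℝ) := by
          funext c
          rw [Pool.Agent.CRE.LPU.Gc_empty hctx.hB c]
          norm_num
        rw [h3]
        apply Pool.Agent.CRE.LPU.mean_one
        intro l hl
        rcases mem_union.1 hl with h | h
        · exact (hp.hS l h).1
        · exact (hp.hQ l h).1
      rw [h1, h2, mul_one, sub_self, abs_zero]
      have h4 : (0 : ℝ) ≤ IP.EDP.ZZ P N J Q ∅ α B B1 := by linarith
      exact mul_nonneg h4 (div_nonneg (Real.exp_pos _).le (by positivity))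
    · -- `4 J |S| / z ≤ 1`
      have hsm : 4 * J * S.card / Real.exp (η * L) ≤ 1 := by
        rw [div_le_one (Real.exp_pos _)]
        refine le_trans ?_ f2
        have h1 := Pool.Agent.IPP.LPGx.cardS S L hp.hk
        have h2 : (1 : ℝ) ≤ L ^ 2 := one_le_pow₀ (by linarith)
        have h3 : (J : ℝ) ≤ L := by
          have h4 : (J : ℝ) ≤ 1 / η := by
            rw [le_div_iff₀ hη]
            exact hJη.trans (by norm_num)
          have h5 : Real.sqrt L ≤ L := by
            rw [Real.sqrt_le_left (by linarith)]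
            nlinarith
          linarith
        have hJ0 : (0 : ℝ) ≤ J := Nat.cast_nonneg _
        have h6 : 4 * J * (S.card : ℝ) ≤ 4 * L * (2 * L ^ 2) := by
          apply mul_le_mul (by linarith) (by linarith) (Nat.cast_nonneg _) (by positivity)
        have h7 := Pool.Agent.IPP.LPGx.l7 L f1
        have h8 : (8 : ℝ) ≤ L ^ 4 :=
          (by norm_num : (8 : ℝ) ≤ 1600 ^ 4).trans (pow_le_pow_left₀ (by norm_num) f1 4)
        have h9 : 8 * L ^ 3 ≤ L ^ 4 * L ^ 3 := mul_le_mul_of_nonneg_right h8 (by positivity)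
        have h10 : L ^ 4 * L ^ 3 = L ^ 7 := by ring
        have h11 : 4 * L * (2 * L ^ 2) = 8 * L ^ 3 := by ring
        linarith
      have hcfg := cfg_of hp.hd hctx hSne hsm
      have key := hL₁ L hLL1 P bb N m W b r i J Q S ∅
        (fun α' => yy (IP.EDP.la Q) α B B1 α') σ B
        hp.hm hcfg hp.hp
        (by
          intro l hl
          rcases mem_union.1 hl with h | h
          · exact ⟨(hp.hS l h).2.2.1, (hp.hS l h).2.2.2.1⟩
          · exact ⟨(hp.hQ l h).2.2.1, lt_of_le_of_lt f2 (hp.hQ l h).2.2.2.1⟩)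
        (by
          intro l hl
          refine (hp.hQ l hl).2.2.2.2.trans (Real.exp_le_exp.2 ?_)
          have h1 := hp.hB1B
          have h2 := hp.hB
          linarith)
        hp.hσ hp.hk hp.hi hp.hiS hp.hLV hctx.hB hp.hB
        (fun α' hα => Pool.Agent.CRE.LPU.yy_of_ne hα)
      rw [Pool.Agent.CRE.LPU.Zy_eq hctx] at key
      have h1 : (fun c => Pool.Agent.CRE.Gy P bb N m Q S ∅
            (fun α' => yy (IP.EDP.la Q) α B B1 α') c ^ 2) =
          fun c => Pool.Agent.IPP.Gc P bb N m Q S α B B1 c ^ 2 := by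
        funext c
        rw [Pool.Agent.CRE.LPU.Gy_eq]
      rw [h1] at key
      have h2 : ∑ x ∈ PiL a r W b L, lwX a r W b x *
          Pool.Agent.CRE.Gy P bb N m Q S ∅ (fun α' => yy (IP.EDP.la Q) α B B1 α')
            (σ (b + W * x)) ^ 2 =
          ∑ x ∈ PiL a r W b L, lwX a r W b x * GX P bb N m W b Q S σ α B B1 x ^ 2 := by
        apply Finset.sum_congr rfl
        intro x _
        rw [Pool.Agent.CRE.LPU.Gy_eq]
        rfl
      rw [h2] at key
      exact key
  have hTh0 : 0 ≤ ThL a r W b L := ThL_nonneg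
  unfold LPhX
  set X : ℝ := ∑ x ∈ PiL a r W b L, lwX a r W b x * GX P bb N m W b Q S σ α B B1 x ^ 2
    with hXd
  set T : ℝ := ThL a r W b L with hT
  set M : ℝ := IP.mn m W b n (fun x => GX P bb N m W b Q S σ α B B1 x ^ 2) with hM
  set E : ℝ := Pool.Agent.IPP.mean (Pool.Agent.IPP.pr (SS P N ∪ Q))
    (fun c => Pool.Agent.IPP.Gc P bb N m Q S α B B1 c ^ 2) with hE
  set Z : ℝ := IP.EDP.ZZ P N J Q S α B B1 with hZ
  have h1 : |X - T * M| ≤ |X - T * E| + T * |M - E| := by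
    have h5 : X - T * M = (X - T * E) + -(T * (M - E)) := by ring
    rw [h5]
    refine (abs_add_le _ _).trans ?_
    rw [abs_neg, abs_mul, abs_of_nonneg hTh0]
  have h2 : Real.exp (99 / 100 * L) ≤ Real.exp (99 / 100 * L) * Z :=
    le_mul_of_one_le_right (Real.exp_pos _).le hZ1
  rw [add_mul]
  linarith

end

end Pool.Agent.FCT
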