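import Mathlib
import Pool.Agent.FCT.St2
import Pool.Agent.IPP.LPG

set_option autoImplicit false

/-!
FCT: the second moment of `G` over the primes of one class (LPX).
-/

namespace Pool.Agent.FCT

open Finset Filter Pool.Agent.Lib_helper9.LG
open Pool.Agent.FXD (Bij)

noncomputable section

namespace LPXx

open Pool.Agent.IPP.LPGx

/-- The real inequality. -/
lemma fin2 (C L K D T Th E2 M2 E4 M4 e W : ℝ) (hC : 0 < C) (hL : 1600 ≤ L)
    (hK0 : 0 ≤ K) (hK : K ≤ 2 * L ^ 2)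
    (hW : 1 ≤ W) (f5 : 2 * C ≤ L) (f6 : 9 * C * L ^ 4 ≤ Real.exp (L / 100))
    (f7 : 162 ≤ Real.exp (L / 100)) (f8 : 2 * L ≤ Real.exp (L / 100))
    (hD : D ≤ 9 * Real.exp (26 / 10000 * L)) (hM4 : 0 ≤ M4)
    (he : e ≤ Real.exp (-(83 / 100) * L)) (hTh0 : 0 ≤ Th)
    (hTh : Th ≤ 4 * L * Real.exp L) (h2 : |M2 - E2| ≤ e) (h4 : |M4 - E4| ≤ e)
    (h1 : |T - E2 * Th| ≤ C * L ^ 4 * (Real.exp L / W *
      (K ^ 3 * L / L ^ 100) ^ (1 / 8 : ℝ) * Real.sqrt E4 + Real.exp (9 / 10 * L) * D)) :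
    |T - Th * M2| ≤ Real.exp L / (W * L) * Real.sqrt M4 + Real.exp (99 / 100 * L) := by
  have hL0 : 0 < L := by linarith
  have hW0 : 0 < W := by linarith
  have c2 := root8 L K hL hK0 hK
  have c3 : C * L ^ 4 * (K ^ 3 * L / L ^ 100) ^ (1 / 8 : ℝ) ≤ 1 / L := by
    calc C * L ^ 4 * (K ^ 3 * L / L ^ 100) ^ (1 / 8 : ℝ) ≤
          C * L ^ 4 * (1 / L ^ 11) := by gcongr
      _ = (C / L ^ 6) * (1 / L) := by field_simp
      _ ≤ 1 * (1 / L) := by
          apply mul_le_mul_of_nonneg_right _ (by positivity)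
          rw [div_le_one (by positivity)]
          have h3 : (1 : ℝ) ≤ L ^ 5 := one_le_pow₀ (by linarith)
          nlinarith
      _ = 1 / L := one_mul _
  -- the root of the fourth moment
  have c4 : Real.sqrt E4 ≤ Real.sqrt M4 + Real.exp (-(415 / 1000) * L) := by
    have h5 : E4 ≤ M4 + e := by
      have := (abs_le.1 h4).1
      linarith
    have h6 : e ≤ Real.exp (-(415 / 1000) * L) ^ 2 := by
      rw [← Real.exp_nat_mul]
      refine he.trans (Real.exp_le_exp.2 ?_)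
      push_cast
      linarith
    have h7 := Real.sq_sqrt hM4
    have h8 := Real.sqrt_nonneg M4
    have h9 := Real.exp_pos (-(415 / 1000) * L)
    rw [Real.sqrt_le_left (by positivity)]
    nlinarith [mul_nonneg h8 h9.le]
  have c5 : C * L ^ 4 * (Real.exp L / W *
      (K ^ 3 * L / L ^ 100) ^ (1 / 8 : ℝ) * Real.sqrt E4) ≤
      Real.exp L / (W * L) * Real.sqrt M4 + Real.exp (585 / 1000 * L) := by
    calc C * L ^ 4 * (Real.exp L / W *
          (K ^ 3 * L / L ^ 100) ^ (1 / 8 : ℝ) * Real.sqrt E4) =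
        (C * L ^ 4 * (K ^ 3 * L / L ^ 100) ^ (1 / 8 : ℝ)) *
          (Real.exp L / W * Real.sqrt E4) := by ring
      _ ≤ 1 / L * (Real.exp L / W * (Real.sqrt M4 + Real.exp (-(415 / 1000) * L))) := by gcongr
      _ = Real.exp L / (W * L) * Real.sqrt M4 +
          (1 / (W * L)) * (Real.exp L * Real.exp (-(415 / 1000) * L)) := by
          field_simp
      _ ≤ Real.exp L / (W * L) * Real.sqrt M4 + 1 * Real.exp (585 / 1000 * L) := by
          rw [← Real.exp_add]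
          have h5 : L + -(415 / 1000) * L = 585 / 1000 * L := by ring
          rw [h5]
          have h6 : 1 / (W * L) ≤ 1 := by
            rw [div_le_one (by positivity)]
            nlinarith
          gcongr
      _ = _ := by rw [one_mul]
  have c6 : C * L ^ 4 * (Real.exp (9 / 10 * L) * D) ≤ Real.exp (95 / 100 * L) := by
    calc C * L ^ 4 * (Real.exp (9 / 10 * L) * D) ≤
          C * L ^ 4 * (Real.exp (9 / 10 * L) * (9 * Real.exp (26 / 10000 * L))) := by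
          gcongr
      _ = (9 * C * L ^ 4) * (Real.exp (9 / 10 * L) * Real.exp (26 / 10000 * L)) := by ring
      _ ≤ Real.exp (L / 100) * (Real.exp (9 / 10 * L) * Real.exp (26 / 10000 * L)) := by gcongr
      _ = Real.exp (L / 100 + (9 / 10 * L + 26 / 10000 * L)) := by rw [Real.exp_add, Real.exp_add]
      _ ≤ Real.exp (95 / 100 * L) := Real.exp_le_exp.2 (by linarith)
  have c7 : Th * |M2 - E2| ≤ Real.exp (95 / 100 * L) := by
    have f9 : 4 * L ≤ Real.exp (L / 100) * Real.exp (L / 100) := by nlinarith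
    calc Th * |M2 - E2| ≤ (4 * L * Real.exp L) * Real.exp (-(83 / 100) * L) := by
          apply mul_le_mul hTh (h2.trans he) (abs_nonneg _) (by positivity)
      _ ≤ (Real.exp (L / 100) * Real.exp (L / 100) * Real.exp L) *
            Real.exp (-(83 / 100) * L) := by gcongr
      _ = Real.exp (L / 100 + L / 100 + L + -(83 / 100) * L) := by
          rw [Real.exp_add, Real.exp_add, Real.exp_add]
      _ ≤ Real.exp (95 / 100 * L) := Real.exp_le_exp.2 (by linarith)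
  have c8 : Real.exp (585 / 1000 * L) ≤ Real.exp (95 / 100 * L) :=
    Real.exp_le_exp.2 (by linarith)
  have c9 : 3 * Real.exp (95 / 100 * L) ≤ Real.exp (99 / 100 * L) := by
    calc 3 * Real.exp (95 / 100 * L) ≤ Real.exp (L / 100) * Real.exp (95 / 100 * L) := by
          gcongr
          linarith
      _ = Real.exp (L / 100 + 95 / 100 * L) := by rw [Real.exp_add]
      _ ≤ Real.exp (99 / 100 * L) := Real.exp_le_exp.2 (by linarith)
  have c10 : |T - Th * M2| ≤ |T - E2 * Th| + Th * |M2 - E2| := by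
    have h5 : T - Th * M2 = (T - E2 * Th) + -(Th * (M2 - E2)) := by ring
    rw [h5]
    refine (abs_add_le _ _).trans ?_
    rw [abs_neg, abs_mul, abs_of_nonneg hTh0]
  have c11 : C * L ^ 4 * (Real.exp L / W *
      (K ^ 3 * L / L ^ 100) ^ (1 / 8 : ℝ) * Real.sqrt E4 + Real.exp (9 / 10 * L) * D) =
      C * L ^ 4 * (Real.exp L / W *
      (K ^ 3 * L / L ^ 100) ^ (1 / 8 : ℝ) * Real.sqrt E4) +
        C * L ^ 4 * (Real.exp (9 / 10 * L) * D) :=
    mul_add _ _ _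
  linarith

/-- The prime `q` is `a + r n`. -/
lemma qv_cast (a : ℤ) (r n : ℕ) (h : (qv a r n).Prime) :
    ((qv a r n : ℕ) : ℤ) = a + (r : ℤ) * (n : ℤ) := by
  unfold qv at h ⊢
  rcases le_or_gt 0 (a + (r : ℤ) * (n : ℤ)) with h0 | h0
  · exact Int.toNat_of_nonneg h0
  · rw [Int.toNat_of_nonpos h0.le] at h
    exact absurd h (by norm_num)

end LPXx

open Pool.Agent.IPP.LPGx LPXx in
/-- LPX. -/
theorem t_LPX : S_LPX := by
  intro hLEV hAVG hLP hGLEV hLEVX hHITX hINTX a η ha0 hη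
  obtain ⟨C, hC1, hint⟩ := hINTX hLEV hLP
  have hC : 0 < C := by linarith
  have hwev : ∀ᶠ L : ℝ in atTop,
      ((2 : ℝ) ^ a.natAbs.primeFactors.card) ^ 2 ≤ Real.exp (L / 10) := by
    have h := pe 0 (1 / 10) (((2 : ℝ) ^ a.natAbs.primeFactors.card) ^ 2) (by norm_num)
      (by positivity)
    filter_upwards [h] with L hL
    rw [show L / 10 = 1 / 10 * L by ring]
    simpa using hL
  obtain ⟨L₀, hL₀⟩ := eventually_atTop.1 ((big η C hη hC).and hwev)
  refine ⟨L₀, fun L hLL P bb N m W b r i n Q S σ α B B1 hp => ?_⟩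
  obtain ⟨⟨f1, f2, f3, f4, f5, f6, f7, f8⟩, f9⟩ := hL₀ L hLL
  have hL0 : 0 < L := by linarith
  rw [← hp.hm] at f9
  have hm1 : 1 ≤ m := by
    rw [hp.hm]
    exact Int.natAbs_pos.2 ha0
  -- number of prime factors
  set w : ℝ := (2 : ℝ) ^ m.primeFactors.card with hw
  have hw1 : 1 ≤ w := one_le_pow₀ (by norm_num)
  have hw2 : w ^ 2 ≤ Real.exp (L / 10) := f9
  -- the modulus W
  have hWpos : 0 < W := hp.hp.hW
  have hW1 : (1 : ℝ) ≤ W := by exact_mod_cast hWpos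
  have hW0 : (0 : ℝ) < W := by linarith
  have hW20 : (W : ℝ) ≤ Real.exp (L / 20) := by
    refine hp.hp.hWL.trans (Real.exp_le_exp.2 ?_)
    have h1 := Real.sq_sqrt hL0.le
    have h2 : 40 ≤ Real.sqrt L := by
      apply Real.le_sqrt_of_sq_le
      linarith
    nlinarith
  have hn := hp.hn
  have hn3' : Real.exp (95 / 100 * L) ≤ n := by
    have h1 : Real.exp (95 / 100 * L) ≤ Real.exp L / W := by
      rw [le_div_iff₀ hW0]
      calc Real.exp (95 / 100 * L) * W ≤ Real.exp (95 / 100 * L) * Real.exp (L / 20) := by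
            gcongr
        _ = Real.exp L := by
            rw [← Real.exp_add]
            congr 1
            ring
    have h2 : (1 : ℝ) ≤ Real.exp (95 / 100 * L) := Real.one_le_exp (by positivity)
    have h3 := Nat.lt_floor_add_one (2 * Real.exp L / W)
    have h4 : (n : ℝ) = (⌊2 * Real.exp L / W⌋₊ : ℝ) := by
      rw [hn]
      rfl
    have h5 : 2 * Real.exp L / W = Real.exp L / W + Real.exp L / W := by ring
    linarith
  have hnr : (0 : ℝ) < n := (Real.exp_pos _).trans_le hn3'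
  have hn3 : Real.exp (95 / 100 * L) ≤ 2 * n := by linarith
  have hn4 : (n : ℝ) ≤ 2 * Real.exp L := by
    have h4 : (n : ℝ) = (⌊2 * Real.exp L / W⌋₊ : ℝ) := by
      rw [hn]
      rfl
    have h5 := Nat.floor_le (show (0 : ℝ) ≤ 2 * Real.exp L / W by positivity)
    have h6 : 2 * Real.exp L / W ≤ 2 * Real.exp L := div_le_self (by positivity) hW1
    linarith
  -- sites
  have hScard := cardS S L hp.hk
  have hS0 : (0 : ℝ) ≤ S.card := Nat.cast_nonneg _
  have hL1 : 1 ≤ L := by linarith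
  have hS2 : (S.card : ℝ) ≤ 2 * L ^ 2 := by
    have : 1 ≤ L ^ 2 := one_le_pow₀ hL1
    linarith
  have hL7 : L ^ 7 ≤ L ^ 100 := pow_le_pow_right₀ hL1 (by norm_num)
  -- the primes
  set Qt : Finset ℕ := SS P N ∪ Q with hQt
  have hlarge : ∀ l ∈ Qt, l.Prime ∧ ¬ l ∣ m ∧ ¬ l ∣ W ∧ L ^ 100 ≤ (l : ℝ) := by
    intro l hl
    rcases mem_union.1 hl with h | h
    · obtain ⟨a1, a2, a3, a4, _⟩ := hp.hS l h
      exact ⟨a1, a2, a3, a4.le⟩
    · obtain ⟨a1, a2, a3, a4, _⟩ := hp.hQ l h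
      exact ⟨a1, a2, a3, f2.trans a4.le⟩
  have hL2 : L ^ 2 < L ^ 100 := pow_lt_pow_right₀ (by linarith) (by norm_num)
  have hil : ∀ l ∈ Qt, i < l := by
    intro l hl
    have h1 : (i : ℝ) < l := lt_of_le_of_lt hp.hi (lt_of_lt_of_le hL2 (hlarge l hl).2.2.2)
    exact_mod_cast h1
  have hrl : ∀ l ∈ Qt, r < l := by
    intro l hl
    have h1 : (r : ℝ) < l := lt_of_le_of_lt hp.hp.hrL (lt_of_lt_of_le hL2 (hlarge l hl).2.2.2)
    exact_mod_cast h1
  have hkl : ∀ l ∈ Qt, ∀ k ∈ S, k < l := by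
    intro l hl k hk
    have h1 : (k : ℝ) < l := lt_of_le_of_lt (hp.hk k hk) (lt_of_lt_of_le hL2 (hlarge l hl).2.2.2)
    exact_mod_cast h1
  have hσ : ∀ l ∈ Qt, Bij σ l := fun l hl => (hp.hσ l hl).1
  obtain ⟨ψ, ρ, hbij, hcong, hhits, hfac⟩ := hHITX P bb N a m r i Q S α B B1 σ
    (fun l hl => ⟨(hlarge l hl).1, (hlarge l hl).2.1, hrl l hl, hil l hl, hσ l hl,
      (hp.hσ l hl).2⟩) hkl hp.hp.hr hp.hiS
  -- the level of G
  set G : ℕ → ℝ := fun c => Pool.Agent.IPP.Gc P bb N m Q S α B B1 c with hG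
  have hz1 : (1 : ℝ) ≤ L ^ 100 := one_le_pow₀ hL1
  have hz4 : 2 * (S.card : ℝ) ≤ L ^ 100 := by
    have h1 : 4 * L ^ 2 ≤ L ^ 7 := by
      have h2 : (4 : ℝ) ≤ L ^ 5 := by
        calc (4 : ℝ) ≤ 1600 ^ 5 := by norm_num
          _ ≤ L ^ 5 := by gcongr
      calc 4 * L ^ 2 ≤ L ^ 5 * L ^ 2 := by gcongr
        _ = L ^ 7 := by ring
    linarith
  have hsum := sumC Q S (L ^ 100) hz1
    (fun l hl => lt_of_le_of_lt f2 (hp.hQ l hl).2.2.2.1) hz4
  have hal : ∀ l ∈ Q, α ≤ Real.log l := by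
    intro l hl
    have h1 := (hp.hQ l hl).2.2.2.1
    have h2 : (0 : ℝ) < l := (Real.exp_pos _).trans h1
    have h3 : η * L < Real.log l := (Real.lt_log_iff_exp_lt h2).2 h1
    exact hp.hαη.trans h3.le
  have hlev := hGLEV P bb N m Q S α B B1 3 (fun l hl => (hlarge l hl).1) hp.hα hal hsum
  obtain ⟨D0, hD0⟩ : ∃ D0 : ℝ, D0 = Real.exp (3 * B) * 3 * LV P bb N := ⟨_, rfl⟩
  rw [← hD0] at hlev
  have hLV1 : 1 ≤ LV P bb N := by
    unfold LV
    apply Finset.prod_induction _ (fun x : ℝ => 1 ≤ x)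
      (fun u v hu hv => one_le_mul_of_one_le_of_one_le hu hv) le_rfl
    intro j _
    apply one_le_pow₀
    have h1 : (0 : ℝ) ≤ ∑ l ∈ P j, (l : ℝ) := Finset.sum_nonneg fun _ _ => Nat.cast_nonneg _
    linarith
  have hB0 : 0 ≤ B := hp.hB1.le.trans hp.hB1B
  have hD01 : 1 ≤ D0 := by
    rw [hD0]
    have h1 : 1 ≤ Real.exp (3 * B) := Real.one_le_exp (by linarith)
    have h2 : 1 ≤ Real.exp (3 * B) * 3 := by linarith
    exact one_le_mul_of_one_le_of_one_le h2 hLV1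
  have hD00 : 0 < D0 := by linarith
  have hD0u : D0 ≤ 3 * Real.exp (13 / 10000 * L) := by
    have h1 := hp.hB
    calc D0 = Real.exp (3 * B) * 3 * LV P bb N := hD0
      _ ≤ Real.exp (3 / 10000 * L) * 3 * Real.exp (L / 1000) := by
          have h2 : 3 * B ≤ 3 / 10000 * L := by linarith
          have h3 := hp.hLV
          gcongr
      _ = 3 * (Real.exp (3 / 10000 * L) * Real.exp (L / 1000)) := by ring
      _ = 3 * Real.exp (13 / 10000 * L) := by
          rw [← Real.exp_add]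
          congr 2
          ring
  have hD2u : D0 ^ 2 ≤ 9 * Real.exp (26 / 10000 * L) := by
    calc D0 ^ 2 ≤ (3 * Real.exp (13 / 10000 * L)) ^ 2 := by gcongr
      _ = 9 * Real.exp (26 / 10000 * L) := by
          rw [mul_pow, ← Real.exp_nat_mul]
          have h5 : ((2 : ℕ) : ℝ) * (13 / 10000 * L) = 26 / 10000 * L := by push_cast; ring
          rw [h5]
          norm_num
  have hD4u : D0 ^ 4 ≤ 81 * Real.exp (52 / 10000 * L) := by
    calc D0 ^ 4 ≤ (3 * Real.exp (13 / 10000 * L)) ^ 4 := by gcongr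
      _ = 81 * Real.exp (52 / 10000 * L) := by
          rw [mul_pow, ← Real.exp_nat_mul]
          have h5 : ((4 : ℕ) : ℝ) * (13 / 10000 * L) = 52 / 10000 * L := by push_cast; ring
          rw [h5]
          norm_num
  obtain ⟨_, hmul, _, _, hper, _⟩ := hLEV Qt (fun l hl => (hlarge l hl).1)
  have hG2 : Pool.Agent.IPP.Lev Qt (D0 ^ 2) (fun c => G c ^ 2) := by
    have h1 := hmul _ _ _ _ hlev hlev
    have e1 : D0 * D0 = D0 ^ 2 := (sq D0).symm
    have e2 : (fun c => G c * G c) = fun c => G c ^ 2 := by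
      funext c
      exact (sq _).symm
    rw [e1] at h1
    rw [← e2]
    exact h1
  have hG4 : Pool.Agent.IPP.Lev Qt (D0 ^ 4) (fun c => (G c ^ 2) ^ 2) := by
    have h1 := hmul _ _ _ _ hG2 hG2
    have e1 : D0 ^ 2 * D0 ^ 2 = D0 ^ 4 := by ring
    have e2 : (fun c => G c ^ 2 * G c ^ 2) = fun c => (G c ^ 2) ^ 2 := by
      funext c
      exact (sq _).symm
    rw [e1] at h1
    rw [← e2]
    exact h1
  have hpG := (hper _ _ hlev).2.2
  have hpG2 := (hper _ _ hG2).2.2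
  have hpG4 := (hper _ _ hG4).2.2
  -- the compositions
  have hpr : ∀ l ∈ Qt, l.Prime := fun l hl => (hlarge l hl).1
  obtain ⟨hs1, hs2, _⟩ := hLEVX Qt σ hpr hσ
  obtain ⟨ht1, ht2, ht3⟩ := hLEVX Qt (fun t => σ (ψ t)) hpr hbij
  have hs2' := hs2 (fun c => G c ^ 2) hpG2
  have hs4' := hs2 (fun c => (G c ^ 2) ^ 2) hpG4
  have ht2' := ht2 (fun c => G c ^ 2) hpG2
  have ht4' := ht2 (fun c => (G c ^ 2) ^ 2) hpG4
  -- the averages
  have hcop : ∀ l ∈ Qt, l.Prime ∧ ¬ l ∣ m ∧ ¬ l ∣ W := fun l hl =>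
    ⟨(hlarge l hl).1, (hlarge l hl).2.1, (hlarge l hl).2.2.1⟩
  have hA2 := hAVG Qt m W b n (D0 ^ 2) (fun c => G (σ c) ^ 2) hm1 hp.hp.hW hp.hWm hcop
    (hs1 (D0 ^ 2) (fun c => G c ^ 2) hG2)
  have hA4 := hAVG Qt m W b n (D0 ^ 4) (fun c => (G (σ c) ^ 2) ^ 2) hm1 hp.hp.hW hp.hWm hcop
    (hs1 (D0 ^ 4) (fun c => (G c ^ 2) ^ 2) hG4)
  have e2 : Pool.Agent.IPP.mean (Pool.Agent.IPP.pr Qt) (fun c => G (σ c) ^ 2) =
      Pool.Agent.IPP.mean (Pool.Agent.IPP.pr Qt) (fun c => G c ^ 2) := hs2'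
  have e4 : Pool.Agent.IPP.mean (Pool.Agent.IPP.pr Qt) (fun c => (G (σ c) ^ 2) ^ 2) =
      Pool.Agent.IPP.mean (Pool.Agent.IPP.pr Qt) (fun c => (G c ^ 2) ^ 2) := hs4'
  rw [e2] at hA2
  rw [e4] at hA4
  have hρ := two_pow_totient m hm1
  have hB2 := dv _ _ _ _ _ w n rfl hnr hw1 hρ (by positivity) hA2
  have hB4 := dv _ _ _ _ _ w n rfl hnr hw1 hρ (by positivity) hA4
  have hGf : ∀ x : ℕ, GX P bb N m W b Q S σ α B B1 x = G (σ (b + W * x)) := fun x => rfl
  have he : w ^ 2 * D0 ^ 4 / n ≤ Real.exp (-(83 / 100) * L) := by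
    rw [div_le_iff₀ hnr]
    have h1 : w ^ 2 * D0 ^ 4 ≤ Real.exp (L / 10) * (81 * Real.exp (52 / 10000 * L)) := by
      gcongr
    have h2 : 162 * (Real.exp (L / 10) * Real.exp (52 / 10000 * L)) ≤
        Real.exp (-(83 / 100) * L) * Real.exp (95 / 100 * L) := by
      calc 162 * (Real.exp (L / 10) * Real.exp (52 / 10000 * L)) ≤
            Real.exp (L / 100) * (Real.exp (L / 10) * Real.exp (52 / 10000 * L)) := by gcongr
        _ = Real.exp (L / 100 + (L / 10 + 52 / 10000 * L)) := by rw [Real.exp_add, Real.exp_add]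
        _ ≤ Real.exp (-(83 / 100) * L + 95 / 100 * L) := Real.exp_le_exp.2 (by linarith)
        _ = _ := Real.exp_add _ _
    have h3 : Real.exp (-(83 / 100) * L) * Real.exp (95 / 100 * L) ≤
        Real.exp (-(83 / 100) * L) * (2 * n) := by gcongr
    linarith
  have he2 : w ^ 2 * D0 ^ 2 / n ≤ w ^ 2 * D0 ^ 4 / n := by
    have h1 : D0 ^ 2 ≤ D0 ^ 4 := pow_le_pow_right₀ hD01 (by norm_num)
    gcongr
  -- the total weight
  have hlw : ∀ x ∈ PiL a r W b L, lwX a r W b x ≤ 2 * L := by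
    intro x hx
    rw [PiL, mem_filter] at hx
    obtain ⟨_, hxp, _, hxu⟩ := hx
    have h3 : (0 : ℝ) < ((qv a r (b + W * x) : ℕ) : ℝ) := by exact_mod_cast hxp.pos
    have h4 : ((qv a r (b + W * x) : ℕ) : ℝ) ≤ 3 / 2 * ((r : ℝ) * Real.exp L) := by
      have h5 : ((qv a r (b + W * x) : ℕ) : ℝ) ≤ (⌊3 / 2 * ((r : ℝ) * Real.exp L)⌋₊ : ℝ) := by
        exact_mod_cast hxu
      exact h5.trans (Nat.floor_le (by positivity))
    rw [lwX, Real.log_le_iff_le_exp h3]
    calc ((qv a r (b + W * x) : ℕ) : ℝ) ≤ 3 / 2 * ((r : ℝ) * Real.exp L) := h4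
      _ ≤ 2 * ((L ^ 2) * Real.exp L) := by
          have h5 := hp.hp.hrL
          have h6 : (r : ℝ) * Real.exp L ≤ L ^ 2 * Real.exp L := by gcongr
          have h7 : 0 ≤ L ^ 2 * Real.exp L := by positivity
          linarith
      _ = 2 * L ^ 2 * Real.exp L := by ring
      _ ≤ Real.exp (L / 20) * Real.exp L := by gcongr
      _ = Real.exp (L / 20 + L) := (Real.exp_add _ _).symm
      _ ≤ Real.exp (2 * L) := Real.exp_le_exp.2 (by linarith)
  have hTh0 : 0 ≤ ThL a r W b L := by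
    rw [ThL]
    apply Finset.sum_nonneg
    intro x _
    exact Real.log_natCast_nonneg _
  have hTh : ThL a r W b L ≤ 4 * L * Real.exp L := by
    rw [ThL]
    refine (Finset.sum_le_card_nsmul _ _ _ hlw).trans ?_
    rw [nsmul_eq_mul]
    have h1 : ((PiL a r W b L).card : ℝ) ≤ n := by
      have h2 : (PiL a r W b L).card ≤ (range (M0 L W)).card := card_filter_le _ _
      rw [card_range, ← hn] at h2
      exact_mod_cast h2
    calc ((PiL a r W b L).card : ℝ) * (2 * L) ≤ (2 * Real.exp L) * (2 * L) := by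
          gcongr
          exact h1.trans hn4
      _ = _ := by ring
  -- the bilinear lemma
  have hfac2 : Pool.Agent.IPP.Fac Qt ρ (fun t => G (σ (ψ t)) ^ 2) := by
    intro c c' hcc
    have h1 := hfac c c' hcc
    exact congrArg (fun t : ℝ => t ^ 2) h1
  have hcard : ((Fintype.card {k // k ∈ S} : ℕ) : ℝ) = S.card := by rw [Fintype.card_coe]
  have h16 : 16 * (Fintype.card {k // k ∈ S} : ℝ) ^ 2 ≤ L ^ 100 := by
    rw [hcard]
    exact k16 L S.card f1 hS0 hS2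
  have h120 : 120 * (Fintype.card {k // k ∈ S} : ℝ) ^ 3 ≤ L ^ 100 := by
    rw [hcard]
    exact k120 L S.card f1 hS0 hS2
  have h8 : 8 * (Fintype.card {k // k ∈ S} : ℝ) * L ≤ L ^ 100 := by
    rw [hcard]
    exact k8 L S.card f1 hS0 hS2
  have hrdvd : ∀ l ∈ Qt, ¬ l ∣ r := by
    intro l hl h
    have h1 := Nat.le_of_dvd hp.hp.hr h
    have h2 := hrl l hl
    omega
  have hres := hint Qt {k // k ∈ S} ρ (fun t => G (σ (ψ t)) ^ 2) (L ^ 100) (D0 ^ 2) a W b r L
    hhits hfac2 (ht1 (D0 ^ 2) (fun c => G c ^ 2) hG2) (one_le_pow₀ hD01)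
    (fun l hl => ⟨(hlarge l hl).2.2.2, (hlarge l hl).2.2.1, hrdvd l hl⟩) hz1 h16 h120 h8
    (by linarith) hp.hp
  rw [hcard] at hres
  have e2t : Pool.Agent.IPP.mean (Pool.Agent.IPP.pr Qt) (fun t => G (σ (ψ t)) ^ 2) =
      Pool.Agent.IPP.mean (Pool.Agent.IPP.pr Qt) (fun c => G c ^ 2) := ht2'
  have e4t : Pool.Agent.IPP.mean (Pool.Agent.IPP.pr Qt) (fun t => (G (σ (ψ t)) ^ 2) ^ 2) =
      Pool.Agent.IPP.mean (Pool.Agent.IPP.pr Qt) (fun c => (G c ^ 2) ^ 2) := ht4'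
  rw [e2t, e4t] at hres
  have hsplit : ∑ x ∈ PiL a r W b L, lwX a r W b x *
      (G (σ (ψ (qv a r (b + W * x)))) ^ 2 -
        Pool.Agent.IPP.mean (Pool.Agent.IPP.pr Qt) (fun c => G c ^ 2)) =
      ∑ x ∈ PiL a r W b L, lwX a r W b x * GX P bb N m W b Q S σ α B B1 x ^ 2 -
        Pool.Agent.IPP.mean (Pool.Agent.IPP.pr Qt) (fun c => G c ^ 2) * ThL a r W b L := by
    rw [ThL, Finset.mul_sum, ← Finset.sum_sub_distrib]
    apply Finset.sum_congr rfl
    intro x hx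
    rw [PiL, mem_filter] at hx
    have h1 := qv_cast a r (b + W * x) hx.2.1
    have h2 : G (σ (ψ (qv a r (b + W * x)))) = G (σ (b + W * x)) :=
      ht3 G hpG _ _ (fun l hl => hcong _ _ h1 l hl)
    rw [hGf x, h2]
    ring
  rw [hsplit] at hres
  have hM4 : IP.mn m W b n (fun x => GX P bb N m W b Q S σ α B B1 x ^ 4) =
      (∑ x ∈ (range n).filter (fun x => (b + W * x).Coprime m), (G (σ (b + W * x)) ^ 2) ^ 2) /
        ((n : ℝ) * ((m.totient : ℝ) / m)) := by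
    rw [IP.mn]
    congr 1
    apply Finset.sum_congr rfl
    intro x _
    rw [hGf x]
    ring
  have hM2 : IP.mn m W b n (fun x => GX P bb N m W b Q S σ α B B1 x ^ 2) =
      (∑ x ∈ (range n).filter (fun x => (b + W * x).Coprime m), G (σ (b + W * x)) ^ 2) /
        ((n : ℝ) * ((m.totient : ℝ) / m)) := rfl
  rw [← hM2] at hB2
  rw [← hM4] at hB4
  have hM40 : 0 ≤ IP.mn m W b n (fun x => GX P bb N m W b Q S σ α B B1 x ^ 4) := by
    rw [hM4]
    exact div_nonneg (Finset.sum_nonneg fun x _ => sq_nonneg _)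
      (mul_nonneg (Nat.cast_nonneg _) (div_nonneg (Nat.cast_nonneg _) (Nat.cast_nonneg _)))
  exact fin2 C L S.card (D0 ^ 2) _ _ _ _ _ _ (w ^ 2 * D0 ^ 4 / n) W hC f1 hS0 hS2
    hW1 f5 f6 f7 f8 hD2u hM40 he hTh0 hTh (hB2.trans he2) hB4 hres

end

end Pool.Agent.FCT
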