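import Pool.Agent.FCT.St4
import Pool.Agent.FCT.LPYX

set_option autoImplicit false

/-!
LPYV: the second moment of `G` over the primes `a + r (b + W x)`, with `m = 1`.
-/

namespace Pool.Agent.FCT

open Finset Filter Pool.Agent.Lib_helper9.LG Pool.Agent.IPP
open Pool.Agent.FXD (Bij)
open Pool.Agent.CRE (Con Gy Zy Cfg Prs)

noncomputable section

open LPYXx in
/-- LPYV: `LPYX` with `m = 1` (the relation between `m` and `a` is not used in the proof). -/
theorem t_LPYV : S_LPYV := by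
  intro hLPA hLOC hCNY hCOA hLEVX hHITY hCONX a ha0
  obtain ⟨C₁, hC₁, hLPA⟩ := hLPA
  obtain ⟨L₀, hL₀⟩ := eventually_atTop.1 (big C₁ hC₁)
  refine ⟨L₀, fun L hLL P bb N m W b r i J Q' S D y σ B hm hcfg hp hQ hQ' hσ hk hiL hiS hLV hB0
    hB hsz => ?_⟩
  obtain ⟨f1, f2, f3, f4, f5⟩ := hL₀ L hLL
  have hL0 : 0 < L := by linarith
  have hL1 : 1 ≤ L := by linarith
  have hW1 : (1 : ℝ) ≤ W := by exact_mod_cast hp.hW
  have hWpos : 0 < W := hp.hW
  have hr1 : (1 : ℝ) ≤ r := by exact_mod_cast hp.hr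
  have hrpos : 0 < r := hp.hr
  have hab : a.natAbs ≤ b := by have := hp.hb1; omega
  -- the primes
  obtain ⟨Qt, hQt⟩ : ∃ Qt, Qt = SS P N ∪ Q' := ⟨_, rfl⟩
  have hexpl : ∀ l ∈ Qt, (l : ℝ) ≤ Real.exp L := fun l hl =>
    le_exp hL0 hcfg.bb hLV hQ' l (hQt ▸ hl)
  have hDS := hcfg.DS
  have hGdep : ∀ c c' : ℕ, (∀ l ∈ Qt, ∀ k ∈ S, (l ∣ c + k * m ↔ l ∣ c' + k * m)) →
      Gy P bb N m Q' S D y c = Gy P bb N m Q' S D y c' := fun c c' h =>
    Gy_eq hDS (fun l hl k hk => h l (hQt ▸ hl) k hk)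
  rw [← hQt] at hQ hσ
  have hpm : ∀ l ∈ Qt, l.Prime ∧ ¬ l ∣ m := by
    intro l hl
    rw [hQt] at hl
    rcases mem_union.1 hl with h | h
    · exact ⟨(hcfg.pS l h).1, (hcfg.pS l h).2.1⟩
    · exact ⟨(hcfg.pQ l h).1, (hcfg.pQ l h).2.1⟩
  have hL2 : L ^ 2 < L ^ 100 := pow_lt_pow_right₀ (by linarith) (by norm_num)
  have hil : ∀ l ∈ Qt, i < l := by
    intro l hl
    have h1 : (i : ℝ) < l := lt_of_le_of_lt hiL (hL2.trans (hQ l hl).2)
    exact_mod_cast h1
  have hrl : ∀ l ∈ Qt, r < l := by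
    intro l hl
    have h1 : (r : ℝ) < l := lt_of_le_of_lt hp.hrL (hL2.trans (hQ l hl).2)
    exact_mod_cast h1
  have hq1 : 1 ≤ pr Qt := by
    unfold pr
    exact Finset.prod_pos fun l hl => (hpm l hl).1.pos
  -- the maps
  obtain ⟨ψ, ρ, hψ1, hψ2, hhits, hρ⟩ := hHITY Qt a m r i S σ
    (fun l hl => ⟨(hpm l hl).1, (hpm l hl).2, hrl l hl, hil l hl, hσ l hl⟩)
    (fun l hl k hk => hcfg.lt k hk l (hQt ▸ hl)) hp.hr hiS
  obtain ⟨τ, hτ⟩ : ∃ τ : ℕ → ℕ, τ = fun t => σ (ψ t) := ⟨_, rfl⟩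
  have hτB : ∀ l ∈ Qt, Bij τ l := by
    rw [hτ]
    exact hψ1
  have hpr : ∀ l ∈ Qt, l.Prime := fun l hl => (hpm l hl).1
  obtain ⟨-, hlev2, hlev3⟩ := hLEVX Qt τ hpr hτB
  -- the function
  have hcon := hCNY P bb N m Q' S D y B (fun l hl => (hpm l (hQt ▸ hl)).1) hB0 hsz
  have hLOCm := hLOC P bb N m J Q' S D y hcfg
  rw [← hQt] at hcon hLOCm
  obtain ⟨G, hG⟩ : ∃ G : ℕ → ℝ, G = Gy P bb N m Q' S D y := ⟨_, rfl⟩
  rw [← hG] at hcon hGdep hLOCm
  have hper : ∀ c, G (c + pr Qt) = G c := Pool.Agent.CRE.LPYx.con_per hcon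
  have hLV1 : 1 ≤ LV P bb N := by
    unfold LV
    apply Finset.prod_induction _ (fun x : ℝ => 1 ≤ x)
      (fun u v hu hv => one_le_mul_of_one_le_of_one_le hu hv) le_rfl
    intro j _
    apply one_le_pow₀
    have h1 : (0 : ℝ) ≤ ∑ l ∈ P j, (l : ℝ) := Finset.sum_nonneg fun _ _ => Nat.cast_nonneg _
    linarith
  obtain ⟨D0, hD0⟩ : ∃ D0 : ℝ, D0 = Real.exp B * LV P bb N := ⟨_, rfl⟩
  rw [← hD0] at hcon
  have hD01 : 1 ≤ D0 := by
    rw [hD0]
    exact one_le_mul_of_one_le_of_one_le (Real.one_le_exp hB0) hLV1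
  have hD0u : D0 ≤ Real.exp (11 / 10000 * L) := by
    calc D0 = Real.exp B * LV P bb N := hD0
      _ ≤ Real.exp (L / 10000) * Real.exp (L / 1000) := by gcongr
      _ = Real.exp (11 / 10000 * L) := by
          rw [← Real.exp_add]
          congr 1
          ring
  obtain ⟨-, hmul, -, -, -⟩ := hCOA Qt hpr
  obtain ⟨F, hF⟩ : ∃ F : ℕ → ℝ, F = fun t => G (τ t) ^ 2 := ⟨_, rfl⟩
  have hconF : Con Qt (D0 * D0) F := by
    have h0 := hCONX Qt τ hpr hτB D0 G hcon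
    have h1 := hmul D0 D0 _ _ hD01 hD01 h0 h0
    have h3 : (fun t => G (τ t) * G (τ t)) = F := by
      rw [hF]
      funext c
      exact (sq _).symm
    rw [← h3]
    exact h1
  have hfacF : Fac Qt ρ F := by
    intro c c' hcc
    rw [hF]
    have h1 : G (τ c) = G (τ c') := by
      refine hGdep _ _ fun l hl k hk => ?_
      have h2 := hρ c l hl ⟨k, hk⟩
      have h3 := hρ c' l hl ⟨k, hk⟩
      rw [hτ]
      show (l ∣ σ (ψ c) + k * m ↔ l ∣ σ (ψ c') + k * m)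
      rw [← h2, ← h3]
      exact hcc l hl ⟨k, hk⟩
    show G (τ c) ^ 2 = G (τ c') ^ 2
    rw [h1]
  have hF0 : ∀ c, 0 ≤ F c := by
    intro c
    rw [hF]
    positivity
  have hmean : mean (pr Qt) F = mean (pr Qt) (fun c => G c ^ 2) := by
    rw [hF]
    exact hlev2 (fun c => G c ^ 2) (fun c => by simp only [hper])
  -- the mass
  obtain ⟨Z, hZ⟩ : ∃ Z, Z = Zy P N Q' S D y := ⟨_, rfl⟩
  rw [← hZ] at hLOCm
  have hZ0 : 0 ≤ Z := by
    obtain ⟨k0, hk0⟩ := hcfg.ne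
    have h1 := hLOCm ∅ (fun _ => k0) (empty_subset _)
      (fun l hl => absurd hl (notMem_empty l))
    rw [Finset.prod_empty, mul_one] at h1
    have h2 : 0 ≤ mean (pr Qt) (fun c => if ∀ l ∈ (∅ : Finset ℕ), l ∣ c + k0 * m then
        G c ^ 2 else 0) := by
      unfold mean
      apply div_nonneg _ (Nat.cast_nonneg _)
      apply Finset.sum_nonneg
      intro c _
      split_ifs
      · positivity
      · exact le_rfl
    linarith
  have hmass : ∀ (E : Finset ℕ) (k : ℕ → {k // k ∈ S}), E ⊆ Qt → mean (pr Qt) (fun c =>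
      if ∀ l ∈ E, c % l = ρ l (k l) then F c else 0) ≤
        4 * Z * ∏ l ∈ E, ((32 : ℝ) / l) := by
    intro E k hE
    have h1 := hLOCm E (fun l => (k l : ℕ)) hE (fun l _ => (k l).2)
    refine le_trans (le_of_eq ?_) h1
    have h4 := hlev2 (fun c => if ∀ l ∈ E, l ∣ c + (k l : ℕ) * m then G c ^ 2 else 0) ?_
    · rw [← h4]
      congr 1
      funext c
      have h2 : (∀ l ∈ E, c % l = ρ l (k l)) ↔ ∀ l ∈ E, l ∣ τ c + (k l : ℕ) * m := by
        refine forall_congr' fun l => forall_congr' fun hl => ?_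
        rw [hτ]
        exact hρ c l (hE hl) (k l)
      rw [hF]
      by_cases h3 : ∀ l ∈ E, c % l = ρ l (k l)
      · rw [if_pos h3, if_pos (h2.1 h3)]
      · rw [if_neg h3, if_neg (fun h => h3 (h2.2 h))]
    · intro c
      have h2 : (∀ l ∈ E, l ∣ c + pr Qt + (k l : ℕ) * m) ↔ ∀ l ∈ E, l ∣ c + (k l : ℕ) * m := by
        refine forall_congr' fun l => forall_congr' fun hl => ?_
        have hlp : l ∣ pr Qt := Finset.dvd_prod_of_mem _ (hE hl)
        rw [show c + pr Qt + (k l : ℕ) * m = (c + (k l : ℕ) * m) + pr Qt by ring]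
        exact (Nat.dvd_add_iff_left hlp).symm
      by_cases h3 : ∀ l ∈ E, l ∣ c + (k l : ℕ) * m
      · rw [if_pos h3, if_pos (h2.2 h3), hper]
      · rw [if_neg h3, if_neg (fun h => h3 (h2.1 h))]
  -- sizes
  obtain ⟨X₁, hX₁⟩ : ∃ X₁, X₁ = ⌊(r : ℝ) * Real.exp L⌋₊ := ⟨_, rfl⟩
  obtain ⟨X₂, hX₂⟩ : ∃ X₂, X₂ = ⌊3 / 2 * ((r : ℝ) * Real.exp L)⌋₊ := ⟨_, rfl⟩
  have hexp0 : 0 < Real.exp L := Real.exp_pos L
  have hre : Real.exp L ≤ r * Real.exp L := le_mul_of_one_le_left hexp0.le hr1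
  have hexp2 : 2 ≤ Real.exp L := by
    have := Real.add_one_le_exp L
    linarith
  have hX12 : X₁ ≤ X₂ := by
    rw [hX₁, hX₂]
    apply Nat.floor_le_floor
    linarith
  have hX2m' : Real.exp L ≤ X₂ := by
    have h1 := Nat.lt_floor_add_one (3 / 2 * ((r : ℝ) * Real.exp L))
    rw [← hX₂] at h1
    linarith
  have hX2a : (X₂ : ℝ) ≤ 3 / 2 * (r * Real.exp L) := by
    rw [hX₂]
    exact Nat.floor_le (by positivity)
  have hX2b : (X₂ : ℝ) ≤ Real.exp (2 * L) := by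
    have h1 : Real.exp (L / 20) ≤ Real.exp L := Real.exp_le_exp.2 (by linarith)
    have h2 : 0 ≤ L ^ 2 := by positivity
    have h3 : 3 / 2 * (r : ℝ) ≤ Real.exp L := by
      have := hp.hrL
      linarith
    calc (X₂ : ℝ) ≤ 3 / 2 * (r * Real.exp L) := hX2a
      _ = (3 / 2 * (r : ℝ)) * Real.exp L := by ring
      _ ≤ Real.exp L * Real.exp L := by gcongr
      _ = Real.exp (2 * L) := by
          rw [← Real.exp_add]
          congr 1
          ring
  have hX20 : (0 : ℝ) < X₂ := hexp0.trans_le hX2m'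
  have hlogX : Real.log X₂ ≤ 2 * L := by
    rw [Real.log_le_iff_le_exp hX20]
    exact hX2b
  have hlogX0 : 0 ≤ Real.log X₂ := Real.log_natCast_nonneg _
  have hD40 : (D0 * D0) ^ 40 ≤ (X₂ : ℝ) := by
    calc (D0 * D0) ^ 40 = D0 ^ 80 := by ring
      _ ≤ Real.exp (11 / 10000 * L) ^ 80 := by gcongr
      _ = Real.exp (((80 : ℕ) : ℝ) * (11 / 10000 * L)) := (Real.exp_nat_mul _ _).symm
      _ ≤ Real.exp L := Real.exp_le_exp.2 (by push_cast; linarith)
      _ ≤ X₂ := hX2m'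
  have hsqL := Real.sq_sqrt hL0.le
  have hs160 : 160 ≤ Real.sqrt L := by
    apply Real.le_sqrt_of_sq_le
    linarith
  have hW40 : (((W * r : ℕ) : ℝ)) ^ 40 ≤ (X₂ : ℝ) := by
    have h1 : (W : ℝ) ^ 40 ≤ Real.exp (1 / 2 * L) := by
      calc (W : ℝ) ^ 40 ≤ Real.exp (2 * Real.sqrt L) ^ 40 := by
            have := hp.hWL
            gcongr
        _ = Real.exp (((40 : ℕ) : ℝ) * (2 * Real.sqrt L)) := (Real.exp_nat_mul _ _).symm
        _ ≤ Real.exp (1 / 2 * L) := by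
            apply Real.exp_le_exp.2
            push_cast
            nlinarith
    have h2 : (r : ℝ) ^ 40 ≤ Real.exp (1 / 4 * L) := by
      calc (r : ℝ) ^ 40 ≤ (L ^ 2) ^ 40 := by
            have := hp.hrL
            gcongr
        _ = L ^ 80 := by ring
        _ ≤ _ := f5
    calc (((W * r : ℕ) : ℝ)) ^ 40 = (W : ℝ) ^ 40 * (r : ℝ) ^ 40 := by
          push_cast
          ring
      _ ≤ Real.exp (1 / 2 * L) * Real.exp (1 / 4 * L) := by gcongr
      _ = Real.exp (3 / 4 * L) := by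
          rw [← Real.exp_add]
          congr 1
          ring
      _ ≤ Real.exp L := Real.exp_le_exp.2 (by linarith)
      _ ≤ X₂ := hX2m'
  have hWe : 2 * (W : ℝ) ≤ Real.exp L := by
    have h1 : (W : ℝ) ≤ Real.exp (1 / 2 * L) := hp.hWL.trans (Real.exp_le_exp.2 (by nlinarith))
    have h2 : 2 ≤ Real.exp (1 / 2 * L) := by
      have := Real.add_one_le_exp (1 / 2 * L)
      linarith
    calc 2 * (W : ℝ) ≤ Real.exp (1 / 2 * L) * Real.exp (1 / 2 * L) := by gcongr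
      _ = Real.exp L := by
          rw [← Real.exp_add]
          congr 1
          ring
  have hs0 : (qv a r b : ℝ) ≤ r * Real.exp L := by
    have h1 := qv_cast (n := b) hab hp.hr
    have h2 : ((qv a r b : ℕ) : ℤ) ≤ ((2 * (r * b) : ℕ) : ℤ) := by
      rw [h1]
      push_cast
      have h3 : a ≤ (a.natAbs : ℤ) := by omega
      have h4 : (a.natAbs : ℤ) ≤ (b : ℤ) := by exact_mod_cast hab
      have h5 : (1 : ℤ) ≤ (r : ℤ) := by exact_mod_cast hp.hr
      have h6 : (0 : ℤ) ≤ (b : ℤ) := Int.natCast_nonneg b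
      nlinarith
    have h3 : (qv a r b : ℝ) ≤ ((2 * (r * b) : ℕ) : ℝ) := by exact_mod_cast h2
    push_cast at h3
    have h4 : 2 * (b : ℝ) ≤ Real.exp L := by
      have h5 : 2 ≤ Real.exp (1 / 2 * L) := by
        have := Real.add_one_le_exp (1 / 2 * L)
        linarith
      have h6 : (b : ℝ) ≤ Real.exp (1 / 2 * L) :=
        hp.hb2.trans (Real.exp_le_exp.2 (by linarith))
      calc 2 * (b : ℝ) ≤ Real.exp (1 / 2 * L) * Real.exp (1 / 2 * L) := by gcongr
        _ = Real.exp L := by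
            rw [← Real.exp_add]
            congr 1
            ring
    calc (qv a r b : ℝ) ≤ 2 * ((r : ℝ) * b) := h3
      _ = r * (2 * b) := by ring
      _ ≤ r * Real.exp L := by gcongr
  have hcop : (qv a r b).Coprime (W * r) := by
    rw [← Nat.isCoprime_iff_coprime]
    rw [qv_cast hab hp.hr]
    push_cast
    refine hp.hbr.mul_right ?_
    have h1 := hp.har
    have h2 : IsCoprime (a + (r : ℤ) * (b : ℤ)) (r : ℤ) := by
      rw [mul_comm (r : ℤ)]
      exact IsCoprime.add_mul_right_left h1 _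
    exact h2
  have hScard := LPGx.cardS S L hk
  have hS0 : (0 : ℝ) ≤ S.card := Nat.cast_nonneg _
  have hcard : ((Fintype.card {k // k ∈ S} : ℕ) : ℝ) = S.card := by rw [Fintype.card_coe]
  haveI : Nonempty {k // k ∈ S} := by
    obtain ⟨k0, hk0⟩ := hcfg.ne
    exact ⟨⟨k0, hk0⟩⟩
  have hlW : ∀ l ∈ Qt, L ^ 100 ≤ l ∧ ¬ l ∣ W * r ∧ l ≤ X₁ := by
    intro l hl
    refine ⟨(hQ l hl).2.le, ?_, ?_⟩
    · intro h
      rcases (hpm l hl).1.dvd_mul.1 h with h | h
      · exact (hQ l hl).1 h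
      · exact absurd (Nat.le_of_dvd hrpos h) (not_le.2 (hrl l hl))
    · rw [hX₁]
      exact Nat.le_floor ((hexpl l hl).trans hre)
  have key := hLPA Qt {k // k ∈ S} ρ F (L ^ 100)
    (D0 * D0) (4 * Z) 32 (W * r) (qv a r b) X₁ X₂ hhits hfacF hconF hF0 hlW (by norm_num)
    (by rw [hcard]; exact Pool.Agent.CRE.LPYx.k8 L S.card (by linarith) hS0 hScard)
    (Nat.mul_pos hWpos hrpos) hcop (f2.trans hX2m') hX12
    (one_le_mul_of_one_le_of_one_le hD01 hD01) hD40 hW40 (by positivity) hmass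
  rw [hmean, hX₁, hX₂] at key
  rw [sum_PiL hp hs0 hWe, sum_PiL hp hs0 hWe, ← hX₂] at key
  -- the total weight
  have hThe : ∑ x ∈ PiL a r W b L, Real.log ((qv a r (b + W * x) : ℕ) : ℝ) = ThL a r W b L := rfl
  have hTh : ThL a r W b L ≤ 2 * Real.exp L / W * (2 * L) := by
    have hlw : ∀ x ∈ PiL a r W b L, lwX a r W b x ≤ 2 * L := by
      intro x hx
      rw [PiL, mem_filter] at hx
      have h3 : (0 : ℝ) < ((qv a r (b + W * x) : ℕ) : ℝ) := by exact_mod_cast hx.2.1.pos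
      rw [lwX, Real.log_le_iff_le_exp h3]
      have h4 : qv a r (b + W * x) ≤ X₂ := by
        rw [hX₂]
        exact hx.2.2.2
      have h5 : ((qv a r (b + W * x) : ℕ) : ℝ) ≤ X₂ := by exact_mod_cast h4
      exact h5.trans hX2b
    rw [ThL]
    refine (Finset.sum_le_card_nsmul _ _ _ hlw).trans ?_
    rw [nsmul_eq_mul]
    have h1 : ((PiL a r W b L).card : ℝ) ≤ (M0 L W : ℝ) := by
      have h2 : (PiL a r W b L).card ≤ (range (M0 L W)).card := card_filter_le _ _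
      rw [card_range] at h2
      exact_mod_cast h2
    have h3 : (M0 L W : ℝ) ≤ 2 * Real.exp L / W := Nat.floor_le (by positivity)
    have h4 := h1.trans h3
    gcongr
  have hFG : ∀ x, F (qv a r (b + W * x)) = G (σ (b + W * x)) ^ 2 := by
    intro x
    have h1 := qv_cast (a := a) (n := b + W * x) (hab.trans (Nat.le_add_right _ _)) hp.hr
    have h2 := hlev3 G hper _ _ (fun l hl => hψ2 (qv a r (b + W * x)) (b + W * x) h1 l hl)
    rw [hF, hτ]
    show G (σ (ψ (qv a r (b + W * x)))) ^ 2 = _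
    rw [h2]
  have hsplit : ∑ x ∈ PiL a r W b L, Real.log ((qv a r (b + W * x) : ℕ) : ℝ) *
        (F (qv a r (b + W * x)) - mean (pr Qt) (fun c => G c ^ 2)) =
      ∑ x ∈ PiL a r W b L, lwX a r W b x * G (σ (b + W * x)) ^ 2 -
        ThL a r W b L * mean (pr Qt) (fun c => G c ^ 2) := by
    rw [ThL, Finset.sum_mul, ← Finset.sum_sub_distrib]
    apply Finset.sum_congr rfl
    intro x _
    rw [hFG]
    simp only [lwX]
    ring
  rw [hsplit, hThe] at key
  rw [← hG, ← hQt, ← hZ]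
  refine key.trans ?_
  have hfin := num C₁ L Z W r X₂ (Real.log X₂) (ThL a r W b L) W.totient (by linarith) hC₁ f3 hZ0
    hW1 hr1 (by exact_mod_cast Nat.totient_pos.2 hWpos) (by exact_mod_cast Nat.totient_le W)
    hX20.le hX2a hlogX0 hlogX hTh
  rw [Nat.cast_mul]
  exact hfin

end

end Pool.Agent.FCT
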