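import Pool.Agent.FCT.St2
import Pool.Agent.IP.MOF
import Pool.Agent.FXD.MomS

set_option autoImplicit false

/-!
MOFX: the fourth moment of the sum of the sieve functions with a forced additional site, composed with
the map `σ`.
-/

namespace Pool.Agent.FCT

open Finset Pool.Agent.Lib_helper9.LG Pool.Agent.FXD

namespace MOFXm

open Pool.Agent.Lib_helper9.LG.MOMd IP.MOF

theorem main (h2 : StmtVUP) : S_MOFX := by
  intro P b N m W b₀ M₀ J i S σ hm hW hM hWm hdis hpr hσ hiS hS hsum hb
  set 𝒜 := S.powerset.filter (fun A => A.card ≤ J) with h𝒜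
  set D : ℝ := (M₀ : ℝ) * ((m.totient : ℝ) / m) with hD
  set E : ℝ := 2 ^ m.primeFactors.card * LV P b N ^ 4 with hE
  have hD0 : 0 < D := by
    have a1 : (0 : ℝ) < M₀ := by exact_mod_cast hM
    have a2 : (0 : ℝ) < m := by exact_mod_cast hm
    have a3 : (0 : ℝ) < m.totient := by exact_mod_cast Nat.totient_pos.2 hm
    positivity
  have hE0 : 0 ≤ E := by
    have : 0 ≤ LV P b N ^ 4 := by
      have := sq_nonneg (LV P b N ^ 2)
      calc (0 : ℝ) ≤ (LV P b N ^ 2) ^ 2 := this
        _ = LV P b N ^ 4 := by ring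
    positivity
  have hexp : ∀ c : ℕ, (∑ A ∈ 𝒜, Lm P b N m (insert i A) c) ^ 4 =
      ∑ g ∈ Fintype.piFinset (fun _ : Fin 4 => 𝒜), ∏ r, Lm P b N m (insert i (g r)) c := by
    intro c
    have := (prod_univ_sum (fun _ : Fin 4 => 𝒜) (fun _ A => Lm P b N m (insert i A) c)).symm
    rw [this, prod_const]
    simp
  have hl : ∀ l ∈ SS P N, 0 < l := fun l hl => (hpr l hl).1.pos
  have hx0 : 0 ≤ VS (SS P N) 1 := VS_nonneg _ hl
  have hterm : ∀ g ∈ Fintype.piFinset (fun _ : Fin 4 => 𝒜),
      ∑ x ∈ (range M₀).filter (fun x => (b₀ + W * x).Coprime m),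
        ∏ r, Lm P b N m (insert i (g r)) (σ (b₀ + W * x)) ≤
      D * (2 * (VS (SS P N) 1 * VS (SS P N) 1 ^ (univ.biUnion g).card)) + E := by
    intro g hg
    rw [Fintype.mem_piFinset] at hg
    have hgS : ∀ r, g r ⊆ S := fun r => mem_powerset.1 (mem_filter.1 (hg r)).1
    have hgJ : ∀ r, (g r).card ≤ J := fun r => (mem_filter.1 (hg r)).2
    have hcard : (univ.biUnion g).card ≤ 4 * J := by
      refine card_biUnion_le.trans ?_
      refine (sum_le_sum (fun r _ => hgJ r)).trans ?_
      simp
    have hiU : i ∉ univ.biUnion g := by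
      intro h
      obtain ⟨r, -, hr⟩ := mem_biUnion.1 h
      exact hiS (hgS r hr)
    have hcard1 : (univ.biUnion (fun r => insert i (g r))).card = (univ.biUnion g).card + 1 := by
      rw [union_insert, card_insert_of_notMem hiU]
    have k1 := exps P b N m W b₀ M₀ 4 (fun r => insert i (g r)) ∅ (fun _ _ => 0) σ hm hW hWm
      (by
        intro l hl
        rw [union_empty] at hl
        exact ⟨(hpr l hl).1, (hpr l hl).2.1, (hpr l hl).2.2.1⟩)
      (disjoint_empty_right _)
      (by
        intro l hl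
        rw [union_empty] at hl
        exact hσ l hl)
      (by intro l hl; exact absurd hl (notMem_empty _))
      (by intro l hl; exact absurd hl (notMem_empty _))
    simp only [prod_empty, mul_one] at k1
    have k2 := h2 P b N m (4 * J + 1) (fun r => insert i (g r)) hdis
      (by
        intro l hl
        refine ⟨(hpr l hl).1, (hpr l hl).2.1, ?_⟩
        have := (hpr l hl).2.2.2
        omega)
      (by
        intro r k hk l hl
        refine hS k ?_ l hl
        rcases mem_insert.1 hk with h | h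
        · exact mem_insert.2 (Or.inl h)
        · exact mem_insert.2 (Or.inr (hgS r h)))
      (by rw [hcard1]; omega) hsum
      (by
        intro j hj
        have := hb j hj
        omega)
    have k3 : VS (SS P N) (univ.biUnion (fun r => insert i (g r))).card ≤
        VS (SS P N) 1 * VS (SS P N) 1 ^ (univ.biUnion g).card := by
      rw [hcard1, ← pow_succ']
      refine VS_le _ _ fun l hl => ⟨(hpr l hl).1.pos, ?_⟩
      have := (hpr l hl).2.2.2
      omega
    have k4 := (abs_le.1 k1).2
    have k5 : D * vv P b N m (fun r => insert i (g r)) ≤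
        D * (2 * (VS (SS P N) 1 * VS (SS P N) 1 ^ (univ.biUnion g).card)) :=
      mul_le_mul_of_nonneg_left (by linarith) hD0.le
    have k6 : (M₀ : ℝ) * ((m.totient : ℝ) / m) * (vv P b N m (fun r => insert i (g r))) =
        D * vv P b N m (fun r => insert i (g r)) := by rw [hD]
    linarith
  have hcnt : ((Fintype.piFinset (fun _ : Fin 4 => 𝒜)).card : ℝ) ≤ ((S.card : ℝ) + 1) ^ (4 * J) := by
    rw [Fintype.card_piFinset, prod_const]
    have a1 : 𝒜.card ≤ (S.card + 1) ^ J := card_small S J
    have a2 : 𝒜.card ^ (univ : Finset (Fin 4)).card ≤ ((S.card + 1) ^ J) ^ 4 := by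
      rw [card_univ, Fintype.card_fin]
      exact Nat.pow_le_pow_left a1 4
    calc ((𝒜.card ^ (univ : Finset (Fin 4)).card : ℕ) : ℝ) ≤ ((((S.card + 1) ^ J) ^ 4 : ℕ) : ℝ) := by
          exact_mod_cast a2
      _ = ((S.card : ℝ) + 1) ^ (4 * J) := by
          push_cast
          rw [← pow_mul, mul_comm]
  have hquad : ∑ g ∈ Fintype.piFinset (fun _ : Fin 4 => 𝒜),
      VS (SS P N) 1 ^ (univ.biUnion g).card ≤ Real.exp (15 * (S.card * VS (SS P N) 1)) := by
    have a1 : ∑ g ∈ Fintype.piFinset (fun _ : Fin 4 => 𝒜),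
        VS (SS P N) 1 ^ (univ.biUnion g).card ≤
        ∑ g ∈ Fintype.piFinset (fun _ : Fin 4 => S.powerset),
          VS (SS P N) 1 ^ (univ.biUnion g).card := by
      refine sum_le_sum_of_subset_of_nonneg ?_ (fun g _ _ => pow_nonneg hx0 _)
      intro g hg
      rw [Fintype.mem_piFinset] at hg ⊢
      exact fun r => (mem_filter.1 (hg r)).1
    refine a1.trans ((quad_sum S _ hx0).trans ?_)
    have a2 : 1 + 15 * VS (SS P N) 1 ≤ Real.exp (15 * VS (SS P N) 1) := by
      have := Real.add_one_le_exp (15 * VS (SS P N) 1)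
      linarith
    calc (1 + 15 * VS (SS P N) 1) ^ S.card ≤ Real.exp (15 * VS (SS P N) 1) ^ S.card :=
          pow_le_pow_left₀ (by positivity) a2 _
      _ = Real.exp (15 * (S.card * VS (SS P N) 1)) := by
          rw [← Real.exp_nat_mul]
          congr 1
          ring
  have hmain : ∑ x ∈ (range M₀).filter (fun x => (b₀ + W * x).Coprime m),
      (∑ A ∈ 𝒜, Lm P b N m (insert i A) (σ (b₀ + W * x))) ^ 4 ≤
      D * (2 * (VS (SS P N) 1 * Real.exp (15 * (S.card * VS (SS P N) 1)))) +
        ((S.card : ℝ) + 1) ^ (4 * J) * E := by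
    rw [sum_congr rfl (fun x _ => hexp (σ (b₀ + W * x))), sum_comm]
    refine (sum_le_sum hterm).trans ?_
    rw [sum_add_distrib, ← mul_sum, ← mul_sum, ← mul_sum, sum_const, nsmul_eq_mul]
    refine add_le_add ?_ (mul_le_mul_of_nonneg_right hcnt hE0)
    refine mul_le_mul_of_nonneg_left ?_ hD0.le
    refine mul_le_mul_of_nonneg_left ?_ (by norm_num)
    exact mul_le_mul_of_nonneg_left hquad hx0
  rw [div_le_iff₀ hD0]
  have e : (VS (SS P N) 1 * (2 * Real.exp (15 * (S.card * VS (SS P N) 1))) +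
      ((S.card : ℝ) + 1) ^ (4 * J) * (E / D)) * D =
      D * (2 * (VS (SS P N) 1 * Real.exp (15 * (S.card * VS (SS P N) 1)))) +
        ((S.card : ℝ) + 1) ^ (4 * J) * E := by
    rw [add_mul, mul_assoc (((S.card : ℝ) + 1) ^ (4 * J)), div_mul_cancel₀ _ hD0.ne']
    ring
  rw [e]
  exact hmain

end MOFXm

theorem t_MOFX : S_MOFX := MOFXm.main vup

end Pool.Agent.FCT
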