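import Mathlib
import Pool.Agent.FCT.St3
import Pool.Agent.IP.PSM

set_option autoImplicit false

/-!
PSUX (project FCT, MP_e1dc24_nt): the total weight of the primes, uniform in the window.
-/

namespace Pool.Agent.FCT

open Finset Pool.Agent.Lib_helper9.LG

noncomputable section

namespace PSUX

/-! ### The number of the `r` -/

lemma blocks (m : ℕ) : ∀ q k : ℕ,
    m.totient * q = ((Ico k (k + m * q)).filter (fun x => m.Coprime x)).card := by
  intro q
  induction q with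
  | zero =>
    intro k
    simp
  | succ q ih =>
    intro k
    have e : Ico k (k + m * (q + 1)) = Ico k (k + m) ∪ Ico (k + m) ((k + m) + m * q) := by
      rw [Finset.Ico_union_Ico_eq_Ico (by omega) (by omega)]
      congr 1
      ring
    rw [e, Finset.filter_union, Finset.card_union_of_disjoint,
      Nat.filter_coprime_Ico_eq_totient, ← ih (k + m)]
    · ring
    · apply Finset.disjoint_filter_filter
      exact Finset.Ico_disjoint_Ico_consecutive _ _ _

lemma ioc_eq {X Y : ℕ} (h : X ≤ Y) : Ioc X Y = Ico (X + 1) ((X + 1) + (Y - X)) := by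
  ext x
  simp only [mem_Ioc, mem_Ico]
  omega

lemma cnt_lo {m : ℕ} (hm : 0 < m) {X Y : ℕ} (h : X ≤ Y) :
    ((m.totient : ℝ) / m) * ((Y : ℝ) - X) - m.totient ≤
      (((Ioc X Y).filter (fun x => m.Coprime x)).card : ℝ) := by
  have h1 : m.totient * ((Y - X) / m) ≤ ((Ioc X Y).filter (fun x => m.Coprime x)).card := by
    rw [ioc_eq h, blocks m ((Y - X) / m) (X + 1)]
    apply Finset.card_le_card
    apply Finset.filter_subset_filter
    apply Finset.Ico_subset_Ico_right
    have := Nat.mul_div_le (Y - X) m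
    omega
  have h2 : ((m.totient * ((Y - X) / m) : ℕ) : ℝ) ≤
      (((Ioc X Y).filter (fun x => m.Coprime x)).card : ℝ) := by exact_mod_cast h1
  refine le_trans ?_ h2
  have hm' : (0 : ℝ) < m := by exact_mod_cast hm
  have h3 : (m : ℝ) * (((Y - X) / m : ℕ) : ℝ) + (((Y - X) % m : ℕ) : ℝ) = (Y : ℝ) - X := by
    rw [← Nat.cast_sub h]
    exact_mod_cast Nat.div_add_mod (Y - X) m
  have h4 : (((Y - X) % m : ℕ) : ℝ) ≤ m := by
    exact_mod_cast (Nat.mod_lt (Y - X) hm).le
  have h5 : (0 : ℝ) ≤ m.totient := Nat.cast_nonneg _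
  have h6 : ((Y : ℝ) - X) ≤ m * ((((Y - X) / m : ℕ) : ℝ) + 1) := by
    rw [← h3]
    nlinarith
  have h7 : ((m.totient : ℝ) / m) * ((Y : ℝ) - X) ≤
      ((m.totient : ℝ) / m) * (m * ((((Y - X) / m : ℕ) : ℝ) + 1)) :=
    mul_le_mul_of_nonneg_left h6 (by positivity)
  have h8 : ((m.totient : ℝ) / m) * (m * ((((Y - X) / m : ℕ) : ℝ) + 1)) =
      m.totient * (((Y - X) / m : ℕ) : ℝ) + m.totient := by
    field_simp
  push_cast
  rw [h8] at h7
  linarith

lemma cnt_hi {m : ℕ} (hm : 0 < m) {X Y : ℕ} (h : X ≤ Y) :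
    (((Ioc X Y).filter (fun x => m.Coprime x)).card : ℝ) ≤
      ((m.totient : ℝ) / m) * ((Y : ℝ) - X) + m.totient := by
  have h1 : ((Ioc X Y).filter (fun x => m.Coprime x)).card ≤
      m.totient * ((Y - X) / m + 1) := by
    rw [ioc_eq h]
    exact Nat.Ico_filter_coprime_le (X + 1) (Y - X) hm.ne'
  have h2 : (((Ioc X Y).filter (fun x => m.Coprime x)).card : ℝ) ≤
      ((m.totient * ((Y - X) / m + 1) : ℕ) : ℝ) := by exact_mod_cast h1
  refine h2.trans ?_
  have hm' : (0 : ℝ) < m := by exact_mod_cast hm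
  have h3 : (((Y - X) / m : ℕ) : ℝ) ≤ ((Y : ℝ) - X) / m := by
    rw [← Nat.cast_sub h]
    exact Nat.cast_div_le
  have h5 : (0 : ℝ) ≤ m.totient := Nat.cast_nonneg _
  have h6 := mul_le_mul_of_nonneg_left h3 h5
  have h7 : ((m.totient : ℝ) / m) * ((Y : ℝ) - X) = m.totient * (((Y : ℝ) - X) / m) := by ring
  push_cast
  rw [h7]
  linarith

lemma card_R {m d X Y : ℕ} (hm : 0 < m) (hd : 2 ≤ d) (h : X ≤ Y) :
    ((m.totient : ℝ) / m) * (((Y : ℝ) - X) / 2 - 3 * m) ≤
      (((Ioc X Y).filter (fun x => m.Coprime x ∧ ¬ d ∣ x)).card : ℝ) := by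
  have h1 : ((Ioc X Y).filter (fun x => m.Coprime x)).card =
      ((Ioc X Y).filter (fun x => m.Coprime x ∧ d ∣ x)).card +
        ((Ioc X Y).filter (fun x => m.Coprime x ∧ ¬ d ∣ x)).card := by
    rw [← Finset.filter_filter, ← Finset.filter_filter]
    exact (Finset.card_filter_add_card_filter_not _).symm
  have hd0 : 0 < d := by omega
  have h2 : ((Ioc X Y).filter (fun x => m.Coprime x ∧ d ∣ x)).card ≤
      ((Ioc (X / d) (Y / d)).filter (fun x => m.Coprime x)).card := by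
    apply Finset.card_le_card_of_injOn (fun x => x / d)
    · intro x hx
      rw [Finset.mem_coe, mem_filter, mem_Ioc] at hx
      obtain ⟨⟨h3, h4⟩, h5, h6⟩ := hx
      obtain ⟨s, rfl⟩ := h6
      rw [Finset.mem_coe, mem_filter, mem_Ioc]
      have e : d * s / d = s := Nat.mul_div_cancel_left s hd0
      simp only [e]
      refine ⟨⟨?_, ?_⟩, ?_⟩
      · rw [Nat.div_lt_iff_lt_mul hd0, mul_comm]
        exact h3
      · rw [Nat.le_div_iff_mul_le hd0, mul_comm]
        exact h4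
      · exact Nat.Coprime.coprime_mul_left_right h5
    · intro x hx y hy hxy
      rw [Finset.mem_coe, mem_filter] at hx hy
      have h3 := Nat.div_mul_cancel hx.2.2
      have h4 := Nat.div_mul_cancel hy.2.2
      simp only at hxy
      rw [← h3, ← h4, hxy]
  have h3 := cnt_lo hm h
  have h4 := cnt_hi hm (Nat.div_le_div_right h : X / d ≤ Y / d)
  have h5 : (((Y / d : ℕ) : ℝ)) - ((X / d : ℕ) : ℝ) ≤ ((Y : ℝ) - X) / 2 + 1 := by
    have a1 : ((Y / d : ℕ) : ℝ) ≤ (Y : ℝ) / d := Nat.cast_div_le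
    have a2 : (X : ℝ) / d ≤ ((X / d : ℕ) : ℝ) + 1 := by
      rw [div_le_iff₀ (by exact_mod_cast hd0)]
      have := Nat.lt_succ_iff.1 (Nat.lt_succ_of_lt (Nat.lt_mul_div_succ X hd0))
      have a3 : (X : ℝ) ≤ ((d * (X / d + 1) : ℕ) : ℝ) := by exact_mod_cast this
      push_cast at a3
      linarith
    have a4 : ((Y : ℝ) - X) / d ≤ ((Y : ℝ) - X) / 2 := by
      apply div_le_div_of_nonneg_left _ (by norm_num) (by exact_mod_cast hd)
      have : (X : ℝ) ≤ Y := by exact_mod_cast h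
      linarith
    have a5 : ((Y : ℝ) - X) / d = (Y : ℝ) / d - (X : ℝ) / d := by ring
    linarith
  have hm' : (1 : ℝ) ≤ m := by exact_mod_cast hm
  have hg : (0 : ℝ) ≤ (m.totient : ℝ) / m := by positivity
  have h6 := mul_le_mul_of_nonneg_left h5 hg
  have h7 : (((Ioc X Y).filter (fun x => m.Coprime x)).card : ℝ) =
      (((Ioc X Y).filter (fun x => m.Coprime x ∧ d ∣ x)).card : ℝ) +
        (((Ioc X Y).filter (fun x => m.Coprime x ∧ ¬ d ∣ x)).card : ℝ) := by
    exact_mod_cast h1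
  have h8 : (((Ioc X Y).filter (fun x => m.Coprime x ∧ d ∣ x)).card : ℝ) ≤
      (((Ioc (X / d) (Y / d)).filter (fun x => m.Coprime x)).card : ℝ) := by
    exact_mod_cast h2
  have h9 : (m.totient : ℝ) = ((m.totient : ℝ) / m) * m := by
    rw [div_mul_cancel₀]
    linarith
  have h10 : ((m.totient : ℝ) / m) * 1 ≤ ((m.totient : ℝ) / m) * m :=
    mul_le_mul_of_nonneg_left hm' hg
  set g := (m.totient : ℝ) / m with hgdef
  nlinarith

/-! ### The primes for one `r` -/

lemma key {a : ℤ} {W r : ℕ} {L : ℝ} (hW : 1 ≤ W) (hr : 1 ≤ r)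
    (hWL : (W : ℝ) * (2 * a.natAbs + 2) + a.natAbs ≤ Real.exp L)
    (hAL : 2 * (a.natAbs : ℝ) ≤ Real.exp L) :
    ∑ p ∈ (Ioc ⌊(r : ℝ) * Real.exp L⌋₊ ⌊3 / 2 * ((r : ℝ) * Real.exp L)⌋₊).filter
        (fun p : ℕ => p.Prime ∧ (p : ZMod r) = ((a : ℤ) : ZMod r)), Real.log p ≤
      ∑ b ∈ BX a W r, ThL a r W b L := by
  set A : ℝ := (a.natAbs : ℝ) with hA
  have hA0 : 0 ≤ A := Nat.cast_nonneg _
  have hE := Real.exp_pos L
  have hr1 : (1 : ℝ) ≤ r := by exact_mod_cast hr
  have hr0 : (0 : ℝ) < r := by linarith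
  have hW1 : (1 : ℝ) ≤ W := by exact_mod_cast hW
  have haA : |(a : ℝ)| = A := by
    rw [hA, Nat.cast_natAbs, Int.cast_abs]
  have ha1 : (a : ℝ) ≤ A := haA ▸ le_abs_self _
  have ha2 : -A ≤ (a : ℝ) := by
    rw [← haA]
    exact neg_abs_le _
  have hrA : A ≤ r * A := le_mul_of_one_le_left hA0 hr1
  set P := (Ioc ⌊(r : ℝ) * Real.exp L⌋₊ ⌊3 / 2 * ((r : ℝ) * Real.exp L)⌋₊).filter
        (fun p : ℕ => p.Prime ∧ (p : ZMod r) = ((a : ℤ) : ZMod r)) with hP
  have hex : ∀ p ∈ P, ∃ n : ℕ, (p : ℤ) = a + r * n ∧ W * (2 * a.natAbs + 2) ≤ n ∧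
      (n : ℝ) ≤ 2 * Real.exp L := by
    intro p hp
    rw [hP, mem_filter, mem_Ioc] at hp
    obtain ⟨⟨h1, h2⟩, -, h4⟩ := hp
    have h1' : (r : ℝ) * Real.exp L < p := Nat.lt_of_floor_lt h1
    have h2' : (p : ℝ) ≤ 3 / 2 * ((r : ℝ) * Real.exp L) :=
      (Nat.cast_le.2 h2).trans (Nat.floor_le (by positivity))
    have h5 : (r : ℤ) ∣ (p : ℤ) - a := by
      rw [← ZMod.intCast_eq_intCast_iff_dvd_sub]
      rw [← h4]
      simp
    obtain ⟨k, hk⟩ := h5
    have hkR : (p : ℝ) - a = r * k := by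
      have := congrArg (Int.cast : ℤ → ℝ) hk
      push_cast at this
      exact this
    have h6 : Real.exp L - A ≤ k := by
      have h7 : (r : ℝ) * (Real.exp L - A) ≤ r * k := by
        rw [← hkR]
        nlinarith
      exact le_of_mul_le_mul_left h7 hr0
    have h7 : (k : ℝ) ≤ 3 / 2 * Real.exp L + A := by
      have h8 : (r : ℝ) * k ≤ r * (3 / 2 * Real.exp L + A) := by
        rw [← hkR]
        nlinarith
      exact le_of_mul_le_mul_left h8 hr0
    have h8 : (W : ℝ) * (2 * A + 2) ≤ k := by linarith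
    have h9 : 0 ≤ k := by
      have : (0 : ℝ) ≤ k := le_trans (by positivity) h8
      exact_mod_cast this
    obtain ⟨n, hn⟩ := Int.eq_ofNat_of_zero_le h9
    have hnk : (n : ℝ) = k := by
      rw [hn]
      simp
    refine ⟨n, ?_, ?_, ?_⟩
    · rw [hn] at hk
      linarith
    · have : ((W * (2 * a.natAbs + 2) : ℕ) : ℝ) ≤ n := by
        push_cast
        rw [hnk]
        exact h8
      exact_mod_cast this
    · rw [hnk]
      linarith
  choose! N hN1 hN2 hN3 using hex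
  set f : ℕ → (Σ _ : ℕ, ℕ) := fun p =>
    ⟨W * (2 * a.natAbs + 1) + N p % W, N p / W - (2 * a.natAbs + 1)⟩ with hf
  have hdec : ∀ p ∈ P, (f p).1 + W * (f p).2 = N p := by
    intro p hp
    have h1 : 2 * a.natAbs + 1 ≤ N p / W := by
      rw [Nat.le_div_iff_mul_le hW]
      have h2 := hN2 p hp
      nlinarith
    have h3 := Nat.mod_add_div (N p) W
    simp only [hf]
    calc W * (2 * a.natAbs + 1) + N p % W + W * (N p / W - (2 * a.natAbs + 1))
        = N p % W + W * ((2 * a.natAbs + 1) + (N p / W - (2 * a.natAbs + 1))) := by ring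
      _ = N p % W + W * (N p / W) := by rw [Nat.add_sub_cancel' h1]
      _ = N p := h3
  have hqv : ∀ p ∈ P, qv a r ((f p).1 + W * (f p).2) = p := by
    intro p hp
    rw [hdec p hp, qv, ← hN1 p hp]
    exact Int.toNat_natCast p
  have hmem : ∀ p ∈ P, f p ∈ (BX a W r).sigma (fun b => PiL a r W b L) := by
    intro p hp
    have hp' := hp
    rw [hP, mem_filter, mem_Ioc] at hp'
    obtain ⟨⟨h1, h2⟩, h3, h4⟩ := hp'
    have h1' : (r : ℝ) * Real.exp L < p := Nat.lt_of_floor_lt h1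
    have hq := hqv p hp
    have hd := hdec p hp
    rw [Finset.mem_sigma]
    constructor
    · rw [BX, mem_filter, mem_Ico]
      refine ⟨⟨?_, ?_⟩, ?_⟩
      · simp only [hf]
        omega
      · have h5 : N p % W < W := Nat.mod_lt _ hW
        simp only [hf]
        have h6 : W * (2 * a.natAbs + 2) = W * (2 * a.natAbs + 1) + W := by ring
        omega
      · rw [Int.isCoprime_iff_gcd_eq_one]
        by_contra hc
        obtain ⟨l, hl, hld⟩ := Nat.exists_prime_and_dvd hc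
        have hl1 : (l : ℤ) ∣ a + (r : ℤ) * ((f p).1 : ℤ) :=
          (Int.natCast_dvd_natCast.2 hld).trans (Int.gcd_dvd_left _ _)
        have hl2 : (l : ℤ) ∣ (W : ℤ) :=
          (Int.natCast_dvd_natCast.2 hld).trans (Int.gcd_dvd_right _ _)
        have hl3 : (l : ℤ) ∣ (p : ℤ) := by
          rw [hN1 p hp, ← hd]
          have e : a + (r : ℤ) * (((f p).1 + W * (f p).2 : ℕ) : ℤ) =
              (a + (r : ℤ) * ((f p).1 : ℤ)) + (W : ℤ) * ((r : ℤ) * ((f p).2 : ℤ)) := by
            push_cast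
            ring
          rw [e]
          exact dvd_add hl1 (hl2.mul_right _)
        have hl4 : l = p := (Nat.prime_dvd_prime_iff_eq hl h3).1 (Int.natCast_dvd_natCast.1 hl3)
        have hl5 : l ≤ W := Nat.le_of_dvd hW (Int.natCast_dvd_natCast.1 hl2)
        have hl6 : (p : ℝ) ≤ W := by
          rw [← hl4]
          exact_mod_cast hl5
        have hl7 : (W : ℝ) ≤ W * (2 * A + 2) := by nlinarith
        have hl8 : Real.exp L ≤ r * Real.exp L := le_mul_of_one_le_left hE.le hr1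
        linarith
    · rw [PiL, mem_filter, hq]
      refine ⟨?_, h3, h1, h2⟩
      rw [mem_range, M0]
      have h5 : 2 * a.natAbs + 1 ≤ N p / W := by
        rw [Nat.le_div_iff_mul_le hW]
        have h2 := hN2 p hp
        nlinarith
      have h6 : (f p).2 + 1 ≤ N p / W := by
        simp only [hf]
        omega
      apply Nat.lt_of_succ_le
      apply Nat.le_floor
      rw [le_div_iff₀ (by linarith)]
      have h7 : ((f p).2 + 1) * W ≤ N p :=
        (Nat.mul_le_mul_right W h6).trans (Nat.div_mul_le_self _ _)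
      have h8 : ((((f p).2 + 1) * W : ℕ) : ℝ) ≤ N p := by exact_mod_cast h7
      have h9 := hN3 p hp
      push_cast at h8 ⊢
      linarith
  have hinj : Set.InjOn f (P : Set ℕ) := by
    intro p hp q hq hpq
    rw [← hqv p hp, ← hqv q hq, hpq]
  have hsum : ∑ b ∈ BX a W r, ThL a r W b L =
      ∑ z ∈ (BX a W r).sigma (fun b => PiL a r W b L), lwX a r W z.1 z.2 := by
    rw [Finset.sum_sigma]
    rfl
  rw [hsum]
  calc ∑ p ∈ P, Real.log p = ∑ p ∈ P, lwX a r W (f p).1 (f p).2 := by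
        apply Finset.sum_congr rfl
        intro p hp
        rw [lwX, hqv p hp]
    _ = ∑ z ∈ P.image f, lwX a r W z.1 z.2 :=
        (Finset.sum_image (f := fun z : (Σ _ : ℕ, ℕ) => lwX a r W z.1 z.2) hinj).symm
    _ ≤ _ := by
        apply Finset.sum_le_sum_of_subset_of_nonneg
        · intro z hz
          rw [mem_image] at hz
          obtain ⟨p, hp, rfl⟩ := hz
          exact hmem p hp
        · intro z _ _
          exact Real.log_natCast_nonneg _

end PSUX

open PSUX in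
/-- MODULE PSUX -/
theorem t_PSUX : S_PSUX := by
  rintro ⟨c, hc, N₀, hN⟩
  refine ⟨c / 4, by positivity, fun a ε ha hε => ?_⟩
  set m : ℕ := a.natAbs with hm
  have hm0 : 0 < m := Int.natAbs_pos.2 ha
  have hm1 : (1 : ℝ) ≤ m := by exact_mod_cast hm0
  refine ⟨|N₀| + 16 + (6 * m + 4) + (2 + 12 * m) / ε ^ 2, fun L hL u v hu huv hεv hvL => ?_⟩
  have hN0 : 0 ≤ |N₀| := abs_nonneg _
  have hN0' : N₀ ≤ |N₀| := le_abs_self _
  have hq0 : 0 ≤ (2 + 12 * (m : ℝ)) / ε ^ 2 := by positivity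
  have hL16 : 16 ≤ L := by linarith
  have hL0 : 0 < L := by linarith
  have hLm : 6 * (m : ℝ) + 4 ≤ L := by linarith
  have hLN : N₀ ≤ L := by linarith
  have hLq : (2 + 12 * (m : ℝ)) / ε ^ 2 ≤ L := by linarith
  have hE := Real.exp_pos L
  have hEL : L + 1 ≤ Real.exp L := Real.add_one_le_exp L
  have hv0 : 0 < v := lt_of_lt_of_le hε hεv
  have hvu : ε ^ 2 ≤ v - u := by nlinarith
  have hvuL : 2 + 12 * (m : ℝ) ≤ (v - u) * L := by
    rw [div_le_iff₀ (by positivity)] at hLq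
    nlinarith
  have huv' : u ≤ v := by nlinarith
  have hvL2 : v * L ≤ L ^ 2 := by
    have h1 : Real.log L ≤ L := (Real.log_le_sub_one_of_pos hL0).trans (by linarith)
    nlinarith
  have hL2 : L ^ 2 ≤ Real.exp L := by
    have h1 := Real.pow_div_factorial_le_exp L hL0.le 3
    have h2 : ((Nat.factorial 3 : ℕ) : ℝ) = 6 := by norm_num [Nat.factorial]
    rw [h2] at h1
    refine le_trans ?_ h1
    rw [le_div_iff₀ (by norm_num)]
    have h3 : L ^ 2 * 6 ≤ L ^ 2 * L := mul_le_mul_of_nonneg_left (by linarith) (by positivity)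
    nlinarith
  -- the modulus of the small primes
  have hW1 : 1 ≤ WW m L := THDd.WW_pos m L
  have hWe : ((WW m L : ℕ) : ℝ) ≤ Real.exp (L / 2) := by
    refine (IP.PSM.W_le m L (Real.sqrt L) rfl).trans ?_
    apply Real.exp_le_exp.2
    have h1 := Real.sq_sqrt hL0.le
    have h2 : 4 ≤ Real.sqrt L := Real.le_sqrt_of_sq_le (by linarith)
    nlinarith
  have hhalf : Real.exp (L / 2) * Real.exp (L / 2) = Real.exp L := by
    rw [← Real.exp_add]
    congr 1
    ring
  have hh1 : L / 2 + 1 ≤ Real.exp (L / 2) := Real.add_one_le_exp _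
  have hWL : ((WW m L : ℕ) : ℝ) * (2 * m + 2) + m ≤ Real.exp L := by
    have h1 : ((WW m L : ℕ) : ℝ) * (2 * m + 2) ≤ Real.exp (L / 2) * (2 * m + 2) :=
      mul_le_mul_of_nonneg_right hWe (by positivity)
    have h2 : (m : ℝ) ≤ Real.exp (L / 2) * m := le_mul_of_one_le_left (by linarith) (by linarith)
    have h3 : Real.exp (L / 2) * (3 * m + 2) ≤ Real.exp (L / 2) * Real.exp (L / 2) :=
      mul_le_mul_of_nonneg_left (by linarith) (by positivity)
    nlinarith
  have hAL : 2 * (m : ℝ) ≤ Real.exp L := by linarith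
  -- the set `R`
  obtain ⟨d, hd2, hd⟩ := hN (Real.exp L) (by linarith)
  rw [Real.log_exp] at hd
  set X : ℕ := ⌊u * L⌋₊ with hX
  set Y : ℕ := ⌊v * L⌋₊ with hY
  have hXY : X ≤ Y := Nat.floor_le_floor (mul_le_mul_of_nonneg_right huv' hL0.le)
  set R : Finset ℕ := (Ioc X Y).filter (fun x => m.Coprime x ∧ ¬ d ∣ x) with hR
  have hRm : ∀ r ∈ R, u * L < r ∧ (r : ℝ) ≤ v * L ∧ IsCoprime a (r : ℤ) ∧ 1 ≤ r ∧ ¬ d ∣ r := by
    intro r hr
    rw [hR, mem_filter, mem_Ioc] at hr
    obtain ⟨⟨h1, h2⟩, h3, h4⟩ := hr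
    refine ⟨Nat.lt_of_floor_lt h1, (Nat.cast_le.2 h2).trans (Nat.floor_le (by positivity)), ?_,
      by omega, h4⟩
    rw [Int.isCoprime_iff_gcd_eq_one]
    exact h3
  refine ⟨R, fun r hr => ⟨(hRm r hr).1, (hRm r hr).2.1, (hRm r hr).2.2.1⟩, ?_⟩
  have hone : ∀ r ∈ R, c * Real.exp L ≤
      ∑ b ∈ BX a (WW m L) r, ThL a r (WW m L) b L := by
    intro r hr
    obtain ⟨h1, h2, h3, h4, h5⟩ := hRm r hr
    have hr1 : (1 : ℝ) ≤ r := by exact_mod_cast h4
    have hy := hd r h4 (h2.trans hvL2) h5 ((a : ℤ) : ZMod r)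
      ((ZMod.coe_int_isUnit_iff_isCoprime a r).2 h3.symm) ((r : ℝ) * Real.exp L)
      (le_mul_of_one_le_left hE.le hr1) (by
        rw [pow_two]
        exact mul_le_mul_of_nonneg_right ((h2.trans hvL2).trans hL2) hE.le)
    refine le_trans (le_trans ?_ hy) (key hW1 h4 hWL hAL)
    have h6 : (0 : ℝ) < r.totient := by exact_mod_cast Nat.totient_pos.2 h4
    rw [le_div_iff₀ h6]
    have h7 : (r.totient : ℝ) ≤ r := by exact_mod_cast Nat.totient_le r
    have h8 : 0 ≤ c * Real.exp L := by positivity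
    nlinarith
  have hsum : (R.card : ℝ) * (c * Real.exp L) ≤
      ∑ r ∈ R, ∑ b ∈ BX a (WW m L) r, ThL a r (WW m L) b L := by
    have := Finset.card_nsmul_le_sum R _ _ hone
    rwa [nsmul_eq_mul] at this
  refine le_trans ?_ hsum
  have hcard := card_R hm0 hd2 hXY
  rw [← hR] at hcard
  have hg : (0 : ℝ) ≤ (m.totient : ℝ) / m := by positivity
  have hYX : (v - u) * L - 1 ≤ (Y : ℝ) - X := by
    have h1 : v * L < (Y : ℝ) + 1 := Nat.lt_floor_add_one _
    have h2 : (X : ℝ) ≤ u * L := Nat.floor_le (by positivity)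
    linarith
  have h1 : ((m.totient : ℝ) / m) * ((v - u) * L / 4) ≤
      ((m.totient : ℝ) / m) * (((Y : ℝ) - X) / 2 - 3 * m) := by
    apply mul_le_mul_of_nonneg_left _ hg
    linarith
  have h2 : ((m.totient : ℝ) / m) * ((v - u) * L / 4) ≤ R.card := h1.trans hcard
  have h3 := mul_le_mul_of_nonneg_right h2 (show 0 ≤ c * Real.exp L by positivity)
  refine le_trans (le_of_eq ?_) h3
  ring

end

end Pool.Agent.FCT
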