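import Pool.Agent.FCT.St4
import Pool.Agent.FCT.PSUX

set_option autoImplicit false

/-!
FCT, part V: PSV, the choice of the `r` (helper42, after PSUX of helper57).
-/

namespace Pool.Agent.FCT

open Finset Pool.Agent.Lib_helper9.LG

noncomputable section

namespace PSV

/-- `d ∣ g r R` implies `d / (d, g R) ∣ r`. -/
lemma dvd_of {d g R r : ℕ} (hd : 0 < d) (h : d ∣ g * r * R) : d / Nat.gcd d (g * R) ∣ r := by
  have h1 : 0 < Nat.gcd d (g * R) := Nat.gcd_pos_of_pos_left _ hd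
  have h2 : d ∣ (g * R) * r := by
    have : g * r * R = (g * R) * r := by ring
    rwa [this] at h
  have h3 : d / Nat.gcd d (g * R) ∣ (g * R) / Nat.gcd d (g * R) * r := by
    rw [Nat.div_mul_right_comm (Nat.gcd_dvd_right d (g * R))]
    exact Nat.div_dvd_div (Nat.gcd_dvd_left _ _) h2
  exact (Nat.coprime_div_gcd_div_gcd h1).dvd_of_dvd_mul_left h3

lemma two_le {d g R : ℕ} (hR : 0 < R) (hg : 0 < g) (hg2 : g ≤ 2) (hd : 4 * R ≤ d) :
    2 ≤ d / Nat.gcd d (g * R) := by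
  have h1 : Nat.gcd d (g * R) ≤ g * R := Nat.le_of_dvd (by positivity) (Nat.gcd_dvd_right _ _)
  have h0 : 0 < Nat.gcd d (g * R) := Nat.gcd_pos_of_pos_left _ (by omega)
  rw [Nat.le_div_iff_mul_le h0]
  calc 2 * Nat.gcd d (g * R) ≤ 2 * (g * R) := Nat.mul_le_mul_left _ h1
    _ ≤ 2 * (2 * R) := Nat.mul_le_mul_left _ (Nat.mul_le_mul_right _ hg2)
    _ ≤ d := by omega

end PSV

open PSUX PSV in
/-- MODULE PSV -/
theorem t_PSV : S_PSV := by
  rintro ⟨c, hc, hW⟩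
  refine ⟨c / 8, by positivity, fun a R ε ha haR hR hε => ?_⟩
  obtain ⟨L₀, hW⟩ := hW a R ha haR hR
  obtain ⟨m, hm⟩ : ∃ m : ℕ, m = a.natAbs := ⟨_, rfl⟩
  have hm0 : 0 < m := by rw [hm]; exact Int.natAbs_pos.2 ha
  have hm1 : (1 : ℝ) ≤ m := by exact_mod_cast hm0
  have hR0 : 0 < R := Nat.pos_of_ne_zero hR
  obtain ⟨g, hg0, hg2, hga, hgc⟩ : ∃ g : ℕ, 0 < g ∧ g ≤ 2 ∧ (¬ (2 : ℤ) ∣ a → 2 ∣ g) ∧
      m.Coprime g := by
    by_cases h : (2 : ℤ) ∣ a
    · exact ⟨1, one_pos, by norm_num, fun h1 => absurd h h1, Nat.coprime_one_right _⟩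
    · refine ⟨2, by norm_num, le_rfl, fun _ => dvd_rfl, ?_⟩
      refine Nat.Coprime.symm ((Nat.Prime.coprime_iff_not_dvd Nat.prime_two).2 fun h1 => h ?_)
      rw [hm] at h1
      exact_mod_cast Int.natCast_dvd.2 h1
  refine ⟨|L₀| + 16 + (4 + 24 * m) / ε ^ 2, fun L hL u v hu huv hεv hvL => ?_⟩
  have hN0 : 0 ≤ |L₀| := abs_nonneg _
  have hN0' : L₀ ≤ |L₀| := le_abs_self _
  have hq0 : 0 ≤ (4 + 24 * (m : ℝ)) / ε ^ 2 := by positivity
  have hL16 : 16 ≤ L := by linarith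
  have hL0 : 0 < L := by linarith
  have hLN : L₀ ≤ L := by linarith
  have hLq : (4 + 24 * (m : ℝ)) / ε ^ 2 ≤ L := by linarith
  have hE := Real.exp_pos L
  have hv0 : 0 < v := lt_of_lt_of_le hε hεv
  have hvu : ε ^ 2 ≤ v - u := by nlinarith
  have hvuL : 4 + 24 * (m : ℝ) ≤ (v - u) * L := by
    rw [div_le_iff₀ (by positivity)] at hLq
    nlinarith
  have huv' : u ≤ v := by nlinarith
  obtain ⟨d, hd4, hd⟩ := hW L hLN
  have hdpos : 0 < d := by omega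
  obtain ⟨e, he⟩ : ∃ e : ℕ, e = d / Nat.gcd d (g * R) := ⟨_, rfl⟩
  have he2 : 2 ≤ e := by rw [he]; exact two_le hR0 hg0 hg2 hd4
  have hgr : (0 : ℝ) < g := by exact_mod_cast hg0
  have hgr2 : (g : ℝ) ≤ 2 := by exact_mod_cast hg2
  set X : ℕ := ⌊u * L / g⌋₊ with hX
  set Y : ℕ := ⌊v * L / g⌋₊ with hY
  have hXY : X ≤ Y := Nat.floor_le_floor
    (div_le_div_of_nonneg_right (mul_le_mul_of_nonneg_right huv' hL0.le) hgr.le)
  set T : Finset ℕ := (Ioc X Y).filter (fun x => m.Coprime x ∧ ¬ e ∣ x) with hT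
  set Rs : Finset ℕ := T.image (fun x => g * x) with hRs
  have hRm : ∀ r ∈ Rs, u * L < r ∧ (r : ℝ) ≤ v * L ∧ IsCoprime a (r : ℤ) ∧ 1 ≤ r ∧
      (¬ (2 : ℤ) ∣ a → 2 ∣ r) ∧ ¬ d ∣ r * R := by
    intro r hr
    obtain ⟨x, hx, rfl⟩ := mem_image.1 hr
    rw [hT, mem_filter, mem_Ioc] at hx
    obtain ⟨⟨h1, h2⟩, h3, h4⟩ := hx
    have h1' : u * L / g < x := Nat.lt_of_floor_lt h1
    have h2' : (x : ℝ) ≤ v * L / g := (Nat.cast_le.2 h2).trans (Nat.floor_le (by positivity))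
    rw [div_lt_iff₀ hgr] at h1'
    rw [le_div_iff₀ hgr] at h2'
    refine ⟨?_, ?_, ?_, ?_, fun h => (hga h).mul_right _, ?_⟩
    · push_cast
      linarith
    · push_cast
      linarith
    · rw [Int.isCoprime_iff_gcd_eq_one]
      have h5 : m.Coprime (g * x) := Nat.Coprime.mul_right hgc h3
      rw [hm] at h5
      exact h5
    · have : 0 < x := by omega
      exact Nat.mul_pos hg0 this
    · intro h5
      apply h4
      rw [he]
      exact dvd_of hdpos h5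
  refine ⟨Rs, fun r hr => ⟨(hRm r hr).1, (hRm r hr).2.1, (hRm r hr).2.2.1⟩, ?_⟩
  obtain ⟨F, hF⟩ : ∃ F : ℝ, F = (R.totient : ℝ) / R := ⟨_, rfl⟩
  obtain ⟨f, hf⟩ : ∃ f : ℝ, f = (m.totient : ℝ) / m := ⟨_, rfl⟩
  have hf0 : 0 < f := by
    rw [hf]
    have : (0 : ℝ) < m.totient := by exact_mod_cast Nat.totient_pos.2 hm0
    positivity
  have hF0 : 0 < F := by
    rw [hF]
    have : (0 : ℝ) < R.totient := by exact_mod_cast Nat.totient_pos.2 hR0
    have : (0 : ℝ) < R := by exact_mod_cast hR0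
    positivity
  have hgq : gq m = f⁻¹ := by
    rw [hf]
    unfold gq
    rw [inv_div]
  have hone : ∀ r ∈ Rs, c * (Real.exp L * F * f⁻¹) ≤
      ∑ b ∈ BV a R (WW 1 L) r, ThL a r (WW 1 L) b L := by
    intro r hr
    obtain ⟨h1, h2, h3, h4, h5, h6⟩ := hRm r hr
    have h7 := hd r h4 (h2.trans (by
      rw [mul_comm]
      exact mul_le_mul_of_nonneg_left hvL hL0.le)) h3 h5 h6
    rw [← hm, hgq, ← hF] at h7
    exact h7
  have hsum : (Rs.card : ℝ) * (c * (Real.exp L * F * f⁻¹)) ≤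
      ∑ r ∈ Rs, ∑ b ∈ BV a R (WW 1 L) r, ThL a r (WW 1 L) b L := by
    have := Finset.card_nsmul_le_sum Rs _ _ hone
    rwa [nsmul_eq_mul] at this
  refine le_trans ?_ hsum
  have hcT : Rs.card = T.card := by
    rw [hRs]
    exact card_image_of_injective _ fun x y h => Nat.eq_of_mul_eq_mul_left hg0 h
  have hcard := card_R hm0 he2 hXY
  rw [← hT, ← hf] at hcard
  have hYX : (v - u) * L / 2 - 1 ≤ (Y : ℝ) - X := by
    have h1 : v * L / g < (Y : ℝ) + 1 := Nat.lt_floor_add_one _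
    have h2 : (X : ℝ) ≤ u * L / g := Nat.floor_le (by positivity)
    have h3 : (v - u) * L / 2 ≤ (v - u) * L / g :=
      div_le_div_of_nonneg_left (by nlinarith) hgr hgr2
    have h4 : (v - u) * L / g = v * L / g - u * L / g := by ring
    linarith
  have h1 : f * ((v - u) * L / 8) ≤ f * (((Y : ℝ) - X) / 2 - 3 * m) := by
    apply mul_le_mul_of_nonneg_left _ hf0.le
    linarith
  have h2 : f * ((v - u) * L / 8) ≤ Rs.card := by
    rw [hcT]
    exact h1.trans hcard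
  have h3 := mul_le_mul_of_nonneg_right h2 (show 0 ≤ c * (Real.exp L * F * f⁻¹) by positivity)
  refine le_trans (le_of_eq ?_) h3
  rw [← hF]
  field_simp

end

end Pool.Agent.FCT
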