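import Mathlib
import Pool.Agent.FCT.St2
import Pool.Agent.Lib_helper9.LG.THDd

set_option autoImplicit false

/-!
FCT, PSX: the total weight of the primes `q = a + r n` with `r` in a suitable set of integers in
`(u L, v L]`.
-/

namespace Pool.Agent.FCT

open Finset Pool.Agent.Lib_helper9.LG

namespace PSXx

/-- A prime of the class `a` modulo `r` in `(r e^L, 3/2 r e^L]` is `a + r (b + W x)`. -/
lemma exists_bx {a : ℤ} {r W p : ℕ} {L : ℝ} (hr : 1 ≤ r) (hW : 1 ≤ W)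
    (hbig : (W : ℝ) * (2 * (a.natAbs : ℝ) + 1) + a.natAbs ≤ Real.exp L)
    (hp : p.Prime) (hpa : (p : ZMod r) = (a : ZMod r))
    (h1 : ⌊(r : ℝ) * Real.exp L⌋₊ < p) (h2 : p ≤ ⌊3 / 2 * ((r : ℝ) * Real.exp L)⌋₊) :
    ∃ b ∈ BX a W r, ∃ x ∈ PiL a r W b L, qv a r (b + W * x) = p := by
  set A : ℕ := a.natAbs with hA
  have hr0 : (1 : ℝ) ≤ r := by exact_mod_cast hr
  have hW0 : (1 : ℝ) ≤ W := by exact_mod_cast hW
  have hA0 : (0 : ℝ) ≤ A := Nat.cast_nonneg A
  have he : 0 < Real.exp L := Real.exp_pos L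
  have hab : |(a : ℝ)| = A := by
    rw [hA, Nat.cast_natAbs, Int.cast_abs]
  have ha1 : (a : ℝ) ≤ A := hab ▸ le_abs_self _
  have ha2 : -(A : ℝ) ≤ a := by
    have := neg_abs_le (a : ℝ)
    rwa [hab] at this
  have hy0 : 0 ≤ 3 / 2 * ((r : ℝ) * Real.exp L) := by positivity
  have hp1 : (r : ℝ) * Real.exp L < p := Nat.lt_of_floor_lt h1
  have hp2 : (p : ℝ) ≤ 3 / 2 * ((r : ℝ) * Real.exp L) := (Nat.le_floor_iff hy0).1 h2
  have hdv : (r : ℤ) ∣ (p : ℤ) - a := by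
    rw [← ZMod.intCast_eq_intCast_iff_dvd_sub]
    rw [Int.cast_natCast]
    exact hpa.symm
  obtain ⟨n, hn⟩ := hdv
  have hnR : (p : ℝ) - a = r * n := by exact_mod_cast hn
  have hAr : (A : ℝ) ≤ r * A := by nlinarith
  have hn1 : Real.exp L - A < (n : ℝ) := by
    by_contra hcon
    push Not at hcon
    have h3 : (r : ℝ) * n ≤ r * (Real.exp L - A) := by
      apply mul_le_mul_of_nonneg_left hcon
      linarith
    nlinarith
  have hn2 : (n : ℝ) ≤ 3 / 2 * Real.exp L + A := by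
    by_contra hcon
    push Not at hcon
    have h3 : (r : ℝ) * (3 / 2 * Real.exp L + A) < r * n := by
      apply mul_lt_mul_of_pos_left hcon
      linarith
    nlinarith
  have hWA : (0 : ℝ) ≤ (W : ℝ) * (2 * A + 1) := by positivity
  have hn0 : 0 ≤ n := by
    have h3 : (0 : ℝ) < n := by linarith
    exact_mod_cast h3.le
  obtain ⟨N, rfl⟩ := Int.eq_ofNat_of_zero_le hn0
  have hNr : (((N : ℤ) : ℝ)) = (N : ℝ) := by norm_cast
  have hN1 : Real.exp L - A < (N : ℝ) := by rw [← hNr]; exact hn1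
  have hN2 : (N : ℝ) ≤ 3 / 2 * Real.exp L + A := by rw [← hNr]; exact hn2
  have hNW : W * (2 * A + 1) ≤ N := by
    have h3 : ((W * (2 * A + 1) : ℕ) : ℝ) ≤ N := by
      push_cast
      linarith
    exact_mod_cast h3
  have hdiv : 2 * A + 1 ≤ N / W := by
    rw [Nat.le_div_iff_mul_le (by omega)]
    rw [Nat.mul_comm]
    exact hNW
  obtain ⟨x, hx⟩ : ∃ x, N / W = (2 * A + 1) + x := ⟨N / W - (2 * A + 1), by omega⟩
  have hbx : W * (2 * A + 1) + N % W + W * x = N := by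
    have h3 := Nat.mod_add_div N W
    rw [hx] at h3
    nlinarith
  have hmod : N % W < W := Nat.mod_lt _ (by omega)
  have hq : (a + (r : ℤ) * ((W * (2 * A + 1) + N % W + W * x : ℕ) : ℤ)) = (p : ℤ) := by
    rw [hbx]
    linarith
  have hqv : qv a r (W * (2 * A + 1) + N % W + W * x) = p := by
    rw [qv, hq]
    exact Int.toNat_natCast p
  have hWp : W < p := by
    have h3 : (W : ℝ) < p := by
      have h4 : (W : ℝ) ≤ W * (2 * A + 1) := by nlinarith
      have h5 : Real.exp L ≤ r * Real.exp L := by nlinarith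
      linarith
    exact_mod_cast h3
  refine ⟨W * (2 * A + 1) + N % W, ?_, x, ?_, hqv⟩
  · rw [BX, mem_filter, mem_Ico, ← hA]
    refine ⟨⟨by omega, ?_⟩, ?_⟩
    · have : W * (2 * A + 2) = W * (2 * A + 1) + W := by ring
      rw [this]
      omega
    · have h3 : IsCoprime (p : ℤ) (W : ℤ) := by
        rw [Nat.isCoprime_iff_coprime]
        rw [Nat.Prime.coprime_iff_not_dvd hp]
        exact Nat.not_dvd_of_pos_of_lt (by omega) hWp
      have h4 : a + (r : ℤ) * ((W * (2 * A + 1) + N % W : ℕ) : ℤ) =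
          (p : ℤ) + (W : ℤ) * (-((r : ℤ) * x)) := by
        rw [← hq]
        push_cast
        ring
      rw [h4]
      exact h3.add_mul_left_left _
  · rw [PiL, mem_filter, mem_range, hqv]
    refine ⟨?_, hp, h1, h2⟩
    have h3 : x + 1 ≤ M0 L W := by
      rw [M0, Nat.le_floor_iff (by positivity), le_div_iff₀ (by linarith)]
      have h4 : (W : ℝ) * (2 * A + 1) + W * x ≤ N := by
        have h5 : W * (2 * A + 1) + W * x ≤ N := by omega
        exact_mod_cast h5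
      push_cast
      have h6 : (A : ℝ) ≤ W * A := by nlinarith
      nlinarith
    omega

/-- The total weight for one `r`. -/
lemma class_le {a : ℤ} {r W : ℕ} {L : ℝ} (hr : 1 ≤ r) (hW : 1 ≤ W)
    (hbig : (W : ℝ) * (2 * (a.natAbs : ℝ) + 1) + a.natAbs ≤ Real.exp L) :
    ∑ p ∈ (Ioc ⌊(r : ℝ) * Real.exp L⌋₊ ⌊3 / 2 * ((r : ℝ) * Real.exp L)⌋₊).filter
      (fun p : ℕ => p.Prime ∧ (p : ZMod r) = (a : ZMod r)), Real.log p ≤
    ∑ b ∈ BX a W r, ThL a r W b L := by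
  classical
  have h1 : ∑ b ∈ BX a W r, ThL a r W b L =
      ∑ t ∈ (BX a W r).sigma (fun b => PiL a r W b L),
        Real.log ((qv a r (t.1 + W * t.2) : ℕ) : ℝ) := by
    rw [sum_sigma]
    rfl
  rw [h1]
  have h2 : (Ioc ⌊(r : ℝ) * Real.exp L⌋₊ ⌊3 / 2 * ((r : ℝ) * Real.exp L)⌋₊).filter
      (fun p : ℕ => p.Prime ∧ (p : ZMod r) = (a : ZMod r)) ⊆
      ((BX a W r).sigma (fun b => PiL a r W b L)).image
        (fun t : (Σ _ : ℕ, ℕ) => qv a r (t.1 + W * t.2)) := by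
    intro p hp
    rw [mem_filter, mem_Ioc] at hp
    obtain ⟨b, hb, x, hx, hq⟩ := exists_bx hr hW hbig hp.2.1 hp.2.2 hp.1.1 hp.1.2
    rw [mem_image]
    exact ⟨⟨b, x⟩, mem_sigma.2 ⟨hb, hx⟩, hq⟩
  refine le_trans (sum_le_sum_of_subset_of_nonneg h2 ?_) ?_
  · intro p _ _
    exact Real.log_natCast_nonneg p
  · apply sum_image_le_of_nonneg
    intro p _
    exact Real.log_natCast_nonneg p

/-- Many `r = 1` modulo `A` which are not multiples of `d`. -/
lemma exists_R {A d : ℕ} {X Y : ℝ} (hA : 1 ≤ A) (hd : 2 ≤ d) (hX : 0 ≤ X)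
    (hXY : 2 * (3 * (A : ℝ) + 1) ≤ Y - X) :
    ∃ R : Finset ℕ, (∀ r ∈ R, X < r ∧ (r : ℝ) ≤ Y ∧ r.Coprime A ∧ ¬ d ∣ r) ∧
      (Y - X) / (4 * A) ≤ (R.card : ℝ) := by
  classical
  have hA0 : (1 : ℝ) ≤ A := by exact_mod_cast hA
  set g : ℕ → ℕ := fun s => if d ∣ 1 + A * (2 * s) then 1 + A * (2 * s + 1) else
    1 + A * (2 * s) with hg
  have hg1 : ∀ s, 1 + A * (2 * s) ≤ g s := by
    intro s
    simp only [hg]
    split_ifs
    · nlinarith
    · exact le_rfl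
  have hg2 : ∀ s, g s ≤ 1 + A * (2 * s + 1) := by
    intro s
    simp only [hg]
    split_ifs
    · exact le_rfl
    · nlinarith
  have hg3 : StrictMono g := by
    apply strictMono_nat_of_lt_succ
    intro s
    have h1 := hg2 s
    have h2 := hg1 (s + 1)
    have h3 : 1 + A * (2 * s + 1) < 1 + A * (2 * (s + 1)) := by nlinarith
    omega
  have hg4 : ∀ s, ¬ d ∣ g s := by
    intro s
    simp only [hg]
    split_ifs with h
    · intro h2
      have h3 : d ∣ A := by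
        have h4 := (Nat.dvd_sub h2 h)
        have h5 : 1 + A * (2 * s + 1) - (1 + A * (2 * s)) = A := by
          have : 1 + A * (2 * s + 1) = (1 + A * (2 * s)) + A := by ring
          omega
        rwa [h5] at h4
      have h6 : d ∣ 1 := by
        have h7 : d ∣ A * (2 * s) := Dvd.dvd.mul_right h3 _
        exact (Nat.dvd_add_left h7).1 h
      have h8 := Nat.le_of_dvd one_pos h6
      omega
    · exact h
  have hg5 : ∀ s, (g s).Coprime A := by
    intro s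
    simp only [hg]
    split_ifs
    · rw [Nat.coprime_add_mul_left_left]
      exact Nat.coprime_one_left A
    · rw [Nat.coprime_add_mul_left_left]
      exact Nat.coprime_one_left A
  have hY0 : 0 ≤ (Y - A - 1) / (2 * A) := by
    apply div_nonneg
    · linarith
    · linarith
  refine ⟨(Ico (⌊X / (2 * A)⌋₊ + 1) (⌊(Y - A - 1) / (2 * A)⌋₊ + 1)).image g, ?_, ?_⟩
  · intro r hr
    rw [mem_image] at hr
    obtain ⟨s, hs, rfl⟩ := hr
    rw [mem_Ico] at hs
    refine ⟨?_, ?_, hg5 s, hg4 s⟩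
    · have h1 : X / (2 * A) < (⌊X / (2 * A)⌋₊ : ℝ) + 1 := Nat.lt_floor_add_one _
      have h2 : ((⌊X / (2 * A)⌋₊ + 1 : ℕ) : ℝ) ≤ s := by exact_mod_cast hs.1
      push_cast at h2
      have h3 : X / (2 * A) < s := lt_of_lt_of_le h1 h2
      rw [div_lt_iff₀ (by linarith)] at h3
      have h4 : ((1 + A * (2 * s) : ℕ) : ℝ) ≤ g s := by exact_mod_cast hg1 s
      push_cast at h4
      nlinarith
    · have h1 : s ≤ ⌊(Y - A - 1) / (2 * A)⌋₊ := by omega
      rw [Nat.le_floor_iff hY0, le_div_iff₀ (by linarith)] at h1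
      have h4 : (g s : ℝ) ≤ ((1 + A * (2 * s + 1) : ℕ) : ℝ) := by exact_mod_cast hg2 s
      push_cast at h4
      nlinarith
  · rw [card_image_of_injective _ hg3.injective, Nat.card_Ico]
    have h1 : ((⌊(Y - A - 1) / (2 * A)⌋₊ : ℕ) : ℝ) - ((⌊X / (2 * A)⌋₊ : ℕ) : ℝ) ≤
        ((⌊(Y - A - 1) / (2 * A)⌋₊ + 1 - (⌊X / (2 * A)⌋₊ + 1) : ℕ) : ℝ) := by
      have h2 : ⌊(Y - A - 1) / (2 * A)⌋₊ ≤
          (⌊(Y - A - 1) / (2 * A)⌋₊ + 1 - (⌊X / (2 * A)⌋₊ + 1)) + ⌊X / (2 * A)⌋₊ := by omega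
      have h3 : ((⌊(Y - A - 1) / (2 * A)⌋₊ : ℕ) : ℝ) ≤
          (((⌊(Y - A - 1) / (2 * A)⌋₊ + 1 - (⌊X / (2 * A)⌋₊ + 1)) + ⌊X / (2 * A)⌋₊ : ℕ) : ℝ) := by
        exact_mod_cast h2
      rw [Nat.cast_add] at h3
      linarith
    have h4 : (Y - A - 1) / (2 * A) < ((⌊(Y - A - 1) / (2 * A)⌋₊ : ℕ) : ℝ) + 1 :=
      Nat.lt_floor_add_one _
    have h5 : ((⌊X / (2 * A)⌋₊ : ℕ) : ℝ) ≤ X / (2 * A) := by
      apply Nat.floor_le
      positivity
    have h6 : (Y - X) / (4 * A) ≤ (Y - A - 1) / (2 * A) - 1 - X / (2 * A) := by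
      have hA1 : (0 : ℝ) < A := by linarith
      rw [div_sub_one (by positivity), div_sub_div_same, div_le_div_iff₀ (by positivity)
        (by positivity)]
      nlinarith
    linarith

lemma W_le {m : ℕ} {L : ℝ} : ((WW m L : ℕ) : ℝ) ≤ Real.exp (2 * Real.sqrt L) := by
  have h1 : ((WW m L : ℕ) : ℝ) ≤ (4 : ℝ) ^ ⌊Real.sqrt L⌋₊ := by
    exact_mod_cast THDd.WW_le m L
  have h2 : (4 : ℝ) ≤ Real.exp 2 := by
    have h3 := Real.add_one_le_exp (1 : ℝ)
    have h4 : Real.exp 2 = Real.exp 1 * Real.exp 1 := by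
      rw [← Real.exp_add]
      norm_num
    rw [h4]
    nlinarith
  have hs : 0 ≤ Real.sqrt L := Real.sqrt_nonneg L
  calc ((WW m L : ℕ) : ℝ) ≤ (4 : ℝ) ^ ⌊Real.sqrt L⌋₊ := h1
    _ ≤ (Real.exp 2) ^ ⌊Real.sqrt L⌋₊ := by gcongr
    _ = Real.exp ((⌊Real.sqrt L⌋₊ : ℝ) * 2) := by rw [← Real.exp_nat_mul]
    _ ≤ Real.exp (2 * Real.sqrt L) := by
        apply Real.exp_le_exp.2
        have := Nat.floor_le hs
        linarith

/-- `W (2A + 1) + A ≤ e^L` for large `L`. -/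
lemma big_le {A : ℕ} {L : ℝ} (hL : 36 ≤ L) (hLA : 6 * (A : ℝ) ≤ L) :
    ((WW A L : ℕ) : ℝ) * (2 * (A : ℝ) + 1) + A ≤ Real.exp L := by
  have hL0 : 0 ≤ L := by linarith
  have hA0 : (0 : ℝ) ≤ A := Nat.cast_nonneg A
  have h1 := W_le (m := A) (L := L)
  have h2 : 1 ≤ Real.exp (2 * Real.sqrt L) := Real.one_le_exp (by positivity)
  have h3 : 2 * Real.sqrt L ≤ L / 2 := by
    have h4 : Real.sqrt L * Real.sqrt L = L := Real.mul_self_sqrt hL0
    have h5 : 6 ≤ Real.sqrt L := by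
      apply Real.le_sqrt_of_sq_le
      linarith
    nlinarith
  have h6 : L / 2 + 1 ≤ Real.exp (L / 2) := Real.add_one_le_exp _
  have h7 : Real.exp (2 * Real.sqrt L) ≤ Real.exp (L / 2) := Real.exp_le_exp.2 h3
  have h8 : Real.exp L = Real.exp (L / 2) * Real.exp (L / 2) := by
    rw [← Real.exp_add]
    ring_nf
  have h9 : 3 * (A : ℝ) + 1 ≤ Real.exp (L / 2) := by linarith
  calc ((WW A L : ℕ) : ℝ) * (2 * (A : ℝ) + 1) + A ≤
        Real.exp (2 * Real.sqrt L) * (2 * (A : ℝ) + 1) + Real.exp (2 * Real.sqrt L) * A := by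
        gcongr
        nlinarith
    _ = Real.exp (2 * Real.sqrt L) * (3 * A + 1) := by ring
    _ ≤ Real.exp (L / 2) * Real.exp (L / 2) := by gcongr
    _ = Real.exp L := h8.symm

end PSXx

open PSXx in
theorem t_PSX : S_PSX := by
  intro hAP a u v ha hu huv
  obtain ⟨c, hc, N₀, hAP⟩ := hAP
  set A : ℕ := a.natAbs with hA
  have hA1 : 1 ≤ A := Int.natAbs_pos.2 ha
  have hA0 : (1 : ℝ) ≤ A := by exact_mod_cast hA1
  have hvu : 0 < v - u := by linarith
  refine ⟨c * (v - u) / (4 * A), by positivity, max (max 36 (6 * (A : ℝ))) (max (max N₀ (2 * v + 1))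
    (2 * (3 * (A : ℝ) + 1) / (v - u))), ?_⟩
  intro L hL
  rw [max_le_iff, max_le_iff, max_le_iff, max_le_iff] at hL
  obtain ⟨⟨hL36, hLA⟩, ⟨hLN, hLv⟩, hLvu⟩ := hL
  have hL0 : 0 < L := by linarith
  have hLe : L + 1 ≤ Real.exp L := Real.add_one_le_exp L
  have hquad : 1 + L + L ^ 2 / 2 ≤ Real.exp L := Real.quadratic_le_exp_of_nonneg hL0.le
  have he : 0 < Real.exp L := Real.exp_pos L
  obtain ⟨d, hd, hmain⟩ := hAP (Real.exp L) (by linarith)
  rw [div_le_iff₀ hvu] at hLvu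
  obtain ⟨R, hR, hcard⟩ := exists_R (A := A) (d := d) (X := u * L) (Y := v * L) hA1 hd
    (by positivity) (by linarith)
  refine ⟨R, ?_, ?_⟩
  · intro r hr
    obtain ⟨h1, h2, h3, _⟩ := hR r hr
    refine ⟨h1, h2, ?_⟩
    have h4 : IsCoprime (A : ℤ) (r : ℤ) := Nat.isCoprime_iff_coprime.2 h3.symm
    rw [hA, Int.natCast_natAbs] at h4
    exact (IsCoprime.abs_left_iff _ _).1 h4
  · have hW1 : 1 ≤ WW A L := THDd.WW_pos A L
    have hone : ∀ r ∈ R, c * Real.exp L ≤ ∑ b ∈ BX a (WW A L) r, ThL a r (WW A L) b L := by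
      intro r hr
      obtain ⟨h1, h2, h3, h4⟩ := hR r hr
      have hr1 : 1 ≤ r := by
        have h5 : (0 : ℝ) < r := lt_of_le_of_lt (by positivity) h1
        exact_mod_cast h5
      have hr0 : (1 : ℝ) ≤ r := by exact_mod_cast hr1
      have hrL : (r : ℝ) ≤ L ^ 2 / 2 := by nlinarith
      have h5 : IsUnit ((a : ℤ) : ZMod r) := by
        rw [ZMod.coe_int_isUnit_iff_isCoprime]
        have h4 : IsCoprime (A : ℤ) (r : ℤ) := Nat.isCoprime_iff_coprime.2 h3.symm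
        rw [hA, Int.natCast_natAbs] at h4
        exact ((IsCoprime.abs_left_iff _ _).1 h4).symm
      have h6 := hmain r hr1 (by rw [Real.log_exp]; nlinarith) h4 (a : ZMod r) h5
        ((r : ℝ) * Real.exp L) (by nlinarith) (by nlinarith)
      refine le_trans ?_ (le_trans h6 (class_le hr1 hW1 (big_le hL36 hLA)))
      have h7 : (0 : ℝ) < r.totient := by
        exact_mod_cast Nat.totient_pos.2 hr1
      have h8 : (r.totient : ℝ) ≤ r := by exact_mod_cast Nat.totient_le r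
      rw [le_div_iff₀ h7]
      have h9 : c * Real.exp L * r.totient ≤ c * Real.exp L * r := by gcongr
      linarith
    calc c * (v - u) / (4 * A) * (L * Real.exp L) =
          ((v * L - u * L) / (4 * A)) * (c * Real.exp L) := by ring
      _ ≤ (R.card : ℝ) * (c * Real.exp L) := by gcongr
      _ = ∑ r ∈ R, c * Real.exp L := by rw [sum_const, nsmul_eq_mul]
      _ ≤ _ := sum_le_sum hone

end Pool.Agent.FCT
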