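import Pool.Agent.FCT.St2
import Pool.Agent.IP.EDQ
import Pool.Agent.IP.SEL

set_option autoImplicit false

/-!
FCT, module RSX: the number of the surviving sites, weighted with the primes.
-/

namespace Pool.Agent.FCT

open Finset Pool.Agent.Lib_helper9.LG

noncomputable section

namespace RSXx

lemma gq_nonneg (n : ℕ) : 0 ≤ gq n := by
  unfold gq
  positivity

/-- sums over shifted absolute values -/
lemma sum_shift (F : ℕ → ℝ) (hF : ∀ n, 0 ≤ F n) (J : Finset ℕ) (d : ℤ) (X : ℕ)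
    (h0 : ∀ j ∈ J, (j : ℤ) ≠ d) (hX : ∀ j ∈ J, ((j : ℤ) - d).natAbs ≤ X) :
    ∑ j ∈ J, F ((j : ℤ) - d).natAbs ≤ 2 * ∑ n ∈ Icc 1 X, F n := by
  have hmaps : ∀ j ∈ J, ((j : ℤ) - d).natAbs ∈ Icc 1 X := by
    intro j hj
    rw [mem_Icc]
    refine ⟨?_, hX j hj⟩
    have h1 := h0 j hj
    have h2 : (j : ℤ) - d ≠ 0 := sub_ne_zero.2 h1
    exact Nat.one_le_iff_ne_zero.2 (Int.natAbs_ne_zero.2 h2)
  rw [← sum_fiberwise_of_maps_to hmaps, mul_sum]
  apply sum_le_sum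
  intro n _
  have h1 : ∑ j ∈ J.filter (fun j : ℕ => ((j : ℤ) - d).natAbs = n), F ((j : ℤ) - d).natAbs =
      (J.filter (fun j : ℕ => ((j : ℤ) - d).natAbs = n)).card * F n := by
    rw [sum_congr rfl (fun j hj => by rw [(mem_filter.1 hj).2]), sum_const, nsmul_eq_mul]
  rw [h1]
  have h2 : (J.filter (fun j : ℕ => ((j : ℤ) - d).natAbs = n)).card ≤ 2 := by
    refine le_trans (card_le_card_of_injOn (t := ({d + n, d - n} : Finset ℤ))
      (fun j => (j : ℤ)) ?_ ?_) card_le_two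
    · intro j hj
      have h3 := (mem_filter.1 (mem_coe.1 hj)).2
      rw [mem_coe, mem_insert, mem_singleton]
      show (j : ℤ) = d + n ∨ (j : ℤ) = d - n
      omega
    · intro i _ j _ h
      have h3 : (i : ℤ) = (j : ℤ) := h
      exact_mod_cast h3
  have h3 : ((J.filter (fun j : ℕ => ((j : ℤ) - d).natAbs = n)).card : ℝ) ≤ 2 := by exact_mod_cast h2
  exact mul_le_mul_of_nonneg_right h3 (hF n)

lemma young {x y z : ℝ} : x ^ 2 * y * z ≤ x ^ 4 / 2 + y ^ 4 / 4 + z ^ 4 / 4 := by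
  nlinarith [sq_nonneg (x ^ 2 - y * z), sq_nonneg (y ^ 2 - z ^ 2)]

/-- the sites without the two forbidden ones -/
def JJ (r K : ℕ) : Finset ℕ := (range (2 * K + 1)).filter (fun j => j ≠ K ∧ j ≠ K + r)

/-- double counting -/
lemma count_SX (a : ℤ) (W r K : ℕ) : ∑ b ∈ BX a W r, (SX a W b r K).card =
    ∑ j ∈ JJ r K, ((BX a W r).filter
      (fun b : ℕ => IsCoprime (a + ((j : ℤ) - K) * (b : ℤ)) (W : ℤ))).card := by
  have h1 : ∀ b, (SX a W b r K) =
      (JJ r K).filter (fun j : ℕ => IsCoprime (a + ((j : ℤ) - K) * (b : ℤ)) (W : ℤ)) := by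
    intro b
    unfold SX JJ
    rw [filter_filter]
    apply filter_congr
    intro j _
    rw [and_assoc]
  rw [sum_congr rfl (fun b _ => by rw [h1 b, card_filter])]
  rw [sum_comm]
  apply sum_congr rfl
  intro j _
  rw [card_filter]

lemma cop_period (a : ℤ) (W : ℕ) (k : ℤ) (b : ℕ) :
    IsCoprime (a + k * ((b + W : ℕ) : ℤ)) (W : ℤ) ↔ IsCoprime (a + k * (b : ℤ)) (W : ℤ) := by
  have h1 : a + k * ((b + W : ℕ) : ℤ) = (a + k * (b : ℤ)) + k * (W : ℤ) := by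
    push_cast
    ring
  rw [h1]
  exact IsCoprime.add_mul_right_left_iff

/-- the number of the survivors -/
lemma card_surv (a : ℤ) (W r : ℕ) (k : ℤ) :
    ((BX a W r).filter (fun b : ℕ => IsCoprime (a + k * (b : ℤ)) (W : ℤ))).card =
    ((range W).filter (fun b : ℕ => IsCoprime (a + (r : ℤ) * (b : ℤ)) (W : ℤ) ∧
      IsCoprime (a + k * (b : ℤ)) (W : ℤ))).card := by
  unfold BX
  rw [filter_filter]
  have h1 : W * (2 * a.natAbs + 2) = W * (2 * a.natAbs + 1) + W := by ring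
  rw [h1, Nat.filter_Ico_card_eq_of_periodic, Nat.count_eq_card_filter_range]
  intro b
  beta_reduce
  rw [cop_period, cop_period]

/-- the bound for one `r` -/
lemma one_r (hCNT : S_CNTX) (a : ℤ) (W r K : ℕ) (hsq : Squarefree W)
    (hcop : IsCoprime a (W : ℤ)) (hr : r ≠ 0) (hW : 0 < W) (Θ : ℝ) (hΘ : 0 ≤ Θ)
    (Th : ℕ → ℝ) (hTh : ∀ b ∈ BX a W r, Th b ≤ Θ * gq r) :
    ∑ b ∈ BX a W r, ((SX a W b r K).card : ℝ) * Th b ≤
      Θ * ((W.totient : ℝ) ^ 2 / W) * ∑ j ∈ JJ r K,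
        gq r ^ 2 * gq ((j : ℤ) - K).natAbs * gq ((j : ℤ) - (K + r : ℕ)).natAbs := by
  have h1 : ∑ b ∈ BX a W r, ((SX a W b r K).card : ℝ) * Th b ≤
      ∑ b ∈ BX a W r, ((SX a W b r K).card : ℝ) * (Θ * gq r) :=
    sum_le_sum fun b hb => mul_le_mul_of_nonneg_left (hTh b hb) (Nat.cast_nonneg _)
  refine h1.trans ?_
  have h2 : ∑ b ∈ BX a W r, ((SX a W b r K).card : ℝ) =
      ∑ j ∈ JJ r K, (((range W).filter (fun b : ℕ => IsCoprime (a + (r : ℤ) * (b : ℤ)) (W : ℤ) ∧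
      IsCoprime (a + ((j : ℤ) - K) * (b : ℤ)) (W : ℤ))).card : ℝ) := by
    have h3 := (count_SX a W r K).trans
      (sum_congr rfl fun j _ => card_surv a W r ((j : ℤ) - K))
    exact_mod_cast h3
  rw [← sum_mul, h2, sum_mul, mul_sum]
  apply sum_le_sum
  intro j hj
  obtain ⟨-, hj1, hj2⟩ := mem_filter.1 hj
  have h3 := (hCNT a W r hsq hcop hr).2 ((j : ℤ) - K) (by omega) (by omega)
  have h4 : ((j : ℤ) - K - r) = (j : ℤ) - (K + r : ℕ) := by
    push_cast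
    ring
  rw [h4] at h3
  have hW0 : (0 : ℝ) < W := by exact_mod_cast hW
  rw [← le_div_iff₀ hW0] at h3
  refine (mul_le_mul_of_nonneg_right h3 (mul_nonneg hΘ (gq_nonneg r))).trans (le_of_eq ?_)
  ring

/-- the sum over all `r` -/
lemma all_r {C4 : ℝ} (hG : ∀ X : ℕ, ∑ n ∈ Icc 1 X, gq n ^ 4 ≤ C4 * X) (K : ℕ) (R : Finset ℕ)
    (hR : R ⊆ Icc 1 K) : ∑ r ∈ R, ∑ j ∈ JJ r K,
      gq r ^ 2 * gq ((j : ℤ) - K).natAbs * gq ((j : ℤ) - (K + r : ℕ)).natAbs ≤
        3 * C4 * (K : ℝ) ^ 2 := by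
  have h4 : ∀ n, 0 ≤ gq n ^ 4 := fun n => pow_nonneg (gq_nonneg n) 4
  have hC4 : 0 ≤ C4 * K := (sum_nonneg fun n _ => h4 n).trans (hG K)
  have h1 : ∀ r ∈ R, ∑ j ∈ JJ r K,
      gq r ^ 2 * gq ((j : ℤ) - K).natAbs * gq ((j : ℤ) - (K + r : ℕ)).natAbs ≤
        3 / 2 * K * gq r ^ 4 + 3 / 2 * (C4 * K) := by
    intro r hr
    obtain ⟨hr1, hrK⟩ := mem_Icc.1 (hR hr)
    have hj : ∀ j ∈ JJ r K, j ≤ 2 * K ∧ j ≠ K ∧ j ≠ K + r := by
      intro j hj
      obtain ⟨h5, h6⟩ := mem_filter.1 hj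
      rw [mem_range] at h5
      exact ⟨by omega, h6⟩
    have e1 : ∑ j ∈ JJ r K, gq ((j : ℤ) - K).natAbs ^ 4 ≤ 2 * (C4 * K) := by
      have := sum_shift (fun n => gq n ^ 4) h4 (JJ r K) (K : ℤ) K
        (fun j h => by have := hj j h; omega) (fun j h => by have := hj j h; omega)
      exact this.trans (by linarith [hG K])
    have e2 : ∑ j ∈ JJ r K, gq ((j : ℤ) - (K + r : ℕ)).natAbs ^ 4 ≤ 2 * (C4 * (2 * K : ℕ)) := by
      have := sum_shift (fun n => gq n ^ 4) h4 (JJ r K) ((K + r : ℕ) : ℤ) (2 * K)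
        (fun j h => by have := hj j h; omega) (fun j h => by have := hj j h; omega)
      exact this.trans (by linarith [hG (2 * K)])
    have e3 : ((JJ r K).card : ℝ) ≤ 3 * K := by
      have h5 : (JJ r K).card ≤ 2 * K + 1 := by
        refine (card_filter_le _ _).trans ?_
        rw [card_range]
      have h6 : (JJ r K).card ≤ 3 * K := by omega
      exact_mod_cast h6
    calc _ ≤ ∑ j ∈ JJ r K, (gq r ^ 4 / 2 + gq ((j : ℤ) - K).natAbs ^ 4 / 4 +
          gq ((j : ℤ) - (K + r : ℕ)).natAbs ^ 4 / 4) := sum_le_sum fun j _ => young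
      _ = (JJ r K).card * (gq r ^ 4 / 2) + (∑ j ∈ JJ r K, gq ((j : ℤ) - K).natAbs ^ 4) / 4 +
          (∑ j ∈ JJ r K, gq ((j : ℤ) - (K + r : ℕ)).natAbs ^ 4) / 4 := by
          rw [sum_add_distrib, sum_add_distrib, sum_const, nsmul_eq_mul, sum_div, sum_div]
      _ ≤ 3 * K * (gq r ^ 4 / 2) + 2 * (C4 * K) / 4 + 2 * (C4 * (2 * K : ℕ)) / 4 := by
          have h7 := mul_le_mul_of_nonneg_right e3 (by linarith [h4 r] : 0 ≤ gq r ^ 4 / 2)
          linarith
      _ = _ := by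
          push_cast
          ring
  have hcard : (R.card : ℝ) ≤ K := by
    have h5 := card_le_card hR
    rw [Nat.card_Icc, Nat.add_sub_cancel] at h5
    exact_mod_cast h5
  have hsum : ∑ r ∈ R, gq r ^ 4 ≤ C4 * K :=
    (sum_le_sum_of_subset_of_nonneg hR fun n _ _ => h4 n).trans (hG K)
  calc _ ≤ ∑ r ∈ R, (3 / 2 * K * gq r ^ 4 + 3 / 2 * (C4 * K)) := sum_le_sum h1
    _ = 3 / 2 * K * (∑ r ∈ R, gq r ^ 4) + R.card * (3 / 2 * (C4 * K)) := by
        rw [sum_add_distrib, ← mul_sum, sum_const, nsmul_eq_mul]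
    _ ≤ 3 / 2 * K * (C4 * K) + K * (3 / 2 * (C4 * K)) := by
        have h8 := mul_le_mul_of_nonneg_left hsum (by positivity : (0 : ℝ) ≤ 3 / 2 * K)
        have h9 := mul_le_mul_of_nonneg_right hcard (by positivity : 0 ≤ 3 / 2 * (C4 * K))
        linarith
    _ = _ := by ring

lemma ThL_nonneg (a : ℤ) (r W b : ℕ) (L : ℝ) : 0 ≤ ThL a r W b L :=
  sum_nonneg fun _ _ => Real.log_natCast_nonneg _

/-- `L` is large -/
lemma large {A L : ℝ} (hA : 1 ≤ A) (h1 : 256 ≤ L) (h2 : 8 * Real.log A ≤ L) :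
    Real.exp (2 * Real.sqrt L) * A ≤ Real.exp (L / 4) := by
  have hs : (16 : ℝ) ≤ Real.sqrt L := by
    apply Real.le_sqrt_of_sq_le
    linarith
  have hsq : Real.sqrt L * Real.sqrt L = L := Real.mul_self_sqrt (by linarith)
  have h3 : Real.exp (Real.log A) = A := Real.exp_log (by linarith)
  calc Real.exp (2 * Real.sqrt L) * A = Real.exp (2 * Real.sqrt L) * Real.exp (Real.log A) := by
        rw [h3]
    _ = Real.exp (2 * Real.sqrt L + Real.log A) := (Real.exp_add _ _).symm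
    _ ≤ Real.exp (L / 4) := by
        apply Real.exp_le_exp.2
        nlinarith

end RSXx

open RSXx in
theorem t_RSX : S_RSX := by
  intro hBT hCNT hG4
  obtain ⟨C1, hC1, hBT⟩ := hBT
  obtain ⟨C4, hC4, hG4⟩ := hG4
  refine ⟨3 * C1 * C4, by positivity, fun a ha => ?_⟩
  obtain ⟨L₀, hBT⟩ := hBT a ha
  obtain ⟨A, hA⟩ : ∃ A : ℝ, A = ((2 * a.natAbs + 2 : ℕ) : ℝ) := ⟨_, rfl⟩
  have hA1 : 1 ≤ A := by
    rw [hA]
    have : 1 ≤ 2 * a.natAbs + 2 := by omega
    exact_mod_cast this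
  refine ⟨max L₀ (max 256 (8 * Real.log A)), fun L hL K R hK hR hRa => ?_⟩
  have hL1 : L₀ ≤ L := (le_max_left _ _).trans hL
  have hL2 : 256 ≤ L := (le_max_left _ _).trans ((le_max_right _ _).trans hL)
  have hL3 : 8 * Real.log A ≤ L := (le_max_right _ _).trans ((le_max_right _ _).trans hL)
  have hWle := IP.EDQ.W_le (m := a.natAbs) (L := L) (by linarith)
  obtain ⟨W, hW⟩ : ∃ W, W = WW a.natAbs L := ⟨_, rfl⟩
  rw [← hW] at hWle ⊢
  have hW1 : 1 ≤ W := by rw [hW]; exact IP.SEL.WW_pos _ _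
  have hsq : Squarefree W := by rw [hW]; exact IP.SEL.WW_sqf _ _
  have hcop : IsCoprime a (W : ℤ) := by
    have h1 : W.Coprime a.natAbs := by rw [hW]; exact IP.SEL.WW_cop _ _
    rw [Int.isCoprime_iff_nat_coprime, Int.natAbs_natCast]
    exact h1.symm
  have hφ0 : (0 : ℝ) < (W.totient : ℝ) := by exact_mod_cast Nat.totient_pos.2 hW1
  have hW0 : (0 : ℝ) < (W : ℝ) := by exact_mod_cast hW1
  have hprog : ∀ r ∈ R, ∀ b ∈ BX a W r, Prog a W b r L := by
    intro r hr b hb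
    obtain ⟨hr1, hrK⟩ := mem_Icc.1 (hR hr)
    obtain ⟨hb1, hb2⟩ := mem_filter.1 hb
    obtain ⟨hb3, hb4⟩ := mem_Ico.1 hb1
    refine ⟨hW1, hWle, ?_, ?_, hb2, hRa r hr, hr1, ?_⟩
    · exact le_trans (Nat.le_mul_of_pos_left _ hW1) hb3
    · have h1 : (b : ℝ) ≤ (W : ℝ) * A := by
        rw [hA]
        exact_mod_cast hb4.le
      refine h1.trans ((mul_le_mul_of_nonneg_right hWle (by linarith)).trans ?_)
      exact large hA1 hL2 hL3
    · refine le_trans ?_ hK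
      exact_mod_cast hrK
  have hTh : ∀ r ∈ R, ∀ b ∈ BX a W r, ThL a r W b L ≤
      C1 * Real.exp L / W.totient * gq r := by
    intro r hr b hb
    obtain ⟨hr1, hrK⟩ := mem_Icc.1 (hR hr)
    have h1 := hBT L hL1 W b r (hprog r hr b hb)
    have hφr : (0 : ℝ) < (r.totient : ℝ) := by exact_mod_cast Nat.totient_pos.2 hr1
    have h2 : (r.totient : ℝ) * W.totient ≤ ((r * W).totient : ℝ) := by
      exact_mod_cast Nat.totient_super_multiplicative r W
    have h3 : ThL a r W b L * ((r.totient : ℝ) * W.totient) ≤ C1 * (r * Real.exp L) :=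
      (mul_le_mul_of_nonneg_left h2 (ThL_nonneg _ _ _ _ _)).trans h1
    rw [← le_div_iff₀ (by positivity)] at h3
    refine h3.trans (le_of_eq ?_)
    unfold gq
    field_simp
  have hone : ∀ r ∈ R, ∑ b ∈ BX a W r, ((SX a W b r K).card : ℝ) * ThL a r W b L ≤
      C1 * Real.exp L / W.totient * ((W.totient : ℝ) ^ 2 / W) * ∑ j ∈ JJ r K,
        gq r ^ 2 * gq ((j : ℤ) - K).natAbs * gq ((j : ℤ) - (K + r : ℕ)).natAbs := by
    intro r hr
    obtain ⟨hr1, hrK⟩ := mem_Icc.1 (hR hr)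
    exact one_r hCNT a W r K hsq hcop (by omega) hW1 (C1 * Real.exp L / W.totient)
      (by positivity) (fun b => ThL a r W b L) (hTh r hr)
  refine (sum_le_sum hone).trans ?_
  rw [← mul_sum]
  refine (mul_le_mul_of_nonneg_left (all_r hG4 K R hR) (by positivity)).trans (le_of_eq ?_)
  field_simp

end

end Pool.Agent.FCT
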