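import Pool.Agent.FCT.St2
import Pool.Agent.IP.SEL

set_option autoImplicit false

/-!
FCT, part III: SELX, good pairs of large total weight (helper1).
-/

namespace Pool.Agent.FCT

open Finset Pool.Agent.Lib_helper9.LG
open Pool.Agent.FXD (Bij)

noncomputable section

namespace SELX

lemma cop_W (a : ℤ) (L : ℝ) : IsCoprime a ((WW a.natAbs L : ℕ) : ℤ) := by
  rw [Int.isCoprime_iff_gcd_eq_one]
  exact (IP.SEL.WW_cop a.natAbs L).symm

lemma one_le_gq {r : ℕ} (hr : 1 ≤ r) : 1 ≤ gq r := by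
  unfold gq
  have h : (0 : ℝ) < r.totient := by exact_mod_cast Nat.totient_pos.2 hr
  rw [one_le_div h]
  exact_mod_cast Nat.totient_le r

lemma ThL_nonneg (a : ℤ) (r W b : ℕ) (L : ℝ) : 0 ≤ ThL a r W b L := by
  unfold ThL
  exact sum_nonneg fun x _ => Real.log_natCast_nonneg _

/-- The number of the classes, for any period. -/
lemma card_BX (hC : S_CNTX) {a : ℤ} {W r : ℕ} (hW : Squarefree W) (haW : IsCoprime a (W : ℤ))
    (hr : 1 ≤ r) : ((BX a W r).card : ℝ) ≤ (W.totient : ℝ) * gq r := by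
  refine le_trans ?_ ((hC a W r hW haW (by omega)).1)
  have h : (BX a W r).card ≤
      ((range W).filter (fun b : ℕ => IsCoprime (a + (r : ℤ) * (b : ℤ)) (W : ℤ))).card := by
    refine card_le_card_of_injOn (fun b => b - W * (2 * a.natAbs + 1)) ?_ ?_
    · intro b hb
      have hb := mem_coe.1 hb
      unfold BX at hb
      rw [mem_filter, mem_Ico] at hb
      obtain ⟨⟨hb1, hb2⟩, hb3⟩ := hb
      have h1 : W * (2 * a.natAbs + 2) = W * (2 * a.natAbs + 1) + W := by ring
      rw [h1] at hb2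
      refine mem_coe.2 (mem_filter.2
        ⟨mem_range.2 (show b - W * (2 * a.natAbs + 1) < W by omega), ?_⟩)
      obtain ⟨c, hc⟩ : ∃ c, b = W * (2 * a.natAbs + 1) + c := ⟨b - W * (2 * a.natAbs + 1), by omega⟩
      have h2 : b - W * (2 * a.natAbs + 1) = c := by omega
      simp only [h2]
      have h3 : a + (r : ℤ) * (b : ℤ) = (a + (r : ℤ) * (c : ℤ)) +
          (W : ℤ) * ((r : ℤ) * ((2 * a.natAbs + 1 : ℕ) : ℤ)) := by
        rw [hc]
        push_cast
        ring
      rw [h3] at hb3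
      exact (IsCoprime.add_mul_left_left_iff).1 hb3
    · intro b hb b' hb' hbb
      have hb := mem_coe.1 hb
      have hb' := mem_coe.1 hb'
      unfold BX at hb hb'
      rw [mem_filter, mem_Ico] at hb hb'
      have h1 : b - W * (2 * a.natAbs + 1) = b' - W * (2 * a.natAbs + 1) := hbb
      omega
  exact_mod_cast h

end SELX

open SELX in
theorem t_SELX : S_SELX := by
  classical
  intro hPS hCNT hG4 hRS a u v t ha hu huv hvt
  obtain ⟨c, hc, L1, hPS⟩ := hPS a u v ha hu huv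
  obtain ⟨C4, hC4, hG4⟩ := hG4
  obtain ⟨CR, hCR, hRS⟩ := hRS
  obtain ⟨L2, hRS⟩ := hRS a ha
  have ht : 0 < t := (lt_of_le_of_lt hu huv).trans_le hvt
  have hC40 : 0 < C4 := by linarith
  obtain ⟨D, hD⟩ : ∃ D : ℝ, D = 2 * t + 1 := ⟨_, rfl⟩
  have hD1 : 1 ≤ D := by rw [hD]; linarith
  have hD0 : 0 < D := by linarith
  obtain ⟨c₂, hc₂⟩ : ∃ c₂ : ℝ, c₂ = c / (4 * C4 * D) := ⟨_, rfl⟩
  obtain ⟨C1, hC1⟩ : ∃ C1 : ℝ, C1 = 4 * CR * D ^ 2 / c := ⟨_, rfl⟩
  have hc₂0 : 0 < c₂ := by rw [hc₂]; positivity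
  have hC10 : 0 < C1 := by rw [hC1]; positivity
  refine ⟨c / 2, c₂, C1, by positivity, hc₂0, hC10, max (max L1 L2) D, fun L hL => ?_⟩
  have hL1 : L1 ≤ L := (le_max_left _ _).trans ((le_max_left _ _).trans hL)
  have hL2 : L2 ≤ L := (le_max_right _ _).trans ((le_max_left _ _).trans hL)
  have hLD : D ≤ L := (le_max_right _ _).trans hL
  have hL1' : 1 ≤ L := hD1.trans hLD
  have hL0 : 0 < L := by linarith
  obtain ⟨R, hR, hsum⟩ := hPS L hL1
  set W : ℕ := WW a.natAbs L with hWdef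
  set K : ℕ := ⌊t * (L + 1)⌋₊ + 1 with hK
  have hW1 : 1 ≤ W := IP.SEL.WW_pos _ L
  have hW0 : (0 : ℝ) < W := by exact_mod_cast hW1
  have hφ : (0 : ℝ) < W.totient := by exact_mod_cast Nat.totient_pos.2 hW1
  have hKD : (K : ℝ) ≤ D * L := by
    have h1 : (⌊t * (L + 1)⌋₊ : ℝ) ≤ t * (L + 1) := Nat.floor_le (by positivity)
    rw [hK, hD]
    push_cast
    have h2 : t * 1 ≤ t * L := mul_le_mul_of_nonneg_left hL1' ht.le
    nlinarith
  have hKL : (K : ℝ) ≤ L ^ 2 := by
    refine hKD.trans ?_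
    rw [pow_two]
    exact mul_le_mul_of_nonneg_right hLD hL0.le
  have hRK : R ⊆ Icc 1 K := by
    intro r hr
    obtain ⟨h1, h2, -⟩ := hR r hr
    rw [mem_Icc]
    constructor
    · have h3 : (0 : ℝ) < r := lt_of_le_of_lt (by positivity) h1
      exact_mod_cast h3
    · have h3 : (r : ℝ) ≤ t * (L + 1) := by
        refine h2.trans ?_
        have h4 : v * L ≤ t * L := mul_le_mul_of_nonneg_right hvt hL0.le
        nlinarith
      have h4 : r ≤ ⌊t * (L + 1)⌋₊ := Nat.le_floor h3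
      omega
  have hRS' := hRS L hL2 K R hKL hRK fun r hr => (hR r hr).2.2
  obtain ⟨E, hE⟩ : ∃ E : ℝ, E = Real.exp L := ⟨_, rfl⟩
  have hE0 : 0 < E := by rw [hE]; exact Real.exp_pos L
  rw [← hE] at hsum hRS'
  obtain ⟨κ, hκ⟩ : ∃ κ : ℝ, κ = C1 * (L * ((W.totient : ℝ) / W)) := ⟨_, rfl⟩
  have hκ0 : 0 < κ := by rw [hκ]; positivity
  obtain ⟨θ, hθ⟩ : ∃ θ : ℝ, θ = c₂ * (E / W.totient) := ⟨_, rfl⟩
  have hθ0 : 0 < θ := by rw [hθ]; positivity
  set I : Finset ℕ := Ico (W * (2 * a.natAbs + 1)) (W * (2 * a.natAbs + 2)) with hI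
  set Q : ℕ × ℕ → Prop := fun p => p.2 ∈ BX a W p.1 ∧ θ ≤ ThL a p.1 W p.2 L ∧
    ((SX a W p.2 p.1 K).card : ℝ) ≤ κ with hQ
  refine ⟨(R ×ˢ I).filter Q, ?_, ?_⟩
  · intro p hp
    obtain ⟨hp1, hp2, hp3, hp4⟩ := mem_filter.1 hp
    obtain ⟨h1, h2, h3⟩ := hR p.1 (mem_product.1 hp1).1
    refine ⟨h1, h2, h3, hp2, ?_, ?_⟩
    · rw [← hE, ← hθ]
      exact hp3
    · rw [← hκ]
      exact hp4
  · rw [← hE, sum_filter, sum_product]
    -- the pointwise inequality
    have hpt : ∀ r ∈ R, ∀ b ∈ BX a W r, ThL a r W b L ≤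
        θ + ((SX a W b r K).card : ℝ) * ThL a r W b L / κ +
          (if Q (r, b) then ThL a r W b L else 0) := by
      intro r _ b hb
      have h0 := ThL_nonneg a r W b L
      have h1 : 0 ≤ ((SX a W b r K).card : ℝ) * ThL a r W b L / κ := by positivity
      by_cases hg : Q (r, b)
      · rw [if_pos hg]
        linarith
      · rw [if_neg hg]
        by_cases h2 : θ ≤ ThL a r W b L
        · have h3 : κ < ((SX a W b r K).card : ℝ) := by
            by_contra h4
            exact hg ⟨hb, h2, not_lt.1 h4⟩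
          have h4 : ThL a r W b L ≤ ((SX a W b r K).card : ℝ) * ThL a r W b L / κ := by
            rw [le_div_iff₀ hκ0, mul_comm]
            exact mul_le_mul_of_nonneg_right h3.le h0
          linarith
        · have := (not_le.1 h2).le
          linarith
    have hrow : ∀ r ∈ R, ∑ b ∈ BX a W r, ThL a r W b L ≤
        c₂ * E * gq r + (∑ b ∈ BX a W r, ((SX a W b r K).card : ℝ) * ThL a r W b L) / κ +
          ∑ b ∈ I, (if Q (r, b) then ThL a r W b L else 0) := by
      intro r hr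
      refine (sum_le_sum (hpt r hr)).trans ?_
      rw [sum_add_distrib, sum_add_distrib, sum_const, nsmul_eq_mul, ← sum_div]
      have h1 : ((BX a W r).card : ℝ) * θ ≤ c₂ * E * gq r := by
        have h2 := card_BX hCNT (IP.SEL.WW_sqf a.natAbs L) (cop_W a L)
          (mem_Icc.1 (hRK hr)).1
        refine (mul_le_mul_of_nonneg_right h2 hθ0.le).trans (le_of_eq ?_)
        rw [hθ]
        rw [← hWdef]
        field_simp
      have h2 : ∑ b ∈ BX a W r, (if Q (r, b) then ThL a r W b L else 0) ≤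
          ∑ b ∈ I, (if Q (r, b) then ThL a r W b L else 0) := by
        refine sum_le_sum_of_subset_of_nonneg ?_ fun b _ _ => ?_
        · intro b hb
          unfold BX at hb
          exact (mem_filter.1 hb).1
        · split_ifs
          · exact ThL_nonneg a r W b L
          · exact le_rfl
      linarith
    have htot := (hsum.trans (sum_le_sum hrow))
    rw [sum_add_distrib, sum_add_distrib, ← mul_sum, ← sum_div] at htot
    have h1 : ∑ r ∈ R, gq r ≤ C4 * (D * L) := by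
      calc ∑ r ∈ R, gq r ≤ ∑ r ∈ R, gq r ^ 4 := by
            refine sum_le_sum fun r hr => ?_
            exact le_self_pow₀ (one_le_gq (mem_Icc.1 (hRK hr)).1) (by norm_num)
        _ ≤ ∑ r ∈ Icc 1 K, gq r ^ 4 :=
            sum_le_sum_of_subset_of_nonneg hRK fun r _ _ => by positivity
        _ ≤ C4 * K := hG4 K
        _ ≤ C4 * (D * L) := mul_le_mul_of_nonneg_left hKD hC40.le
    have h2 : c₂ * E * ∑ r ∈ R, gq r ≤ c / 4 * (L * E) := by
      refine (mul_le_mul_of_nonneg_left h1 (by positivity)).trans (le_of_eq ?_)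
      rw [hc₂]
      field_simp
    have h3 : (∑ r ∈ R, ∑ b ∈ BX a W r, ((SX a W b r K).card : ℝ) * ThL a r W b L) / κ ≤
        c / 4 * (L * E) := by
      rw [div_le_iff₀ hκ0]
      refine hRS'.trans ?_
      have h4 : (K : ℝ) ^ 2 ≤ (D * L) ^ 2 := pow_le_pow_left₀ (Nat.cast_nonneg K) hKD 2
      have h5 : CR * (E * ((W.totient : ℝ) / W) * (K : ℝ) ^ 2) ≤
          CR * (E * ((W.totient : ℝ) / W) * (D * L) ^ 2) := by
        refine mul_le_mul_of_nonneg_left (mul_le_mul_of_nonneg_left h4 (by positivity)) hCR.le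
      refine h5.trans (le_of_eq ?_)
      rw [hκ, hC1]
      field_simp
    linarith

end

end Pool.Agent.FCT
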