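import Pool.Agent.FCT.St2
import Pool.Agent.FXD.Sgm

/-!
# Project FCT (MP_e1dc24_nt), module SGX: the map `σ`
-/

set_option autoImplicit false

namespace Pool.Agent.FCT

open Finset Pool.Agent.Lib_helper9.LG
open Pool.Agent.FXD (Bij prN eN rN rN_pos pow_eN)

theorem t_SGX : S_SGX := by
  intro a K N ha
  obtain ⟨m, hm⟩ : ∃ m : ℕ, m = a.natAbs := ⟨_, rfl⟩
  obtain ⟨τ, hτ⟩ : ∃ τ : ℕ → ℤ, τ = fun n : ℕ => (m : ℤ) * a * (n : ℤ) ^ eN N - K * m := ⟨_, rfl⟩
  obtain ⟨σ, hσ⟩ : ∃ σ : ℕ → ℕ, σ = fun n : ℕ => (τ n % (rN N : ℤ)).toNat := ⟨_, rfl⟩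
  have hR0 : (rN N : ℤ) ≠ 0 := by exact_mod_cast (rN_pos N).ne'
  have hσc : ∀ n, ((σ n : ℕ) : ℤ) = τ n % (rN N : ℤ) := by
    intro n
    rw [hσ]
    exact Int.toNat_of_nonneg (Int.emod_nonneg _ hR0)
  refine ⟨σ, fun l hl hlN hKl hla => ?_⟩
  have : Fact l.Prime := ⟨hl⟩
  have hlR : (l : ℤ) ∣ (rN N : ℤ) := by
    rw [Int.natCast_dvd_natCast]
    apply Finset.dvd_prod_of_mem (fun l => l)
    unfold prN
    rw [mem_filter, mem_Icc]
    exact ⟨⟨hl.one_lt.le, hlN⟩, hl⟩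
  have hz : ∀ n, ((σ n : ℕ) : ZMod l) = (τ n : ZMod l) := by
    intro n
    have h1 : ((σ n : ℤ) : ZMod l) = (τ n : ZMod l) := by
      rw [ZMod.intCast_eq_intCast_iff, hσc]
      exact (Int.mod_modEq _ _).of_dvd hlR
    rw [← h1]
    push_cast
    rfl
  have hzτ : ∀ n : ℕ, (τ n : ZMod l) = (m : ZMod l) * a * ((n : ZMod l))⁻¹ - K * m := by
    intro n
    rw [hτ]
    push_cast
    rw [pow_eN hl hlN]
  have ha0 : (a : ZMod l) ≠ 0 := by
    intro h1
    exact hla (Int.natCast_dvd.1 ((ZMod.intCast_zmod_eq_zero_iff_dvd a l).1 h1))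
  have hm0 : (m : ZMod l) ≠ 0 := by
    intro h1
    rw [hm] at h1
    exact hla ((ZMod.natCast_eq_zero_iff _ l).1 h1)
  refine ⟨⟨fun c => ?_, fun c c' h => ?_⟩, fun n j hj hjK => ?_⟩
  · rw [← ZMod.natCast_eq_natCast_iff, hz, hz, hzτ, hzτ]
    push_cast
    rw [ZMod.natCast_self, add_zero]
  · rw [← ZMod.natCast_eq_natCast_iff, hz, hz, hzτ, hzτ] at h
    rw [← ZMod.natCast_eq_natCast_iff]
    have h1 := sub_left_injective h
    have h2 : (m : ZMod l) * a ≠ 0 := mul_ne_zero hm0 ha0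
    have h3 := mul_left_cancel₀ h2 h1
    exact inv_injective h3
  · rw [← hm, ← ZMod.intCast_zmod_eq_zero_iff_dvd, ← ZMod.natCast_eq_zero_iff]
    push_cast
    rw [hz, hzτ]
    have e1 : (m : ZMod l) * a * (n : ZMod l)⁻¹ - K * m + j * m =
        (m : ZMod l) * (a * (n : ZMod l)⁻¹ + (j - K)) := by ring
    rw [e1]
    by_cases hn : (n : ZMod l) = 0
    · rw [hn, inv_zero, mul_zero, zero_add, mul_zero, add_zero]
      constructor
      · intro h1
        exfalso
        have h2 : (((j : ℤ) - K : ℤ) : ZMod l) = 0 := by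
          push_cast
          exact (mul_eq_zero.1 h1).resolve_left hm0
        have h3 := (ZMod.intCast_zmod_eq_zero_iff_dvd _ l).1 h2
        have h4 : (0 : ℤ) < |(j : ℤ) - K| := by
          rw [abs_pos]
          intro h5
          apply hjK
          omega
        have h5 := Int.le_of_dvd h4 ((dvd_abs _ _).2 h3)
        have h6 : |(j : ℤ) - K| ≤ K := abs_le.2 ⟨by omega, by omega⟩
        omega
      · intro h1
        exact absurd h1 ha0
    · constructor
      · intro h1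
        have h2 := (mul_eq_zero.1 h1).resolve_left hm0
        have h3 : ((a : ZMod l) * (n : ZMod l)⁻¹ + (j - K)) * n = a + (j - K) * n := by
          field_simp
        rw [← h3, h2, zero_mul]
      · intro h1
        have h3 : ((a : ZMod l) * (n : ZMod l)⁻¹ + (j - K)) = (a + (j - K) * n) * (n : ZMod l)⁻¹ := by
          field_simp
        rw [h3, h1, zero_mul, mul_zero]

end Pool.Agent.FCT
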