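import Pool.Agent.FCT.Asm1
import Pool.Agent.FCT.St2
import Pool.Agent.FCT.SGX
import Pool.Agent.FCT.MOFX
import Pool.Agent.FCT.EDPX
import Pool.Agent.FCT.LEVX
import Pool.Agent.FCT.HITX
import Pool.Agent.FCT.INTX
import Pool.Agent.FCT.LPX
import Pool.Agent.FCT.EDQX
import Pool.Agent.FCT.BTX
import Pool.Agent.FCT.CNTX
import Pool.Agent.FCT.G4X
import Pool.Agent.FCT.RSX
import Pool.Agent.FCT.PSX
import Pool.Agent.FCT.SELX
import Pool.Agent.FCT.FNAX
import Pool.Agent.FCT.FNBX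
import Pool.Agent.IP.BLH
import Pool.Agent.IP.CRL
import Pool.Agent.IP.CRU
import Pool.Agent.IP.KVH
import Pool.Agent.IP.PAR
import Pool.Agent.IP.VSH
import Pool.Agent.IPP.Asm
import Pool.Agent.IPP.GLEV

set_option autoImplicit false

/-!
# FCT, parts II and III: assembly (helper82)
-/

namespace Pool.Agent.FCT

open Pool.Agent.IPP

/-- The engine. -/
theorem engX : EngX :=
  t_EDQX (t_LPX lev avg stmtLP (glev lev) t_LEVX t_HITX t_INTX) IP.t_CRL IP.t_CRU
    t_MOFX t_EDPX IP.t_BLH IP.t_VSH IP.t_KVH IP.t_PAR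

/-- Many good pairs. -/
theorem selX : SelX :=
  t_SELX (t_PSX ap) t_CNTX t_G4X (t_RSX t_BTX t_CNTX t_G4X)

/-- Exactly one prime of a fixed class in every window, for a positive proportion of all moduli. -/
theorem finX : FinX :=
  t_FNBX t_SGX IP.t_KVH engX selX t_FNAX

end Pool.Agent.FCT
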