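import Pool.Agent.FCT.St3
import Pool.Agent.IP.EDQ

/-!
# FCT, module RSUX: the number of surviving sites for one `r`, weighted with the primes (helper95)
-/

set_option autoImplicit false

namespace Pool.Agent.FCT

open Finset Pool.Agent.Lib_helper9.LG

noncomputable section

namespace RSUX

lemma sqf_prod (s : Finset ℕ) (h : ∀ p ∈ s, p.Prime) : Squarefree (∏ p ∈ s, p) := by
  induction s using Finset.induction_on with
  | empty => simp
  | insert a s ha ih =>
    rw [prod_insert ha, Nat.squarefree_mul_iff]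
    have hp := h a (mem_insert_self a s)
    refine ⟨Nat.Coprime.prod_right fun p hps => ?_, hp.squarefree, ih fun _ hps =>
      h _ (mem_insert_of_mem hps)⟩
    refine (Nat.coprime_primes hp (h p (mem_insert_of_mem hps))).2 ?_
    rintro rfl
    exact ha hps

lemma WW_sqf (m : ℕ) (L : ℝ) : Squarefree (WW m L) := by
  unfold WW
  exact sqf_prod _ fun p hp => (mem_filter.1 hp).2.1

lemma gq_nonneg (n : ℕ) : 0 ≤ gq n := div_nonneg (Nat.cast_nonneg _) (Nat.cast_nonneg _)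

lemma ThL_nonneg (a : ℤ) (r W b : ℕ) (L : ℝ) : 0 ≤ ThL a r W b L :=
  sum_nonneg fun _ _ => Real.log_natCast_nonneg _

/-- the classes modulo `W` -/
lemma count (a : ℤ) (W r : ℕ) (k : ℤ) :
    ((BX a W r).filter (fun b : ℕ => IsCoprime (a + k * (b : ℤ)) (W : ℤ))).card ≤
      ((range W).filter (fun b : ℕ => IsCoprime (a + (r : ℤ) * (b : ℤ)) (W : ℤ) ∧
        IsCoprime (a + k * (b : ℤ)) (W : ℤ))).card := by
  have key : ∀ (b : ℕ) (c : ℤ), W * (2 * a.natAbs + 1) ≤ b →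
      IsCoprime (a + c * (b : ℤ)) (W : ℤ) →
      IsCoprime (a + c * ((b - W * (2 * a.natAbs + 1) : ℕ) : ℤ)) (W : ℤ) := by
    intro b c hb h
    have e : a + c * ((b - W * (2 * a.natAbs + 1) : ℕ) : ℤ) =
        a + c * (b : ℤ) + (W : ℤ) * (-(c * (2 * (a.natAbs : ℤ) + 1))) := by
      rw [Nat.cast_sub hb]
      push_cast
      ring
    rw [e]
    exact IsCoprime.add_mul_left_left_iff.2 h
  refine card_le_card_of_injOn (fun b : ℕ => b - W * (2 * a.natAbs + 1)) ?_ ?_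
  · intro b hb
    have hb' := mem_filter.1 (mem_coe.1 hb)
    have hb1 := mem_filter.1 hb'.1
    have hb2 := mem_Ico.1 hb1.1
    refine mem_coe.2 (mem_filter.2 ⟨mem_range.2 ?_, key b r hb2.1 hb1.2, key b k hb2.1 hb'.2⟩)
    have e : W * (2 * a.natAbs + 2) = W * (2 * a.natAbs + 1) + W := by ring
    have := hb2.2
    dsimp only
    omega
  · intro b hb c hc h
    have hb2 := mem_Ico.1 (mem_filter.1 (mem_filter.1 (mem_coe.1 hb)).1).1
    have hc2 := mem_Ico.1 (mem_filter.1 (mem_filter.1 (mem_coe.1 hc)).1).1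
    dsimp only at h
    omega

/-- the sites -/
def JJ (a : ℤ) (r K : ℕ) : Finset ℕ :=
  (range (2 * K + 1)).filter (fun j => j ≠ K ∧ j ≠ K + r ∧ IsCoprime ((j : ℤ) - K) a)

lemma SU_eq (a : ℤ) (W b r K : ℕ) : SU a W b r K =
    (JJ a r K).filter (fun j : ℕ => IsCoprime (a + ((j : ℤ) - K) * (b : ℤ)) (W : ℤ)) := by
  ext j
  simp only [SU, JJ, mem_filter, and_assoc]

lemma swap (a : ℤ) (W r K : ℕ) : ∑ b ∈ BX a W r, ((SU a W b r K).card : ℝ) =
    ∑ j ∈ JJ a r K, (((BX a W r).filter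
      (fun b : ℕ => IsCoprime (a + ((j : ℤ) - K) * (b : ℤ)) (W : ℤ))).card : ℝ) := by
  simp only [SU_eq, card_filter, Nat.cast_sum]
  rw [sum_comm]

lemma sumJ (f : ℤ → ℝ) (hf : ∀ k, 0 ≤ f k) (T : Finset ℤ) (J : Finset ℕ) (K : ℕ)
    (h : ∀ j ∈ J, (j : ℤ) - K ∈ T) : ∑ j ∈ J, f ((j : ℤ) - K) ≤ ∑ k ∈ T, f k := by
  have e : ∑ j ∈ J, f ((j : ℤ) - K) = ∑ k ∈ J.image (fun j : ℕ => (j : ℤ) - K), f k := by
    rw [sum_image]
    intro x _ y _ hxy
    dsimp only at hxy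
    omega
  rw [e]
  refine sum_le_sum_of_subset_of_nonneg ?_ fun k _ _ => hf k
  intro k hk
  obtain ⟨j, hj, rfl⟩ := mem_image.1 hk
  exact h j hj

end RSUX

open RSUX in
theorem t_RSUX : S_RSUX := by
  intro hBT hCN hGS
  obtain ⟨C1, hC1, hBT⟩ := hBT
  obtain ⟨C2, hC2, hGS⟩ := hGS
  refine ⟨4 * C1 * C2, by positivity, fun a ha => ?_⟩
  obtain ⟨L1, hL1⟩ := hBT a ha
  set m : ℕ := a.natAbs with hm
  have hm1 : 1 ≤ m := Int.natAbs_pos.2 ha
  obtain ⟨D₀, hD₀, hG⟩ := hGS m hm1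
  set ρ : ℝ := (m.totient : ℝ) / m with hρ
  have hρ0 : 0 < ρ := by
    have h1 : 0 < m.totient := Nat.totient_pos.2 hm1
    have h2 : (0 : ℝ) < (m : ℝ) := by exact_mod_cast hm1
    have h3 : (0 : ℝ) < (m.totient : ℝ) := by exact_mod_cast h1
    exact div_pos h3 h2
  refine ⟨max L1 (max 256 (max (8 * (2 * (m : ℝ) + 2)) ((2 * D₀ / (C2 * ρ)) ^ 2 + 1))), ?_⟩
  intro L hL K r hLK hKL hr hrK har
  have hLL1 : L1 ≤ L := (le_max_left _ _).trans hL
  have hL256 : 256 ≤ L := ((le_max_left _ _).trans (le_max_right _ _)).trans hL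
  have hLm : 8 * (2 * (m : ℝ) + 2) ≤ L :=
    (((le_max_left _ _).trans (le_max_right _ _)).trans (le_max_right _ _)).trans hL
  have hLD : (2 * D₀ / (C2 * ρ)) ^ 2 + 1 ≤ L :=
    (((le_max_right _ _).trans (le_max_right _ _)).trans (le_max_right _ _)).trans hL
  have hC2' : 0 < C2 := lt_of_lt_of_le one_pos hC2
  set W : ℕ := WW m L with hW
  have hW1 : 1 ≤ W := THDd.WW_pos m L
  have hWR : (0 : ℝ) < (W : ℝ) := by exact_mod_cast hW1
  have hWt : (0 : ℝ) < (W.totient : ℝ) := by exact_mod_cast Nat.totient_pos.2 hW1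
  have hrt : (0 : ℝ) < (r.totient : ℝ) := by exact_mod_cast Nat.totient_pos.2 hr
  have hWL : (W : ℝ) ≤ Real.exp (2 * Real.sqrt L) := IP.EDQ.W_le (by linarith)
  have hsq : Real.sqrt L ≤ L / 16 := by
    rw [Real.sqrt_le_left (by linarith)]
    have h1 := mul_le_mul_of_nonneg_left hL256 (by linarith : (0 : ℝ) ≤ L)
    calc L = L * 256 / 256 := by ring
      _ ≤ L * L / 256 := by linarith
      _ = (L / 16) ^ 2 := by ring
  -- the progression
  have hP : ∀ b ∈ BX a W r, Prog a W b r L := by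
    intro b hb
    have hb1 := mem_filter.1 hb
    have hb2 := mem_Ico.1 hb1.1
    refine ⟨hW1, hWL, ?_, ?_, hb1.2, har, hr, ?_⟩
    · exact (Nat.le_mul_of_pos_left _ hW1).trans hb2.1
    · have h1 : (b : ℝ) ≤ (W : ℝ) * (2 * (m : ℝ) + 2) := by exact_mod_cast hb2.2.le
      have h2 : 2 * (m : ℝ) + 2 ≤ Real.exp (L / 8) := by
        have := Real.add_one_le_exp (L / 8)
        linarith
      calc (b : ℝ) ≤ (W : ℝ) * (2 * (m : ℝ) + 2) := h1
        _ ≤ Real.exp (2 * Real.sqrt L) * Real.exp (L / 8) :=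
          mul_le_mul hWL h2 (by positivity) (Real.exp_pos _).le
        _ = Real.exp (2 * Real.sqrt L + L / 8) := (Real.exp_add _ _).symm
        _ ≤ Real.exp (L / 4) := Real.exp_le_exp.2 (by linarith)
    · exact le_trans (by exact_mod_cast hrK) hKL
  -- Brun-Titchmarsh
  have hTh : ∀ b ∈ BX a W r, ThL a r W b L ≤ C1 * (gq r * (Real.exp L / W.totient)) := by
    intro b hb
    have h1 := hL1 L hLL1 W b r (hP b hb)
    have h2 : ((r.totient : ℝ) * W.totient) ≤ ((r * W).totient : ℝ) := by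
      exact_mod_cast Nat.totient_super_multiplicative r W
    have h3 : ThL a r W b L * ((r.totient : ℝ) * W.totient) ≤ C1 * (r * Real.exp L) :=
      (mul_le_mul_of_nonneg_left h2 (ThL_nonneg a r W b L)).trans h1
    rw [← le_div_iff₀ (by positivity)] at h3
    refine h3.trans (le_of_eq ?_)
    unfold gq
    field_simp
  -- the sites
  have hsites : ∀ j ∈ JJ a r K, (((BX a W r).filter
      (fun b : ℕ => IsCoprime (a + ((j : ℤ) - K) * (b : ℤ)) (W : ℤ))).card : ℝ) ≤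
      (W.totient : ℝ) ^ 2 / W * gq r * (gq ((j : ℤ) - K).natAbs * gq ((j : ℤ) - K - r).natAbs) := by
    intro j hj
    have hj1 := mem_filter.1 hj
    have h1 := (hCN a W r (WW_sqf m L) ?_ (by omega)).2 ((j : ℤ) - K) (by omega) (by omega)
    · have h2 : (((BX a W r).filter
          (fun b : ℕ => IsCoprime (a + ((j : ℤ) - K) * (b : ℤ)) (W : ℤ))).card : ℝ) ≤
          (((range W).filter (fun b : ℕ => IsCoprime (a + (r : ℤ) * (b : ℤ)) (W : ℤ) ∧
            IsCoprime (a + ((j : ℤ) - K) * (b : ℤ)) (W : ℤ))).card : ℝ) := by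
        exact_mod_cast count a W r ((j : ℤ) - K)
      refine h2.trans ?_
      rw [← le_div_iff₀ hWR] at h1
      refine h1.trans (le_of_eq ?_)
      ring
    · refine Int.isCoprime_iff_gcd_eq_one.2 ?_
      show Nat.gcd a.natAbs (W : ℤ).natAbs = 1
      rw [Int.natAbs_natCast]
      exact (THDd.WW_coprime m L).symm
  have hI : ∀ s : ℤ, 0 ≤ s → s ≤ K → (∀ j ∈ JJ a r K, (j : ℤ) - K ≠ s) →
      ∑ j ∈ JJ a r K, gq ((j : ℤ) - K - s).natAbs ^ 2 ≤ 4 * C2 * (ρ * K) := by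
    intro s hs0 hsK hs
    have h1 := hG (-(K : ℤ) - 1) K s (by omega)
    have h2 : ∑ j ∈ JJ a r K, gq ((j : ℤ) - K - s).natAbs ^ 2 ≤
        ∑ k ∈ (Ioc (-(K : ℤ) - 1) K).filter (fun k => IsCoprime k (m : ℤ) ∧ k ≠ s),
          gq (k - s).natAbs ^ 2 := by
      refine sumJ (fun k => gq (k - s).natAbs ^ 2) (fun k => sq_nonneg _) _ _ K ?_
      intro j hj
      have hj1 := mem_filter.1 hj
      have hj2 := mem_range.1 hj1.1
      refine mem_filter.2 ⟨mem_Ioc.2 ⟨by omega, by omega⟩, ?_, hs j hj⟩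
      have h3 := Int.isCoprime_iff_gcd_eq_one.1 hj1.2.2.2
      refine Int.isCoprime_iff_gcd_eq_one.2 ?_
      show Nat.gcd ((j : ℤ) - K).natAbs (m : ℤ).natAbs = 1
      rw [Int.natAbs_natCast]
      exact h3
    refine (h2.trans h1).trans ?_
    have hK1 : (1 : ℝ) ≤ (K : ℝ) := by linarith
    have hsR0 : (0 : ℝ) ≤ (s : ℝ) := by exact_mod_cast hs0
    have hsRK : (s : ℝ) ≤ (K : ℝ) := by exact_mod_cast hsK
    have e1 : |(((-(K : ℤ) - 1 : ℤ)) : ℝ) - s| + |(((K : ℤ)) : ℝ) - s| + 1 = 2 * (K : ℝ) + 2 := by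
      push_cast
      rw [abs_of_nonpos (by linarith), abs_of_nonneg (by linarith)]
      ring
    rw [e1]
    have e2 : (((K : ℤ)) : ℝ) - ((-(K : ℤ) - 1 : ℤ) : ℝ) = 2 * (K : ℝ) + 1 := by
      push_cast
      ring
    rw [e2]
    have h5 : D₀ * Real.sqrt (2 * (K : ℝ) + 2) ≤ C2 * (ρ * K) := by
      have hq : Real.sqrt (2 * (K : ℝ) + 2) ≤ 2 * Real.sqrt K := by
        rw [show (2 : ℝ) * Real.sqrt K = Real.sqrt (4 * K) by
          rw [Real.sqrt_mul (by norm_num), show (4 : ℝ) = 2 ^ 2 by norm_num,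
            Real.sqrt_sq (by norm_num)]]
        exact Real.sqrt_le_sqrt (by linarith)
      have h6 : 2 * D₀ / (C2 * ρ) ≤ Real.sqrt K := by
        refine Real.le_sqrt_of_sq_le ?_
        linarith
      rw [div_le_iff₀ (by positivity)] at h6
      have h7 : Real.sqrt K * Real.sqrt K = K := Real.mul_self_sqrt (by positivity)
      calc D₀ * Real.sqrt (2 * (K : ℝ) + 2) ≤ D₀ * (2 * Real.sqrt K) :=
            mul_le_mul_of_nonneg_left hq hD₀
        _ = (2 * D₀) * Real.sqrt K := by ring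
        _ ≤ (Real.sqrt K * (C2 * ρ)) * Real.sqrt K :=
            mul_le_mul_of_nonneg_right h6 (Real.sqrt_nonneg _)
        _ = C2 * (ρ * (Real.sqrt K * Real.sqrt K)) := by ring
        _ = C2 * (ρ * K) := by rw [h7]
    have h8 : C2 * (ρ * (2 * (K : ℝ) + 1)) ≤ 3 * (C2 * (ρ * K)) := by
      have h9 : 0 ≤ C2 * ρ := by positivity
      have h10 := mul_le_mul_of_nonneg_left (by linarith : 2 * (K : ℝ) + 1 ≤ 3 * K) h9
      calc C2 * (ρ * (2 * (K : ℝ) + 1)) = C2 * ρ * (2 * (K : ℝ) + 1) := by ring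
        _ ≤ C2 * ρ * (3 * K) := h10
        _ = 3 * (C2 * (ρ * K)) := by ring
    linarith
  have hS : ∑ j ∈ JJ a r K, gq ((j : ℤ) - K).natAbs * gq ((j : ℤ) - K - r).natAbs ≤
      4 * C2 * (ρ * K) := by
    have h0 := hI 0 le_rfl (by positivity) (fun j hj => by
      have hj1 := mem_filter.1 hj
      omega)
    have h1 := hI r (by positivity) (by exact_mod_cast hrK) (fun j hj => by
      have hj1 := mem_filter.1 hj
      omega)
    simp only [sub_zero] at h0
    have h2 : ∑ j ∈ JJ a r K, gq ((j : ℤ) - K).natAbs * gq ((j : ℤ) - K - r).natAbs ≤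
        ∑ j ∈ JJ a r K, (1 / 2 * gq ((j : ℤ) - K).natAbs ^ 2 +
          1 / 2 * gq ((j : ℤ) - K - r).natAbs ^ 2) := by
      refine sum_le_sum fun j _ => ?_
      have h3 := two_mul_le_add_sq (gq ((j : ℤ) - K).natAbs) (gq ((j : ℤ) - K - r).natAbs)
      linarith
    rw [sum_add_distrib, ← mul_sum, ← mul_sum] at h2
    linarith
  set U : ℝ := C1 * (gq r * (Real.exp L / W.totient)) with hU
  have hU0 : 0 ≤ U := by
    have := gq_nonneg r
    positivity
  calc ∑ b ∈ BX a W r, ((SU a W b r K).card : ℝ) * ThL a r W b L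
      ≤ ∑ b ∈ BX a W r, ((SU a W b r K).card : ℝ) * U :=
        sum_le_sum fun b hb => mul_le_mul_of_nonneg_left (hTh b hb) (Nat.cast_nonneg _)
    _ = (∑ j ∈ JJ a r K, (((BX a W r).filter
        (fun b : ℕ => IsCoprime (a + ((j : ℤ) - K) * (b : ℤ)) (W : ℤ))).card : ℝ)) * U := by
        rw [← sum_mul, swap]
    _ ≤ (∑ j ∈ JJ a r K, (W.totient : ℝ) ^ 2 / W * gq r *
        (gq ((j : ℤ) - K).natAbs * gq ((j : ℤ) - K - r).natAbs)) * U :=
        mul_le_mul_of_nonneg_right (sum_le_sum hsites) hU0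
    _ = (W.totient : ℝ) ^ 2 / W * gq r * U *
        ∑ j ∈ JJ a r K, (gq ((j : ℤ) - K).natAbs * gq ((j : ℤ) - K - r).natAbs) := by
        rw [← mul_sum]
        ring
    _ ≤ (W.totient : ℝ) ^ 2 / W * gq r * U * (4 * C2 * (ρ * K)) := by
        refine mul_le_mul_of_nonneg_left hS ?_
        have := gq_nonneg r
        positivity
    _ = 4 * C1 * C2 * (Real.exp L * ((W.totient : ℝ) / W) * (ρ * K) * gq r ^ 2) := by
        rw [hU]
        field_simp

end

end Pool.Agent.FCT
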