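import Pool.Agent.FCT.St3
import Pool.Agent.FCT.SELX

set_option autoImplicit false

/-!
FCT, part IV: SLUX, good pairs of large total weight, uniform (helper90).
-/

namespace Pool.Agent.FCT

open Finset Pool.Agent.Lib_helper9.LG
open Pool.Agent.FXD (Bij)

noncomputable section

namespace SLUX

lemma phi_pos {m : ℕ} (hm : 1 ≤ m) : (0 : ℝ) < (m.totient : ℝ) / m := by
  have h1 : (0 : ℝ) < m := by exact_mod_cast hm
  have h2 : (0 : ℝ) < m.totient := by exact_mod_cast Nat.totient_pos.2 hm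
  exact div_pos h2 h1

lemma log_le_quarter {L : ℝ} (hL : 64 ≤ L) : 4 * Real.log L ≤ L := by
  have h0 : 0 < L := by linarith
  have h1 : Real.log L = 2 * Real.log (Real.sqrt L) := by
    rw [Real.log_sqrt h0.le]
    ring
  have h2 : Real.log (Real.sqrt L) ≤ Real.sqrt L - 1 :=
    Real.log_le_sub_one_of_pos (Real.sqrt_pos.2 h0)
  have h3 : (8 : ℝ) ≤ Real.sqrt L := by
    rw [Real.le_sqrt (by norm_num) h0.le]
    linarith
  have h4 : Real.sqrt L * Real.sqrt L = L := Real.mul_self_sqrt h0.le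
  nlinarith

/-- `p + D sqrt (3 y) ≤ 2 A y` for large `y`. -/
lemma main_ineq {p D A y : ℝ} (hA : 0 < A) (hD : 0 ≤ D) (hy : 0 ≤ y) (h1 : p ≤ A * y)
    (h2 : 3 * D ^ 2 ≤ A ^ 2 * y) : p + D * Real.sqrt (3 * y) ≤ 2 * (A * y) := by
  have h3 : D * Real.sqrt (3 * y) ≤ A * y := by
    refine le_of_sq_le_sq ?_ (by positivity)
    rw [mul_pow, Real.sq_sqrt (by positivity)]
    calc D ^ 2 * (3 * y) = (3 * D ^ 2) * y := by ring
      _ ≤ (A ^ 2 * y) * y := mul_le_mul_of_nonneg_right h2 hy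
      _ = (A * y) ^ 2 := by ring
  linarith

/-- The sum of the squares over `R`. -/
lemma sum_sq {C D₀ : ℝ} {m : ℕ} (hC : 1 ≤ C) (hm : 1 ≤ m) (hD : 0 ≤ D₀)
    (hG : ∀ X Y s : ℤ, X ≤ Y →
      ∑ k ∈ (Ioc X Y).filter (fun k => IsCoprime k (m : ℤ) ∧ k ≠ s), gq (k - s).natAbs ^ 2 ≤
      C * (((m.totient : ℝ) / m) * ((Y : ℝ) - X)) +
        D₀ * Real.sqrt (|(X : ℝ) - s| + |(Y : ℝ) - s| + 1))
    {ε L u v : ℝ} (hε : 0 < ε) (hL0 : 0 < L) (hu : 0 ≤ u) (huv : u ≤ (1 - ε) * v) (hv : ε ≤ v)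
    (hL1 : 1 ≤ ε * L) (hL2 : 2 ≤ ε * (ε * L))
    (hL3 : 3 * D₀ ^ 2 ≤ (C * ((m.totient : ℝ) / m) * ε / 2) ^ 2 * (ε * L))
    (R : Finset ℕ) (hR : ∀ r ∈ R, u * L < (r : ℝ) ∧ (r : ℝ) ≤ v * L ∧ IsCoprime (r : ℤ) (m : ℤ)) :
    ∑ r ∈ R, gq r ^ 2 ≤ 2 * C * (((m.totient : ℝ) / m) * ((v - u) * L)) := by
  obtain ⟨f, hf⟩ : ∃ f : ℝ, f = (m.totient : ℝ) / m := ⟨_, rfl⟩
  have hf0 : 0 < f := by rw [hf]; exact phi_pos hm
  rw [← hf] at hG hL3 ⊢
  have hv0 : 0 < v := hε.trans_le hv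
  have hyL : ε * L ≤ v * L := mul_le_mul_of_nonneg_right hv hL0.le
  have hy1 : 1 ≤ v * L := hL1.trans hyL
  have hy0 : 0 < v * L := by positivity
  have huv' : u * L ≤ v * L := by
    refine mul_le_mul_of_nonneg_right ?_ hL0.le
    nlinarith
  have hX : ⌊u * L⌋ ≤ ⌊v * L⌋ := Int.floor_le_floor huv'
  have h1 := hG ⌊u * L⌋ ⌊v * L⌋ 0 hX
  have h2 : ∑ r ∈ R, gq r ^ 2 ≤
      ∑ k ∈ (Ioc ⌊u * L⌋ ⌊v * L⌋).filter (fun k => IsCoprime k (m : ℤ) ∧ k ≠ 0),
        gq (k - 0).natAbs ^ 2 := by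
    have h3 : ∑ r ∈ R, gq r ^ 2 =
        ∑ k ∈ R.map Nat.castEmbedding, gq ((k : ℤ) - 0).natAbs ^ 2 := by
      rw [sum_map]
      refine sum_congr rfl fun r _ => ?_
      simp
    rw [h3]
    refine sum_le_sum_of_subset_of_nonneg ?_ fun k _ _ => sq_nonneg _
    intro k hk
    obtain ⟨r, hr, rfl⟩ := mem_map.1 hk
    obtain ⟨a1, a2, a3⟩ := hR r hr
    have a4 : (0 : ℝ) < r := lt_of_le_of_lt (by positivity) a1
    have a5 : r ≠ 0 := by
      rintro rfl
      simp at a4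
    rw [mem_filter, mem_Ioc]
    refine ⟨⟨?_, ?_⟩, ?_, ?_⟩
    · rw [Int.floor_lt]
      simpa using a1
    · rw [Int.le_floor]
      simpa using a2
    · simpa using a3
    · simpa using a5
  have h4 : ((⌊v * L⌋ : ℤ) : ℝ) ≤ v * L := Int.floor_le _
  have h5 : u * L < ((⌊u * L⌋ : ℤ) : ℝ) + 1 := Int.lt_floor_add_one _
  have h6 : (0 : ℝ) ≤ ((⌊u * L⌋ : ℤ) : ℝ) := by
    have : (0 : ℤ) ≤ ⌊u * L⌋ := Int.floor_nonneg.2 (by positivity)
    exact_mod_cast this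
  have h7 : ((⌊u * L⌋ : ℤ) : ℝ) ≤ ((⌊v * L⌋ : ℤ) : ℝ) := by exact_mod_cast hX
  have h8 : |((⌊u * L⌋ : ℤ) : ℝ) - ((0 : ℤ) : ℝ)| + |((⌊v * L⌋ : ℤ) : ℝ) - ((0 : ℤ) : ℝ)| + 1 ≤
      3 * (v * L) := by
    rw [Int.cast_zero, sub_zero, sub_zero, abs_of_nonneg h6, abs_of_nonneg (h6.trans h7)]
    linarith
  have h9 : D₀ * Real.sqrt (|((⌊u * L⌋ : ℤ) : ℝ) - ((0 : ℤ) : ℝ)| +
      |((⌊v * L⌋ : ℤ) : ℝ) - ((0 : ℤ) : ℝ)| + 1) ≤ D₀ * Real.sqrt (3 * (v * L)) :=
    mul_le_mul_of_nonneg_left (Real.sqrt_le_sqrt h8) hD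
  have h10 : C * (f * (((⌊v * L⌋ : ℤ) : ℝ) - ((⌊u * L⌋ : ℤ) : ℝ))) ≤
      C * (f * ((v - u) * L)) + C * f := by
    have : C * (f * (((⌊v * L⌋ : ℤ) : ℝ) - ((⌊u * L⌋ : ℤ) : ℝ))) ≤
        C * (f * ((v - u) * L + 1)) := by
      refine mul_le_mul_of_nonneg_left (mul_le_mul_of_nonneg_left ?_ hf0.le) (by linarith)
      linarith
    linarith
  have hA : 0 < C * f * ε / 2 := by positivity
  have h11 := main_ineq (p := C * f) (D := D₀) (A := C * f * ε / 2) (y := v * L) hA hD hy0.le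
    (by
      have : C * f * 1 ≤ C * f * (ε * (v * L) / 2) := by
        refine mul_le_mul_of_nonneg_left ?_ (by positivity)
        have : ε * (ε * L) ≤ ε * (v * L) := mul_le_mul_of_nonneg_left hyL hε.le
        linarith
      linarith)
    (hL3.trans (mul_le_mul_of_nonneg_left hyL (by positivity)))
  have h12 : 2 * (C * f * ε / 2 * (v * L)) ≤ C * (f * ((v - u) * L)) := by
    have : ε * v * L ≤ (v - u) * L := by
      refine mul_le_mul_of_nonneg_right ?_ hL0.le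
      linarith
    have : C * f * (ε * v * L) ≤ C * f * ((v - u) * L) :=
      mul_le_mul_of_nonneg_left this (by positivity)
    linarith
  linarith

end SLUX

open SELX SLUX in
theorem t_SLUX : S_SLUX := by
  classical
  intro hPS hCNT hGS hRS
  obtain ⟨c, hc, hPS⟩ := hPS
  obtain ⟨CG, hCG, hGS⟩ := hGS
  obtain ⟨CR, hCR, hRS⟩ := hRS
  have hCG0 : 0 < CG := by linarith
  obtain ⟨c₂, hc₂⟩ : ∃ c₂ : ℝ, c₂ = c / (8 * CG) := ⟨_, rfl⟩
  obtain ⟨C1, hC1⟩ : ∃ C1 : ℝ, C1 = 32 * CR * CG / c := ⟨_, rfl⟩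
  have hc₂0 : 0 < c₂ := by rw [hc₂]; positivity
  have hC10 : 0 < C1 := by rw [hC1]; positivity
  refine ⟨c / 2, c₂, C1, by positivity, hc₂0, hC10, fun a ε ha hε => ?_⟩
  obtain ⟨L1, hPS⟩ := hPS a ε ha hε
  obtain ⟨L2, hRS⟩ := hRS a ha
  obtain ⟨m, hm⟩ : ∃ m : ℕ, m = a.natAbs := ⟨_, rfl⟩
  have hm1 : 1 ≤ m := by
    rw [hm]
    exact Int.natAbs_pos.2 ha
  obtain ⟨D₀, hD₀, hGS⟩ := hGS m hm1
  rw [← hm] at hPS hRS ⊢
  obtain ⟨f, hf⟩ : ∃ f : ℝ, f = (m.totient : ℝ) / m := ⟨_, rfl⟩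
  have hf0 : 0 < f := by rw [hf]; exact phi_pos hm1
  obtain ⟨A, hA⟩ : ∃ A : ℝ, A = (CG * f * ε / 2) ^ 2 := ⟨_, rfl⟩
  have hA0 : 0 < A := by rw [hA]; positivity
  refine ⟨max (max L1 L2) (max 64 (max (1 / ε) (max (2 / (ε * ε)) (3 * D₀ ^ 2 / (A * ε))))),
    fun L hL u v t hu huv hv hvt ht1 htL => ?_⟩
  have hL1 : L1 ≤ L := (le_max_left _ _).trans ((le_max_left _ _).trans hL)
  have hL2 : L2 ≤ L := (le_max_right _ _).trans ((le_max_left _ _).trans hL)
  have hL3 : max 64 (max (1 / ε) (max (2 / (ε * ε)) (3 * D₀ ^ 2 / (A * ε)))) ≤ L :=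
    (le_max_right _ _).trans hL
  have hL64 : 64 ≤ L := (le_max_left _ _).trans hL3
  have hL4 : max (1 / ε) (max (2 / (ε * ε)) (3 * D₀ ^ 2 / (A * ε))) ≤ L :=
    (le_max_right _ _).trans hL3
  have hLa : 1 ≤ ε * L := by
    have := (le_max_left _ _).trans hL4
    rw [div_le_iff₀ hε] at this
    linarith
  have hL5 : max (2 / (ε * ε)) (3 * D₀ ^ 2 / (A * ε)) ≤ L := (le_max_right _ _).trans hL4
  have hLb : 2 ≤ ε * (ε * L) := by
    have := (le_max_left _ _).trans hL5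
    rw [div_le_iff₀ (by positivity)] at this
    linarith
  have hLc : 3 * D₀ ^ 2 ≤ A * (ε * L) := by
    have := (le_max_right _ _).trans hL5
    rw [div_le_iff₀ (by positivity)] at this
    linarith
  have hL0 : 0 < L := by linarith
  have hLge1 : 1 ≤ L := by linarith
  have ht0 : 0 < t := by linarith
  have hv0 : 0 < v := hε.trans_le hv
  have hvL : v ≤ Real.log L := hvt.trans htL
  obtain ⟨R, hR, hsum⟩ := hPS L hL1 u v hu huv hv hvL
  set W : ℕ := WW m L with hWdef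
  set K : ℕ := ⌊t * (L + 1)⌋₊ + 1 with hK
  have hW1 : 1 ≤ W := IP.SEL.WW_pos _ L
  have hW0 : (0 : ℝ) < W := by exact_mod_cast hW1
  have hφ : (0 : ℝ) < W.totient := by exact_mod_cast Nat.totient_pos.2 hW1
  have htL1 : 1 ≤ t * L := by nlinarith
  have hKD : (K : ℝ) ≤ 4 * (t * L) := by
    have h1 : (⌊t * (L + 1)⌋₊ : ℝ) ≤ t * (L + 1) := Nat.floor_le (by positivity)
    rw [hK]
    push_cast
    have h2 : t * 1 ≤ t * L := mul_le_mul_of_nonneg_left hLge1 ht0.le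
    nlinarith
  have hKge : L ≤ (K : ℝ) := by
    have h1 : t * (L + 1) < (⌊t * (L + 1)⌋₊ : ℝ) + 1 := Nat.lt_floor_add_one _
    rw [hK]
    push_cast
    nlinarith
  have hKL : (K : ℝ) ≤ L ^ 2 := by
    refine hKD.trans ?_
    have h1 := log_le_quarter hL64
    have h2 : 4 * t ≤ L := by linarith
    calc 4 * (t * L) = (4 * t) * L := by ring
      _ ≤ L * L := mul_le_mul_of_nonneg_right h2 hL0.le
      _ = L ^ 2 := by ring
  have hRK : ∀ r ∈ R, 1 ≤ r ∧ r ≤ K := by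
    intro r hr
    obtain ⟨h1, h2, -⟩ := hR r hr
    constructor
    · have h3 : (0 : ℝ) < r := lt_of_le_of_lt (by positivity) h1
      exact_mod_cast h3
    · have h3 : (r : ℝ) ≤ t * (L + 1) := by
        refine h2.trans ?_
        have h4 : v * L ≤ t * L := mul_le_mul_of_nonneg_right hvt hL0.le
        nlinarith
      have h4 : r ≤ ⌊t * (L + 1)⌋₊ := Nat.le_floor h3
      omega
  have hRS' := fun r hr => hRS L hL2 K r hKge hKL (hRK r hr).1 (hRK r hr).2 (hR r hr).2.2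
  have hsq : ∑ r ∈ R, gq r ^ 2 ≤ 2 * CG * (f * ((v - u) * L)) := by
    rw [hf]
    refine sum_sq hCG hm1 hD₀ hGS hε hL0 hu huv hv hLa hLb ?_ R fun r hr => ?_
    · rw [← hf, ← hA]
      exact hLc
    · refine ⟨(hR r hr).1, (hR r hr).2.1, ?_⟩
      have h1 := (hR r hr).2.2
      rw [Int.isCoprime_iff_gcd_eq_one] at h1 ⊢
      have h2 : Nat.gcd a.natAbs r = 1 := h1
      rw [← hm] at h2
      have h3 : Nat.gcd r m = 1 := by
        rw [Nat.gcd_comm]
        exact h2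
      exact h3
  rw [← hf] at hsum hRS' ⊢
  obtain ⟨E, hE⟩ : ∃ E : ℝ, E = Real.exp L := ⟨_, rfl⟩
  have hE0 : 0 < E := by rw [hE]; exact Real.exp_pos L
  rw [← hE] at hsum hRS'
  have huv0 : 0 < v - u := by nlinarith
  obtain ⟨κ, hκ⟩ : ∃ κ : ℝ, κ = C1 * ((f * (t * L)) * ((W.totient : ℝ) / W)) := ⟨_, rfl⟩
  have hκ0 : 0 < κ := by rw [hκ]; positivity
  obtain ⟨θ, hθ⟩ : ∃ θ : ℝ, θ = c₂ * (E / W.totient) := ⟨_, rfl⟩
  have hθ0 : 0 < θ := by rw [hθ]; positivity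
  set I : Finset ℕ := Ico (W * (2 * a.natAbs + 1)) (W * (2 * a.natAbs + 2)) with hI
  set Q : ℕ × ℕ → Prop := fun p => p.2 ∈ BX a W p.1 ∧ θ ≤ ThL a p.1 W p.2 L ∧
    ((SU a W p.2 p.1 K).card : ℝ) ≤ κ with hQ
  refine ⟨(R ×ˢ I).filter Q, ?_, ?_⟩
  · intro p hp
    obtain ⟨hp1, hp2, hp3, hp4⟩ := mem_filter.1 hp
    obtain ⟨h1, h2, h3⟩ := hR p.1 (mem_product.1 hp1).1
    refine ⟨h1, h2, h3, hp2, ?_, ?_⟩
    · rw [← hE, ← hθ]
      exact hp3
    · rw [← hκ]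
      exact hp4
  · rw [← hE, sum_filter, sum_product]
    -- the pointwise inequality
    have hpt : ∀ r ∈ R, ∀ b ∈ BX a W r, ThL a r W b L ≤
        θ + ((SU a W b r K).card : ℝ) * ThL a r W b L / κ +
          (if Q (r, b) then ThL a r W b L else 0) := by
      intro r _ b hb
      have h0 := ThL_nonneg a r W b L
      have h1 : 0 ≤ ((SU a W b r K).card : ℝ) * ThL a r W b L / κ := by positivity
      by_cases hg : Q (r, b)
      · rw [if_pos hg]
        linarith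
      · rw [if_neg hg]
        by_cases h2 : θ ≤ ThL a r W b L
        · have h3 : κ < ((SU a W b r K).card : ℝ) := by
            by_contra h4
            exact hg ⟨hb, h2, not_lt.1 h4⟩
          have h4 : ThL a r W b L ≤ ((SU a W b r K).card : ℝ) * ThL a r W b L / κ := by
            rw [le_div_iff₀ hκ0, mul_comm]
            exact mul_le_mul_of_nonneg_right h3.le h0
          linarith
        · have := (not_le.1 h2).le
          linarith
    have hrow : ∀ r ∈ R, ∑ b ∈ BX a W r, ThL a r W b L ≤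
        c₂ * E * gq r ^ 2 +
          (CR * (E * ((W.totient : ℝ) / W) * (f * (K : ℝ)))) / κ * gq r ^ 2 +
          ∑ b ∈ I, (if Q (r, b) then ThL a r W b L else 0) := by
      intro r hr
      refine (sum_le_sum (hpt r hr)).trans ?_
      rw [sum_add_distrib, sum_add_distrib, sum_const, nsmul_eq_mul, ← sum_div]
      have h1 : ((BX a W r).card : ℝ) * θ ≤ c₂ * E * gq r ^ 2 := by
        have h2 : ((BX a W r).card : ℝ) ≤ (W.totient : ℝ) * gq r := by
          have := card_BX hCNT (IP.SEL.WW_sqf a.natAbs L) (cop_W a L) (hRK r hr).1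
          rw [← hm] at this
          exact this
        have h3 : gq r ≤ gq r ^ 2 := le_self_pow₀ (one_le_gq (hRK r hr).1) (by norm_num)
        have h4 : ((BX a W r).card : ℝ) ≤ (W.totient : ℝ) * gq r ^ 2 :=
          h2.trans (mul_le_mul_of_nonneg_left h3 hφ.le)
        refine (mul_le_mul_of_nonneg_right h4 hθ0.le).trans (le_of_eq ?_)
        rw [hθ]
        field_simp
      have h2 : ∑ b ∈ BX a W r, (if Q (r, b) then ThL a r W b L else 0) ≤
          ∑ b ∈ I, (if Q (r, b) then ThL a r W b L else 0) := by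
        refine sum_le_sum_of_subset_of_nonneg ?_ fun b _ _ => ?_
        · intro b hb
          unfold BX at hb
          exact (mem_filter.1 hb).1
        · split_ifs
          · exact ThL_nonneg a r W b L
          · exact le_rfl
      have h3 : (∑ b ∈ BX a W r, ((SU a W b r K).card : ℝ) * ThL a r W b L) / κ ≤
          (CR * (E * ((W.totient : ℝ) / W) * (f * (K : ℝ)))) / κ * gq r ^ 2 := by
        have h4 := hRS' r hr
        rw [div_mul_eq_mul_div]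
        refine div_le_div_of_nonneg_right (h4.trans (le_of_eq ?_)) hκ0.le
        ring
      linarith
    have htot := (hsum.trans (sum_le_sum hrow))
    rw [sum_add_distrib, sum_add_distrib, ← mul_sum, ← mul_sum] at htot
    have h2 : c₂ * E * ∑ r ∈ R, gq r ^ 2 ≤ c / 4 * (f * ((v - u) * (L * E))) := by
      refine (mul_le_mul_of_nonneg_left hsq (by positivity)).trans (le_of_eq ?_)
      rw [hc₂]
      field_simp
      ring
    have h3 : (CR * (E * ((W.totient : ℝ) / W) * (f * (K : ℝ)))) / κ * ∑ r ∈ R, gq r ^ 2 ≤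
        c / 4 * (f * ((v - u) * (L * E))) := by
      have h4 : (CR * (E * ((W.totient : ℝ) / W) * (f * (K : ℝ)))) / κ ≤
          (CR * (E * ((W.totient : ℝ) / W) * (f * (4 * (t * L))))) / κ := by
        refine div_le_div_of_nonneg_right ?_ hκ0.le
        refine mul_le_mul_of_nonneg_left (mul_le_mul_of_nonneg_left
          (mul_le_mul_of_nonneg_left hKD hf0.le) (by positivity)) hCR.le
      refine (mul_le_mul h4 hsq (sum_nonneg fun r _ => sq_nonneg _) (by positivity)).trans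
        (le_of_eq ?_)
      rw [hκ, hC1]
      field_simp
      ring
    linarith

end

end Pool.Agent.FCT
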