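import Pool.Agent.FCT.Asm1
import Pool.Agent.FCT.St3
import Pool.Agent.FCT.SGX
import Pool.Agent.FCT.MOFX
import Pool.Agent.FCT.LEVX
import Pool.Agent.FCT.BTX
import Pool.Agent.FCT.CNTX
import Pool.Agent.FCT.HITY
import Pool.Agent.FCT.CONX
import Pool.Agent.FCT.LPYX
import Pool.Agent.FCT.LPUX
import Pool.Agent.FCT.EDPUX
import Pool.Agent.FCT.EDQUX
import Pool.Agent.FCT.GSX
import Pool.Agent.FCT.RSUX
import Pool.Agent.FCT.PSUX
import Pool.Agent.FCT.SLUX
import Pool.Agent.FCT.FNAU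
import Pool.Agent.FCT.FNUX
import Pool.Agent.CRE.Asm
import Pool.Agent.IP.CRL
import Pool.Agent.IP.CRU
import Pool.Agent.IPP.LEV
import Pool.Agent.IPP.AVG
import Pool.Agent.IPP.GLEV
import Pool.Agent.UIP.BLHU
import Pool.Agent.UIP.VSHU
import Pool.Agent.UIP.KVHU
import Pool.Agent.UIP.PARH
import Pool.Agent.UIP.LARG

set_option autoImplicit false

/-!
# FCT, part IV: assembly (helper82)
-/

namespace Pool.Agent.FCT

open Pool.Agent.IPP

/-- The core inequality. -/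
theorem coreX : CoreX :=
  t_LPUX (t_LPYX Pool.Agent.CRE.lpa Pool.Agent.CRE.loc (Pool.Agent.CRE.t_CNY Pool.Agent.CRE.t_COA)
    Pool.Agent.CRE.t_COA t_LEVX t_HITY t_CONX) t_LEVX lev avg (glev lev)

/-- The engine, uniform. -/
theorem engU : EngU :=
  t_EDQUX coreX IP.t_CRL IP.t_CRU t_MOFX t_EDPUX UIP.t_BLHU UIP.t_VSHU UIP.t_KVHU UIP.t_PARH
    UIP.t_LARG

/-- Many good pairs, uniform. -/
theorem selU : SelU :=
  t_SLUX (t_PSUX ap) t_CNTX t_GSX (t_RSUX t_BTX t_CNTX t_GSX)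

/-- Exactly one prime of a fixed class in every window, for many moduli, uniform. -/
theorem finU : FinU :=
  t_FNUX t_SGX UIP.t_KVHU engU selU t_FNAU

end Pool.Agent.FCT
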