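import Pool.Agent.FCT.St4
import Pool.Agent.FXD.Sgm

/-!
# Project FCT (MP_e1dc24_nt), module SGB: the map `σ`
-/

set_option autoImplicit false

namespace Pool.Agent.FCT

open Finset Pool.Agent.Lib_helper9.LG
open Pool.Agent.FXD (Bij prN eN rN rN_pos pow_eN)

theorem t_SGB : S_SGB := by
  intro E K N hE
  obtain ⟨τ, hτ⟩ : ∃ τ : ℕ → ℤ, τ = fun n : ℕ => (E : ℤ) * (n : ℤ) ^ eN N - K := ⟨_, rfl⟩
  obtain ⟨σ, hσ⟩ : ∃ σ : ℕ → ℕ, σ = fun n : ℕ => (τ n % (rN N : ℤ)).toNat := ⟨_, rfl⟩
  have hR0 : (rN N : ℤ) ≠ 0 := by exact_mod_cast (rN_pos N).ne'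
  have hσc : ∀ n, ((σ n : ℕ) : ℤ) = τ n % (rN N : ℤ) := by
    intro n
    rw [hσ]
    exact Int.toNat_of_nonneg (Int.emod_nonneg _ hR0)
  refine ⟨σ, fun l hl hlN hKl hla => ?_⟩
  have : Fact l.Prime := ⟨hl⟩
  have hlR : (l : ℤ) ∣ (rN N : ℤ) := by
    rw [Int.natCast_dvd_natCast]
    apply Finset.dvd_prod_of_mem (fun l => l)
    unfold prN
    rw [mem_filter, mem_Icc]
    exact ⟨⟨hl.one_lt.le, hlN⟩, hl⟩
  have hz : ∀ n, ((σ n : ℕ) : ZMod l) = (τ n : ZMod l) := by
    intro n
    have h1 : ((σ n : ℤ) : ZMod l) = (τ n : ZMod l) := by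
      rw [ZMod.intCast_eq_intCast_iff, hσc]
      exact (Int.mod_modEq _ _).of_dvd hlR
    rw [← h1]
    push_cast
    rfl
  have hzτ : ∀ n : ℕ, (τ n : ZMod l) = (E : ZMod l) * ((n : ZMod l))⁻¹ - K := by
    intro n
    rw [hτ]
    push_cast
    rw [pow_eN hl hlN]
  have hE0 : (E : ZMod l) ≠ 0 := by
    intro h1
    exact hla ((ZMod.natCast_eq_zero_iff _ l).1 h1)
  refine ⟨⟨fun c => ?_, fun c c' h => ?_⟩, fun n j k b e hbe hk hke hj => ?_⟩
  · rw [← ZMod.natCast_eq_natCast_iff, hz, hz, hzτ, hzτ]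
    push_cast
    rw [ZMod.natCast_self, add_zero]
  · rw [← ZMod.natCast_eq_natCast_iff, hz, hz, hzτ, hzτ] at h
    rw [← ZMod.natCast_eq_natCast_iff]
    have h1 := sub_left_injective h
    have h3 := mul_left_cancel₀ hE0 h1
    exact inv_injective h3
  · have hbe' : (b : ZMod l) * (e : ZMod l) = (E : ZMod l) := by
      have h1 := congrArg (fun z : ℤ => (z : ZMod l)) hbe
      push_cast at h1
      exact h1
    have hb0 : (b : ZMod l) ≠ 0 := by
      intro h1
      rw [h1, zero_mul] at hbe'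
      exact hE0 hbe'.symm
    have he0 : (e : ZMod l) ≠ 0 := by
      intro h1
      rw [h1, mul_zero] at hbe'
      exact hE0 hbe'.symm
    have hj' : (j : ZMod l) = K + k * e := by
      have h1 := congrArg (fun z : ℤ => (z : ZMod l)) hj
      push_cast at h1
      exact h1
    rw [← ZMod.intCast_zmod_eq_zero_iff_dvd, ← ZMod.natCast_eq_zero_iff]
    push_cast
    rw [hz, hzτ, hj']
    have e1 : (E : ZMod l) * (n : ZMod l)⁻¹ - K + (K + k * e) =
        (E : ZMod l) * (n : ZMod l)⁻¹ + k * e := by ring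
    rw [e1, ← hbe']
    by_cases hn : (n : ZMod l) = 0
    · rw [hn, inv_zero, mul_zero, zero_add, mul_zero, add_zero]
      constructor
      · intro h1
        exfalso
        have h2 : (k : ZMod l) = 0 := (mul_eq_zero.1 h1).resolve_right he0
        have h3 := (ZMod.natCast_eq_zero_iff _ l).1 h2
        have h4 := Nat.le_of_dvd (by omega) h3
        have he1 : (1 : ℤ) ≤ |e| := by
          have h5 : e ≠ 0 := by
            rintro rfl
            exact he0 (by push_cast; rfl)
          exact Int.one_le_abs h5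
        have h6 : (k : ℤ) ≤ (K : ℤ) := by
          calc (k : ℤ) = k * 1 := by ring
            _ ≤ k * |e| := mul_le_mul_of_nonneg_left he1 (by positivity)
            _ ≤ K := hke
        omega
      · intro h1
        exact absurd h1 hb0
    · have h3 : ((b : ZMod l) * e * (n : ZMod l)⁻¹ + k * e) = e * (n : ZMod l)⁻¹ * (b + k * n) := by
        field_simp
      rw [h3]
      constructor
      · intro h1
        exact (mul_eq_zero.1 h1).resolve_left (mul_ne_zero he0 (inv_ne_zero hn))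
      · intro h1
        rw [h1, mul_zero]

end Pool.Agent.FCT
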