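import Pool.Agent.FCT.St4
import Pool.Agent.FCT.SLUX

set_option autoImplicit false

/-!
FCT, part V: SLUV, good pairs of large total weight for finite sets of classes (helper42, after SLUX of
helper90).
-/

namespace Pool.Agent.FCT

open Finset Pool.Agent.Lib_helper9.LG
open Pool.Agent.FXD (Bij)

noncomputable section

namespace SLUV

lemma dvd_WW {p : ℕ} (hp : p.Prime) {L : ℝ} (h : (p : ℝ) ≤ Real.sqrt L) : p ∣ WW 1 L := by
  unfold WW
  refine dvd_prod_of_mem (fun q : ℕ => q) (mem_filter.2 ⟨mem_Icc.2 ⟨hp.one_lt.le, Nat.le_floor h⟩,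
    hp, ?_⟩)
  exact fun h1 => hp.one_lt.ne' (Nat.dvd_one.1 h1)

/-- The number of the classes, for any period. -/
lemma card_BV (hC : S_CNTV) {a : ℤ} {R W r : ℕ} (hW : Squarefree W) (ha : a ≠ 0)
    (haR : a.natAbs ∣ R) (hR : R ≠ 0) (hRW : ∀ p : ℕ, p.Prime → p ∣ R → p ∣ W)
    (hcop : IsCoprime a (r : ℤ)) (hr : 1 ≤ r) :
    ((BV a R W r).card : ℝ) ≤
      (W.totient : ℝ) * ((R.totient : ℝ) / R) * gq a.natAbs * gq r := by
  refine le_trans ?_ ((hC a R W r hW ha haR hR hRW hcop hr).1)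
  have h : (BV a R W r).card ≤
      ((range W).filter (fun b : ℕ => IsCoprime (a + (r : ℤ) * (b : ℤ)) (W : ℤ) ∧
        b.Coprime R)).card := by
    refine card_le_card_of_injOn (fun b => b - W * (2 * R + 1)) ?_ ?_
    · intro b hb
      have hb := mem_coe.1 hb
      unfold BV at hb
      rw [mem_filter, mem_Ico] at hb
      obtain ⟨⟨hb1, hb2⟩, hb3, hb4⟩ := hb
      have h1 : W * (2 * R + 2) = W * (2 * R + 1) + W := by ring
      rw [h1] at hb2
      refine mem_coe.2 (mem_filter.2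
        ⟨mem_range.2 (show b - W * (2 * R + 1) < W by omega), ?_⟩)
      obtain ⟨c, hc⟩ : ∃ c, b = W * (2 * R + 1) + c := ⟨b - W * (2 * R + 1), by omega⟩
      have h2 : b - W * (2 * R + 1) = c := by omega
      simp only [h2]
      constructor
      · have h3 : a + (r : ℤ) * (b : ℤ) = (a + (r : ℤ) * (c : ℤ)) +
            (W : ℤ) * ((r : ℤ) * ((2 * R + 1 : ℕ) : ℤ)) := by
          rw [hc]
          push_cast
          ring
        rw [h3] at hb3
        exact (IsCoprime.add_mul_left_left_iff).1 hb3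
      · by_contra h4
        obtain ⟨p, hp, hpc, hpR⟩ := Nat.Prime.not_coprime_iff_dvd.1 h4
        refine (Nat.Prime.not_coprime_iff_dvd.2 ⟨p, hp, ?_, hpR⟩) hb4
        rw [hc]
        exact dvd_add ((hRW p hp hpR).mul_right _) hpc
    · intro b hb b' hb' hbb
      have hb := mem_coe.1 hb
      have hb' := mem_coe.1 hb'
      unfold BV at hb hb'
      rw [mem_filter, mem_Ico] at hb hb'
      have h1 : b - W * (2 * R + 1) = b' - W * (2 * R + 1) := hbb
      omega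
  exact_mod_cast h

end SLUV

open SELX SLUX SLUV in
theorem t_SLUV : S_SLUV := by
  classical
  intro hPS hCNT hGS hRS
  obtain ⟨c, hc, hPS⟩ := hPS
  obtain ⟨CG, hCG, hGS⟩ := hGS
  obtain ⟨CR, hCR, hRS⟩ := hRS
  have hCG0 : 0 < CG := by linarith
  obtain ⟨c₂, hc₂⟩ : ∃ c₂ : ℝ, c₂ = c / (8 * CG) := ⟨_, rfl⟩
  obtain ⟨C1, hC1⟩ : ∃ C1 : ℝ, C1 = 32 * CR * CG / c := ⟨_, rfl⟩
  have hc₂0 : 0 < c₂ := by rw [hc₂]; positivity
  have hC10 : 0 < C1 := by rw [hC1]; positivity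
  refine ⟨c / 2, c₂, C1, by positivity, hc₂0, hC10, fun 𝓑 a ε h𝓑 ha𝓑 hε => ?_⟩
  have ha : a ≠ 0 := fun h => h𝓑 (h ▸ ha𝓑)
  have haR : a.natAbs ∣ RB 𝓑 := dvd_prod_of_mem (fun b : ℤ => b.natAbs) ha𝓑
  have hR0 : RB 𝓑 ≠ 0 := by
    unfold RB
    rw [prod_ne_zero_iff]
    intro b hb h
    exact h𝓑 (Int.natAbs_eq_zero.1 h ▸ hb)
  obtain ⟨L1, hPS⟩ := hPS a (RB 𝓑) ε ha haR hR0 hε
  obtain ⟨L2, hRS⟩ := hRS 𝓑 a h𝓑 ha𝓑
  obtain ⟨m, hm⟩ : ∃ m : ℕ, m = a.natAbs := ⟨_, rfl⟩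
  have hm1 : 1 ≤ m := by
    rw [hm]
    exact Int.natAbs_pos.2 ha
  obtain ⟨D₀, hD₀, hGS⟩ := hGS m hm1
  have hGS : ∀ X Y s : ℤ, X ≤ Y →
      ∑ k ∈ (Ioc X Y).filter (fun k => IsCoprime k (m : ℤ) ∧ k ≠ s), gq (k - s).natAbs ^ 2 ≤
      CG * (((m.totient : ℝ) / m) * ((Y : ℝ) - X)) +
        D₀ * Real.sqrt (|(X : ℝ) - s| + |(Y : ℝ) - s| + 1) := by
    intro X Y s hXY
    have := hGS 1 s X Y one_ne_zero isCoprime_one_left hXY
    simpa only [one_mul, Int.cast_one] using this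
  rw [← hm] at hRS
  obtain ⟨f, hf⟩ : ∃ f : ℝ, f = (m.totient : ℝ) / m := ⟨_, rfl⟩
  have hf0 : 0 < f := by rw [hf]; exact phi_pos hm1
  obtain ⟨A, hA⟩ : ∃ A : ℝ, A = (CG * f * ε / 2) ^ 2 := ⟨_, rfl⟩
  have hA0 : 0 < A := by rw [hA]; positivity
  obtain ⟨F, hF⟩ : ∃ F : ℝ, F = ((RB 𝓑).totient : ℝ) / (RB 𝓑) := ⟨_, rfl⟩
  have hF0 : 0 < F := by rw [hF]; exact phi_pos (Nat.one_le_iff_ne_zero.2 hR0)
  obtain ⟨g, hg⟩ : ∃ g : ℝ, g = gq m := ⟨_, rfl⟩
  have hgf : g = f⁻¹ := by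
    rw [hg, hf]
    unfold gq
    rw [inv_div]
  obtain ⟨n𝓑, hn𝓑⟩ : ∃ n𝓑 : ℝ, n𝓑 = (𝓑.card : ℝ) := ⟨_, rfl⟩
  have hn𝓑0 : 0 < n𝓑 := by
    rw [hn𝓑]
    exact_mod_cast card_pos.2 ⟨a, ha𝓑⟩
  refine ⟨max (max (max L1 L2) ((RB 𝓑 : ℝ) ^ 2)) (max 64 (max (1 / ε) (max (2 / (ε * ε)) (3 * D₀ ^ 2 / (A * ε))))),
    fun L hL u v t hu huv hv hvt ht1 htL => ?_⟩
  have hL1 : L1 ≤ L := (le_max_left _ _).trans ((le_max_left _ _).trans
    ((le_max_left _ _).trans hL))
  have hL2 : L2 ≤ L := (le_max_right _ _).trans ((le_max_left _ _).trans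
    ((le_max_left _ _).trans hL))
  have hLR : (RB 𝓑 : ℝ) ^ 2 ≤ L := (le_max_right _ _).trans ((le_max_left _ _).trans hL)
  have hL3 : max 64 (max (1 / ε) (max (2 / (ε * ε)) (3 * D₀ ^ 2 / (A * ε)))) ≤ L :=
    (le_max_right _ _).trans hL
  have hL64 : 64 ≤ L := (le_max_left _ _).trans hL3
  have hL4 : max (1 / ε) (max (2 / (ε * ε)) (3 * D₀ ^ 2 / (A * ε))) ≤ L :=
    (le_max_right _ _).trans hL3
  have hLa : 1 ≤ ε * L := by
    have := (le_max_left _ _).trans hL4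
    rw [div_le_iff₀ hε] at this
    linarith
  have hL5 : max (2 / (ε * ε)) (3 * D₀ ^ 2 / (A * ε)) ≤ L := (le_max_right _ _).trans hL4
  have hLb : 2 ≤ ε * (ε * L) := by
    have := (le_max_left _ _).trans hL5
    rw [div_le_iff₀ (by positivity)] at this
    linarith
  have hLc : 3 * D₀ ^ 2 ≤ A * (ε * L) := by
    have := (le_max_right _ _).trans hL5
    rw [div_le_iff₀ (by positivity)] at this
    linarith
  have hL0 : 0 < L := by linarith
  have hLge1 : 1 ≤ L := by linarith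
  have ht0 : 0 < t := by linarith
  have hv0 : 0 < v := hε.trans_le hv
  have hvL : v ≤ Real.log L := hvt.trans htL
  obtain ⟨R, hR, hsum⟩ := hPS L hL1 u v hu huv hv hvL
  have hRW : ∀ p : ℕ, p.Prime → p ∣ RB 𝓑 → p ∣ WW 1 L := by
    intro p hp hpR
    refine dvd_WW hp ?_
    have h1 : (p : ℝ) ≤ (RB 𝓑 : ℝ) := by exact_mod_cast Nat.le_of_dvd (Nat.pos_of_ne_zero hR0) hpR
    refine h1.trans ?_
    rw [Real.le_sqrt (by positivity) hL0.le]
    exact hLR
  have hWsq : Squarefree (WW 1 L) := IP.SEL.WW_sqf 1 L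
  set W : ℕ := WW 1 L with hWdef
  set K : ℕ := ⌊t * (L + 1)⌋₊ + 1 with hK
  have hW1 : 1 ≤ W := IP.SEL.WW_pos _ L
  have hW0 : (0 : ℝ) < W := by exact_mod_cast hW1
  have hφ : (0 : ℝ) < W.totient := by exact_mod_cast Nat.totient_pos.2 hW1
  have htL1 : 1 ≤ t * L := one_le_mul_of_one_le_of_one_le ht1 hLge1
  have hexp : t * (L + 1) = t * L + t := by ring
  have hKD : (K : ℝ) ≤ 4 * (t * L) := by
    have h1 : (⌊t * (L + 1)⌋₊ : ℝ) ≤ t * (L + 1) := Nat.floor_le (by positivity)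
    rw [hK]
    push_cast
    have h2 : t * 1 ≤ t * L := mul_le_mul_of_nonneg_left hLge1 ht0.le
    linarith only [h1, h2, htL1, hexp]
  have hKge : L ≤ (K : ℝ) := by
    have h1 : t * (L + 1) < (⌊t * (L + 1)⌋₊ : ℝ) + 1 := Nat.lt_floor_add_one _
    have h2 : L ≤ t * L := le_mul_of_one_le_left hL0.le ht1
    rw [hK]
    push_cast
    linarith only [h1, h2, hexp, ht0]
  have hKL : (K : ℝ) ≤ L ^ 2 := by
    refine hKD.trans ?_
    have h1 := log_le_quarter hL64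
    have h2 : 4 * t ≤ L := by linarith
    calc 4 * (t * L) = (4 * t) * L := by ring
      _ ≤ L * L := mul_le_mul_of_nonneg_right h2 hL0.le
      _ = L ^ 2 := by ring
  have hRK : ∀ r ∈ R, 1 ≤ r ∧ r ≤ K := by
    intro r hr
    obtain ⟨h1, h2, -⟩ := hR r hr
    constructor
    · have h3 : (0 : ℝ) < r := lt_of_le_of_lt (by positivity) h1
      exact_mod_cast h3
    · have h3 : (r : ℝ) ≤ t * (L + 1) := by
        refine h2.trans ?_
        have h4 : v * L ≤ t * L := mul_le_mul_of_nonneg_right hvt hL0.le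
        linarith only [h4, hexp, ht0]
      have h4 : r ≤ ⌊t * (L + 1)⌋₊ := Nat.le_floor h3
      omega
  have hRS' := fun r hr => hRS L hL2 K r hKge hKL (hRK r hr).1 (hRK r hr).2 (hR r hr).2.2
  have hsq : ∑ r ∈ R, gq r ^ 2 ≤ 2 * CG * (f * ((v - u) * L)) := by
    rw [hf]
    refine sum_sq hCG hm1 hD₀ hGS hε hL0 hu huv hv hLa hLb ?_ R fun r hr => ?_
    · rw [← hf, ← hA]
      exact hLc
    · refine ⟨(hR r hr).1, (hR r hr).2.1, ?_⟩
      have h1 := (hR r hr).2.2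
      rw [Int.isCoprime_iff_gcd_eq_one] at h1 ⊢
      have h2 : Nat.gcd a.natAbs r = 1 := h1
      rw [← hm] at h2
      have h3 : Nat.gcd r m = 1 := by
        rw [Nat.gcd_comm]
        exact h2
      exact h3
  rw [← hF] at hsum
  rw [← hF]
  simp only [← hF, ← hg, ← hn𝓑] at hRS'
  obtain ⟨E, hE⟩ : ∃ E : ℝ, E = Real.exp L := ⟨_, rfl⟩
  have hE0 : 0 < E := by rw [hE]; exact Real.exp_pos L
  rw [← hE] at hsum
  simp only [← hE] at hRS'
  have huv0 : 0 < v - u := by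
    have h1 := mul_pos hε hv0
    have h2 : (1 - ε) * v = v - ε * v := by ring
    linarith only [h1, h2, huv]
  obtain ⟨κ, hκ⟩ : ∃ κ : ℝ, κ = C1 * ((n𝓑 * (t * L)) * ((W.totient : ℝ) / W)) := ⟨_, rfl⟩
  have hκ0 : 0 < κ := by rw [hκ]; positivity
  obtain ⟨θ, hθ⟩ : ∃ θ : ℝ, θ = c₂ * (E / W.totient) := ⟨_, rfl⟩
  have hθ0 : 0 < θ := by rw [hθ]; positivity
  have hg0 : 0 < g := by rw [hgf]; exact inv_pos.2 hf0
  set I : Finset ℕ := Ico (W * (2 * RB 𝓑 + 1)) (W * (2 * RB 𝓑 + 2)) with hI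
  set Q : ℕ × ℕ → Prop := fun p => p.2 ∈ BV a (RB 𝓑) W p.1 ∧ θ ≤ ThL a p.1 W p.2 L ∧
    ((PV 𝓑 a W p.2 p.1 K).card : ℝ) ≤ κ with hQ
  refine ⟨(R ×ˢ I).filter Q, ?_, ?_⟩
  · intro p hp
    obtain ⟨hp1, hp2, hp3, hp4⟩ := mem_filter.1 hp
    obtain ⟨h1, h2, h3⟩ := hR p.1 (mem_product.1 hp1).1
    refine ⟨h1, h2, h3, hp2, ?_, ?_⟩
    · rw [← hE, ← hθ]
      exact hp3
    · rw [← hn𝓑, ← hκ]
      exact hp4
  · rw [← hE, sum_filter, sum_product]
    -- the pointwise inequality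
    have hpt : ∀ r ∈ R, ∀ b ∈ BV a (RB 𝓑) W r, ThL a r W b L ≤
        θ + ((PV 𝓑 a W b r K).card : ℝ) * ThL a r W b L / κ +
          (if Q (r, b) then ThL a r W b L else 0) := by
      intro r _ b hb
      have h0 := ThL_nonneg a r W b L
      have h1 : 0 ≤ ((PV 𝓑 a W b r K).card : ℝ) * ThL a r W b L / κ := by positivity
      by_cases hg : Q (r, b)
      · rw [if_pos hg]
        linarith
      · rw [if_neg hg]
        by_cases h2 : θ ≤ ThL a r W b L
        · have h3 : κ < ((PV 𝓑 a W b r K).card : ℝ) := by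
            by_contra h4
            exact hg ⟨hb, h2, not_lt.1 h4⟩
          have h4 : ThL a r W b L ≤ ((PV 𝓑 a W b r K).card : ℝ) * ThL a r W b L / κ := by
            rw [le_div_iff₀ hκ0, mul_comm]
            exact mul_le_mul_of_nonneg_right h3.le h0
          linarith
        · have := (not_le.1 h2).le
          linarith
    have hrow : ∀ r ∈ R, ∑ b ∈ BV a (RB 𝓑) W r, ThL a r W b L ≤
        c₂ * E * (F * g) * gq r ^ 2 +
          (CR * (E * ((W.totient : ℝ) / W) * F * g * (n𝓑 * (K : ℝ)))) / κ * gq r ^ 2 +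
          ∑ b ∈ I, (if Q (r, b) then ThL a r W b L else 0) := by
      intro r hr
      refine (sum_le_sum (hpt r hr)).trans ?_
      rw [sum_add_distrib, sum_add_distrib, sum_const, nsmul_eq_mul, ← sum_div]
      have h1 : ((BV a (RB 𝓑) W r).card : ℝ) * θ ≤ c₂ * E * (F * g) * gq r ^ 2 := by
        have h2 : ((BV a (RB 𝓑) W r).card : ℝ) ≤ (W.totient : ℝ) * F * g * gq r := by
          have := card_BV hCNT hWsq ha haR hR0 hRW (hR r hr).2.2 (hRK r hr).1
          rw [← hF, ← hm, ← hg] at this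
          exact this
        have h3 : gq r ≤ gq r ^ 2 := le_self_pow₀ (one_le_gq (hRK r hr).1) (by norm_num)
        have h4 : ((BV a (RB 𝓑) W r).card : ℝ) ≤ (W.totient : ℝ) * F * g * gq r ^ 2 :=
          h2.trans (mul_le_mul_of_nonneg_left h3 (by positivity))
        refine (mul_le_mul_of_nonneg_right h4 hθ0.le).trans (le_of_eq ?_)
        rw [hθ]
        field_simp
      have h2 : ∑ b ∈ BV a (RB 𝓑) W r, (if Q (r, b) then ThL a r W b L else 0) ≤
          ∑ b ∈ I, (if Q (r, b) then ThL a r W b L else 0) := by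
        refine sum_le_sum_of_subset_of_nonneg ?_ fun b _ _ => ?_
        · intro b hb
          unfold BV at hb
          exact (mem_filter.1 hb).1
        · split_ifs
          · exact ThL_nonneg a r W b L
          · exact le_rfl
      have h3 : (∑ b ∈ BV a (RB 𝓑) W r, ((PV 𝓑 a W b r K).card : ℝ) * ThL a r W b L) / κ ≤
          (CR * (E * ((W.totient : ℝ) / W) * F * g * (n𝓑 * (K : ℝ)))) / κ * gq r ^ 2 := by
        have h4 := hRS' r hr
        rw [div_mul_eq_mul_div]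
        refine div_le_div_of_nonneg_right (h4.trans (le_of_eq ?_)) hκ0.le
        ring
      linarith
    have htot := (hsum.trans (sum_le_sum hrow))
    rw [sum_add_distrib, sum_add_distrib, ← mul_sum, ← mul_sum] at htot
    have h2 : c₂ * E * (F * g) * ∑ r ∈ R, gq r ^ 2 ≤ c / 4 * (F * ((v - u) * (L * E))) := by
      refine (mul_le_mul_of_nonneg_left hsq (by positivity)).trans (le_of_eq ?_)
      rw [hc₂, hgf]
      field_simp
      ring
    have h3 : (CR * (E * ((W.totient : ℝ) / W) * F * g * (n𝓑 * (K : ℝ)))) / κ *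
        ∑ r ∈ R, gq r ^ 2 ≤ c / 4 * (F * ((v - u) * (L * E))) := by
      have h4 : (CR * (E * ((W.totient : ℝ) / W) * F * g * (n𝓑 * (K : ℝ)))) / κ ≤
          (CR * (E * ((W.totient : ℝ) / W) * F * g * (n𝓑 * (4 * (t * L))))) / κ := by
        refine div_le_div_of_nonneg_right ?_ hκ0.le
        refine mul_le_mul_of_nonneg_left (mul_le_mul_of_nonneg_left
          (mul_le_mul_of_nonneg_left hKD hn𝓑0.le) (by positivity)) hCR.le
      refine (mul_le_mul h4 hsq (sum_nonneg fun r _ => sq_nonneg _) (by positivity)).trans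
        (le_of_eq ?_)
      rw [hκ, hC1, hgf]
      field_simp
      ring
    linarith

end

end Pool.Agent.FCT
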