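import Pool.Agent.FCT.St4

set_option autoImplicit false

/-!
FCT, part V, module SMC (helper26): characters of small conductor are not bad.
-/

namespace Pool.Agent.FCT

open Finset
open DirichletCharacter (LFunction)

noncomputable section

namespace SMC

/-- a positive lower bound for one character -/
lemma one_lb {f : ℕ} [NeZero f] (ψ : DirichletCharacter ℂ f) (hψ : ψ ≠ 1) :
    ∃ c : ℝ, 0 < c ∧ ∀ σ : ℝ, 1 ≤ σ → σ ≤ 2 → c ≤ ‖LFunction ψ (σ : ℂ)‖ := by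
  have hc : Continuous fun σ : ℝ => ‖LFunction ψ (σ : ℂ)‖ :=
    ((DirichletCharacter.differentiable_LFunction hψ).continuous.comp
      Complex.continuous_ofReal).norm
  obtain ⟨x, hx, hm⟩ := (isCompact_Icc (a := (1 : ℝ)) (b := 2)).exists_isMinOn
    ⟨1, by constructor <;> norm_num⟩ hc.continuousOn
  refine ⟨‖LFunction ψ (x : ℂ)‖, norm_pos_iff.2 ?_, fun σ h1 h2 => hm ⟨h1, h2⟩⟩
  exact DirichletCharacter.LFunction_ne_zero_of_one_le_re ψ (Or.inl hψ) (by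
    rw [Complex.ofReal_re]; exact hx.1)

/-- a positive lower bound for all characters to one modulus -/
lemma mod_lb (f : ℕ) [NeZero f] : ∃ c : ℝ, 0 < c ∧ ∀ ψ : DirichletCharacter ℂ f, ψ ≠ 1 →
    ∀ σ : ℝ, 1 ≤ σ → σ ≤ 2 → c ≤ ‖LFunction ψ (σ : ℂ)‖ := by
  classical
  have : ∀ ψ : DirichletCharacter ℂ f, ∃ c : ℝ, 0 < c ∧ (ψ ≠ 1 → ∀ σ : ℝ, 1 ≤ σ → σ ≤ 2 →
      c ≤ ‖LFunction ψ (σ : ℂ)‖) := by
    intro ψ
    by_cases h : ψ = 1
    · exact ⟨1, one_pos, fun h' => absurd h h'⟩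
    · obtain ⟨c, hc, h1⟩ := one_lb ψ h
      exact ⟨c, hc, fun _ => h1⟩
  choose c hc h1 using this
  have : Finite (DirichletCharacter ℂ f) := MulChar.finite
  obtain ⟨ψ₀, h0⟩ := Finite.exists_min c
  exact ⟨c ψ₀, hc ψ₀, fun ψ hψ σ a b => (h0 ψ).trans (h1 ψ hψ σ a b)⟩

lemma all_lb (D : ℕ) : ∃ c : ℝ, 0 < c ∧ ∀ (f : ℕ) [NeZero f], f < D →
    ∀ ψ : DirichletCharacter ℂ f, ψ ≠ 1 →
    ∀ σ : ℝ, 1 ≤ σ → σ ≤ 2 → c ≤ ‖LFunction ψ (σ : ℂ)‖ := by
  induction D with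
  | zero => exact ⟨1, one_pos, fun f _ h => absurd h (Nat.not_lt_zero f)⟩
  | succ D ih =>
    obtain ⟨c, hc, h⟩ := ih
    rcases Nat.eq_zero_or_pos D with h0 | h0
    · refine ⟨c, hc, fun f hf hlt => ?_⟩
      have := NeZero.ne f
      omega
    · have : NeZero D := ⟨h0.ne'⟩
      obtain ⟨c', hc', h'⟩ := mod_lb D
      refine ⟨min c c', lt_min hc hc', fun f hf hlt ψ hψ σ a b => ?_⟩
      rcases Nat.lt_succ_iff_lt_or_eq.1 hlt with h1 | h1
      · exact (min_le_left _ _).trans (h f h1 ψ hψ σ a b)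
      · subst h1
        exact (min_le_right _ _).trans (h' ψ hψ σ a b)

/-- the Euler factors -/
lemma fac_lb {f : ℕ} (ψ : DirichletCharacter ℂ f) {p : ℕ} (hp : p.Prime) {σ : ℝ} (hσ : 1 ≤ σ) :
    1 - (p : ℝ)⁻¹ ≤ ‖1 - ψ p * (p : ℂ) ^ (-(σ : ℂ))‖ := by
  have hp0 : (0 : ℝ) < p := by exact_mod_cast hp.pos
  have hp1 : (1 : ℝ) ≤ p := by exact_mod_cast hp.one_lt.le
  have h1 : ‖(p : ℂ) ^ (-(σ : ℂ))‖ = (p : ℝ) ^ (-σ) := by
    have := Complex.norm_cpow_eq_rpow_re_of_pos hp0 (-(σ : ℂ))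
    rw [Complex.ofReal_natCast] at this
    rw [this, Complex.neg_re, Complex.ofReal_re]
  have h2 : (p : ℝ) ^ (-σ) ≤ (p : ℝ)⁻¹ := by
    rw [← Real.rpow_neg_one]
    exact Real.rpow_le_rpow_of_exponent_le hp1 (by linarith)
  have h3 : ‖ψ p * (p : ℂ) ^ (-(σ : ℂ))‖ ≤ (p : ℝ)⁻¹ := by
    rw [norm_mul, h1]
    calc ‖ψ p‖ * (p : ℝ) ^ (-σ) ≤ 1 * (p : ℝ) ^ (-σ) :=
          mul_le_mul_of_nonneg_right (ψ.norm_le_one _) (by positivity)
      _ = (p : ℝ) ^ (-σ) := one_mul _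
      _ ≤ _ := h2
  have h4 := norm_sub_norm_le (1 : ℂ) (ψ p * (p : ℂ) ^ (-(σ : ℂ)))
  rw [norm_one] at h4
  linarith

end SMC

open SMC in
theorem t_SMC : S_SMC := by
  intro D₀
  obtain ⟨c, hc, hall⟩ := all_lb D₀
  refine ⟨c, hc, fun r hr χ hχ hcond σ h1 h2 => ?_⟩
  have : NeZero r := ⟨by omega⟩
  have : NeZero χ.conductor := ⟨χ.conductor_ne_zero⟩
  have hψ : χ.primitiveCharacter ≠ 1 := by
    intro h
    apply hχ
    rw [← χ.changeLevel_primitiveCharacter, h]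
    exact DirichletCharacter.changeLevel_one _
  have e1 : AJ χ 0 (σ : ℂ) = LFunction χ (σ : ℂ) := by
    rw [DirichletCharacter.LFunction_eq_LSeries χ (by rw [Complex.ofReal_re]; exact h1)]
    unfold AJ
    congr 1
    funext n
    rw [pow_zero, mul_one]
  have e2 : LFunction χ (σ : ℂ) = LFunction χ.primitiveCharacter (σ : ℂ) *
      ∏ p ∈ r.primeFactors, (1 - χ.primitiveCharacter p * (p : ℂ) ^ (-(σ : ℂ))) := by
    conv_lhs => rw [← χ.changeLevel_primitiveCharacter]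
    exact DirichletCharacter.LFunction_changeLevel χ.conductor_dvd_level _ (Or.inl hψ)
  rw [e1, e2, norm_mul, norm_prod]
  have hr0 : (0 : ℝ) < r := by exact_mod_cast hr
  have e3 : (r.totient : ℝ) / r = ∏ p ∈ r.primeFactors, (1 - (p : ℝ)⁻¹) := by
    have h := Nat.totient_eq_mul_prod_factors r
    have h' : (r.totient : ℝ) = r * ∏ p ∈ r.primeFactors, (1 - (p : ℝ)⁻¹) := by
      have h2 : (((r.totient : ℕ) : ℚ) : ℝ) =
          (((r : ℚ) * ∏ p ∈ r.primeFactors, (1 - (p : ℚ)⁻¹) : ℚ) : ℝ) := by rw [h]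
      rw [Rat.cast_natCast] at h2
      rw [h2]
      push_cast
      rfl
    rw [h', mul_div_cancel_left₀ _ hr0.ne']
  rw [e3]
  refine mul_le_mul (hall _ hcond _ hψ σ h1.le h2) ?_ ?_ (norm_nonneg _)
  · refine Finset.prod_le_prod (fun p hp => ?_) fun p hp => ?_
    · have hp1 : (1 : ℝ) ≤ p := by
        exact_mod_cast (Nat.prime_of_mem_primeFactors hp).one_lt.le
      exact sub_nonneg.2 (inv_le_one_of_one_le₀ hp1)
    · exact fac_lb _ (Nat.prime_of_mem_primeFactors hp) h1.le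
  · refine Finset.prod_nonneg fun p hp => ?_
    have hp1 : (1 : ℝ) ≤ p := by
      exact_mod_cast (Nat.prime_of_mem_primeFactors hp).one_lt.le
    exact sub_nonneg.2 (inv_le_one_of_one_le₀ hp1)

end

end Pool.Agent.FCT
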