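import Mathlib
import Pool.Agent.FCT.St4
import Pool.Agent.FCT.PSUX
import Pool.Agent.FCT.CNTX

set_option autoImplicit false

/-!
WRV (project FCT part V, MP_e1dc24_nt): the weight of the primes for one `r`.
-/

namespace Pool.Agent.FCT

open Finset Pool.Agent.Lib_helper9.LG

noncomputable section

namespace WRVh

open Classical in
/-- The good residues modulo `p`. -/
def f3 (a : ℤ) (r p y : ℕ) : ℝ :=
  if ¬ (p : ℤ) ∣ (y : ℤ) ∧ ¬ (p : ℤ) ∣ a + (r : ℤ) * (y : ℤ) then 1 else 0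

lemma f3_nonneg (a : ℤ) (r p y : ℕ) : 0 ≤ f3 a r p y := by
  unfold f3
  split_ifs <;> norm_num

lemma f3_per (a : ℤ) (r p y : ℕ) : f3 a r p (y + p) = f3 a r p y := by
  unfold f3
  have h1 : (p : ℤ) ∣ ((y + p : ℕ) : ℤ) ↔ (p : ℤ) ∣ (y : ℤ) := by
    push_cast
    exact dvd_add_left (dvd_refl _)
  simp only [h1, CNTXh.per]

lemma sum_ge {p : ℕ} {f : ℕ → ℝ} (hf : ∀ y, 0 ≤ f y) (E : Finset ℕ)
    (h1 : ∀ y ∈ range p \ E, f y = 1) : (p : ℝ) - E.card ≤ ∑ y ∈ range p, f y := by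
  have h2 : ∑ y ∈ range p \ E, f y ≤ ∑ y ∈ range p, f y :=
    Finset.sum_le_sum_of_subset_of_nonneg sdiff_subset fun y _ _ => hf y
  rw [Finset.sum_congr rfl h1, Finset.sum_const, nsmul_eq_mul, mul_one] at h2
  have h3 : (range p).card ≤ (range p \ E).card + E.card := by
    have := Finset.card_le_card (s := range p) (t := (range p \ E) ∪ E) (by
      rw [Finset.sdiff_union_self_eq_union]
      exact subset_union_left)
    exact this.trans (Finset.card_union_le _ _)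
  rw [card_range] at h3
  have h4 : (p : ℝ) ≤ ((range p \ E).card : ℝ) + E.card := by exact_mod_cast h3
  linarith

open Classical in
/-- The number of the good residues modulo `p`. -/
lemma local3 {p : ℕ} (hp : p.Prime) (a : ℤ) (r : ℕ) (ha : ¬ (p : ℤ) ∣ a) :
    (p : ℝ) - 1 - (if p ∣ r then 0 else 1) ≤ ∑ y ∈ range p, f3 a r p y := by
  have hnd : ∀ y ∈ range p, y ≠ 0 → ¬ (p : ℤ) ∣ (y : ℤ) := by
    intro y hy h0 h
    rw [mem_range] at hy
    exact absurd (Nat.le_of_dvd (Nat.pos_of_ne_zero h0) (Int.natCast_dvd_natCast.1 h)) (by omega)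
  by_cases hr : p ∣ r
  · rw [if_pos hr]
    have h1 := sum_ge (p := p) (f := f3 a r p) (f3_nonneg a r p) {0} (by
      intro y hy
      rw [mem_sdiff, mem_singleton] at hy
      unfold f3
      rw [if_pos]
      refine ⟨hnd y hy.1 hy.2, fun h => ha ?_⟩
      exact (dvd_add_left ((Int.natCast_dvd_natCast.2 hr).mul_right _)).1 h)
    rw [card_singleton, Nat.cast_one] at h1
    linarith
  · rw [if_neg hr]
    have hr' : ¬ (p : ℤ) ∣ (r : ℤ) := fun h => hr (Int.natCast_dvd_natCast.1 h)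
    obtain ⟨y0, hy0, hy2⟩ := CNTXh.root hp a r hr'
    have h1 := sum_ge (p := p) (f := f3 a r p) (f3_nonneg a r p) {0, y0} (by
      intro y hy
      rw [mem_sdiff, mem_insert, mem_singleton, not_or] at hy
      obtain ⟨h1, h2, h3⟩ := hy
      unfold f3
      rw [if_pos]
      refine ⟨hnd y h1 h2, fun h => h3 ?_⟩
      have h4 : (p : ℤ) ∣ (r : ℤ) * ((y : ℤ) - y0) := by
        have := dvd_sub h hy2
        have e : a + (r : ℤ) * (y : ℤ) - (a + (r : ℤ) * (y0 : ℤ)) = (r : ℤ) * ((y : ℤ) - y0) := by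
          ring
        rwa [e] at this
      have h5 : (p : ℤ) ∣ (y : ℤ) - y0 := ((Nat.prime_iff_prime_int.1 hp).dvd_or_dvd h4).resolve_left hr'
      rw [mem_range] at h1 hy0
      have h6 : ((y : ℤ) - y0) = 0 := by
        apply Int.eq_zero_of_abs_lt_dvd h5
        rw [abs_lt]
        constructor <;> omega
      omega)
    have h2 : (({0, y0} : Finset ℕ).card : ℝ) ≤ 2 := by exact_mod_cast Finset.card_le_two
    linarith

/-- The factor for one prime. -/
def sp (p : ℕ) : ℝ := if p = 2 then 1 else 1 - 1 / ((p : ℝ) - 1) ^ 2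

lemma tele (n : ℕ) : ∏ m ∈ Icc 2 (n + 1), (1 - 1 / (m : ℝ) ^ 2) = ((n : ℝ) + 2) / (2 * (n + 1)) := by
  induction n with
  | zero => norm_num
  | succ n ih =>
    rw [Finset.prod_Icc_succ_top (by omega), ih]
    push_cast
    have h1 : (n : ℝ) + 1 ≠ 0 := by positivity
    have h2 : (n : ℝ) + 1 + 1 ≠ 0 := by positivity
    field_simp
    ring

lemma half_le (S : Finset ℕ) (hS : ∀ p ∈ S, p.Prime) : 1 / 2 ≤ ∏ p ∈ S, sp p := by
  have h0 : ∏ p ∈ S, sp p = ∏ p ∈ S.filter (fun p => p ≠ 2), (1 - 1 / ((p : ℝ) - 1) ^ 2) := by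
    rw [Finset.prod_filter]
    refine Finset.prod_congr rfl fun p _ => ?_
    unfold sp
    by_cases h : p = 2
    · rw [if_pos h, if_neg (not_not.2 h)]
    · rw [if_neg h, if_pos h]
  rw [h0]
  set T := S.filter (fun p => p ≠ 2) with hT
  have hT3 : ∀ p ∈ T, 3 ≤ p := by
    intro p hp
    rw [hT, mem_filter] at hp
    have := (hS p hp.1).two_le
    omega
  set U : Finset ℕ := T.image (fun p : ℕ => p - 1) with hU
  have h1 : ∏ p ∈ T, (1 - 1 / ((p : ℝ) - 1) ^ 2) =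
      ∏ m ∈ U, (1 - 1 / (m : ℝ) ^ 2) := by
    rw [hU, Finset.prod_image]
    · refine Finset.prod_congr rfl fun p hp => ?_
      rw [Nat.cast_sub (by have := hT3 p hp; omega), Nat.cast_one]
    · intro p hp q hq h
      have h2 := hT3 p hp
      have h3 := hT3 q hq
      simp only at h
      omega
  rw [h1]
  set n := T.sup id with hn
  have hsub : U ⊆ Icc 2 (n + 1) := by
    intro m hm
    rw [hU, mem_image] at hm
    obtain ⟨p, hp, rfl⟩ := hm
    have h2 := hT3 p hp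
    have h3 : p ≤ n := Finset.le_sup (f := id) hp
    rw [mem_Icc]
    omega
  have h2 : ∏ m ∈ Icc 2 (n + 1), (1 - 1 / (m : ℝ) ^ 2) ≤
      ∏ m ∈ U, (1 - 1 / (m : ℝ) ^ 2) := by
    have hpos : ∀ m ∈ Icc 2 (n + 1), 0 ≤ 1 - 1 / (m : ℝ) ^ 2 ∧ 1 - 1 / (m : ℝ) ^ 2 ≤ 1 := by
      intro m hm
      rw [mem_Icc] at hm
      have h3 : (2 : ℝ) ≤ m := by exact_mod_cast hm.1
      have h4 : (1 : ℝ) ≤ (m : ℝ) ^ 2 := by nlinarith
      have h5 : 1 / (m : ℝ) ^ 2 ≤ 1 := by
        rw [div_le_one (by positivity)]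
        exact h4
      have h6 : 0 ≤ 1 / (m : ℝ) ^ 2 := by positivity
      constructor <;> linarith
    rw [← Finset.prod_sdiff hsub]
    refine mul_le_of_le_one_left ?_ ?_
    · exact Finset.prod_nonneg fun m hm => (hpos m (hsub hm)).1
    · exact Finset.prod_le_one (fun m hm => (hpos m (sdiff_subset hm)).1)
        fun m hm => (hpos m (sdiff_subset hm)).2
  refine le_trans ?_ h2
  rw [tele, div_le_div_iff₀ (by norm_num) (by positivity)]
  have : (0 : ℝ) ≤ n := Nat.cast_nonneg _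
  linarith

open Classical in
/-- The factor for one prime, lower bound. -/
lemma fac {p : ℕ} (hp : p.Prime) (r : ℕ) (h2 : p = 2 → 2 ∣ r) :
    ((p : ℝ) - 1) * (((p : ℝ) - 1) / p) * sp p ≤ (p : ℝ) - 1 - (if p ∣ r then 0 else 1) := by
  have hp1 : (1 : ℝ) < p := by exact_mod_cast hp.one_lt
  have hpp : (0 : ℝ) < (p : ℝ) - 1 := by linarith
  have hs1 : sp p ≤ 1 := by
    unfold sp
    split_ifs
    · exact le_rfl
    · have : 0 ≤ 1 / ((p : ℝ) - 1) ^ 2 := by positivity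
      linarith
  by_cases hr : p ∣ r
  · rw [if_pos hr, sub_zero]
    have h3 : ((p : ℝ) - 1) / p ≤ 1 := by
      rw [div_le_one (by linarith)]
      linarith
    have h4 : 0 ≤ ((p : ℝ) - 1) * (((p : ℝ) - 1) / p) := by positivity
    calc ((p : ℝ) - 1) * (((p : ℝ) - 1) / p) * sp p ≤ ((p : ℝ) - 1) * (((p : ℝ) - 1) / p) * 1 :=
          mul_le_mul_of_nonneg_left hs1 h4
      _ ≤ ((p : ℝ) - 1) * 1 * 1 := by
          rw [mul_one, mul_one]
          exact mul_le_mul_of_nonneg_left h3 hpp.le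
      _ = (p : ℝ) - 1 := by ring
  · rw [if_neg hr]
    have hne : p ≠ 2 := fun h => hr (h ▸ h2 h)
    unfold sp
    rw [if_neg hne]
    apply le_of_eq
    have h5 : (p : ℝ) - 1 ≠ 0 := hpp.ne'
    have h6 : (p : ℝ) ≠ 0 := by linarith
    field_simp
    ring

open Classical in
/-- The set of the good residues. -/
def CC (a : ℤ) (r : ℕ) (S : Finset ℕ) : Finset ℕ :=
  (range (∏ p ∈ S, p)).filter
    (fun c => ∀ p ∈ S, ¬ (p : ℤ) ∣ (c : ℤ) ∧ ¬ (p : ℤ) ∣ a + (r : ℤ) * (c : ℤ))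

lemma card_CC (a : ℤ) (r : ℕ) (S : Finset ℕ) (hS : ∀ p ∈ S, p.Prime) :
    ((CC a r S).card : ℝ) = ∏ p ∈ S, ∑ y ∈ range p, f3 a r p y := by
  classical
  rw [← Avg.full_sum (b := 0) (W := 1) (P := S) (F := fun p y => f3 a r p y)
    (fun p hp => ⟨hS p hp, fun h => (hS p hp).one_lt.ne' (Nat.dvd_one.1 h)⟩)
    (fun p _ y => f3_per a r p y), CC, Finset.card_filter]
  push_cast
  apply Finset.sum_congr rfl
  intro b _
  simp only [zero_add, one_mul, f3]
  rw [Pool.Agent.FXD.prod_ind (fun p : ℕ => ¬ (p : ℤ) ∣ (b : ℤ) ∧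
    ¬ (p : ℤ) ∣ a + (r : ℤ) * (b : ℤ))]

/-- The number of the good residues. -/
lemma count (a : ℤ) (r : ℕ) (S : Finset ℕ) (hS : ∀ p ∈ S, p.Prime)
    (ha : ∀ p ∈ S, ¬ (p : ℤ) ∣ a) (h2 : 2 ∈ S → 2 ∣ r) :
    1 / 2 * ((∏ p ∈ S, ((p : ℝ) - 1)) * ∏ p ∈ S, (((p : ℝ) - 1) / p)) ≤ ((CC a r S).card : ℝ) := by
  classical
  rw [card_CC a r S hS]
  have hp1 : ∀ p ∈ S, (1 : ℝ) < p := fun p hp => by exact_mod_cast (hS p hp).one_lt
  have h3 : ∏ p ∈ S, (((p : ℝ) - 1) * (((p : ℝ) - 1) / p) * sp p) ≤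
      ∏ p ∈ S, ∑ y ∈ range p, f3 a r p y := by
    apply Finset.prod_le_prod
    · intro p hp
      have h4 := hp1 p hp
      have h5 : 0 ≤ sp p := by
        unfold sp
        split_ifs with h6
        · norm_num
        · have h7 : (3 : ℝ) ≤ p := by
            have := (hS p hp).two_le
            exact_mod_cast (by omega : 3 ≤ p)
          have h8 : 1 / ((p : ℝ) - 1) ^ 2 ≤ 1 := by
            rw [div_le_one (by nlinarith)]
            nlinarith
          linarith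
      have h9 : 0 ≤ ((p : ℝ) - 1) / p := div_nonneg (by linarith) (by linarith)
      have h10 : 0 ≤ (p : ℝ) - 1 := by linarith
      positivity
    · intro p hp
      exact (fac (hS p hp) r fun h => h2 (h ▸ hp)).trans (local3 (hS p hp) a r (ha p hp))
  refine le_trans ?_ h3
  rw [Finset.prod_mul_distrib, Finset.prod_mul_distrib]
  have h4 : 0 ≤ (∏ p ∈ S, ((p : ℝ) - 1)) * ∏ p ∈ S, (((p : ℝ) - 1) / p) := by
    apply mul_nonneg
    · exact Finset.prod_nonneg fun p hp => by linarith [hp1 p hp]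
    · exact Finset.prod_nonneg fun p hp =>
        div_nonneg (by linarith [hp1 p hp]) (by linarith [hp1 p hp])
  calc 1 / 2 * ((∏ p ∈ S, ((p : ℝ) - 1)) * ∏ p ∈ S, (((p : ℝ) - 1) / p)) =
        ((∏ p ∈ S, ((p : ℝ) - 1)) * ∏ p ∈ S, (((p : ℝ) - 1) / p)) * (1 / 2) := by ring
    _ ≤ _ := mul_le_mul_of_nonneg_left (half_le S hS) h4

/-! ### The primes for one `r` -/

/-- The primes `a + r n` with `(n, R) = 1`. -/
def PP (a : ℤ) (R r : ℕ) : Set ℕ :=
  {p : ℕ | p.Prime ∧ ∃ n : ℤ, (p : ℤ) = a + r * n ∧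
    ∀ l : ℕ, l.Prime → l ∣ R → ¬ (l : ℤ) ∣ a → ¬ (l : ℤ) ∣ n}

open Classical in
lemma key {a : ℤ} {R W r : ℕ} {L : ℝ} (hR : R ≠ 0) (haR : a.natAbs ∣ R) (hW : 1 ≤ W)
    (hr : 1 ≤ r) (hRW : ∀ p : ℕ, p.Prime → p ∣ R → p ∣ W)
    (hWL : (W : ℝ) * (2 * R + 2) + R ≤ Real.exp L) (hAL : 2 * (R : ℝ) ≤ Real.exp L) :
    ∑ p ∈ (Ioc ⌊(r : ℝ) * Real.exp L⌋₊ ⌊3 / 2 * ((r : ℝ) * Real.exp L)⌋₊).filter
        (fun p : ℕ => p ∈ PP a R r), Real.log p ≤
      ∑ b ∈ BV a R W r, ThL a r W b L := by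
  have hAR : ((a.natAbs : ℕ) : ℝ) ≤ R := by
    exact_mod_cast Nat.le_of_dvd (Nat.pos_of_ne_zero hR) haR
  set A : ℝ := (a.natAbs : ℝ) with hA
  have hA0 : 0 ≤ A := Nat.cast_nonneg _
  have hE := Real.exp_pos L
  have hr1 : (1 : ℝ) ≤ r := by exact_mod_cast hr
  have hr0 : (0 : ℝ) < r := by linarith
  have hW1 : (1 : ℝ) ≤ W := by exact_mod_cast hW
  have haA : |(a : ℝ)| = A := by
    rw [hA, Nat.cast_natAbs, Int.cast_abs]
  have ha1 : (a : ℝ) ≤ A := haA ▸ le_abs_self _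
  have ha2 : -A ≤ (a : ℝ) := by
    rw [← haA]
    exact neg_abs_le _
  have hrA : A ≤ r * A := le_mul_of_one_le_left hA0 hr1
  have hrE : Real.exp L ≤ r * Real.exp L := le_mul_of_one_le_left hE.le hr1
  set P := (Ioc ⌊(r : ℝ) * Real.exp L⌋₊ ⌊3 / 2 * ((r : ℝ) * Real.exp L)⌋₊).filter
        (fun p : ℕ => p ∈ PP a R r) with hP
  have hex : ∀ p ∈ P, ∃ n : ℕ, (p : ℤ) = a + r * n ∧ W * (2 * R + 2) ≤ n ∧
      (n : ℝ) ≤ 2 * Real.exp L ∧ ∀ l : ℕ, l.Prime → l ∣ R → ¬ l ∣ n := by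
    intro p hp
    rw [hP, mem_filter, mem_Ioc] at hp
    obtain ⟨⟨h1, h2⟩, h3, k, hk, hcop⟩ := hp
    have h1' : (r : ℝ) * Real.exp L < p := Nat.lt_of_floor_lt h1
    have h2' : (p : ℝ) ≤ 3 / 2 * ((r : ℝ) * Real.exp L) :=
      (Nat.cast_le.2 h2).trans (Nat.floor_le (by positivity))
    have hkR : (p : ℝ) - a = r * k := by
      have := congrArg (Int.cast : ℤ → ℝ) hk
      push_cast at this
      linarith
    have h6 : Real.exp L - A ≤ k := by
      have h7 : (r : ℝ) * (Real.exp L - A) ≤ r * k := by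
        rw [← hkR]
        nlinarith
      exact le_of_mul_le_mul_left h7 hr0
    have h7 : (k : ℝ) ≤ 3 / 2 * Real.exp L + A := by
      have h8 : (r : ℝ) * k ≤ r * (3 / 2 * Real.exp L + A) := by
        rw [← hkR]
        nlinarith
      exact le_of_mul_le_mul_left h8 hr0
    have h8 : (W : ℝ) * (2 * R + 2) ≤ k := by linarith
    have h9 : 0 ≤ k := by
      have : (0 : ℝ) ≤ k := le_trans (by positivity) h8
      exact_mod_cast this
    obtain ⟨n, hn⟩ := Int.eq_ofNat_of_zero_le h9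
    have hnk : (n : ℝ) = k := by
      rw [hn]
      simp
    refine ⟨n, ?_, ?_, ?_, ?_⟩
    · rw [hn] at hk
      exact hk
    · have : ((W * (2 * R + 2) : ℕ) : ℝ) ≤ n := by
        push_cast
        rw [hnk]
        exact h8
      exact_mod_cast this
    · rw [hnk]
      linarith
    · intro l hl hlR hln
      have hlk : (l : ℤ) ∣ k := by
        rw [hn]
        exact Int.natCast_dvd_natCast.2 hln
      by_cases hla : (l : ℤ) ∣ a
      · have h10 : (l : ℤ) ∣ (p : ℤ) := by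
          rw [hk]
          exact dvd_add hla (hlk.mul_left _)
        have h11 : l = p := (Nat.prime_dvd_prime_iff_eq hl h3).1 (Int.natCast_dvd_natCast.1 h10)
        have h12 : l ≤ R := Nat.le_of_dvd (Nat.pos_of_ne_zero hR) hlR
        have h13 : (p : ℝ) ≤ R := by
          rw [← h11]
          exact_mod_cast h12
        have h14 : (0 : ℝ) ≤ R := Nat.cast_nonneg _
        linarith
      · exact hcop l hl hlR hla hlk
  choose! N hN1 hN2 hN3 hN4 using hex
  set f : ℕ → (Σ _ : ℕ, ℕ) := fun p =>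
    ⟨W * (2 * R + 1) + N p % W, N p / W - (2 * R + 1)⟩ with hf
  have hdec : ∀ p ∈ P, (f p).1 + W * (f p).2 = N p := by
    intro p hp
    have h1 : 2 * R + 1 ≤ N p / W := by
      rw [Nat.le_div_iff_mul_le hW]
      have h2 := hN2 p hp
      nlinarith
    have h3 := Nat.mod_add_div (N p) W
    simp only [hf]
    calc W * (2 * R + 1) + N p % W + W * (N p / W - (2 * R + 1))
        = N p % W + W * ((2 * R + 1) + (N p / W - (2 * R + 1))) := by ring
      _ = N p % W + W * (N p / W) := by rw [Nat.add_sub_cancel' h1]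
      _ = N p := h3
  have hqv : ∀ p ∈ P, qv a r ((f p).1 + W * (f p).2) = p := by
    intro p hp
    rw [hdec p hp, qv, ← hN1 p hp]
    exact Int.toNat_natCast p
  have hmem : ∀ p ∈ P, f p ∈ (BV a R W r).sigma (fun b => PiL a r W b L) := by
    intro p hp
    have hp' := hp
    rw [hP, mem_filter, mem_Ioc] at hp'
    obtain ⟨⟨h1, h2⟩, h3, -⟩ := hp'
    have h1' : (r : ℝ) * Real.exp L < p := Nat.lt_of_floor_lt h1
    have hq := hqv p hp
    have hd := hdec p hp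
    rw [Finset.mem_sigma]
    constructor
    · rw [BV, mem_filter, mem_Ico]
      refine ⟨⟨?_, ?_⟩, ?_, ?_⟩
      · simp only [hf]
        omega
      · have h5 : N p % W < W := Nat.mod_lt _ hW
        simp only [hf]
        have h6 : W * (2 * R + 2) = W * (2 * R + 1) + W := by ring
        omega
      · rw [Int.isCoprime_iff_gcd_eq_one]
        by_contra hc
        obtain ⟨l, hl, hld⟩ := Nat.exists_prime_and_dvd hc
        have hl1 : (l : ℤ) ∣ a + (r : ℤ) * ((f p).1 : ℤ) :=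
          (Int.natCast_dvd_natCast.2 hld).trans (Int.gcd_dvd_left _ _)
        have hl2 : (l : ℤ) ∣ (W : ℤ) :=
          (Int.natCast_dvd_natCast.2 hld).trans (Int.gcd_dvd_right _ _)
        have hl3 : (l : ℤ) ∣ (p : ℤ) := by
          rw [hN1 p hp, ← hd]
          have e : a + (r : ℤ) * (((f p).1 + W * (f p).2 : ℕ) : ℤ) =
              (a + (r : ℤ) * ((f p).1 : ℤ)) + (W : ℤ) * ((r : ℤ) * ((f p).2 : ℤ)) := by
            push_cast
            ring
          rw [e]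
          exact dvd_add hl1 (hl2.mul_right _)
        have hl4 : l = p := (Nat.prime_dvd_prime_iff_eq hl h3).1 (Int.natCast_dvd_natCast.1 hl3)
        have hl5 : l ≤ W := Nat.le_of_dvd hW (Int.natCast_dvd_natCast.1 hl2)
        have hl6 : (p : ℝ) ≤ W := by
          rw [← hl4]
          exact_mod_cast hl5
        have hR0 : (0 : ℝ) ≤ R := Nat.cast_nonneg _
        have hl7 : (W : ℝ) ≤ W * (2 * R + 2) := by nlinarith
        linarith
      · refine Nat.coprime_of_dvd fun l hl hl1 hl2 => ?_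
        have hl3 : l ∣ W := hRW l hl hl2
        apply hN4 p hp l hl hl2
        rw [← hd]
        exact dvd_add hl1 (hl3.mul_right _)
    · rw [PiL, mem_filter, hq]
      refine ⟨?_, h3, h1, h2⟩
      rw [mem_range, M0]
      have h5 : 2 * R + 1 ≤ N p / W := by
        rw [Nat.le_div_iff_mul_le hW]
        have h2 := hN2 p hp
        nlinarith
      have h6 : (f p).2 + 1 ≤ N p / W := by
        simp only [hf]
        omega
      apply Nat.lt_of_succ_le
      apply Nat.le_floor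
      rw [le_div_iff₀ (by linarith)]
      have h7 : ((f p).2 + 1) * W ≤ N p :=
        (Nat.mul_le_mul_right W h6).trans (Nat.div_mul_le_self _ _)
      have h8 : ((((f p).2 + 1) * W : ℕ) : ℝ) ≤ N p := by exact_mod_cast h7
      have h9 := hN3 p hp
      push_cast at h8 ⊢
      linarith
  have hinj : Set.InjOn f (P : Set ℕ) := by
    intro p hp q hq hpq
    rw [← hqv p hp, ← hqv q hq, hpq]
  have hsum : ∑ b ∈ BV a R W r, ThL a r W b L =
      ∑ z ∈ (BV a R W r).sigma (fun b => PiL a r W b L), lwX a r W z.1 z.2 := by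
    rw [Finset.sum_sigma]
    rfl
  rw [hsum]
  calc ∑ p ∈ P, Real.log p = ∑ p ∈ P, lwX a r W (f p).1 (f p).2 := by
        apply Finset.sum_congr rfl
        intro p hp
        rw [lwX, hqv p hp]
    _ = ∑ z ∈ P.image f, lwX a r W z.1 z.2 :=
        (Finset.sum_image (f := fun z : (Σ _ : ℕ, ℕ) => lwX a r W z.1 z.2) hinj).symm
    _ ≤ _ := by
        apply Finset.sum_le_sum_of_subset_of_nonneg
        · intro z hz
          rw [mem_image] at hz
          obtain ⟨p, hp, rfl⟩ := hz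
          exact hmem p hp
        · intro z _ _
          exact Real.log_natCast_nonneg _

/-! ### The sum over the residues -/

open Classical in
lemma classes {a : ℤ} {R r : ℕ} (hR : R ≠ 0) (hr : 1 ≤ r) {S : Finset ℕ}
    (hS : S = R.primeFactors.filter (fun p : ℕ => ¬ (p : ℤ) ∣ a)) (I : Finset ℕ) :
    ∑ c ∈ CC a r S, ∑ p ∈ I.filter (fun p : ℕ => p.Prime ∧
        (p : ZMod (r * ∏ p ∈ S, p)) = ((a + r * c : ℤ) : ZMod (r * ∏ p ∈ S, p))), Real.log p ≤
      ∑ p ∈ I.filter (fun p : ℕ => p ∈ PP a R r), Real.log p := by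
  set R₁ := ∏ p ∈ S, p with hR₁
  have hdv : ∀ (c p : ℕ), (p : ZMod (r * R₁)) = ((a + r * c : ℤ) : ZMod (r * R₁)) →
      ((r * R₁ : ℕ) : ℤ) ∣ (a + r * c) - p := by
    intro c p h
    rw [← ZMod.intCast_eq_intCast_iff_dvd_sub, ← h]
    simp
  have hdisj : ((CC a r S : Finset ℕ) : Set ℕ).PairwiseDisjoint (fun c => I.filter
      (fun p : ℕ => p.Prime ∧ (p : ZMod (r * R₁)) = ((a + r * c : ℤ) : ZMod (r * R₁)))) := by
    intro c hc c' hc' hne
    rw [Function.onFun, Finset.disjoint_left]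
    intro p hp hp'
    apply hne
    have h1 := hdv c p (mem_filter.1 hp).2.2
    have h2 := hdv c' p (mem_filter.1 hp').2.2
    have h3 : ((r * R₁ : ℕ) : ℤ) ∣ (r : ℤ) * ((c : ℤ) - c') := by
      have := dvd_sub h1 h2
      have e : (a + r * (c : ℤ)) - p - ((a + r * (c' : ℤ)) - p) = (r : ℤ) * ((c : ℤ) - c') := by ring
      rwa [e] at this
    push_cast at h3
    have h4 : (R₁ : ℤ) ∣ (c : ℤ) - c' :=
      Int.dvd_of_mul_dvd_mul_left (by exact_mod_cast (by omega : r ≠ 0)) h3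
    rw [Finset.mem_coe, CC, mem_filter, mem_range] at hc hc'
    have h5 : ((c : ℤ) - c') = 0 := by
      apply Int.eq_zero_of_abs_lt_dvd h4
      rw [abs_lt]
      have h6 := hc.1
      have h7 := hc'.1
      constructor <;> omega
    omega
  rw [← Finset.sum_biUnion hdisj]
  apply Finset.sum_le_sum_of_subset_of_nonneg
  · intro p hp
    rw [mem_biUnion] at hp
    obtain ⟨c, hc, hp⟩ := hp
    rw [mem_filter] at hp ⊢
    refine ⟨hp.1, hp.2.1, ?_⟩
    obtain ⟨k, hk⟩ := hdv c p hp.2.2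
    refine ⟨(c : ℤ) - R₁ * k, ?_, ?_⟩
    · push_cast at hk
      linear_combination -hk
    · intro l hl hlR hla hln
      have hlS : l ∈ S := by
        rw [hS, mem_filter, Nat.mem_primeFactors]
        exact ⟨⟨hl, hlR, hR⟩, hla⟩
      have h1 : (l : ℤ) ∣ (R₁ : ℤ) := by
        rw [hR₁]
        exact Int.natCast_dvd_natCast.2 (Finset.dvd_prod_of_mem (fun p => p) hlS)
      have h2 : (l : ℤ) ∣ (c : ℤ) := by
        have := dvd_add hln (h1.mul_right k)
        rwa [sub_add_cancel] at this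
      rw [CC, mem_filter] at hc
      exact (hc.2 l hlS).1 h2
  · intro p _ _
    exact Real.log_natCast_nonneg _

/-- `φ(r R₁) ≤ r φ(R₁)`. -/
lemma tot_le {r : ℕ} (hr : 1 ≤ r) (S : Finset ℕ) (hS : ∀ p ∈ S, p.Prime) :
    ((r * ∏ p ∈ S, p : ℕ).totient : ℝ) ≤ r * ∏ p ∈ S, ((p : ℝ) - 1) := by
  have hR0 : 0 < ∏ p ∈ S, p := Finset.prod_pos fun p hp => (hS p hp).pos
  have hn : r * ∏ p ∈ S, p ≠ 0 := (Nat.mul_pos hr hR0).ne'
  have h1 := CNTXh.gq_eq _ hn
  have hp1 : ∀ p ∈ S, (0 : ℝ) < (p : ℝ) - 1 := fun p hp => by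
    have : (1 : ℝ) < p := by exact_mod_cast (hS p hp).one_lt
    linarith
  have h2 : ∏ p ∈ S, ((p : ℝ) / ((p : ℝ) - 1)) ≤ gq (r * ∏ p ∈ S, p) := by
    rw [h1]
    apply Finset.prod_le_prod_of_subset_of_one_le
    · intro p hp
      rw [Nat.mem_primeFactors]
      exact ⟨hS p hp, (Finset.dvd_prod_of_mem (fun p => p) hp).mul_left _, hn⟩
    · intro p hp
      exact div_nonneg (Nat.cast_nonneg _) (hp1 p hp).le
    · intro p hp _
      exact CNTXh.ratio_ge (Nat.prime_of_mem_primeFactors hp)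
  have h3 : (0 : ℝ) < ((r * ∏ p ∈ S, p : ℕ).totient : ℝ) := by
    exact_mod_cast Nat.totient_pos.2 (Nat.pos_of_ne_zero hn)
  have h4 : 0 < ∏ p ∈ S, ((p : ℝ) - 1) := Finset.prod_pos hp1
  have h5 : (0 : ℝ) < ∏ p ∈ S, (p : ℝ) := Finset.prod_pos fun p hp => by linarith [hp1 p hp]
  rw [Finset.prod_div_distrib, gq, div_le_div_iff₀ h4 h3] at h2
  push_cast at h2 ⊢
  have h6 : (∏ p ∈ S, (p : ℝ)) * ((r * ∏ p ∈ S, p : ℕ).totient : ℝ) ≤
      (∏ p ∈ S, (p : ℝ)) * (r * ∏ p ∈ S, ((p : ℝ) - 1)) := by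
    refine h2.trans (le_of_eq ?_)
    ring
  exact le_of_mul_le_mul_left h6 h5

/-- The density factor. -/
lemma dens {a : ℤ} {R : ℕ} (ha : a ≠ 0) (hR : R ≠ 0) (haR : a.natAbs ∣ R) {S : Finset ℕ}
    (hS : S = R.primeFactors.filter (fun p : ℕ => ¬ (p : ℤ) ∣ a)) :
    ((R.totient : ℝ) / R) * gq a.natAbs = ∏ p ∈ S, (((p : ℝ) - 1) / p) := by
  have ha0 : a.natAbs ≠ 0 := Int.natAbs_ne_zero.2 ha
  have h1 : a.natAbs.primeFactors = R.primeFactors.filter (fun p : ℕ => (p : ℤ) ∣ a) := by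
    ext p
    rw [mem_filter, Nat.mem_primeFactors, Nat.mem_primeFactors, Int.natCast_dvd]
    constructor
    · rintro ⟨h1, h2, h3⟩
      exact ⟨⟨h1, h2.trans haR, hR⟩, h2⟩
    · rintro ⟨⟨h1, h2, h3⟩, h4⟩
      exact ⟨h1, h4, ha0⟩
  have hpos : ∀ p ∈ R.primeFactors, (0 : ℝ) < (p : ℝ) / ((p : ℝ) - 1) := fun p hp => by
    have : (1 : ℝ) < p := by exact_mod_cast (Nat.prime_of_mem_primeFactors hp).one_lt
    exact div_pos (by linarith) (by linarith)
  have h2 : ((R.totient : ℝ) / R) = (gq R)⁻¹ := by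
    rw [gq, inv_div]
  rw [h2, CNTXh.gq_eq R hR, CNTXh.gq_eq _ ha0, h1,
    ← Finset.prod_filter_mul_prod_filter_not R.primeFactors (fun p : ℕ => (p : ℤ) ∣ a), ← hS]
  have h3 : 0 < ∏ p ∈ R.primeFactors.filter (fun p : ℕ => (p : ℤ) ∣ a),
      ((p : ℝ) / ((p : ℝ) - 1)) := Finset.prod_pos fun p hp => hpos p (mem_filter.1 hp).1
  rw [mul_inv, mul_comm, ← mul_assoc, mul_inv_cancel₀ h3.ne', one_mul, ← Finset.prod_inv_distrib]
  refine Finset.prod_congr rfl fun p _ => ?_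
  rw [inv_div]

end WRVh

open WRVh in
/-- MODULE WRV -/
theorem t_WRV : S_WRV := by
  classical
  rintro ⟨c, hc, hN⟩
  refine ⟨c / 2, by positivity, fun a R ha haR hR => ?_⟩
  obtain ⟨N₀, hN⟩ := hN (4 * R)
  have hR1 : (1 : ℝ) ≤ R := by exact_mod_cast Nat.one_le_iff_ne_zero.2 hR
  refine ⟨|N₀| + 16 + (6 * R + 4) + 4 * (R : ℝ) ^ 2, fun L hL => ?_⟩
  have hN0 : 0 ≤ |N₀| := abs_nonneg _
  have hN0' : N₀ ≤ |N₀| := le_abs_self _
  have hL16 : 16 ≤ L := by nlinarith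
  have hL0 : 0 < L := by linarith
  have hLR : 6 * (R : ℝ) + 4 ≤ L := by nlinarith
  have hLN : N₀ ≤ L := by nlinarith
  have hLR2 : 4 * (R : ℝ) ^ 2 ≤ L := by nlinarith
  have hE := Real.exp_pos L
  have hEL : L + 1 ≤ Real.exp L := Real.add_one_le_exp L
  have hsR : 2 * (R : ℝ) ≤ Real.sqrt L := Real.le_sqrt_of_sq_le (by nlinarith)
  have hsq := Real.sq_sqrt hL0.le
  have hs0 : 0 < Real.sqrt L := Real.sqrt_pos.2 hL0
  have hlogL : Real.log L ≤ 2 * Real.sqrt L := by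
    have h1 := Real.log_le_sub_one_of_pos hs0
    rw [Real.log_sqrt hL0.le] at h1
    linarith
  have hlog0 : 0 ≤ Real.log L := Real.log_nonneg (by linarith)
  have hRlog : (R : ℝ) * Real.log L ≤ L := by
    calc (R : ℝ) * Real.log L ≤ R * (2 * Real.sqrt L) :=
          mul_le_mul_of_nonneg_left hlogL (by linarith)
      _ ≤ L := by nlinarith
  have hL2 : L ^ 2 ≤ Real.exp L := by
    have h1 := Real.pow_div_factorial_le_exp L hL0.le 3
    have h2 : ((Nat.factorial 3 : ℕ) : ℝ) = 6 := by norm_num [Nat.factorial]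
    rw [h2] at h1
    refine le_trans ?_ h1
    rw [le_div_iff₀ (by norm_num)]
    have h3 : L ^ 2 * 6 ≤ L ^ 2 * L := mul_le_mul_of_nonneg_left (by linarith) (by positivity)
    nlinarith
  -- the modulus of the small primes
  have hW1 : 1 ≤ WW 1 L := THDd.WW_pos 1 L
  have hWe : ((WW 1 L : ℕ) : ℝ) ≤ Real.exp (L / 2) := by
    refine (IP.PSM.W_le 1 L (Real.sqrt L) rfl).trans ?_
    apply Real.exp_le_exp.2
    have h2 : 4 ≤ Real.sqrt L := Real.le_sqrt_of_sq_le (by linarith)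
    nlinarith
  have hhalf : Real.exp (L / 2) * Real.exp (L / 2) = Real.exp L := by
    rw [← Real.exp_add]
    congr 1
    ring
  have hh1 : L / 2 + 1 ≤ Real.exp (L / 2) := Real.add_one_le_exp _
  have hWL : ((WW 1 L : ℕ) : ℝ) * (2 * R + 2) + R ≤ Real.exp L := by
    have h1 : ((WW 1 L : ℕ) : ℝ) * (2 * R + 2) ≤ Real.exp (L / 2) * (2 * R + 2) :=
      mul_le_mul_of_nonneg_right hWe (by positivity)
    have h2 : (R : ℝ) ≤ Real.exp (L / 2) * R := le_mul_of_one_le_left (by linarith) (by linarith)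
    have h3 : Real.exp (L / 2) * (3 * R + 2) ≤ Real.exp (L / 2) * Real.exp (L / 2) :=
      mul_le_mul_of_nonneg_left (by linarith) (by positivity)
    nlinarith
  have hAL : 2 * (R : ℝ) ≤ Real.exp L := by linarith
  have hRW : ∀ p : ℕ, p.Prime → p ∣ R → p ∣ WW 1 L := by
    intro p hp hpR
    rw [WW]
    refine Finset.dvd_prod_of_mem (fun p => p) ?_
    rw [mem_filter, mem_Icc]
    refine ⟨⟨hp.one_le, Nat.le_floor ?_⟩, hp, fun h => hp.one_lt.ne' (Nat.dvd_one.1 h)⟩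
    have h1 : (p : ℝ) ≤ R := by exact_mod_cast Nat.le_of_dvd (Nat.pos_of_ne_zero hR) hpR
    linarith
  obtain ⟨d, hd4, hd2, hd⟩ := hN (Real.exp L) (by linarith)
  rw [Real.log_exp] at hd
  refine ⟨d, hd4, fun r hr hrL hcop h2r hdr => ?_⟩
  have hr1 : (1 : ℝ) ≤ r := by exact_mod_cast hr
  set S := R.primeFactors.filter (fun p : ℕ => ¬ (p : ℤ) ∣ a) with hS
  have hSp : ∀ p ∈ S, p.Prime := fun p hp =>
    Nat.prime_of_mem_primeFactors (mem_filter.1 hp).1
  have hSa : ∀ p ∈ S, ¬ (p : ℤ) ∣ a := fun p hp => (mem_filter.1 hp).2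
  set R₁ := ∏ p ∈ S, p with hR₁
  have hR₁R : R₁ ∣ R :=
    (Finset.prod_dvd_prod_of_subset _ _ _ (filter_subset _ _)).trans (Nat.prod_primeFactors_dvd R)
  have hR₁0 : 0 < R₁ := Finset.prod_pos fun p hp => (hSp p hp).pos
  have hR₁le : (R₁ : ℝ) ≤ R := by exact_mod_cast Nat.le_of_dvd (Nat.pos_of_ne_zero hR) hR₁R
  have h2S : 2 ∈ S → 2 ∣ r := fun h => h2r (by exact_mod_cast hSa 2 h)
  have hcount := count a r S hSp hSa h2S
  have hm1 : 1 ≤ r * R₁ := Nat.mul_pos hr hR₁0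
  have hmL : ((r * R₁ : ℕ) : ℝ) ≤ L ^ 2 := by
    push_cast
    calc (r : ℝ) * R₁ ≤ (L * Real.log L) * R :=
          mul_le_mul hrL hR₁le (Nat.cast_nonneg _) (by positivity)
      _ = L * (R * Real.log L) := by ring
      _ ≤ L * L := mul_le_mul_of_nonneg_left hRlog hL0.le
      _ = L ^ 2 := by ring
  have hdm : ¬ d ∣ r * R₁ := fun h => hdr (h.trans (Nat.mul_dvd_mul_left r hR₁R))
  have hrL2 : (r : ℝ) ≤ L ^ 2 := by
    refine le_trans ?_ hmL
    push_cast
    have : (1 : ℝ) ≤ R₁ := by exact_mod_cast hR₁0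
    nlinarith
  have hcls : ∀ x ∈ CC a r S, c * ((r : ℝ) * Real.exp L) / ((r * R₁ : ℕ).totient : ℝ) ≤
      ∑ p ∈ (Ioc ⌊(r : ℝ) * Real.exp L⌋₊ ⌊3 / 2 * ((r : ℝ) * Real.exp L)⌋₊).filter
        (fun p : ℕ => p.Prime ∧ (p : ZMod (r * R₁)) = ((a + r * x : ℤ) : ZMod (r * R₁))),
        Real.log p := by
    intro x hx
    rw [CC, mem_filter] at hx
    refine hd (r * R₁) hm1 hmL hdm ((a + r * x : ℤ) : ZMod (r * R₁)) ?_ ((r : ℝ) * Real.exp L)
      (le_mul_of_one_le_left hE.le hr1) ?_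
    · rw [ZMod.coe_int_isUnit_iff_isCoprime]
      push_cast
      apply IsCoprime.mul_left
      · have h1 : IsCoprime (r : ℤ) a := hcop.symm
        exact (IsCoprime.add_mul_left_right_iff).2 h1
      · rw [hR₁]
        push_cast
        apply IsCoprime.prod_left
        intro p hp
        rw [(Nat.prime_iff_prime_int.1 (hSp p hp)).coprime_iff_not_dvd]
        exact (hx.2 p hp).2
    · rw [pow_two]
      exact mul_le_mul_of_nonneg_right (hrL2.trans hL2) hE.le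
  have hsum := Finset.card_nsmul_le_sum (CC a r S) _ _ hcls
  rw [nsmul_eq_mul] at hsum
  have hcl := classes (a := a) (R := R) (r := r) hR hr hS
    (Ioc ⌊(r : ℝ) * Real.exp L⌋₊ ⌊3 / 2 * ((r : ℝ) * Real.exp L)⌋₊)
  rw [← hR₁] at hcl
  have hkey := key (L := L) hR haR hW1 hr hRW hWL hAL
  refine le_trans ?_ (hsum.trans (hcl.trans hkey))
  have htot := tot_le hr S hSp
  rw [← hR₁] at htot
  have hp1 : ∀ p ∈ S, (0 : ℝ) < (p : ℝ) - 1 := fun p hp => by
    have : (1 : ℝ) < p := by exact_mod_cast (hSp p hp).one_lt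
    linarith
  have hF : 0 < ∏ p ∈ S, ((p : ℝ) - 1) := Finset.prod_pos hp1
  have htp : (0 : ℝ) < ((r * R₁ : ℕ).totient : ℝ) := by
    exact_mod_cast Nat.totient_pos.2 hm1
  have hden := dens ha hR haR hS
  have e1 : c / 2 * (Real.exp L * ((R.totient : ℝ) / R) * gq a.natAbs) =
      c / 2 * Real.exp L * ∏ p ∈ S, (((p : ℝ) - 1) / p) := by
    rw [← hden]
    ring
  rw [e1]
  have hr0 : (0 : ℝ) < r := by linarith
  have hstep : c * Real.exp L / (∏ p ∈ S, ((p : ℝ) - 1)) ≤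
      c * ((r : ℝ) * Real.exp L) / ((r * R₁ : ℕ).totient : ℝ) := by
    rw [div_le_div_iff₀ hF htp]
    have h5 := mul_le_mul_of_nonneg_left htot (show 0 ≤ c * Real.exp L by positivity)
    linarith
  calc c / 2 * Real.exp L * ∏ p ∈ S, (((p : ℝ) - 1) / p)
      = (1 / 2 * ((∏ p ∈ S, ((p : ℝ) - 1)) * ∏ p ∈ S, (((p : ℝ) - 1) / p))) *
          (c * Real.exp L / (∏ p ∈ S, ((p : ℝ) - 1))) := by
        field_simp
    _ ≤ ((CC a r S).card : ℝ) * (c * Real.exp L / (∏ p ∈ S, ((p : ℝ) - 1))) :=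
        mul_le_mul_of_nonneg_right hcount (by positivity)
    _ ≤ ((CC a r S).card : ℝ) * (c * ((r : ℝ) * Real.exp L) / ((r * R₁ : ℕ).totient : ℝ)) :=
        mul_le_mul_of_nonneg_left hstep (Nat.cast_nonneg _)

end

end Pool.Agent.FCT
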