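import Pool.Agent.FCT.St4
import Pool.Agent.FCT.KERF
import Pool.Agent.FCT.KERB
import Pool.Agent.FCT.GRD
import Pool.Agent.FCT.MOM
import Pool.Agent.FCT.WLO
import Pool.Agent.FCT.TAI
import Pool.Agent.FCT.UPC
import Pool.Agent.FCT.UPP
import Pool.Agent.FCT.ZUP
import Pool.Agent.FCT.UNI
import Pool.Agent.FCT.LEI
import Pool.Agent.FCT.IND
import Pool.Agent.FCT.DIF
import Pool.Agent.FCT.LBA
import Pool.Agent.FCT.REP
import Pool.Agent.FCT.GOO
import Pool.Agent.FCT.SMO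
import Pool.Agent.FCT.APA
import Pool.Agent.FCT.CHD
import Pool.Agent.FCT.LEVX
import Pool.Agent.FCT.HITY
import Pool.Agent.FCT.CONX
import Pool.Agent.FCT.MOFX
import Pool.Agent.FCT.EDPUX
import Pool.Agent.FCT.BTX
import Pool.Agent.FCT.SMC
import Pool.Agent.FCT.EXD
import Pool.Agent.FCT.APD
import Pool.Agent.FCT.LPYV
import Pool.Agent.FCT.LPUV
import Pool.Agent.FCT.EDQUV
import Pool.Agent.FCT.SGB
import Pool.Agent.FCT.CNTV
import Pool.Agent.FCT.GSV
import Pool.Agent.FCT.RSUV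
import Pool.Agent.FCT.WRV
import Pool.Agent.FCT.PSV
import Pool.Agent.FCT.SLUV
import Pool.Agent.FCT.FNAV
import Pool.Agent.FCT.FNUV
import Pool.Agent.CRE.Asm
import Pool.Agent.IP.CRL
import Pool.Agent.IP.CRU
import Pool.Agent.IPP.LEV
import Pool.Agent.IPP.AVG
import Pool.Agent.IPP.GLEV
import Pool.Agent.UIP.BLHU
import Pool.Agent.UIP.VSHU
import Pool.Agent.UIP.KVHU
import Pool.Agent.UIP.PARH
import Pool.Agent.UIP.LARG

set_option autoImplicit false

/-!
# FCT, part V: assembly (helper82)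
-/

namespace Pool.Agent.FCT

open Pool.Agent.IPP


/-- Bounds for the characters, with a large exceptional modulus. -/
theorem chd : ChD :=
  t_CHD t_ZUP t_DIF t_REP t_SMC t_EXD t_LBA t_GOO t_LEI t_IND

/-- Primes in progressions, with a large exceptional modulus. -/
theorem aq : AQ :=
  t_APD t_MOM t_WLO t_APA (t_UNI (t_UPC t_TAI) (t_UPP t_TAI)) chd
    (t_APA t_MOM t_KERF t_KERB (t_GRD t_KERF) t_SMO)

/-- The core inequality. -/
theorem coreV : CoreV :=
  t_LPUV (t_LPYV Pool.Agent.CRE.lpa Pool.Agent.CRE.loc (Pool.Agent.CRE.t_CNY Pool.Agent.CRE.t_COA)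
    Pool.Agent.CRE.t_COA t_LEVX t_HITY t_CONX) t_LEVX lev avg (glev lev)

/-- The engine, uniform. -/
theorem engV : EngV :=
  t_EDQUV coreV IP.t_CRL IP.t_CRU t_MOFX t_EDPUX UIP.t_BLHU UIP.t_VSHU UIP.t_KVHU UIP.t_PARH
    UIP.t_LARG

/-- Many good pairs, uniform. -/
theorem selV : SelV :=
  t_SLUV (t_PSV (t_WRV aq)) t_CNTV t_GSV (t_RSUV t_BTX t_CNTV t_GSV)

/-- Exactly one prime of a finite set of classes in every window, for many moduli, uniform. -/
theorem finV : FinV :=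
  t_FNUV t_SGB UIP.t_KVHU engV selV t_FNAV

end Pool.Agent.FCT
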