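import Pool.Agent.FCT.St4
import Pool.Agent.FCT.RSUX

/-!
# FCT, module RSUV: the number of surviving sites for one `r`, finite sets of classes (helper90)
-/

set_option autoImplicit false

namespace Pool.Agent.FCT

open Finset Pool.Agent.Lib_helper9.LG

noncomputable section

namespace RSUV

/-- the classes modulo `W` -/
lemma count (a : ℤ) (R W r k : ℕ) (b' : ℤ) (hRW : ∀ p : ℕ, p.Prime → p ∣ R → p ∣ W) :
    ((BV a R W r).filter (fun b : ℕ => IsCoprime (b' + (k : ℤ) * (b : ℤ)) (W : ℤ))).card ≤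
      ((range W).filter (fun b : ℕ => (IsCoprime (a + (r : ℤ) * (b : ℤ)) (W : ℤ) ∧
        b.Coprime R) ∧ IsCoprime (b' + (k : ℤ) * (b : ℤ)) (W : ℤ))).card := by
  have key : ∀ (b : ℕ) (x : ℤ) (c : ℤ), W * (2 * R + 1) ≤ b →
      IsCoprime (x + c * (b : ℤ)) (W : ℤ) →
      IsCoprime (x + c * ((b - W * (2 * R + 1) : ℕ) : ℤ)) (W : ℤ) := by
    intro b x c hb h
    have e : x + c * ((b - W * (2 * R + 1) : ℕ) : ℤ) =
        x + c * (b : ℤ) + (W : ℤ) * (-(c * (2 * (R : ℤ) + 1))) := by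
      rw [Nat.cast_sub hb]
      push_cast
      ring
    rw [e]
    exact IsCoprime.add_mul_left_left_iff.2 h
  have key2 : ∀ b : ℕ, W * (2 * R + 1) ≤ b → b.Coprime R →
      (b - W * (2 * R + 1)).Coprime R := by
    intro b hb h
    refine Nat.coprime_of_dvd fun p hp h1 h2 => ?_
    have h3 : p ∣ W * (2 * R + 1) := (hRW p hp h2).mul_right _
    have h4 : p ∣ b := (Nat.dvd_sub_iff_left hb h3).1 h1
    exact hp.one_lt.ne' (Nat.eq_one_of_dvd_coprimes h h4 h2)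
  refine card_le_card_of_injOn (fun b : ℕ => b - W * (2 * R + 1)) ?_ ?_
  · intro b hb
    have hb' := mem_filter.1 (mem_coe.1 hb)
    have hb1 := mem_filter.1 hb'.1
    have hb2 := mem_Ico.1 hb1.1
    refine mem_coe.2 (mem_filter.2 ⟨mem_range.2 ?_, ⟨key b a r hb2.1 hb1.2.1,
      key2 b hb2.1 hb1.2.2⟩, key b b' k hb2.1 hb'.2⟩)
    have e : W * (2 * R + 2) = W * (2 * R + 1) + W := by ring
    have := hb2.2
    dsimp only
    omega
  · intro b hb c hc h
    have hb2 := mem_Ico.1 (mem_filter.1 (mem_filter.1 (mem_coe.1 hb)).1).1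
    have hc2 := mem_Ico.1 (mem_filter.1 (mem_filter.1 (mem_coe.1 hc)).1).1
    dsimp only at h
    omega

/-- the sites for the class `b'` -/
def TV (a : ℤ) (r K : ℕ) (b' : ℤ) : Finset ℕ :=
  (Icc 1 K).filter (fun k : ℕ => IsCoprime b' (k : ℤ) ∧ ¬ (b' = a ∧ k = r))

lemma swap (𝓑 : Finset ℤ) (a : ℤ) (R W r K : ℕ) :
    ∑ b ∈ BV a R W r, ((PV 𝓑 a W b r K).card : ℝ) =
      ∑ b' ∈ 𝓑, ∑ k ∈ TV a r K b', (((BV a R W r).filter
        (fun b : ℕ => IsCoprime (b' + (k : ℤ) * (b : ℤ)) (W : ℤ))).card : ℝ) := by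
  have h1 : ∀ b : ℕ, ((PV 𝓑 a W b r K).card : ℝ) = ∑ b' ∈ 𝓑, ∑ k ∈ TV a r K b',
      if IsCoprime (b' + (k : ℤ) * (b : ℤ)) (W : ℤ) then (1 : ℝ) else 0 := by
    intro b
    unfold PV TV
    rw [card_filter, Nat.cast_sum, sum_product]
    refine sum_congr rfl fun b' _ => ?_
    rw [sum_filter]
    refine sum_congr rfl fun k _ => ?_
    by_cases h2 : IsCoprime b' (k : ℤ) ∧ ¬ (b' = a ∧ k = r)
    · by_cases h3 : IsCoprime (b' + (k : ℤ) * (b : ℤ)) (W : ℤ)
      · rw [if_pos ⟨h2.1, h2.2, h3⟩, if_pos h2, if_pos h3, Nat.cast_one]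
      · rw [if_neg fun h => h3 h.2.2, if_pos h2, if_neg h3, Nat.cast_zero]
    · rw [if_neg fun h => h2 ⟨h.1, h.2.1⟩, if_neg h2, Nat.cast_zero]
  simp only [h1]
  rw [sum_comm]
  refine sum_congr rfl fun b' _ => ?_
  rw [sum_comm]
  refine sum_congr rfl fun k _ => ?_
  rw [card_filter, Nat.cast_sum]
  refine sum_congr rfl fun b _ => ?_
  split_ifs
  · rw [Nat.cast_one]
  · rw [Nat.cast_zero]

lemma sumZ (f : ℤ → ℝ) (hf : ∀ k, 0 ≤ f k) (T : Finset ℤ) (J : Finset ℕ)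
    (h : ∀ j ∈ J, (j : ℤ) ∈ T) : ∑ j ∈ J, f (j : ℤ) ≤ ∑ k ∈ T, f k := by
  have e : ∑ j ∈ J, f (j : ℤ) = ∑ k ∈ J.image (fun j : ℕ => (j : ℤ)), f k := by
    rw [sum_image]
    intro x _ y _ hxy
    exact Int.ofNat_inj.1 hxy
  rw [e]
  refine sum_le_sum_of_subset_of_nonneg ?_ fun k _ _ => hf k
  intro k hk
  obtain ⟨j, hj, rfl⟩ := mem_image.1 hk
  exact h j hj

/-- the sites with `a k = r b'` -/
lemma ne_site (a b' : ℤ) (r k : ℕ) (ha : a ≠ 0) (hr : 1 ≤ r) (hk : 1 ≤ k)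
    (h1 : IsCoprime a (r : ℤ)) (h2 : IsCoprime b' (k : ℤ)) (h3 : ¬ (b' = a ∧ k = r)) :
    a * (k : ℤ) ≠ (r : ℤ) * b' := by
  intro h
  have d1 : a ∣ b' := h1.dvd_of_dvd_mul_left (Dvd.intro _ h)
  have d2 : b' ∣ a := h2.dvd_of_dvd_mul_right (Dvd.intro_left _ h.symm)
  rcases Int.natAbs_eq_natAbs_iff.1 (Int.natAbs_eq_of_dvd_dvd d1 d2) with h4 | h4
  · rw [← h4] at h
    have h5 : (k : ℤ) = r := mul_left_cancel₀ ha (by rw [h]; ring)
    exact h3 ⟨h4.symm, by exact_mod_cast h5⟩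
  · have h5 : a * ((k : ℤ) + r) = 0 := by
      have h6 : b' = -a := by rw [h4, neg_neg]
      rw [h6] at h
      linear_combination h
    rcases mul_eq_zero.1 h5 with h6 | h6
    · exact ha h6
    · omega

lemma dvd_RB {𝓑 : Finset ℤ} {b : ℤ} (h : b ∈ 𝓑) : b.natAbs ∣ RB 𝓑 :=
  dvd_prod_of_mem (fun b : ℤ => b.natAbs) h

lemma RB_pos {𝓑 : Finset ℤ} (h : 0 ∉ 𝓑) : 0 < RB 𝓑 := by
  refine Finset.prod_pos fun b hb => Int.natAbs_pos.2 ?_
  rintro rfl
  exact h hb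

/-- the quotients by the greatest common divisor -/
lemma quo (a b' : ℤ) (r : ℕ) (ha : a ≠ 0) (har : IsCoprime a (r : ℤ)) :
    ∃ q s : ℤ, q ≠ 0 ∧ IsCoprime q s ∧ |q| ≤ |a| ∧ |s| ≤ (r : ℤ) * |b'| ∧
      ∀ k : ℕ, (a * k - r * b').natAbs / Int.gcd a b' = (q * (k : ℤ) - s).natAbs ∧
        (q * (k : ℤ) = s → a * (k : ℤ) = (r : ℤ) * b') := by
  have hg : 0 < Int.gcd a b' := Int.gcd_pos_of_ne_zero_left _ ha
  obtain ⟨q, hq⟩ : (Int.gcd a b' : ℤ) ∣ a := Int.gcd_dvd_left ..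
  obtain ⟨t, ht⟩ : (Int.gcd a b' : ℤ) ∣ b' := Int.gcd_dvd_right ..
  set g : ℕ := Int.gcd a b' with hgd
  have hgZ : (0 : ℤ) < (g : ℤ) := by exact_mod_cast hg
  have hq0 : q ≠ 0 := by
    rintro rfl
    rw [mul_zero] at hq
    exact ha hq
  have hqt : IsCoprime q t := by
    rw [Int.isCoprime_iff_gcd_eq_one]
    have h1 : Int.gcd ((g : ℤ) * q) ((g : ℤ) * t) = g * Int.gcd q t := by
      rw [Int.gcd_mul_left, Int.natAbs_natCast]
    rw [← hq, ← ht, ← hgd] at h1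
    have h2 : g * 1 = g * Int.gcd q t := by rw [mul_one]; exact h1
    exact (Nat.eq_of_mul_eq_mul_left hg h2).symm
  have hqr : IsCoprime q (r : ℤ) := by
    rw [hq] at har
    exact har.of_mul_left_right
  refine ⟨q, (r : ℤ) * t, hq0, hqr.mul_right hqt, ?_, ?_, fun k => ⟨?_, ?_⟩⟩
  · rw [hq, abs_mul]
    have : |(g : ℤ)| ≥ 1 := by
      rw [abs_of_pos hgZ]
      omega
    nlinarith [abs_nonneg q]
  · rw [abs_mul, ht, abs_mul, abs_of_nonneg (by positivity : (0 : ℤ) ≤ (r : ℤ))]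
    refine mul_le_mul_of_nonneg_left ?_ (by positivity)
    have : |(g : ℤ)| ≥ 1 := by
      rw [abs_of_pos hgZ]
      omega
    nlinarith [abs_nonneg t]
  · have e : a * k - r * b' = (g : ℤ) * (q * (k : ℤ) - r * t) := by
      calc a * k - r * b' = ((g : ℤ) * q) * k - r * ((g : ℤ) * t) := by rw [← hq, ← ht]
        _ = _ := by ring
    rw [e, Int.natAbs_mul, Int.natAbs_natCast, Nat.mul_div_cancel_left _ hg]
  · intro h
    calc a * (k : ℤ) = (g : ℤ) * (q * (k : ℤ)) := by rw [← mul_assoc, ← hq]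
      _ = (r : ℤ) * ((g : ℤ) * t) := by rw [h]; ring
      _ = (r : ℤ) * b' := by rw [← ht]

end RSUV

open RSUV in
theorem t_RSUV : S_RSUV := by
  intro hBT hCN hGS
  obtain ⟨C1, hC1, hBT⟩ := hBT
  obtain ⟨C2, hC2, hGS⟩ := hGS
  have hC2' : 0 < C2 := lt_of_lt_of_le one_pos hC2
  refine ⟨2 * C1 * C2, by positivity, fun 𝓑 a h0 ha𝓑 => ?_⟩
  have ha : a ≠ 0 := by
    rintro rfl
    exact h0 ha𝓑
  obtain ⟨L1, hL1⟩ := hBT a ha
  choose! D hD0 hG using hGS
  have hR1 : 1 ≤ RB 𝓑 := RB_pos h0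
  set R : ℕ := RB 𝓑 with hR
  have hRR : (1 : ℝ) ≤ (R : ℝ) := by exact_mod_cast hR1
  have haR : a.natAbs ∣ R := dvd_RB ha𝓑
  set ρ : ℤ → ℝ := fun b' => (b'.natAbs.totient : ℝ) / b'.natAbs with hρ
  have hm1 : ∀ b' ∈ 𝓑, 1 ≤ b'.natAbs := fun b' hb' => Int.natAbs_pos.2 (by
    rintro rfl
    exact h0 hb')
  have hρ0 : ∀ b' ∈ 𝓑, 0 < ρ b' := by
    intro b' hb'
    have h1 : 0 < b'.natAbs.totient := Nat.totient_pos.2 (hm1 b' hb')
    have h2 : (0 : ℝ) < (b'.natAbs : ℝ) := by exact_mod_cast hm1 b' hb'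
    have h3 : (0 : ℝ) < (b'.natAbs.totient : ℝ) := by exact_mod_cast h1
    exact div_pos h3 h2
  set Sg : ℝ := ∑ b' ∈ 𝓑, (2 * D b'.natAbs / (C2 * ρ b')) ^ 2 * R with hSg
  refine ⟨max L1 (max 256 (max (8 * (2 * (R : ℝ) + 2)) (max ((R : ℝ) ^ 2) Sg))), ?_⟩
  intro L hL K r hLK hKL hr hrK har
  have hLL1 : L1 ≤ L := (le_max_left _ _).trans hL
  have hL256 : 256 ≤ L := ((le_max_left _ _).trans (le_max_right _ _)).trans hL
  have hLm : 8 * (2 * (R : ℝ) + 2) ≤ L :=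
    (((le_max_left _ _).trans (le_max_right _ _)).trans (le_max_right _ _)).trans hL
  have hLR : (R : ℝ) ^ 2 ≤ L :=
    ((((le_max_left _ _).trans (le_max_right _ _)).trans (le_max_right _ _)).trans
      (le_max_right _ _)).trans hL
  have hLD : Sg ≤ L :=
    ((((le_max_right _ _).trans (le_max_right _ _)).trans (le_max_right _ _)).trans
      (le_max_right _ _)).trans hL
  set W : ℕ := WW 1 L with hW
  have hW1 : 1 ≤ W := THDd.WW_pos 1 L
  have hWR : (0 : ℝ) < (W : ℝ) := by exact_mod_cast hW1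
  have hWt : (0 : ℝ) < (W.totient : ℝ) := by exact_mod_cast Nat.totient_pos.2 hW1
  have hrt : (0 : ℝ) < (r.totient : ℝ) := by exact_mod_cast Nat.totient_pos.2 hr
  have hWL : (W : ℝ) ≤ Real.exp (2 * Real.sqrt L) := IP.EDQ.W_le (by linarith)
  have hsq : Real.sqrt L ≤ L / 16 := by
    rw [Real.sqrt_le_left (by linarith)]
    have h1 := mul_le_mul_of_nonneg_left hL256 (by linarith : (0 : ℝ) ≤ L)
    calc L = L * 256 / 256 := by ring
      _ ≤ L * L / 256 := by linarith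
      _ = (L / 16) ^ 2 := by ring
  -- the primes of `R`
  have hRW : ∀ p : ℕ, p.Prime → p ∣ R → p ∣ W := by
    intro p hp hpR
    have h1 : p ≤ R := Nat.le_of_dvd hR1 hpR
    have h2 : (p : ℝ) ≤ Real.sqrt L := by
      have h3 : (R : ℝ) ≤ Real.sqrt L := Real.le_sqrt_of_sq_le hLR
      have h4 : (p : ℝ) ≤ (R : ℝ) := by exact_mod_cast h1
      exact h4.trans h3
    have h3 : p ∈ (Icc 1 ⌊Real.sqrt L⌋₊).filter (fun p => p.Prime ∧ ¬ p ∣ 1) :=
      mem_filter.2 ⟨mem_Icc.2 ⟨hp.one_lt.le, Nat.le_floor h2⟩, hp, fun h =>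
        hp.one_lt.ne' (Nat.dvd_one.1 h)⟩
    rw [hW]
    unfold WW
    exact dvd_prod_of_mem (fun p : ℕ => p) h3
  -- the progression
  have hP : ∀ b ∈ BV a R W r, Prog a W b r L := by
    intro b hb
    have hb1 := mem_filter.1 hb
    have hb2 := mem_Ico.1 hb1.1
    refine ⟨hW1, hWL, ?_, ?_, hb1.2.1, har, hr, ?_⟩
    · have h1 : a.natAbs ≤ R := Nat.le_of_dvd hR1 haR
      have h2 : 2 * R + 1 ≤ b := (Nat.le_mul_of_pos_left _ hW1).trans hb2.1
      omega
    · have h1 : (b : ℝ) ≤ (W : ℝ) * (2 * (R : ℝ) + 2) := by exact_mod_cast hb2.2.le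
      have h2 : 2 * (R : ℝ) + 2 ≤ Real.exp (L / 8) := by
        have := Real.add_one_le_exp (L / 8)
        linarith
      calc (b : ℝ) ≤ (W : ℝ) * (2 * (R : ℝ) + 2) := h1
        _ ≤ Real.exp (2 * Real.sqrt L) * Real.exp (L / 8) :=
          mul_le_mul hWL h2 (by positivity) (Real.exp_pos _).le
        _ = Real.exp (2 * Real.sqrt L + L / 8) := (Real.exp_add _ _).symm
        _ ≤ Real.exp (L / 4) := Real.exp_le_exp.2 (by linarith)
    · exact le_trans (by exact_mod_cast hrK) hKL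
  -- Brun-Titchmarsh
  have hTh : ∀ b ∈ BV a R W r, ThL a r W b L ≤ C1 * (gq r * (Real.exp L / W.totient)) := by
    intro b hb
    have h1 := hL1 L hLL1 W b r (hP b hb)
    have h2 : ((r.totient : ℝ) * W.totient) ≤ ((r * W).totient : ℝ) := by
      exact_mod_cast Nat.totient_super_multiplicative r W
    have h3 : ThL a r W b L * ((r.totient : ℝ) * W.totient) ≤ C1 * (r * Real.exp L) :=
      (mul_le_mul_of_nonneg_left h2 (RSUX.ThL_nonneg a r W b L)).trans h1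
    rw [← le_div_iff₀ (by positivity)] at h3
    refine h3.trans (le_of_eq ?_)
    unfold gq
    field_simp
  -- the sites
  have hsites : ∀ b' ∈ 𝓑, ∀ k ∈ TV a r K b', (((BV a R W r).filter
      (fun b : ℕ => IsCoprime (b' + (k : ℤ) * (b : ℤ)) (W : ℤ))).card : ℝ) ≤
      (W.totient : ℝ) ^ 2 / W * ((R.totient : ℝ) / R) * gq a.natAbs * gq r *
        (gq b'.natAbs * (gq k * gq ((a * k - r * b').natAbs / Int.gcd a b'))) := by
    intro b' hb' k hk
    have hk1 := mem_filter.1 hk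
    have hk2 := mem_Icc.1 hk1.1
    have hb0 : b' ≠ 0 := by
      rintro rfl
      exact h0 hb'
    have h1 := (hCN a R W r (RSUX.WW_sqf 1 L) ha haR (by omega) hRW har hr).2 b' k hb0
      (dvd_RB hb') hk1.2.1 hk2.1 hk1.2.2
    have h2 : (((BV a R W r).filter
        (fun b : ℕ => IsCoprime (b' + (k : ℤ) * (b : ℤ)) (W : ℤ))).card : ℝ) ≤
        (((range W).filter (fun b : ℕ => (IsCoprime (a + (r : ℤ) * (b : ℤ)) (W : ℤ) ∧
          b.Coprime R) ∧ IsCoprime (b' + (k : ℤ) * (b : ℤ)) (W : ℤ))).card : ℝ) := by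
      exact_mod_cast count a R W r k b' hRW
    refine h2.trans ?_
    rw [← le_div_iff₀ hWR] at h1
    refine h1.trans (le_of_eq ?_)
    ring
  have hK1 : (1 : ℝ) ≤ (K : ℝ) := by linarith
  have hI : ∀ b' ∈ 𝓑, ∀ q s : ℤ, q ≠ 0 → IsCoprime q s → |(q : ℝ)| ≤ R → |(s : ℝ)| ≤ K * R →
      (∀ k ∈ TV a r K b', q * (k : ℤ) ≠ s) →
      ∑ k ∈ TV a r K b', gq (q * (k : ℤ) - s).natAbs ^ 2 ≤ 2 * C2 * (ρ b' * K) := by
    intro b' hb' q s hq0 hqs hqR hsR hne
    have h1 := hG b'.natAbs (hm1 b' hb') q s 0 K hq0 hqs (by positivity)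
    have h2 : ∑ k ∈ TV a r K b', gq (q * (k : ℤ) - s).natAbs ^ 2 ≤
        ∑ k ∈ (Ioc (0 : ℤ) K).filter (fun k => IsCoprime k (b'.natAbs : ℤ) ∧ q * k ≠ s),
          gq (q * k - s).natAbs ^ 2 := by
      refine sumZ (fun k => gq (q * k - s).natAbs ^ 2) (fun k => sq_nonneg _) _ _ ?_
      intro k hk
      have hk1 := mem_filter.1 hk
      have hk2 := mem_Icc.1 hk1.1
      refine mem_filter.2 ⟨mem_Ioc.2 ⟨by omega, by omega⟩, ?_, hne k hk⟩
      have h3 := Int.isCoprime_iff_gcd_eq_one.1 hk1.2.1.symm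
      refine Int.isCoprime_iff_gcd_eq_one.2 ?_
      show Nat.gcd (k : ℤ).natAbs (b'.natAbs : ℤ).natAbs = 1
      rw [Int.natAbs_natCast b'.natAbs]
      exact h3
    refine (h2.trans h1).trans ?_
    have hD : D b'.natAbs * Real.sqrt (|(q : ℝ) * ((0 : ℤ) : ℝ) - s| +
        |(q : ℝ) * ((K : ℤ) : ℝ) - s| + 1) ≤ C2 * (ρ b' * K) := by
      have e1 : |(q : ℝ) * ((0 : ℤ) : ℝ) - s| + |(q : ℝ) * ((K : ℤ) : ℝ) - s| + 1 ≤
          4 * (R * K) := by
        have e2 : |(q : ℝ) * ((0 : ℤ) : ℝ) - s| = |(s : ℝ)| := by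
          rw [Int.cast_zero, mul_zero, zero_sub, abs_neg]
        have e3 : |(q : ℝ) * ((K : ℤ) : ℝ) - s| ≤ |(q : ℝ)| * K + |(s : ℝ)| := by
          refine (abs_sub _ _).trans ?_
          rw [abs_mul, Int.cast_natCast, abs_of_nonneg (by positivity : (0 : ℝ) ≤ (K : ℝ))]
        have e4 : |(q : ℝ)| * K ≤ R * K := mul_le_mul_of_nonneg_right hqR (by positivity)
        have e5 : 1 ≤ (R : ℝ) * K := by nlinarith
        rw [e2]
        linarith
      have hq : Real.sqrt (|(q : ℝ) * ((0 : ℤ) : ℝ) - s| +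
          |(q : ℝ) * ((K : ℤ) : ℝ) - s| + 1) ≤ 2 * (Real.sqrt R * Real.sqrt K) := by
        refine (Real.sqrt_le_sqrt e1).trans (le_of_eq ?_)
        rw [Real.sqrt_mul (by norm_num), Real.sqrt_mul (by positivity),
          show (4 : ℝ) = 2 ^ 2 by norm_num, Real.sqrt_sq (by norm_num)]
      have hρb := hρ0 b' hb'
      have h6 : 2 * D b'.natAbs / (C2 * ρ b') * Real.sqrt R ≤ Real.sqrt K := by
        refine Real.le_sqrt_of_sq_le ?_
        rw [mul_pow, Real.sq_sqrt (by positivity)]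
        refine le_trans ?_ (hLD.trans hLK)
        rw [hSg]
        exact single_le_sum (f := fun b' => (2 * D b'.natAbs / (C2 * ρ b')) ^ 2 * (R : ℝ))
          (fun b' _ => by positivity) hb'
      have h7 : Real.sqrt K * Real.sqrt K = K := Real.mul_self_sqrt (by positivity)
      have h8 : 2 * D b'.natAbs * Real.sqrt R ≤ Real.sqrt K * (C2 * ρ b') := by
        have h9 := mul_le_mul_of_nonneg_right h6 (by positivity : 0 ≤ C2 * ρ b')
        have h10 : 2 * D b'.natAbs / (C2 * ρ b') * Real.sqrt R * (C2 * ρ b') =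
            2 * D b'.natAbs * Real.sqrt R := by
          field_simp
        rw [h10] at h9
        exact h9
      calc D b'.natAbs * Real.sqrt (|(q : ℝ) * ((0 : ℤ) : ℝ) - s| +
            |(q : ℝ) * ((K : ℤ) : ℝ) - s| + 1)
          ≤ D b'.natAbs * (2 * (Real.sqrt R * Real.sqrt K)) :=
            mul_le_mul_of_nonneg_left hq (hD0 _ (hm1 b' hb'))
        _ = (2 * D b'.natAbs * Real.sqrt R) * Real.sqrt K := by ring
        _ ≤ (Real.sqrt K * (C2 * ρ b')) * Real.sqrt K :=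
            mul_le_mul_of_nonneg_right h8 (Real.sqrt_nonneg _)
        _ = C2 * (ρ b' * (Real.sqrt K * Real.sqrt K)) := by ring
        _ = C2 * (ρ b' * K) := by rw [h7]
    have e6 : C2 * (((b'.natAbs.totient : ℝ) / b'.natAbs) * (((K : ℤ) : ℝ) - ((0 : ℤ) : ℝ))) =
        C2 * (ρ b' * K) := by
      rw [Int.cast_zero, sub_zero, Int.cast_natCast]
    rw [e6]
    linarith
  have hS : ∀ b' ∈ 𝓑, ∑ k ∈ TV a r K b',
      (gq b'.natAbs * (gq k * gq ((a * k - r * b').natAbs / Int.gcd a b'))) ≤ 2 * C2 * K := by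
    intro b' hb'
    have hb0 : b' ≠ 0 := by
      rintro rfl
      exact h0 hb'
    obtain ⟨q, s, hq0, hqs, hqa, hsb, hk⟩ := quo a b' r ha har
    have hab : ∀ x ∈ 𝓑, |(x : ℝ)| ≤ R := by
      intro x hx
      have h1 : x.natAbs ≤ R := Nat.le_of_dvd hR1 (dvd_RB hx)
      have h2 : |(x : ℝ)| = ((x.natAbs : ℕ) : ℝ) := by
        rw [← Int.cast_abs, Int.abs_eq_natAbs, Int.cast_natCast]
      rw [h2]
      exact_mod_cast h1
    have h1 := hI b' hb' 1 0 one_ne_zero isCoprime_one_left (by simpa using hRR)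
      (by rw [Int.cast_zero, abs_zero]; positivity) (fun k hk => by
        have := mem_Icc.1 (mem_filter.1 hk).1
        omega)
    have h2 := hI b' hb' q s hq0 hqs (by
      refine le_trans ?_ (hab a ha𝓑)
      exact_mod_cast hqa) (by
      have h3 : |(s : ℝ)| ≤ (r : ℝ) * |(b' : ℝ)| := by exact_mod_cast hsb
      refine h3.trans ?_
      exact mul_le_mul (by exact_mod_cast hrK) (hab b' hb') (abs_nonneg _) (by positivity))
      (fun k hkT h => by
        have hk1 := mem_filter.1 hkT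
        have hk2 := mem_Icc.1 hk1.1
        exact ne_site a b' r k ha hr hk2.1 har hk1.2.1 hk1.2.2 ((hk k).2 h))
    have h3 : ∑ k ∈ TV a r K b', (gq k * gq ((a * k - r * b').natAbs / Int.gcd a b')) ≤
        ∑ k ∈ TV a r K b', (1 / 2 * gq (1 * (k : ℤ) - 0).natAbs ^ 2 +
          1 / 2 * gq (q * (k : ℤ) - s).natAbs ^ 2) := by
      refine sum_le_sum fun k _ => ?_
      rw [(hk k).1]
      have e : (1 * (k : ℤ) - 0).natAbs = k := by
        rw [one_mul, sub_zero, Int.natAbs_natCast]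
      rw [e]
      have h3 := two_mul_le_add_sq (gq k) (gq (q * (k : ℤ) - s).natAbs)
      linarith
    rw [sum_add_distrib, ← mul_sum, ← mul_sum] at h3
    rw [← mul_sum]
    have hρb := hρ0 b' hb'
    have h4 : gq b'.natAbs * ρ b' = 1 := by
      have h5 : (0 : ℝ) < (b'.natAbs : ℝ) := by exact_mod_cast hm1 b' hb'
      have h6 : (0 : ℝ) < (b'.natAbs.totient : ℝ) := by
        exact_mod_cast Nat.totient_pos.2 (hm1 b' hb')
      rw [hρ]
      unfold gq
      field_simp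
    calc gq b'.natAbs * ∑ k ∈ TV a r K b',
          (gq k * gq ((a * k - r * b').natAbs / Int.gcd a b'))
        ≤ gq b'.natAbs * (2 * C2 * (ρ b' * K)) := by
          refine mul_le_mul_of_nonneg_left ?_ (RSUX.gq_nonneg _)
          linarith
      _ = 2 * C2 * ((gq b'.natAbs * ρ b') * K) := by ring
      _ = 2 * C2 * K := by rw [h4, one_mul]
  set U : ℝ := C1 * (gq r * (Real.exp L / W.totient)) with hU
  have hgr := RSUX.gq_nonneg r
  have hga := RSUX.gq_nonneg a.natAbs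
  have hU0 : 0 ≤ U := by positivity
  calc ∑ b ∈ BV a R W r, ((PV 𝓑 a W b r K).card : ℝ) * ThL a r W b L
      ≤ ∑ b ∈ BV a R W r, ((PV 𝓑 a W b r K).card : ℝ) * U :=
        sum_le_sum fun b hb => mul_le_mul_of_nonneg_left (hTh b hb) (Nat.cast_nonneg _)
    _ = (∑ b' ∈ 𝓑, ∑ k ∈ TV a r K b', (((BV a R W r).filter
        (fun b : ℕ => IsCoprime (b' + (k : ℤ) * (b : ℤ)) (W : ℤ))).card : ℝ)) * U := by
        rw [← sum_mul, swap]
    _ ≤ (∑ b' ∈ 𝓑, ∑ k ∈ TV a r K b', (W.totient : ℝ) ^ 2 / W * ((R.totient : ℝ) / R) *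
        gq a.natAbs * gq r *
          (gq b'.natAbs * (gq k * gq ((a * k - r * b').natAbs / Int.gcd a b')))) * U :=
        mul_le_mul_of_nonneg_right (sum_le_sum fun b' hb' =>
          sum_le_sum (hsites b' hb')) hU0
    _ = (W.totient : ℝ) ^ 2 / W * ((R.totient : ℝ) / R) * gq a.natAbs * gq r * U *
        ∑ b' ∈ 𝓑, ∑ k ∈ TV a r K b',
          (gq b'.natAbs * (gq k * gq ((a * k - r * b').natAbs / Int.gcd a b'))) := by
        simp only [← mul_sum]
        ring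
    _ ≤ (W.totient : ℝ) ^ 2 / W * ((R.totient : ℝ) / R) * gq a.natAbs * gq r * U *
        (𝓑.card * (2 * C2 * K)) := by
        refine mul_le_mul_of_nonneg_left ?_ (by positivity)
        refine (sum_le_sum hS).trans (le_of_eq ?_)
        rw [sum_const, nsmul_eq_mul]
    _ = 2 * C1 * C2 * (Real.exp L * ((W.totient : ℝ) / W) * ((R.totient : ℝ) / R) *
        gq a.natAbs * (𝓑.card * K) * gq r ^ 2) := by
        rw [hU]
        field_simp

end

end Pool.Agent.FCT
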